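import Pool.Agent.P.MP_ea46f5_nt.Q4.D0
import Pool.Agent.P.MP_ea46f5_nt.QM.S2

/-! Several-variable contours, the torus integral, the end of the proof: definitions, statements. -/

namespace Pool.Agent.Q4

open Complex MeasureTheory Finset
open scoped Real
open Pool.Agent.QM

noncomputable section

def pt {n : ℕ} (c t : Fin n → ℝ) : Fin n → ℂ := fun i => c i + t i * I

/-- Integral over a product of vertical lines with abscissae `c i` (measure `dt`). -/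
def In {n : ℕ} (c : Fin n → ℝ) (G : (Fin n → ℂ) → ℂ) : ℂ := ∫ t : Fin n → ℝ, G (pt c t)

def Box {n : ℕ} (a b : Fin n → ℝ) : Set (Fin n → ℂ) :=
  {s | ∀ i, a i ≤ (s i).re ∧ (s i).re ≤ b i}

/-- Jointly continuous, holomorphic in each variable. -/
def Sep {n : ℕ} (U : Set (Fin n → ℂ)) (G : (Fin n → ℂ) → ℂ) : Prop :=
  ContinuousOn G U ∧ ∀ s ∈ U, ∀ i, DifferentiableAt ℂ (fun w => G (Function.update s i w)) (s i)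

def dk {n : ℕ} (s : Fin n → ℂ) : ℝ := ∏ i, 1 / br (s i).im ^ 2

/-- `i ^ (-n)` times the torus integral, all radii equal to `r`. -/
def On {n : ℕ} (r : ℝ) (G : (Fin n → ℂ) → ℂ) : ℂ := (I ^ n)⁻¹ * torusIntegral G 0 (fun _ => r)

def Pd (n : ℕ) (r : ℝ) : Set (Fin n → ℂ) := {z | ∀ i, ‖z i‖ ≤ r}

def Ann (n : ℕ) (r r' : ℝ) : Set (Fin n → ℂ) := {z | ∀ i, r ≤ ‖z i‖ ∧ ‖z i‖ ≤ r'}

def us (s : Fin 4 → ℂ) : ℂ := (∑ i, s i) / 2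

def P8 (s : Fin 4 → ℂ) : ℂ := ∏ i, s i ^ 8

/-- The entire part of kernel times zeta factors:
`Δ(s²)² ∏ s⁻⁷ ∏_{i ≤ j} ζ(1 + s_i + s_j) = KZ4 s / P8 s`. -/
def KZ4 (s : Fin 4 → ℂ) : ℂ :=
  Vd s * Vd (fun j => s j ^ 2) / 16 * ∏ i, ∏ j ∈ Ici i, riemannZeta₁ (1 + s i + s j)

def Xh (a : ℕ) (u : ℂ) : ℂ := Xf a (1 / 2 + u) ^ (-1 / 2 : ℂ)

def Ph0 (a : ℕ) (z : Fin 4 → ℂ) : ℂ := KZ4 z * Aprod 4 z * ∏ j, Xh a (z j)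

/-- The gamma ratio of the approximate functional equation. -/
def gr (a : ℕ) (u : ℂ) : ℂ := Gammaℝ (1 / 2 + a + u) / Gammaℝ (1 / 2 + a)

/-- The weight `(u ^ 2 - 1 / 4) g1 u` of the paper. -/
def gg (a : ℕ) (c : Fin 3 → ℂ) (u : ℂ) : ℂ :=
  gr a u * ((1 - 4 * u ^ 2) * cexp (u ^ 2)) * (1 + c 0 * u ^ 2 + c 1 * u ^ 4 + c 2 * u ^ 6)

/-- The main term as an integral over four lines of abscissa `σ`. -/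
def MT (a : ℕ) (c : Fin 3 → ℂ) (σ X : ℝ) : ℂ :=
  3 / π ^ 2 * (24 * π ^ 4 : ℂ)⁻¹ * In (fun _ => σ) fun u =>
    (X : ℂ) ^ (1 + us u) / (1 + us u) * (KZ4 u * Aprod 4 u * ∏ j, gg a c (u j)) / P8 u

/-! Contours -/

def SDn : Prop := ∀ (n : ℕ) (a b c c' : Fin n → ℝ) (C : ℝ) (G : (Fin n → ℂ) → ℂ),
  (∀ i, a i ≤ c i ∧ c i ≤ b i) → (∀ i, a i ≤ c' i ∧ c' i ≤ b i) → Sep (Box a b) G →
  (∀ s ∈ Box a b, ‖G s‖ ≤ C * dk s) → In c G = In c' G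

/-- Integrability and the trivial bound. -/
def INB : Prop := ∀ (n : ℕ) (c : Fin n → ℝ) (C : ℝ) (G : (Fin n → ℂ) → ℂ),
  (Continuous fun t => G (pt c t)) → (∀ t, ‖G (pt c t)‖ ≤ C * dk (pt c t)) →
  Integrable (fun t => G (pt c t)) ∧ ‖In c G‖ ≤ C * 2 ^ n

def TOR : Prop := ∀ n m : ℕ, ∃ C : ℝ, 0 < C ∧
  ∀ (ρ c δ lam M : ℝ) (G : (Fin n → ℂ) → ℂ), 0 < ρ → ρ ≤ 1 → ρ < c → ρ < δ → 0 ≤ lam → 0 ≤ M →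
    Sep (Box (fun _ => -δ) fun _ => c) G →
    (∀ s ∈ Box (fun _ => -δ) fun _ : Fin n => c,
      ‖G s‖ ≤ M * dk s * Real.exp (lam * ∑ i, (s i).re)) →
    ‖In (fun _ => c) (fun s => G s / ∏ i, s i ^ m) - On ρ (fun s => G s / ∏ i, s i ^ m)‖ ≤
      C * M * Real.exp (lam * (n * c - δ)) / ρ ^ (m * n)

def RAD : Prop := ∀ (n : ℕ) (r r' : ℝ) (G : (Fin n → ℂ) → ℂ), 0 < r → r ≤ r' →
  Sep (Ann n r r') G → On r G = On r' G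

/-- Linearity, norm bound, vanishing. -/
def ONB : Prop :=
  (∀ (n : ℕ) (r M : ℝ) (G : (Fin n → ℂ) → ℂ), 0 < r → (∀ z ∈ Ann n r r, ‖G z‖ ≤ M) →
    ‖On r G‖ ≤ (2 * π * r) ^ n * M) ∧
  (∀ (n : ℕ) (r : ℝ) (G H : (Fin n → ℂ) → ℂ), 0 < r → ContinuousOn G (Ann n r r) →
    ContinuousOn H (Ann n r r) → On r (fun z => G z - H z) = On r G - On r H) ∧
  (∀ (n : ℕ) (r : ℝ) (i : Fin n) (G : (Fin n → ℂ) → ℂ), 0 < r → ContinuousOn G (Ann n r r) →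
    (∀ z ∈ Ann n r r, ∃ g : ℂ → ℂ, DifferentiableOn ℂ g (Metric.closedBall 0 r) ∧
      ∀ w : ℂ, ‖w‖ = r → G (Function.update z i w) = g w) → On r G = 0)

/-- Factors `1 + O(z ^ 8)` drop out. -/
def DROP : Prop := ∀ (r : ℝ) (F : (Fin 4 → ℂ) → ℂ) (e : ℂ → ℂ), 0 < r → Sep (Pd 4 r) F →
  (∀ w : ℂ, ‖w‖ ≤ r → DifferentiableAt ℂ e w) →
  On r (fun z => F z * (∏ j, (1 + z j ^ 8 * e (z j))) / P8 z) = On r fun z => F z / P8 z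

/-! The factors of `G` -/

/-- An even polynomial that turns the gamma ratio into `𝔛 ^ (-1/2)` up to `O(u ^ 8)`. -/
def TAY : Prop := ∀ a : ℕ, a ≤ 1 → ∀ g : ℂ → ℂ, Differentiable ℂ g → (∀ u, g (-u) = g u) → g 0 = 1 →
  ∃ (r₀ : ℝ) (c₁ c₂ c₃ : ℂ) (e : ℂ → ℂ), 0 < r₀ ∧ ∀ u : ℂ, ‖u‖ ≤ r₀ →
    DifferentiableAt ℂ (Xh a) u ∧ DifferentiableAt ℂ e u ∧
    gr a u * g u * (1 + c₁ * u ^ 2 + c₂ * u ^ 4 + c₃ * u ^ 6) = Xh a u * (1 + u ^ 8 * e u)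

def A4H : Prop :=
  Sep {z | ∀ i, -(1 / 8) < (z i).re} (Aprod 4) ∧
  (∃ C : ℝ, ∀ z : Fin 4 → ℂ, (∀ i, -(1 / 8) < (z i).re) → ‖Aprod 4 z‖ ≤ C) ∧ Aprod 4 0 ≠ 0

def PH0 : Prop := ∀ a : ℕ, a ≤ 1 → ∃ r₀ : ℝ, 0 < r₀ ∧ r₀ ≤ 1 / 16 ∧ Sep (Pd 4 r₀) (Ph0 a)

def QEQ : Prop := ∀ (a : ℕ) (r x : ℝ), 0 < r →
  Qf 4 a r x = 2 / 3 * ((2 * π : ℂ) ^ 4)⁻¹ * On r fun z => cexp (x * us z) * Ph0 a z / P8 z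

def QINT : Prop := ∀ (a : ℕ) (r X : ℝ), 0 < r → r ≤ 1 / 16 → 1 ≤ X → Sep (Pd 4 r) (Ph0 a) →
  X * Qm 4 a r X = 2 / 3 * ((2 * π : ℂ) ^ 4)⁻¹ *
    On r fun z => ((X : ℂ) ^ (1 + us z) - 1) / (1 + us z) * Ph0 a z / P8 z

def LEAD : Prop := ∀ a : ℕ, a ≤ 1 → ∃ r₀ c X₀ : ℝ, 0 < r₀ ∧ 0 < c ∧ ∀ r X : ℝ, 0 < r → r ≤ r₀ →
  X₀ ≤ X → c * Real.log X ^ 10 ≤ ‖Qm 4 a r X‖

/-- Size of `gg` and of `KZ4`. -/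
def GGB : Prop :=
  (∀ (a : ℕ) (c : Fin 3 → ℂ), a ≤ 1 → ∃ C : ℝ, 0 < C ∧ ∀ u : ℂ, -(1 / 4) ≤ u.re → u.re ≤ 13 →
    DifferentiableAt ℂ (gg a c) u ∧ ‖gg a c u‖ ≤ C * Real.exp (-(3 / 4) * u.im ^ 2)) ∧
  Differentiable ℂ KZ4 ∧
  ∃ (C : ℝ) (N : ℕ), 0 < C ∧ ∀ u : Fin 4 → ℂ, (∀ j, -(1 / 4) ≤ (u j).re ∧ (u j).re ≤ 13) →
    ‖KZ4 u‖ ≤ C * ∏ j, br (u j).im ^ N

/-- The main term is the one of the problem. -/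
def ENDP : Prop := ∀ a : ℕ, a ≤ 1 → ∃ (c : Fin 3 → ℂ) (r₀ : ℝ), 0 < r₀ ∧ ∀ r : ℝ, 0 < r → r ≤ r₀ →
  ∃ C X₀ : ℝ, ∀ X σ : ℝ, X₀ ≤ X → 0 < σ → σ ≤ 12 →
    ‖MT a c σ X - 3 * X / π ^ 2 * Qm 4 a r X‖ ≤ C * X

/-- The main term changes slowly. -/
def QLIP : Prop := ∀ a : ℕ, a ≤ 1 → ∃ r₀ C : ℝ, 0 < r₀ ∧ ∀ r X X' : ℝ, 0 < r → r ≤ r₀ → 3 ≤ X →
  X ≤ X' → ‖X' * Qm 4 a r X' - X * Qm 4 a r X‖ ≤ C * (X' - X) * Real.log X' ^ 10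

/-- The additive form, for the exponent `θ`. -/
def ADD (θ : ℝ) : Prop := ∀ a : ℕ, a ≤ 1 → ∃ r₀ : ℝ, 0 < r₀ ∧ ∀ r : ℝ, 0 < r → r ≤ r₀ →
  ∀ δ : ℝ, 0 < δ → ∃ C X₀ : ℝ, ∀ X : ℝ, X₀ ≤ X →
    ‖∑ d ∈ Sd a X, Lhalf d ^ 4 - 3 * X / π ^ 2 * Qm 4 a r X‖ ≤ C * X * Real.log X ^ (θ + δ)

def RATIO (θ : ℝ) : Prop := ∀ a : ℕ, a ≤ 1 → ∃ r₀ : ℝ, 0 < r₀ ∧ ∀ r : ℝ, 0 < r → r ≤ r₀ →
  ∀ δ : ℝ, 0 < δ → ∃ C X₀ : ℝ, ∀ X : ℝ, X₀ ≤ X →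
    ‖(∑ d ∈ Sd a X, Lhalf d ^ 4) / (3 * X / π ^ 2 * Qm 4 a r X) - 1‖ ≤
      C * Real.log X ^ (θ - 10 + δ)

end

end Pool.Agent.Q4
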