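import Pool.Agent.P.MP_ea46f5_nt.Q4.S4
import Pool.Agent.P.MP_ea46f5_nt.QM.FAF1
import Pool.Agent.P.MP_ea46f5_nt.QM.FSH

/-! The fourth power of the central value as a fourfold integral. -/

namespace Pool.Agent.Q4

open Complex MeasureTheory Finset Pool.Agent.QM
open scoped Real ComplexConjugate

theorem af4_vd (w : V4) :
    Vd w = ∑ σ : Equiv.Perm (Fin 4), ((Equiv.Perm.sign σ : ℤ) : ℂ) * ∏ j, w j ^ (σ j : ℕ) := by
  rw [Vd, ← Matrix.det_vandermonde, ← Matrix.det_transpose, Matrix.det_apply']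
  rfl

/-- A squared Vandermonde factor gives a Hankel determinant of moments. -/
theorem af4_hankel (c : ℝ) (F : ℂ → ℂ) (hL : ∀ m : ℕ, Lc c fun u => (u ^ 2) ^ m * F u) :
    In (cs c) (fun u => Vd (fun j => u j ^ 2) ^ 2 * ∏ j, F (u j)) =
      24 * (Matrix.of fun i j : Fin 4 => Iv c fun u => (u ^ 2) ^ ((i : ℕ) + j) * F u).det := by
  set H : Matrix (Fin 4) (Fin 4) ℂ :=
    Matrix.of fun i j : Fin 4 => Iv c fun u => (u ^ 2) ^ ((i : ℕ) + j) * F u with hH
  have hi : ∀ σ τ : Equiv.Perm (Fin 4), Integrable fun t : R4 =>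
      ((Equiv.Perm.sign σ : ℤ) : ℂ) * (((Equiv.Perm.sign τ : ℤ) : ℂ) *
        ∏ j, ((c + t j * I : ℂ) ^ 2) ^ ((τ j : ℕ) + σ j) * F (c + t j * I)) := fun σ τ =>
    ((Integrable.fintype_prod (f := fun j (x : ℝ) =>
      ((c + x * I : ℂ) ^ 2) ^ ((τ j : ℕ) + σ j) * F (c + x * I)) fun j => hL _).const_mul
        _).const_mul _
  have e : In (cs c) (fun u => Vd (fun j => u j ^ 2) ^ 2 * ∏ j, F (u j)) =
      ∫ t : R4, ∑ σ : Equiv.Perm (Fin 4), ∑ τ : Equiv.Perm (Fin 4),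
        ((Equiv.Perm.sign σ : ℤ) : ℂ) * (((Equiv.Perm.sign τ : ℤ) : ℂ) *
          ∏ j, ((c + t j * I : ℂ) ^ 2) ^ ((τ j : ℕ) + σ j) * F (c + t j * I)) := by
    refine integral_congr_ae (.of_forall fun t => ?_)
    simp only [af4_vd, sq (∑ _σ : Equiv.Perm (Fin 4), _), sum_mul_sum]
    simp only [sum_mul, pow_add, prod_mul_distrib, pt, cs]
    exact sum_congr rfl fun σ _ => sum_congr rfl fun τ _ => by ring
  rw [e, integral_finsetSum _ fun σ _ => integrable_finsetSum _ fun τ _ => hi σ τ]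
  have h1 : ∀ σ : Equiv.Perm (Fin 4), (∫ t : R4, ∑ τ : Equiv.Perm (Fin 4),
      ((Equiv.Perm.sign σ : ℤ) : ℂ) * (((Equiv.Perm.sign τ : ℤ) : ℂ) *
        ∏ j, ((c + t j * I : ℂ) ^ 2) ^ ((τ j : ℕ) + σ j) * F (c + t j * I))) = H.det := fun σ => by
    have h2 := Matrix.det_permute' σ H
    have h3 : ((Equiv.Perm.sign σ : ℤ) : ℂ) * ((Equiv.Perm.sign σ : ℤ) : ℂ) = 1 := by
      rw [← Int.cast_mul, ← Units.val_mul, Int.units_mul_self, Units.val_one, Int.cast_one]
    rw [integral_finsetSum _ fun τ _ => hi σ τ, ← one_mul H.det, ← h3, mul_assoc, ← h2,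
      Matrix.det_apply', mul_sum]
    refine sum_congr rfl fun τ _ => ?_
    rw [integral_const_mul, integral_const_mul, integral_fintype_prod_volume_eq_prod
      fun j (x : ℝ) => ((c + x * I : ℂ) ^ 2) ^ ((τ j : ℕ) + σ j) * F (c + x * I)]
    rfl
  simp only [h1, sum_const, card_univ, Fintype.card_perm, Fintype.card_fin, nsmul_eq_mul]
  norm_num [Nat.factorial]

theorem af4_det (μ : ℕ → ℂ) (h4 : μ 4 = 0) (h5 : μ 5 = 0) (h6 : μ 6 = 0) :
    (Matrix.of fun i j : Fin 4 => μ ((i : ℕ) + j)).det = μ 3 ^ 4 := by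
  have e : (Matrix.of fun i j : Fin 4 => μ ((i : ℕ) + j)) =
      !![μ 0, μ 1, μ 2, μ 3; μ 1, μ 2, μ 3, μ 4; μ 2, μ 3, μ 4, μ 5; μ 3, μ 4, μ 5, μ 6] := by
    ext i j
    fin_cases i <;> fin_cases j <;> rfl
  rw [e, h4, h5, h6]
  simp [Matrix.det_succ_row_zero, Fin.sum_univ_succ, Fin.succAbove]
  ring

/-- The even function whose value at `0` is the central value. -/
noncomputable def af4F (c : Fin 3 → ℂ) (k : ℤ) (u : ℂ) : ℂ :=
  (1 - 4 * u ^ 2) * (1 + c 0 * u ^ 2 + c 1 * u ^ 4 + c 2 * u ^ 6) * af1F k u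

theorem af4_bound (hS : SH4) (hG : G1W) (hLOB : LOB) (hBRG : BRG)
    (c : Fin 3 → ℂ) {k : ℤ} (hk : Squarefree k) (h1 : k ≠ 1) (n : ℕ) : ∃ C : ℝ, 0 ≤ C ∧
      ∀ s ∈ Strip (-(1 / 4)) 12, ‖s ^ n * af4F c k s‖ ≤ C / br s.im ^ 2 := by
  obtain ⟨⟨C, hC, hg⟩, -⟩ := hG (par k) c (hBRG.2.1 k).2.2.1
  obtain ⟨D, hD, hE⟩ := hS.2.2 (3 / 4) (n + 3) 2 (by norm_num)
  have hq := af1_q1 hBRG hk
  refine ⟨12 ^ n * 145 * C * qk k ^ (6 : ℝ) * (7 * (16 * |(k : ℝ)| * 14)) * D, by positivity,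
    fun s hs => ?_⟩
  have hb := sh_br_one s.im
  have n₁ : ‖s‖ ≤ 12 * br s.im := by
    have := Complex.norm_le_abs_re_add_abs_im s
    have h2 : |s.re| ≤ 12 := by rw [abs_le]; constructor <;> linarith [hs.1, hs.2]
    unfold br
    linarith [abs_nonneg s.im]
  have n₂ : ‖s ^ 2 - 1 / 4‖ ≤ 145 * br s.im ^ 2 := by
    refine (norm_sub_le _ _).trans ?_
    rw [norm_pow]
    have : ‖(1 / 4 : ℂ)‖ = 1 / 4 := by simp
    nlinarith [norm_nonneg s]
  have b₁ := hg.bd s ⟨hs.1, by linarith [hs.2]⟩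
  have b₃ : ‖(qk k : ℂ) ^ (s / 2)‖ ≤ qk k ^ (6 : ℝ) := by
    rw [Complex.norm_cpow_eq_rpow_re_of_pos (by linarith)]
    refine Real.rpow_le_rpow_of_exponent_le hq ?_
    simp
    linarith [hs.2]
  have hre : (1 / 2 + s).re = 1 / 2 + s.re := by simp
  have b₄ : ‖Lf k (1 / 2 + s)‖ ≤ 7 * (16 * |(k : ℝ)| * 14) * br s.im := by
    have r : 1 / 4 ≤ (1 / 2 + s).re := by rw [hre]; linarith [hs.1]
    have n : ‖1 / 2 + s‖ ≤ 14 * br s.im := by
      refine (norm_add_le _ _).trans ?_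
      have : ‖(1 / 2 : ℂ)‖ = 1 / 2 := by simp
      linarith
    calc ‖Lf k (1 / 2 + s)‖ ≤ 7 * ‖Lo k (1 / 2 + s)‖ := (hBRG.2.2.1 k _ r).2
      _ ≤ 7 * (4 * |(k : ℝ)| * ‖1 / 2 + s‖ / (1 / 2 + s).re) := by
        gcongr
        exact hLOB k _ hk h1 (by linarith)
      _ ≤ 7 * (4 * |(k : ℝ)| * (14 * br s.im) / (1 / 4)) := by gcongr
      _ = 7 * (16 * |(k : ℝ)| * 14) * br s.im := by ring
  have b₆ := (hE s.im 0).2.2
  rw [show br 0 = 1 by simp [br], one_pow, mul_one, sub_zero] at b₆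
  have e : s ^ n * af4F c k s = s ^ n * (s ^ 2 - 1 / 4) * g1 (par k) c s * (qk k : ℂ) ^ (s / 2) *
      Lf k (1 / 2 + s) := by
    unfold af4F af1F g1 gr
    ring
  rw [e, norm_mul, norm_mul, norm_mul, norm_mul, norm_pow]
  calc _ ≤ (12 * br s.im) ^ n * (145 * br s.im ^ 2) * (C * Real.exp (-(3 / 4) * s.im ^ 2)) *
        qk k ^ (6 : ℝ) * (7 * (16 * |(k : ℝ)| * 14) * br s.im) := by gcongr
    _ = 12 ^ n * 145 * C * qk k ^ (6 : ℝ) * (7 * (16 * |(k : ℝ)| * 14)) *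
        (br s.im ^ (n + 3) * Real.exp (-(3 / 4) * s.im ^ 2)) := by ring
    _ ≤ 12 ^ n * 145 * C * qk k ^ (6 : ℝ) * (7 * (16 * |(k : ℝ)| * 14)) * (D / br s.im ^ 2) := by
        gcongr
    _ = _ := by ring

theorem pAFE4 (hS : SH4) (hG : G1W) (hFE : FE1) (hLOP : LOP) (hLOB : LOB) (hBRG : BRG) : AFE4 := by
  intro c k hk h1
  have hB := af4_bound hS hG hLOB hBRG c hk h1
  have hd : ∀ (n : ℕ) (s : ℂ), -(1 / 4) ≤ s.re →
      DifferentiableAt ℂ (fun s => s ^ n * af4F c k s) s := fun n s hs => by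
    have := af1_diff hBRG hk h1 (s := s) (by linarith)
    unfold af4F
    fun_prop
  have hev : ∀ s : ℂ, |s.re| < 1 / 2 → af4F c k (-s) = af4F c k s := fun s hs => by
    have hre : (1 / 2 + s).re = 1 / 2 + s.re := by simp
    have e : 1 / 2 + -s = 1 - (1 / 2 + s) := by ring
    rw [abs_lt] at hs
    rw [af4F, af4F, af1_lam hBRG hk, af1_lam hBRG hk, e,
      hFE k hk h1 _ (by rw [hre]; linarith) (by rw [hre]; linarith)]
    ring_nf
  have hne : ∀ t : ℝ, (((12 : ℝ) : ℂ) + t * I) ≠ 0 := fun t h => by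
    have := congrArg Complex.re h
    norm_num at this
  have hL : ∀ m : ℕ, Lc 12 fun u => (u ^ 2) ^ m * (af4F c k u / u ^ 7) := fun m => by
    obtain ⟨C, hC, h⟩ := hB (2 * m)
    have hc : Continuous fun t : ℝ => (((12 : ℝ) : ℂ) + t * I) ^ (2 * m) *
        af4F c k ((12 : ℝ) + t * I) := continuous_iff_continuousAt.2 fun t =>
      ContinuousAt.comp (f := fun t : ℝ => ((12 : ℝ) : ℂ) + t * I)
        (hd (2 * m) _ (by simp; norm_num)).continuousAt (by fun_prop)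
    refine sh_int (C := C) (f := fun u => (u ^ 2) ^ m * (af4F c k u / u ^ 7))
      ((hc.div (g := fun t : ℝ => (((12 : ℝ) : ℂ) + t * I) ^ 7) (by fun_prop)
        fun t => pow_ne_zero _ (hne t)).congr fun t => ?_) fun t => ?_
    · simp only [Pi.div_apply, pow_mul, mul_div_assoc]
    · have h2 := h _ (sh_mem (a := -(1 / 4)) (b := 12) t (by norm_num) le_rfl)
      have h3 : 1 ≤ ‖((12 : ℝ) : ℂ) + t * I‖ :=
        le_trans (by simp) (Complex.re_le_norm _)
      rw [show (((12 : ℝ) : ℂ) + t * I).im = t by simp] at h2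
      rw [← pow_mul, ← mul_div_assoc, norm_div, norm_pow]
      exact (div_le_self (norm_nonneg _) (one_le_pow₀ h3)).trans h2
  have hz : ∀ n : ℕ, (Iv 12 fun u => (u ^ 2) ^ (n + 4) * (af4F c k u / u ^ 7)) = 0 := fun n => by
    obtain ⟨C, hC, h⟩ := hB (2 * n + 1)
    have s₁ := pSH0 0 12 C (fun s => s ^ (2 * n + 1) * af4F c k s) (by norm_num)
      ⟨fun s hs => (hd _ s (by linarith [hs.1])).continuousAt.continuousWithinAt,
        fun s hs => (hd _ s (by linarith [hs.1])).differentiableWithinAt⟩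
      fun s hs => h s ⟨by linarith [hs.1], hs.2⟩
    have s₂ : (Iv 0 fun s => s ^ (2 * n + 1) * af4F c k s) =
        -Iv 0 fun s => s ^ (2 * n + 1) * af4F c k s := by
      unfold Iv
      rw [← integral_neg, ← integral_neg_eq_self]
      refine integral_congr_ae (.of_forall fun t => ?_)
      have e : ((0 : ℝ) : ℂ) + ((-t : ℝ) : ℂ) * I = -(((0 : ℝ) : ℂ) + t * I) := by
        push_cast
        ring
      simp only
      rw [e, hev _ (by simp), Odd.neg_pow (odd_two_mul_add_one n), neg_mul]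
    have s₃ : (Iv 12 fun u => (u ^ 2) ^ (n + 4) * (af4F c k u / u ^ 7)) =
        Iv 12 fun s => s ^ (2 * n + 1) * af4F c k s :=
      integral_congr_ae (.of_forall fun t => by
        have := hne t
        simp only
        generalize ((12 : ℝ) : ℂ) + t * I = w at this ⊢
        field_simp
        ring)
    rw [s₃, s₁]
    linear_combination s₂ / 2
  have h3 : (Iv 12 fun u => (u ^ 2) ^ 3 * (af4F c k u / u ^ 7)) = π * Lf k (1 / 2) := by
    obtain ⟨C, hC, h⟩ := hB 0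
    have hd0 := hd 0
    simp only [pow_zero, one_mul] at h hd0
    have s₁ := pSH1 (-(1 / 4)) (1 / 4) C (af4F c k) 0 (by norm_num) (by norm_num)
      ⟨fun s hs => (hd0 s hs.1).continuousAt.continuousWithinAt,
        fun s hs => (hd0 s hs.1.le).differentiableWithinAt⟩
      fun s hs => (h s ⟨hs.1, by linarith [hs.2]⟩).trans (by
        have := sh_br_one s.im
        gcongr
        nlinarith)
    have hd' : ∀ s : ℂ, 1 / 4 ≤ s.re → DifferentiableAt ℂ (fun s => af4F c k s / (s - 0)) s := by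
      intro s hs
      refine (hd0 s (by linarith)).div (by fun_prop) fun h => ?_
      rw [sub_zero] at h
      rw [h] at hs
      norm_num at hs
    have s₂ := pSH0 (1 / 4) 12 (4 * C) (fun s => af4F c k s / (s - 0)) (by norm_num)
      ⟨fun s hs => (hd' s hs.1).continuousAt.continuousWithinAt,
        fun s hs => (hd' s hs.1.le).differentiableWithinAt⟩
      fun s hs => by
        have n : 1 / 4 ≤ ‖s‖ := hs.1.trans (Complex.re_le_norm s)
        have := sh_br_one s.im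
        rw [sub_zero, norm_div]
        calc ‖af4F c k s‖ / ‖s‖ ≤ C / br s.im ^ 2 / (1 / 4) := by
              gcongr
              exact h s ⟨by linarith [hs.1], hs.2⟩
          _ = 4 * C / br s.im ^ 2 := by ring
    have s₃ : (Iv 12 fun u => (u ^ 2) ^ 3 * (af4F c k u / u ^ 7)) =
        Iv 12 fun s => af4F c k s / (s - 0) :=
      integral_congr_ae (.of_forall fun t => by
        have := hne t
        simp only [sub_zero]
        field_simp)
    have s₄ : af4F c k 0 = Lf k (1 / 2) := by rw [af4F, af1_zero]; ring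
    rw [af1_refl (W := 1) fun s hs => by rw [hev s (by rw [hs]; norm_num), one_mul], s₄] at s₁
    rw [s₃, s₂]
    linear_combination s₁ / 2
  have hH := af4_hankel 12 (fun u => af4F c k u / u ^ 7) hL
  rw [af4_det (fun m => Iv 12 fun u => (u ^ 2) ^ m * (af4F c k u / u ^ 7)) (hz 0) (hz 1) (hz 2),
    h3] at hH
  rw [mul_assoc, ← mul_pow, ← hH]
  refine integral_congr_ae (.of_forall fun t => ?_)
  have hq : (qk k : ℂ) ≠ 0 := ofReal_ne_zero.mpr (by linarith [af1_q1 hBRG hk])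
  have e : ∀ u : V4, (qk k : ℂ) ^ us u = ∏ j, (qk k : ℂ) ^ (u j / 2) := fun u => by
    rw [us, Fin.sum_univ_four, Fin.prod_univ_four, add_div, add_div, add_div, cpow_add _ _ hq,
      cpow_add _ _ hq, cpow_add _ _ hq]
  simp only [W4, Wr, hf, LL, e, mul_assoc, ← prod_mul_distrib]
  congr 1
  refine prod_congr rfl fun j _ => ?_
  rw [← hLOP.1 k _ hk.ne_zero (by simp [pt, cs]; norm_num)]
  unfold af4F af1F wr g1 gr Lf
  rw [← div_div]
  ring

end Pool.Agent.Q4
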