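import Pool.Agent.P.MP_ea46f5_nt.Q4.S4

namespace Pool.Agent.Q4

open Complex MeasureTheory Finset Pool.Agent.QM
open scoped Real ComplexConjugate

theorem at_l1 {L : ℝ} (hL : 100 ≤ L) : 1 ≤ Real.log L ∧ Real.log L ≤ L := by
  refine ⟨?_, (Real.log_le_sub_one_of_pos (by linarith)).trans (by linarith)⟩
  rw [Real.le_log_iff_exp_le (by linarith)]
  have := Real.exp_one_lt_d9
  linarith

theorem at_Y {L : ℝ} (hL : 100 ≤ L) :
    L ^ 50 ≤ √((⌈L ^ 100⌉₊ : ℕ) : ℝ) ∧ ((⌈L ^ 100⌉₊ : ℕ) : ℝ) ≤ L ^ 101 ∧ 1 ≤ ⌈L ^ 100⌉₊ := by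
  have h1 : (1 : ℝ) ≤ L ^ 100 := one_le_pow₀ (by linarith)
  refine ⟨Real.le_sqrt_of_sq_le ?_, ?_, Nat.ceil_pos.2 (by linarith)⟩
  · rw [← pow_mul]
    exact Nat.le_ceil _
  · have h2 := (Nat.ceil_lt_add_one (show (0 : ℝ) ≤ L ^ 100 by linarith)).le
    rw [pow_succ L 100]
    nlinarith

theorem at_pow (N : ℕ) {L : ℝ} (hL : 0 ≤ L) :
    L ^ N ≤ (N.factorial : ℝ) * 10 ^ N * Real.exp (L / 10) := by
  have h := Real.pow_div_factorial_le_exp (L / 10) (by linarith) N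
  have h0 : (0 : ℝ) < N.factorial := by exact_mod_cast N.factorial_pos
  rw [div_le_iff₀ h0, div_pow, div_le_iff₀ (by positivity)] at h
  linarith

theorem at_quot {L D η Y : ℝ} (hL : 100 ≤ L) (hD : 1 ≤ D) (h1 : 1 / L ^ 41 ≤ η)
    (hY : Y ≤ L ^ 101) : Y * (D * Real.log L) / η ≤ D * L ^ 143 := by
  have hl := at_l1 hL
  have hL0 : 0 < L := by linarith
  have hη : 0 < η := lt_of_lt_of_le (by positivity) h1
  rw [div_le_iff₀ hη]
  calc Y * (D * Real.log L) ≤ L ^ 101 * (D * L) := by gcongr; exacts [by nlinarith [hl.1], hl.2]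
    _ = D * L ^ 143 * (1 / L ^ 41) := by field_simp
    _ ≤ _ := by gcongr

theorem at_n1 {L D X Y : ℝ} (hL : 100 ≤ L) (hD : 1 ≤ D) (hX : X = Real.exp L)
    (hY : L ^ 50 ≤ √Y) : (D * Real.log L * L) ^ 40 * (X / √Y + 1) ≤
      D ^ 40 * (1 + (Nat.factorial 80 : ℝ) * 10 ^ 80) * (X * Real.log L ^ 32) := by
  obtain ⟨hl1, hl2⟩ := at_l1 hL
  have hL0 : 0 < L := by linarith
  have hL1 : 1 ≤ L := by linarith
  have hX0 : 0 < X := hX ▸ Real.exp_pos L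
  have h32 : 1 ≤ Real.log L ^ 32 := one_le_pow₀ hl1
  have a1 : (Real.log L * L) ^ 40 * (X / √Y) ≤ X * Real.log L ^ 32 := by
    calc _ ≤ (Real.log L * L) ^ 40 * (X / L ^ 50) := by gcongr
      _ = X * Real.log L ^ 32 * (Real.log L ^ 8 / L ^ 10) := by field_simp
      _ ≤ X * Real.log L ^ 32 * 1 := by
        gcongr
        rw [div_le_one (by positivity)]
        exact (pow_le_pow_left₀ (by linarith) hl2 8).trans (pow_le_pow_right₀ hL1 (by norm_num))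
      _ = _ := mul_one _
  have a2 : (Real.log L * L) ^ 40 ≤ (Nat.factorial 80 : ℝ) * 10 ^ 80 * (X * Real.log L ^ 32) := by
    calc _ ≤ (L * L) ^ 40 := by gcongr
      _ = L ^ 80 := by ring
      _ ≤ _ := at_pow 80 hL0.le
      _ ≤ (Nat.factorial 80 : ℝ) * 10 ^ 80 * (X * 1) := by
        rw [mul_one, hX]
        gcongr
        linarith
      _ ≤ _ := by gcongr
  generalize (Nat.factorial 80 : ℝ) * 10 ^ 80 = K at a2 ⊢
  calc _ = D ^ 40 * ((Real.log L * L) ^ 40 * (X / √Y) + (Real.log L * L) ^ 40) := by ring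
    _ ≤ D ^ 40 * (X * Real.log L ^ 32 + K * (X * Real.log L ^ 32)) := by gcongr
    _ = _ := by ring

theorem at_n2 (B : ℕ) {L D X Q : ℝ} (hL : 100 ≤ L) (hD : 1 ≤ D) (hB : 2 * (143 * B + 20 : ℝ) ≤ D)
    (hX : X = Real.exp L) (hQ0 : 0 ≤ Q) (hQ : Q ≤ D * L ^ 143) :
    Q ^ B * Real.exp (-(D * Real.log L) / 2) * X * lg X ^ 10 ≤ D ^ B * (X * Real.log L ^ 32) := by
  obtain ⟨hl1, hl2⟩ := at_l1 hL
  have hL0 : 0 < L := by linarith
  have hX0 : 0 < X := hX ▸ Real.exp_pos L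
  have hX1 : L + 1 ≤ X := hX ▸ Real.add_one_le_exp L
  have h32 : 1 ≤ Real.log L ^ 32 := one_le_pow₀ hl1
  have hlg0 : 0 ≤ lg X := Real.log_nonneg (by linarith)
  have hlg : lg X ≤ L ^ 2 := by
    have h1 : lg X ≤ Real.log (X * X) := Real.log_le_log (by linarith) (by nlinarith)
    rw [Real.log_mul hX0.ne' hX0.ne', hX, Real.log_exp] at h1
    rw [hX]
    nlinarith
  have a1 : L ^ (143 * B + 20) * Real.exp (-(D * Real.log L) / 2) ≤ 1 := by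
    have : L ^ (143 * B + 20) = Real.exp ((143 * B + 20 : ℕ) * Real.log L) := by
      rw [Real.exp_nat_mul, Real.exp_log hL0]
    rw [this, ← Real.exp_add, Real.exp_le_one_iff]
    push_cast
    nlinarith
  calc _ ≤ (D * L ^ 143) ^ B * Real.exp (-(D * Real.log L) / 2) * X * (L ^ 2) ^ 10 := by gcongr
    _ = D ^ B * (X * (L ^ (143 * B + 20) * Real.exp (-(D * Real.log L) / 2))) := by
      rw [mul_pow, ← pow_mul, ← pow_mul, pow_add]; ring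
    _ ≤ _ := by gcongr; exact a1.trans h32

theorem at_n3 (B : ℕ) {L D X Q : ℝ} (hL : 100 ≤ L) (hD : 1 ≤ D) (hX : X = Real.exp L)
    (hQ0 : 0 ≤ Q) (hQ : Q ≤ D * L ^ 144) : Q ^ B * X ^ (9 / 10 : ℝ) ≤
      D ^ B * (((144 * B).factorial : ℝ) * 10 ^ (144 * B)) * (X * Real.log L ^ 32) := by
  obtain ⟨hl1, hl2⟩ := at_l1 hL
  have hL0 : 0 < L := by linarith
  have hX0 : 0 < X := hX ▸ Real.exp_pos L
  have h32 : 1 ≤ Real.log L ^ 32 := one_le_pow₀ hl1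
  have a1 := at_pow (144 * B) hL0.le
  have hK : 0 ≤ ((144 * B).factorial : ℝ) * 10 ^ (144 * B) := by positivity
  generalize ((144 * B).factorial : ℝ) * 10 ^ (144 * B) = K at a1 hK ⊢
  have a2 : Real.exp (L / 10) * X ^ (9 / 10 : ℝ) = X := by
    rw [hX, ← Real.exp_mul, ← Real.exp_add]
    congr 1
    ring
  calc _ ≤ (D * L ^ 144) ^ B * X ^ (9 / 10 : ℝ) := by gcongr
    _ = D ^ B * L ^ (144 * B) * X ^ (9 / 10 : ℝ) := by rw [mul_pow, ← pow_mul]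
    _ ≤ D ^ B * (K * Real.exp (L / 10)) * X ^ (9 / 10 : ℝ) := by gcongr
    _ = D ^ B * K * (X * 1) := by
      rw [mul_one, mul_assoc, mul_assoc K, a2, mul_assoc]
    _ ≤ _ := by gcongr

theorem at_n4 {L D η Y : ℝ} (hL : 100 ≤ L) (hD : 1 ≤ D) (h0 : 0 < η) (h1 : η ≤ 1 / L ^ 39)
    (hY : L ^ 50 ≤ √Y) :
    (D * Real.log L) ^ 32 + η ^ 2 * (L * (D * Real.log L)) ^ 32 + L ^ 32 / √Y ≤
      3 * D ^ 32 * Real.log L ^ 32 := by
  obtain ⟨hl1, hl2⟩ := at_l1 hL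
  have hL0 : 0 < L := by linarith
  have hL1 : 1 ≤ L := by linarith
  have h32 : 1 ≤ (D * Real.log L) ^ 32 := one_le_pow₀ (by nlinarith)
  have a1 : η ^ 2 * L ^ 32 ≤ 1 := by
    calc _ ≤ (1 / L ^ 39) ^ 2 * L ^ 32 := by gcongr
      _ = 1 / L ^ 46 := by field_simp
      _ ≤ 1 := by
        rw [div_le_one (by positivity)]
        exact one_le_pow₀ hL1
  have a2 : L ^ 32 / √Y ≤ 1 := by
    rw [div_le_one (lt_of_lt_of_le (by positivity) hY)]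
    exact (pow_le_pow_right₀ hL1 (by norm_num)).trans hY
  have a3 : η ^ 2 * (L * (D * Real.log L)) ^ 32 ≤ (D * Real.log L) ^ 32 := by
    rw [mul_pow L, ← mul_assoc]
    exact mul_le_of_le_one_left (by linarith) a1
  rw [mul_assoc 3, ← mul_pow]
  linarith

theorem at_sum (f : ℤ → ℂ) (S : ℂ) (A B : ℝ) (h : HasSum (fun κ : SF => f κ) S) (hA : ‖f 1‖ ≤ A)
    (hB : ∀ F : Finset ℤ, SQ F → ∑ k ∈ F, ‖f k‖ ≤ B) : ‖S‖ ≤ A + B := by
  refine le_of_tendsto' (Filter.Tendsto.norm h) fun s => (norm_sum_le _ _).trans ?_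
  have h1 : ∑ κ ∈ s, ‖f κ‖ = ∑ k ∈ s.map (Function.Embedding.subtype _), ‖f k‖ := by
    rw [sum_map]
    rfl
  have h2 := hB ((s.map (Function.Embedding.subtype _)).erase 1) fun k hk => by
    obtain ⟨κ, _, hκ⟩ := mem_map.1 (mem_of_mem_erase hk)
    exact ⟨hκ ▸ κ.2, ne_of_mem_erase hk⟩
  rw [h1]
  by_cases h3 : (1 : ℤ) ∈ s.map (Function.Embedding.subtype _)
  · rw [← add_sum_erase _ _ h3]
    linarith
  · rw [erase_eq_of_notMem h3] at h2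
    linarith [norm_nonneg (f 1)]

theorem at_SG (K : ℝ) : SG (s1 K) := by
  refine ⟨fun κ => ?_, max 1 K, fun κ hκ => ?_⟩
  · unfold s1 sk
    split_ifs <;> norm_num
  · rw [max_lt_iff] at hκ
    rw [s1, if_neg, sk, if_neg (not_le.2 hκ.2)]
    rintro rfl
    simp at hκ

theorem at_OmE (hSH : SH4) (hOMB : OMB) {g : ℂ → ℂ} {C₀ : ℝ} (hg : GC g C₀) {γ : ℤ}
    {c Δ η X : ℝ} {Y : ℕ} (hP : Pm γ c Δ η X Y) : ∃ M : ℝ, OmE (Om g γ c Δ η X) M := by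
  obtain ⟨C, B, hC, h⟩ := hOMB g C₀ 14 hg
  refine ⟨C * (Δ / (η * min 1 1)) ^ B * X ^ (26 : ℝ) * Real.exp (-Δ * 1), fun w hw t => ?_⟩
  have hre : (w + us (pt (cs 12) t)).re = w.re + 24 := by
    simp [us, pt, cs, Fin.sum_univ_four]
    norm_num
  have hw1 := hw.1
  have hw2 := hw.2
  obtain ⟨_, _, h3, _, _, h6⟩ := h γ c Δ η X 1 Y w (pt (cs 12) t) hP one_pos hw
    (fun i => by simp [pt, cs]) (by rw [hre]; linarith)
  refine ⟨h3, h6.trans ?_⟩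
  obtain ⟨_, b2, b3, _, b5⟩ := hSH.2.1 2 12 (pt (cs 12) t)
  have b6 := (hSH.2.1 14 0 (pt (cs 12) t)).2.2.1
  have hΔ := hP.D1
  have hη := hP.h0
  have hX := hP.X1
  have hb : 0 < br w.im := by unfold br; positivity
  rw [← b5]
  gcongr
  rw [hre]
  linarith

theorem pAT (hKA : KAx) (hFE : FEx) (hPD : PDx) (hSH : SH4) (hEX : EX4) (hPOC : POC) (hCLM : CLM) (hOMB : OMB) (hPRT : PRT) (hTK : TK0) (hTF : TF1) (hTD : TDG) (hTA : TAIL) : AT := by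
  intro g C₀ τ r hg hτ hr
  obtain ⟨C₁, _, hE⟩ := hKA τ r hτ
  have hr8 : 0 ≤ r ∧ r < 8 := by
    simp only [RS, mem_insert, mem_singleton] at hr
    omega
  have hPDI := hPD τ r _ C₁ hE (hFE τ r hτ hr8.1 hr8.2)
  obtain ⟨Ck, Bk, hCk, hk⟩ := hTK g C₀ C₁ _ hg hE
  obtain ⟨Cf, Bf, hCf, hf1⟩ := hTF g C₀ C₁ _ hg hE
  obtain ⟨Cd, hCd, hd⟩ := hTD g C₀ hg
  obtain ⟨Ct, hCt, ht⟩ := hTA g C₀ hg
  refine ⟨2 * (143 * Bk + 20), fun D hD => ?_⟩
  have hD1 : 1 ≤ D := by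
    have : (0 : ℝ) ≤ Bk := Nat.cast_nonneg _
    linarith
  refine ⟨Ct * (D ^ 40 * (1 + (Nat.factorial 80 : ℝ) * 10 ^ 80)) +
    Cf * (D ^ Bf * (((144 * Bf).factorial : ℝ) * 10 ^ (144 * Bf))) + Ck * D ^ Bk +
    Cd * (3 * D ^ 32), Real.exp 100, fun X η hX h1 h2 => ?_⟩
  have hX0 : 0 < X := lt_of_lt_of_le (Real.exp_pos _) hX
  have hL : 100 ≤ Real.log X := (Real.le_log_iff_exp_le hX0).2 hX
  have hXL : X = Real.exp (Real.log X) := (Real.exp_log hX0).symm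
  set L := Real.log X with hLdef
  have hL0 : 0 < L := by linarith
  obtain ⟨hl1, hl2⟩ := at_l1 hL
  obtain ⟨y1, y2, y3⟩ := at_Y hL
  set Y := ⌈L ^ 100⌉₊ with hYdef
  have hη : 0 < η := lt_of_lt_of_le (by positivity) h1
  have hP : Pm (gam r) (cq r) (D * Real.log L) η X Y := by
    refine ⟨?_, (hCLM.2.2 r).1, (hCLM.2.2 r).2, by nlinarith, hη, h2.trans ?_, ?_, hL, y3⟩
    · unfold gam
      split_ifs <;> decide
    · refine one_div_le_one_div_of_le (by norm_num) ?_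
      exact le_trans (by linarith) (le_self_pow₀ (by linarith) (by norm_num))
    · exact le_trans (Real.one_le_exp (by norm_num)) hX
  obtain ⟨M, hM⟩ := at_OmE hSH hOMB hg hP
  obtain ⟨e1, e2⟩ := hEX Y _ _ _ _
    (hPOC τ r _ C₁ M Y _ _ hE hPDI (at_SG (X * Real.exp (-(D * Real.log L)))) hM)
  simp only [hPRT τ r g _ η X Y _ hη hX0] at e1 e2
  obtain ⟨t1, t2⟩ := ht τ r _ η X Y hτ hr hP e1
  refine ⟨t1, ?_⟩
  have s1' : s1 (X * Real.exp (-(D * Real.log L))) 1 = 3 / 4 := if_pos rfl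
  have e3 := at_sum (fun κ => Yk Y (KP (EG τ r) (Om g (gam r) (cq r) (D * Real.log L) η X))
    (s1 (X * Real.exp (-(D * Real.log L))) κ) κ) _ _ _ e2
    (s1'.symm ▸ hf1 _ _ _ η X Y hP) fun F hF => hk _ _ _ η X Y F hP hF
  have e4 := hd _ _ _ η X Y hP
  have hY0 : (0 : ℝ) ≤ Y := Nat.cast_nonneg _
  have q1 := at_quot hL hD1 h1 y2
  have q0 : 0 ≤ (Y : ℝ) * (D * Real.log L) / η := by positivity
  have n1 := at_n1 hL hD1 hXL y1
  have n2 := at_n2 Bk hL hD1 hD hXL q0 q1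
  have n3 := at_n3 Bf (Q := (Y : ℝ) * (D * Real.log L) * L / η) hL hD1 hXL (by positivity) (by
    calc _ = (Y : ℝ) * (D * Real.log L) / η * L := by ring
      _ ≤ D * L ^ 143 * L := by gcongr
      _ = _ := by ring)
  have n4 := at_n4 hL hD1 hη h2 y1
  have m1 := mul_le_mul_of_nonneg_left n1 hCt.le
  have m2 := mul_le_mul_of_nonneg_left n2 hCk.le
  have m3 := mul_le_mul_of_nonneg_left n3 hCf.le
  have m4 := mul_le_mul_of_nonneg_left n4 (mul_pos hCd hX0).le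
  have tri : ∀ a b c d : ℂ, ‖b - d‖ ≤ ‖a - b‖ + ‖a - c‖ + ‖c - d‖ := fun a b c d => by
    rw [show b - d = -(a - b) + (a - c) + (c - d) by ring]
    exact norm_add₃_le.trans (by rw [norm_neg])
  refine (tri _ _ _ _).trans ((add_le_add (add_le_add t2 e3) e4).trans ?_)
  generalize (Nat.factorial 80 : ℝ) * 10 ^ 80 = K at m1 ⊢
  generalize ((144 * Bf).factorial : ℝ) * 10 ^ (144 * Bf) = K' at m3 ⊢
  rw [← hLdef]
  linear_combination m1 + m2 + m3 + m4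

end Pool.Agent.Q4
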