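import Pool.Agent.P.MP_ea46f5_nt.Q4.S4
import Pool.Agent.P.MP_ea46f5_nt.QM.FTK2
import Pool.Agent.P.MP_ea46f5_nt.QM.FMT

/-! Packets on the line of abscissa zero: size, continuity, the base case. -/

namespace Pool.Agent.Q4

open Complex MeasureTheory Finset Pool.Agent.QM
open scoped Real

theorem bs_brm (t u : ℝ) : br t ≤ br (t - u) * br u := by
  unfold br
  have := abs_add_le (t - u) u
  rw [sub_add_cancel] at this
  nlinarith [abs_nonneg (t - u), abs_nonneg u, mul_nonneg (abs_nonneg (t - u)) (abs_nonneg u)]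

theorem bs_pw {κ : ℝ} (hκ : 0 < κ) (t v τ : ℝ) {n : ℕ} (hn : n ≤ 2) :
    ‖(((0 : ℝ) : ℂ) + τ * I) ^ n * pw κ t v ((0 : ℝ) + τ * I)‖ ≤
      Real.exp (9 / κ) * br t ^ 5 * Real.exp (-|τ - t| / 2) := by
  have hb := tk2_br1 τ
  have hbt := tk2_br0 t
  have hbx := tk2_br0 (τ - t)
  have h1 : ‖((0 : ℝ) : ℂ) + τ * I‖ ≤ br τ := by
    simp [br]
  have h2 : ‖(((0 : ℝ) : ℂ) + τ * I) ^ 2 - 1 / 4‖ ≤ br τ ^ 2 := by
    refine (norm_sub_le _ _).trans ?_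
    simp only [ofReal_zero, zero_add, norm_pow, norm_mul, norm_real, norm_I, mul_one,
      Real.norm_eq_abs, norm_div, norm_one, Complex.norm_ofNat, br]
    nlinarith [abs_nonneg τ]
  have h3 : ‖cexp (κ * (((0 : ℝ) : ℂ) + τ * I - t * I) ^ 2 + v * ((0 : ℝ) + τ * I))‖ =
      Real.exp (-(κ * (τ - t) ^ 2)) := by
    rw [Complex.norm_exp]
    congr 1
    simp [pow_two]
  have h4 : br (τ - t) ^ 5 ≤ Real.exp (5 * |τ - t|) := by
    have := Real.add_one_le_exp |τ - t|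
    calc br (τ - t) ^ 5 ≤ Real.exp |τ - t| ^ 5 :=
          pow_le_pow_left₀ hbx.le (by unfold br; linarith) 5
      _ = _ := by rw [← Real.exp_nat_mul]; norm_num
  have h5 : 5 * |τ - t| + -(κ * (τ - t) ^ 2) ≤ 9 / κ + -|τ - t| / 2 := by
    have e : 9 / κ = κ * (3 / κ) ^ 2 := by field_simp; norm_num
    have e2 : κ * (3 / κ) = 3 := by field_simp
    rw [e, ← sq_abs (τ - t)]
    nlinarith [mul_nonneg hκ.le (sq_nonneg (|τ - t| - 3 / κ)), abs_nonneg (τ - t)]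
  unfold pw
  rw [norm_mul, norm_mul, norm_mul, norm_pow, h3]
  calc _ ≤ br τ ^ n * (br τ * br τ ^ 2 * Real.exp (-(κ * (τ - t) ^ 2))) := by gcongr
    _ ≤ br τ ^ 2 * (br τ * br τ ^ 2 * Real.exp (-(κ * (τ - t) ^ 2))) := by gcongr
    _ = br τ ^ 5 * Real.exp (-(κ * (τ - t) ^ 2)) := by ring
    _ ≤ (br (τ - t) * br t) ^ 5 * Real.exp (-(κ * (τ - t) ^ 2)) := by
        gcongr
        exact bs_brm τ t
    _ = br t ^ 5 * (br (τ - t) ^ 5 * Real.exp (-(κ * (τ - t) ^ 2))) := by ring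
    _ ≤ br t ^ 5 * (Real.exp (5 * |τ - t|) * Real.exp (-(κ * (τ - t) ^ 2))) := by gcongr
    _ ≤ br t ^ 5 * (Real.exp (9 / κ) * Real.exp (-|τ - t| / 2)) := by
        rw [← Real.exp_add, ← Real.exp_add]
        gcongr
    _ = _ := by ring

theorem bs_jen {w g : ℝ → ℝ} (hw0 : ∀ x, 0 ≤ w x) (hg0 : ∀ x, 0 ≤ g x) (hw : Integrable w)
    (hw4 : ∫ x, w x ≤ 4) (hi : Integrable fun x => w x * g x ^ 4) :
    (∫ x, w x * g x) ^ 4 ≤ 108 * ∫ x, w x * g x ^ 4 := by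
  set a := ∫ x, w x * g x with ha
  set b := ∫ x, w x * g x ^ 4 with hb
  have hb0 : 0 ≤ b := integral_nonneg fun x => mul_nonneg (hw0 x) (by positivity)
  have ha0 : 0 ≤ a := integral_nonneg fun x => mul_nonneg (hw0 x) (hg0 x)
  rcases ha0.eq_or_lt with h | h
  · rw [← h]; norm_num; exact hb0
  have h1 : a ≤ ∫ x, (54 / a ^ 3 * (w x * g x ^ 4) + a / 8 * w x) := by
    refine integral_mono_of_nonneg (.of_forall fun x => mul_nonneg (hw0 x) (hg0 x))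
      ((hi.const_mul _).add (hw.const_mul _)) (.of_forall fun x => ?_)
    have k : g x ≤ 54 / a ^ 3 * g x ^ 4 + a / 8 := by
      have k1 : g x * a ^ 3 ≤ 54 * g x ^ 4 + a ^ 4 / 8 := by
        nlinarith [sq_nonneg (36 * g x ^ 2 - a ^ 2), mul_nonneg (sq_nonneg a) (sq_nonneg (6 * g x - a))]
      have e : 54 / a ^ 3 * g x ^ 4 + a / 8 = (54 * g x ^ 4 + a ^ 4 / 8) / a ^ 3 := by field_simp
      rw [e, le_div_iff₀ (by positivity)]
      exact k1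
    have := mul_le_mul_of_nonneg_left k (hw0 x)
    linarith
  rw [integral_add (hi.const_mul _) (hw.const_mul _), integral_const_mul, integral_const_mul,
    ← hb] at h1
  have h2 : a / 8 * ∫ x, w x ≤ a / 8 * 4 := mul_le_mul_of_nonneg_left hw4 (by positivity)
  have h3 : a / 2 ≤ 54 / a ^ 3 * b := by linarith
  rw [div_mul_eq_mul_div, le_div_iff₀ (by positivity)] at h3
  linarith

/-- The weighted first moment of `Lo` near the height `t`. -/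
noncomputable def La (k : ℤ) (t : ℝ) : ℝ :=
  ∫ τ : ℝ, Real.exp (-|τ - t| / 2) * ‖Lo k (1 / 2 + τ * I)‖

theorem La_nonneg (k : ℤ) (t : ℝ) : 0 ≤ La k t := integral_nonneg fun _ => by positivity

section
variable (hLOP : LOP) (hLOB : LOB) (hDEC : DEC) {k : ℤ} (h1 : Squarefree k) (h2 : k ≠ 1)
include hLOP hLOB hDEC h1 h2

theorem bs_int (t : ℝ) :
    Integrable fun τ : ℝ => Real.exp (-|τ - t| / 2) * ‖Lo k (1 / 2 + τ * I)‖ := by
  have hc : Continuous (Lo k) := (hLOP.2.1 k h1 h2).continuous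
  refine ((tk2_int hLOP hLOB hDEC k h1 h2 t).add (hDEC.2.2.1 t).1).mono'
    (Continuous.aestronglyMeasurable (by fun_prop)) (.of_forall fun τ => ?_)
  rw [Real.norm_of_nonneg (by positivity)]
  have k : ‖Lo k (1 / 2 + τ * I)‖ ≤ ‖Lo k (1 / 2 + τ * I)‖ ^ 4 + 1 := by
    nlinarith [sq_nonneg (‖Lo k (1 / 2 + τ * I)‖ ^ 2 - 1 / 2),
      sq_nonneg (‖Lo k (1 / 2 + τ * I)‖ - 1 / 2)]
  have := mul_le_mul_of_nonneg_left k (Real.exp_pos (-|τ - t| / 2)).le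
  simp only [Pi.add_apply]
  linarith

theorem bs_La (t : ℝ) : La k t ^ 4 ≤ 108 * Lw k t :=
  bs_jen (fun _ => (Real.exp_pos _).le) (fun _ => norm_nonneg _) (hDEC.2.2.1 t).1
    (hDEC.2.2.1 t).2 (tk2_int hLOP hLOB hDEC k h1 h2 t)

omit hLOP hLOB hDEC h1 h2 in
theorem bs_pt {κ : ℝ} (hκ : 0 < κ) (t v τ : ℝ) {n : ℕ} (hn : n ≤ 2) :
    ‖(((0 : ℝ) : ℂ) + τ * I) ^ n *
        (pw κ t v ((0 : ℝ) + τ * I) * Lo k (1 / 2 + ((0 : ℝ) + τ * I)))‖ ≤
      Real.exp (9 / κ) * br t ^ 5 * (Real.exp (-|τ - t| / 2) * ‖Lo k (1 / 2 + τ * I)‖) := by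
  rw [← mul_assoc, norm_mul, ← mul_assoc]
  refine mul_le_mul (bs_pw hκ t v τ hn) (le_of_eq ?_) (norm_nonneg _)
    (by have := tk2_br0 t; positivity)
  simp

/-- Integrability on the line of abscissa zero. -/
theorem bs_Lc {κ : ℝ} (hκ : 0 < κ) (t v : ℝ) {n : ℕ} (hn : n ≤ 2) :
    Lc 0 fun u => u ^ n * (pw κ t v u * Lo k (1 / 2 + u)) := by
  have hc : Continuous (Lo k) := (hLOP.2.1 k h1 h2).continuous
  refine ((bs_int hLOP hLOB hDEC h1 h2 t).const_mul (Real.exp (9 / κ) * br t ^ 5)).mono'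
    (Continuous.aestronglyMeasurable ?_) (.of_forall fun τ => bs_pt hκ t v τ hn)
  unfold pw
  fun_prop

theorem bs_Iv {κ : ℝ} (hκ : 0 < κ) (t v : ℝ) {n : ℕ} (hn : n ≤ 2) :
    ‖Iv 0 fun u => u ^ n * (pw κ t v u * Lo k (1 / 2 + u))‖ ≤
      Real.exp (9 / κ) * br t ^ 5 * La k t := by
  unfold La
  rw [← integral_const_mul]
  exact norm_integral_le_of_norm_le ((bs_int hLOP hLOB hDEC h1 h2 t).const_mul _)
    (.of_forall fun τ => bs_pt hκ t v τ hn)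

theorem bs_cont {κ : ℝ} (hκ : 0 < κ) (t : ℝ) {n : ℕ} (hn : n ≤ 2) :
    Continuous fun v : ℝ => Iv 0 fun u => u ^ n * (pw κ t v u * Lo k (1 / 2 + u)) := by
  refine continuous_of_dominated (fun v => (bs_Lc hLOP hLOB hDEC h1 h2 hκ t v hn).1)
    (fun v => .of_forall fun τ => bs_pt hκ t v τ hn)
    ((bs_int hLOP hLOB hDEC h1 h2 t).const_mul _) (.of_forall fun τ => ?_)
  unfold pw
  fun_prop

theorem bs_Pk {κ κ' : ℝ} (hκ : 0 < κ) (hκ' : 0 < κ') (t v t' v' : ℝ) :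
    ‖Pk κ t v κ' t' v' k‖ ≤
      2 * (Real.exp (9 / κ) * br t ^ 5 * La k t) * (Real.exp (9 / κ') * br t' ^ 5 * La k t') := by
  have a0 := bs_Iv hLOP hLOB hDEC h1 h2 hκ t v (n := 0) (by norm_num)
  have a2 := bs_Iv hLOP hLOB hDEC h1 h2 hκ t v (n := 2) le_rfl
  have b0 := bs_Iv hLOP hLOB hDEC h1 h2 hκ' t' v' (n := 0) (by norm_num)
  have b2 := bs_Iv hLOP hLOB hDEC h1 h2 hκ' t' v' (n := 2) le_rfl
  simp only [pow_zero, one_mul] at a0 b0
  have p := (norm_nonneg _).trans a0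
  unfold Pk pr
  refine (norm_sub_le _ _).trans ?_
  rw [norm_mul, norm_mul]
  have c1 := mul_le_mul a2 b0 (norm_nonneg _) p
  have c2 := mul_le_mul a0 b2 (norm_nonneg _) p
  linarith

theorem bs_Pc {κ κ' : ℝ} (hκ : 0 < κ) (t t' v' : ℝ) :
    Continuous fun v : ℝ => Pk κ t v κ' t' v' k := by
  have a0 := bs_cont hLOP hLOB hDEC h1 h2 hκ t (n := 0) (by norm_num)
  have a2 := bs_cont hLOP hLOB hDEC h1 h2 hκ t (n := 2) le_rfl
  simp only [pow_zero, one_mul] at a0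
  unfold Pk pr
  exact (a2.mul continuous_const).sub (a0.mul continuous_const)

theorem bs_Pk2 {κ κ' : ℝ} (hκ : 0 < κ) (hκ' : 0 < κ') (t v t' v' : ℝ) :
    ‖Pk κ t v κ' t' v' k‖ ^ 2 ≤ 216 * (Real.exp (9 / κ) * Real.exp (9 / κ')) ^ 2 *
      (br t ^ 10 * br t' ^ 10) * (Lw k t + Lw k t') := by
  have a := bs_La hLOP hLOB hDEC h1 h2 t
  have b := bs_La hLOP hLOB hDEC h1 h2 t'
  have c : La k t ^ 2 * La k t' ^ 2 ≤ 54 * (Lw k t + Lw k t') := by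
    nlinarith [sq_nonneg (La k t ^ 2 - La k t' ^ 2)]
  have hb := tk2_br0 t
  have hb' := tk2_br0 t'
  calc _ ≤ (2 * (Real.exp (9 / κ) * br t ^ 5 * La k t) *
        (Real.exp (9 / κ') * br t' ^ 5 * La k t')) ^ 2 :=
        pow_le_pow_left₀ (norm_nonneg _) (bs_Pk hLOP hLOB hDEC h1 h2 hκ hκ' t v t' v') 2
    _ = 4 * (Real.exp (9 / κ) * Real.exp (9 / κ')) ^ 2 * (br t ^ 10 * br t' ^ 10) *
        (La k t ^ 2 * La k t' ^ 2) := by ring
    _ ≤ 4 * (Real.exp (9 / κ) * Real.exp (9 / κ')) ^ 2 * (br t ^ 10 * br t' ^ 10) *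
        (54 * (Lw k t + Lw k t')) := by gcongr
    _ = _ := by ring

end

theorem om_nonneg {x : ℝ} (hx : 0 ≤ x) : 0 ≤ om x := le_min (by positivity) (by positivity)

theorem lg_pos {Z : ℝ} (hZ : 0 ≤ Z) : 0 < lg Z := by
  have := lg_ge hZ
  unfold lg
  linarith

theorem pp2_ten (hLOP : LOP) (hLOB : LOB) (hDEC : DEC) (hF : FOUR) : PP2 10 := by
  intro κ κ' hκ hκ'
  obtain ⟨A, C, hC, h4⟩ := hF
  obtain ⟨D, hD, hT⟩ := pTK2 hLOP hLOB hDEC A
  refine ⟨10 + A, 216 * (Real.exp (9 / κ) * Real.exp (9 / κ')) ^ 2 * (2 * D * C), by positivity,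
    fun K t v t' v' F hK hS => ?_⟩
  have a := hT K _ t F (h4 K hK) hS
  have b := hT K _ t' F (h4 K hK) hS
  have hb := tk2_br0 t
  have hb' := tk2_br0 t'
  have hl := lg_pos hK.le
  have p : 1 ≤ br t ^ A := one_le_pow₀ (tk2_br1 t)
  have p' : 1 ≤ br t' ^ A := one_le_pow₀ (tk2_br1 t')
  have q : br t ^ A + br t' ^ A ≤ 2 * (br t ^ A * br t' ^ A) := by nlinarith
  have e10 : lg K ^ (10 : ℝ) = lg K ^ 10 := by exact_mod_cast Real.rpow_natCast (lg K) 10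
  set E := 216 * (Real.exp (9 / κ) * Real.exp (9 / κ')) ^ 2 with hE
  calc _ ≤ ∑ k ∈ F, om (|(k : ℝ)| / K) * (E * (br t ^ 10 * br t' ^ 10) * (Lw k t + Lw k t')) :=
        sum_le_sum fun k hk => mul_le_mul_of_nonneg_left
          (bs_Pk2 hLOP hLOB hDEC (hS k hk).1 (hS k hk).2 hκ.1 hκ'.1 t v t' v')
          (om_nonneg (by positivity))
    _ = E * (br t ^ 10 * br t' ^ 10) *
        (∑ k ∈ F, om (|(k : ℝ)| / K) * Lw k t + ∑ k ∈ F, om (|(k : ℝ)| / K) * Lw k t') := by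
        rw [← sum_add_distrib, mul_sum]
        exact sum_congr rfl fun k _ => by ring
    _ ≤ E * (br t ^ 10 * br t' ^ 10) * (D * (C * K * lg K ^ 10) * (br t ^ A + br t' ^ A)) := by
        gcongr
        linarith
    _ ≤ E * (br t ^ 10 * br t' ^ 10) *
        (D * (C * K * lg K ^ 10) * (2 * (br t ^ A * br t' ^ A))) := by gcongr
    _ = _ := by rw [e10]; ring

/-- The weighted bound gives the dyadic bound. -/
theorem di_of_pp2 {θ : ℝ} (h : PP2 θ) : DI θ 0 0 := by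
  intro κ κ' hκ hκ'
  obtain ⟨A, C, hC, H⟩ := h κ κ' hκ hκ'
  refine ⟨A, C, hC, fun Z t v t' v' hZ => ?_⟩
  have hZ0 : 0 < Z := by linarith
  simp only [pow_zero, mul_one]
  refine le_trans (sum_le_sum fun k hk => ?_)
    (H Z t v t' v' (Sq Z) hZ0 fun k hk => ⟨(mt_mem_Sq.1 hk).1, (mt_mem_Sq.1 hk).2.1⟩)
  obtain ⟨-, -, k1, k2⟩ := mt_mem_Sq.1 hk
  have x0 : 0 < |(k : ℝ)| / Z := div_pos (by linarith) hZ0
  have x1 : |(k : ℝ)| / Z ≤ 1 := (div_le_one hZ0).2 k2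
  have : 1 ≤ om (|(k : ℝ)| / Z) :=
    le_min (Real.one_le_rpow_of_pos_of_le_one_of_nonpos x0 x1 (by norm_num))
      (Real.one_le_rpow_of_pos_of_le_one_of_nonpos x0 x1 (by norm_num))
  exact le_mul_of_one_le_left (by positivity) this

theorem pBAS (hLOP : LOP) (hLOB : LOB) (hDEC : DEC) (hF : FOUR) : BAS :=
  di_of_pp2 (pp2_ten hLOP hLOB hDEC hF)

theorem Pk_swap (κ t v κ' t' v' : ℝ) (k : ℤ) : Pk κ t v κ' t' v' k = -Pk κ' t' v' κ t v k := by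
  unfold Pk pr
  ring

theorem sw_core {θ : ℝ} {j j' : ℕ} (h : DI θ j j') : DI θ j' j := by
  intro κ κ' hκ hκ'
  obtain ⟨A, C, hC, H⟩ := h κ' κ hκ' hκ
  refine ⟨A, C, hC, fun Z t v t' v' hZ => ?_⟩
  simp only [Pk_swap κ, norm_neg]
  exact (H Z t' v' t v hZ).trans (le_of_eq (by ring))

end Pool.Agent.Q4
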