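import Pool.Agent.P.MP_ea46f5_nt.Q4.S4
import Pool.Agent.P.MP_ea46f5_nt.QM.MtAbs

namespace Pool.Agent.Q4

open Complex MeasureTheory Finset Pool.Agent.QM
open scoped Real

theorem bp_br1 (t : ℝ) : 1 ≤ br t := by
  unfold br
  linarith [abs_nonneg t]

theorem bp_lg {Z : ℝ} (hZ : 0 ≤ Z) (θ : ℝ) : 0 ≤ lg Z ^ θ := by
  have := lg_ge hZ
  exact Real.rpow_nonneg (by unfold lg; linarith) _

theorem bp_pw (κ t v : ℝ) (u : ℂ) : pw κ t 0 u * cexp (u * v) = pw κ t v u := by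
  unfold pw
  rw [mul_assoc, ← Complex.exp_add]
  congr 2
  push_cast
  ring

theorem bp_id (κ κ' : ℝ) (c V : R4) (k : ℤ) (s : V4) : amp κ κ' c k s * ev s V =
    an s * ∏ j, pw ((![κ, κ', κ, κ'] : R4) j) (c j) (V j) (s j) * Lo k (1 / 2 + s j) := by
  unfold amp ev
  simp only [Fin.prod_univ_four, Fin.sum_univ_four, Complex.exp_add, Matrix.cons_val_zero,
    Matrix.cons_val_one, Matrix.cons_val, ← bp_pw _ _ (V _)]
  ring

theorem pBP (hPR4 : PR4) (hPWI : PWI) : BP := by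
  intro θ hP κ κ' hκ hκ'
  obtain ⟨A, C, hC, H⟩ := hP κ κ' hκ hκ'
  refine ⟨A, C, hC, fun K c F hK hF => ?_⟩
  have hk : ∀ j, Kp ((![κ, κ', κ, κ'] : R4) j) := fun j => by fin_cases j <;> assumption
  have key : ∀ k ∈ F, ∀ V : R4, IL (cs 0) (fun s => amp κ κ' c k s * ev s V) ∧
      In (cs 0) (fun s => amp κ κ' c k s * ev s V) =
        Pk κ (c 0) (V 0) κ' (c 1) (V 1) k * Pk κ (c 2) (V 2) κ' (c 3) (V 3) k := by
    intro k hkF V
    simp only [bp_id]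
    exact hPR4 0 (fun j u => pw ((![κ, κ', κ, κ'] : R4) j) (c j) (V j) u * Lo k (1 / 2 + u))
      fun j => ⟨by simpa using (hPWI _ (c j) (V j) 0 (hk j)).1 k (hF k hkF).1 (hF k hkF).2,
        (hPWI _ (c j) (V j) 2 (hk j)).1 k (hF k hkF).1 (hF k hkF).2⟩
  refine ⟨fun V => ?_, fun k hkF => by simpa [ev] using (key k hkF 0).1⟩
  have a := H K (c 0) (V 0) (c 1) (V 1) F hK hF
  have b := H K (c 2) (V 2) (c 3) (V 3) F hK hF
  have hl := bp_lg hK.le θ
  have p : ∀ j, 1 ≤ br (c j) ^ A := fun j => one_le_pow₀ (bp_br1 _)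
  have q1 : 1 ≤ br (c 0) ^ A * br (c 1) ^ A := one_le_mul_of_one_le_of_one_le (p 0) (p 1)
  have q2 : 1 ≤ br (c 2) ^ A * br (c 3) ^ A := one_le_mul_of_one_le_of_one_le (p 2) (p 3)
  have q : br (c 0) ^ A * br (c 1) ^ A + br (c 2) ^ A * br (c 3) ^ A ≤
      2 * (br (c 0) ^ A * br (c 1) ^ A * (br (c 2) ^ A * br (c 3) ^ A)) := by nlinarith
  calc _ ≤ ∑ k ∈ F, (om (|(k : ℝ)| / K) * ‖Pk κ (c 0) (V 0) κ' (c 1) (V 1) k‖ ^ 2 +
          om (|(k : ℝ)| / K) * ‖Pk κ (c 2) (V 2) κ' (c 3) (V 3) k‖ ^ 2) / 2 := by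
        refine sum_le_sum fun k hkF => ?_
        have o : 0 ≤ om (|(k : ℝ)| / K) := le_min (by positivity) (by positivity)
        rw [(key k hkF V).2, norm_mul]
        nlinarith [mul_nonneg o (sq_nonneg (‖Pk κ (c 0) (V 0) κ' (c 1) (V 1) k‖ -
          ‖Pk κ (c 2) (V 2) κ' (c 3) (V 3) k‖))]
    _ ≤ C * K * lg K ^ θ * (br (c 0) ^ A * br (c 1) ^ A + br (c 2) ^ A * br (c 3) ^ A) / 2 := by
        rw [← sum_div, sum_add_distrib]
        linarith
    _ ≤ C * K * lg K ^ θ *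
        (2 * (br (c 0) ^ A * br (c 1) ^ A * (br (c 2) ^ A * br (c 3) ^ A))) / 2 := by gcongr
    _ = _ := by rw [Fin.prod_univ_four]; ring

theorem rf_cs {E g m : ℝ → ℝ} (hE : ∀ x, 0 ≤ E x) (hg : ∀ x, 0 ≤ g x) (hEm : ∀ x, E x ≤ m x)
    (hm : Integrable m) (hi : Integrable fun x => E x * g x ^ 2) :
    (∫ x, E x * g x) ^ 2 ≤ ((∫ x, m x) + 1) * ∫ x, E x * g x ^ 2 := by
  set a := ∫ x, E x * g x with ha
  set b := ∫ x, E x * g x ^ 2 with hb
  set N := ∫ x, m x with hN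
  have hb0 : 0 ≤ b := integral_nonneg fun x => mul_nonneg (hE x) (by positivity)
  have ha0 : 0 ≤ a := integral_nonneg fun x => mul_nonneg (hE x) (hg x)
  have hN0 : 0 ≤ N := integral_nonneg fun x => (hE x).trans (hEm x)
  rcases ha0.eq_or_lt with h | h
  · rw [← h]; norm_num; positivity
  set l := a / (N + 1) with hl
  have l0 : 0 < l := by positivity
  have h1 : a ≤ ∫ x, (1 / (2 * l) * (E x * g x ^ 2) + l / 2 * m x) := by
    refine integral_mono_of_nonneg (.of_forall fun x => mul_nonneg (hE x) (hg x))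
      ((hi.const_mul _).add (hm.const_mul _)) (.of_forall fun x => ?_)
    have k : g x ≤ 1 / (2 * l) * g x ^ 2 + l / 2 := by
      have e : 1 / (2 * l) * g x ^ 2 + l / 2 = (g x ^ 2 + l ^ 2) / (2 * l) := by field_simp
      rw [e, le_div_iff₀ (by positivity)]
      nlinarith [sq_nonneg (g x - l)]
    have k1 := mul_le_mul_of_nonneg_left k (hE x)
    have k2 := mul_le_mul_of_nonneg_left (hEm x) (half_pos l0).le
    linarith
  rw [integral_add (hi.const_mul _) (hm.const_mul _), integral_const_mul, integral_const_mul,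
    ← hb, ← hN] at h1
  have e1 : l * (N + 1) = a := by rw [hl]; field_simp
  have h3 : l ≤ 1 / (2 * l) * b * (2 / (N + 1)) := by
    rw [mul_div_assoc', le_div_iff₀ (by positivity)]
    nlinarith
  have e2 : 1 / (2 * l) * b * (2 / (N + 1)) = b / a := by rw [← e1]; field_simp
  rw [e2, le_div_iff₀ h] at h3
  calc a ^ 2 = (N + 1) * (l * a) := by rw [← e1]; ring
    _ ≤ _ := by gcongr

theorem rf_E (w : ℝ) : 0 < Ew w ∧ Ew w * max 1 (Real.exp w) ^ 2 ≤ Real.exp (-|w / 2 - 0| / 2) := by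
  unfold Ew
  rw [sub_zero]
  split_ifs with h
  · refine ⟨Real.exp_pos _, ?_⟩
    rw [max_eq_right (Real.one_le_exp h), ← Real.exp_nat_mul, ← Real.exp_add,
      abs_of_nonneg (by linarith)]
    exact Real.exp_le_exp.2 (by push_cast; linarith)
  · refine ⟨Real.exp_pos _, ?_⟩
    rw [max_eq_left (Real.exp_le_one_iff.2 (by linarith)), abs_of_nonpos (by linarith)]
    exact le_of_eq (by rw [one_pow, mul_one]; congr 1; ring)

theorem pRF2 (hDEC : DEC) (hPKB : PKB) (hRF1 : RF1) : RF2 := by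
  intro θ j
  refine ⟨fun h κ κ' hκ hκ' => ?_, fun j' h κ κ' hκ hκ' => ?_⟩
  swap
  · obtain ⟨A, C, hC, H⟩ := h κ' κ hκ' hκ
    refine ⟨A, C, hC, fun Z t v t' v' hZ => ?_⟩
    have e : ∀ k, ‖Pk κ t v κ' t' v' k‖ = ‖Pk κ' t' v' κ t v k‖ := fun k => by
      rw [← norm_neg]
      congr 1
      unfold Pk pr
      ring
    simp only [e]
    exact (H Z t' v' t v hZ).trans (le_of_eq (by ring))
  have hκ2 : Kp (κ / 2) := ⟨half_pos hκ.1, by linarith [hκ.1, hκ.2]⟩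
  obtain ⟨A₁, D₁, hD₁, H₁⟩ := h κ κ' hκ hκ'
  obtain ⟨A₂, D₂, hD₂, H₂⟩ := h (κ / 2) κ' hκ2 hκ'
  obtain ⟨C, c, hC, hR⟩ := hRF1 κ hκ
  set m : ℝ → ℝ := fun w => Real.exp (-|w / 2 - 0| / 2) with hm
  have hmi : Integrable m := (hDEC.2.2.1 0).1.comp_div (R := 2) (by norm_num)
  set N := ∫ w, m w with hN
  have hN0 : 0 ≤ N := integral_nonneg fun _ => (Real.exp_pos _).le
  have hEm : ∀ w, Ew w ≤ m w := fun w => le_trans
    (le_mul_of_one_le_right (rf_E w).1.le (one_le_pow₀ (le_max_left _ _))) (rf_E w).2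
  have hEM : Measurable Ew := by
    unfold Ew
    exact Measurable.ite (measurableSet_le measurable_const measurable_id) (by fun_prop)
      (by fun_prop)
  refine ⟨A₁ + A₂ + 2 * c, D₁ + C ^ 2 * (N + 1) * (D₂ * N), by positivity,
    fun Z t v t' v' hZ => ?_⟩
  have hZ0 : 0 < Z := by linarith
  have hs : 0 < √Z := Real.sqrt_pos.2 hZ0
  have hl := bp_lg hZ0.le θ
  have b1 := bp_br1 t
  have b1' := bp_br1 t'
  have hx : 0 ≤ mx Z v' ^ j := pow_nonneg (zero_le_one.trans (le_max_left _ _)) _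
  set Q := Z * lg Z ^ θ * br t ^ (A₁ + A₂ + 2 * c) * br t' ^ (A₁ + A₂ + 2 * c) * mx Z v' ^ j
    with hQ
  have hQ0 : 0 ≤ Q := by positivity
  suffices k : ∑ k ∈ Sq Z, ‖Pk κ t v κ' t' v' k‖ ^ 2 ≤ D₁ * Q ∨
      ∑ k ∈ Sq Z, ‖Pk κ t v κ' t' v' k‖ ^ 2 ≤ C ^ 2 * (N + 1) * (D₂ * N) * Q by
    have e : (D₁ + C ^ 2 * (N + 1) * (D₂ * N)) * Z * lg Z ^ θ * br t ^ (A₁ + A₂ + 2 * c) *
        br t' ^ (A₁ + A₂ + 2 * c) * mx Z v ^ 0 * mx Z v' ^ j =
        D₁ * Q + C ^ 2 * (N + 1) * (D₂ * N) * Q := by rw [hQ]; ring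
    have p1 : 0 ≤ D₁ * Q := by positivity
    have p2 : 0 ≤ C ^ 2 * (N + 1) * (D₂ * N) * Q := by positivity
    rw [e]
    rcases k with k | k <;> linarith
  rcases le_total (Real.exp v) √Z with hv | hv
  · left
    have e : mx Z v = 1 := max_eq_left ((div_le_one hs).2 hv)
    have := H₁ Z t v t' v' hZ
    rw [e, one_pow, mul_one] at this
    refine this.trans ?_
    calc _ ≤ D₁ * Z * lg Z ^ θ * br t ^ (A₁ + A₂ + 2 * c) * br t' ^ (A₁ + A₂ + 2 * c) *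
          mx Z v' ^ j := by gcongr <;> omega
      _ = _ := by rw [hQ]; ring
  right
  set g : ℤ → ℝ → ℝ := fun k w => ‖Pk (κ / 2) (-t) (Real.log Z - v + w) κ' t' v' k‖ with hg
  have hq : ∀ k ∈ Sq Z, Squarefree k ∧ k ≠ 1 := fun k hk => by
    classical
    unfold Sq at hk
    exact ⟨(mem_filter.1 hk).2.1, (mem_filter.1 hk).2.2.1⟩
  have hi : ∀ k ∈ Sq Z, Integrable fun w => Ew w * g k w ^ 2 := by
    intro k hk
    obtain ⟨-, hc, M, hM⟩ := (hPKB (κ / 2) (-t) κ' t' hκ2 hκ').2 k (hq k hk).1 (hq k hk).2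
    have hgc : Continuous (g k) := ((hc v').comp (continuous_const.add continuous_id)).norm
    refine (hmi.mul_const (M ^ 2)).mono' (hEM.mul (hgc.pow 2).measurable).aestronglyMeasurable
      (.of_forall fun w => ?_)
    rw [Real.norm_of_nonneg (mul_nonneg (rf_E w).1.le (sq_nonneg _))]
    exact mul_le_mul (hEm w) (pow_le_pow_left₀ (norm_nonneg _) (hM _ _) 2) (sq_nonneg _)
      (Real.exp_pos _).le
  set P := D₂ * Z * lg Z ^ θ * br t ^ A₂ * br t' ^ A₂ * mx Z v' ^ j with hP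
  have hP0 : 0 ≤ P := by positivity
  have hsum : ∑ k ∈ Sq Z, ∫ w, Ew w * g k w ^ 2 ≤ P * N := by
    rw [← integral_finsetSum _ hi, hN, ← integral_const_mul]
    refine integral_mono (integrable_finsetSum _ hi) (hmi.const_mul P) fun w => ?_
    have a := H₂ Z (-t) (Real.log Z - v + w) t' v' hZ
    have e : br (-t) = br t := by simp [br]
    have x : mx Z (Real.log Z - v + w) ≤ max 1 (Real.exp w) := by
      refine max_le_max le_rfl ?_
      rw [Real.exp_add, Real.exp_sub, Real.exp_log hZ0, div_le_iff₀ hs, mul_comm]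
      refine mul_le_mul_of_nonneg_left ?_ (Real.exp_pos _).le
      rw [div_le_iff₀ (Real.exp_pos _)]
      nlinarith [Real.mul_self_sqrt hZ0.le]
    have x0 : 0 ≤ mx Z (Real.log Z - v + w) := zero_le_one.trans (le_max_left _ _)
    have hE := (rf_E w).1
    rw [e] at a
    calc _ = Ew w * ∑ k ∈ Sq Z, g k w ^ 2 := (mul_sum _ _ _).symm
      _ ≤ Ew w * (D₂ * Z * lg Z ^ θ * br t ^ A₂ * br t' ^ A₂ * mx Z (Real.log Z - v + w) ^ 2 *
          mx Z v' ^ j) := mul_le_mul_of_nonneg_left a hE.le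
      _ ≤ Ew w * (D₂ * Z * lg Z ^ θ * br t ^ A₂ * br t' ^ A₂ * max 1 (Real.exp w) ^ 2 *
          mx Z v' ^ j) := by gcongr
      _ = P * (Ew w * max 1 (Real.exp w) ^ 2) := by rw [hP]; ring
      _ ≤ P * m w := mul_le_mul_of_nonneg_left (rf_E w).2 hP0
  calc _ ≤ ∑ k ∈ Sq Z, (C * br t ^ c) ^ 2 * ((N + 1) * ∫ w, Ew w * g k w ^ 2) := by
        refine sum_le_sum fun k hk => ?_
        refine (pow_le_pow_left₀ (norm_nonneg _) (hR t v κ' t' v' Z k hκ' hZ hk) 2).trans ?_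
        rw [mul_pow]
        exact mul_le_mul_of_nonneg_left
          (rf_cs (fun w => (rf_E w).1.le) (fun w => norm_nonneg _) hEm hmi (hi k hk)) (sq_nonneg _)
    _ = (C * br t ^ c) ^ 2 * ((N + 1) * ∑ k ∈ Sq Z, ∫ w, Ew w * g k w ^ 2) := by
        rw [← mul_sum, ← mul_sum]
    _ ≤ (C * br t ^ c) ^ 2 * ((N + 1) * (P * N)) := by gcongr
    _ = C ^ 2 * (N + 1) * (D₂ * N) *
        (Z * lg Z ^ θ * br t ^ (A₂ + 2 * c) * br t' ^ A₂ * mx Z v' ^ j) := by rw [hP]; ring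
    _ ≤ _ := by
        rw [hQ]
        gcongr <;> omega

end Pool.Agent.Q4
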