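import Pool.Agent.P.MP_ea46f5_nt.Q4.D4
import Pool.Agent.P.MP_ea46f5_nt.QM.FMT

/-! Arithmetic facts for the tail of the exact part. -/

namespace Pool.Agent.Q4

open Complex MeasureTheory Finset Pool.Agent.QM
open scoped Real

/-- The number of prime factors. -/
def nw (f : ℕ) : ℕ := f.primeFactors.card

theorem tl_pow (B f : ℕ) (hB : B ≠ 0) (hf : f ≠ 0) : B ^ nw f ≤ B ^ B * f := by
  classical
  have h1 := card_filter_add_card_filter_not (s := f.primeFactors) (fun p => p < B)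
  have h2 : (f.primeFactors.filter fun p => p < B).card ≤ B := by
    have : (f.primeFactors.filter fun p => p < B) ⊆ range B :=
      fun p hp => mem_range.2 (mem_filter.1 hp).2
    simpa using card_le_card this
  have h3 : B ^ (f.primeFactors.filter fun p => ¬ p < B).card ≤ f := by
    calc _ ≤ ∏ p ∈ f.primeFactors.filter (fun p => ¬ p < B), p :=
          pow_card_le_prod _ _ _ fun p hp => not_lt.1 (mem_filter.1 hp).2
      _ ≤ f := Nat.le_of_dvd (Nat.pos_of_ne_zero hf)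
          ((prod_dvd_prod_of_subset _ _ _ (filter_subset _ _)).trans (Nat.prod_primeFactors_dvd f))
  unfold nw
  rw [← h1, pow_add]
  exact Nat.mul_le_mul (Nat.pow_le_pow_right (Nat.pos_of_ne_zero hB) h2) h3

theorem tl_32 : ∃ C : ℝ, 0 < C ∧ ∀ f : ℕ, f ≠ 0 → (32 : ℝ) ^ nw f ≤ C * (f : ℝ) ^ (1 / 4 : ℝ) := by
  obtain ⟨B, hB⟩ : ∃ B : ℕ, B = 32 ^ 4 := ⟨_, rfl⟩
  have hB0 : B ≠ 0 := by rw [hB]; norm_num
  have hD : (1 : ℝ) ≤ ((B ^ B : ℕ) : ℝ) := by exact_mod_cast Nat.one_le_pow _ _ (Nat.pos_of_ne_zero hB0)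
  refine ⟨((B ^ B : ℕ) : ℝ), by linarith, fun f hf => ?_⟩
  have h : ((B ^ nw f : ℕ) : ℝ) ≤ ((B ^ B * f : ℕ) : ℝ) := by exact_mod_cast tl_pow B f hB0 hf
  have e1 : ((B ^ nw f : ℕ) : ℝ) = ((32 : ℝ) ^ nw f) ^ 4 := by
    rw [hB, ← pow_mul, ← pow_mul, mul_comm]; push_cast; rfl
  rw [e1, Nat.cast_mul] at h
  generalize ((B ^ B : ℕ) : ℝ) = D at h hD ⊢
  have hf0 : (0 : ℝ) ≤ f := Nat.cast_nonneg f
  have e2 : ((f : ℝ) ^ (1 / 4 : ℝ)) ^ 4 = f := by
    rw [← Real.rpow_natCast, ← Real.rpow_mul hf0]; norm_num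
  refine le_of_pow_le_pow_left₀ (n := 4) (by norm_num) (by positivity) (h.trans ?_)
  rw [mul_pow, e2]
  exact mul_le_mul_of_nonneg_right (le_self_pow₀ hD (by norm_num)) hf0

theorem tl_sY (Y f : ℕ) (k : ℤ) (hk : Squarefree k) (hf : Odd f) :
    sY Y (k * (f : ℤ) ^ 2) =
      ∑ a ∈ f.divisors.filter (fun a => a ≤ Y), ArithmeticFunction.moebius a := by
  have hf0 : f ≠ 0 := hf.pos.ne'
  unfold sY AY
  symm
  refine sum_subset (fun a ha => ?_) fun a ha hn => ?_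
  · obtain ⟨h1, h2⟩ := mem_filter.1 ha
    have h3 := Nat.dvd_of_mem_divisors h1
    refine mem_filter.2 ⟨mem_filter.2 ⟨mem_Icc.2 ⟨Nat.pos_of_mem_divisors h1, h2⟩,
      Odd.of_dvd_nat hf h3⟩, ?_⟩
    exact Dvd.dvd.mul_left (pow_dvd_pow_of_dvd (Int.natCast_dvd_natCast.2 h3) 2) k
  · by_contra h0
    have hs : Squarefree a := ArithmeticFunction.moebius_ne_zero_iff_squarefree.1 h0
    obtain ⟨h1, h2⟩ := mem_filter.1 ha
    have h3 : (a : ℤ) ∣ (f : ℤ) ^ 2 :=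
      hk.dvd_of_squarefree_of_mul_dvd_mul_right (by rwa [← sq])
    have h4 : a ∣ f ^ 2 := by exact_mod_cast h3
    have h5 : a ∣ f := (hs.dvd_pow_iff_dvd (by norm_num)).1 h4
    exact hn (mem_filter.2 ⟨Nat.mem_divisors.2 ⟨h5, hf0⟩, (mem_Icc.1 (mem_filter.1 h1).1).2⟩)

theorem tl_sY_one (Y : ℕ) (k : ℤ) (hk : Squarefree k) (hY : 1 ≤ Y) : sY Y k = 1 := by
  have h := tl_sY Y 1 k hk odd_one
  rw [Nat.cast_one, one_pow, mul_one, Nat.divisors_one, filter_singleton, if_pos hY] at h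
  simpa using h

theorem tl_sY_zero (Y f : ℕ) (k : ℤ) (hk : Squarefree k) (hf : Odd f) (h1 : f ≠ 1) (hY : f ≤ Y) :
    sY Y (k * (f : ℤ) ^ 2) = 0 := by
  rw [tl_sY Y f k hk hf, filter_true_of_mem fun a ha => (Nat.divisor_le ha).trans hY]
  have h := congrArg (fun F : ArithmeticFunction ℤ => F f) ArithmeticFunction.moebius_mul_coe_zeta
  simp only [ArithmeticFunction.coe_mul_zeta_apply] at h
  rw [h, ArithmeticFunction.one_apply_ne h1]

theorem tl_sY_le (Y f : ℕ) (k : ℤ) (hk : Squarefree k) (hf : Odd f) :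
    ‖((sY Y (k * (f : ℤ) ^ 2) : ℤ) : ℂ)‖ ≤ 2 ^ nw f := by
  classical
  have hf0 : f ≠ 0 := hf.pos.ne'
  have h1 : |sY Y (k * (f : ℤ) ^ 2)| ≤ ((f.divisors.filter Squarefree).card : ℤ) := by
    rw [tl_sY Y f k hk hf]
    refine (abs_sum_le_sum_abs _ _).trans ?_
    refine (sum_le_sum_of_subset_of_nonneg (filter_subset _ _) fun _ _ _ => abs_nonneg _).trans ?_
    rw [card_filter]
    push_cast
    exact sum_le_sum fun a _ => le_of_eq ArithmeticFunction.abs_moebius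
  have h2 : (f.divisors.filter Squarefree).card ≤ 2 ^ nw f := by
    unfold nw
    rw [← card_powerset]
    refine card_le_card_of_injOn Nat.primeFactors (fun a ha => ?_) fun a ha b hb hab => ?_
    · exact mem_coe.2 (mem_powerset.2 (Nat.primeFactors_mono
        (Nat.dvd_of_mem_divisors (mem_filter.1 ha).1) hf0))
    · rw [← Nat.prod_primeFactors_of_squarefree (mem_filter.1 ha).2, hab,
        Nat.prod_primeFactors_of_squarefree (mem_filter.1 hb).2]
  rw [Complex.norm_intCast]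
  have h3 : |sY Y (k * (f : ℤ) ^ 2)| ≤ 2 ^ nw f := h1.trans (by exact_mod_cast h2)
  exact_mod_cast h3

/-- Every nonzero integer is a squarefree one times a square. -/
theorem tl_ex (m : ℤ) (hm : m ≠ 0) : ∃ x : ℕ × ℤ, x.1 ≠ 0 ∧ Squarefree x.2 ∧ x.2 * (x.1 : ℤ) ^ 2 = m := by
  obtain ⟨a, b, -, hb, h1, h2⟩ := Nat.sq_mul_squarefree_of_pos (Int.natAbs_pos.2 hm)
  have h3 : (a : ℤ) * (b : ℤ) ^ 2 = |m| := by
    rw [← Int.natCast_natAbs, ← h1]; push_cast; ring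
  rcases abs_choice m with h | h
  · exact ⟨(b, a), hb.ne', Int.squarefree_natCast.2 h2, h3.trans h⟩
  · refine ⟨(b, -a), hb.ne', Int.squarefree_natAbs.1 (by simpa using h2), ?_⟩
    rw [neg_mul, h3, h, neg_neg]

theorem tl_dec (h : ℤ → ℝ) (h0 : ∀ m, 0 ≤ h m) (hz : h 0 = 0) (B : ℝ)
    (H : ∀ (F₁ : Finset ℤ) (F₂ : Finset ℕ), (∀ k ∈ F₁, Squarefree k) → (∀ f ∈ F₂, f ≠ 0) →
      ∑ f ∈ F₂, ∑ k ∈ F₁, h (k * (f : ℤ) ^ 2) ≤ B) (F : Finset ℤ) : ∑ m ∈ F, h m ≤ B := by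
  classical
  choose d hd using tl_ex
  let D : ℤ → ℕ × ℤ := fun m => if hm : m ≠ 0 then d m hm else (1, 1)
  have hD : ∀ m, (D m).1 ≠ 0 ∧ Squarefree (D m).2 ∧ (m ≠ 0 → (D m).2 * ((D m).1 : ℤ) ^ 2 = m) := by
    intro m
    by_cases hm : m ≠ 0
    · simp only [D, dif_pos hm]; exact ⟨(hd m hm).1, (hd m hm).2.1, fun _ => (hd m hm).2.2⟩
    · simp only [D, dif_neg hm]; exact ⟨one_ne_zero, squarefree_one, fun h => absurd h hm⟩
  refine le_trans ?_ (H (F.image fun m => (D m).2) (F.image fun m => (D m).1)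
    (fun k hk => by obtain ⟨m, -, rfl⟩ := mem_image.1 hk; exact (hD m).2.1)
    fun f hf => by obtain ⟨m, -, rfl⟩ := mem_image.1 hf; exact (hD m).1)
  rw [← sum_product', ← sum_erase F hz]
  refine le_trans (sum_le_sum_of_subset_of_nonneg (fun m hm => ?_) fun _ _ _ => h0 _)
    (sum_image_le_of_nonneg (g := fun x : ℕ × ℤ => x.2 * (x.1 : ℤ) ^ 2) fun _ _ => h0 _)
  exact mem_image.2 ⟨D m, mem_product.2 ⟨mem_image_of_mem _ (mem_of_mem_erase hm),
    mem_image_of_mem _ (mem_of_mem_erase hm)⟩, (hD m).2.2 (ne_of_mem_erase hm)⟩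

theorem tl_om0 {x : ℝ} (hx : 0 ≤ x) : 0 ≤ om x :=
  le_min (Real.rpow_nonneg hx _) (Real.rpow_nonneg hx _)

theorem tl_om (hTRV : TRV) : ∃ C : ℝ, 0 < C ∧ ∀ (K : ℝ) (F : Finset ℤ), 0 < K → SQ F →
    ∑ k ∈ F, om (|(k : ℝ)| / K) ≤ C * K * lg K ^ 10 := by
  obtain ⟨C, hC, H⟩ := mt_abs
  obtain ⟨_, _, hT⟩ := hTRV
  refine ⟨C * (5 * (3 / 2) ^ 10), by positivity, fun K F hK hF => ?_⟩
  have := H (fun k : ℤ => Squarefree k ∧ k ≠ 1) (fun k => |(k : ℝ)|) (fun _ => 1)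
    (5 * (3 / 2) ^ 10) K K (by positivity) hK hK (fun _ => zero_le_one)
    (fun k hk => by
      have : 1 ≤ |k| := Int.one_le_abs hk.1.ne_zero
      exact_mod_cast this)
    (fun Z hZ S hS => by
      have h1 : (S.card : ℝ) ≤ (Sq Z).card := by
        exact_mod_cast card_le_card fun k hk =>
          mt_mem_Sq.2 ⟨(hS k hk).1.1, (hS k hk).1.2, (hS k hk).2⟩
      have h2 := (hT Z 0 hZ).2
      have h3 := lg_ge (K := Z) (by linarith)
      have h4 : (2 / 3 : ℝ) ^ 10 ≤ Real.log (2 + Z) ^ 10 := by gcongr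
      have h5 : (1 : ℝ) ≤ max 1 (Z / K) ^ 4 := one_le_pow₀ (le_max_left _ _)
      rw [sum_const, nsmul_eq_mul, mul_one]
      calc _ ≤ 5 * Z := h1.trans h2
        _ = 5 * (3 / 2) ^ 10 * (Z * (2 / 3) ^ 10 * 1) := by ring
        _ ≤ _ := by gcongr) F hF
  have e : (-3 / 4 : ℝ) = -(3 / 4) := by norm_num
  rw [e, div_self hK.ne', max_self] at this
  simp only [mul_one, one_pow] at this
  refine le_trans this (le_of_eq ?_)
  unfold lg
  ring

/-- Removing the Euler factors at the primes of `f`. -/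
theorem tl_eul (hLSP : LSP) (k : ℤ) (f : ℕ) (hf : Odd f) : ∃ P : ℂ → ℂ, Differentiable ℂ P ∧
    (∀ s : ℂ, 0 ≤ s.re → ‖P s‖ ≤ 2 ^ nw f) ∧
    ∀ s : ℂ, 1 < s.re → LS (k * (f : ℤ) ^ 2) s = LS k s * P s := by
  induction f using induction_on_primes with
  | zero => simp at hf
  | one => exact ⟨fun _ => 1, differentiable_const _, fun s _ => by simp [nw], fun s _ => by simp⟩
  | prime_mul p a hp ih =>
    obtain ⟨hp1, ha1⟩ := Nat.odd_mul.1 hf
    obtain ⟨P, h1, h2, h3⟩ := ih ha1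
    have hp2 : p ≠ 2 := by rintro rfl; exact absurd hp1 (by decide)
    have ha0 : a ≠ 0 := ha1.pos.ne'
    have hp0 : (p : ℂ) ≠ 0 := by exact_mod_cast hp.ne_zero
    refine ⟨fun s => P s * (1 - jo (k * (a : ℤ) ^ 2) p * (p : ℂ) ^ (-s)), ?_, fun s hs => ?_,
      fun s hs => ?_⟩
    · exact h1.mul ((differentiable_const _).sub ((differentiable_const _).mul
        (differentiable_id.neg.const_cpow (Or.inl hp0))))
    · have e : nw (p * a) = (insert p a.primeFactors).card := by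
        unfold nw; rw [Nat.primeFactors_mul hp.ne_zero ha0, hp.primeFactors, insert_eq]
      rw [norm_mul, e]
      by_cases hpa : p ∣ a
      · have e2 : jo (k * (a : ℤ) ^ 2) p = 0 := by
          have : jacobiSym (k * (a : ℤ) ^ 2) p = 0 := by
            refine jacobiSym.eq_zero_iff.2 ⟨hp.ne_zero, fun hg => ?_⟩
            have hd : (p : ℤ) ∣ k * (a : ℤ) ^ 2 :=
              Dvd.dvd.mul_left (dvd_pow (Int.natCast_dvd_natCast.2 hpa) (by norm_num)) k
            have := Int.dvd_gcd hd (dvd_refl (p : ℤ))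
            rw [hg] at this
            exact hp.one_lt.ne' (Nat.dvd_one.1 this)
          simp [jo, this]
        rw [e2, insert_eq_of_mem (Nat.mem_primeFactors.2 ⟨hp, hpa, ha0⟩)]
        simpa [nw] using h2 s hs
      · rw [card_insert_of_notMem fun h => hpa (Nat.dvd_of_mem_primeFactors h), pow_succ]
        refine mul_le_mul (h2 s hs) ((norm_sub_le _ _).trans ?_) (norm_nonneg _)
          (pow_nonneg zero_le_two _)
        have e3 : ‖jo (k * (a : ℤ) ^ 2) p‖ ≤ 1 := by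
          unfold jo
          rw [if_pos hp1]
          rcases jacobiSym.trichotomy (k * (a : ℤ) ^ 2) p with h | h | h <;> simp [h]
        have e4 : ‖(p : ℂ) ^ (-s)‖ ≤ 1 := by
          rw [Complex.norm_natCast_cpow_of_pos hp.pos]
          exact Real.rpow_le_one_of_one_le_of_nonpos (by exact_mod_cast hp.one_le) (by simpa using hs)
        rw [norm_one, norm_mul]
        exact (add_le_add le_rfl (mul_le_one₀ e3 (norm_nonneg _) e4)).trans one_add_one_eq_two.le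
    · have e : k * ((p * a : ℕ) : ℤ) ^ 2 = k * (a : ℤ) ^ 2 * (p : ℤ) ^ 2 := by push_cast; ring
      rw [e, hLSP.2.2.2.2.2 _ p s hp hp2 hs, h3 s hs, mul_assoc]

end Pool.Agent.Q4
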