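import Pool.Agent.P.MP_ea46f5_nt.Q4.S4
import Pool.Agent.P.MP_ea46f5_nt.Q4.TailA

/-! Classes modulo 8 and the truncated Möbius sums. -/

namespace Pool.Agent.Q4

open Complex Finset Pool.Agent.QM

theorem pCLM : CLM := by
  refine ⟨fun τ r k hτ hr hc => ?_, fun a k ha hk => ⟨fun hp => ?_, fun r hc => ?_⟩, fun r => ?_⟩
  · obtain ⟨h1, rfl⟩ := hc
    refine ⟨by simp only [gam, Int.emod_emod_of_dvd _ (dvd_refl (8 : ℤ))], ?_, ?_⟩
    · have e : k % 8 % 4 = k % 4 := Int.emod_emod_of_dvd _ (by norm_num)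
      unfold qk cq disc
      rw [e]
      split_ifs
      · rw [one_mul]
      · push_cast
        rw [abs_mul, abs_of_pos (by norm_num : (0 : ℝ) < 4)]
    · unfold par
      rcases hτ with rfl | rfl
      · rw [if_pos (by omega)]; simp
      · rw [if_neg (by omega)]; simp
  · have h4 : ¬ (2 * 2 : ℤ) ∣ k := fun h => by
      have := Int.isUnit_iff.1 (hk 2 h)
      omega
    have h0 : k ≠ 0 := hk.ne_zero
    refine ⟨by simp only [RS, mem_insert, mem_singleton]; omega, ?_, rfl⟩
    subst hp
    unfold par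
    split_ifs
    · simpa
    · simp only [pow_one]; omega
  · have h1 := hc.1
    unfold par
    interval_cases a
    · rw [if_pos (by simpa using h1)]
    · rw [if_neg (by simp only [pow_one] at h1; omega)]
  · unfold cq
    split_ifs <;> norm_num

theorem cy_mem {Y a : ℕ} (h : a ∈ AY Y) : 1 ≤ a ∧ a ≤ Y := mem_Icc.1 (mem_filter.1 h).1

theorem cy_card (Y : ℕ) (p : ℕ → Prop) [DecidablePred p] : ((AY Y).filter p).card ≤ Y :=
  (card_filter_le _ _).trans ((card_filter_le _ _).trans (by simp))

theorem cy_abs (s : Finset ℕ) : |∑ a ∈ s, ArithmeticFunction.moebius a| ≤ (s.card : ℤ) := by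
  refine (abs_sum_le_sum_abs _ _).trans ?_
  refine (sum_le_card_nsmul _ _ 1 fun a _ => ArithmeticFunction.abs_moebius_le_one).trans ?_
  simp

theorem pCYB : CYB := by
  refine ⟨fun z n => ?_, fun Y n => ?_, fun Y n z hz => ?_, fun Y k f hk hf => ⟨?_, ?_, ?_⟩,
    fun Y m => ?_⟩
  · have h : (AY 1).filter (fun a => a.Coprime n) = {1} := by
      have : AY 1 = {1} := by decide
      rw [this, filter_singleton, if_pos (Nat.coprime_one_left n)]
    simp [cY, h]
  · refine continuous_finsetSum _ fun a ha => continuous_const.mul (Continuous.const_cpow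
      (by fun_prop) (Or.inl ?_))
    have := (cy_mem (mem_filter.1 ha).1).1
    exact Nat.cast_ne_zero.2 (by omega)
  · refine (norm_sum_le _ _).trans ((sum_le_card_nsmul _ _ ((Y : ℝ) ^ 10) fun a ha => ?_).trans ?_)
    · obtain ⟨h1, h2⟩ := cy_mem (mem_filter.1 ha).1
      have h3 : (1 : ℝ) ≤ a := by exact_mod_cast h1
      have h4 : ‖(ArithmeticFunction.moebius a : ℂ)‖ ≤ 1 := by
        rw [norm_intCast]
        exact_mod_cast ArithmeticFunction.abs_moebius_le_one
      rw [norm_mul, norm_natCast_cpow_of_pos h1]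
      calc _ ≤ 1 * (a : ℝ) ^ ((10 : ℕ) : ℝ) :=
            mul_le_mul h4 (Real.rpow_le_rpow_of_exponent_le h3 (by simp; linarith))
              (by positivity) zero_le_one
        _ ≤ _ := by
            rw [one_mul, Real.rpow_natCast]
            exact pow_le_pow_left₀ (by positivity) (by exact_mod_cast h2) _
    · rw [nsmul_eq_mul, pow_succ' (Y : ℝ) 10]
      exact mul_le_mul_of_nonneg_right (Nat.cast_le.2 (cy_card Y _)) (by positivity)
  · rw [tl_sY Y f k hk hf]
    exact (cy_abs _).trans (by exact_mod_cast card_filter_le _ _)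
  · rintro hY rfl
    simpa using tl_sY_one Y k hk hY
  · exact fun h1 h2 => tl_sY_zero Y f k hk hf h1.ne' h2
  · exact (cy_abs _).trans (by exact_mod_cast cy_card Y _)

end Pool.Agent.Q4
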