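import Pool.Agent.P.MP_ea46f5_nt.Q4.S4

/-! The sum of the main terms over the classes modulo 8. -/

namespace Pool.Agent.Q4

open Complex MeasureTheory Finset Pool.Agent.QM
open scoped Real ComplexConjugate

theorem csm_W4 (a : ℕ) (c : Fin 3 → ℂ) (hg : ∀ u, gg a c u = (u ^ 2 - 1 / 4) * g1 a c u) (γ : ℤ)
    (u : V4) : W4 (g1 a c) γ u =
      Vd (fun j => u j ^ 2) ^ 2 * (∏ j, gg a c (u j)) * (∏ j, u j ^ 7)⁻¹ * Fq u 2 γ := by
  unfold W4 Wr hf Fq
  rw [← prod_inv_distrib, mul_assoc, mul_assoc, mul_assoc, ← prod_mul_distrib, ← prod_mul_distrib,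
    ← prod_mul_distrib]
  refine congrArg _ (prod_congr rfl fun j _ => ?_)
  rw [hg, wr, xs, div_eq_mul_inv, mul_inv, Nat.cast_ofNat]
  ring

theorem csm_pt (hLOP : LOP) (hV : VDP) (hA : HA4) (a : ℕ) (c : Fin 3 → ℂ)
    (hg : ∀ u, gg a c u = (u ^ 2 - 1 / 4) * g1 a c u) {u : V4} (hu : ∀ j, 0 < (u j).re) :
    1 / 8 * (W4 (g1 a c) 1 u * ZO u * HI u + W4 (g1 a c) (-1) u * ZO u * HI u +
      W4 (g1 a c) 0 u * ZO u * HI u) =
      3 / π ^ 2 * (KZ4 u * Aprod 4 u * ∏ j, gg a c (u j)) / P8 u := by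
  obtain ⟨-, -, -, -, -, -, -, hv⟩ := hV
  have h0 : ∀ j, u j ≠ 0 := fun j h => by simpa [h] using hu j
  have h1 : ∀ i j, u i + u j ≠ 0 := fun i j h => by
    have := congrArg re h
    rw [add_re, zero_re] at this
    linarith [hu i, hu j]
  have hS : (∏ i, ∏ j ∈ Ici i, (u i + u j)) ≠ 0 :=
    prod_ne_zero_iff.2 fun i _ => prod_ne_zero_iff.2 fun j _ => h1 i j
  have hP : (∏ j, u j) ≠ 0 := prod_ne_zero_iff.2 fun j _ => h0 j
  have hZ : ZO u = (∏ i, ∏ j ∈ Ici i, (1 - (2 : ℂ) ^ (-(1 + u i + u j)))) *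
      (∏ i, ∏ j ∈ Ici i, riemannZeta₁ (1 + u i + u j)) / ∏ i, ∏ j ∈ Ici i, (u i + u j) := by
    unfold ZO
    rw [← prod_mul_distrib, ← prod_div_distrib]
    refine prod_congr rfl fun i _ => ?_
    rw [← prod_mul_distrib, ← prod_div_distrib]
    refine prod_congr rfl fun j _ => ?_
    rw [hLOP.2.2 _ fun h => h1 i j (by linear_combination h)]
    congr 1; ring
  have hF : Fq u 2 ((0 : ℤ) : ℂ) = 1 := by simp [Fq]
  have h8 : P8 u = (∏ j, u j) ^ 8 := by rw [P8, prod_pow]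
  have hVd : Vd u = Vd (fun j => u j ^ 2) * (16 * ∏ j, u j) / ∏ i, ∏ j ∈ Ici i, (u i + u j) := by
    rw [hv u, mul_div_cancel_right₀ _ hS]
  have hA' := hA u hu
  rw [csm_W4 a c hg, csm_W4 a c hg, csm_W4 a c hg, hF, Int.cast_one, Int.cast_neg, Int.cast_one,
    prod_pow, h8, KZ4, hZ, hVd]
  generalize (∏ i, ∏ j ∈ Ici i, (u i + u j)) = S at hS ⊢
  generalize (∏ j, u j) = P at hP ⊢
  generalize (3 / π ^ 2 : ℂ) = κ at hA' ⊢
  field_simp
  linear_combination (8 * Vd (fun j => u j ^ 2) ^ 2 * (∏ j, gg a c (u j)) *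
    ∏ i, ∏ j ∈ Ici i, riemannZeta₁ (1 + u i + u j)) * hA'

theorem csm_int (hI : INB) (hH : HB4) (hZ : ZB) (hW : WRB) {g : ℂ → ℂ} {C₀ ε X : ℝ} (hg : GC g C₀)
    {γ : ℤ} (hγ : γ ∈ T3) (h0 : 0 < ε) (h1 : ε ≤ 1) (hX : 1 ≤ X) : Integrable fun t : R4 =>
      (X : ℂ) ^ (1 + us (pt (cs ε) t)) / (1 + us (pt (cs ε) t)) *
        (W4 g γ (pt (cs ε) t) * ZO (pt (cs ε) t) * HI (pt (cs ε) t)) := by
  obtain ⟨C, hC, hW⟩ := hW g C₀ 2 hg
  obtain ⟨-, w1, -, w2, w3, w4⟩ := hW γ hγ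
  obtain ⟨C', B, hC', hH⟩ := hH
  obtain ⟨-, -, -, k1, k2⟩ := hH 1
  obtain ⟨-, -, -, z1, -⟩ := hZ
  have hre : ∀ (t : R4) j, (pt (cs ε) t j).re = ε := fun t j => by simp [pt, cs]
  have hus : ∀ t : R4, (1 + us (pt (cs ε) t)).re = 1 + 2 * ε := fun t => by
    simp [us, pt, cs]; ring
  have hn : ∀ t : R4, 1 ≤ ‖1 + us (pt (cs ε) t)‖ := fun t =>
    le_trans (by rw [hus]; linarith) (re_le_norm _)
  have hp : Continuous fun t : R4 => pt (cs ε) t := by unfold pt; fun_prop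
  have hX0 : 0 < X := by linarith
  refine (hI 4 (cs ε) (X ^ (1 + 2 * ε) * (C * (1 / ε ^ 8) ^ 4 * C'))
    (fun u => (X : ℂ) ^ (1 + us u) / (1 + us u) * (W4 g γ u * ZO u * HI u)) ?_ fun t => ?_).1
  · have c1 : Continuous fun t : R4 => 1 + us (pt (cs ε) t) :=
      continuous_const.add (w3.continuous.comp hp)
    have c2 : ∀ G : V4 → ℂ, Hol {u : V4 | ∀ j, 0 < (u j).re} G →
        Continuous fun t : R4 => G (pt (cs ε) t) := fun G hG =>
      continuous_iff_continuousAt.2 fun t =>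
        (hG _ fun j => by rw [hre]; exact h0).continuousAt.comp hp.continuousAt
    refine ((c1.const_cpow (Or.inl (ofReal_ne_zero.2 hX0.ne'))).div c1 fun t h => ?_).mul
      ((((c2 _ w1).mul (w2.continuous.comp hp)).mul (c2 _ z1)).mul
        (k2.comp_continuous hp fun t j => by rw [hre]; exact h0.le))
    have := hn t
    rw [h, norm_zero] at this
    linarith
  · have b1 := (w4 ε 1 h0 le_rfl (pt (cs ε) t) fun j => by
      simp only [hre, cs]; constructor <;> linarith).2.2.2.2.1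
    have b2 := (k1 le_rfl (pt (cs ε) t) fun j => by rw [hre]; exact h0.le).2
    have b3 : ∏ j, 1 / ‖pt (cs ε) t j‖ ^ 8 ≤ (1 / ε ^ 8) ^ 4 := by
      refine (prod_le_prod (fun j _ => by positivity) fun j _ => ?_).trans
        (by rw [prod_const, card_univ, Fintype.card_fin])
      have : ε ≤ ‖pt (cs ε) t j‖ := (hre t j).ge.trans (re_le_norm _)
      gcongr
    have b4 : ‖(X : ℂ) ^ (1 + us (pt (cs ε) t)) / (1 + us (pt (cs ε) t))‖ ≤ X ^ (1 + 2 * ε) := by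
      rw [norm_div, norm_cpow_eq_rpow_re_of_pos hX0, hus]
      exact div_le_self (by positivity) (hn t)
    have b5 : 0 ≤ dk (pt (cs ε) t) := prod_nonneg fun j _ => by positivity
    rw [show dn 2 (pt (cs ε) t) = dk (pt (cs ε) t) from rfl] at b1
    rw [norm_mul, norm_mul]
    calc _ ≤ X ^ (1 + 2 * ε) * (C * (1 / ε ^ 8) ^ 4 * dk (pt (cs ε) t) * C') := by
          gcongr
          exact b1.trans (by gcongr)
      _ = _ := by ring

theorem pCSM (hLOP : LOP) (hI : INB) (hV : VDP) (hH : HB4) (hA : HA4) (hZ : ZB) (hG : G1W)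
    (hW : WRB) : CSM := by
  intro a c ε X ha h0 h1 hX
  obtain ⟨⟨C₀, -, hg⟩, hgg⟩ := hG a c ha
  have i1 := csm_int hI hH hZ hW hg (γ := 1) (by decide) h0 h1 hX
  have i2 := csm_int hI hH hZ hW hg (γ := -1) (by decide) h0 h1 hX
  have i3 := csm_int hI hH hZ hW hg (γ := 0) (by decide) h0 h1 hX
  have hπ : (24 * π ^ 4 : ℂ) ≠ 0 :=
    mul_ne_zero (by norm_num) (pow_ne_zero _ (ofReal_ne_zero.2 Real.pi_ne_zero))
  have e1 : ∑ r ∈ RS, 1 / (8 * cq r : ℂ) * MC (g1 a c) (gam r) ε X =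
      1 / 8 * (MC (g1 a c) 1 ε X + MC (g1 a c) (-1) ε X + MC (g1 a c) 0 ε X) := by
    simp [RS, cq, gam]; ring
  rw [e1, MT, ← mul_assoc, mul_comm (3 / π ^ 2 : ℂ), mul_inv_cancel_left₀ hπ]
  unfold MC In
  rw [← integral_add' i1 i2, ← integral_add' (i1.add i2) i3, ← integral_const_mul,
    ← integral_const_mul]
  refine integral_congr_ae (Filter.Eventually.of_forall fun t => ?_)
  have := csm_pt hLOP hV hA a c hgg (u := pt (cs ε) t) fun j => by simpa [pt, cs] using h0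
  simp only [Pi.add_apply]
  change _ = 3 / π ^ 2 * ((X : ℂ) ^ (1 + us (pt (cs ε) t)) / (1 + us (pt (cs ε) t)) *
    (KZ4 (pt (cs ε) t) * Aprod 4 (pt (cs ε) t) * ∏ j, gg a c (pt (cs ε) t j)) / P8 (pt (cs ε) t))
  linear_combination (X : ℂ) ^ (1 + us (pt (cs ε) t)) / (1 + us (pt (cs ε) t)) * this

end Pool.Agent.Q4
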