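import Pool.Agent.P.MP_ea46f5_nt.Q4.D4
import Pool.Agent.P.MP_ea46f5_nt.QM.FTK2

/-! Size and holomorphy of the weights of the exact part. -/

namespace Pool.Agent.Q4

open Complex MeasureTheory Finset Pool.Agent.QM
open scoped Real

theorem tw_sep {n : ℕ} {U : Set (Fin n → ℂ)} {G : (Fin n → ℂ) → ℂ} (h : Hol U G) : Sep U G := by
  refine ⟨fun s hs => (h s hs).continuousAt.continuousWithinAt, fun s hs i => ?_⟩
  have h1 : DifferentiableAt ℂ G (Function.update s i (s i)) := by simpa using h s hs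
  exact h1.comp (s i) (hasDerivAt_update s i (s i)).differentiableAt

theorem tw_th (z : ℂ) (hz : 0 ≤ z.re) : ‖th8 z‖ ≤ 8 * (1 + ‖z‖) ^ 7 := by
  unfold th8
  have h1 : ‖cexp (-z)‖ ≤ 1 := by
    rw [Complex.norm_exp]; exact Real.exp_le_one_iff.2 (by simpa using hz)
  have h2 : ‖∑ j ∈ range 8, z ^ j / (j.factorial : ℂ)‖ ≤ 8 * (1 + ‖z‖) ^ 7 := by
    refine (norm_sum_le_of_le (n := fun _ => (1 + ‖z‖) ^ 7) _ fun j hj => ?_).trans (by simp)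
    have h0 := norm_nonneg z
    have h3 : (1 : ℝ) ≤ j.factorial := by exact_mod_cast j.factorial_pos
    rw [norm_div, norm_pow, Complex.norm_natCast]
    calc _ ≤ ‖z‖ ^ j := div_le_self (by positivity) h3
      _ ≤ (1 + ‖z‖) ^ j := by gcongr; linarith
      _ ≤ _ := pow_le_pow_right₀ (by linarith) (by have := mem_range.1 hj; omega)
  rw [norm_mul]
  exact (mul_le_mul h1 h2 (norm_nonneg _) zero_le_one).trans (one_mul _).le

theorem tw_nrm {u : ℂ} {c : ℝ} (hc : 1 ≤ c) (h : |u.re| ≤ c) : ‖u‖ ≤ c * br u.im := by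
  have := Complex.norm_le_abs_re_add_abs_im u
  unfold br
  nlinarith [abs_nonneg u.im]

theorem tw_two {s : ℂ} (hs : 1 / 2 ≤ s.re) : ‖(2 : ℂ) ^ (-s)‖ ≤ 3 / 4 := by
  have e : ‖(2 : ℂ) ^ (-s)‖ = (2 : ℝ) ^ (-s.re) := by
    simpa using Complex.norm_cpow_eq_rpow_re_of_pos (x := 2) (by norm_num) (-s)
  have h1 : (2 : ℝ) ^ (-s.re) ≤ (2 : ℝ) ^ (-(1 / 2) : ℝ) :=
    Real.rpow_le_rpow_of_exponent_le (by norm_num) (by linarith)
  have h2 : ((2 : ℝ) ^ (-(1 / 2) : ℝ)) ^ 2 = 1 / 2 := by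
    rw [← Real.rpow_natCast, ← Real.rpow_mul (by norm_num)]; norm_num
  have h3 : (2 : ℝ) ^ (-(1 / 2) : ℝ) ≤ 3 / 4 :=
    le_of_pow_le_pow_left₀ (n := 2) (by norm_num) (by norm_num) (by rw [h2]; norm_num)
  linarith

theorem tw_den {γ : ℤ} (hγ : γ ∈ T3) {u : ℂ} (hu : 0 ≤ u.re) :
    1 / 4 ≤ ‖1 - γ * (2 : ℂ) ^ (-(1 / 2 + u))‖ := by
  have h1 := tw_two (s := 1 / 2 + u) (by simp; linarith)
  have h2 : ‖(γ : ℂ)‖ ≤ 1 := by
    simp only [T3, mem_insert, mem_singleton] at hγ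
    rcases hγ with h | h | h <;> simp [h]
  have h3 := norm_sub_norm_le (1 : ℂ) (γ * (2 : ℂ) ^ (-(1 / 2 + u)))
  have h4 := mul_le_mul h2 h1 (norm_nonneg _) zero_le_one
  rw [norm_one, norm_mul] at h3
  linarith

theorem tw_gauss (hDEC : DEC) (n : ℕ) : ∃ C : ℝ, 0 < C ∧ ∀ t : ℝ,
    Real.exp (-(3 / 4) * t ^ 2) * br t ^ n ≤ C * Real.exp (-|t|) := by
  obtain ⟨C, hC, h⟩ := hDEC.2.1 n
  refine ⟨Real.exp (3 / 4) * C, by positivity, fun t => ?_⟩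
  have h1 := h t 0
  have h4 : br 0 = 1 := by simp [br]
  rw [sub_zero, h4, one_pow, mul_one] at h1
  have h2 : Real.exp (-(3 / 4) * t ^ 2) ≤
      Real.exp (3 / 4) * Real.exp (-|t|) * Real.exp (-|t| / 2) := by
    rw [← Real.exp_add, ← Real.exp_add, ← sq_abs t]
    exact Real.exp_le_exp.2 (by nlinarith [sq_nonneg (|t| - 1)])
  have h5 := tk2_br0 t
  calc _ ≤ Real.exp (3 / 4) * Real.exp (-|t|) * Real.exp (-|t| / 2) * br t ^ n := by gcongr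
    _ = Real.exp (3 / 4) * Real.exp (-|t|) * (Real.exp (-|t| / 2) * br t ^ n) := by ring
    _ ≤ Real.exp (3 / 4) * Real.exp (-|t|) * C := by gcongr
    _ = _ := by ring

theorem tw_one {ι : Type} (s : Finset ι) (b : ι → ℝ) (h : ∀ j, 1 ≤ b j) : 1 ≤ ∏ j ∈ s, b j := by
  simpa using prod_le_prod (s := s) (f := fun _ => (1 : ℝ)) (g := b) (fun _ _ => zero_le_one)
    fun j _ => h j

theorem tw_single (b : R4) (h : ∀ j, 1 ≤ b j) (i : Fin 4) : b i ≤ ∏ j, b j := by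
  rw [← mul_prod_erase _ _ (mem_univ i)]
  exact le_mul_of_one_le_right (by linarith [h i]) (tw_one _ b h)

theorem tw_vd (w : V4) (Q : ℝ) (h : ∀ j, ‖w j‖ ≤ Q) : ‖Vd w‖ ≤ (2 * Q) ^ 6 := by
  unfold Vd
  rw [norm_prod]
  have h1 : ∀ i : Fin 4, ‖∏ j ∈ Ioi i, (w j - w i)‖ ≤ (2 * Q) ^ (Ioi i).card := fun i => by
    rw [norm_prod, ← prod_const]
    exact prod_le_prod (fun _ _ => norm_nonneg _) fun j _ =>
      (norm_sub_le _ _).trans (by linarith [h i, h j])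
  refine (prod_le_prod (fun _ _ => norm_nonneg _) fun i _ => h1 i).trans (le_of_eq ?_)
  rw [prod_pow_eq_pow_sum]
  rfl

theorem GC.pos {g : ℂ → ℂ} {C : ℝ} (hg : GC g C) : 0 ≤ C := by
  have := hg.bd 0 ⟨by simp, by simp⟩
  simpa using (norm_nonneg _).trans this

theorem tw_wr {g : ℂ → ℂ} {C : ℝ} (hg : GC g C) {γ : ℤ} (hγ : γ ∈ T3) {u : ℂ} (h0 : 0 < u.re)
    (h1 : u.re ≤ 12) :
    ‖wr g γ u‖ ≤ 52 * C * br u.im * Real.exp (-(3 / 4) * u.im ^ 2) / ‖u‖ ^ 7 := by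
  have hC := hg.pos
  have h2 : ‖u + 1 / 2‖ ≤ 13 * br u.im := by
    have := tw_nrm (u := u + 1 / 2) (c := 13) (by norm_num)
      (by rw [abs_le]; simp; constructor <;> linarith)
    simpa using this
  have h3 := hg.bd u ⟨by linarith, by linarith⟩
  have h4 := tw_den hγ h0.le
  have h5 : 0 < ‖u‖ := h0.trans_le (Complex.re_le_norm u)
  have h6 := tk2_br0 u.im
  unfold wr
  rw [norm_div, norm_mul, norm_mul, norm_pow]
  calc _ ≤ 13 * br u.im * (C * Real.exp (-(3 / 4) * u.im ^ 2)) / (‖u‖ ^ 7 * (1 / 4)) := by gcongr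
    _ = _ := by field_simp; ring

theorem tw_bx {a b : ℝ} {u : V4} (hu : u ∈ Bx a b) (j : Fin 4) : a ≤ (u j).re ∧ (u j).re ≤ b := hu j

theorem tw_Wr (hDEC : DEC) {g : ℂ → ℂ} {C₀ : ℝ} (hg : GC g C₀) (n : ℕ) : ∃ C : ℝ, 0 < C ∧
    ∀ γ ∈ T3, ∀ ε : ℝ, 0 < ε → ∀ u ∈ Bx ε 12,
      ‖Wr g γ u‖ ≤ C / ε ^ 28 * ∏ j, Real.exp (-|(u j).im|) / br (u j).im ^ n := by
  obtain ⟨C, hC, hG⟩ := tw_gauss hDEC (25 + n)
  have hC₀ := hg.pos
  refine ⟨2 ^ 12 * (12 ^ 24 * (52 * (C₀ + 1)) * C) ^ 4, by positivity, fun γ hγ ε hε u hu => ?_⟩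
  have hb := fun j => tk2_br1 (u j).im
  have h1 : ∀ i, ‖u i ^ 2‖ ≤ (∏ j, 12 * br (u j).im) ^ 2 := fun i => by
    rw [norm_pow]
    refine pow_le_pow_left₀ (norm_nonneg _) ((tw_nrm (c := 12) (by norm_num) ?_).trans
      (tw_single (fun j => 12 * br (u j).im) (fun j => by linarith [hb j]) i)) 2
    rw [abs_le]; constructor <;> linarith [tw_bx hu i]
  have h2 := pow_le_pow_left₀ (norm_nonneg _) (tw_vd _ _ h1) 2
  have h3 : ∀ j, (12 * br (u j).im) ^ 24 * ‖wr g γ (u j)‖ ≤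
      12 ^ 24 * (52 * (C₀ + 1)) * C / ε ^ 7 * (Real.exp (-|(u j).im|) / br (u j).im ^ n) := by
    intro j
    have e1 := tw_wr hg hγ (hε.trans_le (tw_bx hu j).1) (tw_bx hu j).2
    have e2 : ε ≤ ‖u j‖ := (tw_bx hu j).1.trans (Complex.re_le_norm _)
    have e3 := hG (u j).im
    have e4 := tk2_br0 (u j).im
    generalize br (u j).im = b at *
    generalize Real.exp (-|(u j).im|) = y at *
    have e5 := Real.exp_pos (-(3 / 4) * (u j).im ^ 2)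
    generalize Real.exp (-(3 / 4) * (u j).im ^ 2) = x at *
    calc _ ≤ (12 * b) ^ 24 * (52 * (C₀ + 1) * b * x / ε ^ 7) := by
          refine mul_le_mul_of_nonneg_left (e1.trans ?_) (by positivity)
          gcongr
          linarith
      _ = 12 ^ 24 * (52 * (C₀ + 1)) / ε ^ 7 * (x * b ^ (25 + n)) / b ^ n := by
          field_simp; ring
      _ ≤ 12 ^ 24 * (52 * (C₀ + 1)) / ε ^ 7 * (C * y) / b ^ n := by gcongr
      _ = _ := by ring
  have h4 := prod_le_prod (s := univ) (fun j _ => mul_nonneg (pow_nonneg (by linarith [hb j]) 24)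
    (norm_nonneg _)) fun j _ => h3 j
  rw [prod_mul_distrib, prod_mul_distrib, prod_const, prod_pow] at h4
  unfold Wr
  rw [norm_mul, norm_pow, norm_prod]
  calc _ ≤ ((2 * (∏ j, 12 * br (u j).im) ^ 2) ^ 6) ^ 2 * ∏ j, ‖wr g γ (u j)‖ :=
        mul_le_mul_of_nonneg_right h2 (prod_nonneg fun _ _ => norm_nonneg _)
    _ = 2 ^ 12 * ((∏ j, 12 * br (u j).im) ^ 24 * ∏ j, ‖wr g γ (u j)‖) := by ring
    _ ≤ 2 ^ 12 * ((12 ^ 24 * (52 * (C₀ + 1)) * C / ε ^ 7) ^ (univ : Finset (Fin 4)).card *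
          ∏ j, Real.exp (-|(u j).im|) / br (u j).im ^ n) := by gcongr
    _ = _ := by
        rw [card_univ, Fintype.card_fin, div_pow, ← pow_mul]
        ring

theorem tw_cut : ∃ C : ℝ, 0 < C ∧ ∀ Δ : ℝ, 1 ≤ Δ → ∀ u ∈ Bx 0 12,
    ‖1 - cF Δ u‖ ≤ C * Δ ^ 28 * ∏ j, br (u j).im ^ 7 := by
  refine ⟨2 * (9 * 13 ^ 7) ^ 4, by positivity, fun Δ hΔ u hu => ?_⟩
  have hb := fun j => tk2_br1 (u j).im
  have h0 : ∀ j, 1 ≤ (13 * Δ * br (u j).im) ^ 7 := fun j =>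
    one_le_pow₀ (by nlinarith [hb j])
  have h1 : ∀ j, ‖1 - th8 (u j * Δ)‖ ≤ 9 * (13 * Δ * br (u j).im) ^ 7 := fun j => by
    have e1 := tw_th (u j * Δ) (by simpa using mul_nonneg (tw_bx hu j).1 (by linarith))
    have e2 : ‖u j‖ ≤ 12 * br (u j).im :=
      tw_nrm (by norm_num) (by rw [abs_le]; constructor <;> linarith [tw_bx hu j])
    have e3 : 1 + ‖u j * Δ‖ ≤ 13 * Δ * br (u j).im := by
      rw [norm_mul, Complex.norm_real, Real.norm_of_nonneg (by linarith)]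
      nlinarith [hb j]
    have e4 := pow_le_pow_left₀ (by positivity) e3 7
    have e5 := norm_sub_le (1 : ℂ) (th8 (u j * Δ))
    rw [norm_one] at e5
    linarith [h0 j]
  have h2 : ‖cF Δ u‖ ≤ ∏ j, 9 * (13 * Δ * br (u j).im) ^ 7 := by
    unfold cF
    rw [norm_prod]
    exact prod_le_prod (fun _ _ => norm_nonneg _) fun j _ => h1 j
  have h3 := tw_one univ (fun j => 9 * (13 * Δ * br (u j).im) ^ 7) fun j => by linarith [h0 j]
  have h4 := norm_sub_le (1 : ℂ) (cF Δ u)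
  rw [norm_one] at h4
  have h5 : ∏ j, 9 * (13 * Δ * br (u j).im) ^ 7 =
      (9 * 13 ^ 7) ^ 4 * Δ ^ 28 * ∏ j, br (u j).im ^ 7 := by
    simp only [Fin.prod_univ_four]; ring
  rw [h5] at h2 h3
  linarith

theorem tw_WB (hDEC : DEC) {g : ℂ → ℂ} {C₀ : ℝ} (hg : GC g C₀) (n : ℕ) : ∃ C : ℝ, 0 < C ∧
    ∀ γ ∈ T3, ∀ Δ ε : ℝ, 1 ≤ Δ → 0 < ε → ∀ u ∈ Bx ε 12, ‖Wr g γ u * (1 - cF Δ u)‖ ≤
      C * (Δ / ε) ^ 28 * ∏ j, Real.exp (-|(u j).im|) / br (u j).im ^ n := by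
  obtain ⟨C, hC, h1⟩ := tw_Wr hDEC hg (n + 7)
  obtain ⟨D, hD, h2⟩ := tw_cut
  refine ⟨C * D, by positivity, fun γ hγ Δ ε hΔ hε u hu => ?_⟩
  have hb := fun j => tk2_br0 (u j).im
  rw [norm_mul]
  refine (mul_le_mul (h1 γ hγ ε hε u hu)
    (h2 Δ hΔ u fun j => ⟨hε.le.trans (tw_bx hu j).1, (tw_bx hu j).2⟩) (norm_nonneg _)
    (mul_nonneg (by positivity) (prod_nonneg fun j _ => by have := hb j; positivity))).trans
    (le_of_eq ?_)
  have e : ∏ j, Real.exp (-|(u j).im|) / br (u j).im ^ n =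
      (∏ j, Real.exp (-|(u j).im|) / br (u j).im ^ (n + 7)) * ∏ j, br (u j).im ^ 7 := by
    rw [← prod_mul_distrib]
    exact prod_congr rfl fun j _ => by have := hb j; rw [pow_add]; field_simp
  rw [e]
  ring

theorem tw_hth : Differentiable ℂ th8 := by unfold th8; fun_prop

theorem tw_hcF (Δ : ℝ) : Differentiable ℂ (cF Δ) := by
  have := tw_hth
  unfold cF
  simp only [Fin.prod_univ_four]
  fun_prop

theorem tw_hwr {g : ℂ → ℂ} {C : ℝ} (hg : GC g C) {γ : ℤ} (hγ : γ ∈ T3) {u : ℂ} (h0 : 0 < u.re) :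
    DifferentiableAt ℂ (wr g γ) u := by
  have h1 := hg.hol u (by linarith)
  have h2 : u ≠ 0 := fun h => by simp [h] at h0
  have h3 : 1 - γ * (2 : ℂ) ^ (-(1 / 2 + u)) ≠ 0 :=
    norm_pos_iff.1 (lt_of_lt_of_le (by norm_num) (tw_den hγ h0.le))
  have h4 : DifferentiableAt ℂ (fun u : ℂ => (2 : ℂ) ^ (-(1 / 2 + u))) u :=
    DifferentiableAt.const_cpow (by fun_prop) (Or.inl two_ne_zero)
  unfold wr
  exact DifferentiableAt.div (by fun_prop) (by fun_prop) (mul_ne_zero (pow_ne_zero _ h2) h3)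

theorem tw_hprod {f : ℂ → ℂ} {u : V4} (h : ∀ j, DifferentiableAt ℂ f (u j)) :
    DifferentiableAt ℂ (fun v : V4 => ∏ j, f (v j)) u := by
  have h1 : ∀ j, DifferentiableAt ℂ (fun v : V4 => f (v j)) u := fun j =>
    (h j).comp u (differentiableAt_apply j u)
  simp only [Fin.prod_univ_four]
  exact (((h1 0).mul (h1 1)).mul (h1 2)).mul (h1 3)

theorem tw_hvd : Differentiable ℂ fun u : V4 => Vd fun j => u j ^ 2 := by
  unfold Vd
  fun_prop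

theorem tw_hWr {g : ℂ → ℂ} {C : ℝ} (hg : GC g C) {γ : ℤ} (hγ : γ ∈ T3) {u : V4}
    (h0 : ∀ j, 0 < (u j).re) : DifferentiableAt ℂ (Wr g γ) u :=
  ((tw_hvd u).pow 2).mul (tw_hprod fun j => tw_hwr hg hγ (h0 j))

theorem tw_hus : Differentiable ℂ us := by unfold us; fun_prop

theorem tw_npow {q : ℝ} (hq : 0 < q) (w : ℂ) : ‖(q : ℂ) ^ w‖ = q ^ w.re :=
  Complex.norm_cpow_eq_rpow_re_of_pos hq w

theorem tw_usre (u : V4) : (us u).re = (∑ j, (u j).re) / 2 := by simp [us]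

end Pool.Agent.Q4
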