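import Pool.Agent.P.MP_ea46f5_nt.Q4.S4
import Pool.Agent.P.MP_ea46f5_nt.Q4.TailB

/-! The single term of the exact part on the lines of small abscissa. -/

namespace Pool.Agent.Q4

open Complex MeasureTheory Finset Pool.Agent.QM
open scoped Real

theorem db_P (k : ℤ) (f : ℕ) (hf : Odd f) :
    Differentiable ℂ (fun s : ℂ => ∏ p ∈ f.primeFactors, (1 - jo k p * (p : ℂ) ^ (-s))) ∧
    ∀ s : ℂ, 0 ≤ s.re →
      ‖∏ p ∈ f.primeFactors, (1 - jo k p * (p : ℂ) ^ (-s))‖ ≤ f.divisors.card := by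
  have hf0 : f ≠ 0 := hf.pos.ne'
  refine ⟨Differentiable.fun_finsetProd fun p hp => ?_, fun s hs => ?_⟩
  · have hp0 : (p : ℂ) ≠ 0 := by exact_mod_cast (Nat.prime_of_mem_primeFactors hp).ne_zero
    exact (differentiable_const _).sub ((differentiable_const _).mul
      (differentiable_id.neg.const_cpow (Or.inl hp0)))
  · rw [norm_prod, Nat.card_divisors hf0]
    push_cast
    refine prod_le_prod (fun _ _ => norm_nonneg _) fun p hp => (norm_sub_le _ _).trans ?_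
    have h1 := Nat.prime_of_mem_primeFactors hp
    have e3 : ‖jo k p‖ ≤ 1 := by
      unfold jo
      split_ifs
      · rcases jacobiSym.trichotomy k p with h | h | h <;> simp [h]
      · simp
    have e4 : ‖(p : ℂ) ^ (-s)‖ ≤ 1 := by
      rw [Complex.norm_natCast_cpow_of_pos h1.pos]
      exact Real.rpow_le_one_of_one_le_of_nonpos (by exact_mod_cast h1.one_le) (by simpa using hs)
    have e5 : (1 : ℝ) ≤ f.factorization p := by
      exact_mod_cast h1.factorization_pos_of_dvd hf0 (Nat.dvd_of_mem_primeFactors hp)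
    rw [norm_one, norm_mul]
    linarith [mul_le_one₀ e3 (norm_nonneg _) e4]

theorem db_q {q b : ℝ} (hq : 1 ≤ q) {u : V4} (hu : ∀ j, (u j).re ≤ b) :
    ‖(q : ℂ) ^ us u‖ ≤ q ^ (2 * b) := by
  rw [tw_npow (by linarith), tw_usre, Fin.sum_univ_four]
  exact Real.rpow_le_rpow_of_exponent_le hq (by linarith [hu 0, hu 1, hu 2, hu 3])

theorem db_hq {q : ℝ} (hq : 0 < q) : Differentiable ℂ fun u : V4 => (q : ℂ) ^ us u :=
  tw_hus.const_cpow (Or.inl (by exact_mod_cast hq.ne'))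

theorem db_gen (hSH4 : SH4) {W : V4 → ℂ} {E : ℂ → ℂ} {ε q M N : ℝ} {m : ℕ} (hε1 : ε ≤ 12)
    (hq : 1 ≤ q) (hM : 0 ≤ M) (hW : Hol (Bx ε 12) W) (hE : Differentiable ℂ E)
    (bW : ∀ u ∈ Bx ε 12, ‖W u‖ ≤ M * dn (2 + m) u)
    (bE : ∀ u ∈ Strip ε 12, ‖E u‖ ≤ N * br u.im ^ m) :
    In (cs 12) (fun u => W u * (q : ℂ) ^ us u * ∏ j, E (u j)) =
      In (cs ε) (fun u => W u * (q : ℂ) ^ us u * ∏ j, E (u j)) ∧
    ‖In (cs ε) fun u => W u * (q : ℂ) ^ us u * ∏ j, E (u j)‖ ≤ 16 * (M * q ^ (2 * ε) * N ^ 4) := by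
  have hs : ∀ b, b ≤ 12 → ∀ u ∈ Bx ε b, u ∈ Bx ε 12 := fun b hb u hu j =>
    ⟨(tw_bx hu j).1, (tw_bx hu j).2.trans hb⟩
  have hH : ∀ b, b ≤ 12 → Hol (Bx ε b) fun u => W u * (q : ℂ) ^ us u * ∏ j, E (u j) :=
    fun b hb u hu => ((hW u (hs b hb u hu)).mul (db_hq (by linarith) u)).mul
      (tw_hprod fun j => hE _)
  have hB : ∀ b, b ≤ 12 → ∀ u ∈ Bx ε b, ‖W u * (q : ℂ) ^ us u * ∏ j, E (u j)‖ ≤
      M * q ^ (2 * b) * N ^ 4 * dn 2 u := by
    intro b hb u hu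
    have h1 := bW u (hs b hb u hu)
    have h2 := db_q hq fun j => (tw_bx hu j).2
    have h3 : ‖∏ j, E (u j)‖ ≤ N ^ 4 * gn m u := by
      rw [norm_prod]
      refine (prod_le_prod (fun _ _ => norm_nonneg _) fun j _ =>
        bE (u j) (tw_bx (hs b hb u hu) j)).trans (le_of_eq ?_)
      rw [prod_mul_distrib, prod_const, card_univ, Fintype.card_fin]
      rfl
    obtain ⟨e1, -, -⟩ := hSH4.2.1 2 m u
    have e2 := (hSH4.2.1 (2 + m) 0 u).2.2.1
    have e3 : 0 ≤ q ^ (2 * b) := Real.rpow_nonneg (by linarith) _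
    rw [norm_mul, norm_mul, ← e1]
    calc _ ≤ M * dn (2 + m) u * q ^ (2 * b) * (N ^ 4 * gn m u) := by gcongr
      _ = _ := by ring
  exact ⟨(hSH4.1 ε 12 _ (cs 12) (cs ε) _ (fun _ => ⟨hε1, le_rfl⟩) (fun _ => ⟨le_rfl, hε1⟩)
    (hH 12 le_rfl) (hB 12 le_rfl)).1, (hSH4.1 ε ε _ (cs ε) (cs ε) _ (fun _ => ⟨le_rfl, le_rfl⟩)
    (fun _ => ⟨le_rfl, le_rfl⟩) (hH ε hε1) (hB ε hε1)).2.2⟩

theorem db_congr {c : R4} {F G : V4 → ℂ} (h : ∀ u : V4, (∀ j, (u j).re = c j) → F u = G u) :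
    In c F = In c G := by
  unfold In
  exact integral_congr_ae (Filter.Eventually.of_forall fun t => h _ fun j => by simp [pt])

theorem pDB (hLOP : LOP) (hLOB : LOB) (hSH4 : SH4) (hZF : ZF) (hWRB : WRB) (hLSF : LSF) : DB := by
  intro g C₀ n hg
  obtain ⟨C1, hC1, h1⟩ := hWRB g C₀ n hg
  obtain ⟨C3, hC3, h3⟩ := hWRB g C₀ (2 + 1) hg
  obtain ⟨C4, hC4, h4⟩ := hWRB g C₀ (2 + 2) hg
  obtain ⟨hz1, -, hz2, -, Cz, hCz, hz3, -⟩ := hZF
  refine ⟨C1 + 16 * C4 * Cz ^ 4, by positivity, fun γ k f Δ q ε hγ hf hΔ hq hε hε1 => ?_⟩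
  have em : min ε 1 = ε := min_eq_left (by linarith)
  have ex : Real.exp (-Δ * ε) ≤ 1 := Real.exp_le_one_iff.2 (by nlinarith)
  have hdn := fun n u => (hSH4.2.1 n 0 u).2.2.1
  obtain ⟨-, hW, hcF, hhf, -, -⟩ := h1 γ hγ
  have hpos : ∀ u ∈ Bx ε 12, ∀ j, 0 < (u j).re := fun u hu j => hε.trans_le (tw_bx hu j).1
  have hcut : ∀ u : V4, DifferentiableAt ℂ (fun u => 1 - cF Δ u) u := fun u =>
    (differentiableAt_const _).sub (hcF Δ u)
  have hq0 : 0 ≤ q ^ (2 * ε) := Real.rpow_nonneg (by linarith) _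
  have hdrop : ∀ (C x : ℝ) (n : ℕ) (u : V4), 0 < C →
      x ≤ C * (Δ / min ε 1) ^ 28 * Real.exp (-Δ * ε) * dn n u →
      x ≤ C * (Δ / ε) ^ 28 * dn n u := fun C x n u hC h => by
    rw [em] at h
    have := hdn n u
    refine h.trans ?_
    calc _ ≤ C * (Δ / ε) ^ 28 * 1 * dn n u := by gcongr
      _ = _ := by ring
  refine ⟨fun k1 k2 => ?_, ?_⟩
  · obtain ⟨p1, p2⟩ := db_P k f hf
    generalize hP : (fun s : ℂ => ∏ p ∈ f.primeFactors, (1 - jo k p * (p : ℂ) ^ (-s))) = P at p1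
    have p3 : ∀ s : ℂ, 0 ≤ s.re → ‖P s‖ ≤ f.divisors.card := by rw [← hP]; exact p2
    have p4 : ∀ s : ℂ, 1 < s.re → LS (k * (f : ℤ) ^ 2) s = Lo k s * P s := fun s hs => by
      rw [hLSF k f s hf hs, hLOP.1 k s k1.ne_zero hs, ← hP]
    have hd := hLOP.2.1 k k1 k2
    have key := (db_gen hSH4 (W := fun u => W4 g γ u * (1 - cF Δ u))
      (E := fun u => Lo k (1 / 2 + u) * P (1 / 2 + u)) (ε := ε) (q := q) (M := C3 * (Δ / ε) ^ 28)
      (N := 104 * |(k : ℝ)| * f.divisors.card) (m := 1) (by linarith) hq (by positivity)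
      (fun u hu => ((hW u (hpos u hu)).mul (hhf u)).mul (hcut u)) (by fun_prop)
      (fun u hu => hdrop _ _ _ _ hC3 ((h3 γ hγ).2.2.2.2.2 ε Δ hε hΔ u hu).2.2.1) fun u hu => by
        obtain ⟨a1, a2⟩ := hu
        have b0 := tk2_br0 u.im
        have b1 : (1 / 2 + u).re = 1 / 2 + u.re := by simp
        have b2 : ‖1 / 2 + u‖ ≤ 13 * br u.im := by
          have := tw_nrm (u := 1 / 2 + u) (c := 13) (by norm_num)
            (by rw [b1, abs_le]; constructor <;> linarith)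
          simpa using this
        have b3 : ‖Lo k (1 / 2 + u)‖ ≤ 104 * |(k : ℝ)| * br u.im := by
          refine (hLOB k _ k1 k2 (by linarith)).trans ?_
          calc _ ≤ 4 * |(k : ℝ)| * (13 * br u.im) / (1 / 2) := by gcongr; linarith
            _ = _ := by ring
        have b4 := p3 (1 / 2 + u) (by linarith)
        rw [norm_mul]
        calc _ ≤ 104 * |(k : ℝ)| * br u.im * f.divisors.card := by gcongr
          _ = _ := by ring).1
    refine ⟨fun t => W4 g γ (pt (cs ε) t) * (1 - cF Δ (pt (cs ε) t)) * (q : ℂ) ^ us (pt (cs ε) t) *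
      ∏ j, (Lo k (1 / 2 + pt (cs ε) t j) * P (1 / 2 + pt (cs ε) t j)), ?_, fun t => ?_⟩
    · refine Eq.trans (db_congr fun u hu => ?_) key
      unfold LL
      rw [prod_congr rfl fun j _ => p4 (1 / 2 + u j) (by simp [hu j, cs]; norm_num)]
    · have hu : pt (cs ε) t ∈ Bx ε 12 := fun j => by
        simp only [pt, cs]; simp; linarith
      have a1 := hdrop _ _ _ _ hC1 ((h1 γ hγ).2.2.2.2.2 ε Δ hε hΔ _ hu).2.2.1
      have a2 := db_q hq (u := pt (cs ε) t) (b := ε) fun j => by simp [pt, cs]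
      have a3 : ‖∏ j, (Lo k (1 / 2 + pt (cs ε) t j) * P (1 / 2 + pt (cs ε) t j))‖ ≤
          (f.divisors.card : ℝ) ^ 4 * ∏ j, ‖Lo k (1 / 2 + ε + t j * I)‖ := by
        rw [norm_prod]
        refine (prod_le_prod (g := fun j => f.divisors.card * ‖Lo k (1 / 2 + ε + t j * I)‖)
          (fun _ _ => norm_nonneg _) fun j _ => ?_).trans (le_of_eq ?_)
        · have e : 1 / 2 + pt (cs ε) t j = 1 / 2 + ε + t j * I := by simp [pt, cs, add_assoc]
          rw [e, norm_mul, mul_comm]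
          exact mul_le_mul_of_nonneg_right (p3 _ (by simp; linarith)) (norm_nonneg _)
        · rw [prod_mul_distrib, prod_const, card_univ, Fintype.card_fin]
      have a4 : dn n (pt (cs ε) t) = ∏ j, 1 / br (t j) ^ n := by simp [dn, pt]
      have a5 := hdn n (pt (cs ε) t)
      have a6 : 0 ≤ ∏ j, ‖Lo k (1 / 2 + ε + t j * I)‖ := prod_nonneg fun _ _ => norm_nonneg _
      have a7 : C1 ≤ C1 + 16 * C4 * Cz ^ 4 := le_add_of_nonneg_right (by positivity)
      rw [norm_mul, norm_mul, ← a4]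
      calc _ ≤ (C1 + 16 * C4 * Cz ^ 4) * (Δ / ε) ^ 28 * dn n (pt (cs ε) t) * q ^ (2 * ε) *
            ((f.divisors.card : ℝ) ^ 4 * ∏ j, ‖Lo k (1 / 2 + ε + t j * I)‖) := by
            gcongr
            exact a1.trans (by gcongr)
        _ = _ := by ring
  · obtain ⟨p1, p2⟩ := db_P 1 f hf
    generalize hP : (fun s : ℂ => ∏ p ∈ f.primeFactors, (1 - jo 1 p * (p : ℂ) ^ (-s))) = P at p1
    have p3 : ∀ s : ℂ, 0 ≤ s.re → ‖P s‖ ≤ f.divisors.card := by rw [← hP]; exact p2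
    have p4 : ∀ u : ℂ, u.re = 12 → (u - 1 / 2) * LS (1 * (f : ℤ) ^ 2) (1 / 2 + u) =
        lz (u - 1 / 2) * P (1 / 2 + u) := fun u hu => by
      have hs : 1 < (1 / 2 + u).re := by simp [hu]; norm_num
      have h0 : u - 1 / 2 ≠ 0 := fun h => by
        have := congrArg re h
        simp [hu] at this
        norm_num at this
      have e : 1 + (u - 1 / 2) = 1 / 2 + u := by ring
      rw [hLSF 1 f _ hf hs, ← hLOP.1 1 _ one_ne_zero hs, ← hP, ← mul_assoc]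
      congr 1
      rw [← e, hz2 _ h0, mul_div_cancel₀ _ h0]
    obtain ⟨key, kb⟩ := db_gen hSH4 (W := fun u => Wr g γ u * (1 - cF Δ u))
      (E := fun u => lz (u - 1 / 2) * P (1 / 2 + u)) (ε := ε) (q := q) (M := C4 * (Δ / ε) ^ 28)
      (N := Cz * f.divisors.card) (m := 2) (by linarith) hq (by positivity)
      (fun u hu => (hW u (hpos u hu)).mul (hcut u)) (by fun_prop)
      (fun u hu => hdrop _ _ _ _ hC4 ((h4 γ hγ).2.2.2.2.2 ε Δ hε hΔ u hu).2.1) fun u hu => by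
        obtain ⟨a1, a2⟩ := hu
        have b0 := tk2_br0 u.im
        have b3 := hz3 (u - 1 / 2) (by simp; linarith) (by simp; linarith)
        have b4 := p3 (1 / 2 + u) (by simp; linarith)
        have b5 : (u - 1 / 2).im = u.im := by simp
        rw [b5] at b3
        rw [norm_mul]
        calc _ ≤ Cz * br u.im ^ 2 * f.divisors.card := by gcongr
          _ = _ := by ring
    have e : Tm g γ Δ q (1 * (f : ℤ) ^ 2) = _ := Eq.trans (db_congr fun u hu => by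
      rw [← prod_congr rfl fun j _ => p4 (u j) (hu j), prod_mul_distrib]
      unfold W4 Q4.hf LL
      ring) key
    rw [e]
    refine kb.trans ?_
    have a7 : 16 * C4 * Cz ^ 4 ≤ C1 + 16 * C4 * Cz ^ 4 := le_add_of_nonneg_left hC1.le
    calc _ = 16 * C4 * Cz ^ 4 * (Δ / ε) ^ 28 * q ^ (2 * ε) * (f.divisors.card : ℝ) ^ 4 := by ring
      _ ≤ _ := by gcongr

end Pool.Agent.Q4
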