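import Pool.Agent.P.MP_ea46f5_nt.Q4.D4

/-! Statements of the core. A proof of a statement may use the statements above it. -/

namespace Pool.Agent.Q4

open Complex MeasureTheory Finset Pool.Agent.QM
open scoped Real ComplexConjugate

/-! Section 1: toolbox -/

def HSEP : Prop := ∀ (n : ℕ) (U : Set (Fin n → ℂ)) (G : (Fin n → ℂ) → ℂ), Hol U G → Sep U G

/-- Shift of four lines, trivial bound, Gaussians against polynomials. -/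
def SH4 : Prop :=
  (∀ (a b M : ℝ) (c c' : R4) (G : V4 → ℂ), (∀ j, a ≤ c j ∧ c j ≤ b) → (∀ j, a ≤ c' j ∧ c' j ≤ b) →
    Hol (Bx a b) G → (∀ u ∈ Bx a b, ‖G u‖ ≤ M * dn 2 u) →
    In c G = In c' G ∧ IL c G ∧ ‖In c G‖ ≤ 16 * M) ∧
  (∀ (n m : ℕ) (u : V4), gn m u * dn (n + m) u = dn n u ∧ dn (n + m) u ≤ dn n u ∧ 0 < dn n u ∧
    1 ≤ gn n u ∧ dn 2 u = dk u) ∧
  (∀ (κ : ℝ) (n m : ℕ), 0 < κ → ∃ C : ℝ, 0 < C ∧ ∀ τ t : ℝ,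
    br τ ^ n * Real.exp (-κ * (τ - t) ^ 2) ≤ C * br t ^ n * Real.exp (-|τ - t|) ∧
    br τ ^ n * Real.exp (-κ * (τ - t) ^ 2) ≤ C * br t ^ n / br (τ - t) ^ m ∧
    br τ ^ n * Real.exp (-κ * (τ - t) ^ 2) ≤ C * br t ^ (n + m) / br τ ^ m)

/-- Infinite products in several variables. -/
def PRH : Prop := ∀ (E : Type) [NormedAddCommGroup E] [NormedSpace ℂ E] (U : Set E)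
  (y : Nat.Primes → E → ℂ) (b : Nat.Primes → ℝ), IsOpen U → Summable b → (∀ p, Hol U (y p)) →
  (∀ p, ∀ x ∈ U, ‖y p x - 1‖ ≤ b p) →
  Hol U (fun x => ∏' p, y p x) ∧
    ∀ x ∈ U, Multipliable (fun p => y p x) ∧ ‖∏' p, y p x‖ ≤ Real.exp (∑' p, b p)

def PH4 : Prop := ∀ (a b M : ℝ) (c : R4) (F : ℂ → V4 → ℂ),
  (∀ z ∈ Strip a b, ∀ t : R4, DifferentiableAt ℂ (fun x : ℂ × V4 => F x.1 x.2) (z, pt c t) ∧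
    ‖F z (pt c t)‖ ≤ M * dk (pt c t)) →
  Nice a b fun z => In c (F z)

def FUB5 : Prop := ∀ (σ M : ℝ) (c : R4) (F : ℂ → V4 → ℂ),
  (Continuous fun x : ℝ × R4 => F (σ + x.1 * I) (pt c x.2)) →
  (∀ (y : ℝ) (t : R4), ‖F (σ + y * I) (pt c t)‖ ≤ M / br y ^ 2 * dk (pt c t)) →
  Iv σ (fun z => In c (F z)) = In c (fun u => Iv σ fun z => F z u) ∧
    Lc σ (fun z => In c (F z)) ∧ IL c (fun u => Iv σ fun z => F z u) ∧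
    ‖Iv σ fun z => In c (F z)‖ ≤ 32 * M

def SH4P : Prop := ∀ (a b C : ℝ) (f : ℂ → ℂ) (u : V4), (∀ i, a < (u i).re ∧ (u i).re < b) →
  (∀ i j, i ≠ j → u i ≠ u j) → Nice a b f → (∀ s ∈ Strip a b, ‖f s‖ ≤ C / br s.im) →
  Iv b (fun z => f z / ∏ j, (z - u j)) = Iv a (fun z => f z / ∏ j, (z - u j)) +
    2 * π * ∑ i, f (u i) / ∏ j ∈ univ.erase i, (u i - u j)

/-- A sum of norms of integrals; no measurability is needed. -/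
def SIV : Prop := ∀ (α : Type) [MeasureSpace α] (F : Finset ℤ) (f : ℤ → α → ℂ) (g : α → ℝ),
  Integrable g →
  (∀ y, ∑ k ∈ F, ‖f k y‖ ≤ g y) → ∑ k ∈ F, ‖∫ y, f k y‖ ≤ ∫ y, g y

/-- Four factors with bounded fourth moments against a decaying weight. -/
def L4 : Prop := ∀ (A : ℕ) (N B y : ℝ) (F : Finset ℤ) (ω : ℤ → ℝ) (l : ℤ → ℝ → ℝ)
  (G : ℤ → R4 → ℂ), 0 ≤ N → (∀ k ∈ F, 0 ≤ ω k) → (∀ k τ, 0 ≤ l k τ) →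
  (∀ τ, ∑ k ∈ F, ω k * l k τ ^ 4 ≤ B * br τ ^ A) →
  (∀ k ∈ F, ∀ t : R4,
    ‖G k t‖ ≤ N * ω k * (∏ j, 1 / br (t j + y) ^ (A + 2)) * ∏ j, l k (t j)) →
  ∑ k ∈ F, ‖∫ t, G k t‖ ≤ 16 * N * B * br y ^ A

/-- Divisors of the Vandermonde factor. -/
def VDP : Prop := ∃ (C : ℝ) (N : ℕ), 0 < C ∧
  (Differentiable ℂ fun u : V4 => Vd fun j => u j ^ 2) ∧
  (∀ u ∈ Bx (-1) 13, ‖Vd (fun j => u j ^ 2) ^ 2‖ ≤ C * gn N u ∧ ‖an u‖ ≤ C * gn N u ∧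
    ‖∏ j, u j‖ ≤ C * gn N u ∧ ‖hf u‖ ≤ C * gn N u) ∧
  (∃ P : V4 → ℂ, Differentiable ℂ P ∧ (∀ u, Vd (fun j => u j ^ 2) ^ 2 = P u * an u) ∧
    ∀ u ∈ Bx (-1) 13, ‖P u‖ ≤ C * gn N u) ∧
  (∀ i, ∃ P : V4 → ℂ, Differentiable ℂ P ∧
    (∀ u, Vd (fun j => u j ^ 2) ^ 2 = P u * ∏ j ∈ univ.erase i, (u j - u i)) ∧
    ∀ u ∈ Bx (-1) 13, ‖P u‖ ≤ C * gn N u) ∧
  ∀ u : V4, Vd (fun j => u j ^ 2) * (16 * ∏ j, u j) = Vd u * ∏ i, ∏ j ∈ Ici i, (u i + u j)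

def PR4 : Prop := ∀ (c : ℝ) (f : Fin 4 → ℂ → ℂ),
  (∀ j, Lc c (f j) ∧ Lc c fun u => u ^ 2 * f j u) →
  IL (cs c) (fun u => an u * ∏ j, f j (u j)) ∧
    In (cs c) (fun u => an u * ∏ j, f j (u j)) = pr c (f 0) (f 1) * pr c (f 2) (f 3)

def ZF : Prop :=
  Differentiable ℂ lz ∧ lz 0 = 1 / 2 ∧ (∀ w : ℂ, w ≠ 0 → Lo 1 (1 + w) = lz w / w) ∧
  (∀ w : ℂ, iz (1 + w) = w / lz w) ∧ ∃ C : ℝ, 0 < C ∧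
    (∀ w : ℂ, -(3 / 4) ≤ w.re → w.re ≤ 29 → ‖lz w‖ ≤ C * br w.im ^ 2) ∧
    ∀ w : ℂ, 0 ≤ w.re → lz w ≠ 0 ∧ ‖(lz w)⁻¹‖ ≤ C * br w.im ^ 2

def XIB : Prop := ∃ (C : ℝ) (c : ℕ), 0 < C ∧ ∀ a : ℕ, a ≤ 1 → ∀ u : ℂ,
  (-(1 / 2) < u.re → DifferentiableAt ℂ (xi a) u) ∧
    (-(1 / 4) ≤ u.re → u.re ≤ 3 → ‖xi a u‖ ≤ C * br u.im ^ c)

def KZ2 : Prop := ∀ n : ℕ, ∃ C : ℝ, 0 < C ∧ ∀ z : ℂ, 0 < z.re → z.re ≤ 1 / 4 →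
  ‖z * (Gammaℝ z * riemannZeta (2 * z))‖ ≤ C / br z.im ^ n

def TH8 : Prop := Differentiable ℂ th8 ∧
  (∀ z : ℂ, ‖th8 z‖ ≤ Real.exp (-z.re) * (1 + ‖z‖) ^ 7) ∧
  ∃ β : ℂ → ℂ, Differentiable ℂ β ∧ (∀ z, 1 - th8 z = z ^ 8 * β z) ∧
    ∀ z : ℂ, -1 ≤ z.re → ‖β z‖ ≤ 1

def PHW : Prop := ∀ η x : ℝ, 0 < η → 0 < x →
  (∀ c : ℝ, 0 < c → (phi η x : ℂ) = 1 / (2 * π) * Iv c fun v => rho η v * (x : ℂ) ^ (-v)) ∧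
  0 ≤ phi η x ∧ phi η x ≤ 1 ∧
  (1 ≤ x → phi η x ≤ Real.exp (-Real.log x ^ 2 / (4 * η ^ 2))) ∧
  (x ≤ 1 → 1 - phi η x ≤ Real.exp (-Real.log x ^ 2 / (4 * η ^ 2))) ∧
  (η ≤ 1 / 30 → phi η x ≤ 2 / x ^ 7)

def DIV : Prop := ∃ C : ℝ, 0 < C ∧ ∀ f : ℕ, (f.divisors.card : ℝ) ^ 5 ≤ C * √(f : ℝ)

def TC4 : Prop := ∃ C : ℝ, 0 < C ∧ ∀ (ε : ℝ) (c s : R4), 0 < ε → ε ≤ 1 / 100 →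
  (∀ j, s j = 1 ∨ s j = -1) →
  Integrable (fun τ : R4 => (∏ j, Real.exp (-|τ j - c j|)) * cm ε s τ) ∧
    ∫ τ : R4, (∏ j, Real.exp (-|τ j - c j|)) * cm ε s τ ≤ C * Real.log (1 / ε) ^ 2

def REP1 : Prop := ∃ C : ℝ, 0 < C ∧ ∀ (f R : ℂ → ℂ) (c M : ℝ), Lc 0 f →
  (∀ u ∈ Strip (-(1 / 4)) 3, DifferentiableAt ℂ R u ∧ ‖R u‖ ≤ M / br (u.im - c) ^ 2) →
  ‖Iv 0 fun u => R u * f u‖ ≤ C * M * ∫ w : ℝ, Ew w * ‖Iv 0 fun u => f u * cexp (w * u)‖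

def REP4 : Prop := ∃ C : ℝ, 0 < C ∧
  ∀ (F : Finset ℤ) (ω ω' Mk : ℤ → ℝ) (f R : ℤ → V4 → ℂ) (c : R4) (δ M B : ℝ), 0 < δ → δ ≤ 1 →
    0 ≤ M → (∀ k ∈ F, 0 ≤ ω k ∧ 0 ≤ ω' k ∧ ω' k * Mk k ≤ M * ω k ∧ IL (cs 0) (f k) ∧
      Hol (Bx (-δ) δ) (R k) ∧
      ∀ s ∈ Bx (-δ) δ, ‖R k s‖ ≤ Mk k * ∏ j, 1 / br ((s j).im - c j) ^ 2) →
    Bd F ω f B → Bd F ω' (fun k s => f k s * R k s) (C * M * B / δ ^ 4) ∧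
      ∀ k ∈ F, IL (cs 0) fun s => f k s * R k s

def MUL : Prop := ∀ (F : Finset ℤ) (ω : ℤ → ℝ) (f : ℤ → V4 → ℂ) (B : ℝ) (h : ℝ → ℂ) (g : ℂ → ℂ)
  (i j : Fin 4), Integrable h → (∀ x : ℝ, g (x * I) = ∫ v : ℝ, h v * cexp (x * I * v)) →
  (∀ k ∈ F, 0 ≤ ω k ∧ IL (cs 0) (f k)) → Bd F ω f B →
  Bd F ω (fun k s => f k s * g (s i + s j)) ((∫ v, ‖h v‖) * B) ∧
    ∀ k ∈ F, IL (cs 0) fun s => f k s * g (s i + s j)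

def IZF : Prop := ∃ (A : ℕ) (h : ℝ → ℂ), Integrable h ∧
  ∀ x : ℝ, gz A (x * I) = ∫ v : ℝ, h v * cexp (x * I * v)

def IZM : Prop := ∃ (A : ℕ) (C : ℝ), 0 < C ∧
  ∀ (F : Finset ℤ) (ω : ℤ → ℝ) (f : ℤ → V4 → ℂ) (B : ℝ), (∀ k ∈ F, 0 ≤ ω k ∧ IL (cs 0) (f k)) →
    Bd F ω f B → Bd F ω (fun k s => f k s * ∏ i, ∏ j ∈ Ici i, gz A (s i + s j)) (C * B)

/-! Section 2: Euler products -/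

def E04 : Prop :=
  (∀ u : V4, (C4 u).IsMultiplicative) ∧ (∀ (u : V4) (n : ℕ), ¬ Odd n → C4 u n = 0) ∧
  (∀ (u : V4) (n : ℕ), (∀ j, (u j).re = 12) → ‖C4 u n‖ ≤ (n : ℝ) ^ (-(19 / 2) : ℝ)) ∧
  (∀ n : ℕ, Continuous fun u : V4 => C4 u n) ∧
  (∀ (m : ℤ) (u : V4), (∀ j, (u j).re = 12) →
    HasSum (fun n : ℕ => C4 u n * (jacobiSym m n : ℂ)) (LL m u)) ∧
  (∀ (u : V4) (p : ℕ) (y : ℂ), p.Prime → p ≠ 2 → (∀ j, 0 ≤ (u j).re) → ‖y‖ ≤ 1 →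
    HasSum (fun j : ℕ => C4 u (p ^ j) * y ^ j) (Fq u p y))

def CYB : Prop :=
  (∀ (z : ℂ) (n : ℕ), cY 1 z n = 1) ∧ (∀ (Y n : ℕ), Continuous fun z => cY Y z n) ∧
  (∀ (Y n : ℕ) (z : ℂ), z.re ≤ 6 → ‖cY Y z n‖ ≤ (Y : ℝ) ^ 11) ∧
  (∀ (Y : ℕ) (k : ℤ) (f : ℕ), Squarefree k → Odd f →
    |sY Y (k * (f : ℤ) ^ 2)| ≤ f.divisors.card ∧ (1 ≤ Y → f = 1 → sY Y (k * (f : ℤ) ^ 2) = 1) ∧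
      (1 < f → f ≤ Y → sY Y (k * (f : ℤ) ^ 2) = 0)) ∧
  ∀ (Y : ℕ) (m : ℤ), |sY Y m| ≤ Y

def E4a : Prop := ∀ (Y : ℕ) (k : ℤ) (z : ℂ) (u : V4), 0 ≤ z.re → z.re ≤ 6 → (∀ j, (u j).re = 12) →
  ZY Y k z u = HY Y z (loc4 k z u) (fun _ => 1) ∧
    Multipliable fun p : Nat.Primes => if (p : ℕ) = 2 then 1 else loc4 k z u p

def LOC4 : Prop := ∃ C : ℝ, 0 < C ∧ ∀ p : ℕ, p.Prime → p ≠ 2 →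
  (∀ k : ℤ, ∀ x ∈ Vk, ‖loc4 k x.1 x.2 p * fk k x.1 x.2 p - 1‖ ≤ C * (p : ℝ) ^ (-(11 / 10) : ℝ) ∧
    ‖fk k x.1 x.2 p‖ ≤ C) ∧
  ∀ x ∈ V1, ‖loc4 1 x.1 x.2 p * n1 x.1 x.2 p - 1‖ ≤ C * (p : ℝ) ^ (-(11 / 10) : ℝ) ∧
    ‖n1 x.1 x.2 p‖ ≤ C

def LOD : Prop := IsOpen Vk ∧ IsOpen V1 ∧ ∀ p : ℕ, p.Prime →
  (∀ k : ℤ, Hol Vk (fun x => loc4 k x.1 x.2 p) ∧ Hol Vk fun x => fk k x.1 x.2 p) ∧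
    Hol V1 (fun x => loc4 1 x.1 x.2 p) ∧ Hol V1 fun x => n1 x.1 x.2 p

def HTa : Prop := ∀ C : ℝ, 0 < C → ∃ (C' : ℝ) (B : ℕ), 0 < C' ∧
  ∀ (U : Set (ℂ × V4)) (y F : ℕ → ℂ × V4 → ℂ) (Y : ℕ), IsOpen U → (∀ x ∈ U, x.1.re < 7) →
    (∀ p : ℕ, p.Prime → p ≠ 2 → Hol U (y p) ∧ Hol U (F p) ∧ ∀ x ∈ U,
      ‖y p x - 1‖ ≤ C * (p : ℝ) ^ (-(11 / 10) : ℝ) ∧ ‖F p x‖ ≤ C) →
    Hol U (fun x => HY Y x.1 (fun p => y p x) fun p => F p x) ∧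
      ∀ x ∈ U, ‖HY Y x.1 (fun p => y p x) fun p => F p x‖ ≤ C' * (Y : ℝ) ^ B

def HTb : Prop := ∀ C : ℝ, 0 < C → ∃ C' : ℝ, 0 < C' ∧ ∀ (y F : ℕ → ℂ) (Y : ℕ), 1 ≤ Y →
  (∀ p : ℕ, p.Prime → p ≠ 2 → ‖y p - 1‖ ≤ C * (p : ℝ) ^ (-(11 / 10) : ℝ) ∧ ‖F p‖ ≤ C) →
  ‖HY Y 0 y F - HJ y F‖ ≤ C' / √(Y : ℝ) ∧ ‖HJ y F‖ ≤ C'

/-- What the analysis uses about `Hk`, `Hone`, `HI`. -/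
def HB4 : Prop := ∃ (C : ℝ) (B : ℕ), 0 < C ∧ ∀ Y : ℕ,
  (∀ k : ℤ, Hol Vk (fun x => Hk Y k x.1 x.2) ∧ ∀ x ∈ Vk, ‖Hk Y k x.1 x.2‖ ≤ C * (Y : ℝ) ^ B) ∧
  Hol V1 (fun x => Hone Y x.1 x.2) ∧ (∀ x ∈ V1, ‖Hone Y x.1 x.2‖ ≤ C * (Y : ℝ) ^ B) ∧
  (1 ≤ Y → ∀ u : V4, (∀ j, 0 ≤ (u j).re) →
    ‖Hone Y 0 u - HI u‖ ≤ C / √(Y : ℝ) ∧ ‖HI u‖ ≤ C) ∧
  ContinuousOn HI {u | ∀ j, 0 ≤ (u j).re}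

def E4k : Prop := ∀ (Y : ℕ) (k : ℤ) (z : ℂ) (s : V4), k ≠ 0 → 1 / 2 < z.re → z.re ≤ 6 →
  (∀ j, (sh z s j).re = 12) →
  ZY Y k z (sh z s) = (∏ j, Lo k (1 / 2 + s j)) * IZ4 s * Hk Y k z (sh z s)

def E41 : Prop := ∀ (Y : ℕ) (z : ℂ) (u : V4), 0 ≤ z.re → z.re ≤ 6 → (∀ j, (u j).re = 12) →
  ZY Y 1 z u = (∏ j, Lo 1 (1 + (u j - z))) * ZR z u * Hone Y z u

def HA4 : Prop := ∀ u : V4, (∀ j, 0 < (u j).re) →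
  (∏ i, ∏ j ∈ Ici i, (1 - (2 : ℂ) ^ (-(1 + u i + u j)))) * HI u *
    ((Fq u 2 1 + Fq u 2 (-1) + 1) / 8) = 3 / π ^ 2 * Aprod 4 u

/-- Holomorphy and growth of the zeta factors. -/
def ZB : Prop := ∃ (C : ℝ) (n : ℕ), 0 < C ∧
  Hol {u : V4 | ∀ j, 0 < (u j).re} ZO ∧
  Hol {x : ℂ × V4 | 0 ≤ x.1.re ∧ ∀ j, 0 < (x.2 j).re} (fun x => ZR x.1 x.2) ∧
  Hol {s : V4 | ∀ j, 0 ≤ (s j).re} IZ4 ∧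
  (∀ s ∈ Bx 0 12, ‖IZ4 s‖ ≤ C * gn n s) ∧
  (∀ ε : ℝ, 0 < ε → ε ≤ 1 → ∀ u ∈ Bx ε 12, ‖ZO u‖ ≤ C * gn n u / ε ^ 10 ∧
    ∀ z ∈ Strip 0 6, ‖ZR z u‖ ≤ C * br z.im ^ n * gn n u / ε ^ 10) ∧
  ∀ u : V4, (∀ j, 0 < (u j).re) →
    (∏ j, Lo 1 (1 + (u j - 0))) * ZR 0 u = ZO u ∧ ∀ i, ZR (u i) u = ZX i u

/-! Section 3: expansion -/

def EX4 : Prop := ∀ (Y : ℕ) (a : ℤ → V4 → ℂ) (c0 : V4 → ℂ) (K : ℤ → ℂ → V4 → ℂ) (σ : ℤ → ℝ),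
  PoD Y a c0 K σ →
  Summable (fun m : ℤ => In (cs 12) fun u => a m u * LL m u) ∧
    HasSum (fun κ : SF => Yk Y K (σ κ) κ)
      ((∑' m : ℤ, In (cs 12) fun u => a m u * LL m u) - In (cs 12) fun u => c0 u * ZY Y 1 0 u)

def POG : Prop := ∀ (X M : ℝ) (W : V4 → ℂ) (σ : ℤ → ℝ), 0 < X → SG σ →
  (Continuous fun t : R4 => W (pt (cs 12) t)) → (∀ t, ‖W (pt (cs 12) t)‖ ≤ M * dk (pt (cs 12) t)) →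
  PoD 1 (fun m u => GX X m * W u) (fun u => X * W u) (KG X W) σ

def POC : Prop := ∀ (τ r : ℤ) (E : ℤ → ℂ → ℂ) (C M : ℝ) (Y : ℕ) (Ω : ℂ → V4 → ℂ) (σ : ℤ → ℝ),
  KA E C → PDI τ r E → SG σ → OmE Ω M →
  PoD Y (ac τ r Y Ω) (fun u => Ω 1 u / 8) (KP E Ω) σ

def DSH : Prop := ∃ n : ℕ, ∀ (Y : ℕ) (k : ℤ) (z : ℂ) (W : V4 → ℂ) (M : ℝ), Squarefree k → k ≠ 1 →
  3 / 4 ≤ z.re → z.re ≤ 6 → Hol (Bx (z.re - 1 / 2) 12) W →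
  (∀ u ∈ Bx (z.re - 1 / 2) 12, ‖W u‖ ≤ M * dn n u) →
  In (cs 12) (fun u => W u * ZY Y k z u) =
    In (cs 0) fun s => W (sh z s) * ((∏ j, Lo k (1 / 2 + s j)) * IZ4 s * Hk Y k z (sh z s))

def DG : Prop := ∃ n : ℕ, ∀ (Y : ℕ) (c0 : V4 → ℂ) (ε M : ℝ), 0 < ε → ε ≤ 1 → Hol (Bx ε 12) c0 →
  (∀ u ∈ Bx ε 12, ‖c0 u‖ ≤ M * dn n u) →
  In (cs 12) (fun u => c0 u * ZY Y 1 0 u) = In (cs ε) fun u => c0 u * (ZO u * Hone Y 0 u)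

def K1a : Prop := ∃ n₀ : ℕ, ∀ n, n₀ ≤ n → ∀ (Kr H : ℂ → V4 → ℂ) (ε X V M : ℝ), KC n Kr H ε X V M →
  Y1 Kr H (3 / 4) (cs 12) = Y1 Kr H (ε / 2) (cs 12) + 2 * π * In (cs 12) (G1 Kr H (1 / 2))

def K1b : Prop := ∃ (n₀ : ℕ) (C : ℝ), 0 < C ∧ ∀ n, n₀ ≤ n →
  ∀ (Kr H : ℂ → V4 → ℂ) (ε X V M : ℝ), KC n Kr H ε X V M →
    ‖In (cs 12) (G1 Kr H (1 / 2))‖ ≤ C * V * M * X ^ (9 / 10 : ℝ)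

def K1c : Prop := ∃ n₀ : ℕ, ∀ n, n₀ ≤ n → ∀ (Kr H : ℂ → V4 → ℂ) (ε X V M : ℝ), KC n Kr H ε X V M →
  Y1 Kr H (ε / 2) (cs 12) = Y1 Kr H (ε / 2) (rl ε)

def K1d : Prop := ∃ n₀ : ℕ, ∀ n, n₀ ≤ n → ∀ (Kr H : ℂ → V4 → ℂ) (ε X V M : ℝ), KC n Kr H ε X V M →
  Y1 Kr H (ε / 2) (rl ε) = Y1 Kr H (1 / 4) (rl ε) + 2 * π * ∑ i, In (rl ε) (Fl Kr H i)

def K1e : Prop := ∃ (n₀ : ℕ) (C : ℝ), 0 < C ∧ ∀ n, n₀ ≤ n →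
  ∀ (Kr H : ℂ → V4 → ℂ) (ε X V M : ℝ), KC n Kr H ε X V M →
    ‖Y1 Kr H (1 / 4) (rl ε)‖ ≤ C * V * M * X ^ (9 / 10 : ℝ) / ε ^ 10

def K1 : Prop := ∃ (n : ℕ) (C : ℝ), 0 < C ∧
  ∀ (Y : ℕ) (K : ℤ → ℂ → V4 → ℂ) (Kr : ℂ → V4 → ℂ) (ε X V M : ℝ), KC n Kr (Hone Y) ε X V M →
    (∀ (z : ℂ) (u : V4), z.re = 3 / 4 → K 1 z u = Kr z u * hf u / (z - 1 / 2)) →
    ‖Yk Y K (3 / 4) 1 - ∑ i, In (rl ε) (Fl Kr (Hone Y) i)‖ ≤ C * V * M * X ^ (9 / 10 : ℝ) / ε ^ 10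

/-! Section 4: pairs -/

/-- Integrability of packets. -/
def PWI : Prop := ∀ (κ t v : ℝ) (j : ℕ), Kp κ →
  (∀ k : ℤ, Squarefree k → k ≠ 1 → Lc 0 fun u => u ^ j * (pw κ t v u * Lo k (1 / 2 + u))) ∧
    ∀ m : ℤ, Lc 12 fun u => u ^ j * (pw κ t v u * LS m (1 / 2 + u))

def PKB : Prop := ∀ κ t κ' t' : ℝ, Kp κ → Kp κ' →
  (∀ (v v' : ℝ) (m : ℤ), In (cs 12) (fun u => W2 κ t v κ' t' v' u * LL m u) =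
    ((‖Bm κ t v κ' t' v' m‖ ^ 2 : ℝ) : ℂ)) ∧
  ∀ k : ℤ, Squarefree k → k ≠ 1 →
    (∀ v v' : ℝ, Bm κ t v κ' t' v' k = Pk κ t v κ' t' v' k ∧
      Pk κ' t' v' κ t v k = -Pk κ t v κ' t' v' k) ∧
    (∀ v' : ℝ, Continuous fun v => Pk κ t v κ' t' v' k) ∧
    ∃ M : ℝ, ∀ v v' : ℝ, ‖Pk κ t v κ' t' v' k‖ ≤ M

def BAS : Prop := DI 10 0 0

def MT2 : Prop := ∀ θ : ℝ, 0 ≤ θ → θ ≤ 10 → DI θ 0 0 → PP2 θ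

def BP : Prop := ∀ θ : ℝ, PP2 θ → ∀ κ κ' : ℝ, Kp κ → Kp κ' → ∃ (A : ℕ) (C : ℝ), 0 < C ∧
  ∀ (K : ℝ) (c : R4) (F : Finset ℤ), 0 < K → SQ F →
    Bd F (fun k => om (|(k : ℝ)| / K)) (amp κ κ' c) (C * K * lg K ^ θ * ∏ j, br (c j) ^ A) ∧
      ∀ k ∈ F, IL (cs 0) (amp κ κ' c k)

/-- Size of `W2`; the quotient by `hf`. -/
def W2B : Prop := ∀ (κ κ' : ℝ) (n : ℕ), Kp κ → Kp κ' → ∃ (A : ℕ) (C : ℝ), 0 < C ∧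
  ∀ t v t' v' : ℝ, ∃ Q : V4 → ℂ, Differentiable ℂ Q ∧
    (∀ u, W2 κ t v κ' t' v' u = an u * (∏ j, u j) * Q u * hf u) ∧
    ∀ u ∈ Bx 0 12, ‖Q u‖ * gn n u ≤ C * br t ^ A * br t' ^ A *
      Real.exp (v * ((u 0).re + (u 2).re) + v' * ((u 1).re + (u 3).re)) *
      ∏ j, Real.exp (-|(u j).im - (![t, t', -t, -t'] : R4) j|)

def TMa : Prop := ∀ (κ t v κ' t' v' X K b : ℝ) (F : Finset ℤ), Kp κ → Kp κ' → 0 < X →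
  (∀ F' : Finset ℤ, SQ F' → ∑ k ∈ F', ‖Yk 1 (KG X (W2 κ t v κ' t' v')) (s1 K k) k‖ ≤ b) →
  ∑ m ∈ F, GX X m * ‖Bm κ t v κ' t' v' m‖ ^ 2 ≤
    ‖In (cs 12) fun u => X * W2 κ t v κ' t' v' u * ZY 1 1 0 u‖ +
      ‖Yk 1 (KG X (W2 κ t v κ' t' v')) (3 / 4) 1‖ + b

/-- The Cauchy determinant. -/
def CAU : Prop := ∃ (C : ℝ) (n : ℕ), 0 < C ∧ ∀ (ε : ℝ) (τ : R4), 0 < ε → ε ≤ 1 / 100 →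
  ‖an (pt (cs ε) τ) * (∏ j, pt (cs ε) τ j) * ZO (pt (cs ε) τ)‖ ≤
      C * gn n (pt (cs ε) τ) * cm ε (cs 1) τ ∧
    ∀ i, ‖an (pt (rl ε) τ) * (∏ j ∈ univ.erase i, pt (rl ε) τ j) * FZ i (pt (rl ε) τ)‖ ≤
      C * gn n (pt (rl ε) τ) * cm ε (sgi i) τ

def TMb1 : Prop := ∀ κ κ' : ℝ, Kp κ → Kp κ' → ∃ (A : ℕ) (C : ℝ), 0 < C ∧
  ∀ t v t' v' X : ℝ, 1 ≤ X → 100 ≤ Real.log X → Real.exp v ≤ X → Real.exp v' ≤ X →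
    ‖In (cs 12) fun u => X * W2 κ t v κ' t' v' u * ZY 1 1 0 u‖ ≤
      C * br t ^ A * br t' ^ A * X * Real.log (Real.log X) ^ 2

def TMb2 : Prop := ∀ κ κ' : ℝ, Kp κ → Kp κ' → ∃ (A : ℕ) (C : ℝ), 0 < C ∧
  ∀ t v t' v' X : ℝ, 1 ≤ X → 100 ≤ Real.log X → Real.exp v ≤ X → Real.exp v' ≤ X →
    ‖Yk 1 (KG X (W2 κ t v κ' t' v')) (3 / 4) 1‖ ≤
      C * br t ^ A * br t' ^ A * X * Real.log (Real.log X) ^ 2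

/-- The dual integrand is an amplitude times a holomorphic factor. -/
def ALG : Prop := ∀ (κ κ' : ℝ) (A : ℕ), Kp κ → Kp κ' → ∃ (A' : ℕ) (C : ℝ), 0 < C ∧
  ∀ (t v t' v' : ℝ) (k : ℤ) (z : ℂ), 3 / 4 ≤ z.re → z.re ≤ 6 → ∃ R : V4 → ℂ,
    Hol (Bx (-(1 / 40)) (1 / 40)) R ∧
    (∀ s ∈ Bx (-(1 / 40)) (1 / 40), ‖R s‖ ≤ C * br z.im ^ A' * br t ^ A' * br t' ^ A' *
      ∏ j, 1 / br ((s j).im - (![t - z.im, t' - z.im, -t - z.im, -t' - z.im] : R4) j) ^ 2) ∧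
    ∀ s ∈ Bx 0 0, W2 κ t v κ' t' v' (sh z s) *
        ((∏ j, Lo k (1 / 2 + s j)) * IZ4 s * Hk 1 k z (sh z s)) =
      cexp ((z - 1 / 2) * (2 * (v + v'))) *
        (amp (κ / 2) (κ' / 2) ![t - z.im, t' - z.im, -t - z.im, -t' - z.im] k s * R s *
          (∏ i, ∏ j ∈ Ici i, gz A (s i + s j)) * ev s ![v, v', v, v'])

def TMc1 : Prop := ∀ θ : ℝ, PP2 θ → ∀ κ κ' : ℝ, Kp κ → Kp κ' → ∃ (A : ℕ) (C : ℝ), 0 < C ∧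
  ∀ (t v t' v' K y : ℝ) (σ : ℤ → ℝ) (F : Finset ℤ), 0 < K → SQ F → (∀ k, 3 / 4 ≤ σ k ∧ σ k ≤ 6) →
    ∑ k ∈ F, om (|(k : ℝ)| / K) * Real.exp (-(σ k - 1 / 2) * (2 * (v + v'))) *
        ‖In (cs 12) fun u => W2 κ t v κ' t' v' u * ZY 1 k (σ k + y * I) u‖ ≤
      C * br y ^ A * br t ^ A * br t' ^ A * K * lg K ^ θ

def TMc : Prop := ∀ θ : ℝ, PP2 θ → ∀ κ κ' : ℝ, Kp κ → Kp κ' → ∃ (A : ℕ) (C : ℝ), 0 < C ∧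
  ∀ (t v t' v' X : ℝ) (F : Finset ℤ), 0 < X → SQ F →
    ∑ k ∈ F, ‖Yk 1 (KG X (W2 κ t v κ' t' v')) (s1 (Real.exp (2 * (v + v')) / X) k) k‖ ≤
      C * br t ^ A * br t' ^ A * Real.exp (v + v') * lg (Real.exp (2 * (v + v')) / X) ^ θ

def TM2 : Prop := ∀ θ : ℝ, 0 ≤ θ → θ ≤ 10 → PP2 θ → ∀ κ κ' : ℝ, Kp κ → Kp κ' →
  ∃ (A : ℕ) (C : ℝ), 0 < C ∧ ∀ (t v t' v' X : ℝ) (F : Finset ℤ), 1 ≤ X → 100 ≤ Real.log X →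
    Real.exp v ≤ X → Real.exp v' ≤ X →
    ∑ m ∈ F, GX X m * ‖Bm κ t v κ' t' v' m‖ ^ 2 ≤ C * br t ^ A * br t' ^ A *
      (X * Real.log (Real.log X) ^ 2 + Real.exp (v + v') * lg X ^ θ)

def FL2 : Prop := ∃ C R₀ : ℝ, 0 < C ∧ 200 ≤ R₀ ∧ ∀ κ t v κ' t' v' Z R M : ℝ, Kp κ → Kp κ' → 0 < Z →
  R₀ ≤ R → (∀ (w w' : ℝ) (F : Finset ℤ), w ≤ v → w' ≤ v' →
    ∑ m ∈ F, GX (Z * R ^ 2) m * ‖Bm κ t w κ' t' w' m‖ ^ 2 ≤ M) →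
  ∑ k ∈ Sq Z, ‖Bm κ t v κ' t' v' k‖ ^ 2 ≤ C * (Real.log R / R) * M

def DIR : Prop := ∀ θ δ : ℝ, 0 ≤ θ → θ ≤ 10 → 0 < δ → PP2 θ → DI (θ / 2 + δ) 2 2

def RF1 : Prop := ∀ κ : ℝ, Kp κ → ∃ (C : ℝ) (c : ℕ), 0 < C ∧
  ∀ (t v κ' t' v' Z : ℝ) (k : ℤ), Kp κ' → 1 ≤ Z → k ∈ Sq Z →
    ‖Pk κ t v κ' t' v' k‖ ≤ C * br t ^ c *
      ∫ w : ℝ, Ew w * ‖Pk (κ / 2) (-t) (Real.log Z - v + w) κ' t' v' k‖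

def RF2 : Prop := ∀ (θ : ℝ) (j : ℕ), (DI θ 2 j → DI θ 0 j) ∧ ∀ j' : ℕ, DI θ j j' → DI θ j' j

def REC : Prop := ∀ θ : ℝ, 0 < θ → PP2 θ

/-! Section 5: the exact part -/

def G1W : Prop := ∀ (a : ℕ) (c : Fin 3 → ℂ), a ≤ 1 →
  (∃ C : ℝ, 0 < C ∧ GC (g1 a c) C) ∧ ∀ u : ℂ, gg a c u = (u ^ 2 - 1 / 4) * g1 a c u

def AFE4 : Prop := ∀ (c : Fin 3 → ℂ) (k : ℤ), Squarefree k → k ≠ 1 →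
  24 * π ^ 4 * Lf k (1 / 2) ^ 4 =
    In (cs 12) fun u => W4 (g1 (par k) c) (gam k) u * (qk k : ℂ) ^ us u * LL k u

def REAL : Prop := ∀ k : ℤ, Squarefree k → k ≠ 1 → (Lf k (1 / 2)).im = 0

/-- Classes modulo 8. -/
def CLM : Prop :=
  (∀ τ r k : ℤ, (τ = 1 ∨ τ = -1) → r ∈ RS → Cl τ r k →
    gam k = gam r ∧ qk k = cq r * |(k : ℝ)| ∧ (τ : ℝ) = (-1) ^ par k) ∧
  (∀ (a : ℕ) (k : ℤ), a ≤ 1 → Squarefree k →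
    (par k = a → k % 8 ∈ RS ∧ Cl ((-1) ^ a) (k % 8) k) ∧ ∀ r, Cl ((-1) ^ a) r k → par k = a) ∧
  (∀ r : ℤ, 1 ≤ cq r ∧ cq r ≤ 4)

/-- Size of the kernel and of the cut-off. -/
def WRB : Prop := ∀ (g : ℂ → ℂ) (C₀ : ℝ) (n : ℕ), GC g C₀ → ∃ C : ℝ, 0 < C ∧ ∀ γ ∈ T3,
  Hol {u : V4 | ∀ j, 0 < (u j).re} (fun u => ∏ j, wr g γ (u j)) ∧
  Hol {u : V4 | ∀ j, 0 < (u j).re} (Wr g γ) ∧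
  (∀ Δ : ℝ, Differentiable ℂ (cF Δ)) ∧ Differentiable ℂ hf ∧ Differentiable ℂ us ∧
  ∀ ε Δ : ℝ, 0 < ε → 1 ≤ Δ → ∀ u ∈ Bx ε 12,
    ‖(∏ j, wr g γ (u j)) * (1 - cF Δ u)‖ ≤
      C * (Δ / min ε 1) ^ 28 * Real.exp (-Δ * ε) * dn n u ∧
    ‖Wr g γ u * (1 - cF Δ u)‖ ≤ C * (Δ / min ε 1) ^ 28 * Real.exp (-Δ * ε) * dn n u ∧
    ‖W4 g γ u * (1 - cF Δ u)‖ ≤ C * (Δ / min ε 1) ^ 28 * Real.exp (-Δ * ε) * dn n u ∧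
    ‖W4 g γ u‖ ≤ C * (1 / min ε 1) ^ 28 * dn n u ∧
    ‖W4 g γ u * ZO u‖ ≤ C * (∏ j, 1 / ‖u j‖ ^ 8) * dn n u ∧
    ‖cF Δ u‖ ≤ Δ ^ 32 * ∏ j, ‖u j‖ ^ 8

def AFS : Prop := ∀ (c : Fin 3 → ℂ) (k : ℤ) (Δ : ℝ), Squarefree k → k ≠ 1 → 1 ≤ Δ →
  24 * π ^ 4 * Lf k (1 / 2) ^ 4 =
    Tm (g1 (par k) c) (gam k) Δ (qk k) k + Fm (g1 (par k) c) (gam k) Δ (qk k) k

/-- The critical piece as an amplitude times a holomorphic factor. -/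
def FB1 : Prop := ∀ (g : ℂ → ℂ) (C₀ : ℝ), GC g C₀ → ∃ C : ℝ, 0 < C ∧
  ∀ (k : ℤ) (Δ X : ℝ), Squarefree k → k ≠ 1 → 8 ≤ Δ → 0 < X → ∃ R : V4 → ℂ,
    Hol (Bx (-(1 / Δ)) (1 / Δ)) R ∧
    (∀ s ∈ Bx (-(1 / Δ)) (1 / Δ), ‖R s‖ ≤
      C * Δ ^ 32 * max (qk k / X) (X / qk k) ^ (1 / 4 : ℝ) * ∏ j, 1 / br ((s j).im - cs 0 j) ^ 2) ∧
    Fm g (gam k) Δ (qk k) k = In (cs 0) fun s =>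
      amp (1 / 2) (1 / 2) (cs 0) k s * R s * ev s (cs (Real.log X / 2))

def FB : Prop := ∀ (g : ℂ → ℂ) (C₀ θ : ℝ), GC g C₀ → 0 < θ → ∃ C : ℝ, 0 < C ∧
  ∀ (Δ η X : ℝ) (F : Finset ℤ), 8 ≤ Δ → 0 < η → η ≤ 1 / 30 → 0 < X → SQ F →
    ∑ k ∈ F, phi η (qk k / X) * ‖Fm g (gam k) Δ (qk k) k‖ ≤ C * Δ ^ 36 * X * lg X ^ θ

def OMB : Prop := ∀ (g : ℂ → ℂ) (C₀ : ℝ) (n : ℕ), GC g C₀ → ∃ (C : ℝ) (B : ℕ), 0 < C ∧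
  ∀ (γ : ℤ) (c Δ η X ε : ℝ) (Y : ℕ) (w : ℂ) (u : V4), Pm γ c Δ η X Y → 0 < ε →
    w ∈ Strip (-5) 2 → u ∈ Bx ε 12 → 1 / 4 ≤ (w + us u).re →
    DifferentiableAt ℂ (fun x : ℂ × V4 => O0 g γ c Δ η X x.1 x.2) (w, u) ∧
    DifferentiableAt ℂ (fun x : ℂ × V4 => Ow g γ c Δ η X x.1 x.2) (w, u) ∧
    DifferentiableAt ℂ (fun x : ℂ × V4 => Om g γ c Δ η X x.1 x.2) (w, u) ∧
    ‖O0 g γ c Δ η X w u‖ ≤ C * (Δ / (η * min ε 1)) ^ B * X ^ (w + us u).re *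
      Real.exp (-Δ * ε) / br w.im ^ n * dn n u ∧
    ‖Ow g γ c Δ η X w u‖ ≤ C * (Δ / (η * min ε 1)) ^ B * X ^ (w + us u).re *
      Real.exp (-Δ * ε) / br w.im ^ n * dn n u ∧
    ‖Om g γ c Δ η X w u‖ ≤ C * (Δ / (η * min ε 1)) ^ B * X ^ (w + us u).re *
      Real.exp (-Δ * ε) / br w.im ^ n * dn n u

def PRT : Prop := ∀ (τ r : ℤ) (g : ℂ → ℂ) (Δ η X : ℝ) (Y : ℕ) (m : ℤ), 0 < η → 0 < X →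
  In (cs 12) (fun u => ac τ r Y (Om g (gam r) (cq r) Δ η X) m u * LL m u) = ta τ r g Δ η X Y m

def TK0 : Prop := ∀ (g : ℂ → ℂ) (C₀ C₁ : ℝ) (E : ℤ → ℂ → ℂ), GC g C₀ → KA E C₁ →
  ∃ (C : ℝ) (B : ℕ), 0 < C ∧ ∀ (γ : ℤ) (c Δ η X : ℝ) (Y : ℕ) (F : Finset ℤ), Pm γ c Δ η X Y → SQ F →
    ∑ k ∈ F, ‖Yk Y (KP E (Om g γ c Δ η X)) (s1 (X * Real.exp (-Δ)) k) k‖ ≤
      C * (Y * Δ / η) ^ B * Real.exp (-Δ / 2) * X * lg X ^ 10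

/-- A flipped term of the exact part; `Kr` is the kernel without `hf u / (z - 1 / 2)`. -/
def TF0 : Prop := ∀ (g : ℂ → ℂ) (C₀ C₁ : ℝ) (E : ℤ → ℂ → ℂ), GC g C₀ → KA E C₁ →
  ∃ (C : ℝ) (B : ℕ), 0 < C ∧ ∀ (γ : ℤ) (c Δ η X : ℝ) (Y : ℕ) (i : Fin 4), Pm γ c Δ η X Y →
    ‖In (rl (1 / Real.log X)) (Fl (fun z u => Ow g γ c Δ η X (1 - z) u *
      (E 1 z / z * riemannZeta₁ (2 * z) / 2)) (Hone Y) i)‖ ≤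
      C * (Y * Δ * Real.log X / η) ^ B * X ^ (9 / 10 : ℝ)

def TF1 : Prop := ∀ (g : ℂ → ℂ) (C₀ C₁ : ℝ) (E : ℤ → ℂ → ℂ), GC g C₀ → KA E C₁ →
  ∃ (C : ℝ) (B : ℕ), 0 < C ∧ ∀ (γ : ℤ) (c Δ η X : ℝ) (Y : ℕ), Pm γ c Δ η X Y →
    ‖Yk Y (KP E (Om g γ c Δ η X)) (3 / 4) 1‖ ≤
      C * (Y * Δ * Real.log X / η) ^ B * X ^ (9 / 10 : ℝ)

def TDG : Prop := ∀ (g : ℂ → ℂ) (C₀ : ℝ), GC g C₀ → ∃ C : ℝ, 0 < C ∧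
  ∀ (γ : ℤ) (c Δ η X : ℝ) (Y : ℕ), Pm γ c Δ η X Y →
    ‖In (cs 12) (fun u => Om g γ c Δ η X 1 u / 8 * ZY Y 1 0 u) -
        1 / (8 * c) * MC g γ (1 / Real.log X) X‖ ≤
      C * X * (Δ ^ 32 + η ^ 2 * (Real.log X * Δ) ^ 32 + Real.log X ^ 32 / √(Y : ℝ))

def LSF : Prop := ∀ (k : ℤ) (f : ℕ) (s : ℂ), Odd f → 1 < s.re →
  LS (k * (f : ℤ) ^ 2) s = LS k s * ∏ p ∈ f.primeFactors, (1 - jo k p * (p : ℂ) ^ (-s))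

def DB : Prop := ∀ (g : ℂ → ℂ) (C₀ : ℝ) (n : ℕ), GC g C₀ → ∃ C : ℝ, 0 < C ∧
  ∀ (γ k : ℤ) (f : ℕ) (Δ q ε : ℝ), γ ∈ T3 → Odd f → 1 ≤ Δ → 1 ≤ q → 0 < ε → ε ≤ 1 / 100 →
    (Squarefree k → k ≠ 1 → ∃ G : R4 → ℂ, Tm g γ Δ q (k * (f : ℤ) ^ 2) = ∫ t, G t ∧
      ∀ t : R4, ‖G t‖ ≤ C * (Δ / ε) ^ 28 * q ^ (2 * ε) * (f.divisors.card : ℝ) ^ 4 *
        (∏ j, 1 / br (t j) ^ n) * ∏ j, ‖Lo k (1 / 2 + ε + t j * I)‖) ∧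
    ‖Tm g γ Δ q (1 * (f : ℤ) ^ 2)‖ ≤ C * (Δ / ε) ^ 28 * q ^ (2 * ε) * (f.divisors.card : ℝ) ^ 4

def DO : Prop := ∃ (A : ℕ) (C : ℝ), 0 < C ∧ ∀ (ε K τ : ℝ) (F : Finset ℤ), 0 < ε → ε ≤ 1 / 100 →
  0 < K → SQ F →
  ∑ k ∈ F, om (|(k : ℝ)| / K) * ‖Lo k (1 / 2 + ε + τ * I)‖ ^ 4 ≤ C / ε * K * lg K ^ 10 * br τ ^ A

/-- One value of `f` in the tail of the sieve. -/
def TL1 : Prop := ∀ (g : ℂ → ℂ) (C₀ : ℝ), GC g C₀ → ∃ C : ℝ, 0 < C ∧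
  ∀ (γ : ℤ) (c Δ η X : ℝ) (Y f : ℕ) (F : Finset ℤ), Pm γ c Δ η X Y → Odd f →
    (∀ k ∈ F, Squarefree k) →
    ∑ k ∈ F, phi η (c * |((k * (f : ℤ) ^ 2 : ℤ) : ℝ)| / X) *
        ‖Tm g γ Δ (c * |((k * (f : ℤ) ^ 2 : ℤ) : ℝ)|) (k * (f : ℤ) ^ 2)‖ ≤
      C * (Δ * Real.log X) ^ 40 * (f.divisors.card : ℝ) ^ 4 * (X / (f : ℝ) ^ 2)

def TAIL : Prop := ∀ (g : ℂ → ℂ) (C₀ : ℝ), GC g C₀ → ∃ C : ℝ, 0 < C ∧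
  ∀ (τ r : ℤ) (Δ η X : ℝ) (Y : ℕ), (τ = 1 ∨ τ = -1) → r ∈ RS → Pm (gam r) (cq r) Δ η X Y →
    Summable (ta τ r g Δ η X Y) → Summable (tb τ r g Δ η X) ∧
      ‖∑' m, ta τ r g Δ η X Y m - ∑' k, tb τ r g Δ η X k‖ ≤
        C * (Δ * Real.log X) ^ 40 * (X / √(Y : ℝ) + 1)

def AT : Prop := ∀ (g : ℂ → ℂ) (C₀ : ℝ) (τ r : ℤ), GC g C₀ → (τ = 1 ∨ τ = -1) → r ∈ RS →
  ∃ D₀ : ℝ, ∀ D : ℝ, D₀ ≤ D → ∃ C X₀ : ℝ, ∀ X η : ℝ, X₀ ≤ X → 1 / Real.log X ^ 41 ≤ η →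
    η ≤ 1 / Real.log X ^ 39 →
    Summable (tb τ r g (D * Real.log (Real.log X)) η X) ∧
      ‖∑' k, tb τ r g (D * Real.log (Real.log X)) η X k -
          1 / (8 * cq r) * MC g (gam r) (1 / Real.log X) X‖ ≤
        C * X * Real.log (Real.log X) ^ 32

def CSM : Prop := ∀ (a : ℕ) (c : Fin 3 → ℂ) (ε X : ℝ), a ≤ 1 → 0 < ε → ε ≤ 1 → 1 ≤ X →
  ∑ r ∈ RS, 1 / (8 * cq r : ℂ) * MC (g1 a c) (gam r) ε X = 24 * π ^ 4 * MT a c ε X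

def SMO : Prop := ∀ (a : ℕ) (c : Fin 3 → ℂ) (θ : ℝ), a ≤ 1 → 0 < θ → ∃ C X₀ : ℝ, ∀ X η : ℝ,
  X₀ ≤ X → 1 / Real.log X ^ 41 ≤ η → η ≤ 1 / Real.log X ^ 39 →
  Summable (sm a η X) ∧
    ‖∑' k, sm a η X k - MT a c (1 / Real.log X) X‖ ≤ C * X * Real.log X ^ θ

def SHARP : Prop := ADD 0

end Pool.Agent.Q4
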