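import Pool.Agent.P.MP_ea46f5_nt.Q4.K1m
import Pool.Agent.P.MP_ea46f5_nt.Q4.S4

namespace Pool.Agent.Q4

open Complex MeasureTheory Finset
open scoped Real
open Pool.Agent.QM

theorem pDG (hZB : ZB) (hH : HB4) (hE41 : E41) : DG := by
  obtain ⟨C, n, hC, z1, -, -, -, z5, z6⟩ := hZB
  obtain ⟨D, B, -, hH⟩ := hH
  refine ⟨2 + n, fun Y c0 ε M h0 h1 hc hb => ?_⟩
  obtain ⟨-, H1, H2, -⟩ := hH Y
  have hp : ∀ u ∈ Bx ε 12, ∀ j, 0 < (u j).re := fun u hu j => h0.trans_le (hu j).1
  have hV : ∀ u ∈ Bx ε 12, ((0 : ℂ), u) ∈ V1 := fun u hu =>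
    ⟨by norm_num, by norm_num, fun j => by
      have := hp u hu j
      constructor <;> simp <;> linarith⟩
  rw [← pSDn 4 (cs ε) (cs 12) (cs 12) (cs ε) (M * (C / ε ^ 10) * (D * Y ^ B))
    (fun u => c0 u * (ZO u * Hone Y 0 u))
    (fun _ => ⟨by unfold cs; linarith, le_rfl⟩) (fun _ => ⟨le_rfl, by unfold cs; linarith⟩)
    (k1_sep fun u hu => (hc u hu).mul ((z1 u (hp u hu)).mul
      ((H1 _ (hV u hu)).comp u (f := fun u => ((0 : ℂ), u)) (by fun_prop)))) fun u hu => ?_]
  · refine k1_In_congr fun u hu => ?_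
    rw [hE41 Y 0 u le_rfl (by norm_num) hu, (z6 u fun j => by rw [hu j]; norm_num [cs]).1]
  · have g1 := hb u hu
    have g2 := (z5 ε h0 h1 u hu).1
    have g3 := H2 _ (hV u hu)
    rw [norm_mul, norm_mul]
    refine (mul_le_mul g1 (mul_le_mul g2 g3 (norm_nonneg _) ((norm_nonneg _).trans g2))
      (by positivity) ((norm_nonneg _).trans g1)).trans (le_of_eq ?_)
    rw [show dk u = dn 2 u from rfl, ← k1_gn_dn 2 n u]
    ring

theorem pDSH (hLOP : LOP) (hLOB : LOB) (hZB : ZB) (hH : HB4) (hE : E4k) : DSH := by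
  obtain ⟨C, n, hC, -, -, z3, z4, -⟩ := hZB
  obtain ⟨D, B, -, hH⟩ := hH
  refine ⟨2 + (n + 1), fun Y k z W M hk h1 hz hz' hW hb => ?_⟩
  obtain ⟨H1, H2⟩ := (hH Y).1 k
  have hk0 : k ≠ 0 := hk.ne_zero
  set r : V4 → V4 := fun u j => u j - (z - 1 / 2) with hr
  have e1 : ∀ u, sh z (r u) = u := fun u => by funext j; simp [sh, hr]
  have e2 : ∀ s, r (sh z s) = s := fun s => by funext j; simp [sh, hr]
  have hre : ∀ u j, (r u j).re = (u j).re - (z.re - 1 / 2) := fun u j => by simp [hr]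
  have him : ∀ u j, (r u j).im = (u j).im - z.im := fun u j => by simp [hr]
  have hB : ∀ u ∈ Bx (z.re - 1 / 2) 12, r u ∈ Bx 0 12 := fun u hu j => by
    have := hu j
    simp only [cs] at this ⊢
    rw [hre]; constructor <;> linarith [this.1, this.2]
  have hV : ∀ u ∈ Bx (z.re - 1 / 2) 12, (z, u) ∈ Vk := fun u hu =>
    ⟨by show _ < z.re; linarith, by show z.re < _; linarith, fun j => by
      have : z.re - 1 / 2 ≤ (u j).re := (hu j).1
      constructor <;> simp <;> linarith⟩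
  set G : V4 → ℂ := fun u => W u * ((∏ j, Lo k (1 / 2 + r u j)) * IZ4 (r u) * Hk Y k z u) with hG
  have a1 : In (cs 12) (fun u => W u * ZY Y k z u) = In (cs 12) G := k1_In_congr fun u hu => by
    have := hE Y k z (r u) hk0 (by linarith) hz' (by rw [e1]; exact hu)
    rw [e1] at this
    rw [this]
  have a3 : In (cs (z.re - 1 / 2)) G = In (cs 0) fun s => G (sh z s) := by
    unfold In
    rw [← integral_add_right_eq_self _ (fun _ => z.im)]
    congr 1
    funext t
    congr 1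
    funext j
    apply Complex.ext <;> simp [pt, sh, cs, add_comm]
  have hβ := sh_br_pos z.im
  rw [a1, pSDn 4 (cs (z.re - 1 / 2)) (cs 12) (cs 12) (cs (z.re - 1 / 2))
    (M * ((104 * |(k : ℝ)| * br z.im) ^ 4 * (C * (br z.im ^ n) ^ 4) * (D * Y ^ B))) G
    (fun _ => ⟨by unfold cs; linarith, le_rfl⟩) (fun _ => ⟨le_rfl, by unfold cs; linarith⟩)
    (k1_sep fun u hu => (hW u hu).mul (((k1_dprod fun j _ => ?_).mul ?_).mul
      ((H1 _ (hV u hu)).comp u (f := fun u => (z, u)) (by fun_prop)))) fun u hu => ?_, a3]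
  · simp only [hG, e2]
  · exact (hLOP.2.1 k hk h1 _).comp u (f := fun u => 1 / 2 + r u j) (by simp only [hr]; fun_prop)
  · exact (z3 _ fun j => (hB u hu j).1).comp u (by simp only [hr]; fun_prop)
  · have g1 := hb u hu
    have g2 : ‖∏ j, Lo k (1 / 2 + r u j)‖ ≤ ∏ j, 104 * |(k : ℝ)| * br z.im * br (u j).im := by
      rw [norm_prod]
      refine prod_le_prod (fun _ _ => norm_nonneg _) fun j _ => ?_
      have b1 : 0 ≤ (r u j).re := (hB u hu j).1
      have b2 : (r u j).re ≤ 12 := (hB u hu j).2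
      have b3 : (1 / 2 + r u j).re = 1 / 2 + (r u j).re := by simp
      have b4 : ‖1 / 2 + r u j‖ ≤ 13 * (br z.im * br (u j).im) := by
        have c1 := norm_le_abs_re_add_abs_im (1 / 2 + r u j)
        have c2 := k1_br_sub (u j).im z.im
        rw [b3, abs_of_nonneg (by linarith), show (1 / 2 + r u j).im = (r u j).im by simp,
          him] at c1
        unfold br at c2 ⊢
        nlinarith [abs_nonneg ((u j).im - z.im)]
      refine (hLOB k _ hk h1 (by linarith)).trans ?_
      calc _ ≤ 4 * |(k : ℝ)| * (13 * (br z.im * br (u j).im)) / (1 / 2) := by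
            have := sh_br_pos (u j).im
            gcongr
            linarith
        _ = _ := by ring
    have g3 : ‖IZ4 (r u)‖ ≤ C * ∏ j, (br (u j).im * br z.im) ^ n := by
      refine (z4 _ (hB u hu)).trans (mul_le_mul_of_nonneg_left (prod_le_prod
        (fun _ _ => (pow_pos (sh_br_pos _) _).le) fun j _ => ?_) hC.le)
      rw [him]
      exact pow_le_pow_left₀ (sh_br_pos _).le (k1_br_sub _ _) n
    have g4 := H2 _ (hV u hu)
    have p2 := (norm_nonneg _).trans g2
    simp only [hG, norm_mul]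
    refine (mul_le_mul g1 (mul_le_mul (mul_le_mul g2 g3 (norm_nonneg _) p2) g4 (norm_nonneg _)
      (mul_nonneg p2 ((norm_nonneg _).trans g3))) (by positivity)
      ((norm_nonneg _).trans g1)).trans (le_of_eq ?_)
    rw [show dk u = dn 2 u from rfl, ← k1_gn_dn 2 (n + 1) u]
    simp only [gn, Fin.prod_univ_four]
    ring

end Pool.Agent.Q4
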