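import Pool.Agent.P.MP_ea46f5_nt.Q4.S4
import Pool.Agent.P.MP_ea46f5_nt.Q4.TailA
import Pool.Agent.P.MP_ea46f5_nt.Q4.TailB

/-! The divisor bound, Euler factors at the primes of `f`, fourth moment off the line. -/

namespace Pool.Agent.Q4

open Complex MeasureTheory Finset Pool.Agent.QM
open scoped Real

theorem dv_two (a : ℕ) : (a + 1) ^ 10 ≤ 10 ^ 10 * 2 ^ a := by
  have h1 : a + 1 ≤ 10 * 2 ^ (a / 10) := by
    have := Nat.lt_two_pow_self (n := a / 10)
    omega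
  calc _ ≤ (10 * 2 ^ (a / 10)) ^ 10 := Nat.pow_le_pow_left h1 10
    _ = 10 ^ 10 * 2 ^ (a / 10 * 10) := by rw [mul_pow, ← pow_mul]
    _ ≤ _ := Nat.mul_le_mul_left _ (Nat.pow_le_pow_right (by norm_num) (Nat.div_mul_le_self a 10))

theorem dv_nat (D : ℕ) (hD : 10 ^ 10 ≤ D) (N : ℕ) (hN : 1024 ≤ N) (f : ℕ) (hf : f ≠ 0) :
    f.divisors.card ^ 10 ≤ D ^ N * f := by
  classical
  have h1 : ∀ p ∈ f.primeFactors, (f.factorization p + 1) ^ 10 ≤
      (if p < N then D else 1) * p ^ f.factorization p := fun p hp => by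
    have h2 := (Nat.prime_of_mem_primeFactors hp).two_le
    split_ifs with h
    · exact (dv_two _).trans (Nat.mul_le_mul hD (Nat.pow_le_pow_left h2 _))
    · calc _ ≤ (2 ^ f.factorization p) ^ 10 := Nat.pow_le_pow_left Nat.lt_two_pow_self 10
        _ = 1024 ^ f.factorization p := by rw [← pow_mul, mul_comm, pow_mul]; norm_num
        _ ≤ _ := by rw [one_mul]; exact Nat.pow_le_pow_left (by omega) _
  have h3 : (f.primeFactors.filter fun p => p < N).card ≤ N := by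
    have : (f.primeFactors.filter fun p => p < N) ⊆ range N :=
      fun p hp => mem_range.2 (mem_filter.1 hp).2
    simpa using card_le_card this
  rw [Nat.card_divisors hf, ← prod_pow]
  refine (prod_le_prod' h1).trans ?_
  rw [prod_mul_distrib, ← Nat.prod_primeFactors_pow_factorization hf, ← prod_filter, prod_const]
  exact Nat.mul_le_mul_right _ (Nat.pow_le_pow_right (by omega) h3)

theorem pDIV : DIV := by
  obtain ⟨N, hN⟩ : ∃ N : ℕ, 1024 ≤ N := ⟨_, le_rfl⟩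
  obtain ⟨D, hD, h⟩ : ∃ D : ℕ, 1 ≤ D ∧ ∀ f : ℕ, f ≠ 0 → f.divisors.card ^ 10 ≤ D * f :=
    ⟨_, Nat.one_le_pow _ _ (by norm_num), dv_nat _ le_rfl N hN⟩
  have hD' : (1 : ℝ) ≤ D := by exact_mod_cast hD
  refine ⟨D, by linarith, fun f => ?_⟩
  rcases eq_or_ne f 0 with rfl | hf
  · simp
  have h1 : (f.divisors.card : ℝ) ^ 10 ≤ D * f := by exact_mod_cast h f hf
  refine le_of_pow_le_pow_left₀ (n := 2) (by norm_num) (by positivity) ?_
  rw [← pow_mul, mul_pow, Real.sq_sqrt (Nat.cast_nonneg f)]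
  exact h1.trans (mul_le_mul_of_nonneg_right (le_self_pow₀ hD' (by norm_num)) (Nat.cast_nonneg f))

theorem pLSF (hLSP : LSP) : LSF := by
  intro k f s hf hs
  induction f using induction_on_primes with
  | zero => simp at hf
  | one => simp
  | prime_mul p a hp ih =>
    obtain ⟨hp1, ha1⟩ := Nat.odd_mul.1 hf
    have hp2 : p ≠ 2 := by rintro rfl; exact absurd hp1 (by decide)
    have ha0 : a ≠ 0 := ha1.pos.ne'
    have e : k * ((p * a : ℕ) : ℤ) ^ 2 = k * (a : ℤ) ^ 2 * (p : ℤ) ^ 2 := by push_cast; ring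
    rw [e, hLSP.2.2.2.2.2 _ p s hp hp2 hs, ih ha1, Nat.primeFactors_mul hp.ne_zero ha0,
      hp.primeFactors, ← insert_eq]
    by_cases hpa : p ∣ a
    · have : jacobiSym (k * (a : ℤ) ^ 2) p = 0 := by
        refine jacobiSym.eq_zero_iff.2 ⟨hp.ne_zero, fun hg => ?_⟩
        have hd : (p : ℤ) ∣ k * (a : ℤ) ^ 2 :=
          Dvd.dvd.mul_left (dvd_pow (Int.natCast_dvd_natCast.2 hpa) (by norm_num)) k
        have := Int.dvd_gcd hd (dvd_refl (p : ℤ))
        rw [hg] at this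
        exact hp.one_lt.ne' (Nat.dvd_one.1 this)
      rw [insert_eq_of_mem (Nat.mem_primeFactors.2 ⟨hp, hpa, ha0⟩)]
      simp [jo, this]
    · have h1 : (a : ℤ).gcd p = 1 := by
        rw [Int.gcd_natCast_natCast]
        exact ((Nat.Prime.coprime_iff_not_dvd hp).2 hpa).symm
      have h2 : jo (k * (a : ℤ) ^ 2) p = jo k p := by
        unfold jo
        rw [jacobiSym.mul_left, jacobiSym.sq_one' h1, mul_one]
      rw [prod_insert fun h => hpa (Nat.dvd_of_mem_primeFactors h), h2]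
      ring

theorem do_exp (s z : ℂ) (h : |s.re - z.re| ≤ 3 / 2) :
    ‖cexp ((s - z) ^ 2)‖ ≤ Real.exp 3 * Real.exp (-|s.im - z.im| / 2) := by
  rw [Complex.norm_exp, ← Real.exp_add]
  refine Real.exp_le_exp.2 ?_
  have e : ((s - z) ^ 2).re = |s.re - z.re| ^ 2 - |s.im - z.im| ^ 2 := by
    rw [sq_abs, sq_abs, sq]; simp; ring
  rw [e]
  nlinarith [abs_nonneg (s.re - z.re), sq_nonneg (|s.im - z.im| - 1 / 4)]

theorem do_pt (hSH1 : SH1) (hLSP : LSP) (hLOP : LOP) (hLOB : LOB) (hDEC : DEC) : ∃ C : ℝ, 0 < C ∧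
    ∀ (k : ℤ) (ε τ : ℝ), Squarefree k → k ≠ 1 → 0 < ε → ε ≤ 1 / 100 →
      ‖Lo k (1 / 2 + ε + τ * I)‖ ^ 4 ≤ C / ε * (1 + Lw k τ) := by
  refine ⟨64 * Real.exp 3, by positivity, fun k ε τ h1 h2 hε hε1 => ?_⟩
  obtain ⟨z, hz⟩ : ∃ z : ℂ, z = 1 / 2 + ε + τ * I := ⟨_, rfl⟩
  have zr : z.re = 1 / 2 + ε := by simp [hz]
  have zi : z.im = τ := by simp [hz]
  rw [← hz]
  have hd := hLOP.2.1 k h1 h2
  obtain ⟨D, hD, hb⟩ := hDEC.2.1 5
  have hf : Differentiable ℂ fun s => Lo k s ^ 4 * cexp ((s - z) ^ 2) := by fun_prop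
  have hE := Real.exp_pos 3
  have key := hSH1 (1 / 2) 2 ((16 * |(k : ℝ)|) ^ 4 * Real.exp 3 * (D * br τ ^ 5)) _ z
    (by linarith) (by linarith) ⟨hf.continuous.continuousOn, hf.differentiableOn⟩ fun s hs => by
      obtain ⟨a1, a2⟩ := hs
      have b0 := tk2_br0 s.im
      have b1 : ‖s‖ ≤ 2 * br s.im := tw_nrm (by norm_num) (by rw [abs_le]; constructor <;> linarith)
      have b2 : ‖Lo k s‖ ≤ 16 * |(k : ℝ)| * br s.im := by
        refine (hLOB k s h1 h2 (by linarith)).trans ?_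
        calc _ ≤ 4 * |(k : ℝ)| * (2 * br s.im) / (1 / 2) := by gcongr
          _ = _ := by ring
      have b3 := do_exp s z (by rw [abs_le]; constructor <;> linarith)
      rw [zi] at b3
      rw [norm_mul, norm_pow, le_div_iff₀ b0]
      calc _ ≤ (16 * |(k : ℝ)| * br s.im) ^ 4 * (Real.exp 3 * Real.exp (-|s.im - τ| / 2)) *
            br s.im := by gcongr
        _ = (16 * |(k : ℝ)|) ^ 4 * Real.exp 3 * (Real.exp (-|s.im - τ| / 2) * br s.im ^ 5) := by ring
        _ ≤ _ := mul_le_mul_of_nonneg_left (hb _ _) (by positivity)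
  have hq : ∀ (c d : ℝ) (t : ℝ), 0 < d → d ≤ |c - z.re| → |c - z.re| ≤ 3 / 2 →
      ‖Lo k (c + t * I) ^ 4 * cexp ((c + t * I - z) ^ 2) / (c + t * I - z)‖ ≤
        Real.exp 3 / d * (Real.exp (-|t - τ| / 2) * ‖Lo k (c + t * I)‖ ^ 4) := by
    intro c d t d0 d1 d2
    have b3 := do_exp (c + t * I) z (by simpa using d2)
    have b4 : d ≤ ‖(c + t * I - z : ℂ)‖ :=
      d1.trans (by simpa using Complex.abs_re_le_norm (c + t * I - z))
    rw [zi] at b3
    simp only [add_im, ofReal_im, mul_im, ofReal_re, I_im, mul_one, I_re, mul_zero, add_zero,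
      zero_add] at b3
    rw [norm_div, norm_mul, norm_pow]
    calc _ ≤ ‖Lo k (c + t * I)‖ ^ 4 * (Real.exp 3 * Real.exp (-|t - τ| / 2)) / d := by gcongr
      _ = _ := by ring
  have i2 : ‖Iv 2 fun s => Lo k s ^ 4 * cexp ((s - z) ^ 2) / (s - z)‖ ≤ 64 * Real.exp 3 := by
    refine (norm_integral_le_of_norm_le ((hDEC.2.2.1 τ).1.const_mul (16 * Real.exp 3))
      (Filter.Eventually.of_forall fun t => ?_)).trans ?_
    · refine (hq 2 1 t one_pos (by rw [le_abs]; left; linarith)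
        (by rw [abs_le]; constructor <;> linarith)).trans ?_
      have b5 : ‖Lo k ((2 : ℝ) + t * I)‖ ≤ 2 := by
        rw [hLOP.1 k _ h1.ne_zero (by simp)]
        exact hLSP.2.2.1 k _ (by simp)
      calc _ ≤ Real.exp 3 / 1 * (Real.exp (-|t - τ| / 2) * 2 ^ 4) := by gcongr
        _ = _ := by ring
    · rw [integral_const_mul]
      nlinarith [(hDEC.2.2.1 τ).2]
  have i1 : ‖Iv (1 / 2) fun s => Lo k s ^ 4 * cexp ((s - z) ^ 2) / (s - z)‖ ≤
      Real.exp 3 / ε * Lw k τ := by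
    refine (norm_integral_le_of_norm_le ((tk2_int hLOP hLOB hDEC k h1 h2 τ).const_mul
      (Real.exp 3 / ε)) (Filter.Eventually.of_forall fun t => ?_)).trans
      (le_of_eq (integral_const_mul _ _))
    have := hq (1 / 2) ε t hε (by rw [le_abs]; right; linarith)
      (by rw [abs_le]; constructor <;> linarith)
    have e : ((1 / 2 : ℝ) : ℂ) = 1 / 2 := by push_cast; rfl
    rw [e] at this ⊢
    exact this
  have hL : 0 ≤ Lw k τ := integral_nonneg fun t => by positivity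
  have e1 := congrArg norm (eq_sub_of_add_eq' key.symm)
  simp only [sub_self, ne_eq, OfNat.ofNat_ne_zero, not_false_eq_true, zero_pow, exp_zero, mul_one,
    norm_mul, norm_pow, Complex.norm_ofNat, Complex.norm_real, Real.norm_of_nonneg Real.pi_pos.le] at e1
  have e2 := (e1.le.trans (norm_sub_le _ _)).trans (add_le_add i2 i1)
  have e3 : ‖Lo k z‖ ^ 4 ≤ 2 * π * ‖Lo k z‖ ^ 4 :=
    le_mul_of_one_le_left (by positivity) (by linarith [Real.pi_gt_three])
  have e4 : 64 * Real.exp 3 ≤ 64 * Real.exp 3 / ε := le_div_self (by positivity) hε (by linarith)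
  have e5 : Real.exp 3 / ε * Lw k τ ≤ 64 * Real.exp 3 / ε * Lw k τ := by gcongr; linarith
  rw [mul_add, mul_one]
  linarith

theorem pDO (hSH1 : SH1) (hLSP : LSP) (hLOP : LOP) (hLOB : LOB) (hDEC : DEC) (hTK2 : TK2)
    (hTRV : TRV) (hFOUR : FOUR) : DO := by
  obtain ⟨A, C, hC, h4⟩ := hFOUR
  obtain ⟨C1, hC1, h1⟩ := do_pt hSH1 hLSP hLOP hLOB hDEC
  obtain ⟨C2, hC2, h2⟩ := hTK2 A
  obtain ⟨C3, hC3, h3⟩ := tl_om hTRV
  refine ⟨A, C1 * (C3 + C2 * C), by positivity, fun ε K τ F hε hε1 hK hF => ?_⟩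
  have a1 := h2 K _ τ F (h4 K hK) hF
  have a2 := h3 K F hK hF
  have a3 : C3 * K * lg K ^ 10 ≤ C3 * K * lg K ^ 10 * br τ ^ A :=
    le_mul_of_one_le_right (by positivity) (one_le_pow₀ (tk2_br1 τ))
  calc _ ≤ ∑ k ∈ F, om (|(k : ℝ)| / K) * (C1 / ε * (1 + Lw k τ)) :=
        sum_le_sum fun k hk => mul_le_mul_of_nonneg_left
          (h1 k ε τ (hF k hk).1 (hF k hk).2 hε hε1) (tl_om0 (by positivity))
    _ = C1 / ε * (∑ k ∈ F, om (|(k : ℝ)| / K) + ∑ k ∈ F, om (|(k : ℝ)| / K) * Lw k τ) := by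
        rw [← sum_add_distrib, mul_sum]
        exact sum_congr rfl fun k _ => by ring
    _ ≤ C1 / ε * (C3 * K * lg K ^ 10 * br τ ^ A + C2 * (C * K * lg K ^ 10) * br τ ^ A) :=
        mul_le_mul_of_nonneg_left (add_le_add (a2.trans a3) a1) (by positivity)
    _ = _ := by ring

end Pool.Agent.Q4
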