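import Pool.Agent.P.MP_ea46f5_nt.Q4.FVDP

/-! Factors `1 + O(z ^ 8)` in the torus integral; sizes of the weight and of the zeta kernel. -/

namespace Pool.Agent.Q4

open Complex Finset Pool.Agent.QM

theorem pDROP (hO : ONB) : DROP := by
  intro r F e hr hF he
  have sub : Ann 4 r r ⊆ Pd 4 r := fun z hz i => (hz i).2
  have ne : ∀ z ∈ Ann 4 r r, ∀ i, z i ≠ 0 := fun z hz i =>
    norm_pos_iff.1 (hr.trans_le (hz i).1)
  have ce : ∀ j, ContinuousOn (fun z : V4 => e (z j)) (Ann 4 r r) := fun j z hz =>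
    ((he _ (hz j).2).continuousAt.comp (f := fun z : V4 => z j)
      (continuous_apply j).continuousAt).continuousWithinAt
  have cG : ∀ s : Finset (Fin 4), ContinuousOn
      (fun z => F z * (∏ j ∈ s, (1 + z j ^ 8 * e (z j))) / P8 z) (Ann 4 r r) := fun s =>
    ((hF.1.mono sub).mul (continuousOn_finsetProd _ fun j _ => continuousOn_const.add
      (((continuous_apply j).pow 8).continuousOn.mul (ce j)))).div
      (continuous_finsetProd _ fun j _ => (continuous_apply j).pow 8).continuousOn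
      fun z hz => prod_ne_zero_iff.2 fun j _ => pow_ne_zero _ (ne z hz j)
  have key : ∀ s : Finset (Fin 4), On r (fun z => F z * (∏ j ∈ s, (1 + z j ^ 8 * e (z j))) / P8 z) =
      On r fun z => F z / P8 z := fun s => by
    induction s using Finset.induction_on with
    | empty => simp only [prod_empty, mul_one]
    | insert i s hi ih =>
      rw [← ih, ← sub_eq_zero, ← hO.2.1 4 r _ _ hr (cG _) (cG _)]
      refine hO.2.2 4 r i _ hr ((cG _).sub (cG _)) fun z hz => ⟨fun w =>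
        F (Function.update z i w) * e w * ((∏ j ∈ s, (1 + z j ^ 8 * e (z j))) /
          ∏ j ∈ univ.erase i, z j ^ 8), fun w hw => ?_, fun w hw => ?_⟩
      · have h1 : ‖w‖ ≤ r := mem_closedBall_zero_iff.1 hw
        have h2 : Function.update z i w ∈ Pd 4 r := fun j => by
          rcases eq_or_ne j i with rfl | h
          · rwa [Function.update_self]
          · rw [Function.update_of_ne h]
            exact (hz j).2
        have h3 := hF.2 _ h2 i
        simp only [Function.update_idem, Function.update_self] at h3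
        exact ((h3.mul (he w h1)).mul_const _).differentiableWithinAt
      · have h0 : w ≠ 0 := norm_pos_iff.1 (hw ▸ hr)
        have h1 : ∏ j ∈ s, (1 + Function.update z i w j ^ 8 * e (Function.update z i w j)) =
            ∏ j ∈ s, (1 + z j ^ 8 * e (z j)) := prod_congr rfl fun j hj => by
          rw [Function.update_of_ne (ne_of_mem_of_not_mem hj hi)]
        have h2 : P8 (Function.update z i w) = w ^ 8 * ∏ j ∈ univ.erase i, z j ^ 8 := by
          rw [P8, ← mul_prod_erase _ _ (mem_univ i), Function.update_self]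
          exact congrArg _ (prod_congr rfl fun j hj => by
            rw [Function.update_of_ne (ne_of_mem_erase hj)])
        have h3 : ∏ j ∈ univ.erase i, z j ^ 8 ≠ 0 :=
          prod_ne_zero_iff.2 fun j _ => pow_ne_zero _ (ne z hz j)
        simp only [prod_insert hi, h1, h2, Function.update_self]
        field_simp
        ring
  exact key univ

theorem gb_ten {f : Fin 4 → Fin 4 → ℂ} {B : ℝ} (h : ∀ i j, ‖f i j‖ ≤ B) :
    ‖∏ i, ∏ j ∈ Ici i, f i j‖ ≤ B ^ 10 := by
  have hB : 0 ≤ B := (norm_nonneg _).trans (h 0 0)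
  rw [vd_ten]
  simp only [norm_mul]
  calc _ ≤ B * B * B * B * (B * B * B) * (B * B) * B := by gcongr <;> exact h _ _
    _ = _ := by ring

theorem gb_vd : Bn 6 fun u => Vd u := by
  simpa only [vd_four] using ((((bn_sub 1 0).mul (bn_sub 2 0)).mul (bn_sub 3 0)).mul
    ((bn_sub 2 1).mul (bn_sub 3 1))).mul (bn_sub 3 2)

theorem gb_gg (hG : GAM1) (hS : SH4) (a : ℕ) (c : Fin 3 → ℂ) (ha : a ≤ 1) :
    ∃ C : ℝ, 0 < C ∧ ∀ u : ℂ, -(1 / 4) ≤ u.re → u.re ≤ 13 →
      DifferentiableAt ℂ (gg a c) u ∧ ‖gg a c u‖ ≤ C * Real.exp (-(3 / 4) * u.im ^ 2) := by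
  obtain ⟨C₁, hC₁, h1⟩ := hG 0
  obtain ⟨C₂, hC₂, h2⟩ := hS.2.2 (1 / 4) 8 0 (by norm_num)
  have ha0 : (0 : ℝ) ≤ a := Nat.cast_nonneg a
  have ha1 : (a : ℝ) ≤ 1 := by exact_mod_cast ha
  refine ⟨4 * C₁ * (‖(Gammaℝ (1 / 2 + a))⁻¹‖ + 1) * Real.exp 169 *
    (5 * (1 + ‖c 0‖ + ‖c 1‖ + ‖c 2‖) * 13 ^ 8 * C₂), by positivity, fun u hu hu' => ⟨?_, ?_⟩⟩
  · have hd : DifferentiableAt ℂ Gammaℝ (1 / 2 + a + u) := by
      rw [funext Gammaℝ_def]
      refine DifferentiableAt.mul (DifferentiableAt.const_cpow (by fun_prop)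
        (Or.inl (ofReal_ne_zero.2 Real.pi_ne_zero))) ?_
      refine (differentiableAt_Gamma _ fun m h => ?_).comp _ (by fun_prop)
      have := congrArg re h
      simp at this
      have hm : (0 : ℝ) ≤ m := Nat.cast_nonneg m
      linarith
    have hd' : DifferentiableAt ℂ (gr a) u :=
      (hd.comp u (by fun_prop : DifferentiableAt ℂ (fun u : ℂ => 1 / 2 + a + u) u)).div_const _
    unfold gg
    fun_prop
  · have e : (1 / 2 + a + u : ℂ).re = 1 / 2 + a + u.re := by simp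
    have b1 : ‖gr a u‖ ≤ 4 * C₁ * (‖(Gammaℝ (1 / 2 + a))⁻¹‖ + 1) := by
      have a1 := h1 (1 / 2 + a + u) (by rw [e]; linarith) (by rw [e]; linarith)
      have a2 : 1 / 4 ≤ ‖(1 / 2 + a + u : ℂ)‖ := le_trans (by rw [e]; linarith) (re_le_norm _)
      rw [pow_zero, mul_one] at a1
      have a3 := a1.trans (div_le_div_of_nonneg_left hC₁.le (by norm_num) a2)
      unfold gr
      rw [div_eq_mul_inv, norm_mul]
      exact mul_le_mul (by linarith) (by linarith) (norm_nonneg _) (by positivity)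
    have b0 := vd_br u.im
    have hre : |u.re| ≤ 13 := abs_le.2 ⟨by linarith, hu'⟩
    obtain ⟨T, hT⟩ : ∃ T, T = 13 * br u.im := ⟨_, rfl⟩
    have hT1 : 1 ≤ T := by linarith
    have b2 : ‖u‖ ≤ T := by
      refine (norm_le_abs_re_add_abs_im u).trans ?_
      rw [hT, br]
      linarith [abs_nonneg u.im]
    have b3 : ∀ (x : ℂ) (n m : ℕ), n ≤ m → ‖x * u ^ n‖ ≤ ‖x‖ * T ^ m := fun x n m hn => by
      rw [norm_mul, norm_pow]
      exact mul_le_mul_of_nonneg_left ((pow_le_pow_left₀ (norm_nonneg _) b2 n).trans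
        (pow_le_pow_right₀ hT1 hn)) (norm_nonneg _)
    have b4 : ‖1 + c 0 * u ^ 2 + c 1 * u ^ 4 + c 2 * u ^ 6‖ ≤
        (1 + ‖c 0‖ + ‖c 1‖ + ‖c 2‖) * T ^ 6 := by
      have := norm_add₃_le (a := 1 + c 0 * u ^ 2) (b := c 1 * u ^ 4) (c := c 2 * u ^ 6)
      have h5 := norm_add_le (1 : ℂ) (c 0 * u ^ 2)
      rw [norm_one] at h5
      linarith [b3 (c 0) 2 6 (by norm_num), b3 (c 1) 4 6 (by norm_num), b3 (c 2) 6 6 le_rfl,
        one_le_pow₀ (n := 6) hT1]
    have b5 : ‖1 - 4 * u ^ 2‖ ≤ 5 * T ^ 2 := by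
      have h5 := norm_sub_le (1 : ℂ) (4 * u ^ 2)
      have h6 := b3 4 2 2 le_rfl
      rw [norm_one] at h5
      rw [Complex.norm_ofNat] at h6
      linarith [one_le_pow₀ (n := 2) hT1]
    have b6 : ‖cexp (u ^ 2)‖ ≤ Real.exp 169 * (Real.exp (-(1 / 4) * (u.im - 0) ^ 2) *
        Real.exp (-(3 / 4) * u.im ^ 2)) := by
      rw [norm_exp, ← Real.exp_add, ← Real.exp_add, Real.exp_le_exp, sq, mul_re]
      nlinarith [abs_le.1 hre]
    have b7 := (h2 u.im 0).2.1
    rw [pow_zero, div_one, show br 0 = 1 by simp [br], one_pow, mul_one] at b7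
    rw [gg, norm_mul, norm_mul, norm_mul]
    calc _ ≤ 4 * C₁ * (‖(Gammaℝ (1 / 2 + a))⁻¹‖ + 1) * (5 * T ^ 2 * (Real.exp 169 *
          (Real.exp (-(1 / 4) * (u.im - 0) ^ 2) * Real.exp (-(3 / 4) * u.im ^ 2)))) *
          ((1 + ‖c 0‖ + ‖c 1‖ + ‖c 2‖) * T ^ 6) := by gcongr
      _ = 4 * C₁ * (‖(Gammaℝ (1 / 2 + a))⁻¹‖ + 1) * Real.exp 169 *
          (5 * (1 + ‖c 0‖ + ‖c 1‖ + ‖c 2‖) * 13 ^ 8 *
            (br u.im ^ 8 * Real.exp (-(1 / 4) * (u.im - 0) ^ 2))) *
          Real.exp (-(3 / 4) * u.im ^ 2) := by rw [hT]; ring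
      _ ≤ _ := by gcongr

theorem pGGB (hG : GAM1) (hZ : ZT) (hS : SH4) : GGB := by
  obtain ⟨C, hC, h⟩ := hZ.2.2
  have hV := gb_vd.mul bn_vd
  refine ⟨gb_gg hG hS, fun u => ?_, 28 ^ 24 * C ^ 10, 64, by positivity, fun u hu => ?_⟩
  · refine ((hV.1 u).mul_const (16 : ℂ)⁻¹).mul ?_
    refine (HasFDerivAt.finsetProd fun i _ => DifferentiableAt.hasFDerivAt ?_).differentiableAt
    refine (HasFDerivAt.finsetProd fun j _ => DifferentiableAt.hasFDerivAt ?_).differentiableAt
    exact (differentiable_riemannZeta₁ _).comp u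
      (by fun_prop : DifferentiableAt ℂ (fun u : V4 => 1 + u i + u j) u)
  · have hg := vd_one u
    have h1 := hV.le (by norm_num) (u := u) fun j =>
      ⟨le_trans (by norm_num [cs]) (hu j).1, (hu j).2⟩
    have h2 : ‖∏ i, ∏ j ∈ Ici i, riemannZeta₁ (1 + u i + u j)‖ ≤ (C * gn 1 u ^ 4) ^ 10 := by
      refine gb_ten fun i j => (h _ (by simp only [add_re, one_re]; linarith [(hu i).1, (hu j).1])
        (by simp only [add_re, one_re]; linarith [(hu i).2, (hu j).2])).trans ?_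
      rw [add_assoc, add_im, one_im, zero_add, add_im]
      have h3 : br ((u i).im + (u j).im) ≤ gn 1 u * gn 1 u :=
        (vd_br_add _ _).trans (mul_le_mul (vd_le u i) (vd_le u j) (zero_le_one.trans (vd_br _))
          (by linarith))
      calc _ ≤ C * (gn 1 u * gn 1 u) ^ 2 := mul_le_mul_of_nonneg_left
            (pow_le_pow_left₀ (zero_le_one.trans (vd_br _)) h3 2) hC.le
        _ = _ := by ring
    change _ ≤ _ * gn 64 u
    rw [KZ4, norm_mul, norm_div, Complex.norm_ofNat, vd_gn 64]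
    rw [vd_gn 24] at h1
    calc _ ≤ 28 ^ 24 * gn 1 u ^ 24 * (C * gn 1 u ^ 4) ^ 10 :=
          mul_le_mul ((div_le_self (norm_nonneg _) (by norm_num)).trans h1) h2 (norm_nonneg _)
            (by positivity)
      _ = _ := by ring

end Pool.Agent.Q4
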