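import Pool.Agent.P.MP_ea46f5_nt.Q4.S4
import Pool.Agent.P.MP_ea46f5_nt.QM.FE0
import Pool.Agent.P.MP_ea46f5_nt.QM.FE1

namespace Pool.Agent.Q4

open Complex MeasureTheory Finset Pool.Agent.QM
open scoped Real ComplexConjugate

theorem e4_C4 (u : V4) : C4 u = po (u 0) * po (u 1) * (po (u 2) * po (u 3)) := by
  rw [C4, Fin.prod_univ_four, mul_assoc (po (u 0) * po (u 1))]

theorem e4_cf (χ : ℕ → ℂ) (hχ : ∀ a b, χ (a * b) = χ a * χ b) (u : V4) (A : V4)
    (h : ∀ j, HasSum (fun n => po (u j) n * χ n) (A j)) :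
    HasSum (fun n => C4 u n * χ n) (∏ j, A j) := by
  have h1 := e0_conv _ _ χ hχ _ _ (e0_conv _ _ χ hχ _ _ (h 0) (h 1))
    (e0_conv _ _ χ hχ _ _ (h 2) (h 3))
  rw [e4_C4, Fin.prod_univ_four, mul_assoc (A 0 * A 1)]
  exact h1

theorem e4_mult (u : V4) : (C4 u).IsMultiplicative := by
  rw [e4_C4]
  exact ((e0_po_mult _).mul (e0_po_mult _)).mul ((e0_po_mult _).mul (e0_po_mult _))

theorem e4_even (u : V4) (n : ℕ) (hn : ¬ Odd n) : C4 u n = 0 := by
  rw [e4_C4]
  exact e0_even _ _ (e0_even _ _ (e0_po_even _) (e0_po_even _))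
    (e0_even _ _ (e0_po_even _) (e0_po_even _)) n hn

theorem e4_bd (u : V4) (n : ℕ) (h : ∀ j, (u j).re = 12) :
    ‖C4 u n‖ ≤ (n : ℝ) ^ (-(19 / 2) : ℝ) := by
  rcases eq_or_ne n 0 with rfl | hn
  · rw [ArithmeticFunction.map_zero, norm_zero]
    exact Real.rpow_nonneg (Nat.cast_nonneg _) _
  have h1 := e0_bd _ _ _ (e0_bd _ _ _ (e0_po_bd _ (h 0)) (e0_po_bd _ (h 1)))
    (e0_bd _ _ _ (e0_po_bd _ (h 2)) (e0_po_bd _ (h 3))) n
  rw [e4_C4]
  refine le_trans h1 (Real.rpow_le_rpow_of_exponent_le ?_ (by norm_num))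
  exact_mod_cast Nat.pos_of_ne_zero hn

theorem e4_mul_cont (f g : V4 → ArithmeticFunction ℂ) (hf : ∀ n, Continuous fun x => f x n)
    (hg : ∀ n, Continuous fun x => g x n) (n : ℕ) : Continuous fun x => (f x * g x) n := by
  simp only [ArithmeticFunction.mul_apply]
  exact continuous_finsetSum _ fun p _ => (hf _).mul (hg _)

theorem e4_cont (n : ℕ) : Continuous fun u : V4 => C4 u n := by
  have h : ∀ (j : Fin 4) (n : ℕ), Continuous fun u : V4 => po (u j) n :=
    fun j n => (e0_po_cont n).comp (continuous_apply j)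
  simp only [e4_C4]
  exact e4_mul_cont (fun u => po (u 0) * po (u 1)) (fun u => po (u 2) * po (u 3))
    (e4_mul_cont (fun u => po (u 0)) (fun u => po (u 1)) (h 0) (h 1))
    (e4_mul_cont (fun u => po (u 2)) (fun u => po (u 3)) (h 2) (h 3)) n

theorem e4_five (hLSP : LSP) (m : ℤ) (u : V4) (h : ∀ j, (u j).re = 12) :
    HasSum (fun n : ℕ => C4 u n * (jacobiSym m n : ℂ)) (LL m u) := by
  have h1 := e4_cf (jo m) (e0_jo_mul m) u (fun j => LS m (1 / 2 + u j))
    fun j => e0_po_jo hLSP m (u j) (h j)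
  have h3 : (fun n : ℕ => C4 u n * (jacobiSym m n : ℂ)) = fun n => C4 u n * jo m n := by
    funext n
    by_cases hn : Odd n
    · rw [jo, if_pos hn]
    · rw [e4_even u n hn, zero_mul, zero_mul]
  rw [h3]
  exact h1

theorem e4_geom (s : ℂ) (p : ℕ) (y : ℂ) (hp : p.Prime) (h2 : p ≠ 2) (hs : 0 ≤ s.re)
    (hy : ‖y‖ ≤ 1) : HasSum (fun j : ℕ => po s (p ^ j) * y ^ j) (1 - y * xs s p)⁻¹ := by
  have hodd : Odd p := hp.odd_of_ne_two h2
  have hpo : ∀ j : ℕ, po s (p ^ j) = xs s p ^ j := by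
    intro j
    induction j with
    | zero => rw [pow_zero, pow_zero]; exact (e0_po_mult s).1
    | succ j ih => rw [pow_succ, pow_succ, e0_po_mul, ih, e0_po, if_pos hodd, xs]
  have hx : ‖xs s p‖ < 1 := by
    rw [xs, Complex.norm_natCast_cpow_of_pos hp.pos]
    refine Real.rpow_lt_one_of_one_lt_of_neg (by exact_mod_cast hp.one_lt) ?_
    have : (-(1 / 2 + s)).re = -(1 / 2 + s.re) := by simp
    rw [this]
    linarith
  have hn : ‖xs s p * y‖ < 1 := by
    rw [norm_mul]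
    exact lt_of_le_of_lt (mul_le_of_le_one_right (norm_nonneg _) hy) hx
  have h := hasSum_geometric_of_norm_lt_one hn
  rw [mul_comm y]
  simp only [hpo, ← mul_pow]
  exact h

theorem e4_six (u : V4) (p : ℕ) (y : ℂ) (hp : p.Prime) (h2 : p ≠ 2) (hu : ∀ j, 0 ≤ (u j).re)
    (hy : ‖y‖ ≤ 1) : HasSum (fun j : ℕ => C4 u (p ^ j) * y ^ j) (Fq u p y) := by
  rw [e0_restrict p hp y _ (fun n => C4 u n)]
  exact e4_cf (e0_chi p y) (e0_chi_mul p y) u (fun j => (1 - y * xs (u j) p)⁻¹) fun j =>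
    (e0_restrict p hp y _ (fun n => po (u j) n)).mp (e4_geom (u j) p y hp h2 (hu j) hy)

theorem pE04 (hLSP : LSP) : E04 :=
  ⟨e4_mult, e4_even, e4_bd, e4_cont, e4_five hLSP, e4_six⟩

theorem e4_summable (hE : E04) (hTKB : TKB) (P : Finset ℕ) (k : ℤ) {z : ℂ} {u : V4}
    (h0 : 0 ≤ z.re) (h6 : z.re ≤ 6) (hu : ∀ j, (u j).re = 12) :
    Summable fun n => ‖C4 u n * e1_W P (fun _ => 0) k z n‖ := by
  have hT0 : (0 : ℤ) ∈ T3 := by decide
  refine Summable.of_nonneg_of_le (fun _ => norm_nonneg _) (fun n => ?_)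
    (Real.summable_nat_rpow.2 (show (-(5 / 2) : ℝ) < -1 by norm_num))
  rcases eq_or_ne n 0 with rfl | hn
  · simp only [ArithmeticFunction.map_zero, zero_mul, norm_zero]; positivity
  · have hn0 : (0 : ℝ) < n := by exact_mod_cast Nat.pos_of_ne_zero hn
    rw [norm_mul]
    calc _ ≤ (n : ℝ) ^ (-(19 / 2) : ℝ) * (n : ℝ) ^ 7 := by
          gcongr
          · exact hE.2.2.1 u n hu
          · exact e1_W_le hTKB P (fun _ => hT0) k h0 h6 hn
      _ = _ := by
          rw [← Real.rpow_natCast, ← Real.rpow_add hn0]; norm_num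

theorem e4_euler (hE : E04) (hTKB : TKB) (P : Finset ℕ) (k : ℤ) {z : ℂ} {u : V4}
    (h0 : 0 ≤ z.re) (h6 : z.re ≤ 6) (hu : ∀ j, (u j).re = 12) :
    HasProd (fun p : Nat.Primes => if (p : ℕ) = 2 ∨ (p : ℕ) ∈ P then 1 else loc4 k z u p)
      (∑' n, C4 u n * e1_W P (fun _ => 0) k z n) := by
  have hm := hE.1 u
  have h := EulerProduct.eulerProduct_hasProd (f := fun n => C4 u n * e1_W P (fun _ => 0) k z n)
    (by simp [hm.map_one, e1_W])
    (fun {m n} hmn => by rw [hm.map_mul_of_coprime hmn, e1_W_mul P _ k z hmn]; ring)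
    (e4_summable hE hTKB P k h0 h6 hu) (by simp)
  refine h.congr_fun fun p => ?_
  simp only [e1_W_pow P _ k z p.2]
  by_cases hp : (p : ℕ) ∈ P
  · rw [if_pos (Or.inr hp), tsum_eq_single 0]
    · simp [hm.map_one, e1_g, hp]
    · intro e he
      simp [e1_g, hp, he]
  · by_cases hp2 : (p : ℕ) = 2
    · rw [if_pos (Or.inl hp2), tsum_eq_single 0]
      · simp [hm.map_one, e1_g, e1_t]
      · intro e he
        rw [hE.2.1 u _ (by
          rw [hp2, Nat.not_odd_iff_even]; exact (Nat.even_pow' he).2 even_two), zero_mul]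
    · rw [if_neg (not_or.2 ⟨hp2, hp⟩)]
      have hF := fun (y : ℤ) (hy : y ∈ T3) =>
        hE.2.2.2.2.2 u p (y : ℂ) p.2 hp2 (fun j => by rw [hu j]; norm_num) (e1_norm_T3 hy)
      have hl : loc4 k z u p = ∑ y ∈ T3, e1_m k z p y * Fq u p (y : ℂ) := by
        rw [e1_sumT3, e1_m, e1_m, e1_m, if_neg (show (-1 : ℤ) ≠ 0 by decide),
          if_pos (rfl : (0 : ℤ) = 0), if_neg (show (1 : ℤ) ≠ 0 by decide), loc4]
        have : Fq u p ((0 : ℤ) : ℂ) = 1 := by simp [Fq]
        rw [this]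
        push_cast
        ring
      rw [hl]
      simp only [e1_g, if_neg hp, e1_mom, mul_sum]
      refine (HasSum.tsum_eq (hasSum_sum fun y hy => ?_)).symm
      exact ((hF y hy).mul_left _).congr_fun fun e => by ring

theorem e4_W (a : ℕ) (ha : a ≠ 0) (k : ℤ) (z : ℂ) (n : ℕ) (hn : n ≠ 0) :
    e1_W a.primeFactors (fun _ => 0) k z n = if a.Coprime n then Tk k z n else 0 := by
  rw [e1_W_split]
  split_ifs with h
  · have hd := h.disjoint_primeFactors
    rw [sdiff_eq_self_of_disjoint hd.symm, ← e1_Tk k z n _ subset_rfl, prod_eq_one, one_mul]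
    intro p hp
    have : p ∉ n.primeFactors := disjoint_left.1 hd hp
    rw [← Nat.support_factorization, Finsupp.notMem_support_iff] at this
    rw [this, pow_zero]
  · obtain ⟨p, hp, hpa, hpn⟩ := Nat.Prime.not_coprime_iff_dvd.1 h
    rw [prod_eq_zero (Nat.mem_primeFactors.2 ⟨hp, hpa, ha⟩), zero_mul]
    rw [Int.cast_zero]
    exact zero_pow (hp.factorization_pos_of_dvd hn hpn).ne'

theorem pE4a (hTKB : TKB) (hE : E04) : E4a := by
  intro Y k z u h0 h6 hu
  refine ⟨?_, ?_⟩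
  · have h1 : ∀ a ∈ AY Y, HasSum (fun n => (ArithmeticFunction.moebius a : ℂ) * (a : ℂ) ^ (2 * z - 2) *
        (C4 u n * e1_W a.primeFactors (fun _ => 0) k z n))
        ((ArithmeticFunction.moebius a : ℂ) * (a : ℂ) ^ (2 * z - 2) *
          HP (loc4 k z u) (fun _ => 1) a) := by
      intro a ha
      have ha0 : a ≠ 0 := (mem_filter.1 ha).2.pos.ne'
      refine HasSum.mul_left _ ?_
      have h2 : HP (loc4 k z u) (fun _ => 1) a =
          ∑' n, C4 u n * e1_W a.primeFactors (fun _ => 0) k z n := by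
        rw [HP, prod_const_one, one_mul, ← (e4_euler hE hTKB a.primeFactors k h0 h6 hu).tprod_eq]
        refine tprod_congr fun p => if_congr (or_congr Iff.rfl ?_) rfl rfl
        exact ⟨fun h => Nat.mem_primeFactors.2 ⟨p.2, h, ha0⟩, Nat.dvd_of_mem_primeFactors⟩
      rw [h2]
      exact (e4_summable hE hTKB _ k h0 h6 hu).of_norm.hasSum
    refine ((hasSum_sum h1).congr_fun fun n => ?_).tsum_eq
    rcases eq_or_ne n 0 with rfl | hn
    · simp
    · rw [cY, sum_filter, sum_mul, mul_sum]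
      refine sum_congr rfl fun a ha => ?_
      rw [e4_W a (mem_filter.1 ha).2.pos.ne' k z n hn]
      split_ifs <;> ring
  · have h := (e4_euler hE hTKB ∅ k h0 h6 hu).multipliable
    simpa only [notMem_empty, or_false] using h

end Pool.Agent.Q4
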