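import Pool.Agent.P.MP_ea46f5_nt.Q4.S4
import Pool.Agent.P.MP_ea46f5_nt.QM.FE2

namespace Pool.Agent.Q4

open Complex MeasureTheory Finset Pool.Agent.QM
open scoped Real ComplexConjugate

lemma e4k_HP (y F : ℕ → ℂ) (w : Nat.Primes → ℂ) (W : ℂ) (C : ℝ) (a : ℕ) (ha : Odd a)
    (hW : HasProd w W) (h2 : ∀ p : Nat.Primes, (p : ℕ) = 2 → w p = 1)
    (hw : ∀ p : Nat.Primes, (p : ℕ) ≠ 2 → w p * F p = 1)
    (hC : ∀ p : ℕ, p.Prime → p ≠ 2 → ‖y p * F p - 1‖ ≤ C * (p : ℝ) ^ (-(11 / 10) : ℝ)) :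
    HP y (fun _ => 1) a = W * HP (fun p => y p * F p) F a := by
  have ha0 : a ≠ 0 := ha.pos.ne'
  have hn2 : ¬ (2 ∣ a) := ha.not_two_dvd_nat
  have hP : OP a.primeFactors := fun p hp =>
    ⟨Nat.prime_of_mem_primeFactors hp, fun e => hn2 (e ▸ Nat.dvd_of_mem_primeFactors hp)⟩
  have hs : Summable fun p : Nat.Primes =>
      ‖(if (p : ℕ) = 2 ∨ (p : ℕ) ∣ a then 1 else y p * F p) - 1‖ := by
    refine Summable.of_nonneg_of_le (fun _ => norm_nonneg _) (fun p => ?_)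
      ((Nat.Primes.summable_rpow.mpr (show (-(11 / 10) : ℝ) < -1 by norm_num)).mul_left |C|)
    have h0 : (0 : ℝ) ≤ ((p : ℕ) : ℝ) ^ (-(11 / 10) : ℝ) := by positivity
    split_ifs with h
    · simp only [sub_self, norm_zero]
      positivity
    · exact (hC p p.2 (fun e => h (Or.inl e))).trans
        (mul_le_mul_of_nonneg_right (le_abs_self C) h0)
  have hM : Multipliable fun p : Nat.Primes =>
      (if (p : ℕ) = 2 ∨ (p : ℕ) ∣ a then 1 else y p * F p) := by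
    simpa using multipliable_one_add_of_summable hs
  have hA := (hW.mul hM.hasProd).mul (e2_fin a.primeFactors hP F)
  have hB : HasProd (fun p : Nat.Primes =>
      if (p : ℕ) = 2 ∨ (p : ℕ) ∣ a then 1 else y p) _ := hA.congr_fun fun p => by
    by_cases e : (p : ℕ) = 2
    · have hn : (p : ℕ) ∉ a.primeFactors := fun h => (hP _ h).2 e
      rw [if_pos (Or.inl e), if_pos (Or.inl e), if_neg hn, h2 p e]
      simp
    · by_cases hp : (p : ℕ) ∣ a
      · have hm : (p : ℕ) ∈ a.primeFactors := Nat.mem_primeFactors.mpr ⟨p.2, hp, ha0⟩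
        rw [if_pos (Or.inr hp), if_pos (Or.inr hp), if_pos hm, mul_one, hw p e]
      · have hm : (p : ℕ) ∉ a.primeFactors := fun h => hp (Nat.dvd_of_mem_primeFactors h)
        have hn : ¬ ((p : ℕ) = 2 ∨ (p : ℕ) ∣ a) := fun h => h.elim e hp
        rw [if_neg hn, if_neg hn, if_neg hm, mul_one]
        linear_combination (-(y p)) * hw p e
  unfold HP
  rw [hB.tprod_eq, Finset.prod_const_one]
  ring

lemma e4k_HY (Y : ℕ) (z : ℂ) (y F : ℕ → ℂ) (w : Nat.Primes → ℂ) (W : ℂ) (C : ℝ)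
    (hW : HasProd w W) (h2 : ∀ p : Nat.Primes, (p : ℕ) = 2 → w p = 1)
    (hw : ∀ p : Nat.Primes, (p : ℕ) ≠ 2 → w p * F p = 1)
    (hC : ∀ p : ℕ, p.Prime → p ≠ 2 → ‖y p * F p - 1‖ ≤ C * (p : ℝ) ^ (-(11 / 10) : ℝ)) :
    HY Y z y (fun _ => 1) = W * HY Y z (fun p => y p * F p) F := by
  unfold HY
  rw [Finset.mul_sum]
  refine Finset.sum_congr rfl fun a ha => ?_
  rw [e4k_HP y F w W C a (Finset.mem_filter.mp ha).2 hW h2 hw hC]
  ring

lemma e4k_jo2 (k : ℤ) : jo k 2 = 0 := by simp [jo]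

lemma e4k_jo1 (p : ℕ) (hp : p.Prime) (h2 : p ≠ 2) : jo 1 p = 1 := by
  simp [jo, hp.odd_of_ne_two h2]

lemma e4k_ne (p : ℕ) (hp : p.Prime) (s : ℂ) (hs : 1 < s.re) : 1 - (p : ℂ) ^ (-s) ≠ 0 := by
  have := e2_ne p hp 1 s (by simp) (lt_trans zero_lt_one hs)
  rwa [one_mul] at this

lemma e4k_alg (a b : ℂ) (ha : a ≠ 0) (hb : b ≠ 0) : a⁻¹ * b * (a / b) = 1 := by
  field_simp

lemma e4k_alg1 (a b c : ℂ) (ha : a ≠ 0) (hb : b ≠ 0) (hc : c ≠ 0) :
    a⁻¹ * (b⁻¹ * c) * (a * b / c) = 1 := by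
  field_simp

theorem pE4k (hLSP : LSP) (hLOP : LOP) (hIZ : IZ) (hE4a : E4a) (hLOC4 : LOC4) : E4k := by
  intro Y k z s hk hz hz6 hs
  obtain ⟨C, -, hC⟩ := hLOC4
  have hsr : ∀ j, (s j).re = 25 / 2 - z.re := fun j => by
    have := hs j
    simp only [sh, add_re, sub_re] at this
    norm_num at this
    linarith
  have e1 : ∀ j, 1 + (sh z s j - z) = 1 / 2 + s j := fun j => by
    simp only [sh]
    ring
  have e2 : ∀ i j, 2 + (sh z s i - z) + (sh z s j - z) = 1 + s i + s j := fun i j => by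
    simp only [sh]
    ring
  have r1 : ∀ j, 1 < (1 / 2 + s j).re := fun j => by
    simp only [add_re, hsr j]
    norm_num
    linarith
  have r2 : ∀ i j, 1 < (1 + s i + s j).re := fun i j => by
    simp only [add_re, hsr, one_re]
    linarith
  have hV : ((z, sh z s) : ℂ × V4) ∈ Vk := by
    refine ⟨hz, by show z.re < 7; linarith, fun j => ⟨?_, ?_⟩⟩
    · show 1 / 6 < (sh z s j).re
      rw [hs j]
      norm_num
    · show -(11 / 20) < (sh z s j - z).re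
      rw [sub_re, hs j]
      linarith
  have hW := (hasProd_prod (s := (univ : Finset (Fin 4)))
    fun j _ => hLSP.2.1 k _ (r1 j)).mul
    (hasProd_prod (s := (univ : Finset (Fin 4))) fun i _ =>
      hasProd_prod (s := Ici i) fun j _ => hIZ.2.2 _ (r2 i j))
  rw [(hE4a Y k z (sh z s) (by linarith) hz6 hs).1,
    e4k_HY Y z _ (fk k z (sh z s)) _ _ C hW ?_ ?_
      (fun p hp h2 => ((hC p hp h2).1 k _ hV).1)]
  · unfold Hk IZ4
    rw [Finset.prod_congr rfl fun j _ => hLOP.1 k _ hk (r1 j)]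
  · intro p hp
    simp [hp, e4k_jo2]
  · intro p hp
    have n1 : (∏ j, (1 - jo k p * ((p : ℕ) : ℂ) ^ (-(1 / 2 + s j)))) ≠ 0 :=
      Finset.prod_ne_zero_iff.mpr fun j _ =>
        e2_ne p p.2 _ _ (e2_jo_norm k p) (lt_trans zero_lt_one (r1 j))
    have n2 : (∏ i, ∏ j ∈ Ici i, (1 - ((p : ℕ) : ℂ) ^ (-(1 + s i + s j)))) ≠ 0 :=
      Finset.prod_ne_zero_iff.mpr fun i _ => Finset.prod_ne_zero_iff.mpr fun j _ =>
        e4k_ne p p.2 _ (r2 i j)
    simp only [fk, e1, e2, if_neg hp, Finset.prod_inv_distrib]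
    exact e4k_alg _ _ n1 n2

theorem pE41 (hLSP : LSP) (hLOP : LOP) (hIZ : IZ) (hE4a : E4a) (hLOC4 : LOC4) : E41 := by
  intro Y z u hz hz6 hu
  obtain ⟨C, -, hC⟩ := hLOC4
  have r1 : ∀ j, 1 < (1 + (u j - z)).re := fun j => by
    simp only [add_re, sub_re, hu, one_re]
    linarith
  have r2 : ∀ i j, 1 < (1 + u i + u j).re := fun i j => by
    simp only [add_re, hu, one_re]
    norm_num
  have r3 : ∀ j, 1 < (1 + u j + z).re := fun j => by
    simp only [add_re, hu, one_re]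
    linarith
  have hV : ((z, u) : ℂ × V4) ∈ V1 := by
    refine ⟨by show -(1 / 40) < z.re; linarith, by show z.re < 7; linarith, fun j => ⟨?_, ?_⟩⟩
    · show -(1 / 40) < (u j).re
      rw [hu j]
      norm_num
    · show -(9 / 20) < (u j - z).re
      rw [sub_re, hu j]
      linarith
  have hW := (hasProd_prod (s := (univ : Finset (Fin 4)))
    fun j _ => hLSP.2.1 1 _ (r1 j)).mul
    ((hasProd_prod (s := (univ : Finset (Fin 4))) fun i _ =>
      hasProd_prod (s := Ici i) fun j _ => hLSP.2.1 1 _ (r2 i j)).mul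
    (hasProd_prod (s := (univ : Finset (Fin 4))) fun j _ => hIZ.2.2 _ (r3 j)))
  rw [(hE4a Y 1 z u hz hz6 hu).1,
    e4k_HY Y z _ (n1 z u) _ _ C hW ?_ ?_ (fun p hp h2 => ((hC p hp h2).2 _ hV).1)]
  · unfold Hone ZR ZO
    rw [Finset.prod_congr rfl fun j _ => hLOP.1 1 _ one_ne_zero (r1 j),
      Finset.prod_congr rfl fun i _ => Finset.prod_congr rfl fun j _ =>
        hLOP.1 1 _ one_ne_zero (r2 i j)]
  · intro p hp
    simp [hp, e4k_jo2]
  · intro p hp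
    have n1' : (∏ j, (1 - ((p : ℕ) : ℂ) ^ (-(1 + (u j - z))))) ≠ 0 :=
      Finset.prod_ne_zero_iff.mpr fun j _ => e4k_ne p p.2 _ (r1 j)
    have n2 : (∏ i, ∏ j ∈ Ici i, (1 - ((p : ℕ) : ℂ) ^ (-(1 + u i + u j)))) ≠ 0 :=
      Finset.prod_ne_zero_iff.mpr fun i _ => Finset.prod_ne_zero_iff.mpr fun j _ =>
        e4k_ne p p.2 _ (r2 i j)
    have n3 : (∏ j, (1 - ((p : ℕ) : ℂ) ^ (-(1 + u j + z)))) ≠ 0 :=
      Finset.prod_ne_zero_iff.mpr fun j _ => e4k_ne p p.2 _ (r3 j)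
    simp only [n1, e4k_jo1 p p.2 hp, one_mul, if_neg hp, Finset.prod_inv_distrib]
    exact e4k_alg1 _ _ _ n1' n2 n3

end Pool.Agent.Q4
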