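import Pool.Agent.P.MP_ea46f5_nt.Q4.FSDn

namespace Pool.Agent.Q4

open Complex MeasureTheory Finset
open scoped Real
open Pool.Agent.QM

theorem tm_cont {n : ℕ} (R : Fin n → ℝ) : Continuous (torusMap (0 : Fin n → ℂ) R) := by
  unfold torusMap; fun_prop

theorem tm_norm {n : ℕ} {R : Fin n → ℝ} (hR : ∀ i, 0 ≤ R i) (θ : Fin n → ℝ) (i : Fin n) :
    ‖torusMap (0 : Fin n → ℂ) R θ i‖ = R i := by
  simp [torusMap, abs_of_nonneg (hR i)]

theorem tor_integrable {n : ℕ} {R : Fin n → ℝ} {U : Set (Fin n → ℂ)} {G : (Fin n → ℂ) → ℂ}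
    (hG : ContinuousOn G U) (hU : ∀ θ, torusMap (0 : Fin n → ℂ) R θ ∈ U) :
    TorusIntegrable G 0 R :=
  (hG.comp_continuous (tm_cont R) hU).continuousOn.integrableOn_compact isCompact_Icc

theorem tm_ann {n : ℕ} {r : ℝ} (hr : 0 < r) (θ : Fin n → ℝ) :
    torusMap (0 : Fin n → ℂ) (fun _ => r) θ ∈ Ann n r r := fun i => by
  rw [tm_norm (fun _ => hr.le)]; exact ⟨le_rfl, le_rfl⟩

set_option backward.isDefEq.respectTransparency.types false in
/-- Fubini on the torus, coordinate `i` inside. -/
theorem tor_ins {n : ℕ} {f : (Fin (n + 1) → ℂ) → ℂ} {R : Fin (n + 1) → ℝ}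
    (hf : TorusIntegrable f 0 R) (i : Fin (n + 1)) :
    torusIntegral f 0 R =
      torusIntegral (fun y => ∮ x in C(0, R i), f (i.insertNth x y)) 0 (R ∘ i.succAbove) := by
  set e : ℝ × (Fin n → ℝ) ≃ᵐ (Fin (n + 1) → ℝ) :=
    (MeasurableEquiv.piFinSuccAbove (fun _ => ℝ) i).symm
  have hem : MeasurePreserving e :=
    (volume_preserving_piFinSuccAbove (fun _ : Fin (n + 1) => ℝ) i).symm _
  have heπ : (e ⁻¹' Set.Icc 0 fun _ => 2 * π) =
      Set.Icc 0 (2 * π) ×ˢ Set.Icc (0 : Fin n → ℝ) fun _ => 2 * π :=
    ((Fin.insertNthOrderIso (fun _ => ℝ) i).preimage_Icc _ _).trans (Set.Icc_prod_eq _ _)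
  have hint := hf.function_integrable
  rw [← hem.integrableOn_comp_preimage e.measurableEmbedding, heπ, IntegrableOn,
    Measure.volume_eq_prod, ← Measure.prod_restrict] at hint
  rw [torusIntegral, ← hem.map_eq, setIntegral_map_equiv, heπ, Measure.volume_eq_prod,
    ← Measure.prod_restrict]
  refine (integral_prod_symm _ hint).trans ?_
  rw [torusIntegral]
  refine setIntegral_congr_fun measurableSet_Icc fun Θ _ => ?_
  simp only [circleIntegral_def_Icc, ← integral_smul]
  refine setIntegral_congr_fun measurableSet_Icc fun θ _ => ?_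
  simp only [e, MeasurableEquiv.piFinSuccAbove_symm_apply, Function.comp_apply,
    Fin.insertNthEquiv, Equiv.coe_fn_mk, i.prod_univ_succAbove, i.insertNth_apply_same,
    i.insertNth_apply_succAbove, deriv_circleMap, smul_eq_mul, circleMap_zero]
  have : torusMap (0 : Fin (n + 1) → ℂ) R (i.insertNth θ Θ) =
      i.insertNth (R i * cexp (θ * I)) (torusMap 0 (R ∘ i.succAbove) Θ) := by
    funext j
    refine i.succAboveCases ?_ (fun j => ?_) j <;> simp [torusMap]
  rw [this]
  ring

theorem tor_congr {n : ℕ} {R : Fin n → ℝ} {f g : (Fin n → ℂ) → ℂ}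
    (h : ∀ θ, f (torusMap 0 R θ) = g (torusMap 0 R θ)) :
    torusIntegral f 0 R = torusIntegral g 0 R := by
  unfold torusIntegral
  simp only [h]

theorem On_congr {n : ℕ} {r : ℝ} (hr : 0 < r) {f g : (Fin n → ℂ) → ℂ}
    (h : ∀ z ∈ Ann n r r, f z = g z) : On r f = On r g := by
  unfold On
  rw [tor_congr fun θ => h _ (tm_ann hr θ)]

theorem On_const_mul {n : ℕ} (r : ℝ) (a : ℂ) (f : (Fin n → ℂ) → ℂ) :
    On r (fun z => a * f z) = a * On r f := by
  unfold On
  rw [torusIntegral_const_mul]
  ring

theorem ins_update {n : ℕ} (i : Fin (n + 1)) (x x' : ℂ) (y : Fin n → ℂ) :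
    (i.insertNth x y : Fin (n + 1) → ℂ) = Function.update (i.insertNth x' y) i x :=
  (Fin.update_insertNth (α := fun _ => ℂ) i x' x y).symm

theorem pONB : ONB := by
  refine ⟨fun n r M G hr h => ?_, fun n r G H hr hG hH => ?_, fun n r i G hr hG h => ?_⟩
  · unfold On
    rw [norm_mul, norm_inv, norm_pow, norm_I, one_pow, inv_one, one_mul]
    refine (norm_torusIntegral_le_of_norm_le_const fun θ => h _ (tm_ann hr θ)).trans (le_of_eq ?_)
    rw [Fin.prod_const, abs_of_pos hr, mul_pow (2 * π)]
  · unfold On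
    rw [torusIntegral_sub (tor_integrable hG (tm_ann hr)) (tor_integrable hH (tm_ann hr)), mul_sub]
  · cases n with
    | zero => exact i.elim0
    | succ n =>
      unfold On
      rw [tor_ins (tor_integrable hG (tm_ann hr)) i, tor_congr (g := fun _ => 0) fun θ => ?_]
      · simp [torusIntegral]
      have hz : (i.insertNth (r : ℂ) (torusMap 0 ((fun _ => r) ∘ i.succAbove) θ) :
          Fin (n + 1) → ℂ) ∈ Ann (n + 1) r r := by
        intro j
        refine i.succAboveCases ?_ (fun j => ?_) j
        · simp [abs_of_pos hr]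
        · rw [Fin.insertNth_apply_succAbove,
            tm_norm (R := (fun _ => r) ∘ i.succAbove) (fun _ => hr.le)]
          exact ⟨le_rfl, le_rfl⟩
      obtain ⟨g, hg, he⟩ := h _ hz
      rw [circleIntegral.integral_congr hr.le (g := g) fun w hw => ?_]
      · exact circleIntegral_eq_zero_of_differentiable_on_off_countable hr.le Set.countable_empty
          hg.continuousOn fun w hw => hg.differentiableAt
            (Filter.mem_of_superset (Metric.isOpen_ball.mem_nhds hw.1) Metric.ball_subset_closedBall)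
      · rw [← he w (by simpa using hw), ← ins_update]

theorem pRAD : RAD := by
  intro n r r' G hr hle hG
  unfold On
  congr 1
  refine one_at_a_time (a := fun _ => r) (b := fun _ => r') (fun R => torusIntegral G 0 R)
    (fun R i x hR h1 h2 => ?_) (fun _ => ⟨le_rfl, hle⟩) fun _ => ⟨hle, le_rfl⟩
  have hmem : ∀ R : Fin n → ℝ, (∀ j, r ≤ R j ∧ R j ≤ r') →
      ∀ θ, torusMap (0 : Fin n → ℂ) R θ ∈ Ann n r r' := fun R hR θ j => by
    rw [tm_norm fun j => hr.le.trans (hR j).1]; exact hR j
  have hup : ∀ x : ℝ, r ≤ x → x ≤ r' →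
      ∀ j, r ≤ Function.update R i x j ∧ Function.update R i x j ≤ r' := by
    intro x h1 h2 j
    rcases eq_or_ne j i with rfl | h
    · simpa using ⟨h1, h2⟩
    · simpa [h] using hR j
  cases n with
  | zero => exact i.elim0
  | succ n =>
    have e : ∀ x : ℝ, r ≤ x → x ≤ r' →
        torusIntegral G 0 (Function.update R i x) = torusIntegral G 0 (Function.update R i r) := by
      intro x h1 h2
      have hc : ∀ x : ℝ, Function.update R i x ∘ i.succAbove = R ∘ i.succAbove := fun x => by
        funext j; simp [Fin.succAbove_ne]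
      rw [tor_ins (tor_integrable hG.1 (hmem _ (hup x h1 h2))) i,
        tor_ins (tor_integrable hG.1 (hmem _ (hup r le_rfl hle))) i, hc, hc]
      refine tor_congr fun θ => ?_
      simp only [Function.update_self]
      set y := torusMap (0 : Fin n → ℂ) (R ∘ i.succAbove) θ with hy
      have hm : ∀ w : ℂ, r ≤ ‖w‖ → ‖w‖ ≤ x →
          Function.update (i.insertNth (0 : ℂ) y : Fin (n + 1) → ℂ) i w ∈ Ann (n + 1) r r' := by
        intro w g1 g2 j
        refine i.succAboveCases ?_ (fun j => ?_) j
        · simpa using ⟨g1, g2.trans h2⟩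
        · rw [Function.update_of_ne (Fin.succAbove_ne i j), Fin.insertNth_apply_succAbove, hy,
            tm_norm (R := R ∘ i.succAbove) fun j => hr.le.trans (hR _).1]
          exact hR _
      have hiu : (fun w : ℂ => G (i.insertNth w y)) =
          fun w => G (Function.update (i.insertNth (0 : ℂ) y : Fin (n + 1) → ℂ) i w) :=
        funext fun w => by rw [← ins_update]
      rw [hiu]
      refine circleIntegral_eq_of_differentiable_on_annulus_off_countable hr h1 Set.countable_empty
        (fun w hw => ?_) fun w hw => ?_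
      · exact (hG.line _ i (hm w (by simpa using hw.2)
          (by simpa using hw.1))).continuousAt.continuousWithinAt
      · refine hG.line _ i (hm w ?_ ?_)
        · have := hw.1.2
          simp only [Metric.mem_closedBall, dist_zero_right, not_le] at this
          exact this.le
        · have := hw.1.1
          simp only [Metric.mem_ball, dist_zero_right] at this
          exact this.le
    change torusIntegral G 0 _ = torusIntegral G 0 R
    rw [e x h1 h2, ← e (R i) (hR i).1 (hR i).2, Function.update_eq_self]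

end Pool.Agent.Q4
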