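import Pool.Agent.P.MP_ea46f5_nt.Q4.K1m
import Pool.Agent.P.MP_ea46f5_nt.Q4.FONB

namespace Pool.Agent.Q4

open Complex MeasureTheory Finset
open scoped Real
open Pool.Agent.QM

theorem en_mul {n : ℕ} {U : Set (Fin n → ℂ)} {F G : (Fin n → ℂ) → ℂ} (h : Sep U F) (h' : Sep U G) :
    Sep U fun s => F s * G s := ⟨h.1.mul h'.1, fun s hs i => (h.2 s hs i).mul (h'.2 s hs i)⟩

theorem en_us (u : V4) : (1 + us u).re = 1 + (∑ j, (u j).re) / 2 := by simp [us]

theorem en_ne {u : V4} (h : ∀ j, -(1 / 10) ≤ (u j).re) : 1 / 2 ≤ ‖1 + us u‖ := by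
  refine le_trans ?_ (re_le_norm _)
  rw [en_us, Fin.sum_univ_four]
  linarith [h 0, h 1, h 2, h 3]

theorem en_W {X : ℝ} (hX : 0 < X) (b : ℂ) {u : V4} (h : ∀ j, -(1 / 10) ≤ (u j).re) :
    DifferentiableAt ℂ (fun u : V4 => ((X : ℂ) ^ (1 + us u) - b) / (1 + us u)) u :=
  k1_ddiv ((DifferentiableAt.const_cpow (by unfold us; fun_prop)
    (.inl (ofReal_ne_zero.2 hX.ne'))).sub_const b) (by unfold us; fun_prop)
    (norm_pos_iff.1 (lt_of_lt_of_le (by norm_num) (en_ne h)))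

theorem en_P8 {m : ℝ} (hm : 0 < m) {u : V4} (h : ∀ j, m ≤ ‖u j‖) : (m ^ 8) ^ 4 ≤ ‖P8 u‖ := by
  rw [P8, norm_prod]
  calc _ = ∏ _j : Fin 4, m ^ 8 := by simp
    _ ≤ _ := prod_le_prod (fun _ _ => by positivity) fun j _ => by
      rw [norm_pow]; exact pow_le_pow_left₀ hm.le (h j) 8

theorem en_inv {m : ℝ} (hm : 0 < m) {U : Set V4} (h : ∀ u ∈ U, ∀ j, m ≤ ‖u j‖) :
    Sep U fun u => (P8 u)⁻¹ := k1_sep fun u hu =>
  DifferentiableAt.inv (by unfold P8; fun_prop)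
    (norm_pos_iff.1 (lt_of_lt_of_le (by positivity) (en_P8 hm (h u hu))))

theorem en_G (hA : A4H) (hG : GGB) {a : ℕ} (ha : a ≤ 1) (c : Fin 3 → ℂ) : ∃ M : ℝ, 0 < M ∧
    ∀ X : ℝ, 1 ≤ X → Sep (Box (fun _ => -(1 / 10)) fun _ => 12) (fun u : V4 =>
      (X : ℂ) ^ (1 + us u) / (1 + us u) * (KZ4 u * Aprod 4 u * ∏ j, gg a c (u j))) ∧
    ∀ u ∈ Box (fun _ => -(1 / 10)) fun _ : Fin 4 => 12,
      ‖(X : ℂ) ^ (1 + us u) / (1 + us u) * (KZ4 u * Aprod 4 u * ∏ j, gg a c (u j))‖ ≤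
        M * X * dk u * Real.exp (Real.log X / 2 * ∑ j, (u j).re) := by
  obtain ⟨a1, ⟨A, a2⟩, -⟩ := hA
  obtain ⟨g1, g2, K, N, hK, g3⟩ := hG
  obtain ⟨B, hB, g1⟩ := g1 a c ha
  obtain ⟨D, hD, h4⟩ := pDEC.2.1 (N + 2)
  have hA0 : 0 ≤ A := (norm_nonneg _).trans (a2 0 fun _ => by norm_num)
  refine ⟨2 * (K * (A + 1) * (B * 3 * D) ^ 4), by positivity, fun X hX => ⟨?_, fun u hu => ?_⟩⟩
  · refine en_mul (k1_sep fun u hu => ?_) (en_mul (en_mul (k1_sep fun u _ => g2 u)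
      (a1.mono fun u hu j => lt_of_lt_of_le (by norm_num) (hu j).1))
      (k1_sep fun u hu => k1_dprod fun j _ => ?_))
    · simpa only [sub_zero] using en_W (by linarith : 0 < X) 0 fun j => (hu j).1
    · exact (g1 _ (le_trans (by norm_num) (hu j).1) ((hu j).2.trans (by norm_num))).1.comp u
        (f := fun u : V4 => u j) (by fun_prop)
  · have hX0 : 0 < X := by linarith
    have b1 : ‖(X : ℂ) ^ (1 + us u) / (1 + us u)‖ ≤
        2 * X * Real.exp (Real.log X / 2 * ∑ j, (u j).re) := by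
      rw [norm_div, norm_cpow_eq_rpow_re_of_pos hX0, en_us, Real.rpow_add hX0, Real.rpow_one,
        Real.rpow_def_of_pos hX0]
      refine (div_le_div_of_nonneg_left (by positivity) (by norm_num)
        (en_ne fun j => (hu j).1)).trans (le_of_eq ?_)
      ring_nf
    have hu' : ∀ j, -(1 / 4) ≤ (u j).re ∧ (u j).re ≤ 13 := fun j =>
      ⟨le_trans (by norm_num) (hu j).1, (hu j).2.trans (by norm_num)⟩
    have b2 := g3 u hu'
    have b3 : ‖Aprod 4 u‖ ≤ A + 1 :=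
      (a2 u fun j => lt_of_lt_of_le (by norm_num) (hu j).1).trans (by linarith)
    have b4 : (∏ j, br (u j).im ^ N) * ‖∏ j, gg a c (u j)‖ ≤ (B * 3 * D) ^ 4 * dk u := by
      rw [norm_prod, ← prod_mul_distrib, dk,
        show (B * 3 * D) ^ 4 = ∏ _j : Fin 4, B * 3 * D by simp, ← prod_mul_distrib]
      refine prod_le_prod (fun j _ => by have := sh_br_pos (u j).im; positivity) fun j _ => ?_
      have h0 := sh_br_pos (u j).im
      have h1 := h4 (u j).im 0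
      have h2 : Real.exp (-(3 / 4) * (u j).im ^ 2) ≤ 3 * Real.exp (-|(u j).im - 0| / 2) := by
        calc _ ≤ Real.exp (1 + -|(u j).im - 0| / 2) := by
              refine Real.exp_le_exp.2 ?_
              rw [sub_zero, ← sq_abs]
              nlinarith [sq_nonneg (|(u j).im| - 1)]
          _ ≤ _ := by
              rw [Real.exp_add]
              gcongr
              exact Real.exp_one_lt_d9.le.trans (by norm_num)
      rw [show br 0 = 1 by simp [br], one_pow, mul_one] at h1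
      rw [mul_one_div, le_div_iff₀ (by positivity)]
      calc _ ≤ br (u j).im ^ N * (B * (3 * Real.exp (-|(u j).im - 0| / 2))) * br (u j).im ^ 2 := by
            gcongr
            exact (g1 _ (hu' j).1 (hu' j).2).2.trans (by gcongr)
        _ = B * 3 * (Real.exp (-|(u j).im - 0| / 2) * br (u j).im ^ (N + 2)) := by ring
        _ ≤ _ := by gcongr
    have p : 0 ≤ ∏ j, br (u j).im ^ N := prod_nonneg fun j _ => (pow_pos (sh_br_pos _) _).le
    have b5 : ‖KZ4 u * Aprod 4 u * ∏ j, gg a c (u j)‖ ≤ K * (A + 1) * ((B * 3 * D) ^ 4 * dk u) :=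
      calc _ ≤ K * (∏ j, br (u j).im ^ N) * (A + 1) * ‖∏ j, gg a c (u j)‖ :=
            norm_mul_le_of_le (norm_mul_le_of_le b2 b3) le_rfl
        _ = K * (A + 1) * ((∏ j, br (u j).im ^ N) * ‖∏ j, gg a c (u j)‖) := by ring
        _ ≤ _ := by gcongr
    exact (norm_mul_le_of_le b1 b5).trans (le_of_eq (by ring))

theorem pENDP (hS : SDn) (hT : TOR) (hO : ONB) (hD : DROP) (hY : TAY) (hA : A4H) (hP : PH0)
    (hQ : QINT) (hG : GGB) : ENDP := by
  intro a ha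
  obtain ⟨r₁, c₁, c₂, c₃, e, hr₁, hY⟩ := hY a ha (fun u => (1 - 4 * u ^ 2) * cexp (u ^ 2))
    (by fun_prop) (fun u => by simp) (by simp)
  obtain ⟨r₂, hr₂, -, hP⟩ := hP a ha
  obtain ⟨T, hT0, hT⟩ := hT 4 8
  set c : Fin 3 → ℂ := ![c₁, c₂, c₃] with hc
  obtain ⟨M, hM, hG⟩ := en_G hA hG ha c
  refine ⟨c, min (min r₁ r₂) (1 / 50), by positivity, fun r hr hr' => ?_⟩
  have h1 : r ≤ r₁ := hr'.trans ((min_le_left _ _).trans (min_le_left _ _))
  have h2 : r ≤ r₂ := hr'.trans ((min_le_left _ _).trans (min_le_right _ _))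
  have h3 : r ≤ 1 / 50 := hr'.trans (min_le_right _ _)
  have hP' : Sep (Pd 4 r) (Ph0 a) := hP.mono fun z hz j => (hz j).trans h2
  set κ : ℂ := 3 / π ^ 2 * (24 * π ^ 4 : ℂ)⁻¹ with hκ
  set K : ℂ := On r fun z => 1 / (1 + us z) * Ph0 a z / P8 z with hK
  refine ⟨‖κ‖ * (T * M / r ^ (8 * 4) + ‖K‖), 1, fun X σ hX h0 h12 => ?_⟩
  have hX0 : 0 < X := by linarith
  have hL : 0 ≤ Real.log X / 2 := by have := Real.log_nonneg hX; positivity
  obtain ⟨G1, G2⟩ := hG X hX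
  set G : V4 → ℂ := fun u => (X : ℂ) ^ (1 + us u) / (1 + us u) *
    (KZ4 u * Aprod 4 u * ∏ j, gg a c (u j)) with hGd
  set m := min σ (1 / 40) with hm
  have hm0 : 0 < m := by positivity
  have hsub : Box (fun _ : Fin 4 => m) (fun _ => 12) ⊆ Box (fun _ => -(1 / 10)) fun _ => 12 :=
    fun u hu j => ⟨le_trans (by linarith) (hu j).1, (hu j).2⟩
  have hmn : ∀ u ∈ Box (fun _ : Fin 4 => m) (fun _ => 12), ∀ j, m ≤ ‖u j‖ := fun u hu j =>
    (hu j).1.trans (re_le_norm _)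
  have e1 : In (fun _ => σ) (fun u => G u / P8 u) = In (fun _ => 1 / 40) fun u => G u / P8 u := by
    refine hS 4 (fun _ => m) (fun _ => 12) _ _
      (M * X * Real.exp (Real.log X / 2 * 48) / (m ^ 8) ^ 4) _
      (fun _ => ⟨min_le_left _ _, h12⟩) (fun _ => ⟨min_le_right _ _, by norm_num⟩)
      (en_mul (G1.mono hsub) (en_inv hm0 hmn)) fun u hu => ?_
    have := dk_pos u
    rw [norm_div, div_mul_eq_mul_div]
    refine div_le_div₀ (by positivity) ((G2 u (hsub hu)).trans ?_) (by positivity)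
      (en_P8 hm0 (hmn u hu))
    rw [mul_right_comm]
    gcongr
    rw [Fin.sum_univ_four]
    linarith [(hu 0).2, (hu 1).2, (hu 2).2, (hu 3).2]
  have hsub' : Box (fun _ : Fin 4 => -(1 / 10)) (fun _ => 1 / 40) ⊆
      Box (fun _ => -(1 / 10)) fun _ => 12 := fun u hu j => ⟨(hu j).1, (hu j).2.trans (by norm_num)⟩
  have e2 := hT r (1 / 40) (1 / 10) (Real.log X / 2) (M * X) G hr (by linarith) (by linarith)
    (by linarith) hL (by positivity) (G1.mono hsub') fun u hu => G2 u (hsub' hu)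
  have hre : ∀ z ∈ Pd 4 r, ∀ j, -(1 / 10) ≤ (z j).re := fun z hz j => by
    have := (abs_le.1 ((abs_re_le_norm (z j)).trans (hz j))).1
    linarith
  have hF : ∀ b : ℂ, Sep (Pd 4 r) fun z => ((X : ℂ) ^ (1 + us z) - b) / (1 + us z) * Ph0 a z :=
    fun b => en_mul (k1_sep fun z hz => en_W hX0 b (hre z hz)) hP'
  have hAP : Ann 4 r r ⊆ Pd 4 r := fun z hz j => (hz j).2
  have hc' : ∀ b : ℂ, ContinuousOn
      (fun z => ((X : ℂ) ^ (1 + us z) - b) / (1 + us z) * Ph0 a z / P8 z) (Ann 4 r r) := fun b =>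
    (en_mul ((hF b).mono hAP) (en_inv hr fun z hz j => (hz j).1)).1
  have e3 : On r (fun u => G u / P8 u) =
      On r fun z => ((X : ℂ) ^ (1 + us z) - 0) / (1 + us z) * Ph0 a z / P8 z := by
    rw [← hD r _ e hr (hF 0) fun w hw => (hY w (hw.trans h1)).2.1]
    refine On_congr hr fun z hz => ?_
    have : ∀ j, gg a c (z j) = Xh a (z j) * (1 + z j ^ 8 * e (z j)) := fun j =>
      (hY (z j) ((hz j).2.trans h1)).2.2
    simp only [hGd, this, prod_mul_distrib, Ph0]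
    ring
  have e4 : (On r fun z => ((X : ℂ) ^ (1 + us z) - 0) / (1 + us z) * Ph0 a z / P8 z) -
      (On r fun z => ((X : ℂ) ^ (1 + us z) - 1) / (1 + us z) * Ph0 a z / P8 z) = K := by
    rw [← hO.2.1 4 r _ _ hr (hc' 0) (hc' 1)]
    exact On_congr hr fun z _ => by ring
  have e5 := hQ a r X hr (by linarith) hX hP'
  have hπ : (π : ℂ) ≠ 0 := ofReal_ne_zero.2 Real.pi_ne_zero
  have e6 : MT a c σ X - 3 * X / π ^ 2 * Qm 4 a r X = κ *
      ((In (fun _ => 1 / 40) (fun u => G u / P8 u) - On r fun u => G u / P8 u) + K) := by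
    rw [show (3 * X / π ^ 2 * Qm 4 a r X : ℂ) = 3 / π ^ 2 * (X * Qm 4 a r X) by ring, e5, ← e1,
      e3, ← e4, hκ, MT]
    generalize (On r fun z => ((X : ℂ) ^ (1 + us z) - 1) / (1 + us z) * Ph0 a z / P8 z) = x
    generalize (On r fun z => ((X : ℂ) ^ (1 + us z) - 0) / (1 + us z) * Ph0 a z / P8 z) = y
    generalize (In (fun _ => σ) fun u => G u / P8 u) = w
    field_simp
    ring
  rw [e6, norm_mul, mul_assoc]
  refine mul_le_mul_of_nonneg_left ((norm_add_le _ _).trans ?_) (norm_nonneg _)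
  rw [add_mul]
  refine add_le_add (e2.trans (le_of_eq ?_)) (le_mul_of_one_le_right (norm_nonneg _) hX)
  norm_num
  ring

end Pool.Agent.Q4
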