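import Pool.Agent.P.MP_ea46f5_nt.Q4.EXa
import Pool.Agent.P.MP_ea46f5_nt.QM.FTC1

/-! The two Poisson formulas with parameters. -/

namespace Pool.Agent.Q4

open Complex MeasureTheory Finset Pool.Agent.QM
open scoped Real ComplexConjugate

theorem sg_sum {σ : ℤ → ℝ} (h : SG σ) (g : ℝ → ℝ) :
    Summable fun κ : SF => g (σ κ) * |((κ : ℤ) : ℝ)| ^ (-σ κ) := by
  obtain ⟨-, K, hK⟩ := h
  refine Summable.of_norm_bounded_eventually ((((Real.summable_abs_int_rpow (b := 6)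
    (by norm_num)).mul_left |g 6|)).subtype fun k => Squarefree k) ?_
  rw [Filter.eventually_cofinite]
  refine ((Set.finite_Icc (-⌈K⌉) ⌈K⌉).preimage Subtype.val_injective.injOn).subset fun κ hκ => ?_
  by_contra hc
  apply hκ
  have h1 : K < |((κ : ℤ) : ℝ)| := by
    by_contra h2
    have h3 : |(κ : ℤ)| ≤ ⌈K⌉ := by exact_mod_cast (not_lt.1 h2).trans (Int.le_ceil K)
    exact hc (abs_le.1 h3)
  rw [hK κ h1, norm_mul, Real.norm_of_nonneg (Real.rpow_nonneg (abs_nonneg _) _)]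
  exact le_rfl

theorem cY_one (z : ℂ) (n : ℕ) : cY 1 z n = 1 := by
  have : AY 1 = {1} := by decide
  simp [cY, this, filter_singleton]

theorem pog (hP1 : P1) (hP2 : P2) (hTKB : TKB) (hKZ : KZ) {W : V4 → ℂ} {X M : ℝ} {σ : ℤ → ℝ}
    (hX : 0 < X) (hσ : SG σ) (hc : Continuous fun t : R4 => W (pt (cs 12) t))
    (hb : ∀ t : R4, ‖W (pt (cs 12) t)‖ ≤ M * dk (pt (cs 12) t)) :
    PoD 1 (fun m u => (GX X m : ℂ) * W u) (fun u => X * W u) (KG X W) σ := by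
  obtain ⟨C, hC, H⟩ := hKZ 2
  have hG : ∀ m, 0 ≤ GX X m := fun m => (Real.exp_pos _).le
  refine ⟨hσ.1, fun t n hn => ?_, fun m => continuous_const.mul hc,
    ⟨fun m => GX X m * M, (hP2 X 1 hX odd_one).1.mul_right M, fun m t => ?_⟩,
    continuous_const.mul hc, ⟨X * M, fun t => ?_⟩, fun κ => ?_,
    ⟨fun κ => X * (C * (1 + 1 / (σ κ - 1 / 2)) * X ^ (-σ κ)) * M * |((κ : ℤ) : ℝ)| ^ (-σ κ),
      sg_sum hσ fun s => X * (C * (1 + 1 / (s - 1 / 2)) * X ^ (-s)) * M, fun κ y t => ?_⟩⟩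
  · have h := (hP1 X n σ hX hn hσ.1).mul_left (W (pt (cs 12) t))
    have e : W (pt (cs 12) t) * ((Sg X n - X * T0 n : ℝ) : ℂ) =
        (∑' m : ℤ, (GX X m : ℂ) * W (pt (cs 12) t) * (jacobiSym m n : ℂ)) -
          X * W (pt (cs 12) t) * (cY 1 0 n * Tk 1 0 n) := by
      rw [cY_one, hTKB.1 n hn, ofReal_sub, Sg, ofReal_tsum, mul_sub, ← tsum_mul_left]
      push_cast
      congr 1
      · exact tsum_congr fun m => by ring
      · ring
    rw [← e]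
    refine h.congr_fun fun κ => ?_
    simp only [KG, cY_one, Ak, Iv]
    rw [mul_left_comm (X : ℂ), mul_left_comm (W _), ← integral_const_mul (X : ℂ),
      ← integral_const_mul (W _)]
    congr 2
    funext y
    ring
  · rw [norm_mul, norm_real, Real.norm_of_nonneg (hG m), mul_assoc]
    exact mul_le_mul_of_nonneg_left (hb t) (hG m)
  · rw [norm_mul, norm_real, Real.norm_of_nonneg hX.le, mul_assoc]
    exact mul_le_mul_of_nonneg_left (hb t) hX.le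
  · have h1 := hσ.1 κ
    have hk : (((|((κ : ℤ) : ℝ)| * X : ℝ)) : ℂ) ≠ 0 :=
      ofReal_ne_zero.2 (mul_pos (abs_pos.2 (by exact_mod_cast κ.2.ne_zero)) hX).ne'
    have h2 : Continuous fun y : ℝ => Kz κ X (σ κ + y * I) := by
      refine continuous_iff_continuousAt.2 fun y => ContinuousAt.comp (g := Kz κ X)
        (f := fun y : ℝ => (σ κ + y * I : ℂ)) ?_ (by fun_prop)
      have h3 : 2 * (σ κ + y * I : ℂ) ≠ 1 := fun h => by
        have := congrArg re h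
        simp at this
        linarith [h1.1]
      exact ((((tc1_gamma (by simp; linarith [h1.1])).div_const 2).mul
        ((differentiableAt_riemannZeta h3).comp _ (differentiableAt_id.const_mul 2))).mul
        (differentiableAt_id.neg.const_cpow (Or.inl hk))).continuousAt
    exact (continuous_const.mul (h2.comp continuous_fst)).mul (hc.comp continuous_snd)
  · have h1 := hσ.1 κ
    have hk : 0 < |((κ : ℤ) : ℝ)| := abs_pos.2 (by exact_mod_cast κ.2.ne_zero)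
    have h2 := (H (σ κ + y * I)).2.1 (by simp; linarith [h1.1]) (by simp; linarith [h1.2])
    have e1 : (σ κ + y * I : ℂ).re = σ κ := by simp
    have e2 : (σ κ + y * I : ℂ).im = y := by simp
    rw [e1, e2] at h2
    have h3 : ‖Gammaℝ (σ κ + y * I) / 2 * riemannZeta (2 * (σ κ + y * I))‖ ≤
        C * (1 + 1 / (σ κ - 1 / 2)) / br y ^ 2 := by
      rw [div_mul_eq_mul_div, norm_div]
      exact (div_le_self (norm_nonneg _) (by simp)).trans h2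
    have h4 := (norm_nonneg _).trans h3
    rw [KG, Kz, norm_mul, norm_mul, norm_mul, norm_real, Real.norm_of_nonneg hX.le,
      norm_cpow_eq_rpow_re_of_pos (mul_pos hk hX), neg_re, e1, Real.mul_rpow hk.le hX.le]
    refine (mul_le_mul (mul_le_mul_of_nonneg_left (mul_le_mul_of_nonneg_right h3 (by positivity))
      hX.le) (hb t) (norm_nonneg _) (by positivity)).trans (le_of_eq ?_)
    ring

theorem cl_ne {τ r m : ℤ} (h : Cl τ r m) : m ≠ 0 := by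
  rintro rfl
  simpa using h.1

theorem cl_sq {τ r k : ℤ} {a : ℕ} (ha : Odd a) : Cl τ r ((a : ℤ) ^ 2 * k) ↔ Cl τ r k := by
  have h0 : (0 : ℤ) < (a : ℤ) ^ 2 := by have := ha.pos; positivity
  obtain ⟨l, rfl⟩ := ha
  obtain ⟨d, hd⟩ := Int.even_mul_succ_self (l : ℤ)
  have e : ((2 * l + 1 : ℕ) : ℤ) ^ 2 * k = k + 8 * (d * k) := by
    push_cast; linear_combination 4 * k * hd
  unfold Cl
  rw [mul_left_comm, mul_pos_iff_of_pos_left h0, e, Int.add_mul_emod_self_left]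

theorem sY_le (Y : ℕ) (m : ℤ) : ‖(sY Y m : ℂ)‖ ≤ (AY Y).card := by
  rw [sY, Int.cast_sum]
  refine (norm_sum_le _ _).trans ((sum_le_card_nsmul _ _ 1 fun a _ => norm_mu_le a).trans ?_)
  rw [nsmul_one]
  exact_mod_cast card_filter_le _ _

theorem br_div (M t : ℝ) (hM : 0 ≤ M) {a b : ℕ} (h : a ≤ b) : M / br t ^ b ≤ M / br t ^ a := by
  have := sh_br_one t
  exact div_le_div_of_nonneg_left hM (by positivity) (pow_le_pow_right₀ this h)

theorem ome_M {Ω : ℂ → V4 → ℂ} {M : ℝ} (hΩ : OmE Ω M) : 0 ≤ M := by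
  have h1 := (norm_nonneg _).trans (hΩ 0 ⟨by simp, by simp⟩ 0).2
  simpa [br] using nonneg_of_mul_nonneg_left h1 (dk_pos _)

theorem ka_C {E : ℤ → ℂ → ℂ} {C : ℝ} (hK : KA E C) : 0 ≤ C := by
  have := (norm_nonneg _).trans (hK.2.1 1 0 one_ne_zero (by simp) (by simp))
  simpa [br] using this

theorem ome_c {Ω : ℂ → V4 → ℂ} {M : ℝ} (hΩ : OmE Ω M) {X : Type} [TopologicalSpace X] {w : X → ℂ}
    {t : X → R4} (hw : Continuous w) (ht : Continuous t) (h : ∀ x, w x ∈ Strip (-5) 2) :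
    Continuous fun x => Ω (w x) (pt (cs 12) (t x)) :=
  continuous_iff_continuousAt.2 fun x => ContinuousAt.comp
    (g := fun x : ℂ × V4 => Ω x.1 x.2) (f := fun x => (w x, pt (cs 12) (t x)))
    (hΩ _ (h x) _).1.continuousAt (hw.prodMk ((pt_cont _).comp ht)).continuousAt

theorem sg_mem {σ : ℤ → ℝ} (hσ : SG σ) (κ : ℤ) (y : ℝ) :
    (1 - (σ κ + y * I) : ℂ) ∈ Strip (-5) 2 := by
  have := hσ.1 κ
  constructor <;> simp <;> linarith [this.1, this.2]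

theorem two_mem (y : ℝ) : (((2 : ℝ) : ℂ) + y * I) ∈ Strip (-5) 2 :=
  sh_mem y (by norm_num) le_rfl

theorem one_mem5 : (1 : ℂ) ∈ Strip (-5) 2 := ⟨by simp; norm_num, by simp⟩

theorem poc_cK (hKDB : KDB) {E : ℤ → ℂ → ℂ} {C M : ℝ} {Ω : ℂ → V4 → ℂ} {σ : ℤ → ℝ} (hK : KA E C)
    (hΩ : OmE Ω M) (hσ : SG σ) (κ : SF) :
    Continuous fun x : ℝ × R4 => KP E Ω κ (σ κ + x.1 * I) (pt (cs 12) x.2) := by
  obtain ⟨⟨D, hD, hKd⟩, -⟩ := hKDB
  have h1 := hσ.1 κ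
  have h2 : Continuous fun y : ℝ => Kd E κ (σ κ + y * I) :=
    continuous_iff_continuousAt.2 fun y => ContinuousAt.comp (g := Kd E κ)
      (f := fun y : ℝ => (σ κ + y * I : ℂ)) (hKd E C κ _ hK κ.2.ne_zero (by simp; linarith [h1.1])
        (by simp; linarith [h1.2])).1.continuousAt (by fun_prop)
  have h3 : Continuous fun x : ℝ × R4 => Ω (1 - (σ κ + x.1 * I)) (pt (cs 12) x.2) :=
    ome_c hΩ (w := fun x : ℝ × R4 => (1 - (σ κ + x.1 * I) : ℂ)) (t := fun x : ℝ × R4 => x.2)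
      (by fun_prop) continuous_snd fun x => sg_mem hσ κ x.1
  have h4 : Continuous fun x : ℝ × R4 => Kd E κ (σ κ + x.1 * I) :=
    Continuous.comp (g := fun y : ℝ => Kd E κ (σ κ + y * I)) (f := fun x : ℝ × R4 => x.1) h2
      continuous_fst
  exact h3.mul h4

theorem poc_bK (hKDB : KDB) {E : ℤ → ℂ → ℂ} {C M : ℝ} {Ω : ℂ → V4 → ℂ} {σ : ℤ → ℝ} (hK : KA E C)
    (hΩ : OmE Ω M) (hσ : SG σ) : ∃ D : ℝ, ∀ (κ : SF) (y : ℝ) (t : R4),
    ‖KP E Ω κ (σ κ + y * I) (pt (cs 12) t)‖ ≤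
      M * (D * C * (1 + 1 / (σ κ - 1 / 2))) * |((κ : ℤ) : ℝ)| ^ (-σ κ) / br y ^ 2 *
        dk (pt (cs 12) t) := by
  obtain ⟨⟨D, hD, hKd⟩, -⟩ := hKDB
  have hM := ome_M hΩ
  have hC := ka_C hK
  refine ⟨D, fun κ y t => ?_⟩
  have h1 := hσ.1 κ
  have h2 := (hKd E C κ (σ κ + y * I) hK κ.2.ne_zero (by simp; linarith [h1.1])
    (by simp; linarith [h1.2])).2
  have h3 := (hΩ _ (sg_mem hσ κ y) t).2
  have e1 : (σ κ + y * I : ℂ).re = σ κ := by simp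
  have e2 : (σ κ + y * I : ℂ).im = y := by simp
  have e3 : br (1 - (σ κ + y * I) : ℂ).im = br y := by simp [br]
  have h4 : 0 < 1 / (σ κ - 1 / 2) := one_div_pos.2 (by linarith [h1.1])
  have h5 := sh_br_one y
  have h6 := dk_pos (pt (cs 12) t)
  rw [e1, e2] at h2
  rw [e3] at h3
  rw [KP, norm_mul]
  refine (mul_le_mul h3 h2 (norm_nonneg _) (by positivity)).trans (le_trans (le_of_eq ?_)
    (mul_le_mul_of_nonneg_right (br_div _ y (by positivity) (by norm_num : 2 ≤ 3)) h6.le))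
  field_simp

/-- The weight of `m`. -/
noncomputable def pJ (Ω : ℂ → V4 → ℂ) (m : ℤ) (t : R4) : ℂ :=
  1 / (2 * π) * Iv 2 fun w => Ω w (pt (cs 12) t) * ((|(m : ℝ)| : ℝ) : ℂ) ^ (-w)

theorem poc_bI {Ω : ℂ → V4 → ℂ} {M : ℝ} (hΩ : OmE Ω M) {m : ℤ} (hm : m ≠ 0) (t : R4) (y : ℝ) :
    ‖Ω ((2 : ℝ) + y * I) (pt (cs 12) t) * ((|(m : ℝ)| : ℝ) : ℂ) ^ (-((2 : ℝ) + y * I : ℂ))‖ ≤
      M * |(m : ℝ)| ^ (-2 : ℝ) * dk (pt (cs 12) t) * (1 / br y ^ 2) := by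
  have hM := ome_M hΩ
  have h3 := (hΩ _ (two_mem y) t).2
  have e2 : (((2 : ℝ) : ℂ) + y * I).im = y := by simp
  rw [e2] at h3
  rw [norm_mul, norm_cpow_eq_rpow_re_of_pos (abs_pos.2 (by exact_mod_cast hm)),
    show (-((2 : ℝ) + y * I : ℂ)).re = -2 by simp]
  refine (mul_le_mul_of_nonneg_right (h3.trans (mul_le_mul_of_nonneg_right
    (br_div M y hM (by norm_num : 2 ≤ 14)) (dk_pos _).le)) (by positivity)).trans (le_of_eq ?_)
  ring

theorem poc_bJ {Ω : ℂ → V4 → ℂ} {M : ℝ} (hΩ : OmE Ω M) {m : ℤ} (hm : m ≠ 0) (t : R4) :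
    ‖pJ Ω m t‖ ≤ ‖(1 / (2 * π) : ℂ)‖ * (∫ y : ℝ, 1 / br y ^ 2) * M *
      |(m : ℝ)| ^ (-2 : ℝ) * dk (pt (cs 12) t) := by
  have := norm_integral_le_of_norm_le ((sh_int_maj 1).const_mul _)
    (Filter.Eventually.of_forall (poc_bI hΩ hm t))
  rw [integral_const_mul] at this
  rw [pJ, norm_mul]
  refine (mul_le_mul_of_nonneg_left this (norm_nonneg _)).trans (le_of_eq ?_)
  ring

theorem poc_cJ {Ω : ℂ → V4 → ℂ} {M : ℝ} (hΩ : OmE Ω M) {m : ℤ} (hm : m ≠ 0) :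
    Continuous (pJ Ω m) := by
  have hM := ome_M hΩ
  refine continuous_const.mul (continuous_of_dominated
    (F := fun (t : R4) (y : ℝ) => Ω ((2 : ℝ) + y * I) (pt (cs 12) t) *
      ((|(m : ℝ)| : ℝ) : ℂ) ^ (-((2 : ℝ) + y * I : ℂ)))
    (bound := fun y => M * |(m : ℝ)| ^ (-2 : ℝ) * 1 * (1 / br y ^ 2)) (fun t => ?_)
    (fun t => Filter.Eventually.of_forall fun y => (poc_bI hΩ hm t y).trans ?_)
    ((sh_int_maj 1).const_mul _) (Filter.Eventually.of_forall fun y => ?_))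
  · have h1 : Continuous fun y : ℝ => Ω ((2 : ℝ) + y * I) (pt (cs 12) t) :=
      ome_c hΩ (w := fun y : ℝ => (((2 : ℝ) : ℂ) + y * I)) (t := fun _ : ℝ => t) (by fun_prop)
        continuous_const two_mem
    exact (h1.mul (Continuous.const_cpow (by fun_prop)
      (Or.inl (ofReal_ne_zero.2 (abs_ne_zero.2 (by exact_mod_cast hm)))))).aestronglyMeasurable
  · have := sh_br_one y
    gcongr
    exact dk_le_one _
  · have h1 : Continuous fun t : R4 => Ω ((2 : ℝ) + y * I) (pt (cs 12) t) :=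
      ome_c hΩ (w := fun _ : R4 => (((2 : ℝ) : ℂ) + y * I)) (t := fun t : R4 => t) continuous_const
        continuous_id fun _ => two_mem y
    exact h1.mul continuous_const

theorem poc_h1 {τ r : ℤ} {E : ℤ → ℂ → ℂ} {M : ℝ} {Ω : ℂ → V4 → ℂ} {σ : ℤ → ℝ} (hP : PDI τ r E)
    (hΩ : OmE Ω M) (hσ : SG σ) (t : R4) {n a : ℕ} (hn : Odd n) (ha : 0 < a) :
    HasSum (fun κ : SF => 1 / (2 * π) * Iv (σ κ) fun z => Ω (1 - z) (pt (cs 12) t) *
      (a : ℂ) ^ (-(2 * (1 - z))) * Kd E κ z * Tk κ z n)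
      ((∑' k : CL τ r, (jacobiSym k n : ℂ) * (1 / (2 * π) * Iv 2 fun w => Ω w (pt (cs 12) t) *
        (a : ℂ) ^ (-(2 * w)) * ((|((k : ℤ) : ℝ)| : ℝ) : ℂ) ^ (-w))) -
        Ω 1 (pt (cs 12) t) * (a : ℂ) ^ (-(2 * 1 : ℂ)) * (T0 n : ℂ) / 8) := by
  have hM := ome_M hΩ
  refine hP n (fun w => Ω w (pt (cs 12) t) * (a : ℂ) ^ (-(2 * w))) (M * (a : ℝ) ^ 10) σ hn ?_
    (fun w hw => ?_) hσ.1
  · have h2 : ∀ w ∈ Strip (-5) 2, DifferentiableAt ℂ (fun w => Ω w (pt (cs 12) t) *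
        (a : ℂ) ^ (-(2 * w))) w := fun w hw =>
      (DifferentiableAt.comp (g := fun x : ℂ × V4 => Ω x.1 x.2)
        (f := fun w => (w, pt (cs 12) t)) w (hΩ w hw t).1 (by fun_prop)).mul
        (DifferentiableAt.const_cpow (by fun_prop) (Or.inl (by exact_mod_cast ha.ne')))
    exact ⟨fun w hw => (h2 w hw).continuousAt.continuousWithinAt,
      fun w hw => (h2 w ⟨hw.1.le, hw.2.le⟩).differentiableWithinAt⟩
  · have h5 := sh_br_one w.im
    have h6 : (a : ℝ) ^ (-(2 * w)).re ≤ (a : ℝ) ^ 10 := by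
      rw [← Real.rpow_natCast]
      refine Real.rpow_le_rpow_of_exponent_le (Nat.one_le_cast.2 ha) ?_
      have := hw.1
      simp
      linarith
    rw [norm_mul, norm_natCast_cpow_of_pos ha, mul_div_right_comm]
    exact mul_le_mul ((hΩ w hw t).2.trans (mul_le_of_le_one_right (by positivity) (dk_le_one _)))
      h6 (by positivity) (by positivity)

open Classical in
theorem poc_h2 {τ r : ℤ} {M : ℝ} {Ω : ℂ → V4 → ℂ} (hΩ : OmE Ω M) (t : R4) {n a : ℕ} (ho : Odd a)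
    (hc : a.Coprime n) : HasSum (fun m : ℤ => if Cl τ r m ∧ (a : ℤ) ^ 2 ∣ m then
      (jacobiSym m n : ℂ) * pJ Ω m t else 0)
      (∑' k : CL τ r, (jacobiSym k n : ℂ) * pJ Ω ((a : ℤ) ^ 2 * k) t) := by
  have hs2 := Real.summable_abs_int_rpow (b := 2) one_lt_two
  have h0 : (a : ℤ) ^ 2 ≠ 0 := pow_ne_zero _ (by exact_mod_cast ho.pos.ne')
  have hinj : Function.Injective fun k : CL τ r => (a : ℤ) ^ 2 * k := fun k l h =>
    Subtype.ext (mul_left_cancel₀ h0 h)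
  have h1 : Summable fun k : CL τ r => |(((a : ℤ) ^ 2 * k : ℤ) : ℝ)| ^ (-2 : ℝ) :=
    hs2.comp_injective hinj
  have h2 : Summable fun k : CL τ r => (jacobiSym k n : ℂ) * pJ Ω ((a : ℤ) ^ 2 * k) t := by
    refine Summable.of_norm_bounded (h1.mul_left
      (‖(1 / (2 * π) : ℂ)‖ * (∫ y : ℝ, 1 / br y ^ 2) * M * dk (pt (cs 12) t))) fun k => ?_
    rw [norm_mul]
    refine (mul_le_of_le_one_left (norm_nonneg _) (ex_jac _ _)).trans
      ((poc_bJ hΩ (mul_ne_zero h0 (cl_ne k.2)) t).trans (le_of_eq ?_))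
    ring
  refine (hinj.hasSum_iff ?_).1 (h2.hasSum.congr_fun fun k => ?_)
  · intro m hm
    exact if_neg fun ⟨h4, k, hk⟩ => hm ⟨⟨k, (cl_sq ho).1 (hk ▸ h4)⟩, hk.symm⟩
  · rw [Function.comp, if_pos ⟨(cl_sq ho).2 k.2, dvd_mul_right _ _⟩, jacobiSym.mul_left,
      jacobiSym.sq_one' (a := a) (b := n) hc, one_mul]

theorem poc_h3 {τ r : ℤ} {M : ℝ} {Ω : ℂ → V4 → ℂ} (Y : ℕ) (hΩ : OmE Ω M) (t : R4) {n : ℕ}
    (hn : Odd n) : HasSum (fun m : ℤ => ac τ r Y Ω m (pt (cs 12) t) * (jacobiSym m n : ℂ))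
      (∑ a ∈ (AY Y).filter fun a => a.Coprime n, (ArithmeticFunction.moebius a : ℂ) *
        ∑' k : CL τ r, (jacobiSym k n : ℂ) * pJ Ω ((a : ℤ) ^ 2 * k) t) := by
  classical
  refine (hasSum_sum fun a ha => (poc_h2 (τ := τ) (r := r) hΩ t
    (mem_filter.1 (mem_filter.1 ha).1).2 (mem_filter.1 ha).2).mul_left
      (ArithmeticFunction.moebius a : ℂ)).congr_fun fun m => ?_
  by_cases hm : Cl τ r m
  · simp only [ac, hm, if_true, true_and, sY, Int.cast_sum]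
    rw [sum_filter (s := AY Y), sum_filter (p := fun a : ℕ => a.Coprime n), sum_mul, sum_mul]
    refine sum_congr rfl fun a _ => ?_
    by_cases h5 : (a : ℤ) ^ 2 ∣ m
    · by_cases h6 : a.Coprime n
      · rw [if_pos h6, if_pos h5, if_pos h5, pJ]
        ring
      · obtain ⟨k, rfl⟩ := h5
        have : jacobiSym a n = 0 := by
          have : NeZero n := ⟨hn.pos.ne'⟩
          exact jacobiSym.eq_zero_iff_not_coprime.2 h6
        simp [h6, jacobiSym.mul_left, jacobiSym.pow_left, this]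
    · simp [h5]
  · simp [ac, hm]

theorem poc_pow {a : ℕ} (ha : 0 < a) (k : ℤ) (w : ℂ) :
    ((|(((a : ℤ) ^ 2 * k : ℤ) : ℝ)| : ℝ) : ℂ) ^ (-w) =
      (a : ℂ) ^ (-(2 * w)) * ((|(k : ℝ)| : ℝ) : ℂ) ^ (-w) := by
  rw [show |(((a : ℤ) ^ 2 * k : ℤ) : ℝ)| = ((a * a : ℕ) : ℝ) * |(k : ℝ)| by
    push_cast; rw [abs_mul, abs_pow, sq_abs, sq], ofReal_mul,
    mul_cpow_ofReal_nonneg (by positivity) (abs_nonneg _), ofReal_natCast, Nat.cast_mul,
    natCast_mul_natCast_cpow, ← cpow_add _ _ (by exact_mod_cast ha.ne')]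
  congr 2
  ring

theorem poc_h4 (hTKB : TKB) (hKDB : KDB) {E : ℤ → ℂ → ℂ} {C M : ℝ} {Ω : ℂ → V4 → ℂ}
    {σ : ℤ → ℝ} (Y : ℕ) (hK : KA E C) (hΩ : OmE Ω M) (hσ : SG σ) (t : R4) {n : ℕ} (hn : Odd n)
    (κ : SF) :
    (1 / (2 * π) * Iv (σ κ) fun z => KP E Ω κ z (pt (cs 12) t) * (cY Y z n * Tk κ z n)) =
      ∑ a ∈ (AY Y).filter fun a => a.Coprime n, (ArithmeticFunction.moebius a : ℂ) *
        (1 / (2 * π) * Iv (σ κ) fun z => Ω (1 - z) (pt (cs 12) t) *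
          (a : ℂ) ^ (-(2 * (1 - z))) * Kd E κ z * Tk κ z n) := by
  obtain ⟨D, bK⟩ := poc_bK hKDB hK hΩ hσ
  set S := (AY Y).filter fun a => a.Coprime n with hS
  have hpos : ∀ a ∈ S, 0 < a := fun a ha => AY_pos (mem_filter.1 ha).1
  have h7 := hσ.1 κ
  have c1 : Continuous fun y : ℝ => KP E Ω κ (σ κ + y * I) (pt (cs 12) t) :=
    Continuous.comp (g := fun x : ℝ × R4 => KP E Ω κ (σ κ + x.1 * I) (pt (cs 12) x.2))
      (f := fun y : ℝ => (y, t)) (poc_cK hKDB hK hΩ hσ κ) (by fun_prop)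
  have c2 : Continuous fun y : ℝ => Tk κ (σ κ + y * I) n :=
    Continuous.comp (g := fun z : ℂ => Tk κ z n) (f := fun y : ℝ => (σ κ + y * I : ℂ))
      (hTKB.2.2.1 κ n) (by fun_prop)
  have iK : Integrable fun y : ℝ => KP E Ω κ (σ κ + y * I) (pt (cs 12) t) *
      Tk κ (σ κ + y * I) n := by
    refine Integrable.mul_bdd (c := (n : ℝ) ^ 7) (((sh_int_maj _).mul_const _).mono'
      c1.aestronglyMeasurable (Filter.Eventually.of_forall fun y => bK κ y t))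
      c2.aestronglyMeasurable
      (Filter.Eventually.of_forall fun y => hTKB.2.1 κ _ n ?_ ?_ hn.pos.ne') <;>
    · simp
      linarith [h7.1, h7.2]
  have iA : ∀ a ∈ S, Integrable fun y : ℝ => (ArithmeticFunction.moebius a : ℂ) *
      (KP E Ω κ (σ κ + y * I) (pt (cs 12) t) * Tk κ (σ κ + y * I) n *
        (a : ℂ) ^ (2 * (σ κ + y * I) - 2 : ℂ)) := fun a ha =>
    (iK.mul_bdd (c := (a : ℝ) ^ (2 * σ κ - 2)) (Continuous.const_cpow (by fun_prop)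
      (Or.inl (by exact_mod_cast (hpos a ha).ne'))).aestronglyMeasurable
      (Filter.Eventually.of_forall fun y => by
        rw [norm_natCast_cpow_of_pos (hpos a ha)]
        simp)).const_mul _
  simp only [mul_left_comm (ArithmeticFunction.moebius _ : ℂ), ← mul_sum, Iv]
  congr 1
  simp only [← integral_const_mul]
  refine Eq.trans ?_ ((integral_finsetSum S iA).trans (sum_congr rfl fun a _ => ?_))
  · congr 1
    funext y
    rw [cY, sum_mul, mul_sum]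
    exact sum_congr rfl fun a _ => by ring
  · congr 1
    funext y
    rw [KP, show (2 * (σ κ + y * I) - 2 : ℂ) = -(2 * (1 - (σ κ + y * I))) by ring]
    ring

theorem poc_id (hTKB : TKB) (hKDB : KDB) {τ r : ℤ} {E : ℤ → ℂ → ℂ} {C M : ℝ} {Ω : ℂ → V4 → ℂ}
    {σ : ℤ → ℝ} (Y : ℕ) (hK : KA E C) (hP : PDI τ r E) (hΩ : OmE Ω M) (hσ : SG σ) (t : R4) (n : ℕ)
    (hn : Odd n) : HasSum (fun κ : SF => 1 / (2 * π) * Iv (σ κ) fun z =>
      KP E Ω κ z (pt (cs 12) t) * (cY Y z n * Tk κ z n))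
    ((∑' m : ℤ, ac τ r Y Ω m (pt (cs 12) t) * (jacobiSym m n : ℂ)) -
      Ω 1 (pt (cs 12) t) / 8 * (cY Y 0 n * Tk 1 0 n)) := by
  have hpos : ∀ a ∈ (AY Y).filter fun a => a.Coprime n, 0 < a :=
    fun a ha => AY_pos (mem_filter.1 ha).1
  have h1 := hasSum_sum fun a ha => (poc_h1 hP hΩ hσ t hn (hpos a ha)).mul_left
    (ArithmeticFunction.moebius a : ℂ)
  have e : (∑' m : ℤ, ac τ r Y Ω m (pt (cs 12) t) * (jacobiSym m n : ℂ)) -
      Ω 1 (pt (cs 12) t) / 8 * (cY Y 0 n * Tk 1 0 n) = ∑ a ∈ (AY Y).filter fun a => a.Coprime n,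
      (ArithmeticFunction.moebius a : ℂ) * ((∑' k : CL τ r, (jacobiSym k n : ℂ) *
        (1 / (2 * π) * Iv 2 fun w => Ω w (pt (cs 12) t) * (a : ℂ) ^ (-(2 * w)) *
          ((|((k : ℤ) : ℝ)| : ℝ) : ℂ) ^ (-w))) -
        Ω 1 (pt (cs 12) t) * (a : ℂ) ^ (-(2 * 1 : ℂ)) * (T0 n : ℂ) / 8) := by
    rw [(poc_h3 Y hΩ t hn).tsum_eq, hTKB.1 n hn, cY, sum_mul, mul_sum, ← sum_sub_distrib]
    refine sum_congr rfl fun a ha => ?_
    simp only [pJ, poc_pow (hpos a ha), mul_assoc (Ω _ _)]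
    rw [show (2 * 0 - 2 : ℂ) = -(2 * 1) by ring]
    ring
  rw [e]
  exact h1.congr_fun fun κ => poc_h4 hTKB hKDB Y hK hΩ hσ t hn κ

theorem poc_ca {τ r : ℤ} {M : ℝ} {Ω : ℂ → V4 → ℂ} (Y : ℕ) (hΩ : OmE Ω M) (m : ℤ) :
    Continuous fun t : R4 => ac τ r Y Ω m (pt (cs 12) t) := by
  unfold ac
  split_ifs with hm
  · exact continuous_const.mul (poc_cJ hΩ (cl_ne hm))
  · exact continuous_const

theorem poc_ba {τ r : ℤ} {M : ℝ} {Ω : ℂ → V4 → ℂ} (Y : ℕ) (hΩ : OmE Ω M) (m : ℤ) (t : R4) :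
    ‖ac τ r Y Ω m (pt (cs 12) t)‖ ≤ (AY Y).card * (‖(1 / (2 * π) : ℂ)‖ * (∫ y : ℝ, 1 / br y ^ 2) *
      M * |(m : ℝ)| ^ (-2 : ℝ)) * dk (pt (cs 12) t) := by
  have hM := ome_M hΩ
  unfold ac
  have := dk_pos (pt (cs 12) t)
  have : 0 ≤ ∫ y : ℝ, 1 / br y ^ 2 := integral_nonneg fun y => by positivity
  split_ifs with hm
  · rw [norm_mul, mul_assoc]
    exact mul_le_mul (sY_le Y m) (poc_bJ hΩ (cl_ne hm) t) (norm_nonneg _) (by positivity)
  · rw [norm_zero]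
    positivity

theorem poc (hTKB : TKB) (hKDB : KDB) {τ r : ℤ} {E : ℤ → ℂ → ℂ} {C M : ℝ} {Ω : ℂ → V4 → ℂ}
    {σ : ℤ → ℝ} (Y : ℕ) (hK : KA E C) (hP : PDI τ r E) (hΩ : OmE Ω M) (hσ : SG σ) :
    PoD Y (ac τ r Y Ω) (fun u => Ω 1 u / 8) (KP E Ω) σ := by
  obtain ⟨D, bK⟩ := poc_bK hKDB hK hΩ hσ
  have hs2 := Real.summable_abs_int_rpow (b := 2) one_lt_two
  have c1 : Continuous fun t : R4 => Ω 1 (pt (cs 12) t) :=
    ome_c hΩ (w := fun _ : R4 => (1 : ℂ)) (t := fun t : R4 => t) continuous_const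
      continuous_id fun _ => one_mem5
  have b1 : ∀ t : R4, ‖Ω 1 (pt (cs 12) t) / 8‖ ≤ M * dk (pt (cs 12) t) := fun t => by
    have h3 := (hΩ 1 one_mem5 t).2
    rw [norm_div]
    exact (div_le_self (norm_nonneg _) (by simp)).trans (by simpa [br] using h3)
  exact
    { sg := hσ.1
      id := poc_id hTKB hKDB Y hK hP hΩ hσ
      ca := poc_ca Y hΩ
      ba := ⟨_, (hs2.mul_left _).mul_left _, poc_ba Y hΩ⟩
      cc := c1.div_const 8
      bc := ⟨M, b1⟩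
      cK := poc_cK hKDB hK hΩ hσ
      bK := ⟨_, sg_sum hσ fun s => M * (D * C * (1 + 1 / (s - 1 / 2))), bK⟩ }

end Pool.Agent.Q4
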