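import Pool.Agent.P.MP_ea46f5_nt.Q4.S4
import Pool.Agent.P.MP_ea46f5_nt.Q4.EXb

namespace Pool.Agent.Q4

open Pool.Agent.QM

theorem pEX4 (hLSP : LSP) (hTKB : TKB) : EX4 := fun _ _ _ _ _ h => ex4 hLSP hTKB h

theorem pPOG (hP1 : P1) (hP2 : P2) (hTKB : TKB) (hKZ : KZ) : POG :=
  fun _ _ _ _ hX hσ hc hb => pog hP1 hP2 hTKB hKZ hX hσ hc hb

theorem pPOC (hTKB : TKB) (hKDB : KDB) : POC :=
  fun _ _ _ _ _ Y _ _ hK hP hσ hΩ => poc hTKB hKDB Y hK hP hΩ hσ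

end Pool.Agent.Q4
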