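import Pool.Agent.P.MP_ea46f5_nt.Q4.S4

/-! The critical piece summed over the family. -/

namespace Pool.Agent.Q4

open Complex MeasureTheory Finset Pool.Agent.QM
open scoped Real

theorem fc_qk (k : ℤ) : |(k : ℝ)| ≤ qk k := by
  unfold qk disc
  split_ifs
  · exact le_rfl
  · push_cast
    rw [abs_mul]
    have : |(4 : ℝ)| = 4 := by norm_num
    rw [this]
    linarith [abs_nonneg (k : ℝ)]

theorem fc_om {x y p : ℝ} (hy : 0 < y) (hyx : y ≤ x) (h0 : 0 ≤ p) (h1 : p ≤ 1)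
    (h2 : p ≤ 2 / x ^ 7) : p * max x (1 / x) ^ (1 / 4 : ℝ) ≤ 2 * om y := by
  have hx : 0 < x := by linarith
  have key : ∀ a : ℝ, 1 / 4 ≤ a → a ≤ 6 → p * max x (1 / x) ^ (1 / 4 : ℝ) ≤ 2 * y ^ (-a) := by
    intro a a1 a2
    have b0 : x ^ (-a) ≤ y ^ (-a) := Real.rpow_le_rpow_of_nonpos hy hyx (by linarith)
    have b1 : 0 ≤ x ^ (-a) := by positivity
    rcases le_total x 1 with h | h
    · have c1 : x ≤ 1 / x := h.trans (by rw [le_div_iff₀ hx]; linarith)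
      have c2 : (1 / x) ^ (1 / 4 : ℝ) = x ^ (-(1 / 4) : ℝ) := by
        rw [one_div x, Real.inv_rpow hx.le, Real.rpow_neg hx.le]
      have c3 : x ^ (-(1 / 4) : ℝ) ≤ x ^ (-a) :=
        Real.rpow_le_rpow_of_exponent_ge hx h (by linarith)
      have c4 : 0 ≤ x ^ (-(1 / 4) : ℝ) := by positivity
      rw [max_eq_right c1, c2]
      nlinarith
    · have c1 : 1 / x ≤ x := le_trans (by rw [div_le_one hx]; exact h) h
      have c2 : 2 / x ^ 7 * x ^ (1 / 4 : ℝ) = 2 * x ^ (-(27 / 4) : ℝ) := by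
        have d : x ^ (-(27 / 4) : ℝ) = x ^ (1 / 4 : ℝ) / x ^ 7 := by
          rw [← Real.rpow_natCast x 7, ← Real.rpow_sub hx]
          norm_num
        rw [d]; ring
      have c3 : x ^ (-(27 / 4) : ℝ) ≤ x ^ (-a) :=
        Real.rpow_le_rpow_of_exponent_le h (by linarith)
      have c4 : 0 ≤ x ^ (1 / 4 : ℝ) := by positivity
      have c5 := mul_le_mul_of_nonneg_right h2 c4
      rw [max_eq_left c1]
      linarith
  unfold om
  rw [mul_min_of_nonneg _ _ (by norm_num : (0 : ℝ) ≤ 2)]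
  exact le_min (key (3 / 4) (by norm_num) (by norm_num)) (key 6 (by norm_num) le_rfl)

theorem pFB (hPHW : PHW) (hREP4 : REP4) (hBP : BP) (hREC : REC) (hFB1 : FB1) : FB := by
  intro g C₀ θ hg hθ
  obtain ⟨C1, hC1, h1⟩ := hFB1 g C₀ hg
  obtain ⟨C2, hC2, h2⟩ := hREP4
  have hK : Kp (1 / 2) := ⟨by norm_num, by norm_num⟩
  obtain ⟨A, C3, hC3, h3⟩ := hBP θ (hREC θ hθ) (1 / 2) (1 / 2) hK hK
  refine ⟨C2 * (2 * C1) * C3, by positivity, fun Δ η X F hΔ hη hη1 hX hF => ?_⟩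
  obtain ⟨b1, b2⟩ := h3 X (cs 0) F hX hF
  have hR : ∀ k : ℤ, ∃ R : V4 → ℂ, k ∈ F → Hol (Bx (-(1 / Δ)) (1 / Δ)) R ∧
      (∀ s ∈ Bx (-(1 / Δ)) (1 / Δ), ‖R s‖ ≤ C1 * Δ ^ 32 *
        max (qk k / X) (X / qk k) ^ (1 / 4 : ℝ) * ∏ j, 1 / br ((s j).im - cs 0 j) ^ 2) ∧
      Fm g (gam k) Δ (qk k) k = In (cs 0) fun s =>
        amp (1 / 2) (1 / 2) (cs 0) k s * R s * ev s (cs (Real.log X / 2)) := fun k => by
    by_cases hk : k ∈ F
    · obtain ⟨R, hR⟩ := h1 k Δ X (hF k hk).1 (hF k hk).2 hΔ hX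
      exact ⟨R, fun _ => hR⟩
    · exact ⟨0, fun h => absurd h hk⟩
  choose R hR using hR
  have hΔ0 : 0 < Δ := by linarith
  have b3 := (h2 F (fun k => om (|(k : ℝ)| / X)) (fun k => phi η (qk k / X))
    (fun k => C1 * Δ ^ 32 * max (qk k / X) (X / qk k) ^ (1 / 4 : ℝ)) (amp (1 / 2) (1 / 2) (cs 0)) R
    (cs 0) (1 / Δ) (2 * C1 * Δ ^ 32) _ (by positivity)
    (by rw [div_le_one hΔ0]; linarith) (by positivity) (fun k hk => ?_) b1).1
    (cs (Real.log X / 2))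
  · have e : ∏ j : Fin 4, br (cs 0 j) ^ A = 1 := by simp [cs, br]
    rw [e] at b3
    calc _ = ∑ k ∈ F, phi η (qk k / X) * ‖In (cs 0) fun s =>
          amp (1 / 2) (1 / 2) (cs 0) k s * R k s * ev s (cs (Real.log X / 2))‖ :=
          sum_congr rfl fun k hk => by rw [(hR k hk).2.2]
      _ ≤ _ := b3
      _ = _ := by field_simp
  · have k0 : (k : ℝ) ≠ 0 := by exact_mod_cast (hF k hk).1.ne_zero
    have c1 : 0 < |(k : ℝ)| / X := by positivity
    have c2 : |(k : ℝ)| / X ≤ qk k / X := by gcongr; exact fc_qk k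
    obtain ⟨-, d1, d2, -, -, d3⟩ := hPHW η (qk k / X) hη (by linarith)
    have c3 := fc_om c1 c2 d1 d2 (d3 hη1)
    rw [one_div (qk k / X), inv_div] at c3
    refine ⟨?_, d1, ?_, b2 k hk, (hR k hk).1, (hR k hk).2.1⟩
    · unfold om
      exact le_min (by positivity) (by positivity)
    · have c4 := mul_le_mul_of_nonneg_left c3 (by positivity : 0 ≤ C1 * Δ ^ 32)
      linarith

end Pool.Agent.Q4
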