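import Pool.Agent.P.MP_ea46f5_nt.Q4.S4

/-! The critical piece as an amplitude times a holomorphic factor. -/

namespace Pool.Agent.Q4

open Complex MeasureTheory Finset Pool.Agent.QM
open scoped Real

noncomputable section

def fbD (γ : ℤ) (u : ℂ) : ℂ := 1 - γ * (2 : ℂ) ^ (-(1 / 2 + u))

def fbr (g β : ℂ → ℂ) (γ : ℤ) (Δ L : ℝ) (u : ℂ) : ℂ :=
  g u * cexp (-(u ^ 2 / 2)) * (Δ ^ 8 * β (u * Δ)) * (fbD γ u)⁻¹ * cexp (u * L / 2)

def fbF (g β : ℂ → ℂ) (k : ℤ) (Δ L : ℝ) (u : ℂ) : ℂ :=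
  u * (u ^ 2 - 1 / 4) * Lo k (1 / 2 + u) * g u * (Δ ^ 8 * β (u * Δ)) * (fbD (gam k) u)⁻¹ *
    cexp (u * L / 2)

end

theorem fb_br1 (t : ℝ) : 1 ≤ br t := by
  unfold br; linarith [abs_nonneg t]

theorem fb_den (k : ℤ) {u : ℂ} (hu : -(1 / 8) ≤ u.re) : 1 / 5 ≤ ‖fbD (gam k) u‖ := by
  have e : ‖(2 : ℂ) ^ (-(1 / 2 + u))‖ = (2 : ℝ) ^ (-(1 / 2 + u.re)) := by
    simpa using Complex.norm_cpow_eq_rpow_re_of_pos (x := 2) (by norm_num) (-(1 / 2 + u))
  have h1 : (2 : ℝ) ^ (-(1 / 2 + u.re)) ≤ (2 : ℝ) ^ (-(3 / 8) : ℝ) :=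
    Real.rpow_le_rpow_of_exponent_le (by norm_num) (by linarith)
  have h2 : ((2 : ℝ) ^ (-(3 / 8) : ℝ)) ^ 8 = 1 / 8 := by
    rw [← Real.rpow_natCast, ← Real.rpow_mul (by norm_num)]; norm_num
  have h3 : (2 : ℝ) ^ (-(3 / 8) : ℝ) ≤ 4 / 5 :=
    le_of_pow_le_pow_left₀ (n := 8) (by norm_num) (by norm_num) (by rw [h2]; norm_num)
  have h4 : ‖(gam k : ℂ)‖ ≤ 1 := by
    unfold gam
    split_ifs <;> simp
  have h5 := norm_sub_norm_le (1 : ℂ) (gam k * (2 : ℂ) ^ (-(1 / 2 + u)))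
  have h6 := mul_le_mul h4 (e.le.trans (h1.trans h3)) (norm_nonneg _) zero_le_one
  rw [norm_one, norm_mul] at h5
  unfold fbD
  linarith

theorem fb_ne (k : ℤ) {u : ℂ} (hu : -(1 / 8) ≤ u.re) : fbD (gam k) u ≠ 0 := by
  intro h
  have := fb_den k hu
  rw [h, norm_zero] at this
  norm_num at this

theorem fb_inv (k : ℤ) {u : ℂ} (hu : -(1 / 8) ≤ u.re) : ‖(fbD (gam k) u)⁻¹‖ ≤ 5 := by
  rw [norm_inv]
  have := fb_den k hu
  rw [inv_le_comm₀ (by linarith) (by norm_num)]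
  linarith

theorem fb_dD (γ : ℤ) : Differentiable ℂ (fbD γ) := by
  unfold fbD
  refine (differentiable_const _).sub ((differentiable_const _).mul ?_)
  exact Differentiable.const_cpow (by fun_prop) (Or.inl two_ne_zero)

theorem fb_nrm {u : ℂ} {c : ℝ} (hc : 1 ≤ c) (h : |u.re| ≤ c) : ‖u‖ ≤ c * br u.im := by
  have := Complex.norm_le_abs_re_add_abs_im u
  unfold br
  nlinarith [abs_nonneg u.im]

theorem fb_exp (u : ℂ) (L : ℝ) : ‖cexp (u * L / 2)‖ = Real.exp (u.re * L / 2) := by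
  rw [Complex.norm_exp]; simp

theorem fb_beta {β : ℂ → ℂ} (hβ : ∀ z : ℂ, -1 ≤ z.re → ‖β z‖ ≤ 1) {Δ : ℝ} (hΔ : 0 < Δ) {u : ℂ}
    (hu : -(1 / Δ) ≤ u.re) : ‖(Δ : ℂ) ^ 8 * β (u * Δ)‖ ≤ Δ ^ 8 := by
  have h1 : -1 ≤ (u * Δ).re := by
    have : -(1 / Δ) * Δ = -1 := by field_simp
    have h2 := mul_le_mul_of_nonneg_right hu hΔ.le
    rw [this] at h2
    simpa using h2
  rw [norm_mul, norm_pow, Complex.norm_real, Real.norm_of_nonneg hΔ.le]
  exact mul_le_of_le_one_right (by positivity) (hβ _ h1)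

theorem fb_prod {A : ℂ} {f : Fin 4 → ℂ} {u : V4} {a m κ C : ℝ} {n p : ℕ} (ha : 0 ≤ a) (hm : 0 ≤ m)
    (hA : ‖A‖ ≤ a * gn n u)
    (hf : ∀ j, ‖f j‖ ≤ m * (br (u j).im ^ p * Real.exp (-κ * (u j).im ^ 2)))
    (hC : ∀ τ : ℝ, br τ ^ (n + p) * Real.exp (-κ * τ ^ 2) ≤ C / br τ ^ 2) :
    ‖A * ∏ j, f j‖ ≤ a * (m * C) ^ 4 * dn 2 u := by
  have h1 : ‖∏ j, f j‖ ≤ ∏ j, m * (br (u j).im ^ p * Real.exp (-κ * (u j).im ^ 2)) := by
    rw [norm_prod]
    exact prod_le_prod (fun _ _ => norm_nonneg _) fun j _ => hf j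
  have h0 : ∀ j, 0 < br (u j).im := fun j => by linarith [fb_br1 (u j).im]
  have h2 : 0 ≤ a * gn n u := (norm_nonneg _).trans hA
  have h3 : gn n u * ∏ j, m * (br (u j).im ^ p * Real.exp (-κ * (u j).im ^ 2)) ≤
      (m * C) ^ 4 * dn 2 u := by
    have e : (m * C) ^ 4 * dn 2 u = ∏ j : Fin 4, m * (C / br (u j).im ^ 2) := by
      unfold dn
      simp only [Fin.prod_univ_four]
      ring
    rw [e]
    unfold gn
    rw [← prod_mul_distrib]
    refine prod_le_prod (fun j _ => by have := h0 j; positivity) fun j _ => ?_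
    calc _ = m * (br (u j).im ^ (n + p) * Real.exp (-κ * (u j).im ^ 2)) := by ring
      _ ≤ _ := mul_le_mul_of_nonneg_left (hC _) hm
  rw [norm_mul]
  calc _ ≤ a * gn n u * ∏ j, m * (br (u j).im ^ p * Real.exp (-κ * (u j).im ^ 2)) :=
        mul_le_mul hA h1 (norm_nonneg _) h2
    _ = a * (gn n u * ∏ j, m * (br (u j).im ^ p * Real.exp (-κ * (u j).im ^ 2))) := by ring
    _ ≤ a * ((m * C) ^ 4 * dn 2 u) := mul_le_mul_of_nonneg_left h3 ha
    _ = _ := by ring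

theorem fb_gauss (hSH4 : SH4) (κ : ℝ) (hκ : 0 < κ) (n : ℕ) : ∃ C : ℝ, 0 < C ∧ ∀ τ : ℝ,
    br τ ^ n * Real.exp (-κ * τ ^ 2) ≤ C / br τ ^ 2 := by
  obtain ⟨C, hC, h⟩ := hSH4.2.2 κ n 2 hκ
  refine ⟨C, hC, fun τ => ?_⟩
  have h1 := (h τ 0).2.1
  have h4 : br 0 = 1 := by simp [br]
  rwa [sub_zero, h4, one_pow, mul_one] at h1

theorem fb_C0 {g : ℂ → ℂ} {C₀ : ℝ} (hg : GC g C₀) : 0 ≤ C₀ := by
  have h := hg.bd 0 ⟨by norm_num, by norm_num⟩
  simpa using (norm_nonneg _).trans h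

theorem fb_r_bd {g β : ℂ → ℂ} {C₀ : ℝ} (hg : GC g C₀) (hβ : ∀ z : ℂ, -1 ≤ z.re → ‖β z‖ ≤ 1)
    (k : ℤ) {Δ : ℝ} (hΔ : 8 ≤ Δ) (L : ℝ) {u : ℂ} (h1 : -(1 / Δ) ≤ u.re) (h2 : u.re ≤ 1 / Δ) :
    ‖fbr g β (gam k) Δ L u‖ ≤ 5 * (C₀ + 1) * Δ ^ 8 * Real.exp (|L| / 16) *
      (br u.im ^ 0 * Real.exp (-(1 / 4) * u.im ^ 2)) := by
  have h8 : 1 / Δ ≤ 1 / 8 := one_div_le_one_div_of_le (by norm_num) hΔ
  have hC := fb_C0 hg
  have a1 := hg.bd u ⟨by linarith, by linarith⟩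
  have a2 : ‖cexp (-(u ^ 2 / 2))‖ ≤ Real.exp (u.im ^ 2 / 2) := by
    rw [Complex.norm_exp]
    refine Real.exp_le_exp.2 ?_
    have : (-(u ^ 2 / 2)).re = -((u.re ^ 2 - u.im ^ 2) / 2) := by simp [pow_two]
    rw [this]; nlinarith [sq_nonneg u.re]
  have a3 := fb_beta hβ (by linarith : 0 < Δ) h1
  have a4 := fb_inv k (u := u) (by linarith)
  have a5 : ‖cexp (u * L / 2)‖ ≤ Real.exp (|L| / 16) := by
    rw [fb_exp]
    refine Real.exp_le_exp.2 ?_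
    have b1 : |u.re| ≤ 1 / 8 := abs_le.2 ⟨by linarith, by linarith⟩
    have b2 := le_abs_self (u.re * L)
    rw [abs_mul] at b2
    nlinarith [abs_nonneg L]
  have e : Real.exp (-(3 / 4) * u.im ^ 2) * Real.exp (u.im ^ 2 / 2) =
      Real.exp (-(1 / 4) * u.im ^ 2) := by
    rw [← Real.exp_add]; ring_nf
  unfold fbr
  rw [norm_mul, norm_mul, norm_mul, norm_mul]
  calc _ ≤ C₀ * Real.exp (-(3 / 4) * u.im ^ 2) * Real.exp (u.im ^ 2 / 2) * Δ ^ 8 * 5 *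
        Real.exp (|L| / 16) := by gcongr
    _ = 5 * C₀ * Δ ^ 8 * Real.exp (|L| / 16) *
        (Real.exp (-(3 / 4) * u.im ^ 2) * Real.exp (u.im ^ 2 / 2)) := by ring
    _ ≤ 5 * (C₀ + 1) * Δ ^ 8 * Real.exp (|L| / 16) *
        (Real.exp (-(3 / 4) * u.im ^ 2) * Real.exp (u.im ^ 2 / 2)) := by gcongr; linarith
    _ = _ := by rw [e, pow_zero, one_mul]

theorem fb_F_bd (hLOB : LOB) {g β : ℂ → ℂ} {C₀ : ℝ} (hg : GC g C₀)
    (hβ : ∀ z : ℂ, -1 ≤ z.re → ‖β z‖ ≤ 1) {k : ℤ} (hk : Squarefree k) (hk1 : k ≠ 1) {Δ : ℝ}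
    (hΔ : 8 ≤ Δ) (L : ℝ) {u : ℂ} (h1 : 0 ≤ u.re) (h2 : u.re ≤ 12) :
    ‖fbF g β k Δ L u‖ ≤ 12 * 145 * (104 * |(k : ℝ)|) * C₀ * Δ ^ 8 * 5 * Real.exp (6 * |L|) *
      (br u.im ^ 4 * Real.exp (-(3 / 4) * u.im ^ 2)) := by
  have hC := fb_C0 hg
  have hb := fb_br1 u.im
  have a0 : ‖u‖ ≤ 12 * br u.im := fb_nrm (by norm_num) (abs_le.2 ⟨by linarith, h2⟩)
  have a0' : ‖u ^ 2 - 1 / 4‖ ≤ 145 * br u.im ^ 2 := by
    refine (norm_sub_le _ _).trans ?_
    have b1 : ‖u‖ ^ 2 ≤ (12 * br u.im) ^ 2 := by gcongr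
    have b2 : ‖(1 / 4 : ℂ)‖ = 1 / 4 := by simp
    rw [norm_pow, b2]
    nlinarith
  have aL : ‖Lo k (1 / 2 + u)‖ ≤ 104 * |(k : ℝ)| * br u.im := by
    have hre : (1 / 2 + u : ℂ).re = 1 / 2 + u.re := by simp
    have him : (1 / 2 + u : ℂ).im = u.im := by simp
    have b1 := hLOB k (1 / 2 + u) hk hk1 (by rw [hre]; linarith)
    have b2 : ‖(1 / 2 + u : ℂ)‖ ≤ 13 * br u.im := by
      rw [← him]
      exact fb_nrm (by norm_num) (by rw [hre]; exact abs_le.2 ⟨by linarith, by linarith⟩)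
    rw [hre] at b1
    calc _ ≤ _ := b1
      _ ≤ 4 * |(k : ℝ)| * (13 * br u.im) / (1 / 2) := by gcongr; linarith
      _ = _ := by ring
  have a1 := hg.bd u ⟨by linarith, by linarith⟩
  have hΔ0 : 0 < Δ := by linarith
  have a3 := fb_beta hβ hΔ0 (u := u) (by have : 0 < 1 / Δ := by positivity
                                         linarith)
  have a4 := fb_inv k (u := u) (by linarith)
  have a5 : ‖cexp (u * L / 2)‖ ≤ Real.exp (6 * |L|) := by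
    rw [fb_exp]
    refine Real.exp_le_exp.2 ?_
    nlinarith [abs_nonneg L, le_abs_self L, mul_le_mul_of_nonneg_left (le_abs_self L) h1]
  unfold fbF
  rw [norm_mul, norm_mul, norm_mul, norm_mul, norm_mul, norm_mul]
  calc _ ≤ 12 * br u.im * (145 * br u.im ^ 2) * (104 * |(k : ℝ)| * br u.im) *
        (C₀ * Real.exp (-(3 / 4) * u.im ^ 2)) * Δ ^ 8 * 5 * Real.exp (6 * |L|) := by gcongr
    _ = _ := by ring

theorem fb_hol {f : ℂ → ℂ} {u : V4} (h : ∀ j, DifferentiableAt ℂ f (u j)) :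
    DifferentiableAt ℂ (fun s : V4 => ∏ j, f (s j)) u := by
  have h1 : ∀ j, DifferentiableAt ℂ (fun s : V4 => f (s j)) u := fun j =>
    (h j).comp u (differentiableAt_apply j u)
  simp only [Fin.prod_univ_four]
  exact (((h1 0).mul (h1 1)).mul (h1 2)).mul (h1 3)

theorem fb_r_hol {g β : ℂ → ℂ} {C₀ : ℝ} (hg : GC g C₀) (hβ : Differentiable ℂ β) (k : ℤ)
    (Δ L : ℝ) {u : ℂ} (h1 : -(1 / 8) ≤ u.re) : DifferentiableAt ℂ (fbr g β (gam k) Δ L) u := by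
  have a1 := hg.hol u (by linarith)
  have a2 := ((fb_dD (gam k)) u).inv (fb_ne k h1)
  have a3 : DifferentiableAt ℂ (fun u : ℂ => β (u * Δ)) u := (hβ _).comp u (by fun_prop)
  unfold fbr
  exact (((a1.mul (by fun_prop)).mul (a3.const_mul _)).mul a2).mul (by fun_prop)

theorem fb_F_hol {g β : ℂ → ℂ} {C₀ : ℝ} (hg : GC g C₀) (hβ : Differentiable ℂ β) {k : ℤ}
    (hL : Differentiable ℂ (Lo k)) (Δ L : ℝ) {u : ℂ} (h1 : -(1 / 8) ≤ u.re) :
    DifferentiableAt ℂ (fbF g β k Δ L) u := by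
  have a1 := hg.hol u (by linarith)
  have a2 := ((fb_dD (gam k)) u).inv (fb_ne k h1)
  have a3 : DifferentiableAt ℂ (fun u : ℂ => β (u * Δ)) u := (hβ _).comp u (by fun_prop)
  have a4 : DifferentiableAt ℂ (fun u : ℂ => Lo k (1 / 2 + u)) u := (hL _).comp u (by fun_prop)
  have a5 : DifferentiableAt ℂ (fun u : ℂ => u * (u ^ 2 - 1 / 4)) u := by fun_prop
  unfold fbF
  exact ((((a5.mul a4).mul a1).mul (a3.const_mul _)).mul a2).mul (by fun_prop)

theorem fb_qk {k : ℤ} (hk : k ≠ 0) : 0 < qk k := by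
  unfold qk disc
  rw [abs_pos]
  split_ifs
  · exact_mod_cast hk
  · exact_mod_cast mul_ne_zero (by norm_num) hk

theorem fb_max {q X : ℝ} (hq : 0 < q) (hX : 0 < X) :
    Real.exp (|Real.log q - Real.log X| / 16) ^ 4 = max (q / X) (X / q) ^ (1 / 4 : ℝ) := by
  have h1 : max (q / X) (X / q) = Real.exp |Real.log q - Real.log X| := by
    rw [abs_eq_max_neg, Real.exp_monotone.map_max, neg_sub, Real.exp_sub, Real.exp_sub,
      Real.exp_log hq, Real.exp_log hX]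
  rw [h1, ← Real.exp_mul, ← Real.exp_nat_mul]
  exact congrArg Real.exp (by push_cast; ring)

theorem fb_one {g β : ℂ → ℂ} (hβ : ∀ z, 1 - th8 z = z ^ 8 * β z) (k : ℤ) (Δ L : ℝ) {u : ℂ}
    (hu : u ≠ 0) :
    wr g (gam k) u * (u - 1 / 2) * (1 - th8 (u * Δ)) * cexp (u * L / 2) * Lo k (1 / 2 + u) =
      fbF g β k Δ L u := by
  rw [hβ]
  unfold wr fbF fbD
  rw [div_eq_mul_inv, mul_inv]
  generalize (1 - (gam k : ℂ) * (2 : ℂ) ^ (-(1 / 2 + u)))⁻¹ = d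
  field_simp
  ring

theorem fb_two (g β : ℂ → ℂ) (k : ℤ) (Δ Lq LX : ℝ) (u : ℂ) :
    pw (1 / 2) 0 0 u * Lo k (1 / 2 + u) * fbr g β (gam k) Δ (Lq - LX) u *
      cexp (u * ((LX / 2 : ℝ) : ℂ)) = fbF g β k Δ Lq u := by
  have e1 : cexp (((1 / 2 : ℝ) : ℂ) * (u - ((0 : ℝ) : ℂ) * I) ^ 2 + ((0 : ℝ) : ℂ) * u) *
      cexp (-(u ^ 2 / 2)) = 1 := by
    rw [← Complex.exp_add, ← Complex.exp_zero]
    exact congrArg cexp (by push_cast; ring)
  have e2 : cexp (u * ((Lq - LX : ℝ) : ℂ) / 2) * cexp (u * ((LX / 2 : ℝ) : ℂ)) =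
      cexp (u * Lq / 2) := by
    rw [← Complex.exp_add]
    exact congrArg cexp (by push_cast; ring)
  unfold pw fbr fbF
  rw [← e2]
  linear_combination (u * (u ^ 2 - 1 / 4) * Lo k (1 / 2 + u) * g u * (Δ ^ 8 * β (u * Δ)) *
    (fbD (gam k) u)⁻¹ * (cexp (u * ((Lq - LX : ℝ) : ℂ) / 2) * cexp (u * ((LX / 2 : ℝ) : ℂ)))) * e1

theorem pFB1 (hSH4 : SH4) (hVDP : VDP) (hTH8 : TH8) (hLOP : LOP) (hLOB : LOB) : FB1 := by
  intro g C₀ hg
  obtain ⟨Cv, N, hCv, -, hv1, ⟨P, hPd, hPe, hPb⟩, -, -⟩ := hVDP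
  obtain ⟨-, -, β, hβd, hβe, hβb⟩ := hTH8
  obtain ⟨C3, hC3, h3⟩ := fb_gauss hSH4 (1 / 4) (by norm_num) (N + 0)
  obtain ⟨C4, hC4, h4⟩ := fb_gauss hSH4 (3 / 4) (by norm_num) (N + N + 4)
  have hC := fb_C0 hg
  refine ⟨Cv * (5 * (C₀ + 1) * C3) ^ 4, by positivity, fun k Δ X hk hk1 hΔ hX => ?_⟩
  have hk0 : k ≠ 0 := hk.ne_zero
  have hq := fb_qk hk0
  have h8 : 1 / Δ ≤ 1 / 8 := one_div_le_one_div_of_le (by norm_num) hΔ
  refine ⟨fun s => P s * ∏ j, fbr g β (gam k) Δ (Real.log (qk k) - Real.log X) (s j),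
    fun s hs => ?_, fun s hs => ?_, ?_⟩
  · refine (hPd s).mul (fb_hol fun j => fb_r_hol hg hβd k _ _ ?_)
    have := (hs j).1
    simp only [cs] at this
    linarith
  · have b1 : s ∈ Bx (-1) 13 := fun j => by
      have c1 := (hs j).1
      have c2 := (hs j).2
      simp only [cs] at c1 c2 ⊢
      constructor <;> linarith
    have b2 := fb_prod (f := fun j => fbr g β (gam k) Δ (Real.log (qk k) - Real.log X) (s j))
      hCv.le (by positivity) (hPb s b1)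
      (fun j => fb_r_bd hg hβb k hΔ (Real.log (qk k) - Real.log X) (hs j).1 (hs j).2) h3
    refine b2.trans (le_of_eq ?_)
    rw [← fb_max hq hX]
    simp only [dn, cs, sub_zero]
    ring
  · have hL := hLOP.2.1 k hk hk1
    set G : V4 → ℂ := fun u => P u * an u * ∏ j, fbF g β k Δ (Real.log (qk k)) (u j) with hG
    have han : Differentiable ℂ an := by unfold an; fun_prop
    have g1 : Hol (Bx 0 12) G := fun u hu => by
      refine ((hPd u).mul (han u)).mul (fb_hol fun j => fb_F_hol hg hβd hL _ _ ?_)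
      have := (hu j).1
      simp only [cs] at this
      linarith
    have g2 : ∀ u ∈ Bx 0 12, ‖G u‖ ≤ Cv * Cv * (12 * 145 * (104 * |(k : ℝ)|) * C₀ * Δ ^ 8 * 5 *
        Real.exp (6 * |Real.log (qk k)|) * C4) ^ 4 * dn 2 u := fun u hu => by
      have b1 : u ∈ Bx (-1) 13 := fun j => by
        have c1 := (hu j).1
        have c2 := (hu j).2
        simp only [cs] at c1 c2 ⊢
        constructor <;> linarith
      have b2 : ‖P u * an u‖ ≤ Cv * Cv * gn (N + N) u := by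
        have c1 := hPb u b1
        have c2 := (hv1 u b1).2.1
        have c3 : gn (N + N) u = gn N u * gn N u := by
          unfold gn
          rw [← prod_mul_distrib]
          exact prod_congr rfl fun j _ => pow_add _ _ _
        rw [norm_mul, c3]
        calc _ ≤ Cv * gn N u * (Cv * gn N u) :=
              mul_le_mul c1 c2 (norm_nonneg _) ((norm_nonneg _).trans c1)
          _ = _ := by ring
      exact fb_prod (f := fun j => fbF g β k Δ (Real.log (qk k)) (u j)) (by positivity)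
        (by positivity) b2
        (fun j => fb_F_bd hLOB hg hβb hk hk1 hΔ (Real.log (qk k)) (hu j).1 (hu j).2) h4
    have g3 := (hSH4.1 0 12 _ (cs 12) (cs 0) G (fun j => by simp [cs]) (fun j => by simp [cs])
      g1 g2).1
    have g4 : Fm g (gam k) Δ (qk k) k = In (cs 12) G := by
      unfold Fm In
      refine integral_congr_ae (Filter.Eventually.of_forall fun t => ?_)
      have c1 : ∀ j, (pt (cs 12) t j).re = 12 := fun j => by simp [pt, cs]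
      beta_reduce
      generalize pt (cs 12) t = u at c1
      have c2 : ∀ j, u j ≠ 0 := fun j h => by
        have := c1 j
        rw [h] at this
        norm_num at this
      have c3 : ∀ j, LS k (1 / 2 + u j) = Lo k (1 / 2 + u j) := fun j =>
        (hLOP.1 k _ hk0 (by have := c1 j
                            simp only [add_re, this]; norm_num)).symm
      have c4 : (qk k : ℂ) ^ us u = ∏ j, cexp (u j * (Real.log (qk k) : ℝ) / 2) := by
        rw [← Complex.exp_sum, Complex.cpow_def_of_ne_zero (by exact_mod_cast hq.ne'),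
          ← Complex.ofReal_log hq.le]
        refine congrArg cexp ?_
        simp only [us, Fin.sum_univ_four]
        ring
      simp only [hG]
      rw [← hPe, c4]
      simp only [← fb_one (g := g) hβe k Δ (Real.log (qk k)) (c2 _), W4, Wr, hf, cF, LL, c3,
        prod_mul_distrib]
      ring
    rw [g4, g3]
    unfold In
    refine integral_congr_ae (Filter.Eventually.of_forall fun t => ?_)
    beta_reduce
    generalize pt (cs 0) t = u
    simp only [hG, ← fb_two g β k Δ (Real.log (qk k)) (Real.log X), amp, ev, cs, Complex.exp_sum,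
      Fin.prod_univ_four]
    ring

end Pool.Agent.Q4
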