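import Pool.Agent.P.MP_ea46f5_nt.Q4.S4
import Pool.Agent.P.MP_ea46f5_nt.QM.FFL
import Pool.Agent.P.MP_ea46f5_nt.QM.FLSP
import Pool.Agent.P.MP_ea46f5_nt.QM.FPC

/-! Inflation for pairs. -/

namespace Pool.Agent.Q4

open Complex MeasureTheory Finset Pool.Agent.QM
open scoped Real ComplexConjugate

theorem fl2_abs (K : Finset ℤ) (hK : ∀ k ∈ K, Squarefree k) (P : Finset ℕ)
    (hP : ∀ r ∈ P, r.Prime) (hPne : P.Nonempty) (v v' : ℝ)
    (d : ℝ → ℝ → ℤ → ℝ) (hd0 : ∀ a b m, 0 ≤ d a b m)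
    (hrel : ∀ a b : ℝ, ∀ k ∈ K, ∀ r ∈ P, d a b k ≤ d a b (k * (r : ℤ) ^ 2) +
      1 / 10 * d (a - Real.log r) b k + 1 / 10 * d a (b - Real.log r) k +
      1 / 100 * d (a - Real.log r) (b - Real.log r) k)
    (B : ℝ) (hB : ∀ a b : ℝ, ∑ k ∈ K, d a b k ^ 2 ≤ B)
    (G : ℤ → ℝ) (g : ℝ) (hg : 0 < g) (hG : ∀ k ∈ K, ∀ r ∈ P, g ≤ G (k * (r : ℤ) ^ 2))
    (M : ℝ) (hM : ∀ (a b : ℝ) (T : Finset ℤ), a ≤ v → b ≤ v' → ∑ m ∈ T, G m * d a b m ^ 2 ≤ M) :
    ∑ k ∈ K, d v v' k ^ 2 ≤ 2 * M / (g * P.card) := by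
  classical
  have hc : (0 : ℝ) < P.card := by exact_mod_cast hPne.card_pos
  set M' := M / (g * P.card) with hM'
  let N : ℝ × ℝ → ℝ := fun x => ∑ k ∈ K, d x.1 x.2 k ^ 2
  let S : Set ℝ := N '' {x | x.1 ≤ v ∧ x.2 ≤ v'}
  have hSne : S.Nonempty := ⟨N (v, v'), (v, v'), ⟨le_rfl, le_rfl⟩, rfl⟩
  have hSb : BddAbove S := by
    refine ⟨B, ?_⟩
    rintro _ ⟨b, -, rfl⟩
    exact hB _ _
  have hΓ : ∀ a b : ℝ, a ≤ v → b ≤ v' → ∑ k ∈ K, d a b k ^ 2 ≤ sSup S :=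
    fun a b ha hb => le_csSup hSb ⟨(a, b), ⟨ha, hb⟩, rfl⟩
  have hsel : ∀ a b : ℝ, a ≤ v → b ≤ v' →
      ∃ r ∈ P, ∑ k ∈ K, d a b (k * (r : ℤ) ^ 2) ^ 2 ≤ M' := by
    intro a b ha hb
    refine exists_le_of_sum_le hPne ?_
    have hinj : Set.InjOn (fun q : ℕ × ℤ => q.2 * (q.1 : ℤ) ^ 2) (P ×ˢ K : Finset (ℕ × ℤ)) := by
      intro q hq q' hq' e
      rw [mem_coe, mem_product] at hq hq'
      have := fl_inj (hK _ hq'.2) (hP _ hq.1) (hP _ hq'.1) e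
      exact Prod.ext this.2 this.1
    have h1 := hM a b ((P ×ˢ K).image fun q : ℕ × ℤ => q.2 * (q.1 : ℤ) ^ 2) ha hb
    rw [sum_image hinj, sum_product] at h1
    have h2 : g * ∑ r ∈ P, ∑ k ∈ K, d a b (k * (r : ℤ) ^ 2) ^ 2 ≤ M := by
      refine le_trans ?_ h1
      rw [mul_sum]
      refine sum_le_sum fun r hr => ?_
      rw [mul_sum]
      exact sum_le_sum fun k hk => mul_le_mul_of_nonneg_right (hG k hk r hr) (sq_nonneg _)
    rw [sum_const, nsmul_eq_mul, hM']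
    have : (P.card : ℝ) * (M / (g * P.card)) = M / g := by field_simp
    rw [this, le_div_iff₀ hg]
    linarith
  have hstep : ∀ a b : ℝ, a ≤ v → b ≤ v' →
      ∑ k ∈ K, d a b k ^ 2 ≤ 100 / 79 * M' + 21 / 100 * sSup S := by
    intro a b ha hb
    obtain ⟨r, hr, hrM⟩ := hsel a b ha hb
    have hl : 0 ≤ Real.log r := Real.log_natCast_nonneg r
    have h1 : ∑ k ∈ K, d a b k ^ 2 ≤ ∑ k ∈ K, (100 / 79 * d a b (k * (r : ℤ) ^ 2) ^ 2 +
        1 / 10 * d (a - Real.log r) b k ^ 2 + 1 / 10 * d a (b - Real.log r) k ^ 2 +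
        1 / 100 * d (a - Real.log r) (b - Real.log r) k ^ 2) := by
      refine sum_le_sum fun k hk => ?_
      have h4 := pow_le_pow_left₀ (hd0 a b k) (hrel a b k hk r hr) 2
      generalize d a b (k * (r : ℤ) ^ 2) = x at h4 ⊢
      generalize d (a - Real.log r) b k = y at h4 ⊢
      generalize d a (b - Real.log r) k = y' at h4 ⊢
      generalize d (a - Real.log r) (b - Real.log r) k = z at h4 ⊢
      refine h4.trans ?_
      nlinarith [sq_nonneg (100 / 79 * x - y), sq_nonneg (100 / 79 * x - y'),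
        sq_nonneg (100 / 79 * x - z), sq_nonneg (y - z), sq_nonneg (y' - z), sq_nonneg (y - y')]
    rw [sum_add_distrib, sum_add_distrib, sum_add_distrib, ← mul_sum, ← mul_sum, ← mul_sum,
      ← mul_sum] at h1
    have h5 := hΓ (a - Real.log r) b (by linarith) hb
    have h6 := hΓ a (b - Real.log r) ha (by linarith)
    have h7 := hΓ (a - Real.log r) (b - Real.log r) (by linarith) (by linarith)
    linarith
  have hfin : sSup S ≤ 100 / 79 * M' + 21 / 100 * sSup S := by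
    refine csSup_le hSne ?_
    rintro _ ⟨b, hb, rfl⟩
    exact hstep b.1 b.2 hb.1 hb.2
  have hM0 : 0 ≤ M' := by
    have := hM v v' ∅ le_rfl le_rfl
    rw [sum_empty] at this
    positivity
  have h7 := hΓ v v' le_rfl le_rfl
  rw [mul_div_assoc, ← hM']
  linarith

theorem fl2_line (hI : PWI) {κ : ℝ} (hκ : Kp κ) (t v : ℝ) (j : ℕ) (k : ℤ) {r : ℕ} (hr : r.Prime)
    (hr2 : r ≠ 2) :
    (Iv 12 fun u => u ^ j * (pw κ t v u * LS (k * (r : ℤ) ^ 2) (1 / 2 + u))) =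
      (Iv 12 fun u => u ^ j * (pw κ t v u * LS k (1 / 2 + u))) -
        jo k r * (r : ℂ) ^ (-(1 / 2 : ℂ)) *
          Iv 12 fun u => u ^ j * (pw κ t (v - Real.log r) u * LS k (1 / 2 + u)) := by
  have hr0 : (r : ℂ) ≠ 0 := by exact_mod_cast hr.ne_zero
  have i1 := (hI κ t v j hκ).2 k
  have i2 := (hI κ t (v - Real.log r) j hκ).2 k
  unfold Lc at i1 i2
  unfold Iv
  rw [← integral_const_mul, ← integral_sub i1 (i2.const_mul _)]
  refine integral_congr_ae (Filter.Eventually.of_forall fun y => ?_)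
  have h1 := pLSP.2.2.2.2.2 k r (1 / 2 + (((12 : ℝ) : ℂ) + y * I)) hr hr2 (by
    simp only [add_re, mul_re, ofReal_re, I_re, ofReal_im, I_im]
    norm_num)
  simp only
  rw [h1]
  generalize (((12 : ℝ) : ℂ) + y * I) = u
  have e3 : (r : ℂ) ^ (-(1 / 2 + u : ℂ)) =
      (r : ℂ) ^ (-(1 / 2 : ℂ)) * cexp (-(((Real.log r : ℝ) : ℂ) * u)) := by
    rw [neg_add, cpow_add _ _ hr0, cpow_def_of_ne_zero hr0 (-u), ← natCast_log, mul_neg]
  have e4 : pw κ t (v - Real.log r) u = pw κ t v u * cexp (-(((Real.log r : ℝ) : ℂ) * u)) := by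
    unfold pw
    rw [mul_assoc _ (cexp _), ← Complex.exp_add]
    congr 2
    push_cast
    ring
  rw [e3, e4]
  ring

theorem fl2_rel (hI : PWI) {κ κ' : ℝ} (hκ : Kp κ) (hκ' : Kp κ') (t v t' v' : ℝ) (k : ℤ) {r : ℕ}
    (hr : r.Prime) (h100 : 100 < r) :
    ‖Bm κ t v κ' t' v' k‖ ≤ ‖Bm κ t v κ' t' v' (k * (r : ℤ) ^ 2)‖ +
      1 / 10 * ‖Bm κ t (v - Real.log r) κ' t' v' k‖ +
      1 / 10 * ‖Bm κ t v κ' t' (v' - Real.log r) k‖ +
      1 / 100 * ‖Bm κ t (v - Real.log r) κ' t' (v' - Real.log r) k‖ := by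
  have hr2 : r ≠ 2 := by omega
  have hr100 : (100 : ℝ) < r := by exact_mod_cast h100
  have a0 := fl2_line hI hκ t v 0 k hr hr2
  have a2 := fl2_line hI hκ t v 2 k hr hr2
  have b0 := fl2_line hI hκ' t' v' 0 k hr hr2
  have b2 := fl2_line hI hκ' t' v' 2 k hr hr2
  simp only [pow_zero, one_mul] at a0 b0
  have hna : ‖jo k r * (r : ℂ) ^ (-(1 / 2 : ℂ))‖ ≤ 1 / 10 := by
    have e : ‖(r : ℂ) ^ (-(1 / 2 : ℂ))‖ = 1 / Real.sqrt r := by
      rw [norm_natCast_cpow_of_pos hr.pos, Real.sqrt_eq_rpow, one_div ((r : ℝ) ^ _),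
        ← Real.rpow_neg (by linarith)]
      congr 1
      simp
    have hs : (10 : ℝ) ≤ Real.sqrt r := Real.le_sqrt_of_sq_le (by linarith)
    rw [norm_mul, e]
    exact (mul_le_of_le_one_left (by positivity) (fl_jo k r)).trans
      (one_div_le_one_div_of_le (by norm_num) hs)
  generalize jo k r * (r : ℂ) ^ (-(1 / 2 : ℂ)) = a at a0 a2 b0 b2 hna
  have key : Bm κ t v κ' t' v' k = Bm κ t v κ' t' v' (k * (r : ℤ) ^ 2) +
      a * Bm κ t (v - Real.log r) κ' t' v' k + a * Bm κ t v κ' t' (v' - Real.log r) k -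
      a ^ 2 * Bm κ t (v - Real.log r) κ' t' (v' - Real.log r) k := by
    unfold Bm pr
    rw [a0, a2, b0, b2]
    ring
  have hna2 : ‖a ^ 2‖ ≤ 1 / 100 := by
    rw [norm_pow]
    exact (pow_le_pow_left₀ (norm_nonneg _) hna 2).trans (by norm_num)
  rw [key]
  refine (norm_sub_le _ _).trans (add_le_add ((norm_add_le _ _).trans (add_le_add
    ((norm_add_le _ _).trans (add_le_add le_rfl ?_)) ?_)) ?_) <;> rw [norm_mul]
  · exact mul_le_mul_of_nonneg_right hna (norm_nonneg _)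
  · exact mul_le_mul_of_nonneg_right hna (norm_nonneg _)
  · exact mul_le_mul_of_nonneg_right hna2 (norm_nonneg _)

theorem fl2_Sq {Z : ℝ} {k : ℤ} (h : k ∈ Sq Z) : Squarefree k ∧ k ≠ 1 ∧ |(k : ℝ)| ≤ Z := by
  simp only [Sq, mem_filter] at h
  exact ⟨h.2.1, h.2.2.1, h.2.2.2.2⟩

theorem pFL2 (hI : PWI) (hK : PKB) : FL2 := by
  obtain ⟨⟨c, R₀, hc, hR₀, hP⟩, -⟩ := pPC
  refine ⟨2 * Real.exp π / c, R₀, by positivity, hR₀,
    fun κ t v κ' t' v' Z R M hκ hκ' hZ hR hM => ?_⟩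
  have hR1 : 1 < R := by linarith
  have hL : 0 < Real.log R := Real.log_pos hR1
  have hcard := hP R hR
  set P := (Ioc 100 ⌊R⌋₊).filter Nat.Prime with hPdef
  have hpos : 0 < c * R / Real.log R := by positivity
  have hPne : P.Nonempty := by
    rw [← card_pos]
    exact_mod_cast hpos.trans_le hcard
  have hM0 : 0 ≤ M := by simpa using hM v v' ∅ le_rfl le_rfl
  have hPm : ∀ r ∈ P, r.Prime ∧ 100 < r ∧ (r : ℝ) ≤ R := by
    intro r hr
    rw [hPdef, mem_filter, mem_Ioc] at hr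
    exact ⟨hr.2, hr.1.1, (Nat.le_floor_iff (by linarith)).1 hr.1.2⟩
  have hb : ∀ k : ℤ, ∃ B : ℝ, k ∈ Sq Z → ∀ a b : ℝ, ‖Bm κ t a κ' t' b k‖ ≤ B := by
    intro k
    by_cases hk : k ∈ Sq Z
    · obtain ⟨h1, -, B, hB⟩ := (hK κ t κ' t' hκ hκ').2 k (fl2_Sq hk).1 (fl2_Sq hk).2.1
      exact ⟨B, fun _ a b => by rw [(h1 a b).1]; exact hB a b⟩
    · exact ⟨0, fun h => absurd h hk⟩
  choose B hB using hb
  have h := fl2_abs (Sq Z) (fun k hk => (fl2_Sq hk).1) P (fun r hr => (hPm r hr).1) hPne v v'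
    (fun a b m => ‖Bm κ t a κ' t' b m‖) (fun _ _ _ => norm_nonneg _)
    (fun a b k _ r hr => fl2_rel hI hκ hκ' t a t' b k (hPm r hr).1 (hPm r hr).2.1)
    (∑ k ∈ Sq Z, B k ^ 2)
    (fun a b => sum_le_sum fun k hk => pow_le_pow_left₀ (norm_nonneg _) (hB k hk a b) 2)
    (GX (Z * R ^ 2)) (Real.exp (-π)) (Real.exp_pos _) ?_ M hM
  · refine h.trans ?_
    have := Real.exp_pos π
    calc 2 * M / (Real.exp (-π) * P.card) = 2 * Real.exp π * M / P.card := by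
          have : (0 : ℝ) < P.card := hpos.trans_le hcard
          rw [Real.exp_neg]
          field_simp
      _ ≤ 2 * Real.exp π * M / (c * R / Real.log R) :=
          div_le_div_of_nonneg_left (by positivity) hpos hcard
      _ = _ := by field_simp
  · intro k hk r hr
    have hr100 : (100 : ℝ) < r := by exact_mod_cast (hPm r hr).2.1
    have hrR := (hPm r hr).2.2
    have h1 : |(k : ℝ) * (r : ℝ) ^ 2| ≤ Z * R ^ 2 := by
      rw [abs_mul, abs_of_nonneg (sq_nonneg (r : ℝ))]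
      exact mul_le_mul (fl2_Sq hk).2.2 (pow_le_pow_left₀ (by linarith) hrR 2) (sq_nonneg _) hZ.le
    have h2 : ((k : ℝ) * (r : ℝ) ^ 2) ^ 2 ≤ (Z * R ^ 2) ^ 2 := by
      rw [← sq_abs ((k : ℝ) * _)]; exact pow_le_pow_left₀ (abs_nonneg _) h1 2
    unfold GX
    refine Real.exp_le_exp.2 ?_
    push_cast
    rw [le_div_iff₀ (by positivity)]
    have := mul_le_mul_of_nonneg_left h2 Real.pi_pos.le
    linarith

end Pool.Agent.Q4
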