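import Pool.Agent.P.MP_ea46f5_nt.Q4.S4

namespace Pool.Agent.Q4

open Complex MeasureTheory Finset Pool.Agent.QM
open scoped Real

theorem izm_ind (hMUL : MUL) {h : ℝ → ℂ} {g : ℂ → ℂ} (hh : Integrable h)
    (hg : ∀ x : ℝ, g (x * I) = ∫ v : ℝ, h v * cexp (x * I * v)) (F : Finset ℤ) (ω : ℤ → ℝ)
    (f : ℤ → V4 → ℂ) (B : ℝ) (hf : ∀ k ∈ F, 0 ≤ ω k ∧ IL (cs 0) (f k)) (hB : Bd F ω f B)
    (S : Finset (Σ _ : Fin 4, Fin 4)) :
    Bd F ω (fun k s => f k s * ∏ x ∈ S, g (s x.1 + s x.2)) ((∫ v, ‖h v‖) ^ S.card * B) ∧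
      ∀ k ∈ F, IL (cs 0) fun s => f k s * ∏ x ∈ S, g (s x.1 + s x.2) := by
  classical
  induction S using Finset.induction_on with
  | empty => simpa using ⟨hB, fun k hk => (hf k hk).2⟩
  | insert a S ha ih =>
    have := hMUL F ω _ _ h g a.1 a.2 hh hg (fun k hk => ⟨(hf k hk).1, ih.2 k hk⟩) ih.1
    have e : ∀ (k : ℤ) (s : V4), f k s * ∏ x ∈ insert a S, g (s x.1 + s x.2) =
        f k s * (∏ x ∈ S, g (s x.1 + s x.2)) * g (s a.1 + s a.2) := fun k s => by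
      rw [prod_insert ha]
      ring
    simp only [e]
    rw [card_insert_of_notMem ha, pow_succ', mul_assoc]
    exact this

theorem pIZM (hMUL : MUL) (hIZF : IZF) : IZM := by
  obtain ⟨A, h, hh, hg⟩ := hIZF
  set S : Finset (Σ _ : Fin 4, Fin 4) := univ.sigma fun i => Ici i with hS
  have hN : 0 ≤ (∫ v, ‖h v‖) ^ S.card := pow_nonneg (integral_nonneg fun _ => norm_nonneg _) _
  refine ⟨A, (∫ v, ‖h v‖) ^ S.card + 1, by linarith, fun F ω f B hf hB V => ?_⟩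
  have hB0 : 0 ≤ B :=
    (sum_nonneg fun k hk => mul_nonneg (hf k hk).1 (norm_nonneg _)).trans (hB 0)
  have := (izm_ind hMUL hh hg F ω f B hf hB S).1 V
  simp only [hS, prod_sigma] at this
  refine this.trans ?_
  rw [add_mul]
  linarith

end Pool.Agent.Q4
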