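import Pool.Agent.P.MP_ea46f5_nt.Q4.K1m
import Pool.Agent.P.MP_ea46f5_nt.Q4.S4

namespace Pool.Agent.Q4

open Complex MeasureTheory Finset
open scoped Real
open Pool.Agent.QM

theorem pFUB5 : FUB5 := fun σ M c F hc hb => by
  obtain ⟨h1, h2, h3, h4⟩ := k1_FUB hc hb
  exact ⟨h1, h3, h2, h1 ▸ h4.trans (le_of_eq (by ring))⟩

theorem pSH4P : SH4P := fun _ _ _ _ u h hu hf hm =>
  k1_SHP u (fun i j e => by_contra fun n => hu i j n e) (fun j => (h j).1) (fun j => (h j).2) hf hm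

theorem pK1 (hLOP : LOP) (hIZ : IZ) (hE41 : E41) : K1 := by
  obtain ⟨C, hC, h⟩ := k1_main hLOP hIZ
  refine ⟨18, C, hC, fun Y K Kr ε X V M hK hKe => ?_⟩
  have e : Yk Y K (3 / 4) 1 = 1 / (2 * π) * Y1 Kr (Hone Y) (3 / 4) (cs 12) := by
    unfold Yk Y1
    congr 1
    refine integral_congr_ae (.of_forall fun y => ?_)
    beta_reduce
    generalize hz : (((3 / 4 : ℝ) : ℂ) + y * I) = z
    have hz' : z.re = 3 / 4 := by simp [← hz]
    rw [In, In, ← integral_div]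
    refine k1_In_congr (G := fun u => K 1 z u * ZY Y 1 z u)
      (H := fun u => G1 Kr (Hone Y) z u / (z - 1 / 2)) fun u hu => ?_
    rw [hKe z u hz', hE41 Y z u (by linarith) (by linarith) hu, G1]
    ring
  rw [e]
  exact (h 18 Kr _ ε X V M le_rfl hK).2.2.2

end Pool.Agent.Q4
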