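import Pool.Agent.P.MP_ea46f5_nt.Q4.S4
import Pool.Agent.P.MP_ea46f5_nt.QM.FLOCa

/-! LOC4: the local factors. -/

namespace Pool.Agent.Q4

open Complex Finset Pool.Agent.QM

section abs
variable {ι : Type} {r : ι → ℝ}

theorem l4_sum {κ : Type} {k : ℕ} (s : Finset κ) {f : κ → ι → ℂ} (h : ∀ j, Og r k (f j)) :
    Og r k fun i => ∑ j ∈ s, f j i := by
  classical
  induction s using Finset.induction_on with
  | empty => exact (Og.zero r k).congr fun i => by simp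
  | insert a s ha ih => exact ((h a).add ih).congr fun i => by rw [sum_insert ha]

theorem l4_prod (hr : ∀ i, 0 ≤ r i ∧ r i ≤ 1) {κ : Type} (s : Finset κ) {A b : κ → ι → ℂ}
    (h : ∀ j, Jet r (A j) (fun _ => 0) (b j)) :
    Jet r (fun i => ∏ j ∈ s, A j i) (fun _ => 0) fun i => ∑ j ∈ s, b j i := by
  classical
  induction s using Finset.induction_on with
  | empty => exact (Jet.quad (Og.zero r 2)).congr (fun i => by simp) (fun _ => rfl) fun i => by simp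
  | insert a s ha ih =>
    exact ((h a).mul hr ih).congr (fun i => by rw [prod_insert ha]) (fun i => by simp)
      fun i => by simp [sum_insert ha]

theorem l4_pairs (f : Fin 4 → Fin 4 → ℂ) : ∑ i, ∑ j ∈ Ici i, f i j =
    f 0 0 + f 0 1 + f 0 2 + f 0 3 + f 1 1 + f 1 2 + f 1 3 + f 2 2 + f 2 3 + f 3 3 := by
  rw [Fin.sum_univ_four, show Ici (0 : Fin 4) = {0, 1, 2, 3} by decide,
    show Ici (1 : Fin 4) = {1, 2, 3} by decide, show Ici (2 : Fin 4) = {2, 3} by decide,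
    show Ici (3 : Fin 4) = {3} by decide]
  simp only [mem_insert, mem_singleton, Fin.reduceEq, or_self, not_false_eq_true, sum_insert,
    sum_singleton]
  ring

theorem l4_lin (hr : ∀ i, 0 ≤ r i ∧ r i ≤ 1) {a : Fin 4 → ι → ℂ} (h : ∀ j, Og r 1 (a j)) :
    Jet r (fun i => ∏ j, (1 - a j i)) (fun i => -∑ j, a j i)
      fun i => (∑ j, a j i) ^ 2 - ∑ j, ∑ l ∈ Ici j, a j i * a l i :=
  (((Jet.lin (h 0).neg).mul hr (Jet.lin (h 1).neg)).mul hr
    ((Jet.lin (h 2).neg).mul hr (Jet.lin (h 3).neg))).congr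
    (fun i => by rw [Fin.prod_univ_four]; ring) (fun i => by rw [Fin.sum_univ_four]; ring)
    fun i => by rw [l4_pairs, Fin.sum_univ_four]; ring

theorem l4_fin {A a b : ι → ℂ} (h : Jet r A a b) (h' : Og r 3 fun i => a i + b i) :
    Og r 3 fun i => A i - 1 :=
  (h.2.2.add h').congr fun i => by ring

theorem l4_sq {x : ℂ} {q : ℝ} (hq : q < 1) (h : ‖x‖ ≤ q) {y : ℂ} (h' : ‖y‖ ≤ q) :
    ‖x * y‖ ≤ q := by
  rw [norm_mul]
  nlinarith [norm_nonneg x, norm_nonneg y]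

/-- the jet of the local factor -/
theorem l4_loc (hr : ∀ i, 0 ≤ r i ∧ r i ≤ 1) {q : ℝ} (hq : q < 1) {x : Fin 4 → ι → ℂ}
    {w y : ι → ℂ} (hx : ∀ j, Og r 1 (x j)) (bx : ∀ j i, ‖x j i‖ ≤ q)
    (hy : ∀ j, Og r 1 fun i => y i * x j i) (hw : ∀ j l, Og r 2 fun i => w i * (x j i * x l i)) :
    Jet r (fun i => w i + (1 - w i + y i) / 2 * ∏ j, (1 - 1 * x j i)⁻¹ +
        (1 - w i - y i) / 2 * ∏ j, (1 - -1 * x j i)⁻¹) (fun i => ∑ j, y i * x j i)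
      fun i => ∑ j, ∑ l ∈ Ici j, (x j i * x l i - w i * (x j i * x l i)) := by
  have h2 : ∀ j l, Og r 2 fun i => x j i * x l i := fun j l => (hx j).mul (hx l)
  have hc : ∀ j l, Og r 2 fun i => x j i * x l i - w i * (x j i * x l i) :=
    fun j l => (h2 j l).sub (hw j l)
  have ha := l4_sum univ hy
  have hb := l4_sum univ fun j => l4_sum (Ici j) (hc j)
  have jD := l4_prod hr univ fun j => Jet.inv2 hr hq (h2 j j) fun i => l4_sq hq (bx j i) (bx j i)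
  have hD := jD.bdd hr
  have hD1 : Og r 2 fun i => ∏ j, (1 - x j i * x j i)⁻¹ - 1 :=
    (jD.2.1.add (jD.2.2.mono hr (by norm_num))).congr fun i => by ring
  have m1 : Og r 2 fun i => x 2 i * x 2 i + x 3 i * x 3 i - x 2 i * x 2 i * (x 3 i * x 3 i) :=
    ((h2 2 2).add (h2 3 3)).sub (((h2 2 2).mul (h2 3 3)).mono hr (by norm_num))
  have m0 := ((h2 1 1).add m1).sub (((h2 1 1).mul m1).mono hr (by norm_num))
  have hN : Og r 4 _ := ((((hc 0 1).mul (h2 2 3)).sub ((hc 0 0).mul m0)).sub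
    ((hc 1 1).mul m1)).sub ((hc 2 2).mul (h2 3 3))
  have hE : Og r 3 _ := ((hy 0).mul (((h2 1 2).add (h2 1 3)).add (h2 2 3))).add
    ((hy 1).mul (h2 2 3))
  have t1 : Og r 3 _ := (hb.mul hD1).mono hr (by norm_num)
  have t2 : Og r 3 _ := (hN.mul hD).mono hr (by norm_num)
  have t3 : Og r 3 _ := ha.mul hD1
  have t4 : Og r 3 _ := hE.mul hD
  refine ⟨ha, hb, (((t1.add t2).add t3).add t4).congr fun i => ?_⟩
  have n1 : ∀ j, 1 - x j i ≠ 0 := fun j => one_sub_ne hq (bx j i)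
  have n2 : ∀ j, 1 + x j i ≠ 0 := fun j => by
    simpa using one_sub_ne hq (x := -x j i) (by rw [norm_neg]; exact bx j i)
  have n3 : ∀ j, 1 - x j i * x j i ≠ 0 := fun j => one_sub_ne hq (l4_sq hq (bx j i) (bx j i))
  have e1 : ∏ j, (1 - 1 * x j i)⁻¹ = (∏ j, (1 + x j i)) * ∏ j, (1 - x j i * x j i)⁻¹ := by
    rw [← prod_mul_distrib]
    refine prod_congr rfl fun j _ => ?_
    rw [one_mul, show 1 - x j i * x j i = (1 + x j i) * (1 - x j i) by ring, mul_inv,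
      mul_inv_cancel_left₀ (n2 j)]
  have e2 : ∏ j, (1 - -1 * x j i)⁻¹ = (∏ j, (1 - x j i)) * ∏ j, (1 - x j i * x j i)⁻¹ := by
    rw [← prod_mul_distrib]
    refine prod_congr rfl fun j _ => ?_
    rw [neg_one_mul, sub_neg_eq_add, show 1 - x j i * x j i = (1 - x j i) * (1 + x j i) by ring,
      mul_inv, mul_inv_cancel_left₀ (n1 j)]
  have e3 : (∏ j, (1 - x j i * x j i)) * ∏ j, (1 - x j i * x j i)⁻¹ = 1 := by
    rw [← prod_mul_distrib]
    exact prod_eq_one fun j _ => mul_inv_cancel₀ (n3 j)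
  beta_reduce
  rw [e1, e2]
  generalize ∏ j, (1 - x j i * x j i)⁻¹ = D at e3 ⊢
  simp only [l4_pairs]
  simp only [Fin.prod_univ_four, Fin.sum_univ_four] at e3 ⊢
  linear_combination (1 - w i) * e3

end abs

theorem l4_r {p : ℕ} (hp : p.Prime) (h2 : p ≠ 2) :
    0 ≤ (p : ℝ) ^ (-(11 / 30) : ℝ) ∧ (p : ℝ) ^ (-(11 / 30) : ℝ) ≤ 7 / 10 :=
  ⟨by positivity, rpow_neg_le (three_le_of hp h2) (by norm_num)⟩

theorem l4_le {p : ℕ} (hp : p.Prime) (k : ℕ) {s : ℂ} (h : s.re ≤ -(11 / 30) * k) :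
    ‖(p : ℂ) ^ s‖ ≤ ((p : ℝ) ^ (-(11 / 30) : ℝ)) ^ k := by
  rw [← Real.rpow_natCast, ← Real.rpow_mul (Nat.cast_nonneg p)]
  exact norm_cp_le hp.pos h

theorem l4_cube (p : ℕ) : ((p : ℝ) ^ (-(11 / 30) : ℝ)) ^ 3 = (p : ℝ) ^ (-(11 / 10) : ℝ) := by
  rw [← Real.rpow_natCast, ← Real.rpow_mul (Nat.cast_nonneg p)]
  norm_num

theorem l4_inv {p : ℕ} : (1 : ℂ) / p = (p : ℂ) ^ (-1 : ℂ) := by
  rw [cpow_neg_one, one_div]

theorem l4_ok {p : ℕ} (hp : p.Prime) (k : ℤ) (z u : ℂ) : ok k z p * xs u p =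
    (jacobiSym k p : ℂ) * ((p : ℂ) ^ (-(1 + (u - z))) - (p : ℂ) ^ (-(1 + u + z))) := by
  rw [ok, xs, show -(1 + (u - z)) = -(1 / 2 : ℂ) + z + -(1 / 2 + u) by ring,
    show -(1 + u + z) = -(1 / 2 : ℂ) + -z + -(1 / 2 + u) by ring]
  simp only [← cp_add hp.pos]
  ring

theorem l4_ek {p : ℕ} (hp : p.Prime) (k : ℤ) (z u v : ℂ) : (1 - ek k z p) * (xs u p * xs v p) =
    (1 - (jacobiSym k p : ℂ) ^ 2) * ((p : ℂ) ^ (-(1 + (u - z))) * (p : ℂ) ^ (-(1 + (v - z)))) +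
      (jacobiSym k p : ℂ) ^ 2 * ((p : ℂ) ^ (-1 : ℂ) * (xs u p * xs v p)) := by
  have hg : k.gcd p ≠ 1 ↔ (p : ℤ) ∣ k := by
    rw [Int.natCast_dvd, Int.gcd, Int.natAbs_natCast, Nat.gcd_comm]
    exact (hp.coprime_iff_not_dvd.not.trans not_not)
  unfold ek
  split_ifs with h
  · rw [jacobiSym.eq_zero_iff.2 ⟨hp.ne_zero, hg.2 h⟩]
    simp only [xs, cp_add hp.pos, sub_sub_cancel, Int.cast_zero]
    rw [show 2 * z - 1 + (-(1 / 2 + u) + -(1 / 2 + v)) = -(1 + (u - z)) + -(1 + (v - z)) by ring]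
    ring
  · have h1 : ((jacobiSym k p : ℤ) : ℂ) ^ 2 = 1 := by
      exact_mod_cast jacobiSym.sq_one (not_not.1 (mt hg.1 h))
    rw [h1, l4_inv]
    ring

theorem l4_chi (k : ℤ) (p : ℕ) : ‖((jacobiSym k p : ℤ) : ℂ)‖ ≤ 1 := by
  rcases jacobiSym.trichotomy k p with h | h | h <;> simp [h]

theorem l4_eq (k : ℤ) (z : ℂ) (u : V4) (p : ℕ) : loc4 k z u p =
    (1 - ek k z p) + (1 - (1 - ek k z p) + ok k z p) / 2 * ∏ j, (1 - 1 * xs (u j) p)⁻¹ +
      (1 - (1 - ek k z p) - ok k z p) / 2 * ∏ j, (1 - -1 * xs (u j) p)⁻¹ := by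
  simp only [loc4, Fq, sub_sub_cancel]

/-- the common part of the two cases -/
theorem l4_jet {ι : Type} (p : ι → ℕ) (k : ι → ℤ) (z : ι → ℂ) (u : ι → V4)
    (hp : ∀ i, (p i).Prime ∧ p i ≠ 2) (hu : ∀ i j, -(1 / 40) < (u i j).re)
    (ha : ∀ i j, -(11 / 20) < (u i j - z i).re) (hz : ∀ i, -(1 / 40) < (z i).re) :
    Jet (fun i => (p i : ℝ) ^ (-(11 / 30) : ℝ)) (fun i => loc4 (k i) (z i) (u i) (p i))
      (fun i => ∑ j, (jacobiSym (k i) (p i) : ℂ) *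
        ((p i : ℂ) ^ (-(1 + (u i j - z i))) - (p i : ℂ) ^ (-(1 + u i j + z i))))
      fun i => ∑ j, ∑ l ∈ Ici j, (xs (u i j) (p i) * xs (u i l) (p i) -
        ((1 - (jacobiSym (k i) (p i) : ℂ) ^ 2) *
          ((p i : ℂ) ^ (-(1 + (u i j - z i))) * (p i : ℂ) ^ (-(1 + (u i l - z i)))) +
        (jacobiSym (k i) (p i) : ℂ) ^ 2 *
          ((p i : ℂ) ^ (-1 : ℂ) * (xs (u i j) (p i) * xs (u i l) (p i))))) := by
  have hr := fun i => l4_r (hp i).1 (hp i).2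
  have hr' : ∀ i, 0 ≤ (p i : ℝ) ^ (-(11 / 30) : ℝ) ∧ (p i : ℝ) ^ (-(11 / 30) : ℝ) ≤ 1 :=
    fun i => ⟨(hr i).1, (hr i).2.trans (by norm_num)⟩
  have bx : ∀ j i, ‖xs (u i j) (p i)‖ ≤ ((p i : ℝ) ^ (-(11 / 30) : ℝ)) ^ 1 := fun j i =>
    l4_le (hp i).1 1 (by have := hu i j; simp; linarith)
  have hx := fun j => Og.of_le (bx j)
  have hχ : Og (fun i => (p i : ℝ) ^ (-(11 / 30) : ℝ)) 0 fun i => (jacobiSym (k i) (p i) : ℂ) :=
    Og.of_le fun i => by rw [pow_zero]; exact l4_chi _ _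
  have hξ : ∀ j, Og (fun i => (p i : ℝ) ^ (-(11 / 30) : ℝ)) 1
      fun i => (p i : ℂ) ^ (-(1 + (u i j - z i))) := fun j => Og.of_le fun i =>
    l4_le (hp i).1 1 (by have := ha i j; simp at this ⊢; linarith)
  have hζ : ∀ j, Og (fun i => (p i : ℝ) ^ (-(11 / 30) : ℝ)) 1
      fun i => (p i : ℂ) ^ (-(1 + u i j + z i)) := fun j => Og.of_le fun i =>
    l4_le (hp i).1 1 (by have := hu i j; have := hz i; simp; linarith)
  have ht : Og (fun i => (p i : ℝ) ^ (-(11 / 30) : ℝ)) 0 fun i => (p i : ℂ) ^ (-1 : ℂ) :=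
    Og.of_le fun i => l4_le (hp i).1 0 (by simp)
  refine (l4_loc hr' (q := 7 / 10) (by norm_num) (w := fun i => 1 - ek (k i) (z i) (p i))
    (y := fun i => ok (k i) (z i) (p i)) hx (fun j i => (bx j i).trans (by simpa using (hr i).2))
    (fun j => (hχ.mul ((hξ j).sub (hζ j))).congr fun i => l4_ok (hp i).1 _ _ _)
    fun j l => (((((Og.const _ 1).sub (hχ.mul hχ)).mul ((hξ j).mul (hξ l))).add
      ((hχ.mul hχ).mul (ht.mul ((hx j).mul (hx l))))).congr fun i => by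
        rw [l4_ek (hp i).1, sq])).congr (fun i => l4_eq _ _ _ _)
    (fun i => by simp only [l4_ok (hp i).1]) fun i => by simp only [l4_ek (hp i).1]

theorem l4_out {ι : Type} {p : ι → ℕ} {A F : ι → ℂ}
    (h : Og (fun i => (p i : ℝ) ^ (-(11 / 30) : ℝ)) 3 fun i => A i - 1)
    (h' : Og (fun i => (p i : ℝ) ^ (-(11 / 30) : ℝ)) 0 F) :
    ∃ C : ℝ, 0 < C ∧ ∀ i, ‖A i - 1‖ ≤ C * (p i : ℝ) ^ (-(11 / 10) : ℝ) ∧ ‖F i‖ ≤ C := by
  obtain ⟨C, h0, h⟩ := h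
  obtain ⟨D, h1, h'⟩ := h'
  refine ⟨C + D + 1, by linarith, fun i => ⟨(h i).trans ?_, (h' i).trans (by simp; linarith)⟩⟩
  rw [l4_cube]
  exact mul_le_mul_of_nonneg_right (by linarith) (by positivity)

theorem l4_k {ι : Type} (p : ι → ℕ) (k : ι → ℤ) (z : ι → ℂ) (u : ι → V4)
    (hp : ∀ i, (p i).Prime ∧ p i ≠ 2) (hV : ∀ i, (z i, u i) ∈ Vk) : ∃ C : ℝ, 0 < C ∧ ∀ i,
      ‖loc4 (k i) (z i) (u i) (p i) * fk (k i) (z i) (u i) (p i) - 1‖ ≤
        C * (p i : ℝ) ^ (-(11 / 10) : ℝ) ∧ ‖fk (k i) (z i) (u i) (p i)‖ ≤ C := by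
  have hz : ∀ i, 1 / 2 < (z i).re := fun i => (hV i).1
  have hu : ∀ i j, 1 / 6 < (u i j).re := fun i j => ((hV i).2.2 j).1
  have ha : ∀ i j, -(11 / 20) < (u i j - z i).re := fun i j => ((hV i).2.2 j).2
  have hr := fun i => l4_r (hp i).1 (hp i).2
  have hr' : ∀ i, 0 ≤ (p i : ℝ) ^ (-(11 / 30) : ℝ) ∧ (p i : ℝ) ^ (-(11 / 30) : ℝ) ≤ 1 :=
    fun i => ⟨(hr i).1, (hr i).2.trans (by norm_num)⟩
  have jl := l4_jet p k z u hp (fun i j => by linarith [hu i j]) ha fun i => by linarith [hz i]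
  have hχ : Og (fun i => (p i : ℝ) ^ (-(11 / 30) : ℝ)) 0 fun i => (jacobiSym (k i) (p i) : ℂ) :=
    Og.of_le fun i => by rw [pow_zero]; exact l4_chi _ _
  have bξ : ∀ j i, ‖(p i : ℂ) ^ (-(1 + (u i j - z i)))‖ ≤ ((p i : ℝ) ^ (-(11 / 30) : ℝ)) ^ 1 :=
    fun j i => l4_le (hp i).1 1 (by have := ha i j; simp at this ⊢; linarith)
  have bξ' : ∀ j i, ‖(p i : ℂ) ^ (-(1 + (u i j - z i)))‖ ≤ 7 / 10 :=
    fun j i => (bξ j i).trans (by simpa using (hr i).2)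
  have hξ := fun j => Og.of_le (bξ j)
  have hζ : ∀ j, Og (fun i => (p i : ℝ) ^ (-(11 / 30) : ℝ)) 3
      fun i => (p i : ℂ) ^ (-(1 + u i j + z i)) := fun j => Og.of_le fun i =>
    l4_le (hp i).1 3 (by have := hu i j; have := hz i; simp; linarith)
  have hx : ∀ j l, Og (fun i => (p i : ℝ) ^ (-(11 / 30) : ℝ)) 3
      fun i => xs (u i j) (p i) * xs (u i l) (p i) := fun j l => Og.of_le fun i => by
    rw [xs, xs, cp_add (hp i).1.pos]
    exact l4_le (hp i).1 3 (by have := hu i j; have := hu i l; simp; linarith)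
  have ht : Og (fun i => (p i : ℝ) ^ (-(11 / 30) : ℝ)) 0 fun i => (p i : ℂ) ^ (-1 : ℂ) :=
    Og.of_le fun i => l4_le (hp i).1 0 (by simp)
  have j1 := l4_lin hr' fun j => hχ.mul (hξ j)
  have j2 := l4_prod hr' univ fun j => l4_prod hr' (Ici j) fun l =>
    Jet.inv2 hr' (q := 7 / 10) (by norm_num) ((hξ j).mul (hξ l))
      fun i => l4_sq (by norm_num) (bξ' j i) (bξ' l i)
  have jf : Jet _ (fun i => fk (k i) (z i) (u i) (p i)) _ _ := (j1.mul hr' j2).congr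
    (fun i => by
      simp only [fk, jo, if_pos ((hp i).1.odd_of_ne_two (hp i).2), div_eq_mul_inv,
        prod_inv_distrib, cp_add (hp i).1.pos]
      congr 2
      refine prod_congr rfl fun j _ => prod_congr rfl fun l _ => ?_
      congr 2
      ring) (fun _ => rfl) fun _ => rfl
  have hβ := l4_sum univ fun j => hχ.mul (hζ j)
  have hα := l4_sum univ fun j => hχ.mul (hξ j)
  have hh := l4_sum univ fun j => l4_sum (Ici j) (hx j)
  refine l4_out (l4_fin (jl.mul hr' jf) ((((hh.sub hβ).sub (((hχ.mul hχ).mul ht).mul hh)).add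
    ((hβ.mul hα).mono hr' (by norm_num))).congr fun i => ?_)) (jf.bdd hr')
  simp only [l4_pairs]
  simp only [Fin.sum_univ_four]
  ring

theorem l4_1 {ι : Type} (p : ι → ℕ) (z : ι → ℂ) (u : ι → V4)
    (hp : ∀ i, (p i).Prime ∧ p i ≠ 2) (hV : ∀ i, (z i, u i) ∈ V1) : ∃ C : ℝ, 0 < C ∧ ∀ i,
      ‖loc4 1 (z i) (u i) (p i) * n1 (z i) (u i) (p i) - 1‖ ≤
        C * (p i : ℝ) ^ (-(11 / 10) : ℝ) ∧ ‖n1 (z i) (u i) (p i)‖ ≤ C := by
  have hz : ∀ i, -(1 / 40) < (z i).re := fun i => (hV i).1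
  have hu : ∀ i j, -(1 / 40) < (u i j).re := fun i j => ((hV i).2.2 j).1
  have ha : ∀ i j, -(9 / 20) < (u i j - z i).re := fun i j => ((hV i).2.2 j).2
  have hr := fun i => l4_r (hp i).1 (hp i).2
  have hr' : ∀ i, 0 ≤ (p i : ℝ) ^ (-(11 / 30) : ℝ) ∧ (p i : ℝ) ^ (-(11 / 30) : ℝ) ≤ 1 :=
    fun i => ⟨(hr i).1, (hr i).2.trans (by norm_num)⟩
  have jl := l4_jet p (fun _ => 1) z u hp hu (fun i j => by linarith [ha i j]) hz
  have hξ : ∀ j, Og (fun i => (p i : ℝ) ^ (-(11 / 30) : ℝ)) 1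
      fun i => (p i : ℂ) ^ (-(1 + (u i j - z i))) := fun j => Og.of_le fun i =>
    l4_le (hp i).1 1 (by have := ha i j; simp at this ⊢; linarith)
  have hξ2 : ∀ j l, Og (fun i => (p i : ℝ) ^ (-(11 / 30) : ℝ)) 3 fun i =>
      (p i : ℂ) ^ (-(1 + (u i j - z i))) * (p i : ℂ) ^ (-(1 + (u i l - z i))) :=
    fun j l => Og.of_le fun i => by
      rw [cp_add (hp i).1.pos]
      exact l4_le (hp i).1 3 (by have := ha i j; have := ha i l; simp at *; linarith)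
  have bζ : ∀ j i, ‖(p i : ℂ) ^ (-(1 + u i j + z i))‖ ≤ ((p i : ℝ) ^ (-(11 / 30) : ℝ)) ^ 2 :=
    fun j i => l4_le (hp i).1 2 (by have := hu i j; have := hz i; simp; linarith)
  have hζ := fun j => Og.of_le (bζ j)
  have hx : ∀ j l, Og (fun i => (p i : ℝ) ^ (-(11 / 30) : ℝ)) 2
      fun i => xs (u i j) (p i) * xs (u i l) (p i) := fun j l => Og.of_le fun i => by
    rw [xs, xs, cp_add (hp i).1.pos]
    exact l4_le (hp i).1 2 (by have := hu i j; have := hu i l; simp; linarith)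
  have ht : Og (fun i => (p i : ℝ) ^ (-(11 / 30) : ℝ)) 1 fun i => (p i : ℂ) ^ (-1 : ℂ) :=
    Og.of_le fun i => l4_le (hp i).1 1 (by simp; norm_num)
  have j1 := l4_lin hr' hξ
  have j2 := l4_prod hr' univ fun j => l4_prod hr' (Ici j) fun l => Jet.quad (hx j l).neg
  have j3 := l4_prod hr' univ fun j => Jet.inv2 hr' (q := 7 / 10) (by norm_num) (hζ j)
    fun i => (bζ j i).trans (by nlinarith [hr i])
  have jf : Jet _ (fun i => n1 (z i) (u i) (p i)) _ _ := ((j1.mul hr' j2).mul hr' j3).congr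
    (fun i => by
      simp only [n1, xs, div_eq_mul_inv, prod_inv_distrib, cp_add (hp i).1.pos, ← sub_eq_add_neg]
      congr 2
      refine prod_congr rfl fun j _ => prod_congr rfl fun l _ => ?_
      congr 2
      ring) (fun _ => rfl) fun _ => rfl
  have hβ := l4_sum univ hζ
  have hα := l4_sum univ hξ
  have hh := l4_sum univ fun j => l4_sum (Ici j) (hx j)
  have h2 := l4_sum univ fun j => l4_sum (Ici j) (hξ2 j)
  refine l4_out (l4_fin (jl.mul hr' jf) ((((hα.mul hβ).sub (ht.mul hh)).sub h2).congr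
    fun i => ?_)) (jf.bdd hr')
  simp only [l4_pairs]
  simp only [Fin.sum_univ_four, jacobiSym.one_left, Int.cast_one]
  ring

theorem pLOC4 : LOC4 := by
  obtain ⟨C, h0, h⟩ := l4_k
    (ι := {q : ℕ × ℤ × ℂ × V4 // (q.1.Prime ∧ q.1 ≠ 2) ∧ q.2.2 ∈ Vk}) (fun i => i.1.1)
    (fun i => i.1.2.1) (fun i => i.1.2.2.1) (fun i => i.1.2.2.2) (fun i => i.2.1) fun i => i.2.2
  obtain ⟨D, h1, h'⟩ := l4_1
    (ι := {q : ℕ × ℂ × V4 // (q.1.Prime ∧ q.1 ≠ 2) ∧ q.2 ∈ V1}) (fun i => i.1.1)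
    (fun i => i.1.2.1) (fun i => i.1.2.2) (fun i => i.2.1) fun i => i.2.2
  refine ⟨C + D, by linarith, fun p hp h2 => ⟨fun k x hx => ?_, fun x hx => ?_⟩⟩
  · have := h ⟨(p, k, x), ⟨hp, h2⟩, hx⟩
    exact ⟨this.1.trans (mul_le_mul_of_nonneg_right (by linarith) (by positivity)),
      this.2.trans (by linarith)⟩
  · have := h' ⟨(p, x), ⟨hp, h2⟩, hx⟩
    exact ⟨this.1.trans (mul_le_mul_of_nonneg_right (by linarith) (by positivity)),
      this.2.trans (by linarith)⟩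

end Pool.Agent.Q4
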