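import Pool.Agent.P.MP_ea46f5_nt.Q4.S4
import Pool.Agent.P.MP_ea46f5_nt.QM.FHA

namespace Pool.Agent.Q4

open Complex MeasureTheory Finset Pool.Agent.QM
open scoped Real ComplexConjugate

section
variable {E : Type} [NormedAddCommGroup E] [NormedSpace ℂ E]

theorem lod_pow (p : ℕ) (hp : p ≠ 0) {f : E → ℂ} {x : E} (hf : DifferentiableAt ℂ f x) :
    DifferentiableAt ℂ (fun t => (p : ℂ) ^ f t) x :=
  hf.const_cpow (Or.inl (by exact_mod_cast hp))

theorem lod_div {f g : E → ℂ} {x : E} (hf : DifferentiableAt ℂ f x)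
    (hg : DifferentiableAt ℂ g x) (h : g x ≠ 0) : DifferentiableAt ℂ (fun t => f t / g t) x := by
  simp only [div_eq_mul_inv]
  exact hf.fun_mul (hg.fun_inv h)

theorem lod_prod {ι : Type} (s : Finset ι) {f : ι → E → ℂ} {x : E}
    (h : ∀ i ∈ s, DifferentiableAt ℂ (f i) x) :
    DifferentiableAt ℂ (fun t => ∏ i ∈ s, f i t) x := by
  classical
  exact (HasFDerivAt.finsetProd fun i hi => (h i hi).hasFDerivAt).differentiableAt

end

theorem lod_Fq (p : ℕ) (hp : 2 ≤ p) (y : ℂ) (hy : ‖y‖ ≤ 1) (x : ℂ × V4)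
    (hx : ∀ j, -(1 / 2) < (x.2 j).re) :
    DifferentiableAt ℂ (fun t : ℂ × V4 => Fq t.2 p y) x := by
  unfold Fq xs
  refine lod_prod _ fun j _ => DifferentiableAt.fun_inv ((differentiableAt_const _).fun_sub
    ((lod_pow p (by omega) (by fun_prop)).const_mul _)) ?_
  rw [mul_comm]
  exact ha_ne p hp _ (by have := hx j; simp only [add_re]; norm_num; linarith) y hy

theorem lod_loc4 (k : ℤ) (p : ℕ) (hp : 2 ≤ p) (x : ℂ × V4) (hx : ∀ j, -(1 / 2) < (x.2 j).re) :
    DifferentiableAt ℂ (fun t : ℂ × V4 => loc4 k t.1 t.2 p) x := by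
  have hp0 : p ≠ 0 := by omega
  have hek : DifferentiableAt ℂ (fun t : ℂ × V4 => ek k t.1 p) x := by
    unfold ek
    split_ifs
    · exact (differentiableAt_const _).sub (lod_pow p hp0 (by fun_prop))
    · exact differentiableAt_const _
  have hok : DifferentiableAt ℂ (fun t : ℂ × V4 => ok k t.1 p) x := by
    unfold ok
    exact (differentiableAt_const _).mul
      ((lod_pow p hp0 (by fun_prop)).sub (lod_pow p hp0 (by fun_prop)))
  unfold loc4
  exact (((differentiableAt_const _).fun_sub hek).fun_add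
    ((lod_div (hek.fun_add hok) (differentiableAt_const _) two_ne_zero).fun_mul
      (lod_Fq p hp 1 (by simp) x hx))).fun_add
    ((lod_div (hek.fun_sub hok) (differentiableAt_const _) two_ne_zero).fun_mul
      (lod_Fq p hp (-1) (by simp) x hx))

theorem pLOD : LOD := by
  refine ⟨?_, ?_, fun p hp => ⟨fun k => ⟨fun x hx => ?_, fun x hx => ?_⟩, fun x hx => ?_,
    fun x hx => ?_⟩⟩
  · unfold Vk
    simp only [Set.ofPred_and, Set.ofPred_forall]
    refine IsOpen.inter ?_ (IsOpen.inter ?_ (isOpen_iInter_of_finite fun j => IsOpen.inter ?_ ?_))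
      <;> exact isOpen_lt (by fun_prop) (by fun_prop)
  · unfold V1
    simp only [Set.ofPred_and, Set.ofPred_forall]
    refine IsOpen.inter ?_ (IsOpen.inter ?_ (isOpen_iInter_of_finite fun j => IsOpen.inter ?_ ?_))
      <;> exact isOpen_lt (by fun_prop) (by fun_prop)
  · exact lod_loc4 k p hp.two_le x fun j => by linarith [(hx.2.2 j).1]
  · unfold fk
    refine lod_div (lod_prod _ fun j _ => (differentiableAt_const _).fun_sub
      ((lod_pow p hp.ne_zero (by fun_prop)).const_mul _))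
      (lod_prod _ fun i _ => lod_prod _ fun j _ => (differentiableAt_const _).fun_sub
        (lod_pow p hp.ne_zero (by fun_prop))) ?_
    refine prod_ne_zero_iff.2 fun i _ => prod_ne_zero_iff.2 fun j _ => ha_ne1 p hp.two_le _ ?_
    have h1 := (hx.2.2 i).2
    have h2 := (hx.2.2 j).2
    simp only [add_re, re_ofNat]
    linarith
  · exact lod_loc4 1 p hp.two_le x fun j => by linarith [(hx.2.2 j).1]
  · unfold n1
    refine lod_div ((lod_prod _ fun j _ => (differentiableAt_const _).fun_sub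
      (lod_pow p hp.ne_zero (by fun_prop))).fun_mul
      (lod_prod _ fun i _ => lod_prod _ fun j _ => (differentiableAt_const _).fun_sub
        (lod_pow p hp.ne_zero (by fun_prop))))
      (lod_prod _ fun j _ => (differentiableAt_const _).fun_sub
        (lod_pow p hp.ne_zero (by fun_prop))) ?_
    refine prod_ne_zero_iff.2 fun j _ => ha_ne1 p hp.two_le _ ?_
    have h1 := (hx.2.2 j).1
    have h2 := hx.1
    simp only [add_re, one_re]
    linarith

theorem lod_sum (C : ℝ) : Summable fun p : Nat.Primes => C * ((p : ℕ) : ℝ) ^ (-(11 / 10) : ℝ) :=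
  (Nat.Primes.summable_rpow.2 (by norm_num)).mul_left C

theorem lod_odd {Y a p : ℕ} (ha : a ∈ AY Y) (hp : p ∈ a.primeFactors) : p.Prime ∧ p ≠ 2 := by
  refine ⟨Nat.prime_of_mem_primeFactors hp, fun h => ?_⟩
  have h1 := Nat.dvd_of_mem_primeFactors hp
  rw [h] at h1
  exact Nat.not_even_iff_odd.2 (mem_filter.1 ha).2 (even_iff_two_dvd.2 h1)

theorem pHTa (hPRH : PRH) : HTa := by
  intro C hC
  obtain ⟨B, hB⟩ := pow_unbounded_of_one_lt C (one_lt_two : (1 : ℝ) < 2)
  refine ⟨Real.exp (∑' p : Nat.Primes, C * ((p : ℕ) : ℝ) ^ (-(11 / 10) : ℝ)), 12 + B + 1,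
    Real.exp_pos _, fun U y F Y hU h7 h => ?_⟩
  have key := fun a : ℕ => hPRH (ℂ × V4) U
    (fun p x => if (p : ℕ) = 2 ∨ (p : ℕ) ∣ a then 1 else y p x) _ hU (lod_sum C)
    (fun p x hx => by
      split_ifs with hc
      · exact differentiableAt_const _
      · exact (h p p.2 fun e => hc (Or.inl e)).1 x hx)
    (fun p x hx => by
      split_ifs with hc
      · rw [sub_self, norm_zero]
        positivity
      · exact ((h p p.2 fun e => hc (Or.inl e)).2.2 x hx).1)
  refine ⟨fun x hx => ?_, fun x hx => ?_⟩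
  · unfold HY HP
    refine DifferentiableAt.fun_sum fun a ha => DifferentiableAt.fun_mul
      ((lod_pow a ?_ (by fun_prop)).const_mul _) (DifferentiableAt.fun_mul
        (lod_prod _ fun p hp => (h p (lod_odd ha hp).1 (lod_odd ha hp).2).2.1 x hx)
        ((key a).1 x hx))
    have := (mem_Icc.1 (mem_filter.1 ha).1).1
    omega
  · obtain ⟨M, hM⟩ : ∃ M, M = Real.exp (∑' p : Nat.Primes, C * ((p : ℕ) : ℝ) ^ (-(11 / 10) : ℝ)) :=
      ⟨_, rfl⟩
    have hM0 : 0 < M := hM ▸ Real.exp_pos _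
    rw [← hM] at key ⊢
    have h1 : ∀ a ∈ AY Y, ‖(ArithmeticFunction.moebius a : ℂ) * (a : ℂ) ^ (2 * x.1 - 2) *
        HP (fun p => y p x) (fun p => F p x) a‖ ≤ (Y : ℝ) ^ 12 * ((Y : ℝ) ^ B * M) := by
      intro a ha
      obtain ⟨a1, a2⟩ := mem_Icc.1 (mem_filter.1 ha).1
      have a3 : (1 : ℝ) ≤ a := by exact_mod_cast a1
      have a4 : (a : ℝ) ≤ Y := by exact_mod_cast a2
      have e1 : ‖(ArithmeticFunction.moebius a : ℂ)‖ ≤ 1 := by
        rw [Complex.norm_intCast]
        exact_mod_cast ArithmeticFunction.abs_moebius_le_one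
      have e2 : ‖(a : ℂ) ^ (2 * x.1 - 2)‖ ≤ (Y : ℝ) ^ 12 := by
        rw [Complex.norm_natCast_cpow_of_pos a1]
        have e3 : (2 * x.1 - 2).re ≤ (12 : ℕ) := by
          have := h7 x hx
          simp only [sub_re, mul_re, re_ofNat, im_ofNat, zero_mul, sub_zero]
          push_cast
          linarith
        refine (Real.rpow_le_rpow_of_exponent_le a3 e3).trans ?_
        rw [Real.rpow_natCast]
        exact pow_le_pow_left₀ (by linarith) a4 12
      have e3 : ‖∏ p ∈ a.primeFactors, F p x‖ ≤ (Y : ℝ) ^ B := by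
        rw [norm_prod]
        have e4 : ∏ p ∈ a.primeFactors, ‖F p x‖ ≤ ∏ p ∈ a.primeFactors, (p : ℝ) ^ B :=
          prod_le_prod (fun _ _ => norm_nonneg _) fun p hp =>
            ((h p (lod_odd ha hp).1 (lod_odd ha hp).2).2.2 x hx).2.trans (hB.le.trans
              (pow_le_pow_left₀ zero_le_two (by exact_mod_cast (lod_odd ha hp).1.two_le) B))
        refine e4.trans ?_
        rw [prod_pow, ← Nat.cast_prod]
        refine pow_le_pow_left₀ (Nat.cast_nonneg _) (le_trans ?_ a4) B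
        exact_mod_cast Nat.le_of_dvd a1 (Nat.prod_primeFactors_dvd a)
      unfold HP
      rw [norm_mul, norm_mul, norm_mul]
      exact mul_le_mul ((mul_le_of_le_one_left (norm_nonneg _) e1).trans e2)
        (mul_le_mul e3 ((key a).2 x hx).2 (norm_nonneg _) (by positivity)) (by positivity)
        (by positivity)
    have h2 : ((AY Y).card : ℝ) ≤ Y := by
      have := card_filter_le (Icc 1 Y) Odd
      rw [Nat.card_Icc, Nat.add_sub_cancel] at this
      exact_mod_cast this
    unfold HY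
    refine ((norm_sum_le _ _).trans (sum_le_card_nsmul _ _ _ h1)).trans ?_
    rw [nsmul_eq_mul]
    refine (mul_le_mul_of_nonneg_right h2 (by positivity)).trans (le_of_eq ?_)
    ring

theorem lod_V1 {u : V4} (hu : ∀ j, 0 ≤ (u j).re) : ((0, u) : ℂ × V4) ∈ V1 := by
  refine ⟨by simp, by simp, fun j => ⟨?_, ?_⟩⟩
  · linarith [hu j]
  · simp only [sub_zero]
    linarith [hu j]

theorem pHB4 (hPRH : PRH) (hLOC4 : LOC4) (hLOD : LOD) (hHTa : HTa) (hHTb : HTb) : HB4 := by
  obtain ⟨C, hC, hL⟩ := hLOC4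
  obtain ⟨o1, o2, hD⟩ := hLOD
  obtain ⟨C₁, B, hC₁, ha⟩ := hHTa C hC
  obtain ⟨C₂, hC₂, hb⟩ := hHTb C hC
  have hcont : ContinuousOn HI {u | ∀ j, 0 ≤ (u j).re} := by
    have key := hPRH (ℂ × V4) V1 (fun p x => if (p : ℕ) = 2 then 1 else
        loc4 1 x.1 x.2 p * n1 x.1 x.2 p - n1 x.1 x.2 p / ((p : ℕ) : ℂ) ^ 2) _ o2 (lod_sum (2 * C))
      (fun p x hx => by
        split_ifs with hc
        · exact differentiableAt_const _
        · exact (((hD p p.2).2.1 x hx).fun_mul ((hD p p.2).2.2 x hx)).fun_sub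
            (lod_div ((hD p p.2).2.2 x hx) (differentiableAt_const _)
              (pow_ne_zero 2 (by exact_mod_cast p.2.ne_zero))))
      (fun p x hx => by
        split_ifs with hc
        · rw [sub_self, norm_zero]
          positivity
        · obtain ⟨e1, e2⟩ := (hL p p.2 hc).2 x hx
          have p1 : (1 : ℝ) ≤ ((p : ℕ) : ℝ) := by exact_mod_cast p.2.one_le
          have e3 : ‖n1 x.1 x.2 p / ((p : ℕ) : ℂ) ^ 2‖ ≤ C * ((p : ℕ) : ℝ) ^ (-(11 / 10) : ℝ) := by
            rw [norm_div, norm_pow, Complex.norm_natCast, div_eq_mul_inv]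
            refine mul_le_mul e2 ?_ (by positivity) hC.le
            rw [← Real.rpow_natCast, ← Real.rpow_neg (by linarith)]
            exact Real.rpow_le_rpow_of_exponent_le p1 (by norm_num)
          rw [sub_right_comm]
          refine (norm_sub_le _ _).trans ?_
          linarith)
    intro u hu
    have h1 : ContinuousAt (fun v : V4 => ((0, v) : ℂ × V4)) u := by fun_prop
    exact (ContinuousAt.comp (f := fun v : V4 => ((0, v) : ℂ × V4))
      (key.1 _ (lod_V1 hu)).continuousAt h1).continuousWithinAt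
  have m1 : ∀ Y : ℕ, C₁ * (Y : ℝ) ^ B ≤ (C₁ + C₂) * (Y : ℝ) ^ B := fun Y =>
    mul_le_mul_of_nonneg_right (by linarith) (by positivity)
  refine ⟨C₁ + C₂, B, by linarith, fun Y => ?_⟩
  have hk := fun k : ℤ => ha Vk (fun p x => loc4 k x.1 x.2 p * fk k x.1 x.2 p)
    (fun p x => fk k x.1 x.2 p) Y o1 (fun x hx => hx.2.1) fun p hp h2 =>
      ⟨fun x hx => (((hD p hp).1 k).1 x hx).fun_mul (((hD p hp).1 k).2 x hx), ((hD p hp).1 k).2,
        (hL p hp h2).1 k⟩
  have h1 := ha V1 (fun p x => loc4 1 x.1 x.2 p * n1 x.1 x.2 p)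
    (fun p x => n1 x.1 x.2 p) Y o2 (fun x hx => hx.2.1) fun p hp h2 =>
      ⟨fun x hx => ((hD p hp).2.1 x hx).fun_mul ((hD p hp).2.2 x hx), (hD p hp).2.2,
        (hL p hp h2).2⟩
  refine ⟨fun k => ⟨(hk k).1, fun x hx => ((hk k).2 x hx).trans (m1 Y)⟩, h1.1,
    fun x hx => (h1.2 x hx).trans (m1 Y), fun hY u hu => ?_, hcont⟩
  have h2 := hb (fun p => loc4 1 0 u p * n1 0 u p) (n1 0 u) Y hY fun p hp h2 =>
    (hL p hp h2).2 (0, u) (lod_V1 hu)
  exact ⟨h2.1.trans (div_le_div_of_nonneg_right (by linarith) (Real.sqrt_nonneg _)),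
    h2.2.trans (by linarith)⟩

end Pool.Agent.Q4
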