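import Pool.Agent.P.MP_ea46f5_nt.Q4.S4
import Pool.Agent.P.MP_ea46f5_nt.QM.FMT

namespace Pool.Agent.Q4

open Real Finset Pool.Agent.QM

theorem mt2_block {y K θ : ℝ} (hy : 0 < y) (hK : 0 < K) (h0 : 0 ≤ θ) (h10 : θ ≤ 10) :
    om (y ^ 40 / 2) * ((y ^ 40 * K) * lg (y ^ 40 * K) ^ θ) ≤
      64 * 61 ^ 10 * (K * lg K ^ θ) * min y y⁻¹ := by
  unfold om lg
  have hl := lg_ge hK.le
  have hu : 0 < y ^ 40 := by positivity
  have hl2 := lg_ge (K := y ^ 40 * K) (by positivity)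
  have hp : 0 ≤ log (2 + K) ^ θ := rpow_nonneg (by linarith) _
  have hp2 : 0 ≤ log (2 + y ^ 40 * K) ^ θ := rpow_nonneg (by linarith) _
  rcases le_total y 1 with h | h
  · have hu1 : y ^ 40 ≤ 1 := pow_le_one₀ hy.le h
    have e1 : min y y⁻¹ = y := min_eq_left (le_trans h (one_le_inv₀ hy |>.2 h))
    have e2 : (y ^ 40 / 2) ^ (-(3 / 4) : ℝ) ≤ 2 * (y ^ 30)⁻¹ := by
      rw [div_rpow hu.le (by norm_num), ← rpow_natCast, ← rpow_mul hy.le]
      have a1 : ((40 : ℕ) : ℝ) * (-(3 / 4)) = -((30 : ℕ) : ℝ) := by norm_num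
      rw [a1, rpow_neg hy.le, rpow_natCast, div_eq_mul_inv, ← rpow_neg (by norm_num), mul_comm]
      gcongr
      calc (2 : ℝ) ^ (-(-(3 / 4) : ℝ)) ≤ 2 ^ (1 : ℝ) :=
            rpow_le_rpow_of_exponent_le (by norm_num) (by norm_num)
        _ = 2 := rpow_one _
    have e3 : y ^ 40 * K ≤ K := by nlinarith
    have e4 : log (2 + y ^ 40 * K) ^ θ ≤ log (2 + K) ^ θ :=
      rpow_le_rpow (by linarith) (log_le_log (by positivity) (by linarith)) h0
    have e6 : y ^ 10 ≤ y := by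
      calc y ^ 10 ≤ y ^ 1 := pow_le_pow_of_le_one hy.le h (by norm_num)
        _ = y := pow_one _
    rw [e1]
    calc _ ≤ (2 * (y ^ 30)⁻¹) * ((y ^ 40 * K) * log (2 + K) ^ θ) := by
          gcongr
          exact (min_le_left _ _).trans e2
      _ = 2 * (K * log (2 + K) ^ θ) * y ^ 10 := by field_simp
      _ ≤ 64 * 61 ^ 10 * (K * log (2 + K) ^ θ) * y := by
          gcongr
          norm_num
  · have hu1 : 1 ≤ y ^ 40 := one_le_pow₀ h
    have e1 : min y y⁻¹ = y⁻¹ := min_eq_right (le_trans (inv_le_one_of_one_le₀ h) h)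
    have e2 : (y ^ 40 / 2) ^ (-6 : ℝ) = 64 * (y ^ 240)⁻¹ := by
      have a1 : (-6 : ℝ) = -((6 : ℕ) : ℝ) := by norm_num
      rw [a1, rpow_neg (by positivity), rpow_natCast]
      field_simp
      norm_num
    have e4 : log (2 + y ^ 40 * K) ≤ 61 * y * log (2 + K) := by
      have a1 : log (2 + y ^ 40 * K) ≤ log (y ^ 40 * (2 + K)) :=
        log_le_log (by positivity) (by nlinarith)
      rw [log_mul hu.ne' (by positivity), log_pow] at a1
      have a2 : log y ≤ y := (log_le_sub_one_of_pos hy).trans (by linarith)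
      push_cast at a1
      nlinarith
    have e5 : log (2 + y ^ 40 * K) ^ θ ≤ (61 * y) ^ 10 * log (2 + K) ^ θ := by
      refine (rpow_le_rpow (by linarith) e4 h0).trans ?_
      rw [mul_rpow (by positivity) (by linarith)]
      refine mul_le_mul_of_nonneg_right ?_ hp
      rw [← rpow_natCast]
      exact rpow_le_rpow_of_exponent_le (by linarith) (by exact_mod_cast h10)
    have e6 : (y ^ 190)⁻¹ ≤ y⁻¹ := by
      apply inv_anti₀ hy
      calc y = y ^ 1 := (pow_one _).symm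
        _ ≤ y ^ 190 := pow_le_pow_right₀ h (by norm_num)
    rw [e1]
    calc _ ≤ (64 * (y ^ 240)⁻¹) * ((y ^ 40 * K) * ((61 * y) ^ 10 * log (2 + K) ^ θ)) := by
          gcongr
          exact (min_le_right _ _).trans e2.le
      _ = 64 * 61 ^ 10 * (K * log (2 + K) ^ θ) * (y ^ 190)⁻¹ := by
          field_simp
      _ ≤ _ := by gcongr

theorem mt2_abs : ∃ C : ℝ, 0 < C ∧ ∀ (a : ℤ → ℝ) (ν K θ : ℝ), 0 ≤ ν → 0 < K → 0 ≤ θ → θ ≤ 10 →
    (∀ k, 0 ≤ a k) → (∀ Z : ℝ, 1 ≤ Z → ∑ k ∈ Sq Z, a k ≤ ν * (Z * lg Z ^ θ)) →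
    ∀ S : Finset ℤ, SQ S → ∑ k ∈ S, om (|(k : ℝ)| / K) * a k ≤ C * ν * (K * lg K ^ θ) := by
  classical
  set r : ℝ := 2 ^ (1 / 40 : ℝ) with hr
  have hr1 : 1 < r := one_lt_rpow (by norm_num) (by norm_num)
  have hr40 : r ^ 40 = 2 := by
    rw [hr, ← rpow_natCast, ← rpow_mul (by norm_num)]
    norm_num
  have hc : 0 < 4 * r / (r - 1) := div_pos (by linarith) (by linarith)
  refine ⟨64 * 61 ^ 10 * (4 * r / (r - 1)), by positivity, ?_⟩
  intro a ν K θ hν hK h0 h10 ha H S hS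
  set n : ℤ → ℝ := fun k => |(k : ℝ)| with hn0
  have hn : ∀ k ∈ S, 1 ≤ n k := fun k hk => by
    have : 1 ≤ |k| := Int.one_le_abs (hS k hk).1.ne_zero
    simp only [hn0]
    exact_mod_cast this
  set v : ℝ := K ^ (-1 / 40 : ℝ) with hv
  have hv0 : 0 < v := rpow_pos_of_pos hK _
  have hv40 : v ^ 40 * K = 1 := by
    rw [hv, ← rpow_natCast, ← rpow_mul hK.le]
    have : (-1 / 40 : ℝ) * ((40 : ℕ) : ℝ) = -1 := by norm_num
    rw [this, rpow_neg_one]
    field_simp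
  have hZ : ∀ j : ℕ, (v * r ^ j) ^ 40 * K = 2 ^ j := by
    intro j
    rw [mul_pow, ← pow_mul, mul_comm j, pow_mul, hr40]
    linear_combination (2 : ℝ) ^ j * hv40
  have hex : ∀ k, ∃ j : ℕ, n k ≤ 2 ^ j := fun k =>
    (pow_unbounded_of_one_lt (n k) (by norm_num : (1 : ℝ) < 2)).imp fun _ h => h.le
  set c : ℤ → ℕ := fun k => Nat.find (hex k) with hcdef
  have hc1 : ∀ k, n k ≤ 2 ^ c k := fun k => Nat.find_spec (hex k)
  have hc2 : ∀ k ∈ S, (2 : ℝ) ^ c k / 2 < n k := by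
    intro k hk
    rcases h0 : c k with _ | j
    · have := hn k hk
      norm_num
      linarith
    · have hj : j < Nat.find (hex k) := by
        change j < c k
        omega
      have := Nat.find_min (hex k) hj
      rw [pow_succ]
      push Not at this
      linarith
  set B : ℝ := K * lg K ^ θ with hB
  have hB0 : 0 ≤ B := by
    have := lg_ge hK.le
    exact mul_nonneg hK.le (rpow_nonneg (by unfold lg; linarith) _)
  obtain ⟨N, hN⟩ : ∃ N, ∀ k ∈ S, c k ∈ range N :=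
    ⟨S.sup c + 1, fun k hk => mem_range.2 (Nat.lt_succ_of_le (le_sup hk))⟩
  rw [← sum_fiberwise_of_maps_to hN]
  have key : ∀ j ∈ range N, ∑ k ∈ S with c k = j, om (n k / K) * a k ≤
      64 * 61 ^ 10 * ν * B * min (v * r ^ j) (v * r ^ j)⁻¹ := by
    intro j _
    set y := v * r ^ j with hy
    have hy0 : 0 < y := by positivity
    have hb := mt2_block hy0 hK h0 h10
    have hw : 0 ≤ om (y ^ 40 / 2) := le_min (by positivity) (by positivity)
    have hH : ∑ k ∈ S with c k = j, a k ≤ ν * (2 ^ j * lg (2 ^ j) ^ θ) := by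
      refine le_trans (sum_le_sum_of_subset_of_nonneg (fun k hk => ?_) fun k _ _ => ha k)
        (H (2 ^ j) (one_le_pow₀ (by norm_num)))
      obtain ⟨h1, h2⟩ := mem_filter.1 hk
      exact mt_mem_Sq.2 ⟨(hS k h1).1, (hS k h1).2, h2 ▸ hc2 k h1, h2 ▸ hc1 k⟩
    rw [← hZ j, ← hy] at hH
    calc _ ≤ ∑ k ∈ S with c k = j, om (y ^ 40 / 2) * a k := by
          refine sum_le_sum fun k hk => ?_
          obtain ⟨h1, h2⟩ := mem_filter.1 hk
          have h3 := hc2 k h1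
          rw [h2, ← hZ j, ← hy] at h3
          have h4 : y ^ 40 / 2 ≤ n k / K := by
            rw [le_div_iff₀ hK]
            linarith
          refine mul_le_mul_of_nonneg_right (min_le_min ?_ ?_) (ha k)
          · exact rpow_le_rpow_of_nonpos (by positivity) h4 (by norm_num)
          · exact rpow_le_rpow_of_nonpos (by positivity) h4 (by norm_num)
      _ = om (y ^ 40 / 2) * ∑ k ∈ S with c k = j, a k := by rw [mul_sum]
      _ ≤ om (y ^ 40 / 2) * (ν * ((y ^ 40 * K) * lg (y ^ 40 * K) ^ θ)) := by gcongr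
      _ = ν * (om (y ^ 40 / 2) * ((y ^ 40 * K) * lg (y ^ 40 * K) ^ θ)) := by ring
      _ ≤ ν * (64 * 61 ^ 10 * B * min y y⁻¹) := by gcongr
      _ = _ := by ring
  calc _ ≤ ∑ j ∈ range N, 64 * 61 ^ 10 * ν * B * min (v * r ^ j) (v * r ^ j)⁻¹ := sum_le_sum key
    _ = 64 * 61 ^ 10 * ν * B * ∑ j ∈ range N, min (v * r ^ j) (v * r ^ j)⁻¹ := by rw [mul_sum]
    _ ≤ 64 * 61 ^ 10 * ν * B * (4 * r / (r - 1)) := by
        gcongr
        exact geo_min_sum hr1 hv0 N
    _ = _ := by ring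

theorem pMT2 : MT2 := by
  intro θ h0 h10 h κ κ' hκ hκ'
  obtain ⟨A, C, hC, H⟩ := h κ κ' hκ hκ'
  obtain ⟨D, hD, G⟩ := mt2_abs
  refine ⟨A, D * C, by positivity, fun K t v t' v' F hK hF => ?_⟩
  have hb : 0 ≤ C * br t ^ A * br t' ^ A := by unfold br; positivity
  refine (G (fun k => ‖Pk κ t v κ' t' v' k‖ ^ 2) _ K θ hb hK h0 h10 (fun k => by positivity)
    (fun Z hZ => (H Z t v t' v' hZ).trans (le_of_eq (by ring))) F hF).trans (le_of_eq (by ring))

theorem rec_mono {θ θ' : ℝ} (h : θ ≤ θ') (H : PP2 θ) : PP2 θ' := by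
  intro κ κ' hκ hκ'
  obtain ⟨A, C, hC, G⟩ := H κ κ' hκ hκ'
  refine ⟨A, C * (2 / 3) ^ (θ - θ'), by positivity, fun K t v t' v' F hK hF => ?_⟩
  refine (G K t v t' v' F hK hF).trans ?_
  have hl : 2 / 3 ≤ lg K := lg_ge hK.le
  have e : lg K ^ θ ≤ (2 / 3) ^ (θ - θ') * lg K ^ θ' := by
    calc lg K ^ θ = lg K ^ (θ - θ') * lg K ^ θ' := by
          rw [← rpow_add (by linarith)]; congr 1; ring
      _ ≤ _ := mul_le_mul_of_nonneg_right
          (rpow_le_rpow_of_nonpos (by norm_num) hl (by linarith)) (rpow_nonneg (by linarith) _)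
  have hb : 0 ≤ br t ^ A * br t' ^ A := by unfold br; positivity
  calc _ = C * K * (br t ^ A * br t' ^ A) * lg K ^ θ := by ring
    _ ≤ C * K * (br t ^ A * br t' ^ A) * ((2 / 3) ^ (θ - θ') * lg K ^ θ') := by gcongr
    _ = _ := by ring

theorem pREC (hBAS : BAS) (hMT2 : MT2) (hDIR : DIR) (hRF2 : RF2) : REC := by
  have key : ∀ n : ℕ, PP2 (10 * (3 / 4) ^ n) := by
    intro n
    have hle : ∀ n : ℕ, (10 : ℝ) * (3 / 4) ^ n ≤ 10 := fun n => by
      have : (3 / 4 : ℝ) ^ n ≤ 1 := pow_le_one₀ (by norm_num) (by norm_num)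
      linarith
    induction n with
    | zero => simpa using hMT2 10 (by norm_num) le_rfl hBAS
    | succ n ih =>
      have a := hDIR _ (10 * (3 / 4) ^ n / 4) (by positivity) (hle n) (by positivity) ih
      have e : (10 : ℝ) * (3 / 4) ^ n / 2 + 10 * (3 / 4) ^ n / 4 = 10 * (3 / 4) ^ (n + 1) := by
        ring
      rw [e] at a
      exact hMT2 _ (by positivity) (hle _)
        ((hRF2 _ 0).1 ((hRF2 _ 0).2 2 ((hRF2 _ 2).1 a)))
  intro θ hθ
  obtain ⟨n, hn⟩ := exists_pow_lt_of_lt_one (x := θ / 10) (y := (3 / 4 : ℝ)) (by positivity)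
    (by norm_num)
  exact rec_mono (by linarith) (key n)

end Pool.Agent.Q4
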