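import Pool.Agent.P.MP_ea46f5_nt.Q4.S4

namespace Pool.Agent.Q4

open Complex MeasureTheory Finset Pool.Agent.QM
open scoped Real ComplexConjugate

theorem ob_br1 (x : ℝ) : 1 ≤ br x := by
  unfold br
  linarith [abs_nonneg x]

theorem ob_five {a b c d e : ℝ} (ha : 0 ≤ a) (hb : 0 ≤ b) (hc : 0 ≤ c) (hd : 0 ≤ d) (he : 0 ≤ e) :
    1 + (a + b + c + d + e) ≤ (1 + a) * ((1 + b) * (1 + c) * (1 + d) * (1 + e)) := by
  have k : ∀ x y z : ℝ, 0 ≤ x → 0 ≤ y → 1 + x ≤ z → 1 + (x + y) ≤ z * (1 + y) :=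
    fun x y z hx hy hz => by nlinarith [mul_nonneg hx hy]
  have h := k _ e _ (by positivity) he (k _ d _ (by positivity) hd
    (k _ c _ (by positivity) hc (k a b _ ha hb le_rfl)))
  linarith

theorem ob_br (w : ℂ) (u : V4) : br w.im ≤ br (w + us u).im * ∏ j, br (u j).im := by
  have h1 : (w + us u).im = w.im + ((u 0).im + (u 1).im + (u 2).im + (u 3).im) / 2 := by
    simp [us, Fin.sum_univ_four]
  rw [Fin.prod_univ_four]
  generalize (w + us u).im = y at h1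
  have h2 : |w.im| ≤ |y| + |(u 0).im| + |(u 1).im| + |(u 2).im| + |(u 3).im| := by
    rw [abs_le]
    constructor <;>
    linarith [le_abs_self y, neg_abs_le y, le_abs_self (u 0).im, neg_abs_le (u 0).im,
      le_abs_self (u 1).im, neg_abs_le (u 1).im, le_abs_self (u 2).im, neg_abs_le (u 2).im,
      le_abs_self (u 3).im, neg_abs_le (u 3).im]
  unfold br
  exact le_trans (by linarith) (ob_five (abs_nonneg y) (abs_nonneg (u 0).im)
    (abs_nonneg (u 1).im) (abs_nonneg (u 2).im) (abs_nonneg (u 3).im))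

theorem ob_gauss (hSH : SH4) (n : ℕ) : ∃ C : ℝ, 0 < C ∧ ∀ η y : ℝ, 0 < η → η ≤ 1 →
    br y ^ n * Real.exp (-(η * y) ^ 2) ≤ C / η ^ n := by
  obtain ⟨C, hC, h⟩ := hSH.2.2 1 n 0 one_pos
  refine ⟨C, hC, fun η y h0 h1 => ?_⟩
  have h2 := (h (η * y) 0).2.1
  have h3 : br 0 = 1 := by simp [br]
  rw [h3, one_pow, pow_zero, mul_one, div_one, sub_zero, neg_mul, one_mul] at h2
  have h4 : η * br y ≤ br (η * y) := by
    unfold br
    rw [abs_mul, abs_of_pos h0]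
    linarith
  have h5 := ob_br1 y
  rw [le_div_iff₀ (by positivity)]
  calc _ = (η * br y) ^ n * Real.exp (-(η * y) ^ 2) := by ring
    _ ≤ br (η * y) ^ n * Real.exp (-(η * y) ^ 2) := by gcongr
    _ ≤ C := h2

theorem ob_pre {η X c : ℝ} {w v : ℂ} (h0 : 0 < η) (h1 : η ≤ 1 / 30) (hX : 1 ≤ X) (c1 : 1 ≤ c)
    (c4 : c ≤ 4) (hw : -5 ≤ w.re) (hv : 1 / 4 ≤ v.re) (hv' : v.re ≤ 26) :
    ‖rho η v * (X : ℂ) ^ v * (c : ℂ) ^ (-w)‖ ≤
      4 * 3 * 4 ^ 5 * X ^ v.re * Real.exp (-(η * v.im) ^ 2) := by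
  have a1 : ‖rho η v‖ ≤ 4 * 3 * Real.exp (-(η * v.im) ^ 2) := by
    have b1 : ((η : ℂ) ^ 2 * v ^ 2).re = (η * v.re) ^ 2 + -(η * v.im) ^ 2 := by
      simp [sq]
      ring
    have b2 : 1 / 4 ≤ ‖v‖ := hv.trans (re_le_norm v)
    have b3 : (η * v.re) ^ 2 ≤ 1 := by
      have : η * v.re ≤ 1 / 30 * 26 := by gcongr
      exact pow_le_one₀ (by positivity) (by linarith)
    have b4 : Real.exp ((η * v.re) ^ 2) ≤ 3 :=
      (Real.exp_le_exp.2 b3).trans (by linarith [Real.exp_one_lt_d9])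
    rw [rho, norm_div, norm_exp, b1, Real.exp_add, div_le_iff₀ (by linarith)]
    calc _ ≤ 3 * Real.exp (-(η * v.im) ^ 2) := by gcongr
      _ = 4 * 3 * Real.exp (-(η * v.im) ^ 2) * (1 / 4) := by ring
      _ ≤ _ := by gcongr
  have a2 : ‖(c : ℂ) ^ (-w)‖ ≤ 4 ^ 5 := by
    rw [norm_cpow_eq_rpow_re_of_pos (by linarith), neg_re]
    calc c ^ (-w.re) ≤ c ^ ((5 : ℕ) : ℝ) :=
          Real.rpow_le_rpow_of_exponent_le c1 (by push_cast; linarith)
      _ = c ^ 5 := Real.rpow_natCast _ _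
      _ ≤ 4 ^ 5 := by gcongr
  rw [norm_mul, norm_mul, norm_cpow_eq_rpow_re_of_pos (by linarith : 0 < X)]
  calc _ ≤ 4 * 3 * Real.exp (-(η * v.im) ^ 2) * X ^ v.re * 4 ^ 5 := by gcongr
    _ = _ := by ring

theorem ob_diff (hus : Differentiable ℂ us) {η X c : ℝ} (hX : 0 < X) (hc : 0 < c) {w : ℂ} {u : V4}
    (hv : 1 / 4 ≤ (w + us u).re) {A : V4 → ℂ} (hA : DifferentiableAt ℂ A u) :
    DifferentiableAt ℂ (fun x : ℂ × V4 => rho η (x.1 + us x.2) * (X : ℂ) ^ (x.1 + us x.2) *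
      (c : ℂ) ^ (-x.1) * A x.2) (w, u) := by
  have h1 : DifferentiableAt ℂ (fun x : ℂ × V4 => x.1 + us x.2) (w, u) :=
    differentiableAt_fst.add ((hus.comp differentiable_snd) (w, u))
  have h2 : w + us u ≠ 0 := fun h => by
    rw [h, zero_re] at hv
    linarith
  refine ((DifferentiableAt.mul ?_ ?_).mul ?_).mul (hA.comp (w, u) differentiableAt_snd)
  · have h3 : DifferentiableAt ℂ (rho η) (w + us u) := by
      unfold rho
      exact DifferentiableAt.div (by fun_prop) differentiableAt_id h2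
    exact DifferentiableAt.comp (w, u) (g := rho η) h3 h1
  · exact h1.const_cpow (Or.inl (ofReal_ne_zero.2 hX.ne'))
  · exact differentiableAt_fst.neg.const_cpow (Or.inl (ofReal_ne_zero.2 hc.ne'))

theorem pOMB (hSH : SH4) (hW : WRB) : OMB := by
  intro g C₀ n hg
  obtain ⟨C, hC, h⟩ := hW g C₀ (n + n) hg
  obtain ⟨C', hC', h'⟩ := ob_gauss hSH n
  refine ⟨4 * 3 * 4 ^ 5 * C * C', 28 + n, by positivity, ?_⟩
  intro γ c Δ η X ε Y w u hP hε hw hu hv
  obtain ⟨d1, d2, d3, d4, d5, hb⟩ := h γ hP.hγ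
  obtain ⟨b1, b2, b3, -⟩ := hb ε Δ hε hP.D1 u hu
  have hu0 : ∀ j, 0 < (u j).re := fun j => hε.trans_le (hu j).1
  have hX := hP.X1
  have hc := hP.c1
  have hΔ := hP.D1
  have hη := hP.h0
  have hη1 : η ≤ 1 := hP.h1.trans (by norm_num)
  have hv' : (w + us u).re ≤ 26 := by
    have h1 : (w + us u).re = w.re + ((u 0).re + (u 1).re + (u 2).re + (u 3).re) / 2 := by
      simp [us, Fin.sum_univ_four]
    have h2 : ∀ j, (u j).re ≤ 12 := fun j => (hu j).2
    linarith [hw.2, h2 0, h2 1, h2 2, h2 3]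
  have hm0 : 0 < min ε 1 := lt_min hε one_pos
  have hm1 : min ε 1 ≤ 1 := min_le_right _ _
  have key : ∀ A : ℂ, ‖A‖ ≤ C * (Δ / min ε 1) ^ 28 * Real.exp (-Δ * ε) * dn (n + n) u →
      ‖rho η (w + us u) * (X : ℂ) ^ (w + us u) * (c : ℂ) ^ (-w) * A‖ ≤
        4 * 3 * 4 ^ 5 * C * C' * (Δ / (η * min ε 1)) ^ (28 + n) * X ^ (w + us u).re *
          Real.exp (-Δ * ε) / br w.im ^ n * dn n u := by
    intro A hA
    have p1 := ob_pre hη hP.h1 hX hc hP.c4 hw.1 hv hv'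
    have p2 := h' η (w + us u).im hη hη1
    obtain ⟨s1, -, -, s4, -⟩ := hSH.2.1 n n u
    have s3 := (hSH.2.1 (n + n) 0 u).2.2.1
    have w1 := ob_br1 w.im
    have w2 := ob_br1 (w + us u).im
    have p3 : br w.im ^ n ≤ br (w + us u).im ^ n * gn n u := by
      rw [gn, prod_pow, ← mul_pow]
      exact pow_le_pow_left₀ (by linarith) (ob_br w u) n
    have p4 : (Δ / min ε 1) ^ 28 / η ^ n ≤ (Δ / (η * min ε 1)) ^ (28 + n) := by
      have r1 : Δ / min ε 1 ≤ Δ / (η * min ε 1) :=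
        div_le_div_of_nonneg_left (by linarith) (by positivity) (mul_le_of_le_one_left hm0.le hη1)
      have r2 : 1 / η ≤ Δ / (η * min ε 1) := by
        rw [div_le_div_iff₀ hη (by positivity)]
        nlinarith
      rw [pow_add, div_eq_mul_one_div, ← one_div_pow]
      exact mul_le_mul (pow_le_pow_left₀ (by positivity) r1 _)
        (pow_le_pow_left₀ (by positivity) r2 _) (by positivity) (by positivity)
    generalize (w + us u).im = y at p1 p2 p3 w2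
    have hXr : 0 ≤ X ^ (w + us u).re := Real.rpow_nonneg (by linarith) _
    generalize X ^ (w + us u).re = T at p1 hXr ⊢
    rw [norm_mul, div_mul_eq_mul_div, le_div_iff₀ (by positivity), ← s1]
    calc _ ≤ 4 * 3 * 4 ^ 5 * T * Real.exp (-(η * y) ^ 2) *
          (C * (Δ / min ε 1) ^ 28 * Real.exp (-Δ * ε) * dn (n + n) u) * (br y ^ n * gn n u) := by
          gcongr
      _ = 4 * 3 * 4 ^ 5 * T * C * (Δ / min ε 1) ^ 28 * Real.exp (-Δ * ε) *
          (gn n u * dn (n + n) u) * (br y ^ n * Real.exp (-(η * y) ^ 2)) := by ring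
      _ ≤ 4 * 3 * 4 ^ 5 * T * C * (Δ / min ε 1) ^ 28 * Real.exp (-Δ * ε) *
          (gn n u * dn (n + n) u) * (C' / η ^ n) := by gcongr
      _ = 4 * 3 * 4 ^ 5 * C * C' * ((Δ / min ε 1) ^ 28 / η ^ n) * T * Real.exp (-Δ * ε) *
          (gn n u * dn (n + n) u) := by ring
      _ ≤ _ := by gcongr
  have e3 : ∀ (w : ℂ) (u : V4), Om g γ c Δ η X w u =
      rho η (w + us u) * (X : ℂ) ^ (w + us u) * (c : ℂ) ^ (-w) * (W4 g γ u * (1 - cF Δ u)) := by
    intro w u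
    rw [Om, Ow, W4]
    ring
  have dc : DifferentiableAt ℂ (fun u => 1 - cF Δ u) u := (d3 Δ u).const_sub 1
  refine ⟨ob_diff d5 (by linarith) (by linarith) hv ((d1 u hu0).mul dc),
    ob_diff d5 (by linarith) (by linarith) hv ((d2 u hu0).mul dc), ?_, key _ b1, key _ b2, ?_⟩
  · simp only [e3]
    exact ob_diff d5 (by linarith) (by linarith) hv (((d2 u hu0).mul (d4 u)).mul dc)
  · rw [e3]
    exact key _ b3

end Pool.Agent.Q4
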