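import Pool.Agent.P.MP_ea46f5_nt.Q4.S4

/-! The smooth cut-off `phi`. -/

namespace Pool.Agent.Q4

open Complex MeasureTheory Set Pool.Agent.QM
open scoped Real

theorem ph_total {η : ℝ} (hη : 0 < η) (L : ℝ) :
    Integrable (fun s : ℝ => Real.exp (-(L + s) ^ 2 / (4 * η ^ 2))) ∧
      ∫ s : ℝ, Real.exp (-(L + s) ^ 2 / (4 * η ^ 2)) = 2 * η * √π := by
  have e : ∀ y : ℝ, -y ^ 2 / (4 * η ^ 2) = -(1 / (4 * η ^ 2)) * y ^ 2 := fun y => by ring
  simp only [e]
  refine ⟨(integrable_exp_neg_mul_sq (by positivity)).comp_add_left L, ?_⟩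
  rw [integral_add_left_eq_self (fun y : ℝ => Real.exp (-(1 / (4 * η ^ 2)) * y ^ 2)) L,
    integral_gaussian, show π / (1 / (4 * η ^ 2)) = (2 * η) ^ 2 * π by field_simp; norm_num,
    Real.sqrt_mul (sq_nonneg _), Real.sqrt_sq (by positivity)]

theorem ph_part {η : ℝ} (hη : 0 < η) (L : ℝ) {S : Set ℝ} (hS : MeasurableSet S)
    (h : ∀ s ∈ S, 0 ≤ L * s) : ∫ s in S, Real.exp (-(L + s) ^ 2 / (4 * η ^ 2)) ≤
      Real.exp (-L ^ 2 / (4 * η ^ 2)) * (2 * η * √π) := by
  obtain ⟨h1, h2⟩ := ph_total hη 0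
  rw [← h2, ← integral_const_mul]
  refine (setIntegral_mono_on (ph_total hη L).1.integrableOn (h1.const_mul _).integrableOn hS
    fun s hs => ?_).trans (setIntegral_le_integral (h1.const_mul _)
      (Filter.Eventually.of_forall fun s => by positivity))
  rw [← Real.exp_add, ← add_div]
  gcongr
  nlinarith [h s hs]

theorem ph_inner {η : ℝ} (hη : 0 < η) (c y : ℝ) :
    ∫ t : ℝ, cexp (η ^ 2 * (c + t * I) ^ 2 - (c + t * I) * y) =
      (√π / η : ℝ) * (Real.exp (-y ^ 2 / (4 * η ^ 2)) : ℝ) := by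
  have h0 : (η : ℂ) ≠ 0 := ofReal_ne_zero.2 hη.ne'
  have hb : (-(η : ℂ) ^ 2).re < 0 := by
    rw [neg_re, ← ofReal_pow, ofReal_re, neg_lt_zero]; positivity
  have h := integral_cexp_quadratic hb ((2 * η ^ 2 * c - y) * I) (η ^ 2 * c ^ 2 - c * y)
  have e : ∀ t : ℝ, (η : ℂ) ^ 2 * (c + t * I) ^ 2 - (c + t * I) * y =
      -(η : ℂ) ^ 2 * t ^ 2 + (2 * η ^ 2 * c - y) * I * t + (η ^ 2 * c ^ 2 - c * y) := fun t => by
    linear_combination (η : ℂ) ^ 2 * t ^ 2 * I_sq
  simp only [e, h]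
  congr 1
  · rw [neg_neg, ← ofReal_pow, ← ofReal_div, show (1 / 2 : ℂ) = ((1 / 2 : ℝ) : ℂ) by norm_num,
      ← ofReal_cpow (by positivity), ← Real.sqrt_eq_rpow, Real.sqrt_div' _ (sq_nonneg _),
      Real.sqrt_sq hη.le]
  · rw [ofReal_exp]
    congr 1
    push_cast
    rw [mul_pow, I_sq]
    field_simp
    ring

theorem ph_mellin {η x c : ℝ} (hη : 0 < η) (hx : 0 < x) (hc : 0 < c) :
    (phi η x : ℂ) = 1 / (2 * π) * Iv c fun v => rho η v * (x : ℂ) ^ (-v) := by
  have e : ∀ t : ℝ, rho η (c + t * I) * (x : ℂ) ^ (-(c + t * I)) = ∫ s in Ioi (0 : ℝ),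
      cexp (η ^ 2 * (c + t * I) ^ 2 - (c + t * I) * (Real.log x + s : ℝ)) := fun t => by
    obtain ⟨v, hv⟩ : ∃ v : ℂ, v = c + t * I := ⟨_, rfl⟩
    have h1 : (-v).re < 0 := by simpa [hv] using hc
    have h2 := integral_exp_mul_complex_Ioi h1 0
    rw [← hv]
    have h3 : ∀ s : ℝ, cexp (η ^ 2 * v ^ 2 - v * (Real.log x + s : ℝ)) =
        cexp (η ^ 2 * v ^ 2) * (x : ℂ) ^ (-v) * cexp (-v * s) := fun s => by
      rw [cpow_def_of_ne_zero (ofReal_ne_zero.2 hx.ne'), ← ofReal_log hx.le, ← Complex.exp_add,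
        ← Complex.exp_add]
      congr 1
      push_cast
      ring
    simp only [h3, integral_const_mul, h2, rho]
    simp
    ring
  have hi : Integrable (Function.uncurry fun (t s : ℝ) =>
      cexp (η ^ 2 * (c + t * I) ^ 2 - (c + t * I) * (Real.log x + s : ℝ)))
      (volume.prod (volume.restrict (Ioi (0 : ℝ)))) := by
    have h1 := ((integrable_exp_neg_mul_sq (b := η ^ 2) (by positivity)).const_mul
      (Real.exp (η ^ 2 * c ^ 2 - c * Real.log x))).mul_prod
      (integrableOn_exp_mul_Ioi (neg_lt_zero.2 hc) 0)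
    refine h1.mono' (Continuous.aestronglyMeasurable (by fun_prop))
      (Filter.Eventually.of_forall fun p => le_of_eq ?_)
    rw [Function.uncurry, norm_exp, ← Real.exp_add, ← Real.exp_add]
    congr 1
    simp [sq]
    ring
  have hπ : 0 < √π := Real.sqrt_pos.2 Real.pi_pos
  have hs : (π : ℂ) = (√π : ℝ) * (√π : ℝ) := by
    rw [← ofReal_mul, Real.mul_self_sqrt Real.pi_pos.le]
  unfold Iv
  simp only [e]
  rw [integral_integral_swap hi]
  simp only [ph_inner hη]
  rw [integral_const_mul, integral_complex_ofReal, phi, hs]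
  have h0 : (η : ℂ) ≠ 0 := ofReal_ne_zero.2 hη.ne'
  have h1 : ((√π : ℝ) : ℂ) ≠ 0 := ofReal_ne_zero.2 hπ.ne'
  push_cast
  field_simp

theorem pPHW : PHW := by
  intro η x hη hx
  have hN : 0 < 2 * η * √π := mul_pos (by linarith) (Real.sqrt_pos.2 Real.pi_pos)
  obtain ⟨h1, h2⟩ := ph_total hη (Real.log x)
  have a1 : phi η x ≤ 1 := by
    rw [phi, one_div, inv_mul_le_iff₀ hN, mul_one, ← h2]
    exact setIntegral_le_integral h1 (Filter.Eventually.of_forall fun s => by positivity)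
  have a2 : 1 ≤ x → phi η x ≤ Real.exp (-Real.log x ^ 2 / (4 * η ^ 2)) := fun h => by
    rw [phi, one_div, inv_mul_le_iff₀ hN, mul_comm (2 * η * √π)]
    exact ph_part hη _ measurableSet_Ioi fun s hs => mul_nonneg (Real.log_nonneg h) (le_of_lt hs)
  refine ⟨fun c hc => ph_mellin hη hx hc, ?_, a1, a2, fun h => ?_, fun h => ?_⟩
  · exact mul_nonneg (by positivity) (integral_nonneg fun s => by positivity)
  · have h3 := ph_part hη (Real.log x) measurableSet_Iic fun s hs =>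
      mul_nonneg_of_nonpos_of_nonpos (Real.log_nonpos hx.le h) (show s ≤ 0 from hs)
    have h4 := integral_add_compl (measurableSet_Iic (a := (0 : ℝ))) h1
    rw [compl_Iic, h2] at h4
    rw [phi, sub_le_comm, one_div, le_inv_mul_iff₀ hN]
    linarith
  · rcases le_total x 1 with h3 | h3
    · rw [le_div_iff₀ (by positivity)]
      have := pow_le_one₀ (n := 7) hx.le h3
      nlinarith [pow_pos hx 7]
    · refine (a2 h3).trans ?_
      have h4 : (2 : ℝ) / x ^ 7 = Real.exp (Real.log 2 - 7 * Real.log x) := by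
        rw [Real.exp_sub, Real.exp_log two_pos, show (7 : ℝ) = (7 : ℕ) by norm_num,
          Real.exp_nat_mul, Real.exp_log hx]
      rw [h4, Real.exp_le_exp, neg_div]
      have h5 : 225 * Real.log x ^ 2 ≤ Real.log x ^ 2 / (4 * η ^ 2) := by
        rw [le_div_iff₀ (by positivity)]
        have : η ^ 2 ≤ (1 / 30) ^ 2 := by gcongr
        nlinarith [sq_nonneg (Real.log x)]
      nlinarith [Real.log_two_gt_d9, sq_nonneg (30 * Real.log x - 7 / 15)]

end Pool.Agent.Q4
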