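import Pool.Agent.P.MP_ea46f5_nt.Q4.S4

namespace Pool.Agent.Q4

open Complex MeasureTheory Finset Pool.Agent.QM
open scoped Real ComplexConjugate

theorem prt_iv (hPHW : PHW) {η X q : ℝ} (hη : 0 < η) (hX : 0 < X) (hq : 0 < q) {s : ℂ}
    (hs : s.re = 24) :
    (1 / (2 * π) * Iv 2 fun w => rho η (w + s) * (X : ℂ) ^ (w + s) * (q : ℂ) ^ (-w)) =
      phi η (q / X) * (q : ℂ) ^ s := by
  rw [(hPHW η (q / X) hη (div_pos hq hX)).1 26 (by norm_num), mul_assoc, Iv, Iv,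
    ← integral_mul_const, ← integral_add_right_eq_self (fun t : ℝ => rho η ((26 : ℝ) + t * I) *
      ((q / X : ℝ) : ℂ) ^ (-((26 : ℝ) + t * I : ℂ)) * (q : ℂ) ^ s) s.im]
  congr 2
  funext y
  have e : ((26 : ℝ) + ((y + s.im : ℝ) : ℂ) * I : ℂ) = (2 : ℝ) + y * I + s := by
    apply Complex.ext <;> simp [hs]
    norm_num
  have hq' : (q : ℂ) ≠ 0 := ofReal_ne_zero.2 hq.ne'
  have hX' : (X : ℂ).arg ≠ π := by rw [arg_ofReal_of_nonneg hX.le]; exact Real.pi_pos.ne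
  rw [e, div_eq_mul_inv q X, ofReal_mul, mul_cpow_ofReal_nonneg hq.le (inv_nonneg.2 hX.le),
    ofReal_inv, inv_cpow _ _ hX', cpow_neg (X : ℂ), inv_inv,
    show (-((2 : ℝ) + y * I : ℂ)) = -((2 : ℝ) + y * I + s) + s by ring, cpow_add _ _ hq']
  ring

theorem pPRT (hPHW : PHW) : PRT := by
  intro τ r g Δ η X Y m hη hX
  unfold ac ta
  split_ifs with hm
  · have h0 : m ≠ 0 := by
      rintro rfl
      simpa using hm.1
    have hm0 : 0 < |(m : ℝ)| := abs_pos.2 (by exact_mod_cast h0)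
    have hc : 0 < cq r := by unfold cq; split_ifs <;> norm_num
    rw [Tm, In, In, ← integral_const_mul]
    congr 1
    funext t
    have hs : (us (pt (cs 12) t)).re = 24 := by
      simp [us, pt, cs]
      norm_num
    have h1 := prt_iv hPHW hη hX (mul_pos hc hm0) hs
    have h2 : (Iv 2 fun w => Om g (gam r) (cq r) Δ η X w (pt (cs 12) t) *
        ((|(m : ℝ)| : ℝ) : ℂ) ^ (-w)) = (Iv 2 fun w => rho η (w + us (pt (cs 12) t)) *
          (X : ℂ) ^ (w + us (pt (cs 12) t)) * ((cq r * |(m : ℝ)| : ℝ) : ℂ) ^ (-w)) *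
          (W4 g (gam r) (pt (cs 12) t) * (1 - cF Δ (pt (cs 12) t))) := by
      rw [Iv, Iv, ← integral_mul_const]
      congr 1
      funext y
      rw [ofReal_mul (cq r), mul_cpow_ofReal_nonneg hc.le hm0.le, Om, Ow, W4]
      ring
    rw [h2, ← mul_assoc (1 / (2 * π : ℂ)), h1]
    ring
  · simp [In]

end Pool.Agent.Q4
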