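import Pool.Agent.P.MP_ea46f5_nt.Q4.FBAS
import Pool.Agent.P.MP_ea46f5_nt.QM.FSH

/-! Packets: integrability, the square, the shift. -/

namespace Pool.Agent.Q4

open Complex MeasureTheory Finset Pool.Agent.QM
open scoped Real ComplexConjugate

theorem pk_norm {u : ℂ} (hu : |u.re| ≤ 13) : ‖u‖ ≤ 13 * br u.im := by
  have := Complex.norm_le_abs_re_add_abs_im u
  rw [br]
  linarith [abs_nonneg u.im]

theorem pk_exp (κ t : ℝ) (u : ℂ) :
    ‖cexp (κ * (u - t * I) ^ 2)‖ = Real.exp (κ * u.re ^ 2) * Real.exp (-κ * (u.im - t) ^ 2) := by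
  rw [Complex.norm_exp, ← Real.exp_add]
  congr 1
  simp [pow_two]
  ring

theorem pk_le (hS : SH4) {κ : ℝ} (hκ : Kp κ) (t v : ℝ) (j : ℕ) : ∃ C : ℝ, 0 < C ∧
    ∀ u ∈ Strip 0 12, ‖u ^ j * pw κ t v u‖ * br u.im ≤ C / br u.im ^ 2 := by
  obtain ⟨C, hC, h⟩ := hS.2.2 κ (j + 4) 2 hκ.1
  have hbt := tk2_br0 t
  refine ⟨13 ^ (j + 1) * 170 * (Real.exp 144 * Real.exp (|v| * 12)) * (C * br t ^ (j + 4 + 2)),
    by positivity, fun u hu => ?_⟩
  have hb := tk2_br1 u.im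
  have h1 := pk_norm (u := u) (by rw [abs_le]; constructor <;> linarith [hu.1, hu.2])
  have h2 : ‖u ^ 2 - 1 / 4‖ ≤ 170 * br u.im ^ 2 := by
    refine (norm_sub_le _ _).trans ?_
    rw [norm_pow]
    have : ‖(1 / 4 : ℂ)‖ = 1 / 4 := by simp
    nlinarith [norm_nonneg u]
  have h3 : Real.exp (κ * u.re ^ 2) ≤ Real.exp 144 :=
    Real.exp_le_exp.2 (by nlinarith [hu.1, hu.2, hκ.1, hκ.2, sq_nonneg u.re])
  have h4 : ‖cexp (v * u)‖ ≤ Real.exp (|v| * 12) := by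
    rw [Complex.norm_exp, re_ofReal_mul]
    exact Real.exp_le_exp.2 (by nlinarith [hu.1, hu.2, le_abs_self v, abs_nonneg v])
  rw [pw, Complex.exp_add, norm_mul, norm_mul, norm_mul, norm_mul, norm_pow, pk_exp]
  calc _ ≤ (13 * br u.im) ^ j * (13 * br u.im * (170 * br u.im ^ 2) *
        (Real.exp 144 * Real.exp (-κ * (u.im - t) ^ 2) * Real.exp (|v| * 12))) * br u.im := by
        gcongr
    _ = 13 ^ (j + 1) * 170 * (Real.exp 144 * Real.exp (|v| * 12)) *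
        (br u.im ^ (j + 4) * Real.exp (-κ * (u.im - t) ^ 2)) := by ring
    _ ≤ 13 ^ (j + 1) * 170 * (Real.exp 144 * Real.exp (|v| * 12)) *
        (C * br t ^ (j + 4 + 2) / br u.im ^ 2) := by gcongr; exact (h u.im t).2.2
    _ = _ := by ring

theorem pk_diff (κ t v : ℝ) : Differentiable ℂ (pw κ t v) := by
  unfold pw
  fun_prop

theorem pk_Lo (hS : SH4) (hLOP : LOP) (hLOB : LOB) {κ : ℝ} (hκ : Kp κ) (t v : ℝ) (j : ℕ) {k : ℤ}
    (h1 : Squarefree k) (h2 : k ≠ 1) :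
    Differentiable ℂ (fun u => u ^ j * (pw κ t v u * Lo k (1 / 2 + u))) ∧ ∃ C : ℝ,
      ∀ u ∈ Strip 0 12, ‖u ^ j * (pw κ t v u * Lo k (1 / 2 + u))‖ ≤ C / br u.im ^ 2 := by
  obtain ⟨C, hC, h⟩ := pk_le hS hκ t v j
  refine ⟨(differentiable_id.pow j).mul ((pk_diff κ t v).mul ((hLOP.2.1 k h1 h2).comp
    ((differentiable_const _).add differentiable_id))), 104 * |(k : ℝ)| * C, fun u hu => ?_⟩
  have e1 : (1 / 2 + u).re = 1 / 2 + u.re := by simp
  have e2 : (1 / 2 + u).im = u.im := by simp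
  have h3 := hLOB k (1 / 2 + u) h1 h2 (by rw [e1]; linarith [hu.1])
  have h4 := pk_norm (u := 1 / 2 + u) (by rw [e1, abs_le]; constructor <;> linarith [hu.1, hu.2])
  rw [e2] at h4
  have hb := tk2_br0 u.im
  have h5 : ‖Lo k (1 / 2 + u)‖ ≤ 104 * |(k : ℝ)| * br u.im := by
    refine h3.trans ?_
    rw [div_le_iff₀ (by rw [e1]; linarith [hu.1]), e1]
    have h6 : 0 ≤ |(k : ℝ)| * br u.im * u.re := mul_nonneg (by positivity) hu.1
    nlinarith [mul_le_mul_of_nonneg_left h4 (abs_nonneg (k : ℝ))]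
  rw [← mul_assoc, norm_mul]
  calc _ ≤ ‖u ^ j * pw κ t v u‖ * (104 * |(k : ℝ)| * br u.im) := by gcongr
    _ = 104 * |(k : ℝ)| * (‖u ^ j * pw κ t v u‖ * br u.im) := by ring
    _ ≤ 104 * |(k : ℝ)| * (C / br u.im ^ 2) := by gcongr; exact h u hu
    _ = _ := by ring

theorem pPWI (hS : SH4) (hLSP : LSP) (hLOP : LOP) (hLOB : LOB) : PWI := by
  intro κ t v j hκ
  refine ⟨fun k h1 h2 => ?_, fun m => ?_⟩
  · obtain ⟨hd, C, h⟩ := pk_Lo hS hLOP hLOB hκ t v j h1 h2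
    refine sh_int (C := C) (c := 0) (f := fun u => u ^ j * (pw κ t v u * Lo k (1 / 2 + u)))
      (hd.continuous.comp (f := fun τ : ℝ => ((0 : ℝ) : ℂ) + τ * I) (by fun_prop)) fun τ => ?_
    have h3 := h _ (sh_mem (a := 0) (b := 12) τ le_rfl (by norm_num))
    rwa [show (((0 : ℝ) : ℂ) + τ * I).im = τ by simp] at h3
  · obtain ⟨C, hC, h⟩ := pk_le hS hκ t v j
    have hc : Continuous fun τ : ℝ => LS m (1 / 2 + (((12 : ℝ) : ℂ) + τ * I)) :=
      (hLSP.2.2.2.1 m).continuousOn.comp_continuous (by fun_prop) fun τ => by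
        simp; norm_num
    refine sh_int (C := 2 * C) (f := fun u => u ^ j * (pw κ t v u * LS m (1 / 2 + u)))
      (Continuous.mul (by fun_prop) (((pk_diff κ t v).continuous.comp (by fun_prop)).mul hc))
      fun τ => ?_
    have h1 := h _ (sh_mem (a := 0) (b := 12) τ (by norm_num) le_rfl)
    have e : (((12 : ℝ) : ℂ) + τ * I).im = τ := by simp
    have h2 := hLSP.2.2.1 m (1 / 2 + (((12 : ℝ) : ℂ) + τ * I)) (by simp; norm_num)
    rw [e] at h1
    rw [← mul_assoc, norm_mul, mul_div_assoc]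
    nlinarith [tk2_br1 τ, norm_nonneg ((((12 : ℝ) : ℂ) + τ * I) ^ j * pw κ t v ((12 : ℝ) + τ * I))]

theorem pk_conj {c : ℝ} {f g : ℂ → ℂ} (h : ∀ u : ℂ, u.re = c → g u = conj (f (conj u))) :
    Iv c g = conj (Iv c f) := by
  rw [Iv, Iv, ← integral_conj, ← integral_neg_eq_self]
  refine integral_congr_ae (.of_forall fun τ => ?_)
  simp only [h (c + (-τ : ℝ) * I) (by simp)]
  congr 2
  simp

theorem pk_pw_conj (κ t v : ℝ) (u : ℂ) : pw κ (-t) v u = conj (pw κ t v (conj u)) := by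
  simp [pw, ← Complex.exp_conj, map_ofNat]

theorem pPKB (hS : SH4) (hLSP : LSP) (hLOP : LOP) (hLOB : LOB) (hDEC : DEC) (hPR : PR4)
    (hI : PWI) : PKB := by
  intro κ t κ' t' hκ hκ'
  refine ⟨fun v v' m => ?_, fun k h1 h2 => ⟨fun v v' => ⟨?_, by unfold Pk pr; ring⟩,
    fun v' => bs_Pc hLOP hLOB hDEC h1 h2 hκ.1 t t' v',
    _, fun v v' => bs_Pk hLOP hLOB hDEC h1 h2 hκ.1 hκ'.1 t v t' v'⟩⟩
  · have hL : ∀ κ t v : ℝ, Kp κ → Lc 12 (fun u => pw κ t v u * LS m (1 / 2 + u)) ∧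
        Lc 12 fun u => u ^ 2 * (pw κ t v u * LS m (1 / 2 + u)) := fun κ t v hκ =>
      ⟨by simpa using (hI κ t v 0 hκ).2 m, (hI κ t v 2 hκ).2 m⟩
    have hC : ∀ (κ t v : ℝ) (j : ℕ), (Iv 12 fun u => u ^ j * (pw κ (-t) v u * LS m (1 / 2 + u))) =
        conj (Iv 12 fun u => u ^ j * (pw κ t v u * LS m (1 / 2 + u))) := fun κ t v j =>
      pk_conj fun u hu => by
        have e : (1 / 2 + conj u : ℂ) = conj (1 / 2 + u) := by simp [map_ofNat]
        rw [map_mul, map_mul, ← pk_pw_conj, e, hLSP.2.2.2.2.1 m _ (by simp [hu]; norm_num),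
          map_pow, conj_conj]
    have h := (hPR 12 ![fun u => pw κ t v u * LS m (1 / 2 + u),
      fun u => pw κ' t' v' u * LS m (1 / 2 + u), fun u => pw κ (-t) v u * LS m (1 / 2 + u),
      fun u => pw κ' (-t') v' u * LS m (1 / 2 + u)] fun j => by
        fin_cases j
        exacts [hL _ _ _ hκ, hL _ _ _ hκ', hL _ _ _ hκ, hL _ _ _ hκ']).2
    have a0 := hC κ t v 0
    have b0 := hC κ' t' v' 0
    simp only [pow_zero, one_mul] at a0 b0
    have e : pr 12 (fun u => pw κ (-t) v u * LS m (1 / 2 + u))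
        (fun u => pw κ' (-t') v' u * LS m (1 / 2 + u)) = conj (Bm κ t v κ' t' v' m) := by
      rw [Bm, pr, pr, a0, b0, hC, hC, map_sub, map_mul, map_mul]
    push_cast
    rw [← Complex.mul_conj', ← e]
    refine Eq.trans ?_ h
    congr 1
    funext u
    simp only [W2, LL, Fin.prod_univ_four, Matrix.cons_val]
    ring
  · have hC : ∀ (κ t v : ℝ) (j : ℕ), Kp κ →
        (Iv 12 fun u => u ^ j * (pw κ t v u * LS k (1 / 2 + u))) =
        Iv 0 fun u => u ^ j * (pw κ t v u * Lo k (1 / 2 + u)) := fun κ t v j hκ => by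
      obtain ⟨hd, C, h⟩ := pk_Lo hS hLOP hLOB hκ t v j h1 h2
      rw [← pSH0 0 12 C _ (by norm_num) ⟨hd.continuous.continuousOn, hd.differentiableOn⟩ h]
      refine integral_congr_ae (.of_forall fun τ => ?_)
      simp only [hLOP.1 k (1 / 2 + (((12 : ℝ) : ℂ) + τ * I)) h1.ne_zero (by simp; norm_num)]
    have a0 := hC κ t v 0 hκ
    have b0 := hC κ' t' v' 0 hκ'
    simp only [pow_zero, one_mul] at a0 b0
    rw [Bm, Pk, pr, pr, a0, b0, hC _ _ _ _ hκ, hC _ _ _ _ hκ']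

end Pool.Agent.Q4
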