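import Pool.Agent.P.MP_ea46f5_nt.Q4.FVDP
import Pool.Agent.P.MP_ea46f5_nt.Q4.FONB

/-! The polynomial `Q` as a torus integral; its average; its variation. -/

namespace Pool.Agent.Q4

open Complex MeasureTheory Finset Pool.Agent.QM
open scoped Real

theorem qq_ne {r : ℝ} (hr : 0 < r) {r' : ℝ} {z : V4} (hz : z ∈ Ann 4 r r') (j : Fin 4) :
    z j ≠ 0 := norm_pos_iff.1 (hr.trans_le (hz j).1)

theorem qq_zeta {z : V4} (h0 : ∀ j, z j ≠ 0) :
    Vd (fun j => z j ^ 2) ^ 2 * (∏ i, ∏ j ∈ Ici i, riemannZeta (1 + z i + z j)) *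
      ∏ j, z j ^ (1 - 2 * ((4 : ℕ) : ℤ)) = KZ4 z / P8 z := by
  obtain ⟨-, -, -, -, -, -, -, hV⟩ := pVDP
  have h1 := hV z
  have hp : ∏ j, z j ≠ 0 := prod_ne_zero_iff.2 fun j _ => h0 j
  have e : ∏ j, z j ^ (1 - 2 * ((4 : ℕ) : ℤ)) = (∏ j, z j) / P8 z := by
    unfold P8
    rw [← prod_div_distrib]
    refine prod_congr rfl fun j _ => ?_
    have := h0 j
    rw [zpow_sub₀ this]
    norm_num
  rw [e]
  unfold KZ4
  by_cases h : ∏ i, ∏ j ∈ Ici i, (z i + z j) = 0
  · rw [h, mul_zero] at h1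
    have h2 := (mul_eq_zero.1 h1).resolve_right (mul_ne_zero (by norm_num) hp)
    rw [h2]
    simp
  · have h2 : ∏ i, ∏ j ∈ Ici i, riemannZeta₁ (1 + z i + z j) =
        (∏ i, ∏ j ∈ Ici i, (z i + z j)) * ∏ i, ∏ j ∈ Ici i, riemannZeta (1 + z i + z j) := by
      rw [← prod_mul_distrib]
      refine prod_congr rfl fun i _ => ?_
      rw [← prod_mul_distrib]
      refine prod_congr rfl fun j hj => ?_
      have h3 : z i + z j ≠ 0 :=
        prod_ne_zero_iff.1 (prod_ne_zero_iff.1 h i (mem_univ i)) j hj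
      have h4 : 1 + z i + z j - 1 = z i + z j := by ring
      rw [riemannZeta_eq_inv_sub_mul (s := 1 + z i + z j) (by
        intro h5
        exact h3 (by rw [← h4, h5, sub_self])), h4, mul_inv_cancel_left₀ h3]
    rw [h2]
    linear_combination (Vd (fun j => z j ^ 2) *
      (∏ i, ∏ j ∈ Ici i, riemannZeta (1 + z i + z j)) / 16 / P8 z) * h1

theorem pQEQ : QEQ := by
  intro a r x hr
  unfold Qf On
  rw [tor_congr (g := fun z => cexp (x * us z) * Ph0 a z / P8 z) fun θ => ?_]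
  · have e : ((Nat.factorial 4 : ℕ) : ℂ) = 24 := by norm_num [Nat.factorial]
    rw [e, mul_pow _ I, mul_inv]
    ring
  · have h := qq_zeta (qq_ne hr (tm_ann hr θ))
    generalize torusMap (0 : V4) (fun _ => r) θ = z at h
    have e : (x : ℂ) / 2 * ∑ j, z j = x * us z := by
      unfold us
      ring
    rw [e]
    unfold Gf Ph0 Xh
    linear_combination (cexp (x * us z) * Aprod 4 z *
      ∏ j, Xf a (1 / 2 + z j) ^ (-1 / 2 : ℂ)) * h

theorem qq_us {ρ : ℝ} {z : V4} (hz : ∀ j, ‖z j‖ ≤ ρ) : ‖us z‖ ≤ 2 * ρ := by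
  unfold us
  rw [norm_div, Complex.norm_ofNat, div_le_iff₀ (by norm_num)]
  refine (norm_sum_le _ _).trans ((sum_le_sum fun j _ => hz j).trans ?_)
  simp
  linarith

theorem qq_usd : Differentiable ℂ us := by
  unfold us
  fun_prop

theorem qq_P8d : Differentiable ℂ P8 := by
  unfold P8
  simp only [Fin.prod_univ_four]
  fun_prop

theorem qq_P8 {z : V4} (h0 : ∀ j, z j ≠ 0) : P8 z ≠ 0 :=
  prod_ne_zero_iff.2 fun j _ => pow_ne_zero 8 (h0 j)

theorem qq_sep {r r' : ℝ} (hr : 0 < r) (hr' : r' ≤ 1 / 16) {Ph : V4 → ℂ} (hS : Sep (Pd 4 r') Ph)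
    {E : ℂ → ℂ} (hE : ∀ w : ℂ, ‖w‖ ≤ 1 / 8 → DifferentiableAt ℂ E w) :
    Sep (Ann 4 r r') fun z => E (us z) * Ph z / P8 z := by
  have hsub : Ann 4 r r' ⊆ Pd 4 r' := fun z hz j => (hz j).2
  have h1 : ∀ z ∈ Ann 4 r r', DifferentiableAt ℂ (fun z => E (us z) / P8 z) z := fun z hz =>
    ((hE _ ((qq_us (hsub hz)).trans (by linarith))).comp z (qq_usd z)).mul
      ((qq_P8d z).inv (qq_P8 (qq_ne hr hz)))
  have e : (fun z => E (us z) * Ph z / P8 z) = fun z => E (us z) / P8 z * Ph z := by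
    funext z
    ring
  rw [e]
  refine ⟨ContinuousOn.mul (fun z hz => (h1 z hz).continuousAt.continuousWithinAt)
    (hS.1.mono hsub), fun s hs i => DifferentiableAt.mul ?_ (hS.2 s (hsub hs) i)⟩
  have h2 := h1 s hs
  rw [← Function.update_eq_self i s] at h2
  have h3 := h2.comp (s i) (hasDerivAt_update s i (s i)).differentiableAt
  exact h3

theorem pQINT : QINT := by
  intro a r X hr hr' hX hS
  have hX0 : (X : ℂ) ≠ 0 := ofReal_ne_zero.2 (by linarith)
  unfold Qm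
  rw [mul_inv_cancel_left₀ hX0]
  simp only [pQEQ a r _ hr]
  rw [intervalIntegral.integral_const_mul]
  congr 1
  unfold On
  rw [intervalIntegral.integral_const_mul]
  congr 1
  unfold torusIntegral
  have hc := (qq_sep hr hr' hS (E := fun _ => 1) fun _ _ => differentiableAt_const _).1
  have hc' := hc.comp_continuous (tm_cont fun _ => r) (tm_ann hr)
  have hu : Continuous fun θ : R4 => us (torusMap (0 : V4) (fun _ => r) θ) :=
    qq_usd.continuous.comp (tm_cont _)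
  rw [intervalIntegral_integral_swap]
  · refine setIntegral_congr_fun measurableSet_Icc fun θ _ => ?_
    have h1 := (qq_us fun j => (tm_ann hr θ j).2).trans (show 2 * r ≤ 1 / 8 by linarith)
    simp only [smul_eq_mul]
    generalize torusMap (0 : V4) (fun _ => r) θ = z at h1
    have h2 : -1 < (us z).re := by
      have := (abs_le.1 ((abs_re_le_norm (us z)).trans h1)).1
      linarith
    rw [intervalIntegral.integral_const_mul, intervalIntegral.integral_div,
      intervalIntegral.integral_mul_const,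
      intervalIntegral.integral_congr (g := fun t : ℝ => (t : ℂ) ^ us z) fun t ht => ?_,
      integral_cpow (Or.inl h2), ofReal_one, one_cpow, add_comm (us z)]
    rw [Set.uIcc_of_le hX] at ht
    have ht0 : 0 < t := by linarith [ht.1]
    simp only
    rw [cpow_def_of_ne_zero (ofReal_ne_zero.2 ht0.ne'), ofReal_log ht0.le]
  · rw [Set.uIoc_of_le hX, Measure.prod_restrict]
    refine IntegrableOn.mono_set (ContinuousOn.integrableOn_compact
      ((isCompact_Icc (a := (1 : ℝ)) (b := X)).prod isCompact_Icc) ?_)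
      (Set.prod_mono Set.Ioc_subset_Icc_self le_rfl)
    have hl : ContinuousOn (fun p : ℝ × R4 => Real.log p.1)
        (Set.Icc 1 X ×ˢ Set.Icc (0 : R4) fun _ => 2 * π) :=
      continuousOn_fst.log fun p hp => by have := hp.1.1; linarith
    have h3 := ((continuous_ofReal.comp_continuousOn hl).mul
      (hu.comp continuous_snd).continuousOn).cexp.mul (hc'.comp continuous_snd).continuousOn
    have h4 : Continuous fun p : ℝ × R4 => ∏ i, (r : ℂ) * cexp (p.2 i * I) * I := by fun_prop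
    refine (h4.continuousOn.mul h3).congr fun p _ => ?_
    simp only [Function.uncurry, Function.comp_apply, Pi.mul_apply, smul_eq_mul]
    ring

theorem qq_vd {Q : ℝ} {w : V4} (h : ∀ j, ‖w j‖ ≤ Q) : ‖Vd w‖ ≤ (2 * Q) ^ 6 := by
  have hQ : 0 ≤ Q := (norm_nonneg _).trans (h 0)
  have d : ∀ i j, ‖w i - w j‖ ≤ 2 * Q := fun i j =>
    (norm_sub_le _ _).trans (by linarith [h i, h j])
  rw [vd_four]
  simp only [norm_mul]
  calc _ ≤ 2 * Q * (2 * Q) * (2 * Q) * (2 * Q * (2 * Q)) * (2 * Q) := by gcongr <;> exact d _ _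
    _ = _ := by ring

theorem qq_Ph (hT : TAY) (hA : A4H) {a : ℕ} (ha : a ≤ 1) : ∃ r₀ C : ℝ, 0 < r₀ ∧ 0 ≤ C ∧
    ∀ (ρ : ℝ) (z : V4), ρ ≤ r₀ → (∀ j, ‖z j‖ ≤ ρ) → ‖Ph0 a z‖ ≤ C * ρ ^ 18 := by
  obtain ⟨r₁, _, _, _, _, hr₁, h1⟩ := hT a ha (fun _ => 1) (differentiable_const _)
    (fun _ => rfl) rfl
  obtain ⟨-, ⟨C₁, h2⟩, -⟩ := hA
  obtain ⟨C₂, h3⟩ := (isCompact_closedBall (0 : ℂ) r₁).exists_bound_of_continuousOn (f := Xh a)
    fun u hu => (h1 u (mem_closedBall_zero_iff.1 hu)).1.continuousAt.continuousWithinAt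
  obtain ⟨C₃, h4⟩ := (isCompact_closedBall (0 : V4) 1).exists_bound_of_continuousOn
    (f := fun s => ∏ i, ∏ j ∈ Ici i, riemannZeta₁ (1 + s i + s j))
    (Continuous.continuousOn (continuous_finsetProd _ fun i _ => continuous_finsetProd _
      fun j _ => differentiable_riemannZeta₁.continuous.comp (by fun_prop)))
  have c1 : 0 ≤ C₁ := (norm_nonneg _).trans (h2 0 fun _ => by simp)
  have c2 : 0 ≤ C₂ := (norm_nonneg _).trans (h3 0 (Metric.mem_closedBall_self hr₁.le))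
  have c3 : 0 ≤ C₃ := (norm_nonneg _).trans (h4 0 (Metric.mem_closedBall_self zero_le_one))
  refine ⟨min r₁ (1 / 16), 2 ^ 12 / 16 * C₃ * C₁ * C₂ ^ 4, by positivity, by positivity,
    fun ρ z hρ hz => ?_⟩
  have hρ1 := hρ.trans (min_le_left _ _)
  have hρ2 := hρ.trans (min_le_right _ _)
  have hρ0 : 0 ≤ ρ := (norm_nonneg _).trans (hz 0)
  have a1 := qq_vd hz
  have a2 := qq_vd (Q := ρ ^ 2) (w := fun j => z j ^ 2) fun j => by
    rw [norm_pow]
    exact pow_le_pow_left₀ (norm_nonneg _) (hz j) 2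
  have a3 := h4 z (mem_closedBall_zero_iff.2 ((pi_norm_le_iff_of_nonneg zero_le_one).2
    fun j => (hz j).trans (by linarith)))
  have a4 := h2 z fun j => by
    have := (abs_le.1 ((abs_re_le_norm (z j)).trans (hz j))).1
    linarith
  have a5 : ‖∏ j, Xh a (z j)‖ ≤ C₂ ^ 4 := by
    rw [norm_prod]
    refine (prod_le_prod (fun _ _ => norm_nonneg _) fun j _ =>
      h3 (z j) (mem_closedBall_zero_iff.2 ((hz j).trans hρ1))).trans ?_
    simp
  unfold Ph0 KZ4
  rw [norm_mul, norm_mul, norm_mul, norm_div, norm_mul, Complex.norm_ofNat]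
  calc _ ≤ (2 * ρ) ^ 6 * (2 * ρ ^ 2) ^ 6 / 16 * C₃ * C₁ * C₂ ^ 4 := by gcongr
    _ = _ := by ring

theorem pQLIP (hR : RAD) (hO : ONB) (hT : TAY) (hA : A4H) (hP : PH0) : QLIP := by
  intro a ha
  obtain ⟨r₁, C, hr₁, hC, h1⟩ := qq_Ph hT hA ha
  obtain ⟨r₂, hr₂, hr₂', hS₂⟩ := hP a ha
  obtain ⟨r₀, hr₀, k1, k2⟩ : ∃ r₀ : ℝ, 0 < r₀ ∧ r₀ ≤ r₁ ∧ r₀ ≤ r₂ :=
    ⟨min r₁ r₂, lt_min hr₁ hr₂, min_le_left _ _, min_le_right _ _⟩
  have hS : ∀ r : ℝ, r ≤ r₀ → Sep (Pd 4 r) (Ph0 a) := fun r hr =>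
    hS₂.mono fun z hz j => (hz j).trans (hr.trans k2)
  refine ⟨r₀, 3 * C / r₀ ^ 10, hr₀, fun r X X' hr hrr hX hXX => ?_⟩
  have hE : ∀ Y : ℝ, 0 < Y → ∀ (b w : ℂ), ‖w‖ ≤ 1 / 8 →
      DifferentiableAt ℂ (fun w : ℂ => ((Y : ℂ) ^ (1 + w) - b) / (1 + w)) w := fun Y hY b w hw => by
    refine DifferentiableAt.div ((DifferentiableAt.const_cpow (by fun_prop)
      (Or.inl (ofReal_ne_zero.2 hY.ne'))).sub_const _) (by fun_prop) fun h => ?_
    rw [(neg_eq_of_add_eq_zero_right h).symm, norm_neg, norm_one] at hw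
    linarith
  have hX0 : 0 < X := by linarith
  have hX0' : 0 < X' := by linarith
  have hL : 1 ≤ Real.log X' := by
    rw [Real.le_log_iff_exp_le hX0']
    linarith [Real.exp_one_lt_d9]
  have hr16 : r₀ ≤ 1 / 16 := k2.trans hr₂'
  set E : ℂ → ℂ := fun w => ((X' : ℂ) ^ (1 + w) - 1) / (1 + w) - ((X : ℂ) ^ (1 + w) - 1) / (1 + w)
    with hEdef
  have hE' : ∀ w : ℂ, ‖w‖ ≤ 1 / 8 → DifferentiableAt ℂ E w := fun w hw =>
    (hE X' hX0' 1 w hw).sub (hE X hX0 1 w hw)
  have hρ : 0 < r₀ / Real.log X' := by positivity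
  have hρ1 : r₀ / Real.log X' ≤ r₀ := div_le_self hr₀.le hL
  have hρ2 : r₀ / Real.log X' * Real.log X' = r₀ := by field_simp
  have e1 : X' * Qm 4 a r X' - X * Qm 4 a r X = 2 / 3 * ((2 * π : ℂ) ^ 4)⁻¹ *
      On (r₀ / Real.log X') fun z => E (us z) * Ph0 a z / P8 z := by
    rw [pQINT a r X' hr (hrr.trans hr16) (by linarith) (hS r hrr),
      pQINT a r X hr (hrr.trans hr16) (by linarith) (hS r hrr), ← mul_sub,
      ← hO.2.1 4 r _ _ hr (qq_sep hr (hrr.trans hr16) (hS r hrr) (hE X' hX0' 1)).1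
        (qq_sep hr (hrr.trans hr16) (hS r hrr) (hE X hX0 1)).1,
      hR 4 _ r₀ _ hρ hρ1 (qq_sep hρ hr16 (hS r₀ le_rfl) hE'),
      ← hR 4 r r₀ _ hr hrr (qq_sep hr hr16 (hS r₀ le_rfl) hE')]
    congr 2
    funext z
    simp only [hEdef]
    ring
  generalize r₀ / Real.log X' = ρ at hρ hρ1 hρ2 e1
  have h2 := hO.1 4 ρ (3 * (X' - X) * (C * ρ ^ 18) / ρ ^ 32)
    (fun z => E (us z) * Ph0 a z / P8 z) hρ fun z hz => by
      have b1 := qq_us fun j => (hz j).2
      have b2 := h1 ρ z (hρ1.trans k1) fun j => (hz j).2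
      have b3 : ‖P8 z‖ = ρ ^ 32 := by
        unfold P8
        rw [norm_prod, prod_congr rfl fun j _ => (by
          rw [norm_pow, le_antisymm (hz j).2 (hz j).1] : ‖z j ^ 8‖ = ρ ^ 8)]
        simp [← pow_mul]
      have b4 : ‖E (us z)‖ ≤ 3 * (X' - X) := by
        generalize us z = w at b1
        have b5 := abs_le.1 ((abs_re_le_norm w).trans b1)
        have b6 : E w = ∫ t in X..X', (t : ℂ) ^ w := by
          rw [integral_cpow (Or.inl (by linarith [b5.1])), add_comm w]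
          simp only [hEdef]
          ring
        rw [b6]
        refine (intervalIntegral.norm_integral_le_of_norm_le_const (C := 3) fun t ht => ?_).trans
          (by rw [abs_of_nonneg (by linarith)])
        rw [Set.uIoc_of_le hXX] at ht
        have t1 : 1 ≤ t := by linarith [ht.1]
        rw [norm_cpow_eq_rpow_re_of_pos (by linarith)]
        refine (Real.rpow_le_rpow_of_exponent_le t1 b5.2).trans
          ((Real.rpow_le_rpow (by linarith) ht.2 (by linarith)).trans ?_)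
        rw [Real.rpow_def_of_pos hX0']
        refine (Real.exp_le_exp.2 (show _ ≤ 1 by linarith)).trans ?_
        linarith [Real.exp_one_lt_d9]
      rw [norm_div, norm_mul, b3]
      have : 0 ≤ 3 * (X' - X) := by linarith
      gcongr
  rw [e1, norm_mul]
  have hπ := Real.pi_pos
  have e2 : ‖(2 / 3 * ((2 * π : ℂ) ^ 4)⁻¹ : ℂ)‖ ≤ ((2 * π) ^ 4)⁻¹ := by
    rw [norm_mul, norm_inv, norm_pow, norm_mul, Complex.norm_real, Real.norm_of_nonneg hπ.le,
      norm_div, Complex.norm_ofNat, Complex.norm_ofNat]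
    exact mul_le_of_le_one_left (by positivity) (by norm_num)
  refine (mul_le_mul e2 h2 (norm_nonneg _) (by positivity)).trans (le_of_eq ?_)
  rw [← hρ2]
  have : Real.log X' ≠ 0 := by linarith
  field_simp

end Pool.Agent.Q4
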