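import Pool.Agent.P.MP_ea46f5_nt.Q4.S4

/-! The central value is real; the split of the approximate functional equation. -/

namespace Pool.Agent.Q4

open Complex MeasureTheory Finset Pool.Agent.QM
open scoped Real ComplexConjugate

theorem pREAL (hLSP : LSP) (hLOP : LOP) : REAL := by
  intro k hk h1
  have hd := hLOP.2.1 k hk h1
  have hd' : Differentiable ℂ fun s => conj (Lo k (conj s)) := fun s => by
    have := (hd (conj s)).conj_conj
    rwa [conj_conj] at this
  have h2 : (fun s => conj (Lo k (conj s))) = Lo k := by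
    refine AnalyticOnNhd.eq_of_eventuallyEq (z₀ := 2) (hd'.differentiableOn.analyticOnNhd isOpen_univ)
      (hd.differentiableOn.analyticOnNhd isOpen_univ) ?_
    filter_upwards [(isOpen_lt continuous_const continuous_re).mem_nhds
      (show (1 : ℝ) < (2 : ℂ).re by norm_num)] with s hs
    rw [hLOP.1 k _ hk.ne_zero (by simpa using hs), hLOP.1 k _ hk.ne_zero hs,
      hLSP.2.2.2.2.1 k s hs]
  have e : conj (1 / 2 : ℂ) = 1 / 2 := by simp [map_ofNat]
  have h3 := congrFun h2 (1 / 2)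
  rw [e] at h3
  have h4 : (2 : ℂ) ^ (-(1 / 2 : ℂ)) = (((2 : ℝ) ^ (-(1 / 2 : ℝ)) : ℝ) : ℂ) := by
    rw [ofReal_cpow (by norm_num)]; push_cast; rfl
  rw [← conj_eq_iff_im, Lf, map_div₀, h3, h4]
  simp

theorem afs_int (hI : INB) (hLSP : LSP) {W : V4 → ℂ} {M q : ℝ} (hq : 0 < q) (m : ℤ)
    (hc : Continuous fun t : R4 => W (pt (cs 12) t))
    (hb : ∀ t : R4, ‖W (pt (cs 12) t)‖ ≤ M * dk (pt (cs 12) t)) : Integrable fun t : R4 =>
      W (pt (cs 12) t) * (q : ℂ) ^ us (pt (cs 12) t) * LL m (pt (cs 12) t) := by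
  have hre : ∀ (t : R4) j, (1 / 2 + pt (cs 12) t j).re = 25 / 2 := fun t j => by
    simp [pt, cs]; norm_num
  refine (hI 4 (cs 12) (M * q ^ (24 : ℝ) * 2 ^ 4)
    (fun u => W u * (q : ℂ) ^ us u * LL m u) ?_ fun t => ?_).1
  · refine (hc.mul (Continuous.const_cpow (by unfold us pt; fun_prop)
      (Or.inl (ofReal_ne_zero.2 hq.ne')))).mul (continuous_finsetProd _ fun j _ => ?_)
    exact (hLSP.2.2.2.1 m).continuousOn.comp_continuous (by unfold pt; fun_prop)
      fun t => by rw [Set.mem_ofPred_eq, hre]; norm_num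
  · have b1 : ‖LL m (pt (cs 12) t)‖ ≤ 2 ^ 4 := by
      rw [LL, norm_prod]
      exact (prod_le_prod (fun j _ => norm_nonneg _) fun j _ =>
        hLSP.2.2.1 m _ (by rw [hre]; norm_num)).trans (by simp)
    have b2 : (us (pt (cs 12) t)).re = 24 := by simp [us, pt, cs]; norm_num
    have b3 := (norm_nonneg _).trans (hb t)
    rw [norm_mul, norm_mul, norm_cpow_eq_rpow_re_of_pos hq, b2]
    calc _ ≤ M * dk (pt (cs 12) t) * q ^ (24 : ℝ) * 2 ^ 4 := by gcongr; exact hb t
      _ = _ := by ring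

theorem pAFS (hI : INB) (hLSP : LSP) (hB : BRG) (hG : G1W) (hA : AFE4) (hW : WRB) : AFS := by
  intro c k Δ hk h1 hΔ
  obtain ⟨q1, -, q2, q3⟩ := hB.2.1 k
  have hq : 0 < qk k := (abs_pos.2 (Int.cast_ne_zero.2 hk.ne_zero)).trans_le q1
  obtain ⟨⟨C₀, -, hg⟩, -⟩ := hG (par k) c q2
  obtain ⟨C, hC, hW⟩ := hW _ C₀ 2 hg
  obtain ⟨-, w1, w0, w2, -, w4⟩ := hW _ q3
  have hp : Continuous fun t : R4 => pt (cs 12) t := by unfold pt; fun_prop
  have c1 : Continuous fun t : R4 => W4 (g1 (par k) c) (gam k) (pt (cs 12) t) :=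
    (continuous_iff_continuousAt.2 fun t => (w1 _ fun j => by simp [pt, cs]).continuousAt.comp
      hp.continuousAt).mul (w2.continuous.comp hp)
  have b := fun t : R4 => w4 12 Δ (by norm_num) hΔ (pt (cs 12) t) fun j => by simp [pt, cs]
  have i1 := afs_int hI hLSP hq k c1 fun t => (b t).2.2.2.1
  have i2 := afs_int hI hLSP (W := fun u => W4 (g1 (par k) c) (gam k) u * (1 - cF Δ u)) hq k
    (c1.mul (continuous_const.sub ((w0 Δ).continuous.comp hp))) fun t => (b t).2.2.1
  rw [hA c k hk h1, ← sub_eq_iff_eq_add']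
  unfold Tm Fm In
  rw [← integral_sub i1 i2]
  exact integral_congr_ae (Filter.Eventually.of_forall fun t => by ring)

end Pool.Agent.Q4
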