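import Pool.Agent.P.MP_ea46f5_nt.Q4.D4

/-! A fourfold integral with the factor `an` is a product of two pairings. -/

namespace Pool.Agent.Q4

open Complex MeasureTheory Finset
open scoped Real
open Pool.Agent.QM

theorem prc_prod (c : ℝ) (g : Fin 4 → ℂ → ℂ) (hg : ∀ j, Lc c (g j)) :
    IL (cs c) (fun u => ∏ j, g j (u j)) ∧ In (cs c) (fun u => ∏ j, g j (u j)) = ∏ j, Iv c (g j) :=
  ⟨Integrable.fintype_prod (f := fun j (x : ℝ) => g j (c + x * I)) hg,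
    integral_fintype_prod_volume_eq_prod fun j (x : ℝ) => g j (c + x * I)⟩

theorem prc_four (c : ℝ) {g0 g1 g2 g3 : ℂ → ℂ} (h0 : Lc c g0) (h1 : Lc c g1) (h2 : Lc c g2)
    (h3 : Lc c g3) :
    IL (cs c) (fun u => g0 (u 0) * g1 (u 1) * g2 (u 2) * g3 (u 3)) ∧
      In (cs c) (fun u => g0 (u 0) * g1 (u 1) * g2 (u 2) * g3 (u 3)) =
        Iv c g0 * Iv c g1 * Iv c g2 * Iv c g3 := by
  have := prc_prod c ![g0, g1, g2, g3] fun j => by fin_cases j <;> assumption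
  simpa only [Fin.prod_univ_four, Matrix.cons_val_zero, Matrix.cons_val_one, Matrix.cons_val]
    using this

theorem prc_sub {c : R4} {G H : V4 → ℂ} (hG : IL c G) (hH : IL c H) :
    IL c (fun u => G u - H u) ∧ In c (fun u => G u - H u) = In c G - In c H :=
  ⟨Integrable.sub hG hH, integral_sub hG hH⟩

theorem pr4_core (c : ℝ) (f : Fin 4 → ℂ → ℂ) (hf : ∀ j, Lc c (f j))
    (hg : ∀ j, Lc c fun u => u ^ 2 * f j u) :
    IL (cs c) (fun u => an u * ∏ j, f j (u j)) ∧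
      In (cs c) (fun u => an u * ∏ j, f j (u j)) = pr c (f 0) (f 1) * pr c (f 2) (f 3) := by
  have a := prc_four c (hg 0) (hf 1) (hg 2) (hf 3)
  have b := prc_four c (hg 0) (hf 1) (hf 2) (hg 3)
  have d := prc_four c (hf 0) (hg 1) (hg 2) (hf 3)
  have e := prc_four c (hf 0) (hg 1) (hf 2) (hg 3)
  have k : (fun u : V4 => an u * ∏ j, f j (u j)) = fun u =>
      (u 0 ^ 2 * f 0 (u 0) * f 1 (u 1) * (u 2 ^ 2 * f 2 (u 2)) * f 3 (u 3) -
        u 0 ^ 2 * f 0 (u 0) * f 1 (u 1) * f 2 (u 2) * (u 3 ^ 2 * f 3 (u 3))) -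
      (f 0 (u 0) * (u 1 ^ 2 * f 1 (u 1)) * (u 2 ^ 2 * f 2 (u 2)) * f 3 (u 3) -
        f 0 (u 0) * (u 1 ^ 2 * f 1 (u 1)) * f 2 (u 2) * (u 3 ^ 2 * f 3 (u 3))) := by
    funext u
    rw [an, Fin.prod_univ_four]
    ring
  rw [k]
  refine ⟨(prc_sub (prc_sub a.1 b.1).1 (prc_sub d.1 e.1).1).1, ?_⟩
  rw [(prc_sub (prc_sub a.1 b.1).1 (prc_sub d.1 e.1).1).2, (prc_sub a.1 b.1).2,
    (prc_sub d.1 e.1).2, a.2, b.2, d.2, e.2, pr, pr]
  ring

end Pool.Agent.Q4
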