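import Pool.Agent.P.MP_ea46f5_nt.QM.S2

/-! The functional equation in the discriminant: definitions and statements. -/

namespace Pool.Agent.Q4

open Complex MeasureTheory Finset Pool.Agent.QM
open scoped Real ComplexConjugate

noncomputable section

/-- The class of `k`: sign `τ` and residue `r` modulo 8. -/
def Cl (τ r k : ℤ) : Prop := 0 < τ * k ∧ k % 8 = r

abbrev CL (τ r : ℤ) : Type := {k : ℤ // Cl τ r k}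

def RS : Finset ℤ := {1, 2, 3, 5, 6, 7}

def cq (r : ℤ) : ℝ := if r % 4 = 1 then 1 else 4

def w8 (c : ℤ) : ℂ := cexp (2 * π * I * c / 8)

def eg (n : ℕ) : ℂ := if n % 4 = 1 then 1 else I

def io (f k : ℤ) : ℤ := if 2 ∣ f ∧ 2 ∣ k then f * k / 4 else f * k

def F4 : Finset ℤ := {1, -1, 2, -2}

def N4 : Finset ℕ := {1, 3, 5, 7}

def brk (c : ℤ) (z : ℂ) : ℂ :=
  w8 c + (w8 (4 * c) - w8 c) * (4 : ℂ) ^ (-z) + (1 - w8 (4 * c)) * (16 : ℂ) ^ (-z)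

def Aq (τ r : ℤ) (ν : ℕ) (k : ℤ) (z : ℂ) : ℂ :=
  eg ν * (jacobiSym (-2 * τ) ν : ℂ) * brk (-(ν * τ * r * k)) z

def cf (τ r f k : ℤ) (z : ℂ) : ℂ := 1 / 4 * ∑ ν ∈ N4, Aq τ r ν k z * (jacobiSym f ν : ℂ)

def ph (h : ℤ) (z : ℂ) : ℂ := cexp (π * I * z * (h.sign : ℂ) / 2)

def EG (τ r κ : ℤ) (z : ℂ) : ℂ :=
  Gamma (z + 1) * (2 * π : ℂ) ^ (-z) * (8 : ℂ) ^ (z - 1) * ∑ f ∈ F4, ph (io f κ) z *
    ((|(io f κ : ℝ)| / |(κ : ℝ)| : ℝ) : ℂ) ^ (-z) * cf τ r f (io f κ) z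

def Kd (E : ℤ → ℂ → ℂ) (κ : ℤ) (z : ℂ) : ℂ :=
  E κ z / z * riemannZeta (2 * z) * ((|(κ : ℝ)| : ℝ) : ℂ) ^ (-z)

def ft (N : ℕ) (f : ℤ → ℂ) (h : ℤ) : ℂ :=
  ∑ x ∈ range N, f x * cexp (-(2 * π * I * x * h / N))

def Phi (ν : ℕ) (b x : ℤ) : ℂ := if x % 8 = b % 8 then (jacobiSym x ν : ℂ) else 0

/-- Analytic properties of the kernel. -/
def KA (E : ℤ → ℂ → ℂ) (C : ℝ) : Prop :=
  (∀ κ : ℤ, κ ≠ 0 → DifferentiableOn ℂ (E κ) {z | -1 < z.re}) ∧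
  (∀ (κ : ℤ) (z : ℂ), κ ≠ 0 → -(1 / 2) ≤ z.re → z.re ≤ 7 → ‖E κ z‖ ≤ C * br z.im ^ 10) ∧
  E 1 0 = 1 / 8

/-- The identity for Dirichlet series. -/
def FEI (τ r : ℤ) (E : ℤ → ℂ → ℂ) : Prop := ∀ n : ℕ, Odd n → ∃ (g : ℂ → ℂ) (C : ℝ),
  Differentiable ℂ g ∧ g 1 = (T0 n : ℂ) / 8 ∧ (∀ u ∈ Strip (-1) 2, ‖g u‖ ≤ C * br u.im ^ 6) ∧
  (∀ u : ℂ, u.re = 2 → HasSum (fun k : CL τ r =>
    (jacobiSym k n : ℂ) * ((|((k : ℤ) : ℝ)| : ℝ) : ℂ) ^ (-u)) (g u / (u - 1))) ∧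
  (∀ z : ℂ, z.re = 2 → HasSum (fun κ : SF => Kd E κ z * Tk κ z n) (g (1 - z) / (-z)))

/-- The identity with a weight. -/
def PDI (τ r : ℤ) (E : ℤ → ℂ → ℂ) : Prop :=
  ∀ (n : ℕ) (ρ : ℂ → ℂ) (M : ℝ) (σ : ℤ → ℝ), Odd n → Nice (-5) 2 ρ →
    (∀ u ∈ Strip (-5) 2, ‖ρ u‖ ≤ M / br u.im ^ 14) → (∀ κ, 1 / 2 < σ κ ∧ σ κ ≤ 6) →
    HasSum (fun κ : SF => 1 / (2 * π) * Iv (σ κ) fun z => ρ (1 - z) * Kd E κ z * Tk κ z n)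
      ((∑' k : CL τ r, (jacobiSym k n : ℂ) *
        (1 / (2 * π) * Iv 2 fun u => ρ u * ((|((k : ℤ) : ℝ)| : ℝ) : ℂ) ^ (-u))) -
        ρ 1 * (T0 n : ℂ) / 8)

end

/-- Dirichlet series of periodic functions. -/
def PER : Prop := ∀ (N : ℕ) (f : ℤ → ℂ), N ≠ 0 → (∀ x, f (x + N) = f x) →
  ∃ (g : ℂ → ℂ) (C : ℝ), Differentiable ℂ g ∧ g 1 = ft N f 0 / N ∧
    (∀ u ∈ Strip (-1) 2, ‖g u‖ ≤ C * br u.im ^ 6) ∧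
    (∀ u : ℂ, 1 < u.re → HasSum (fun m : ℕ => if m = 0 then 0 else f m * (m : ℂ) ^ (-u))
      (g u / (u - 1))) ∧
    (∀ z : ℂ, 1 < z.re → HasSum (fun h : ℤ => if h = 0 then 0 else
      (N : ℂ) ^ (z - 1) * (2 * π : ℂ) ^ (-z) * Gamma z * ph h z * ft N f h *
        ((|(h : ℝ)| : ℝ) : ℂ) ^ (-z)) (g (1 - z) / (-z)))

def DFT : Prop := ∀ (ν : ℕ) (b h : ℤ), Odd ν → Squarefree ν →
  ft (8 * ν) (Phi ν b) h =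
    (jacobiSym (-2 * h) ν : ℂ) * eg ν * ((√(ν : ℝ) : ℝ) : ℂ) * w8 (-(ν * b * h))

/-- Characters modulo 8 and the twists. -/
def CH8 : Prop :=
  (∀ (τ r k : ℤ) (ν : ℕ) (z : ℂ), (τ = 1 ∨ τ = -1) → Odd ν →
    Aq τ r ν k z = ∑ f ∈ F4, cf τ r f k z * (jacobiSym f ν : ℂ)) ∧
  (∀ f ∈ F4, ∀ k : ℤ, Squarefree k → Squarefree (io f k) ∧ io f (io f k) = k) ∧
  (∀ f ∈ F4, ∀ (k : ℤ) (z : ℂ) (n : ℕ), Odd n →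
    (jacobiSym f (n0 n) : ℂ) * Tk k z n = Tk (io f k) z n)

def KAx : Prop := ∀ τ r : ℤ, (τ = 1 ∨ τ = -1) → ∃ C : ℝ, 0 < C ∧ KA (EG τ r) C

def FEx : Prop := ∀ τ r : ℤ, (τ = 1 ∨ τ = -1) → 0 ≤ r → r < 8 → FEI τ r (EG τ r)

def PDx : Prop := ∀ (τ r : ℤ) (E : ℤ → ℂ → ℂ) (C : ℝ), KA E C → FEI τ r E → PDI τ r E

/-- Size and holomorphy of the kernel and of the local data. -/
def KDB : Prop :=
  (∃ D : ℝ, 0 < D ∧ ∀ (E : ℤ → ℂ → ℂ) (C : ℝ) (κ : ℤ) (z : ℂ), KA E C → κ ≠ 0 → 1 / 2 < z.re →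
    z.re ≤ 7 → DifferentiableAt ℂ (Kd E κ) z ∧
      ‖Kd E κ z‖ ≤ D * C * (1 + 1 / (z.re - 1 / 2)) * br z.im ^ 11 * |(κ : ℝ)| ^ (-z.re)) ∧
  ∀ (k : ℤ) (n : ℕ), Differentiable ℂ fun z => Tk k z n

/-- The functional equation in the discriminant. -/
def PD : Prop := ∀ τ r : ℤ, (τ = 1 ∨ τ = -1) → 0 ≤ r → r < 8 →
  ∃ (E : ℤ → ℂ → ℂ) (C : ℝ), 0 < C ∧ KA E C ∧ PDI τ r E

/-- The Gauss sum of the Kronecker symbol. -/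
def GSK : Prop := ∀ k : ℤ, Squarefree k → k ≠ 1 →
  ft (disc k).natAbs (fun x => (kron (disc k) x.toNat : ℂ)) (-1) =
    I ^ par k * ((√(qk k) : ℝ) : ℂ)

/-- The root number is one. -/
def FE1 : Prop := ∀ k : ℤ, Squarefree k → k ≠ 1 → ∀ s : ℂ, 0 < s.re → s.re < 1 →
  Lam k (1 - s) = Lam k s

end Pool.Agent.Q4
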