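import Pool.Agent.P.MP_ea46f5_nt.Q4.T
import Pool.Agent.P.MP_ea46f5_nt.Q4.DP

/-! Definitions for the core (paper: MP_ea46f5_nt_paper_h35.md). -/

namespace Pool.Agent.Q4

open Complex MeasureTheory Finset Pool.Agent.QM
open scoped Real ComplexConjugate

noncomputable section

abbrev V4 : Type := Fin 4 → ℂ

abbrev R4 : Type := Fin 4 → ℝ

def cs (c : ℝ) : R4 := fun _ => c

/-- Jointly complex differentiable at every point of `U`. -/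
def Hol {E : Type} [NormedAddCommGroup E] [NormedSpace ℂ E] (U : Set E) (G : E → ℂ) : Prop :=
  ∀ x ∈ U, DifferentiableAt ℂ G x

def Bx (a b : ℝ) : Set V4 := Box (cs a) (cs b)

def dn (n : ℕ) (s : V4) : ℝ := ∏ i, 1 / br (s i).im ^ n

def gn (n : ℕ) (s : V4) : ℝ := ∏ i, br (s i).im ^ n

def IL (c : R4) (G : V4 → ℂ) : Prop := Integrable fun t : R4 => G (pt c t)

def Lc (c : ℝ) (f : ℂ → ℂ) : Prop := Integrable fun t : ℝ => f (c + t * I)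

def lz (w : ℂ) : ℂ := (1 - (2 : ℂ) ^ (-(1 + w))) * riemannZeta₁ (1 + w)

def xi (a : ℕ) (u : ℂ) : ℂ := Gammaℝ (1 / 2 + a + u) * (Gammaℝ (1 / 2 + a - u))⁻¹

def th8 (z : ℂ) : ℂ := cexp (-z) * ∑ j ∈ range 8, z ^ j / (j.factorial : ℂ)

def rho (η : ℝ) (v : ℂ) : ℂ := cexp (η ^ 2 * v ^ 2) / v

def phi (η x : ℝ) : ℝ :=
  1 / (2 * η * √π) * ∫ s in Set.Ioi (0 : ℝ), Real.exp (-(Real.log x + s) ^ 2 / (4 * η ^ 2))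

/-! Euler products -/

def C4 (u : V4) : ArithmeticFunction ℂ := ∏ j, po (u j)

def LL (m : ℤ) (u : V4) : ℂ := ∏ j, LS m (1 / 2 + u j)

def AY (Y : ℕ) : Finset ℕ := (Icc 1 Y).filter Odd

def cY (Y : ℕ) (z : ℂ) (n : ℕ) : ℂ :=
  ∑ a ∈ (AY Y).filter (fun a => a.Coprime n),
    (ArithmeticFunction.moebius a : ℂ) * (a : ℂ) ^ (2 * z - 2)

def sY (Y : ℕ) (m : ℤ) : ℤ :=
  ∑ a ∈ (AY Y).filter (fun a : ℕ => (a : ℤ) ^ 2 ∣ m), ArithmeticFunction.moebius a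

def ZY (Y : ℕ) (k : ℤ) (z : ℂ) (u : V4) : ℂ := ∑' n : ℕ, C4 u n * (cY Y z n * Tk k z n)

def Fq (u : V4) (p : ℕ) (y : ℂ) : ℂ := ∏ j, (1 - y * xs (u j) p)⁻¹

def loc4 (k : ℤ) (z : ℂ) (u : V4) (p : ℕ) : ℂ :=
  1 - ek k z p + (ek k z p + ok k z p) / 2 * Fq u p 1 + (ek k z p - ok k z p) / 2 * Fq u p (-1)

def fk (k : ℤ) (z : ℂ) (u : V4) (p : ℕ) : ℂ :=
  (∏ j, (1 - jo k p * (p : ℂ) ^ (-(1 + (u j - z))))) /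
    ∏ i, ∏ j ∈ Ici i, (1 - (p : ℂ) ^ (-(2 + (u i - z) + (u j - z))))

def n1 (z : ℂ) (u : V4) (p : ℕ) : ℂ :=
  (∏ j, (1 - (p : ℂ) ^ (-(1 + (u j - z))))) *
    (∏ i, ∏ j ∈ Ici i, (1 - (p : ℂ) ^ (-(1 + u i + u j)))) / ∏ j, (1 - (p : ℂ) ^ (-(1 + u j + z)))

def HP (y F : ℕ → ℂ) (a : ℕ) : ℂ :=
  (∏ p ∈ a.primeFactors, F p) *
    ∏' p : Nat.Primes, if (p : ℕ) = 2 ∨ (p : ℕ) ∣ a then 1 else y p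

def HY (Y : ℕ) (z : ℂ) (y F : ℕ → ℂ) : ℂ :=
  ∑ a ∈ AY Y, (ArithmeticFunction.moebius a : ℂ) * (a : ℂ) ^ (2 * z - 2) * HP y F a

def Hk (Y : ℕ) (k : ℤ) (z : ℂ) (u : V4) : ℂ :=
  HY Y z (fun p => loc4 k z u p * fk k z u p) (fk k z u)

def Hone (Y : ℕ) (z : ℂ) (u : V4) : ℂ := HY Y z (fun p => loc4 1 z u p * n1 z u p) (n1 z u)

def HJ (y F : ℕ → ℂ) : ℂ :=
  ∏' p : Nat.Primes, if (p : ℕ) = 2 then 1 else y p - F p / ((p : ℕ) : ℂ) ^ 2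

def HI (u : V4) : ℂ := HJ (fun p => loc4 1 0 u p * n1 0 u p) (n1 0 u)

def Vk : Set (ℂ × V4) :=
  {x | 1 / 2 < x.1.re ∧ x.1.re < 7 ∧ ∀ j, 1 / 6 < (x.2 j).re ∧ -(11 / 20) < (x.2 j - x.1).re}

def V1 : Set (ℂ × V4) :=
  {x | -(1 / 40) < x.1.re ∧ x.1.re < 7 ∧
    ∀ j, -(1 / 40) < (x.2 j).re ∧ -(9 / 20) < (x.2 j - x.1).re}

def sh (z : ℂ) (s : V4) : V4 := fun j => z - 1 / 2 + s j

def IZ4 (s : V4) : ℂ := ∏ i, ∏ j ∈ Ici i, iz (1 + s i + s j)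

def ZO (u : V4) : ℂ := ∏ i, ∏ j ∈ Ici i, Lo 1 (1 + u i + u j)

def ZR (z : ℂ) (u : V4) : ℂ := ZO u * ∏ j, iz (1 + u j + z)

def ZX (i : Fin 4) (u : V4) : ℂ :=
  ∏ j ∈ univ.erase i, ∏ l ∈ (Ici j).erase i, Lo 1 (1 + u j + u l)

def FZ (i : Fin 4) (u : V4) : ℂ := (∏ j ∈ univ.erase i, Lo 1 (1 + (u j - u i))) * ZX i u

/-! Expansion -/

/-- Admissible abscissae. -/
def SG (σ : ℤ → ℝ) : Prop :=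
  (∀ κ, 1 / 2 < σ κ ∧ σ κ ≤ 6) ∧ ∃ K : ℝ, ∀ κ : ℤ, K < |(κ : ℝ)| → σ κ = 6

def s1 (K : ℝ) (κ : ℤ) : ℝ := if κ = 1 then 3 / 4 else sk K κ

/-- A Poisson formula with parameters `u` on the lines of abscissa 12. -/
structure PoD (Y : ℕ) (a : ℤ → V4 → ℂ) (c0 : V4 → ℂ) (K : ℤ → ℂ → V4 → ℂ) (σ : ℤ → ℝ) : Prop where
  sg : ∀ κ, 1 / 2 < σ κ ∧ σ κ ≤ 6
  id : ∀ (t : R4) (n : ℕ), Odd n → HasSum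
    (fun κ : SF => 1 / (2 * π) * Iv (σ κ) fun z => K κ z (pt (cs 12) t) * (cY Y z n * Tk κ z n))
    ((∑' m : ℤ, a m (pt (cs 12) t) * (jacobiSym m n : ℂ)) -
      c0 (pt (cs 12) t) * (cY Y 0 n * Tk 1 0 n))
  ca : ∀ m, Continuous fun t : R4 => a m (pt (cs 12) t)
  ba : ∃ A : ℤ → ℝ, Summable A ∧ ∀ m t, ‖a m (pt (cs 12) t)‖ ≤ A m * dk (pt (cs 12) t)
  cc : Continuous fun t : R4 => c0 (pt (cs 12) t)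
  bc : ∃ M : ℝ, ∀ t, ‖c0 (pt (cs 12) t)‖ ≤ M * dk (pt (cs 12) t)
  cK : ∀ κ : SF, Continuous fun x : ℝ × R4 => K κ (σ κ + x.1 * I) (pt (cs 12) x.2)
  bK : ∃ B : SF → ℝ, Summable B ∧ ∀ (κ : SF) (y : ℝ) (t : R4),
    ‖K κ (σ κ + y * I) (pt (cs 12) t)‖ ≤ B κ / br y ^ 2 * dk (pt (cs 12) t)

def Yk (Y : ℕ) (K : ℤ → ℂ → V4 → ℂ) (σ : ℝ) (κ : ℤ) : ℂ :=
  1 / (2 * π) * Iv σ fun z => In (cs 12) fun u => K κ z u * ZY Y κ z u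

def KG (X : ℝ) (W : V4 → ℂ) (κ : ℤ) (z : ℂ) (u : V4) : ℂ := X * Kz κ X z * W u

def KP (E : ℤ → ℂ → ℂ) (Ω : ℂ → V4 → ℂ) (κ : ℤ) (z : ℂ) (u : V4) : ℂ := Ω (1 - z) u * Kd E κ z

open Classical in
def ac (τ r : ℤ) (Y : ℕ) (Ω : ℂ → V4 → ℂ) (m : ℤ) (u : V4) : ℂ :=
  if Cl τ r m then (sY Y m : ℂ) *
    (1 / (2 * π) * Iv 2 fun w => Ω w u * ((|(m : ℝ)| : ℝ) : ℂ) ^ (-w)) else 0

def OmE (Ω : ℂ → V4 → ℂ) (M : ℝ) : Prop := ∀ w ∈ Strip (-5) 2, ∀ t : R4,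
  DifferentiableAt ℂ (fun x : ℂ × V4 => Ω x.1 x.2) (w, pt (cs 12) t) ∧
    ‖Ω w (pt (cs 12) t)‖ ≤ M / br w.im ^ 14 * dk (pt (cs 12) t)

/-! The term `k = 1` -/

def R1 (ε : ℝ) : Set (ℂ × V4) := {x | x.1 ∈ Strip (ε / 2) (3 / 4) ∧ x.2 ∈ Bx ε 12}

structure KC (n : ℕ) (Kr H : ℂ → V4 → ℂ) (ε X V M : ℝ) : Prop where
  e0 : 0 < ε
  e1 : ε ≤ 1 / 100
  X1 : 1 ≤ X
  eX : ε * Real.log X ≤ 1
  hol : Hol (R1 ε) fun x => Kr x.1 x.2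
  bd : ∀ x ∈ R1 ε, ‖Kr x.1 x.2‖ ≤
    V * X ^ (1 - x.1.re + ∑ j, (x.2 j).re) / br x.1.im ^ n * dn n x.2
  hH : Hol V1 fun x => H x.1 x.2
  bH : ∀ x ∈ V1, ‖H x.1 x.2‖ ≤ M

def hf (u : V4) : ℂ := ∏ j, (u j - 1 / 2)

def G1 (Kr H : ℂ → V4 → ℂ) (z : ℂ) (u : V4) : ℂ :=
  Kr z u * hf u * (∏ j, Lo 1 (1 + (u j - z))) * ZR z u * H z u

def rl (ε : ℝ) : R4 := fun j => ((j : ℕ) + 1) * ε

def Fl (Kr H : ℂ → V4 → ℂ) (i : Fin 4) (u : V4) : ℂ :=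
  Kr (u i) u * hf u / (u i - 1 / 2) * FZ i u * H (u i) u / 2

/-- The integral over `z` of the term `k = 1`. -/
def Y1 (Kr H : ℂ → V4 → ℂ) (σ : ℝ) (c : R4) : ℂ :=
  Iv σ fun z => In c (G1 Kr H z) / (z - 1 / 2)

/-! The exact part -/

structure GC (g : ℂ → ℂ) (C : ℝ) : Prop where
  hol : ∀ u : ℂ, -(1 / 2) < u.re → DifferentiableAt ℂ g u
  bd : ∀ u ∈ Strip (-(1 / 4)) 13, ‖g u‖ ≤ C * Real.exp (-(3 / 4) * u.im ^ 2)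

/-- `gg a c u = (u ^ 2 - 1 / 4) * g1 a c u`. -/
def g1 (a : ℕ) (c : Fin 3 → ℂ) (u : ℂ) : ℂ :=
  -4 * gr a u * cexp (u ^ 2) * (1 + c 0 * u ^ 2 + c 1 * u ^ 4 + c 2 * u ^ 6)

def wr (g : ℂ → ℂ) (γ : ℤ) (u : ℂ) : ℂ :=
  (u + 1 / 2) * g u / (u ^ 7 * (1 - γ * (2 : ℂ) ^ (-(1 / 2 + u))))

def Wr (g : ℂ → ℂ) (γ : ℤ) (u : V4) : ℂ := Vd (fun j => u j ^ 2) ^ 2 * ∏ j, wr g γ (u j)

def W4 (g : ℂ → ℂ) (γ : ℤ) (u : V4) : ℂ := Wr g γ u * hf u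

def cF (Δ : ℝ) (u : V4) : ℂ := ∏ j, (1 - th8 (u j * Δ))

def Tm (g : ℂ → ℂ) (γ : ℤ) (Δ q : ℝ) (m : ℤ) : ℂ :=
  In (cs 12) fun u => W4 g γ u * (1 - cF Δ u) * (q : ℂ) ^ us u * LL m u

def Fm (g : ℂ → ℂ) (γ : ℤ) (Δ q : ℝ) (m : ℤ) : ℂ :=
  In (cs 12) fun u => W4 g γ u * cF Δ u * (q : ℂ) ^ us u * LL m u

def Ow (g : ℂ → ℂ) (γ : ℤ) (c Δ η X : ℝ) (w : ℂ) (u : V4) : ℂ :=
  rho η (w + us u) * (X : ℂ) ^ (w + us u) * (c : ℂ) ^ (-w) * (Wr g γ u * (1 - cF Δ u))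

/-- `Ow` without the factor `Vd ^ 2`. -/
def O0 (g : ℂ → ℂ) (γ : ℤ) (c Δ η X : ℝ) (w : ℂ) (u : V4) : ℂ :=
  rho η (w + us u) * (X : ℂ) ^ (w + us u) * (c : ℂ) ^ (-w) * ((∏ j, wr g γ (u j)) * (1 - cF Δ u))

def Om (g : ℂ → ℂ) (γ : ℤ) (c Δ η X : ℝ) (w : ℂ) (u : V4) : ℂ := Ow g γ c Δ η X w u * hf u

/-- The main term of one class, up to the factor `1 / (8 c)`. -/
def MC (g : ℂ → ℂ) (γ : ℤ) (ε X : ℝ) : ℂ :=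
  In (cs ε) fun u => (X : ℂ) ^ (1 + us u) / (1 + us u) * (W4 g γ u * ZO u * HI u)

/-- The range of the parameters. -/
structure Pm (γ : ℤ) (c Δ η X : ℝ) (Y : ℕ) : Prop where
  hγ : γ ∈ T3
  c1 : 1 ≤ c
  c4 : c ≤ 4
  D1 : 1 ≤ Δ
  h0 : 0 < η
  h1 : η ≤ 1 / 30
  X1 : 1 ≤ X
  XL : 100 ≤ Real.log X
  Y1 : 1 ≤ Y

open Classical in
/-- The sieved term of the exact part. -/
def ta (τ r : ℤ) (g : ℂ → ℂ) (Δ η X : ℝ) (Y : ℕ) (m : ℤ) : ℂ :=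
  if Cl τ r m then (sY Y m : ℂ) * (phi η (cq r * |(m : ℝ)| / X) : ℂ) *
    Tm g (gam r) Δ (cq r * |(m : ℝ)|) m else 0

open Classical in
def tb (τ r : ℤ) (g : ℂ → ℂ) (Δ η X : ℝ) (k : SF) : ℂ :=
  if (k : ℤ) ≠ 1 ∧ Cl τ r k then (phi η (qk k / X) : ℂ) * Tm g (gam k) Δ (qk k) k else 0

def sm (a : ℕ) (η X : ℝ) (k : SF) : ℂ :=
  if (k : ℤ) ≠ 1 ∧ par k = a then (phi η (qk k / X) : ℂ) * Lf k (1 / 2) ^ 4 else 0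

/-! Pairs -/

def an (u : V4) : ℂ := (u 0 ^ 2 - u 1 ^ 2) * (u 2 ^ 2 - u 3 ^ 2)

def pr (c : ℝ) (f g : ℂ → ℂ) : ℂ :=
  Iv c (fun u => u ^ 2 * f u) * Iv c g - Iv c f * Iv c fun u => u ^ 2 * g u

def pw (κ t v : ℝ) (u : ℂ) : ℂ := u * (u ^ 2 - 1 / 4) * cexp (κ * (u - t * I) ^ 2 + v * u)

def Pk (κ t v κ' t' v' : ℝ) (k : ℤ) : ℂ :=
  pr 0 (fun u => pw κ t v u * Lo k (1 / 2 + u)) fun u => pw κ' t' v' u * Lo k (1 / 2 + u)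

def Bm (κ t v κ' t' v' : ℝ) (m : ℤ) : ℂ :=
  pr 12 (fun u => pw κ t v u * LS m (1 / 2 + u)) fun u => pw κ' t' v' u * LS m (1 / 2 + u)

def W2 (κ t v κ' t' v' : ℝ) (u : V4) : ℂ :=
  an u * (pw κ t v (u 0) * pw κ' t' v' (u 1) * pw κ (-t) v (u 2) * pw κ' (-t') v' (u 3))

def amp (κ κ' : ℝ) (c : R4) (k : ℤ) (s : V4) : ℂ :=
  an s * (pw κ (c 0) 0 (s 0) * pw κ' (c 1) 0 (s 1) * pw κ (c 2) 0 (s 2) * pw κ' (c 3) 0 (s 3)) *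
    ∏ j, Lo k (1 / 2 + s j)

def ev (s : V4) (V : R4) : ℂ := cexp (∑ j, s j * V j)

def Bd (F : Finset ℤ) (ω : ℤ → ℝ) (f : ℤ → V4 → ℂ) (B : ℝ) : Prop :=
  ∀ V : R4, ∑ k ∈ F, ω k * ‖In (cs 0) fun s => f k s * ev s V‖ ≤ B

def gz (A : ℕ) (w : ℂ) : ℂ := 1 / (lz w * (2 + w) ^ A)

def Ew (w : ℝ) : ℝ := if 0 ≤ w then Real.exp (-3 * w) else Real.exp (w / 4)

def mx (Z v : ℝ) : ℝ := max 1 (Real.exp v / √Z)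

def Kp (κ : ℝ) : Prop := 0 < κ ∧ κ ≤ 1

def PP2 (θ : ℝ) : Prop := ∀ κ κ' : ℝ, Kp κ → Kp κ' → ∃ (A : ℕ) (C : ℝ), 0 < C ∧
  ∀ (K t v t' v' : ℝ) (F : Finset ℤ), 0 < K → SQ F →
    ∑ k ∈ F, om (|(k : ℝ)| / K) * ‖Pk κ t v κ' t' v' k‖ ^ 2 ≤
      C * K * lg K ^ θ * br t ^ A * br t' ^ A

def DI (θ : ℝ) (j j' : ℕ) : Prop := ∀ κ κ' : ℝ, Kp κ → Kp κ' → ∃ (A : ℕ) (C : ℝ), 0 < C ∧
  ∀ Z t v t' v' : ℝ, 1 ≤ Z →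
    ∑ k ∈ Sq Z, ‖Pk κ t v κ' t' v' k‖ ^ 2 ≤
      C * Z * lg Z ^ θ * br t ^ A * br t' ^ A * mx Z v ^ j * mx Z v' ^ j'

/-- The majorant that comes from the Cauchy determinant. -/
def cm (ε : ℝ) (s τ : R4) : ℝ :=
  1 / ((ε + |s 0 * τ 0 + s 2 * τ 2|) * (ε + |s 1 * τ 1 + s 3 * τ 3|)) +
    1 / ((ε + |s 0 * τ 0 + s 3 * τ 3|) * (ε + |s 1 * τ 1 + s 2 * τ 2|))

def sgi (i : Fin 4) : R4 := fun j => if j = i then -1 else 1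

end

end Pool.Agent.Q4
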