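import Pool.Agent.P.MP_ea46f5_nt.Q4.Rep
import Pool.Agent.P.MP_ea46f5_nt.Q4.D4

/-! The representation applied to the bounds `Bd`, and its one-variable form. -/

namespace Pool.Agent.Q4

open Complex MeasureTheory Finset
open scoped Real
open Pool.Agent.QM

theorem ev_pt0 (t V : R4) : ev (pt (cs 0) t) V = rex t V := rex_pt0 t V

theorem IL.mul_rex {f : V4 → ℂ} (h : IL (cs 0) f) (V : R4) :
    Integrable fun t : R4 => f (pt (cs 0) t) * rex t V :=
  Integrable.mul_bdd (c := 1) h (Continuous.aestronglyMeasurable (by unfold rex; fun_prop))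
    (.of_forall fun _ => (rex_norm _ _).le)

/-- A factor that is a superposition of phases on the imaginary axes. -/
theorem Bd.sup {A : Type} [MeasurableSpace A] (μ : Measure A) [SFinite μ] (φ : A → R4)
    (hφ : Measurable φ) {F : Finset ℤ} {ω ω' : ℤ → ℝ} {f : ℤ → V4 → ℂ} (R : ℤ → V4 → ℂ)
    (h : ℤ → A → ℂ) (E : A → ℝ) {B N : ℝ} (hE : Integrable E μ) (hE0 : ∀ a, 0 ≤ E a)
    (hN : ∫ a, E a ∂μ ≤ N) (hB0 : 0 ≤ B) (hω : ∀ k ∈ F, 0 ≤ ω' k)
    (hh : ∀ k ∈ F, Integrable (h k) μ) (hf : ∀ k ∈ F, IL (cs 0) (f k))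
    (hb : ∀ k ∈ F, ∀ a, ω' k * ‖h k a‖ ≤ E a * ω k)
    (hR : ∀ k ∈ F, ∀ t, R k (pt (cs 0) t) = ∫ a, h k a * rex t (φ a) ∂μ) (hB : Bd F ω f B) :
    Bd F ω' (fun k s => f k s * R k s) (N * B) := by
  intro V
  have := sup_sum μ φ hφ F ω ω' h (fun k t => f k (pt (cs 0) t) * rex t V) E B hE hE0 hω hh
    (fun k hk => (hf k hk).mul_rex V) hb fun a => by
      simpa only [In, ev_pt0, rex_add, mul_assoc] using hB (V + φ a)
  refine le_trans (le_of_eq (sum_congr rfl fun k hk => ?_))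
    (this.trans (mul_le_mul_of_nonneg_right hN hB0))
  simp only [In, ev_pt0, hR k hk, mul_right_comm]

theorem Bd.nonneg {F : Finset ℤ} {ω : ℤ → ℝ} {f : ℤ → V4 → ℂ} {B : ℝ} (hB : Bd F ω f B)
    (hω : ∀ k ∈ F, 0 ≤ ω k) : 0 ≤ B :=
  (sum_nonneg fun k hk => mul_nonneg (hω k hk) (norm_nonneg _)).trans (hB 0)

/-- A superposition of phases is continuous and bounded, so it keeps integrability. -/
theorem IL.sup {A : Type} [MeasurableSpace A] (μ : Measure A) (φ : A → R4) (hφ : Measurable φ)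
    {f : V4 → ℂ} (hf : IL (cs 0) f) (R : V4 → ℂ) (h : A → ℂ) (hh : Integrable h μ)
    (hR : ∀ t, R (pt (cs 0) t) = ∫ a, h a * rex t (φ a) ∂μ) : IL (cs 0) fun s => f s * R s := by
  unfold IL
  simp only [hR]
  have hn : ∀ t a, ‖h a * rex t (φ a)‖ ≤ ‖h a‖ := fun t a => by rw [norm_mul, rex_norm, mul_one]
  refine Integrable.mul_bdd (c := ∫ a, ‖h a‖ ∂μ) hf (Continuous.aestronglyMeasurable ?_)
    (.of_forall fun t => norm_integral_le_of_norm_le hh.norm (.of_forall (hn t)))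
  refine continuous_of_dominated (bound := fun a => ‖h a‖) (fun t => hh.1.mul ?_)
    (fun t => .of_forall (hn t)) hh.norm (.of_forall fun a => by unfold rex; fun_prop)
  exact (rex_cont.measurable.comp (measurable_const.prodMk hφ)).aestronglyMeasurable

/-- Four variables. -/
theorem rep4_core {F : Finset ℤ} {ω ω' Mk : ℤ → ℝ} {f R : ℤ → V4 → ℂ} {c : ℤ → R4} {δ M B : ℝ}
    (hδ : 0 < δ) (hM : 0 ≤ M) (hB0 : 0 ≤ B) (hω : ∀ k ∈ F, 0 ≤ ω' k)
    (hf : ∀ k ∈ F, IL (cs 0) (f k)) (hR : ∀ k ∈ F, RH (cs (-δ)) (cs δ) (c k) (Mk k) (R k))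
    (hm : ∀ k ∈ F, ω' k * Mk k ≤ M * ω k) (hB : Bd F ω f B) :
    (∀ k ∈ F, IL (cs 0) fun s => f k s * R k s) ∧
      Bd F ω' (fun k s => f k s * R k s) (16 * M / δ ^ 4 * B) := by
  have hr := fun k hk => (hR k hk).rep hδ fun _ => ⟨le_rfl, le_rfl⟩
  refine ⟨fun k hk => (hf k hk).sup volume id measurable_id _ _ (hr k hk).1 (hr k hk).2.2.2, ?_⟩
  have hP : ∀ v : R4, 0 ≤ ∏ j, Real.exp (-δ * |v j|) := fun v => by positivity
  refine Bd.sup volume id measurable_id R (fun k => rhat (R k))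
    (fun v => M * ∏ j, Real.exp (-δ * |v j|)) ((exp_abs_pi hδ).1.const_mul M)
    (fun v => mul_nonneg hM (hP v)) ?_ hB0 hω (fun k hk => (hr k hk).1) hf (fun k hk v => ?_)
    (fun k hk => (hr k hk).2.2.2) hB
  · rw [integral_const_mul]
    refine (mul_le_mul_of_nonneg_left (exp_abs_pi hδ).2 hM).trans (le_of_eq ?_)
    rw [div_pow]; ring
  · refine (mul_le_mul_of_nonneg_left ((hr k hk).2.2.1 v) (hω k hk)).trans ?_
    rw [← mul_assoc, mul_right_comm M]
    exact mul_le_mul_of_nonneg_right (hm k hk) (hP v)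

/-- The same without a sign condition on `B`. -/
theorem rep4_core' {F : Finset ℤ} {ω ω' Mk : ℤ → ℝ} {f R : ℤ → V4 → ℂ} {c : ℤ → R4} {δ M B : ℝ}
    (hδ : 0 < δ) (hM : 0 ≤ M) (hω : ∀ k ∈ F, 0 ≤ ω' k)
    (hf : ∀ k ∈ F, IL (cs 0) (f k)) (hR : ∀ k ∈ F, RH (cs (-δ)) (cs δ) (c k) (Mk k) (R k))
    (hm : ∀ k ∈ F, ω' k * Mk k ≤ M * ω k) (hB : Bd F ω f B) :
    (∀ k ∈ F, IL (cs 0) fun s => f k s * R k s) ∧
      Bd F ω' (fun k s => f k s * R k s) (16 * M / δ ^ 4 * B) := by
  rcases hM.eq_or_lt with rfl | hM'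
  · have := rep4_core (B := max B 0) hδ le_rfl (le_max_right _ _) hω hf hR hm
      fun V => (hB V).trans (le_max_left _ _)
    simpa using this
  · refine rep4_core hδ hM (hB.nonneg fun k hk => ?_) hω hf hR hm hB
    have h1 := (hR k hk).nonneg fun _ => ⟨neg_nonpos.2 hδ.le, hδ.le⟩
    exact nonneg_of_mul_nonneg_right ((mul_nonneg (hω k hk) h1).trans (hm k hk)) hM'

theorem rex_pair (t : R4) (i j : Fin 4) (v : ℝ) :
    rex t (Pi.single i v + Pi.single j v) = cexp (((t i + t j : ℝ) : ℂ) * I * v) := by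
  have e : ∀ i : Fin 4, ∑ l, t l * (Pi.single i v : R4) l = t i * v := fun i => by
    rw [sum_eq_single i (fun l _ hl => by simp [hl]) (by simp), Pi.single_eq_same]
  unfold rex
  simp only [Pi.add_apply, mul_add, sum_add_distrib, e]
  congr 1
  push_cast
  ring

/-- A factor that depends on `τ i + τ j` and has an integrable transform. -/
theorem mul_core {F : Finset ℤ} {ω : ℤ → ℝ} {f : ℤ → V4 → ℂ} {B N : ℝ} (i j : Fin 4)
    (G : V4 → ℂ) (h : ℝ → ℂ) (hh : Integrable h) (hN : ∫ v, ‖h v‖ ≤ N)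
    (hG : ∀ t : R4, G (pt (cs 0) t) = ∫ v, h v * cexp (((t i + t j : ℝ) : ℂ) * I * v))
    (hω : ∀ k ∈ F, 0 ≤ ω k) (hf : ∀ k ∈ F, IL (cs 0) (f k)) (hB : Bd F ω f B) :
    (∀ k ∈ F, IL (cs 0) fun s => f k s * G s) ∧ Bd F ω (fun k s => f k s * G s) (N * B) := by
  have hφ : Measurable fun v : ℝ => (Pi.single i v + Pi.single j v : R4) :=
    ((continuous_single (A := fun _ : Fin 4 => ℝ) i).add
      (continuous_single (A := fun _ : Fin 4 => ℝ) j)).measurable
  have hR : ∀ t : R4, G (pt (cs 0) t) = ∫ v, h v * rex t (Pi.single i v + Pi.single j v) :=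
    fun t => by simp only [rex_pair, hG]
  exact ⟨fun k hk => (hf k hk).sup volume _ hφ _ _ hh hR,
    Bd.sup volume _ hφ (fun _ => G) (fun _ => h) (fun v => ‖h v‖) hh.norm (fun _ => norm_nonneg _)
      hN (hB.nonneg hω) hω (fun _ _ => hh) hf (fun k _ v => (mul_comm _ _).le) (fun _ _ => hR) hB⟩

/-! One variable -/

theorem int_one (g : ℝ → ℂ) : ∫ t : Fin 1 → ℝ, g (t 0) = ∫ x, g x :=
  (volume_preserving_funUnique (Fin 1) ℝ).integral_comp' g

theorem intg_one {g : ℝ → ℂ} (hg : Integrable g) : Integrable fun t : Fin 1 → ℝ => g (t 0) :=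
  (volume_preserving_funUnique (Fin 1) ℝ).integrable_comp_of_integrable hg

theorem rex_one (t v : Fin 1 → ℝ) : rex t v = cexp (v 0 * (t 0 * I)) := by
  unfold rex
  congr 1
  simp
  ring

/-- Fourier inversion on the line. -/
theorem rep_inv1 (g : ℝ → ℂ) (hc : Continuous g) (hg : Integrable g)
    (hh : Integrable fun v : ℝ => ∫ t : ℝ, g t * cexp (-v * (t * I))) (x : ℝ) :
    g x = ∫ v : ℝ, (((2 * π)⁻¹ : ℝ) : ℂ) * (∫ t : ℝ, g t * cexp (-v * (t * I))) *
      cexp (v * (x * I)) := by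
  have e : ∀ v : Fin 1 → ℝ, ∫ t : Fin 1 → ℝ, g (t 0) * rex t (-v) =
      ∫ t : ℝ, g t * cexp (-(v 0) * (t * I)) := fun v => by
    rw [← int_one]
    simp only [rex_one, Pi.neg_apply, ofReal_neg]
  have h := rep_inv (fun t : Fin 1 → ℝ => g (t 0)) (hc.comp (continuous_apply 0)) (intg_one hg)
    (by simp only [e]; exact intg_one hh) fun _ => x
  simp only [e] at h
  simp only [rex_one, pow_one] at h
  rw [h, ← int_one]

theorem sup_eq1 (h F : ℝ → ℂ) (hh : Integrable h) (hF : Integrable F) :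
    Integrable (fun v : ℝ => h v * ∫ t : ℝ, F t * cexp (v * (t * I))) ∧
      ∫ t : ℝ, F t * ∫ v : ℝ, h v * cexp (v * (t * I)) =
        ∫ v : ℝ, h v * ∫ t : ℝ, F t * cexp (v * (t * I)) := by
  have := sup_eq (n := 1) volume (fun (v : ℝ) _ => v) (Continuous.measurable (by fun_prop)) h hh
    (fun t => F (t 0)) (intg_one hF)
  simp only [rex_one] at this
  rw [int_one fun t => F t * ∫ v : ℝ, h v * cexp (v * (t * I))] at this
  simpa only [fun v : ℝ => int_one fun t => F t * cexp (v * (t * I))] using this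

theorem hat1_le {a b c M : ℝ} {R : ℂ → ℂ} (ha : a ≤ 0) (hb : 0 ≤ b) (hR : Nice a b R)
    (hM : ∀ u ∈ Strip a b, ‖R u‖ ≤ M / br (u.im - c) ^ 2) (v : ℝ) :
    ‖∫ t : ℝ, R (t * I) * cexp (-v * (t * I))‖ ≤ M * 2 * rE a b v := by
  have hM0 : 0 ≤ M := by
    have := (norm_nonneg _).trans (hM (c * I) ⟨by simpa using ha, by simpa using hb⟩)
    simpa [br] using this
  set G : ℂ → ℂ := fun u => R (u + c * I) * cexp (-v * u) with hG
  have e1 : ∫ t : ℝ, R (t * I) * cexp (-v * (t * I)) = Iv 0 G * cexp (((-v * c : ℝ) : ℂ) * I) := by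
    rw [← integral_add_right_eq_self (fun t : ℝ => R (t * I) * cexp (-v * (t * I))) c, Iv,
      ← integral_mul_const]
    refine integral_congr_ae (.of_forall fun t => ?_)
    simp only [hG, mul_assoc, ← Complex.exp_add]
    push_cast
    congr 2 <;> ring
  have hm : ∀ u ∈ Strip a b, u + c * I ∈ Strip a b := fun u hu => by simpa [Strip] using hu
  have hN : ∀ a' b', a ≤ a' → b' ≤ b → Nice a' b' G := fun a' b' h1 h2 =>
    ⟨(hR.1.comp (by fun_prop) fun u hu => hm u ⟨h1.trans hu.1, hu.2.trans h2⟩).mul (by fun_prop),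
      (hR.2.comp (by fun_prop) fun u hu => by
        simpa [OStrip] using And.intro (h1.trans_lt hu.1) (hu.2.trans_le h2)).mul (by fun_prop)⟩
  have hb1 : ∀ u ∈ Strip a b, ‖G u‖ ≤ M * Real.exp (-u.re * v) / br u.im ^ 2 := by
    intro u hu
    have h1 := hM _ (hm u hu)
    have h2 : (-(v : ℂ) * u).re = -u.re * v := by simp [mul_comm]
    simp only [add_im, mul_im, ofReal_re, I_im, mul_one, ofReal_im, I_re, mul_zero, add_zero,
      add_sub_cancel_right] at h1
    rw [hG, norm_mul, Complex.norm_exp, h2, mul_div_right_comm]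
    exact mul_le_mul_of_nonneg_right h1 (Real.exp_pos _).le
  have hb2 : ∀ u ∈ Strip a b, ‖G u‖ ≤ M * Real.exp ((b - a) * |v|) / br u.im ^ 2 := by
    intro u hu
    refine (hb1 u hu).trans (div_le_div_of_nonneg_right (mul_le_mul_of_nonneg_left
      (Real.exp_le_exp.2 ((le_abs_self _).trans ?_)) hM0) (by positivity))
    rw [abs_mul, abs_neg]
    exact mul_le_mul_of_nonneg_right (abs_le.2 ⟨by linarith [hu.1], by linarith [hu.2]⟩)
      (abs_nonneg _)
  have key : ∀ l, a ≤ l → l ≤ b → ‖Iv l G‖ ≤ M * 2 * Real.exp (-l * v) := by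
    intro l h1 h2
    refine (norm_integral_le_of_norm_le (pDEC.2.2.2.1.1.const_mul (M * Real.exp (-l * v)))
      (.of_forall fun t => ?_)).trans ?_
    · simpa [div_eq_mul_inv] using hb1 (l + t * I) ⟨by simpa using h1, by simpa using h2⟩
    · rw [integral_const_mul, mul_right_comm M 2]
      exact mul_le_mul_of_nonneg_left pDEC.2.2.2.1.2 (by positivity)
  rw [e1, norm_mul, norm_exp_ofReal_mul_I, mul_one, rE]
  split_ifs
  · rw [← pSH0 0 b _ G hb (hN 0 b ha le_rfl) fun u hu => hb2 u ⟨ha.trans hu.1, hu.2⟩]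
    exact key b (ha.trans hb) le_rfl
  · rw [pSH0 a 0 _ G ha (hN a 0 le_rfl hb) fun u hu => hb2 u ⟨hu.1, hu.2.trans hb⟩]
    exact key a le_rfl (ha.trans hb)

/-- One variable: the bound with the profile `rE a b`; the majorant is integrable. -/
theorem rep1_core {a b c M δ : ℝ} {R f : ℂ → ℂ} (hδ : 0 < δ) (ha : a ≤ -δ) (hb : δ ≤ b)
    (hR : Nice a b R) (hM : ∀ u ∈ Strip a b, ‖R u‖ ≤ M / br (u.im - c) ^ 2) (hf : Lc 0 f) :
    Lc 0 (fun u => R u * f u) ∧
      Integrable (fun w : ℝ => rE a b w * ‖Iv 0 fun u => f u * cexp (w * u)‖) ∧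
      ‖Iv 0 fun u => R u * f u‖ ≤ M * ∫ w : ℝ, rE a b w * ‖Iv 0 fun u => f u * cexp (w * u)‖ := by
  have ha0 : a ≤ 0 := by linarith
  have hb0 : 0 ≤ b := by linarith
  have hs : ∀ t : ℝ, (t * I : ℂ) ∈ Strip a b := fun t => ⟨by simpa using ha0, by simpa using hb0⟩
  have hM0 : 0 ≤ M := by simpa [br] using (norm_nonneg _).trans (hM _ (hs c))
  have hc : Continuous fun t : ℝ => R (t * I) := hR.1.comp_continuous (by fun_prop) hs
  have hi : Integrable fun t : ℝ => R (t * I) :=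
    ((pDEC.2.2.2.1.1.comp_sub_right c).const_mul M).mono' hc.aestronglyMeasurable
      (.of_forall fun t => by simpa [div_eq_mul_inv] using hM _ (hs t))
  have hn : ∀ x y : ℝ, ‖cexp (x * (y * I))‖ = 1 := fun x y => by
    rw [← mul_assoc, ← ofReal_mul, norm_exp_ofReal_mul_I]
  have hco : ∀ g : ℝ → ℂ, Integrable g → Continuous fun v : ℝ => ∫ t : ℝ, g t * cexp (v * (t * I)) :=
    fun g hg => continuous_of_dominated (bound := fun t => ‖g t‖)
      (fun v => hg.1.mul (Continuous.aestronglyMeasurable (by fun_prop)))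
      (fun v => .of_forall fun t => by rw [norm_mul, hn, mul_one]) hg.norm
      (.of_forall fun t => by fun_prop)
  have hE : Integrable (rE a b) := (exp_abs_int hδ).1.mono'
    (Measurable.aestronglyMeasurable (by
      unfold rE
      exact ((Measurable.ite measurableSet_Ici measurable_const measurable_const).neg.mul
        measurable_id).exp))
    (.of_forall fun x => by
      rw [Real.norm_of_nonneg (r := rE a b x) (Real.exp_pos _).le]; exact rE_le ha hb x)
  have hh : Integrable fun v : ℝ => ∫ t : ℝ, R (t * I) * cexp (-v * (t * I)) := by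
    refine (hE.const_mul (M * 2)).mono' (Continuous.aestronglyMeasurable ?_)
      (.of_forall (hat1_le ha0 hb0 hR hM))
    simpa [Function.comp_def] using (hco _ hi).comp continuous_neg
  have hf' : Integrable fun t : ℝ => f (t * I) := by simpa [Lc] using hf
  have h1 := sup_eq1 _ _ (hh.const_mul (((2 * π)⁻¹ : ℝ) : ℂ)) hf'
  have h2 := rep_inv1 _ hc hi hh
  have h3 : Integrable fun w : ℝ => rE a b w * ‖∫ t : ℝ, f (t * I) * cexp (w * (t * I))‖ :=
    hE.mul_bdd (c := ∫ t : ℝ, ‖f (t * I)‖) (hco _ hf').norm.aestronglyMeasurable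
      (.of_forall fun w => by
        rw [norm_norm]
        exact norm_integral_le_of_norm_le hf'.norm (.of_forall fun t => by
          rw [norm_mul, hn, mul_one]))
  simp only [Lc, Iv, ofReal_zero, zero_add]
  refine ⟨hf'.bdd_mul (c := M) hc.aestronglyMeasurable (.of_forall fun t =>
    (hM _ (hs t)).trans (div_le_self hM0 (one_le_pow₀ (sh_br_one _)))), h3, ?_⟩
  simp only [← h2] at h1
  simp only [mul_comm (R _)]
  rw [h1.2, ← integral_const_mul]
  refine norm_integral_le_of_norm_le (h3.const_mul M) (.of_forall fun w => ?_)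
  rw [norm_mul, ← mul_assoc, norm_mul, norm_real, Real.norm_of_nonneg (by positivity)]
  refine mul_le_mul_of_nonneg_right ?_ (norm_nonneg _)
  rw [inv_mul_le_iff₀ (by positivity)]
  refine (hat1_le ha0 hb0 hR hM w).trans ?_
  have : 0 ≤ M * rE a b w := mul_nonneg hM0 (Real.exp_pos _).le
  nlinarith [Real.pi_gt_three]

theorem rE_eq_Ew (w : ℝ) : rE (-(1 / 4)) 3 w = Ew w := by
  unfold rE Ew
  split_ifs
  · rfl
  · congr 1; ring

end Pool.Agent.Q4
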