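import Pool.Agent.P.MP_ea46f5_nt.Q4.S4
import Pool.Agent.P.MP_ea46f5_nt.Q4.RepB
import Pool.Agent.P.MP_ea46f5_nt.Q4.PrC

namespace Pool.Agent.Q4

open Complex MeasureTheory Finset Pool.Agent.QM
open scoped Real

theorem pREP1 : REP1 := by
  refine ⟨1, one_pos, fun f R c M hf hR => ?_⟩
  have := (rep1_core (δ := 1 / 4) (by norm_num) le_rfl (by norm_num)
    ⟨fun u hu => (hR u hu).1.continuousAt.continuousWithinAt,
      fun u hu => (hR u ⟨hu.1.le, hu.2.le⟩).1.differentiableWithinAt⟩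
    (fun u hu => (hR u hu).2) hf).2.2
  simpa only [rE_eq_Ew, one_mul] using this

theorem pREP4 (hS : HSEP) : REP4 := by
  refine ⟨16, by norm_num, fun F ω ω' Mk f R c δ M B hδ _ hM h hB => ?_⟩
  have := rep4_core' (c := fun _ => c) hδ hM (fun k hk => (h k hk).2.1)
    (fun k hk => (h k hk).2.2.2.1) (fun k hk => ⟨hS _ _ _ (h k hk).2.2.2.2.1, (h k hk).2.2.2.2.2⟩)
    (fun k hk => (h k hk).2.2.1) hB
  rw [mul_div_right_comm]
  exact this.symm

theorem pMUL : MUL := fun F ω f B h g i j hh hg hf hB =>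
  (mul_core i j (fun s => g (s i + s j)) h hh le_rfl (fun t => by
    rw [← hg]
    congr 1
    simp [pt, cs, add_mul]) (fun k hk => (hf k hk).1) (fun k hk => (hf k hk).2) hB).symm

theorem pPR4 : PR4 := fun c f h => pr4_core c f (fun j => (h j).1) fun j => (h j).2

end Pool.Agent.Q4
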