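import Pool.Agent.P.MP_ea46f5_nt.Q4.D4

/-! The factorisation of the dual kernel. -/

namespace Pool.Agent.Q4

open Complex MeasureTheory Finset Pool.Agent.QM
open scoped Real

noncomputable section

def rj (κ T : ℝ) (z s : ℂ) : ℂ :=
  (z - 1 / 2 + s) * ((z - 1 / 2 + s) ^ 2 - 1 / 4) / (s ^ 2 - 1 / 4) *
    cexp (κ * (z - 1 / 2 + s - T * I) ^ 2 - (κ / 2 : ℝ) * (s - (T - z.im : ℝ) * I) ^ 2)

def Rp (A : ℕ) (z : ℂ) (s : V4) : ℂ :=
  16 * (2 * z - 1 + s 0 + s 1) * (2 * z - 1 + s 2 + s 3) *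
    ((s 0 + s 2) * (s 0 + s 3) * (s 1 + s 2) * (s 1 + s 3)) *
    ∏ i, ∏ j ∈ Ici i, (2 + (s i + s j)) ^ A

def Rz (A : ℕ) (κ t κ' t' : ℝ) (z : ℂ) (s : V4) : ℂ :=
  Rp A z s * (rj κ t z (s 0) * rj κ' t' z (s 1) * rj κ (-t) z (s 2) * rj κ' (-t') z (s 3))

def GZ4 (A : ℕ) (s : V4) : ℂ := ∏ i, ∏ j ∈ Ici i, gz A (s i + s j)

end

theorem tc_pw (κ T v : ℝ) (z s : ℂ) (hs : s ^ 2 - 1 / 4 ≠ 0) :
    pw κ T v (z - 1 / 2 + s) * s =
      pw (κ / 2) (T - z.im) 0 s * rj κ T z s * (cexp (s * v) * cexp ((z - 1 / 2) * v)) := by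
  unfold pw rj
  have e : cexp (κ * (z - 1 / 2 + s - T * I) ^ 2 + v * (z - 1 / 2 + s)) =
      cexp ((κ / 2 : ℝ) * (s - (T - z.im : ℝ) * I) ^ 2 + (0 : ℝ) * s) *
      cexp (κ * (z - 1 / 2 + s - T * I) ^ 2 - (κ / 2 : ℝ) * (s - (T - z.im : ℝ) * I) ^ 2) *
      (cexp (s * v) * cexp ((z - 1 / 2) * v)) := by
    simp only [← Complex.exp_add]
    congr 1
    push_cast
    ring
  rw [e]
  generalize s ^ 2 - 1 / 4 = w at hs ⊢
  field_simp

theorem tc_prod (f : Fin 4 → Fin 4 → ℂ) : ∏ i, ∏ j ∈ Ici i, f i j =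
    f 0 0 * f 0 1 * f 0 2 * f 0 3 * (f 1 1 * f 1 2 * f 1 3) * (f 2 2 * f 2 3) * f 3 3 := by
  have h0 : Ici (0 : Fin 4) = {0, 1, 2, 3} := by decide
  have h1 : Ici (1 : Fin 4) = {1, 2, 3} := by decide
  have h2 : Ici (2 : Fin 4) = {2, 3} := by decide
  have h3 : Ici (3 : Fin 4) = {3} := by decide
  rw [Fin.prod_univ_four, h0, h1, h2, h3]
  simp [mul_assoc]

theorem tc_iz (hiz : ∀ w : ℂ, iz (1 + w) = w / lz w) (A : ℕ) (s : V4) (hs : ∀ j, (s j).re = 0) :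
    IZ4 s = (∏ i, ∏ j ∈ Ici i, (s i + s j)) * (∏ i, ∏ j ∈ Ici i, (2 + (s i + s j)) ^ A) *
      GZ4 A s := by
  unfold IZ4 GZ4
  simp only [← prod_mul_distrib]
  refine prod_congr rfl fun i _ => prod_congr rfl fun j _ => ?_
  have h2 : (2 + (s i + s j)) ≠ 0 := by
    intro h
    have := congrArg Complex.re h
    simp [hs] at this
  rw [add_assoc, hiz, gz, mul_assoc, mul_one_div, mul_comm (lz _), div_mul_eq_div_div,
    div_self (pow_ne_zero _ h2), mul_one_div]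

theorem tc_sq {s : ℂ} (hs : |s.re| ≤ 1 / 40) : 1 / 5 ≤ ‖s ^ 2 - 1 / 4‖ := by
  have e : s ^ 2 - 1 / 4 = (s - 1 / 2) * (s + 1 / 2) := by ring
  have h := abs_le.1 hs
  have h1 : 19 / 40 ≤ ‖s - 1 / 2‖ := by
    refine le_trans ?_ (Complex.abs_re_le_norm _)
    have : (s - 1 / 2).re = s.re - 1 / 2 := by simp
    rw [this, abs_of_nonpos (by linarith)]; linarith
  have h2 : 19 / 40 ≤ ‖s + 1 / 2‖ := by
    refine le_trans ?_ (Complex.abs_re_le_norm _)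
    have : (s + 1 / 2).re = s.re + 1 / 2 := by simp
    rw [this, abs_of_nonneg (by linarith)]; linarith
  rw [e, norm_mul]
  calc (1 / 5 : ℝ) ≤ 19 / 40 * (19 / 40) := by norm_num
    _ ≤ _ := mul_le_mul h1 h2 (by norm_num) (norm_nonneg _)

theorem tc_ne {s : ℂ} (hs : |s.re| ≤ 1 / 40) : s ^ 2 - 1 / 4 ≠ 0 := by
  intro h
  have := tc_sq hs
  rw [h, norm_zero] at this
  norm_num at this

theorem tc_id (hiz : ∀ w : ℂ, iz (1 + w) = w / lz w) (A : ℕ) (κ t v κ' t' v' : ℝ) (k : ℤ) (z : ℂ)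
    (s : V4) (hs : ∀ j, (s j).re = 0) :
    W2 κ t v κ' t' v' (sh z s) * (∏ j, Lo k (1 / 2 + s j)) * IZ4 s =
      cexp ((z - 1 / 2) * (2 * v + 2 * v')) *
        (amp (κ / 2) (κ' / 2) ![t - z.im, t' - z.im, -t - z.im, -t' - z.im] k s *
          Rz A κ t κ' t' z s * GZ4 A s * ev s ![v, v', v, v']) := by
  have hn : ∀ j, s j ^ 2 - 1 / 4 ≠ 0 := fun j => tc_ne (by rw [hs j]; norm_num)
  have h0 := tc_pw κ t v z (s 0) (hn 0)
  have h1 := tc_pw κ' t' v' z (s 1) (hn 1)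
  have h2 := tc_pw κ (-t) v z (s 2) (hn 2)
  have h3 := tc_pw κ' (-t') v' z (s 3) (hn 3)
  have e1 : cexp ((z - 1 / 2) * (2 * v + 2 * v')) = cexp ((z - 1 / 2) * v) *
      cexp ((z - 1 / 2) * v') * cexp ((z - 1 / 2) * v) * cexp ((z - 1 / 2) * v') := by
    simp only [← Complex.exp_add]; congr 1; ring
  have e2 : ev s ![v, v', v, v'] =
      cexp (s 0 * v) * cexp (s 1 * v') * cexp (s 2 * v) * cexp (s 3 * v') := by
    simp only [ev, ← Complex.exp_add, Fin.sum_univ_four]; rfl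
  rw [tc_iz hiz A s hs, tc_prod fun i j => s i + s j, e1, e2]
  unfold W2 amp Rz Rp an sh
  simp only [Matrix.cons_val_zero, Matrix.cons_val_one, Matrix.cons_val]
  generalize (∏ i, ∏ j ∈ Ici i, (2 + (s i + s j)) ^ A) = P at *
  generalize (∏ j, Lo k (1 / 2 + s j)) = Q at *
  calc _ = (pw κ t v (z - 1 / 2 + s 0) * s 0) * (pw κ' t' v' (z - 1 / 2 + s 1) * s 1) *
        (pw κ (-t) v (z - 1 / 2 + s 2) * s 2) * (pw κ' (-t') v' (z - 1 / 2 + s 3) * s 3) *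
        ((s 0 ^ 2 - s 1 ^ 2) * (s 2 ^ 2 - s 3 ^ 2) * Q * (16 * (2 * z - 1 + s 0 + s 1) *
          (2 * z - 1 + s 2 + s 3) * ((s 0 + s 2) * (s 0 + s 3) * (s 1 + s 2) * (s 1 + s 3)) * P) *
          GZ4 A s) := by ring
    _ = _ := by rw [h0, h1, h2, h3]; ring

theorem tc_br1 (t : ℝ) : 1 ≤ br t := by unfold br; linarith [abs_nonneg t]

theorem tc_brm (t u : ℝ) : br (t + u) ≤ br t * br u := by
  unfold br
  have := abs_add_le t u
  nlinarith [abs_nonneg t, abs_nonneg u, mul_nonneg (abs_nonneg t) (abs_nonneg u)]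

theorem tc_norm {s : ℂ} {a : ℝ} (ha : 1 ≤ a) (h : |s.re| ≤ a) : ‖s‖ ≤ a * br s.im := by
  have := Complex.norm_le_abs_re_add_abs_im s
  unfold br
  nlinarith [abs_nonneg s.im]

theorem tc_gauss {κ : ℝ} (hκ : 0 < κ) (n : ℕ) : ∃ C : ℝ, 0 < C ∧ ∀ x : ℝ,
    br x ^ n * Real.exp (-(κ * x ^ 2)) ≤ C := by
  refine ⟨Real.exp ((n : ℝ) ^ 2 / (4 * κ)), Real.exp_pos _, fun x => ?_⟩
  have h1 : br x ^ n ≤ Real.exp (n * |x|) := by
    rw [Real.exp_nat_mul]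
    refine pow_le_pow_left₀ (by linarith [tc_br1 x]) ?_ n
    unfold br
    linarith [Real.add_one_le_exp |x|]
  refine (mul_le_mul_of_nonneg_right h1 (Real.exp_pos _).le).trans ?_
  rw [← Real.exp_add, Real.exp_le_exp, le_div_iff₀ (by positivity), ← sq_abs x]
  nlinarith [sq_nonneg (2 * κ * |x| - n)]

/-- The one-variable factor, with room for a polynomial of degree `n`. -/
theorem tc_rj {κ : ℝ} (hκ : Kp κ) (n : ℕ) : ∃ C : ℝ, 0 < C ∧ ∀ (T : ℝ) (z s : ℂ),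
    3 / 4 ≤ z.re → z.re ≤ 6 → |s.re| ≤ 1 / 40 →
    ‖rj κ T z s‖ * br s.im ^ n ≤
      C * br z.im ^ n * br T ^ (n + 3) * (1 / br (s.im - (T - z.im)) ^ 2) := by
  obtain ⟨C, hC, hg⟩ := tc_gauss (κ := κ / 2) (by linarith [hκ.1]) (n + 5)
  refine ⟨6 * 37 * 5 * Real.exp 36 * C, by positivity, fun T z s h1 h2 hs => ?_⟩
  set x := s.im - (T - z.im) with hx
  set u := z - 1 / 2 + s with hu
  have hsa := abs_le.1 hs
  have ur : u.re = z.re - 1 / 2 + s.re := by simp [hu]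
  have ui : u.im = x + T := by simp [hu, hx]; ring
  have hur : |u.re| ≤ 6 := by rw [ur, abs_le]; constructor <;> linarith
  have b1 := tc_br1 x
  have b2 := tc_br1 T
  have b3 := tc_br1 z.im
  have hb : br u.im ≤ br x * br T := by rw [ui]; exact tc_brm _ _
  have hn : ‖u‖ ≤ 6 * (br x * br T) := (tc_norm (by norm_num) hur).trans (by gcongr)
  have hq : 1 ≤ br x * br T := by nlinarith
  have hn2 : ‖u ^ 2 - 1 / 4‖ ≤ 37 * (br x * br T) ^ 2 := by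
    refine (norm_sub_le _ _).trans ?_
    have : ‖u ^ 2‖ ≤ (6 * (br x * br T)) ^ 2 := by rw [norm_pow]; gcongr
    have h4 : ‖(1 / 4 : ℂ)‖ = 1 / 4 := by simp
    rw [h4]
    nlinarith
  have hs2 : br s.im ≤ br x * br T * br z.im := by
    have : s.im = x + T + -z.im := by rw [hx]; ring
    rw [this]
    refine (tc_brm _ _).trans ?_
    have e : br (-z.im) = br z.im := by simp [br]
    rw [e]
    gcongr
    exact tc_brm _ _
  have he : ‖cexp (κ * (u - T * I) ^ 2 - (κ / 2 : ℝ) * (s - (T - z.im : ℝ) * I) ^ 2)‖ ≤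
      Real.exp 36 * Real.exp (-(κ / 2 * x ^ 2)) := by
    rw [Complex.norm_exp, ← Real.exp_add, Real.exp_le_exp]
    have e : (κ * (u - T * I) ^ 2 - (κ / 2 : ℝ) * (s - (T - z.im : ℝ) * I) ^ 2 : ℂ).re =
        κ * u.re ^ 2 - κ / 2 * s.re ^ 2 - κ / 2 * x ^ 2 := by
      simp only [sq, sub_re, mul_re, mul_im, sub_im, ofReal_re, ofReal_im, I_re, I_im, ui, hx]
      ring
    rw [e]
    have h36 : u.re ^ 2 ≤ 36 := by rw [← sq_abs]; nlinarith [abs_nonneg u.re]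
    have : κ * u.re ^ 2 ≤ 36 := by nlinarith [hκ.1, hκ.2, sq_nonneg u.re]
    have : 0 ≤ κ / 2 * s.re ^ 2 := by have := hκ.1; positivity
    linarith
  have hd := tc_sq hs
  have hr : ‖rj κ T z s‖ ≤ 6 * (br x * br T) * (37 * (br x * br T) ^ 2) / (1 / 5) *
      (Real.exp 36 * Real.exp (-(κ / 2 * x ^ 2))) := by
    unfold rj
    rw [norm_mul, norm_div, norm_mul]
    gcongr
  have hx0 : 0 < br x := by linarith
  calc _ ≤ 6 * (br x * br T) * (37 * (br x * br T) ^ 2) / (1 / 5) *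
        (Real.exp 36 * Real.exp (-(κ / 2 * x ^ 2))) * (br x * br T * br z.im) ^ n := by
        have b0 : 0 ≤ br s.im := by linarith [tc_br1 s.im]
        exact mul_le_mul hr (pow_le_pow_left₀ b0 hs2 n) (pow_nonneg b0 n) (by positivity)
    _ = 6 * 37 * 5 * Real.exp 36 * (br x ^ (n + 5) * Real.exp (-(κ / 2 * x ^ 2))) *
        br z.im ^ n * br T ^ (n + 3) * (1 / br x ^ 2) := by
        field_simp
        ring
    _ ≤ _ := by gcongr; exact hg x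

theorem tc_gn (s : V4) (i : Fin 4) : br (s i).im ≤ gn 1 s := by
  unfold gn
  simp only [pow_one]
  have := prod_le_prod_of_subset_of_one_le (f := fun j => br (s j).im) (subset_univ {i})
    (fun j _ => by linarith [tc_br1 (s j).im]) fun j _ _ => tc_br1 _
  simpa using this

theorem tc_pair (s : V4) (i j : Fin 4) : br (s i + s j).im ≤ gn 1 s ^ 2 := by
  rw [add_im, sq]
  exact (tc_brm _ _).trans (mul_le_mul (tc_gn s i) (tc_gn s j) (by linarith [tc_br1 (s j).im])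
    (by linarith [tc_br1 (s i).im, tc_gn s i]))

theorem tc_Rp (A : ℕ) (z : ℂ) (s : V4) (h1 : 3 / 4 ≤ z.re) (h2 : z.re ≤ 6)
    (hs : ∀ j, |(s j).re| ≤ 1 / 40) :
    ‖Rp A z s‖ ≤ 16 * 144 * 3 ^ (10 * A) * br z.im ^ 4 * gn 1 s ^ (20 * A + 12) := by
  set G := gn 1 s with hG
  have hG1 : 1 ≤ G := (tc_br1 _).trans (tc_gn s 0)
  have hb := tc_br1 z.im
  have hre : ∀ i j, |(s i + s j).re| ≤ 1 / 20 := fun i j => by
    rw [add_re]; linarith [abs_add_le (s i).re (s j).re, hs i, hs j]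
  have a1 : ∀ i j, ‖s i + s j‖ ≤ G ^ 2 := fun i j => by
    have := tc_norm (s := s i + s j) le_rfl ((hre i j).trans (by norm_num))
    linarith [tc_pair s i j]
  have a2 : ∀ i j, ‖(2 + (s i + s j)) ^ A‖ ≤ (3 * G ^ 2) ^ A := fun i j => by
    rw [norm_pow]
    refine pow_le_pow_left₀ (norm_nonneg _) ((norm_add_le _ _).trans ?_) A
    have : ‖(2 : ℂ)‖ = 2 := by simp
    nlinarith [a1 i j]
  have a3 : ∀ i j, ‖2 * z - 1 + s i + s j‖ ≤ 12 * (br z.im * G ^ 2) := fun i j => by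
    have h : ‖2 * z - 1‖ ≤ 11 * br z.im := by
      have e : 2 * z - 1 = 2 * (z - 1 / 2) := by ring
      have := tc_norm (s := z - 1 / 2) (a := 11 / 2) (by norm_num) (by
        have : (z - 1 / 2).re = z.re - 1 / 2 := by simp
        rw [this, abs_le]; constructor <;> linarith)
      have e2 : (z - 1 / 2).im = z.im := by simp
      rw [e2] at this
      rw [e, norm_mul]
      simp only [Complex.norm_ofNat]
      linarith
    rw [add_assoc]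
    refine (norm_add_le _ _).trans ?_
    have h2 : 1 ≤ G ^ 2 := one_le_pow₀ hG1
    nlinarith [a1 i j]
  have a4 : ‖∏ i, ∏ j ∈ Ici i, (2 + (s i + s j)) ^ A‖ ≤ ((3 * G ^ 2) ^ A) ^ 10 := by
    rw [tc_prod fun i j => (2 + (s i + s j)) ^ A]
    simp only [norm_mul]
    calc _ ≤ (3 * G ^ 2) ^ A * (3 * G ^ 2) ^ A * (3 * G ^ 2) ^ A * (3 * G ^ 2) ^ A *
          ((3 * G ^ 2) ^ A * (3 * G ^ 2) ^ A * (3 * G ^ 2) ^ A) *
          ((3 * G ^ 2) ^ A * (3 * G ^ 2) ^ A) * (3 * G ^ 2) ^ A := by gcongr <;> apply a2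
      _ = _ := by ring
  unfold Rp
  simp only [norm_mul, Complex.norm_ofNat]
  calc _ ≤ 16 * (12 * (br z.im * G ^ 2)) * (12 * (br z.im * G ^ 2)) *
        (G ^ 2 * G ^ 2 * G ^ 2 * G ^ 2) * ((3 * G ^ 2) ^ A) ^ 10 := by
        gcongr <;> first | apply a1 | apply a3
    _ = 16 * 144 * 3 ^ (10 * A) * br z.im ^ 2 * G ^ (20 * A + 12) := by
        rw [mul_pow 3, mul_pow (3 ^ A), ← pow_mul, ← pow_mul, ← pow_mul]; ring
    _ ≤ _ := by gcongr; norm_num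

theorem tc_Rz (A : ℕ) {κ κ' : ℝ} (hκ : Kp κ) (hκ' : Kp κ') : ∃ (c : ℕ) (C : ℝ), 0 < C ∧
    ∀ (t t' : ℝ) (z : ℂ) (s : V4), 3 / 4 ≤ z.re → z.re ≤ 6 → (∀ j, |(s j).re| ≤ 1 / 40) →
      ‖Rz A κ t κ' t' z s‖ ≤ C * br z.im ^ c * br t ^ c * br t' ^ c *
        ∏ j, 1 / br ((s j).im - ![t - z.im, t' - z.im, -t - z.im, -t' - z.im] j) ^ 2 := by
  set n := 20 * A + 12 with hn
  obtain ⟨C, hC, h⟩ := tc_rj hκ n
  obtain ⟨C', hC', h'⟩ := tc_rj hκ' n
  refine ⟨4 * n + 6, 16 * 144 * 3 ^ (10 * A) * (C * C' * C * C'), by positivity,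
    fun t t' z s h1 h2 hs => ?_⟩
  have g0 := h t z (s 0) h1 h2 (hs 0)
  have g1 := h' t' z (s 1) h1 h2 (hs 1)
  have g2 := h (-t) z (s 2) h1 h2 (hs 2)
  have g3 := h' (-t') z (s 3) h1 h2 (hs 3)
  have e : ∀ x : ℝ, br (-x) = br x := fun x => by simp [br]
  rw [e] at g2 g3
  have hp := tc_Rp A z s h1 h2 hs
  have hb := tc_br1 z.im
  have ht := tc_br1 t
  have ht' := tc_br1 t'
  have p0 : ∀ x : ℝ, 0 ≤ br x := fun x => by linarith [tc_br1 x]
  simp only [Fin.prod_univ_four, Matrix.cons_val_zero, Matrix.cons_val_one, Matrix.cons_val]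
  unfold Rz
  simp only [norm_mul]
  set d0 := 1 / br ((s 0).im - (t - z.im)) ^ 2
  set d1 := 1 / br ((s 1).im - (t' - z.im)) ^ 2
  set d2 := 1 / br ((s 2).im - (-t - z.im)) ^ 2
  set d3 := 1 / br ((s 3).im - (-t' - z.im)) ^ 2
  have q : ∀ x : ℝ, 0 ≤ 1 / br x ^ 2 := fun x => by have := p0 x; positivity
  have q0 : 0 ≤ d0 := q _
  have q1 : 0 ≤ d1 := q _
  have q2 : 0 ≤ d2 := q _
  have q3 : 0 ≤ d3 := q _
  have r : ∀ (w : ℂ) (x : ℝ), 0 ≤ ‖w‖ * br x ^ n := fun w x => by have := p0 x; positivity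
  calc _ ≤ 16 * 144 * 3 ^ (10 * A) * br z.im ^ 4 * gn 1 s ^ n *
        (‖rj κ t z (s 0)‖ * ‖rj κ' t' z (s 1)‖ * ‖rj κ (-t) z (s 2)‖ * ‖rj κ' (-t') z (s 3)‖) := by
        gcongr
    _ = 16 * 144 * 3 ^ (10 * A) * br z.im ^ 4 * (‖rj κ t z (s 0)‖ * br (s 0).im ^ n *
        (‖rj κ' t' z (s 1)‖ * br (s 1).im ^ n) * (‖rj κ (-t) z (s 2)‖ * br (s 2).im ^ n) *
        (‖rj κ' (-t') z (s 3)‖ * br (s 3).im ^ n)) := by
        simp only [gn, Fin.prod_univ_four, pow_one, mul_pow]; ring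
    _ ≤ 16 * 144 * 3 ^ (10 * A) * br z.im ^ 4 * (C * br z.im ^ n * br t ^ (n + 3) * d0 *
        (C' * br z.im ^ n * br t' ^ (n + 3) * d1) * (C * br z.im ^ n * br t ^ (n + 3) * d2) *
        (C' * br z.im ^ n * br t' ^ (n + 3) * d3)) := by
        gcongr
        · exact r _ _
        · exact r _ _
        · exact r _ _
    _ = 16 * 144 * 3 ^ (10 * A) * (C * C' * C * C') * br z.im ^ (4 * n + 4) * br t ^ (2 * n + 6) *
        br t' ^ (2 * n + 6) * (d0 * d1 * d2 * d3) := by ring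
    _ ≤ _ := by gcongr <;> omega

theorem tc_hol (A : ℕ) (κ t κ' t' : ℝ) (z : ℂ) (s : V4) (hs : ∀ j, |(s j).re| ≤ 1 / 40) :
    DifferentiableAt ℂ (Rz A κ t κ' t' z) s := by
  have h : ∀ (κ T : ℝ) (j : Fin 4), DifferentiableAt ℂ (fun s : V4 => rj κ T z (s j)) s :=
    fun κ T j => by
      have := tc_ne (hs j)
      unfold rj
      fun_prop (disch := assumption)
  have hp : DifferentiableAt ℂ (Rp A z) s := by
    unfold Rp
    fun_prop
  unfold Rz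
  exact hp.mul ((((h _ _ 0).mul (h _ _ 1)).mul (h _ _ 2)).mul (h _ _ 3))

end Pool.Agent.Q4
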