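import Pool.Agent.P.MP_ea46f5_nt.Q4.RepB
import Pool.Agent.P.MP_ea46f5_nt.Q4.TCa

/-! Reflection of one variable of a pair form. -/

namespace Pool.Agent.Q4

open Complex MeasureTheory Finset
open scoped Real
open Pool.Agent.QM

theorem rf_gam (k : ℤ) : ‖(gam k : ℂ)‖ ≤ 1 := by
  unfold gam
  split_ifs <;> simp

theorem rf_par (k : ℤ) : par k ≤ 1 := by
  unfold par
  split_ifs <;> simp

theorem rf_qk (k : ℤ) : |(k : ℝ)| ≤ qk k ∧ qk k ≤ 4 * |(k : ℝ)| := by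
  have := abs_nonneg (k : ℝ)
  unfold qk disc
  split_ifs
  · exact ⟨le_rfl, by linarith⟩
  · push_cast
    rw [abs_mul, abs_of_pos (by norm_num : (0 : ℝ) < 4)]
    exact ⟨by linarith, le_rfl⟩

theorem rf_sq {Z : ℝ} {k : ℤ} (hk : k ∈ Sq Z) :
    Squarefree k ∧ k ≠ 1 ∧ Z / 2 < |(k : ℝ)| ∧ |(k : ℝ)| ≤ Z := by
  classical
  unfold Sq at hk
  exact (mem_filter.1 hk).2

theorem rf_two (s : ℂ) : ‖(2 : ℂ) ^ s‖ = (2 : ℝ) ^ s.re := by
  simpa using norm_cpow_eq_rpow_re_of_pos (x := 2) (by norm_num) s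

/-- The Euler factor at 2 is bounded below. -/
theorem rf_den {γ : ℂ} (hγ : ‖γ‖ ≤ 1) {s : ℂ} (hs : 1 / 4 ≤ s.re) :
    1 / 7 ≤ ‖1 - γ * (2 : ℂ) ^ (-s)‖ := by
  have h1 : (2 : ℝ) ^ (-s).re ≤ 6 / 7 := by
    refine (Real.rpow_le_rpow_of_exponent_le (by norm_num) (show (-s).re ≤ -(1 / 4) by
      simpa using hs)).trans ?_
    refine (pow_le_pow_iff_left₀ (by positivity) (by norm_num) (by norm_num : 4 ≠ 0)).1 ?_
    rw [← Real.rpow_natCast, ← Real.rpow_mul (by norm_num)]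
    norm_num
  have h2 : ‖γ * (2 : ℂ) ^ (-s)‖ ≤ 6 / 7 := by
    rw [norm_mul, rf_two]
    exact (mul_le_of_le_one_left (by positivity) hγ).trans h1
  have := norm_sub_norm_le (1 : ℂ) (γ * (2 : ℂ) ^ (-s))
  rw [norm_one] at this
  linarith

theorem rf_den_ne {γ : ℂ} (hγ : ‖γ‖ ≤ 1) {s : ℂ} (hs : 1 / 4 ≤ s.re) :
    1 - γ * (2 : ℂ) ^ (-s) ≠ 0 := fun h => by
  have := rf_den hγ hs
  rw [h, norm_zero] at this
  linarith

theorem rf_num {γ : ℂ} (hγ : ‖γ‖ ≤ 1) {s : ℂ} (hs : -3 ≤ s.re) : ‖1 - γ * (2 : ℂ) ^ (-s)‖ ≤ 9 := by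
  have h1 : (2 : ℝ) ^ (-s).re ≤ 8 := by
    refine (Real.rpow_le_rpow_of_exponent_le (by norm_num) (show (-s).re ≤ 3 by
      simp; linarith)).trans ?_
    norm_num
  refine (norm_sub_le _ _).trans ?_
  rw [norm_one, norm_mul, rf_two]
  linarith [mul_le_of_le_one_left (by positivity : 0 ≤ (2 : ℝ) ^ (-s).re) hγ]

/-- The functional equation solved for the reflected value. -/
theorem rf_fe (hFE : FE1) {k : ℤ} (hk : Squarefree k) (hk1 : k ≠ 1) {u : ℂ} (hu : u.re = 0) :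
    Lo k (1 / 2 + -u) = cexp (Real.log (qk k) * u) * xi (par k) u *
      ((1 - gam k * (2 : ℂ) ^ (-(1 / 2 - u))) / (1 - gam k * (2 : ℂ) ^ (-(1 / 2 + u)))) *
      Lo k (1 / 2 + u) := by
  have h := hFE k hk hk1 (1 / 2 + u) (by simp [hu]) (by simp [hu]; norm_num)
  have hq : 0 < qk k := lt_of_lt_of_le (abs_pos.2 (by exact_mod_cast hk.ne_zero)) (rf_qk k).1
  have e : ∀ s : ℂ, (qk k : ℂ) ^ s = cexp (Real.log (qk k) * s) := fun s => by
    rw [cpow_def_of_ne_zero (by exact_mod_cast hq.ne'), ofReal_log hq.le]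
  have e1 : (1 : ℂ) - (1 / 2 + u) = 1 / 2 - u := by ring
  have e2 : cexp (Real.log (qk k) * ((1 / 2 + u) / 2)) =
      cexp (Real.log (qk k) * u) * cexp (Real.log (qk k) * ((1 / 2 - u) / 2)) := by
    rw [← Complex.exp_add]; congr 1; ring
  have n1 := rf_den_ne (rf_gam k) (s := 1 / 2 - u) (by simp [hu]; norm_num)
  have n2 := rf_den_ne (rf_gam k) (s := 1 / 2 + u) (by simp [hu]; norm_num)
  have n3 : Gammaℝ (1 / 2 + par k - u) ≠ 0 :=
    Gammaℝ_ne_zero_of_re_pos (by simp [hu]; positivity)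
  have n4 := Complex.exp_ne_zero (Real.log (qk k) * ((1 / 2 - u) / 2))
  rw [Lam, Lam, Lf, Lf, e1, e, e, e2, add_right_comm (1 / 2 : ℂ) u, sub_add_eq_add_sub] at h
  rw [← sub_eq_add_neg, xi]
  generalize 1 - gam k * (2 : ℂ) ^ (-(1 / 2 - u)) = d1 at h n1 ⊢
  generalize 1 - gam k * (2 : ℂ) ^ (-(1 / 2 + u)) = d2 at h n2 ⊢
  generalize Gammaℝ (1 / 2 + par k - u) = g1 at h n3 ⊢
  generalize cexp (Real.log (qk k) * ((1 / 2 - u) / 2)) = q at h n4
  generalize Gammaℝ (1 / 2 + par k + u) = g2 at h ⊢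
  generalize Lo k (1 / 2 - u) = a at h ⊢
  generalize Lo k (1 / 2 + u) = b at h ⊢
  generalize cexp (Real.log (qk k) * u) = r at h ⊢
  field_simp at h ⊢
  linear_combination h

theorem rf_pw_norm (κ t v y : ℝ) : ‖pw κ t v (y * I)‖ ≤ br y ^ 3 * Real.exp (-(κ * (y - t) ^ 2)) := by
  have h1 : ‖(y * I : ℂ)‖ ≤ br y := by simp [br]
  have h2 : ‖((y * I : ℂ)) ^ 2 - 1 / 4‖ ≤ br y ^ 2 := by
    refine (norm_sub_le _ _).trans ?_
    have : ‖(1 / 4 : ℂ)‖ = 1 / 4 := by simp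
    rw [this, norm_pow]
    simp only [norm_mul, norm_real, Real.norm_eq_abs, norm_I, mul_one, br]
    nlinarith [abs_nonneg y]
  have h3 : (κ * (y * I - t * I) ^ 2 + v * (y * I) : ℂ).re = -(κ * (y - t) ^ 2) := by
    simp only [sq, add_re, sub_re, mul_re, mul_im, sub_im, ofReal_re, ofReal_im, I_re, I_im]
    ring
  rw [pw, norm_mul, norm_mul, Complex.norm_exp, h3, pow_succ' (br y) 2]
  have := sh_br_pos y
  gcongr

/-- Integrability of the packets on the critical line. -/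
theorem rf_lc (hLOP : LOP) (hLOB : LOB) {κ : ℝ} (hκ : 0 < κ) (t v : ℝ) {k : ℤ} (hk : Squarefree k)
    (hk1 : k ≠ 1) (n : ℕ) : Lc 0 fun u => u ^ n * (pw κ t v u * Lo k (1 / 2 + u)) := by
  obtain ⟨C, hC, hg⟩ := tc_gauss hκ (n + 6)
  have hc := (hLOP.2.1 k hk hk1).continuous
  simp only [Lc, ofReal_zero, zero_add]
  refine ((pDEC.2.2.2.1.1.comp_sub_right t).const_mul (8 * |(k : ℝ)| * br t ^ (n + 4) * C)).mono'
    (Continuous.aestronglyMeasurable (by unfold pw; fun_prop)) (.of_forall fun y => ?_)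
  have h1 : ‖(y * I : ℂ)‖ ≤ br y := by simp [br]
  have h2 : ‖Lo k (1 / 2 + y * I)‖ ≤ 8 * |(k : ℝ)| * br y := by
    refine (hLOB k _ hk hk1 (by simp)).trans ?_
    have := tc_norm (s := 1 / 2 + y * I) le_rfl (by simp; norm_num)
    simp only [add_re, add_im, mul_re, mul_im, ofReal_re, ofReal_im, I_re, I_im, div_ofNat_re,
      div_ofNat_im, one_re, one_im, mul_zero, mul_one, sub_self, add_zero, zero_div, zero_add,
      one_mul] at this ⊢
    nlinarith [abs_nonneg (k : ℝ)]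
  have h3 : br y ≤ br (y - t) * br t := by simpa using tc_brm (y - t) t
  have b1 := sh_br_pos y
  have b2 := sh_br_pos (y - t)
  have b3 := sh_br_pos t
  rw [norm_mul, norm_mul, norm_pow]
  calc _ ≤ br y ^ n * (br y ^ 3 * Real.exp (-(κ * (y - t) ^ 2)) * (8 * |(k : ℝ)| * br y)) := by
        gcongr
        exact rf_pw_norm _ _ _ _
    _ = 8 * |(k : ℝ)| * br y ^ (n + 4) * Real.exp (-(κ * (y - t) ^ 2)) := by ring
    _ ≤ 8 * |(k : ℝ)| * (br (y - t) * br t) ^ (n + 4) * Real.exp (-(κ * (y - t) ^ 2)) := by gcongr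
    _ = 8 * |(k : ℝ)| * br t ^ (n + 4) * (br (y - t) ^ (n + 6) * Real.exp (-(κ * (y - t) ^ 2))) *
          (1 / br (y - t) ^ 2) := by field_simp; ring
    _ ≤ _ := by gcongr; exact hg _

theorem rf_pr {c : ℝ} {f : ℂ → ℂ} (g : ℂ → ℂ) (h0 : Lc c f) (h2 : Lc c fun u => u ^ 2 * f u) :
    Lc c (fun u => f u * (u ^ 2 * Iv c g - Iv c fun u => u ^ 2 * g u)) ∧
      pr c f g = Iv c fun u => f u * (u ^ 2 * Iv c g - Iv c fun u => u ^ 2 * g u) := by
  have e : (fun u => f u * (u ^ 2 * Iv c g - Iv c fun u => u ^ 2 * g u)) =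
      fun u => u ^ 2 * f u * Iv c g - f u * Iv c fun u => u ^ 2 * g u := by
    funext u; ring
  rw [e]
  refine ⟨(Integrable.mul_const h2 _).sub (Integrable.mul_const h0 _), ?_⟩
  rw [pr]
  generalize Iv c g = B
  generalize (Iv c fun u => u ^ 2 * g u) = A
  unfold Iv
  rw [integral_sub (Integrable.mul_const h2 _) (Integrable.mul_const h0 _), integral_mul_const,
    integral_mul_const]

theorem rf_neg (f : ℂ → ℂ) : Iv 0 f = Iv 0 fun u => f (-u) := by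
  unfold Iv
  rw [← integral_neg_eq_self]
  simp

/-- The factor produced by the reflection. -/
noncomputable def rfR (κ t l : ℝ) (a : ℕ) (γ : ℂ) (u : ℂ) : ℂ :=
  -(cexp ((κ / 2 : ℝ) * (u + t * I) ^ 2 + l * u) * xi a u *
    ((1 - γ * (2 : ℂ) ^ (-(1 / 2 - u))) / (1 - γ * (2 : ℂ) ^ (-(1 / 2 + u)))))

theorem rf1_core (hFE : FE1) (hLOP : LOP) (hLOB : LOB) {c : ℕ} {C : ℝ} (hC : 0 < C)
    (hx : ∀ a : ℕ, a ≤ 1 → ∀ u ∈ Strip (-(1 / 4)) 3,
      DifferentiableAt ℂ (xi a) u ∧ ‖xi a u‖ ≤ C * br u.im ^ c)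
    {κ : ℝ} (hκ : Kp κ) : ∃ C' : ℝ, 0 < C' ∧ ∀ (t v κ' t' v' Z : ℝ) (k : ℤ), 1 ≤ Z → k ∈ Sq Z →
      Integrable (fun w => Ew w * ‖Pk (κ / 2) (-t) (Real.log Z - v + w) κ' t' v' k‖) ∧
      ‖Pk κ t v κ' t' v' k‖ ≤ C' * br t ^ c *
        ∫ w, Ew w * ‖Pk (κ / 2) (-t) (Real.log Z - v + w) κ' t' v' k‖ := by
  have hκ2 : 0 < κ / 2 := by linarith [hκ.1]
  obtain ⟨G, hG, hg⟩ := tc_gauss hκ2 (c + 2)
  refine ⟨Real.exp 14 * C * 63 * G, by positivity, fun t v κ' t' v' Z k hZ hk => ?_⟩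
  obtain ⟨hk0, hk1, hk2, hk3⟩ := rf_sq hk
  have hq := rf_qk k
  have hq0 : 0 < qk k := by linarith [hq.1]
  set l := Real.log (qk k) - Real.log Z with hl
  have hl3 : |l| ≤ 3 := by
    rw [hl, ← Real.log_div hq0.ne' (by linarith), abs_le]
    have h1 : qk k / Z ≤ 4 := by rw [div_le_iff₀ (by linarith)]; linarith [hq.2]
    have h2 : 1 / 2 ≤ qk k / Z := by rw [le_div_iff₀ (by linarith)]; linarith [hq.1]
    have h3 := Real.one_sub_inv_le_log_of_pos (show 0 < qk k / Z by linarith)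
    have h4 : (qk k / Z)⁻¹ ≤ 2 := by rw [inv_le_comm₀ (by linarith) (by norm_num)]; linarith
    exact ⟨by linarith, by linarith [Real.log_le_sub_one_of_pos (show 0 < qk k / Z by linarith)]⟩
  have hd : ∀ u ∈ Strip (-(1 / 4)) 3, 1 / 4 ≤ (1 / 2 + u : ℂ).re := fun u hu => by
    have := hu.1
    simp only [add_re, div_ofNat_re, one_re]
    linarith
  have hD : ∀ u ∈ Strip (-(1 / 4)) 3, DifferentiableAt ℂ (rfR κ t l (par k) (gam k)) u := by
    intro u hu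
    have h1 := (hx _ (rf_par k) u hu).1
    have h2 := rf_den_ne (rf_gam k) (hd u hu)
    unfold rfR
    fun_prop (disch := first | assumption | simp)
  have hN : Nice (-(1 / 4)) 3 (rfR κ t l (par k) (gam k)) :=
    ⟨fun u hu => (hD u hu).continuousAt.continuousWithinAt,
      fun u hu => (hD u ⟨hu.1.le, hu.2.le⟩).differentiableWithinAt⟩
  have hB : ∀ u ∈ Strip (-(1 / 4)) 3, ‖rfR κ t l (par k) (gam k) u‖ ≤
      Real.exp 14 * C * 63 * G * br t ^ c / br (u.im - -t) ^ 2 := by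
    intro u hu
    set x := u.im - -t with hxx
    have h1 : ‖cexp ((κ / 2 : ℝ) * (u + t * I) ^ 2 + l * u)‖ ≤
        Real.exp 14 * Real.exp (-(κ / 2 * x ^ 2)) := by
      have e : ((κ / 2 : ℝ) * (u + t * I) ^ 2 + l * u : ℂ).re =
          κ / 2 * u.re ^ 2 + l * u.re - κ / 2 * x ^ 2 := by
        simp only [sq, add_re, mul_re, mul_im, add_im, ofReal_re, ofReal_im, I_re, I_im, hxx]
        ring
      have a1 : |u.re| ≤ 3 := abs_le.2 ⟨by linarith [hu.1], hu.2⟩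
      have a2 : u.re ^ 2 ≤ 9 := by rw [← sq_abs]; nlinarith [abs_nonneg u.re]
      have a3 : l * u.re ≤ 9 := by
        refine (le_abs_self _).trans ?_
        rw [abs_mul]
        nlinarith [abs_nonneg u.re, abs_nonneg l]
      rw [Complex.norm_exp, e, ← Real.exp_add, Real.exp_le_exp]
      nlinarith [hκ.1, hκ.2, sq_nonneg u.re]
    have h2 := (hx _ (rf_par k) u hu).2
    have h3 := rf_num (rf_gam k) (s := 1 / 2 - u) (by
      have := hu.2
      simp only [sub_re, div_ofNat_re, one_re]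
      linarith)
    have h4 := rf_den (rf_gam k) (hd u hu)
    have h5 : br u.im ≤ br x * br t := by simpa [hxx, br] using tc_brm x (-t)
    have b1 := sh_br_pos u.im
    have b2 := sh_br_pos x
    have b3 := sh_br_pos t
    rw [rfR, norm_neg, norm_mul, norm_mul, norm_div]
    calc _ ≤ Real.exp 14 * Real.exp (-(κ / 2 * x ^ 2)) * (C * (br x * br t) ^ c) * (9 / (1 / 7)) := by
          gcongr
          exact h2.trans (by gcongr)
      _ = Real.exp 14 * C * 63 * (br x ^ (c + 2) * Real.exp (-(κ / 2 * x ^ 2))) * br t ^ c /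
            br x ^ 2 := by field_simp; ring
      _ ≤ _ := by gcongr; exact hg x
  have lc0 : ∀ {κ : ℝ}, 0 < κ → ∀ t v : ℝ, Lc 0 fun u => pw κ t v u * Lo k (1 / 2 + u) :=
    fun h t v => by simpa using rf_lc hLOP hLOB h t v hk0 hk1 0
  have hp := fun {κ : ℝ} (h : 0 < κ) (t v : ℝ) =>
    rf_pr (fun u => pw κ' t' v' u * Lo k (1 / 2 + u)) (lc0 h t v) (rf_lc hLOP hLOB h t v hk0 hk1 2)
  have key := rep1_core (δ := 1 / 4) (by norm_num) le_rfl (by norm_num) hN hB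
    (hp hκ2 (-t) (Real.log Z - v)).1
  unfold Pk
  simp only [(hp hκ2 _ _).2, (hp hκ.1 _ _).2]
  generalize (Iv 0 fun u => pw κ' t' v' u * Lo k (1 / 2 + u)) = B at key ⊢
  generalize (Iv 0 fun u => u ^ 2 * (pw κ' t' v' u * Lo k (1 / 2 + u))) = A at key ⊢
  have e1 : ∀ w : ℝ, (fun u => pw (κ / 2) (-t) (Real.log Z - v + w) u * Lo k (1 / 2 + u) *
      (u ^ 2 * B - A)) = fun u => pw (κ / 2) (-t) (Real.log Z - v) u * Lo k (1 / 2 + u) *
      (u ^ 2 * B - A) * cexp (w * u) := fun w => by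
    funext u
    simp only [pw, ofReal_add, add_mul, ← add_assoc, Complex.exp_add]
    ring
  simp only [e1, ← rE_eq_Ew]
  refine ⟨key.2.1, le_trans (le_of_eq ?_) key.2.2⟩
  rw [rf_neg]
  congr 1
  refine integral_congr_ae (.of_forall fun y => ?_)
  have hu : (((0 : ℝ) : ℂ) + y * I).re = 0 := by simp
  beta_reduce
  generalize ((0 : ℝ) : ℂ) + y * I = u at hu ⊢
  have e2 : cexp (κ * (-u - t * I) ^ 2 + v * -u) * cexp (Real.log (qk k) * u) =
      cexp ((κ / 2 : ℝ) * (u + t * I) ^ 2 + l * u) *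
        cexp ((κ / 2 : ℝ) * (u - (-t : ℝ) * I) ^ 2 + (Real.log Z - v : ℝ) * u) := by
    rw [← Complex.exp_add, ← Complex.exp_add, hl]
    congr 1
    push_cast
    ring
  simp only [rf_fe hFE hk0 hk1 hu, pw, rfR]
  linear_combination (-u * (u ^ 2 - 1 / 4) * xi (par k) u * Lo k (1 / 2 + u) * (u ^ 2 * B - A) *
    ((1 - gam k * (2 : ℂ) ^ (-(1 / 2 - u))) / (1 - gam k * (2 : ℂ) ^ (-(1 / 2 + u))))) * e2

end Pool.Agent.Q4
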