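import Pool.Agent.P.MP_ea46f5_nt.Q4.S4
import Pool.Agent.P.MP_ea46f5_nt.Q4.RFc

namespace Pool.Agent.Q4

open Complex MeasureTheory Finset Pool.Agent.QM
open scoped Real

theorem pRF1 (hFE : FE1) (hLOP : LOP) (hLOB : LOB) (hX : XIB) : RF1 := by
  intro κ hκ
  obtain ⟨C, c, hC, h⟩ := hX
  obtain ⟨C', hC', h'⟩ := rf1_core hFE hLOP hLOB hC (c := c) (fun a ha u hu =>
    ⟨(h a ha u).1 (by linarith [hu.1]), (h a ha u).2 hu.1 hu.2⟩) hκ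
  exact ⟨C', c, hC', fun t v κ' t' v' Z k _ hZ hk => (h' t v κ' t' v' Z k hZ hk).2⟩

end Pool.Agent.Q4
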