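import Pool.Agent.P.MP_ea46f5_nt.Q4.S4
import Pool.Agent.P.MP_ea46f5_nt.Q4.FSDn

namespace Pool.Agent.Q4

open Complex MeasureTheory Finset Pool.Agent.QM
open scoped Real

theorem pHSEP : HSEP := by
  intro n U G h
  refine ⟨fun x hx => (h x hx).continuousAt.continuousWithinAt, fun s hs i => ?_⟩
  have h1 : DifferentiableAt ℂ (fun w : ℂ => Function.update s i w) (s i) := by
    rw [differentiableAt_pi]
    intro j
    by_cases hj : j = i
    · subst hj; simp
    · simp [Function.update_of_ne hj]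
  have h2 : DifferentiableAt ℂ G (Function.update s i (s i)) := by
    rw [Function.update_eq_self]; exact h s hs
  exact h2.comp (s i) h1

theorem s4_one_le_prod {ι : Type} (s : Finset ι) (f : ι → ℝ) (h : ∀ i ∈ s, 1 ≤ f i) :
    1 ≤ ∏ i ∈ s, f i := by
  have := prod_le_prod (s := s) (f := fun _ => (1 : ℝ)) (g := f) (fun _ _ => zero_le_one) h
  simpa using this

theorem s4_br1 (t : ℝ) : 1 ≤ br t := by unfold br; linarith [abs_nonneg t]

theorem s4_br0 (t : ℝ) : 0 < br t := lt_of_lt_of_le one_pos (s4_br1 t)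

theorem s4_br_add (t u : ℝ) : br (t + u) ≤ br t * br u := by
  unfold br
  have := abs_add_le t u
  nlinarith [abs_nonneg t, abs_nonneg u, mul_nonneg (abs_nonneg t) (abs_nonneg u)]

theorem s4_br_neg (t : ℝ) : br (-t) = br t := by simp [br]

theorem s4_gauss {κ : ℝ} (hκ : 0 < κ) (n : ℕ) : ∃ C : ℝ, 0 < C ∧ ∀ x : ℝ,
    br x ^ n * Real.exp (-κ * x ^ 2) ≤ C * Real.exp (-|x|) := by
  refine ⟨Real.exp (((n : ℝ) + 1) ^ 2 / (4 * κ)), Real.exp_pos _, fun x => ?_⟩
  have h1 : br x ≤ Real.exp |x| := by unfold br; linarith [Real.add_one_le_exp |x|]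
  have h2 : br x ^ n ≤ Real.exp (n * |x|) := by
    rw [Real.exp_nat_mul]; exact pow_le_pow_left₀ (s4_br0 x).le h1 n
  calc br x ^ n * Real.exp (-κ * x ^ 2) ≤ Real.exp (n * |x|) * Real.exp (-κ * x ^ 2) := by gcongr
    _ = Real.exp (n * |x| + -κ * x ^ 2) := by rw [← Real.exp_add]
    _ ≤ Real.exp (((n : ℝ) + 1) ^ 2 / (4 * κ) + -|x|) := by
        apply Real.exp_le_exp.2
        have h3 : ((n : ℝ) + 1) * |x| - κ * x ^ 2 ≤ ((n : ℝ) + 1) ^ 2 / (4 * κ) := by
          rw [le_div_iff₀ (by positivity), ← sq_abs x]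
          nlinarith [sq_nonneg ((n : ℝ) + 1 - 2 * κ * |x|)]
        linarith
    _ = _ := by rw [Real.exp_add]

theorem s4_gauss' {κ : ℝ} (hκ : 0 < κ) (n : ℕ) : ∃ C : ℝ, 0 < C ∧ ∀ x : ℝ,
    br x ^ n * Real.exp (-κ * x ^ 2) ≤ C := by
  obtain ⟨C, hC, h⟩ := s4_gauss hκ n
  refine ⟨C, hC, fun x => (h x).trans ?_⟩
  have : Real.exp (-|x|) ≤ 1 := Real.exp_le_one_iff.2 (by linarith [abs_nonneg x])
  nlinarith

theorem pSH4 (hS : SDn) (hI : INB) : SH4 := by
  refine ⟨?_, ?_, ?_⟩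
  · intro a b M c c' G hc hc' hG hb
    have hmem : ∀ t, pt c t ∈ Bx a b := fun t => pt_box (a := cs a) (b := cs b) hc t
    have hcont : Continuous fun t => G (pt c t) :=
      (pHSEP 4 _ G hG).1.comp_continuous (pt_cont c) hmem
    have h2 := hI 4 c M G hcont fun t => hb _ (hmem t)
    refine ⟨hS 4 (cs a) (cs b) c c' M G hc hc' (pHSEP 4 _ G hG) hb, h2.1, h2.2.trans_eq ?_⟩
    ring
  · intro n m u
    refine ⟨?_, ?_, ?_, ?_, rfl⟩
    · unfold gn dn
      rw [← prod_mul_distrib]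
      refine prod_congr rfl fun i _ => ?_
      have := (s4_br0 (u i).im).ne'
      rw [pow_add]; field_simp
    · unfold dn
      refine prod_le_prod (fun i _ => by have := s4_br0 (u i).im; positivity) fun i _ => ?_
      have h0 := s4_br0 (u i).im
      exact one_div_le_one_div_of_le (by positivity)
        (pow_le_pow_right₀ (s4_br1 _) (Nat.le_add_right n m))
    · unfold dn
      exact prod_pos fun i _ => by have := s4_br0 (u i).im; positivity
    · unfold gn
      exact s4_one_le_prod _ _ fun i _ => one_le_pow₀ (s4_br1 _)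
  · intro κ n m hκ
    obtain ⟨C, hC, h⟩ := s4_gauss hκ (n + m)
    refine ⟨C, hC, fun τ t => ?_⟩
    have e1 : Real.exp (-|τ - t|) ≤ 1 := Real.exp_le_one_iff.2 (by linarith [abs_nonneg (τ - t)])
    have e0 := Real.exp_pos (-κ * (τ - t) ^ 2)
    have b1 : br τ ≤ br t * br (τ - t) := by
      have := s4_br_add t (τ - t); rwa [add_sub_cancel] at this
    have p0 := s4_br0 τ
    have p1 := s4_br0 t
    have p2 := s4_br0 (τ - t)
    have b2 : ∀ j : ℕ, br τ ^ j ≤ br t ^ j * br (τ - t) ^ j := fun j => by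
      rw [← mul_pow]; exact pow_le_pow_left₀ p0.le b1 j
    have h4 := h (τ - t)
    have h5 : br (τ - t) ^ (n + m) * Real.exp (-κ * (τ - t) ^ 2) ≤ C := h4.trans (by nlinarith)
    have b3 : br (τ - t) ^ n ≤ br (τ - t) ^ (n + m) :=
      pow_le_pow_right₀ (s4_br1 _) (Nat.le_add_right n m)
    refine ⟨?_, ?_, ?_⟩
    · calc br τ ^ n * Real.exp (-κ * (τ - t) ^ 2)
          ≤ br t ^ n * br (τ - t) ^ (n + m) * Real.exp (-κ * (τ - t) ^ 2) := by
            gcongr; exact (b2 n).trans (by gcongr)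
        _ = br t ^ n * (br (τ - t) ^ (n + m) * Real.exp (-κ * (τ - t) ^ 2)) := by ring
        _ ≤ br t ^ n * (C * Real.exp (-|τ - t|)) := by gcongr
        _ = _ := by ring
    · rw [le_div_iff₀ (by positivity)]
      calc br τ ^ n * Real.exp (-κ * (τ - t) ^ 2) * br (τ - t) ^ m
          ≤ br t ^ n * br (τ - t) ^ n * Real.exp (-κ * (τ - t) ^ 2) * br (τ - t) ^ m := by
            gcongr; exact b2 n
        _ = br t ^ n * (br (τ - t) ^ (n + m) * Real.exp (-κ * (τ - t) ^ 2)) := by ring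
        _ ≤ br t ^ n * C := by gcongr
        _ = _ := by ring
    · rw [le_div_iff₀ (by positivity)]
      calc br τ ^ n * Real.exp (-κ * (τ - t) ^ 2) * br τ ^ m
          = br τ ^ (n + m) * Real.exp (-κ * (τ - t) ^ 2) := by ring
        _ ≤ br t ^ (n + m) * br (τ - t) ^ (n + m) * Real.exp (-κ * (τ - t) ^ 2) := by
            gcongr; exact b2 _
        _ = br t ^ (n + m) * (br (τ - t) ^ (n + m) * Real.exp (-κ * (τ - t) ^ 2)) := by ring
        _ ≤ br t ^ (n + m) * C := by gcongr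
        _ = _ := by ring

theorem s4_lsum {α : Type} [MeasureSpace α] (F : Finset ℤ) (f : ℤ → α → ENNReal) :
    ∑ k ∈ F, ∫⁻ y, f k y ≤ ∫⁻ y, ∑ k ∈ F, f k y := by
  classical
  induction F using Finset.induction_on with
  | empty => simp
  | insert a S ha ih =>
    simp only [sum_insert ha]
    exact (add_le_add le_rfl ih).trans (le_lintegral_add _ _)

theorem pSIV : SIV := by
  intro α _ F f g hg h
  have g0 : ∀ y, 0 ≤ g y := fun y => (sum_nonneg fun k _ => norm_nonneg _).trans (h y)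
  have h1 : ∑ k ∈ F, ‖∫ y, f k y‖ₑ ≤ ENNReal.ofReal (∫ y, g y) := by
    calc ∑ k ∈ F, ‖∫ y, f k y‖ₑ ≤ ∑ k ∈ F, ∫⁻ y, ‖f k y‖ₑ :=
          sum_le_sum fun k _ => enorm_integral_le_lintegral_enorm _
      _ ≤ ∫⁻ y, ∑ k ∈ F, ‖f k y‖ₑ := s4_lsum F _
      _ ≤ ∫⁻ y, ENNReal.ofReal (g y) := by
          refine lintegral_mono fun y => ?_
          have : ∑ k ∈ F, ‖f k y‖ₑ = ENNReal.ofReal (∑ k ∈ F, ‖f k y‖) := by
            rw [ENNReal.ofReal_sum_of_nonneg fun k _ => norm_nonneg _]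
            exact sum_congr rfl fun k _ => (ofReal_norm _).symm
          rw [this]
          exact ENNReal.ofReal_le_ofReal (h y)
      _ = _ := (ofReal_integral_eq_lintegral_ofReal hg (Filter.Eventually.of_forall g0)).symm
  have h2 : ∑ k ∈ F, ‖∫ y, f k y‖ₑ = ENNReal.ofReal (∑ k ∈ F, ‖∫ y, f k y‖) := by
    rw [ENNReal.ofReal_sum_of_nonneg fun k _ => norm_nonneg _]
    exact sum_congr rfl fun k _ => (ofReal_norm _).symm
  rw [h2] at h1
  exact (ENNReal.ofReal_le_ofReal_iff (integral_nonneg g0)).1 h1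

theorem s4_amgm {a b c d : ℝ} : a * b * c * d ≤ (a ^ 4 + b ^ 4 + c ^ 4 + d ^ 4) / 4 := by
  nlinarith [sq_nonneg (a ^ 2 - b ^ 2), sq_nonneg (c ^ 2 - d ^ 2), sq_nonneg (a * b - c * d)]

theorem pL4 : L4 := by
  intro A N B y F ω l G hN hω hl hB hG
  have B0 : 0 ≤ B := by
    have h1 := (sum_nonneg fun k hk => mul_nonneg (hω k hk) (pow_nonneg (hl k 0) 4)).trans (hB 0)
    have h2 : 0 < br 0 ^ A := pow_pos (s4_br0 0) A
    by_contra hn
    push Not at hn
    nlinarith
  have hint : Integrable fun t : R4 => ∏ i, 1 / br (t i + y) ^ 2 :=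
    (dk_int (n := 4)).comp_add_right (fun _ => y)
  have hval : ∫ t : R4, ∏ i, 1 / br (t i + y) ^ 2 ≤ 16 := by
    have h1 := integral_add_right_eq_self (μ := (volume : Measure R4))
      (fun t : R4 => ∏ i, 1 / br (t i) ^ 2) (fun _ => y)
    have h2 := dk_integral (n := 4)
    simp only [Pi.add_apply] at h1
    rw [h1]; linarith
  have py := s4_br0 y
  refine (pSIV R4 F G (fun t => N * B * br y ^ A * ∏ i, 1 / br (t i + y) ^ 2)
    (hint.const_mul _) fun t => ?_).trans ?_
  · have pD : 0 ≤ ∏ j, 1 / br (t j + y) ^ (A + 2) :=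
      prod_nonneg fun j _ => by have := s4_br0 (t j + y); positivity
    have hj : ∀ j, (∏ i, 1 / br (t i + y) ^ (A + 2)) * br (t j) ^ A ≤
        br y ^ A * ∏ i, 1 / br (t i + y) ^ 2 := by
      intro j
      have b1 : br (t j) ≤ br (t j + y) * br y := by
        have := s4_br_add (t j + y) (-y)
        rwa [add_neg_cancel_right, s4_br_neg] at this
      have b2 : br (t j) ^ A ≤ br (t j + y) ^ A * br y ^ A := by
        rw [← mul_pow]; exact pow_le_pow_left₀ (s4_br0 _).le b1 A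
      rw [← mul_prod_erase univ _ (mem_univ j), ← mul_prod_erase univ (fun i => 1 / br (t i + y) ^ 2)
        (mem_univ j)]
      have p1 := s4_br0 (t j + y)
      have q1 : ∏ i ∈ univ.erase j, 1 / br (t i + y) ^ (A + 2) ≤
          ∏ i ∈ univ.erase j, 1 / br (t i + y) ^ 2 :=
        prod_le_prod (fun i _ => by have := s4_br0 (t i + y); positivity) fun i _ =>
          one_div_le_one_div_of_le (by have := s4_br0 (t i + y); positivity)
            (pow_le_pow_right₀ (s4_br1 _) (Nat.le_add_left 2 A))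
      have q0 : 0 ≤ ∏ i ∈ univ.erase j, 1 / br (t i + y) ^ (A + 2) :=
        prod_nonneg fun i _ => by have := s4_br0 (t i + y); positivity
      calc 1 / br (t j + y) ^ (A + 2) * (∏ i ∈ univ.erase j, 1 / br (t i + y) ^ (A + 2)) * br (t j) ^ A
          ≤ 1 / br (t j + y) ^ (A + 2) * (∏ i ∈ univ.erase j, 1 / br (t i + y) ^ 2) *
            (br (t j + y) ^ A * br y ^ A) := by
            have := s4_br0 (t j)
            gcongr
        _ = _ := by rw [pow_add]; field_simp
    calc ∑ k ∈ F, ‖G k t‖ ≤ ∑ k ∈ F, N * ω k * (∏ j, 1 / br (t j + y) ^ (A + 2)) *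
          ((l k (t 0) ^ 4 + l k (t 1) ^ 4 + l k (t 2) ^ 4 + l k (t 3) ^ 4) / 4) := by
          refine sum_le_sum fun k hk => (hG k hk t).trans ?_
          have := hω k hk
          rw [Fin.prod_univ_four (fun j => l k (t j))]
          gcongr
          exact s4_amgm
      _ = N * (∏ j, 1 / br (t j + y) ^ (A + 2)) / 4 * (∑ k ∈ F, ω k * l k (t 0) ^ 4 +
          ∑ k ∈ F, ω k * l k (t 1) ^ 4 + ∑ k ∈ F, ω k * l k (t 2) ^ 4 +
          ∑ k ∈ F, ω k * l k (t 3) ^ 4) := by
          rw [← sum_add_distrib, ← sum_add_distrib, ← sum_add_distrib, mul_sum]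
          exact sum_congr rfl fun k _ => by ring
      _ ≤ N * (∏ j, 1 / br (t j + y) ^ (A + 2)) / 4 * (B * br (t 0) ^ A + B * br (t 1) ^ A +
          B * br (t 2) ^ A + B * br (t 3) ^ A) := by
          exact mul_le_mul_of_nonneg_left (add_le_add (add_le_add (add_le_add (hB _) (hB _)) (hB _))
            (hB _)) (by positivity)
      _ = N * B / 4 * ((∏ j, 1 / br (t j + y) ^ (A + 2)) * br (t 0) ^ A +
          (∏ j, 1 / br (t j + y) ^ (A + 2)) * br (t 1) ^ A +
          (∏ j, 1 / br (t j + y) ^ (A + 2)) * br (t 2) ^ A +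
          (∏ j, 1 / br (t j + y) ^ (A + 2)) * br (t 3) ^ A) := by ring
      _ ≤ N * B / 4 * (br y ^ A * (∏ i, 1 / br (t i + y) ^ 2) + br y ^ A * (∏ i, 1 / br (t i + y) ^ 2)
          + br y ^ A * (∏ i, 1 / br (t i + y) ^ 2) + br y ^ A * ∏ i, 1 / br (t i + y) ^ 2) := by
          exact mul_le_mul_of_nonneg_left (add_le_add (add_le_add (add_le_add (hj 0) (hj 1)) (hj 2))
            (hj 3)) (by positivity)
      _ = _ := by ring
  · rw [integral_const_mul]
    calc N * B * br y ^ A * ∫ t : R4, ∏ i, 1 / br (t i + y) ^ 2 ≤ N * B * br y ^ A * 16 := by gcongr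
      _ = _ := by ring

end Pool.Agent.Q4
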