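import Pool.Agent.P.MP_ea46f5_nt.Q4.S4
import Pool.Agent.P.MP_ea46f5_nt.Q4.TailA

namespace Pool.Agent.Q4

open Complex MeasureTheory Finset Pool.Agent.QM
open scoped Real ComplexConjugate

lemma tai_tel (Y N : ℕ) (hY : 1 ≤ Y) (hN : Y ≤ N) :
    ∑ f ∈ Ioc Y N, 1 / ((f : ℝ) * √(f : ℝ)) ≤ 2 / √(Y : ℝ) - 2 / √(N : ℝ) := by
  induction N, hN using Nat.le_induction with
  | base => simp
  | succ n hn ih =>
    rw [sum_Ioc_succ_top hn]
    have hn1 : (1 : ℝ) ≤ n := by exact_mod_cast hY.trans hn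
    have ha : 0 < √(n : ℝ) := Real.sqrt_pos.2 (by linarith)
    have hb : 0 < √((n : ℝ) + 1) := Real.sqrt_pos.2 (by linarith)
    have ha2 : √(n : ℝ) ^ 2 = n := Real.sq_sqrt (by linarith)
    have hb2 : √((n : ℝ) + 1) ^ 2 = n + 1 := Real.sq_sqrt (by linarith)
    have hab : √(n : ℝ) ≤ √((n : ℝ) + 1) := Real.sqrt_le_sqrt (by linarith)
    push_cast
    have key : 1 / (((n : ℝ) + 1) * √((n : ℝ) + 1)) ≤ 2 / √(n : ℝ) - 2 / √((n : ℝ) + 1) := by
      generalize √(n : ℝ) = a at *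
      generalize √((n : ℝ) + 1) = b at *
      rw [← hb2, div_sub_div _ _ ha.ne' hb.ne', div_le_div_iff₀ (by positivity) (by positivity)]
      have h1 : (b - a) * (b + a) = 1 := by nlinarith
      have h2 : 0 ≤ b - a := by linarith
      have h3 : a * b * (b + a) ≤ 2 * (b ^ 2 * b) := by
        have : a * (b + a) ≤ b * (b + b) := by gcongr
        nlinarith
      calc 1 * (a * b) = (b - a) * (a * b * (b + a)) := by
            linear_combination (-(a * b)) * h1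
        _ ≤ (b - a) * (2 * (b ^ 2 * b)) := by gcongr
        _ = (2 * b - a * 2) * (b ^ 2 * b) := by ring
    linarith

lemma tai_sum (Y : ℕ) (hY : 1 ≤ Y) (F : Finset ℕ) :
    ∑ f ∈ F.filter (fun f => Y < f), 1 / ((f : ℝ) * √(f : ℝ)) ≤ 2 / √(Y : ℝ) := by
  have h1 : F.filter (fun f => Y < f) ⊆ Ioc Y (max Y (F.sup id)) := fun f hf =>
    mem_Ioc.2 ⟨(mem_filter.1 hf).2, le_max_of_le_right (le_sup (f := id) (mem_filter.1 hf).1)⟩
  refine (sum_le_sum_of_subset_of_nonneg h1 fun _ _ _ => by positivity).trans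
    ((tai_tel Y _ hY (le_max_left _ _)).trans ?_)
  have : 0 ≤ 2 / √((max Y (F.sup id) : ℕ) : ℝ) := by positivity
  linarith

lemma tai_even (τ r k : ℤ) (f : ℕ) (hr : r ∈ RS) (hf : ¬ Odd f) : ¬ Cl τ r (k * (f : ℤ) ^ 2) := by
  rintro ⟨-, h⟩
  obtain ⟨a, rfl⟩ := Nat.not_odd_iff_even.1 hf
  have e : k * ((a + a : ℕ) : ℤ) ^ 2 = 4 * (k * (a : ℤ) ^ 2) := by push_cast; ring
  rw [e] at h
  simp only [RS, mem_insert, mem_singleton] at hr
  omega

theorem pTAIL (hPHW : PHW) (hDIV : DIV) (hCYB : CYB) (hCLM : CLM) (hDB : DB) (hTL1 : TL1) :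
    TAIL := by
  classical
  intro g C₀ hg
  obtain ⟨Cd, hCd, hDIV⟩ := hDIV
  obtain ⟨C₁, hC₁, hD⟩ := hDB g C₀ 0 hg
  obtain ⟨C₂, hC₂, hT⟩ := hTL1 g C₀ hg
  refine ⟨4 * C₁ + 2 * (C₂ * Cd), by positivity, ?_⟩
  intro τ r Δ η X Y hτ hr hP hS
  set L := Real.log X with hL
  have hL100 : 100 ≤ L := hP.XL
  have hX0 : 0 < X := by linarith [hP.X1]
  have hc0 : 0 < cq r := by linarith [hP.c1]
  have hΔ := hP.D1
  have hY : (1 : ℝ) ≤ Y := by exact_mod_cast hP.Y1
  have hsY : 0 < √(Y : ℝ) := Real.sqrt_pos.2 (by linarith)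
  have hDL : 1 ≤ Δ * L := by nlinarith
  set W := (Δ * L) ^ 40 with hW
  have hW0 : 0 < W := by positivity
  set S : Set ℤ := {m | Squarefree m ∧ m ≠ 1} with hSdef
  have hone : ∀ k : ℤ, Squarefree k → sY Y k = 1 := fun k hk => by
    simpa using (hCYB.2.2.2.1 Y k 1 hk odd_one).2.1 hP.Y1 rfl
  have htb : ∀ k : SF, tb τ r g Δ η X k = S.indicator (ta τ r g Δ η X Y) k := by
    intro k
    unfold tb
    by_cases h1 : (k : ℤ) = 1
    · rw [if_neg (fun h => h.1 h1), Set.indicator_of_notMem (fun h => h.2 h1)]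
    · rw [Set.indicator_of_mem (show (k : ℤ) ∈ S from ⟨k.2, h1⟩)]
      unfold ta
      by_cases h2 : Cl τ r k
      · obtain ⟨e1, e2, -⟩ := hCLM.1 τ r k hτ hr h2
        rw [if_pos ⟨h1, h2⟩, if_pos h2, e1, e2, hone k k.2]
        simp
      · rw [if_neg (fun h => h2 h.2), if_neg h2]
  have hSi : Summable (S.indicator (ta τ r g Δ η X Y)) := hS.indicator S
  have hfun : tb τ r g Δ η X = fun k : SF => S.indicator (ta τ r g Δ η X Y) k := funext htb
  have htsum : ∑' k : SF, tb τ r g Δ η X k = ∑' m, S.indicator (ta τ r g Δ η X Y) m := by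
    rw [hfun]
    refine tsum_subtype_eq_of_support_subset (s := {k : ℤ | Squarefree k}) fun m hm => ?_
    exact (Set.support_indicator_subset hm).1
  refine ⟨hfun ▸ hSi.subtype _, ?_⟩
  rw [htsum, ← hS.tsum_sub hSi]
  set h : ℤ → ℝ := fun m => ‖ta τ r g Δ η X Y m - S.indicator (ta τ r g Δ η X Y) m‖ with hh
  have hle : ∀ m, h m ≤ ‖ta τ r g Δ η X Y m‖ := fun m => by
    simp only [hh]
    by_cases hm : m ∈ S
    · rw [Set.indicator_of_mem hm, sub_self, norm_zero]; exact norm_nonneg _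
    · rw [Set.indicator_of_notMem hm, sub_zero]
  have hphi : ∀ m : ℤ, m ≠ 0 → 0 ≤ phi η (cq r * |(m : ℝ)| / X) ∧
      phi η (cq r * |(m : ℝ)| / X) ≤ 1 := fun m hm => by
    have : 0 < |(m : ℝ)| := abs_pos.2 (by exact_mod_cast hm)
    have := hPHW η (cq r * |(m : ℝ)| / X) hP.h0 (by positivity)
    exact ⟨this.2.1, this.2.2.1⟩
  have hta : ∀ m : ℤ, m ≠ 0 → ‖ta τ r g Δ η X Y m‖ ≤ ((|sY Y m| : ℤ) : ℝ) *
      (phi η (cq r * |(m : ℝ)| / X) * ‖Tm g (gam r) Δ (cq r * |(m : ℝ)|) m‖) := fun m hm => by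
    have hp := (hphi m hm).1
    unfold ta
    split_ifs
    · rw [norm_mul, norm_mul, Complex.norm_intCast, Complex.norm_real, Real.norm_of_nonneg hp,
        mul_assoc]
      push_cast
      exact le_rfl
    · rw [norm_zero]
      have : (0 : ℝ) ≤ ((|sY Y m| : ℤ) : ℝ) := by exact_mod_cast abs_nonneg _
      positivity
  have h1 : h 1 ≤ 4 * C₁ * W := by
    refine (hle 1).trans ((hta 1 one_ne_zero).trans ?_)
    have hp := hphi 1 one_ne_zero
    have hb := (hD (gam r) 1 1 Δ (cq r) (1 / 100) hP.hγ odd_one hΔ hP.c1 (by norm_num) le_rfl).2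
    rw [hone 1 squarefree_one]
    simp only [Nat.cast_one, one_pow, mul_one, Nat.divisors_one, card_singleton, Int.cast_one,
      abs_one, one_mul] at hb hp ⊢
    have e1 : cq r ^ (2 * (1 / 100) : ℝ) ≤ 4 := by
      refine le_trans ?_ hP.c4
      simpa using Real.rpow_le_rpow_of_exponent_le hP.c1 (show (2 * (1 / 100) : ℝ) ≤ 1 by norm_num)
    have e2 : (Δ / (1 / 100)) ^ 28 ≤ W := by
      have a1 : Δ / (1 / 100) ≤ Δ * L := by
        rw [div_div_eq_mul_div, div_one]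
        gcongr
      calc (Δ / (1 / 100)) ^ 28 ≤ (Δ * L) ^ 28 := by gcongr
        _ ≤ W := pow_le_pow_right₀ hDL (by norm_num)
    calc _ ≤ 1 * (C₁ * W * 4) := by
          refine mul_le_mul hp.2 (hb.trans ?_) (norm_nonneg _) zero_le_one
          gcongr
      _ = _ := by ring
  have hrow : ∀ (F : Finset ℤ) (f : ℕ), (∀ k ∈ F, Squarefree k) → f ≠ 0 →
      ∑ k ∈ F, h (k * (f : ℤ) ^ 2) ≤ (if f = 1 then 4 * C₁ * W else 0) +
        if Y < f then C₂ * Cd * W * X * (1 / ((f : ℝ) * √(f : ℝ))) else 0 := by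
    intro F f hF hf0
    by_cases hf1 : f = 1
    · subst hf1
      rw [if_pos rfl, if_neg (not_lt.2 hP.Y1), add_zero]
      simp only [Nat.cast_one, one_pow, mul_one]
      have hz : ∀ k ∈ F, k ≠ 1 → h k = 0 := fun k hk hk1 => by
        simp only [hh]
        rw [Set.indicator_of_mem (show k ∈ S from ⟨hF k hk, hk1⟩), sub_self, norm_zero]
      by_cases hm : (1 : ℤ) ∈ F
      · rw [sum_eq_single_of_mem 1 hm hz]; exact h1
      · rw [sum_eq_zero fun k hk => hz k hk fun e => hm (e ▸ hk)]; positivity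
    rw [if_neg hf1, zero_add]
    have hne : ∀ k ∈ F, k * (f : ℤ) ^ 2 ≠ 0 := fun k hk =>
      mul_ne_zero (hF k hk).ne_zero (pow_ne_zero _ (by exact_mod_cast hf0))
    have hnn : (0 : ℝ) ≤ if Y < f then C₂ * Cd * W * X * (1 / ((f : ℝ) * √(f : ℝ))) else 0 := by
      split_ifs
      · positivity
      · exact le_rfl
    by_cases hodd : Odd f
    swap
    · refine le_trans (sum_nonpos fun k hk => (hle _).trans (le_of_eq ?_)) hnn
      unfold ta
      rw [if_neg (tai_even τ r k f hr hodd), norm_zero]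
    by_cases hYf : Y < f
    swap
    · refine le_trans (sum_nonpos fun k hk => (hle _).trans ((hta _ (hne k hk)).trans
        (le_of_eq ?_))) hnn
      rw [(hCYB.2.2.2.1 Y k f (hF k hk) hodd).2.2 (by omega) (not_lt.1 hYf)]
      simp
    rw [if_pos hYf]
    have hfR : (0 : ℝ) < f := by exact_mod_cast Nat.pos_of_ne_zero hf0
    have hs : 0 < √(f : ℝ) := Real.sqrt_pos.2 hfR
    have hs2 : √(f : ℝ) * √(f : ℝ) = f := Real.mul_self_sqrt hfR.le
    have hd0 : (0 : ℝ) ≤ f.divisors.card := Nat.cast_nonneg _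
    calc ∑ k ∈ F, h (k * (f : ℤ) ^ 2)
        ≤ ∑ k ∈ F, (f.divisors.card : ℝ) *
          (phi η (cq r * |((k * (f : ℤ) ^ 2 : ℤ) : ℝ)| / X) *
            ‖Tm g (gam r) Δ (cq r * |((k * (f : ℤ) ^ 2 : ℤ) : ℝ)|) (k * (f : ℤ) ^ 2)‖) := by
          refine sum_le_sum fun k hk => (hle _).trans ((hta _ (hne k hk)).trans ?_)
          have a1 : ((|sY Y (k * (f : ℤ) ^ 2)| : ℤ) : ℝ) ≤ (f.divisors.card : ℝ) := by
            exact_mod_cast (hCYB.2.2.2.1 Y k f (hF k hk) hodd).1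
          exact mul_le_mul_of_nonneg_right a1
            (mul_nonneg (hphi _ (hne k hk)).1 (norm_nonneg _))
      _ ≤ (f.divisors.card : ℝ) * (C₂ * W * (f.divisors.card : ℝ) ^ 4 * (X / (f : ℝ) ^ 2)) := by
          rw [← mul_sum]
          exact mul_le_mul_of_nonneg_left (hT (gam r) (cq r) Δ η X Y f F hP hodd hF) hd0
      _ = C₂ * W * (f.divisors.card : ℝ) ^ 5 * (X / (f : ℝ) ^ 2) := by ring
      _ ≤ C₂ * W * (Cd * √(f : ℝ)) * (X / (f : ℝ) ^ 2) := by
          have := hDIV f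
          gcongr
      _ = C₂ * Cd * W * X * (1 / ((f : ℝ) * √(f : ℝ))) := by
          field_simp
          nlinarith [hs2]
  have hfin : ∀ F : Finset ℤ, ∑ m ∈ F, h m ≤
      (4 * C₁ + 2 * (C₂ * Cd)) * W * (X / √(Y : ℝ) + 1) := by
    refine tl_dec h (fun m => norm_nonneg _) ?_ _ fun F₁ F₂ hF₁ hF₂ => ?_
    · refine le_antisymm ((hle 0).trans (le_of_eq ?_)) (norm_nonneg _)
      unfold ta
      rw [if_neg (fun hc => by simpa using hc.1), norm_zero]
    · refine (sum_le_sum fun f hf => hrow F₁ f hF₁ (hF₂ f hf)).trans ?_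
      rw [sum_add_distrib, ← sum_filter (fun f => Y < f), ← mul_sum]
      have a1 : ∑ f ∈ F₂, (if f = 1 then 4 * C₁ * W else 0) ≤ 4 * C₁ * W := by
        rw [sum_ite_eq']
        split_ifs
        · exact le_rfl
        · positivity
      have a2 : C₂ * Cd * W * X * ∑ f ∈ F₂.filter (fun f => Y < f), 1 / ((f : ℝ) * √(f : ℝ)) ≤
          C₂ * Cd * W * X * (2 / √(Y : ℝ)) :=
        mul_le_mul_of_nonneg_left (tai_sum Y hP.Y1 F₂) (by positivity)
      have a3 : 0 ≤ X / √(Y : ℝ) := by positivity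
      have a4 : C₂ * Cd * W * X * (2 / √(Y : ℝ)) = 2 * (C₂ * Cd) * W * (X / √(Y : ℝ)) := by ring
      have a5 : 0 ≤ 4 * C₁ * W * (X / √(Y : ℝ)) := by positivity
      have a6 : 0 ≤ 2 * (C₂ * Cd) * W := by positivity
      nlinarith
  have hsum : Summable h := summable_of_sum_le (fun m => norm_nonneg _) hfin
  exact (norm_tsum_le_tsum_norm hsum).trans (hsum.tsum_le_of_sum_le hfin)

end Pool.Agent.Q4
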