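import Pool.Agent.P.MP_ea46f5_nt.Q4.T

namespace Pool.Agent.Q4

open Complex MeasureTheory Finset Pool.Agent.QM Filter
open scoped Real Topology

/-- One step of the Taylor expansion of an even germ. -/
theorem tay_step {k : ℂ → ℂ} (hk : AnalyticAt ℂ k 0) (he : ∀ᶠ u in 𝓝 (0 : ℂ), k (-u) = k u) :
    ∃ k₁ : ℂ → ℂ, AnalyticAt ℂ k₁ 0 ∧ (∀ᶠ u in 𝓝 (0 : ℂ), k₁ (-u) = k₁ u) ∧
      ∀ u, k u = k 0 + u ^ 2 * k₁ u := by
  have ds : ∀ f : ℂ → ℂ, AnalyticAt ℂ f 0 → AnalyticAt ℂ (dslope f 0) 0 := fun f ⟨_, hp⟩ =>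
    ⟨_, hp.has_fpower_series_dslope_fslope⟩
  have e : ∀ (f : ℂ → ℂ) (u : ℂ), f u = f 0 + u * dslope f 0 u := fun f u => by
    have := sub_smul_dslope f 0 u
    rw [sub_zero, smul_eq_mul] at this
    rw [this]
    ring
  have h0 : dslope k 0 0 = 0 := by
    have h1 : deriv (fun u => k (-u)) 0 = deriv k 0 := Filter.EventuallyEq.deriv_eq he
    rw [deriv_comp_neg, neg_zero] at h1
    rw [dslope_same]
    linear_combination (-1 / 2 : ℂ) * h1
  have h2 : ∀ u, k u = k 0 + u ^ 2 * dslope (dslope k 0) 0 u := fun u => by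
    rw [e k u, e (dslope k 0) u, h0]
    ring
  refine ⟨_, ds _ (ds _ hk), he.mono fun u hu => ?_, h2⟩
  rcases eq_or_ne u 0 with rfl | h
  · rw [neg_zero]
  · rw [h2 u, h2 (-u), neg_sq] at hu
    exact mul_left_cancel₀ (pow_ne_zero 2 h) (add_left_cancel hu)

theorem tay_gam {w : ℂ} (h : 0 < w.re) : DifferentiableAt ℂ Gammaℝ w := by
  have h1 := (Complex.differentiable_Gammaℝ_inv w).inv (inv_ne_zero (Gammaℝ_ne_zero_of_re_pos h))
  exact h1.congr_of_eventuallyEq (Filter.Eventually.of_forall fun s => (inv_inv _).symm)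

theorem tay_Xf (a : ℕ) (u : ℂ) :
    Xf a (1 / 2 + u) = Gammaℝ (1 / 2 + a + -u) / Gammaℝ (1 / 2 + a + u) := by
  have hp : (π : ℂ) ≠ 0 := by exact_mod_cast Real.pi_ne_zero
  have e1 : (π : ℂ) ^ (-(1 / 2 + a + -u) / 2) =
      (π : ℂ) ^ (1 / 2 + u - 1 / 2) * (π : ℂ) ^ (-(1 / 2 + a + u) / 2) := by
    rw [← cpow_add _ _ hp]
    congr 1
    ring
  have e2 : (π : ℂ) ^ (-(1 / 2 + a + u) / 2) ≠ 0 := by simp
  rw [Xf, Gammaℝ_def, Gammaℝ_def, e1, show (1 - (1 / 2 + u) + a) / 2 = (1 / 2 + a + -u) / 2 by ring,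
    show (1 / 2 + u + a) / 2 = (1 / 2 + a + u) / 2 by ring, mul_right_comm,
    mul_comm (_ ^ (-(1 / 2 + (a : ℂ) + u) / 2)), mul_div_mul_right _ _ e2]

theorem tay_small (a : ℕ) : ∀ᶠ u in 𝓝 (0 : ℂ),
    0 < (1 / 2 + a + u : ℂ).re ∧ 0 < (1 / 2 + a + -u : ℂ).re := by
  have h : (0 : ℝ) < 1 / 2 + a := by positivity
  refine Filter.Eventually.and ?_ ?_
  · exact ContinuousAt.eventually_lt continuousAt_const (by fun_prop) (by simpa using h)
  · exact ContinuousAt.eventually_lt continuousAt_const (by fun_prop) (by simpa using h)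

theorem tay_an (a : ℕ) : AnalyticAt ℂ (fun u : ℂ => Gammaℝ (1 / 2 + a + u)) 0 ∧
    AnalyticAt ℂ (fun u : ℂ => Gammaℝ (1 / 2 + a + -u)) 0 :=
  ⟨analyticAt_iff_eventually_differentiableAt.2 ((tay_small a).mono fun u hu =>
      (tay_gam hu.1).comp u (f := fun u : ℂ => 1 / 2 + a + u) (by fun_prop)),
    analyticAt_iff_eventually_differentiableAt.2 ((tay_small a).mono fun u hu =>
      (tay_gam hu.2).comp u (f := fun u : ℂ => 1 / 2 + a + -u) (by fun_prop))⟩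

theorem tay_Xh (a : ℕ) : AnalyticAt ℂ (Xh a) 0 ∧ Xh a 0 = 1 ∧
    ∀ᶠ u in 𝓝 (0 : ℂ), gr a (-u) / Xh a (-u) = gr a u / Xh a u := by
  have n0 : Gammaℝ (1 / 2 + a + 0) ≠ 0 := Gammaℝ_ne_zero_of_re_pos (tay_small a).self_of_nhds.1
  have hF : AnalyticAt ℂ (fun u : ℂ => Xf a (1 / 2 + u)) 0 := by
    simp only [tay_Xf]
    exact (tay_an a).2.div (tay_an a).1 n0
  have h1 : Xf a (1 / 2 + 0) = 1 := by rw [tay_Xf, neg_zero, div_self n0]
  have hs : Xf a (1 / 2 + 0) ∈ slitPlane := by rw [h1]; exact one_mem_slitPlane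
  refine ⟨hF.cpow analyticAt_const hs, by rw [Xh, h1, one_cpow], ?_⟩
  filter_upwards [tay_small a, hF.continuousAt.eventually (isOpen_slitPlane.mem_nhds hs)]
    with u hu hv
  have m1 := Gammaℝ_ne_zero_of_re_pos hu.1
  have m2 := Gammaℝ_ne_zero_of_re_pos hu.2
  have m3 := slitPlane_ne_zero hv
  have e1 : Xh a (-u) = (Xh a u)⁻¹ := by
    rw [Xh, Xh, ← inv_cpow _ _ (slitPlane_arg_ne_pi hv), tay_Xf, tay_Xf, neg_neg, inv_div]
  have e2 : Xh a u * Xh a u = Gammaℝ (1 / 2 + a + u) / Gammaℝ (1 / 2 + a + -u) := by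
    rw [Xh, ← cpow_add _ _ m3, show (-1 / 2 + -1 / 2 : ℂ) = -1 by norm_num, cpow_neg_one, tay_Xf,
      inv_div]
  have m4 : Xh a u ≠ 0 := fun h => by
    rw [h, mul_zero] at e2
    exact div_ne_zero m1 m2 e2.symm
  rw [e1, div_inv_eq_mul, eq_div_iff m4, mul_assoc, e2, gr, gr]
  generalize Gammaℝ (1 / 2 + a + -u) = x at m2 ⊢
  generalize Gammaℝ (1 / 2 + a + u) = y
  generalize Gammaℝ (1 / 2 + a) = z
  rw [div_mul_div_comm, mul_comm x, mul_div_mul_right _ _ m2]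

theorem pTAY : TAY := by
  intro a _ g hg he h0
  obtain ⟨x1, x2, x3⟩ := tay_Xh a
  have n0 : Gammaℝ (1 / 2 + a) ≠ 0 := by
    simpa using Gammaℝ_ne_zero_of_re_pos (tay_small a).self_of_nhds.1
  set h : ℂ → ℂ := fun u => gr a u / Xh a u * g u with hh
  have h1 : h 0 = 1 := by simp only [hh, x2, h0, gr, add_zero, div_self n0, div_one, mul_one]
  have ha : AnalyticAt ℂ h 0 :=
    (((tay_an a).1.div analyticAt_const n0).div x1 (by rw [x2]; exact one_ne_zero)).mul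
      (hg.analyticAt 0)
  have hn : h 0 ≠ 0 := by rw [h1]; exact one_ne_zero
  obtain ⟨k1, a1, b1, c1⟩ := tay_step (k := fun u => (h u)⁻¹) (ha.inv hn)
    (x3.mono fun u hu => by simp only [hh, hu, he])
  obtain ⟨k2, a2, b2, c2⟩ := tay_step a1 b1
  obtain ⟨k3, a3, b3, c3⟩ := tay_step a2 b2
  obtain ⟨k4, a4, -, c4⟩ := tay_step a3 b3
  have hx : ∀ᶠ u in 𝓝 (0 : ℂ), Xh a u ≠ 0 :=
    x1.continuousAt.eventually_ne (by rw [x2]; exact one_ne_zero)
  obtain ⟨r, hr, hb⟩ := Metric.nhds_basis_closedBall.eventually_iff.1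
    (x1.eventually_analyticAt.and ((ha.mul a4).neg.eventually_analyticAt.and
      (hx.and (ha.continuousAt.eventually_ne hn))))
  refine ⟨r, k1 0, k2 0, k3 0, -(h * k4), hr, fun u hu => ?_⟩
  obtain ⟨d1, d2, d3, d4⟩ := hb (mem_closedBall_zero_iff.2 hu)
  refine ⟨d1.differentiableAt, d2.differentiableAt, ?_⟩
  have e1 := c1 u
  rw [c2 u, c3 u, c4 u, h1, inv_one] at e1
  have e2 : gr a u * g u = Xh a u * h u := by
    simp only [hh]
    field_simp
  have e3 := mul_inv_cancel₀ d4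
  rw [e1] at e3
  rw [e2, Pi.neg_apply, Pi.mul_apply]
  linear_combination Xh a u * e3

theorem tay_KZ4 : Differentiable ℂ KZ4 := by
  have := differentiable_riemannZeta₁
  unfold KZ4 Vd
  fun_prop

theorem pPH0 (hA : A4H) : PH0 := by
  intro a _
  obtain ⟨r, hr, hb⟩ := Metric.nhds_basis_closedBall.eventually_iff.1
    (tay_Xh a).1.eventually_analyticAt
  refine ⟨min r (1 / 16), by positivity, min_le_right _ _, ?_⟩
  have hU : Pd 4 (min r (1 / 16)) ⊆ {z | ∀ i, -(1 / 8) < (z i).re} := fun z hz i => by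
    have := (abs_le.1 ((abs_re_le_norm (z i)).trans ((hz i).trans (min_le_right _ _)))).1
    linarith
  have hP : ∀ z ∈ Pd 4 (min r (1 / 16)),
      DifferentiableAt ℂ (fun z : Fin 4 → ℂ => ∏ j, Xh a (z j)) z := fun z hz => by
    have h : ∀ j, DifferentiableAt ℂ (fun z : Fin 4 → ℂ => Xh a (z j)) z := fun j =>
      (hb (mem_closedBall_zero_iff.2 ((hz j).trans (min_le_left _ _)))).differentiableAt.comp z
        (f := fun z : Fin 4 → ℂ => z j) (differentiableAt_apply j z)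
    simp only [Fin.prod_univ_four]
    exact (((h 0).mul (h 1)).mul (h 2)).mul (h 3)
  have hu : ∀ (G : (Fin 4 → ℂ) → ℂ) (s : Fin 4 → ℂ) (i : Fin 4), DifferentiableAt ℂ G s →
      DifferentiableAt ℂ (fun w => G (Function.update s i w)) (s i) := fun G s i hG =>
    DifferentiableAt.comp (s i) (g := G) (by rwa [Function.update_eq_self])
      (hasDerivAt_update s i (s i)).differentiableAt
  exact ⟨(tay_KZ4.continuous.continuousOn.mul (hA.1.1.mono hU)).mul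
      fun z hz => (hP z hz).continuousAt.continuousWithinAt,
    fun s hs i => ((hu _ s i (tay_KZ4 s)).mul (hA.1.2 s (hU hs) i)).mul (hu _ s i (hP s hs))⟩

end Pool.Agent.Q4
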