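import Pool.Agent.P.MP_ea46f5_nt.Q4.S4

namespace Pool.Agent.Q4

open Complex MeasureTheory Finset Pool.Agent.QM
open scoped Real ENNReal

lemma tc_step (i : Fin 4) {f g : R4 → ℝ≥0∞} (hf : Measurable f) (hg : Measurable g)
    (h : ∀ x : R4, ∫⁻ y, f (Function.update x i y) ≤ ∫⁻ y, g (Function.update x i y)) :
    ∫⁻ x, f x ≤ ∫⁻ x, g x := by
  refine lintegral_le_of_lmarginal_le (μ := fun _ : Fin 4 => (volume : Measure ℝ)) {i} hf hg ?_
  rw [lmarginal_singleton, lmarginal_singleton]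
  exact h

lemma tc_ind {e : ℝ} (he : 0 < e) :
    ∫⁻ x : ℝ, ENNReal.ofReal ((Set.Icc (-1 : ℝ) 1).indicator (fun x => 1 / (e + |x|)) x) ≤
      ENNReal.ofReal (2 * Real.log (1 + 1 / e)) := by
  have hc : Continuous fun x : ℝ => 1 / (e + |x|) :=
    continuous_const.div (continuous_const.add continuous_abs) fun x => by positivity
  have hi : Integrable ((Set.Icc (-1 : ℝ) 1).indicator fun x => 1 / (e + |x|)) :=
    (integrable_indicator_iff measurableSet_Icc).2 (hc.continuousOn.integrableOn_Icc)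
  rw [← ofReal_integral_eq_lintegral_ofReal hi
    (Filter.Eventually.of_forall fun x => Set.indicator_nonneg (fun y _ => by positivity) x)]
  refine ENNReal.ofReal_le_ofReal (le_of_eq ?_)
  rw [integral_indicator measurableSet_Icc, integral_Icc_eq_integral_Ioc,
    ← intervalIntegral.integral_of_le (by norm_num),
    ← intervalIntegral.integral_add_adjacent_intervals (b := 0) (hc.intervalIntegrable _ _)
      (hc.intervalIntegrable _ _)]
  have h1 : ∫ x in (0 : ℝ)..1, 1 / (e + |x|) = Real.log (1 + 1 / e) := by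
    rw [intervalIntegral.integral_congr (g := fun x => 1 / (e + x)) fun x hx => by
      rw [Set.uIcc_of_le (by norm_num)] at hx
      simp only [abs_of_nonneg hx.1]]
    rw [intervalIntegral.integral_comp_add_left (fun x => 1 / x), integral_one_div_of_pos
      (by linarith) (by linarith)]
    congr 1
    field_simp
    ring
  have h2 : ∫ x in (-1 : ℝ)..0, 1 / (e + |x|) = ∫ x in (0 : ℝ)..1, 1 / (e + |x|) := by
    have := intervalIntegral.integral_comp_neg (a := 0) (b := 1) fun x : ℝ => 1 / (e + |x|)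
    simpa using this.symm
  rw [h2, h1]
  ring

/-- one singular denominator -/
lemma tc_one {e N s c : ℝ} {n : ℝ → ℝ} (he : 0 < e) (hs : s = 1 ∨ s = -1) (hN : 0 ≤ N)
    (hn0 : ∀ y, 0 ≤ n y) (hnN : ∀ y, n y ≤ N) (hm : Measurable n)
    (hI : ∫⁻ y, ENNReal.ofReal (n y) ≤ ENNReal.ofReal N) :
    ∫⁻ y, ENNReal.ofReal (n y / (e + |s * y + c|)) ≤
      ENNReal.ofReal (N * (1 + 2 * Real.log (1 + 1 / e))) := by
  set φ : ℝ → ℝ := (Set.Icc (-1 : ℝ) 1).indicator fun x => 1 / (e + |x|) with hφ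
  have hφ0 : ∀ x, 0 ≤ φ x := fun x => Set.indicator_nonneg (fun y _ => by positivity) x
  have hL : 0 ≤ Real.log (1 + 1 / e) := Real.log_nonneg (by have := one_div_pos.2 he; linarith)
  have hp : ∀ y, ENNReal.ofReal (n y / (e + |s * y + c|)) ≤
      ENNReal.ofReal (n y) + ENNReal.ofReal N * ENNReal.ofReal (φ (s * y + c)) := by
    intro y
    rw [← ENNReal.ofReal_mul hN, ← ENNReal.ofReal_add (hn0 y) (mul_nonneg hN (hφ0 _))]
    refine ENNReal.ofReal_le_ofReal ?_
    by_cases h : s * y + c ∈ Set.Icc (-1 : ℝ) 1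
    · rw [hφ, Set.indicator_of_mem h, mul_one_div]
      have : n y / (e + |s * y + c|) ≤ N / (e + |s * y + c|) := by gcongr; exact hnN y
      linarith [hn0 y]
    · have h1 : 1 ≤ |s * y + c| := by
        by_contra h2
        exact h (abs_le.1 (not_le.1 h2).le)
      have : n y / (e + |s * y + c|) ≤ n y := div_le_self (hn0 y) (by linarith)
      linarith [mul_nonneg hN (hφ0 (s * y + c))]
  have ht : ∫⁻ y, ENNReal.ofReal (φ (s * y + c)) = ∫⁻ y, ENNReal.ofReal (φ y) := by
    rcases hs with rfl | rfl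
    · simpa using lintegral_add_right_eq_self (fun y => ENNReal.ofReal (φ y)) c
    · have := lintegral_sub_left_eq_self (μ := (volume : Measure ℝ))
        (fun y => ENNReal.ofReal (φ y)) c
      rw [← this]
      congr 1
      ext y
      congr 2
      ring
  refine (lintegral_mono hp).trans ?_
  rw [lintegral_add_left hm.ennreal_ofReal, lintegral_const_mul' _ _ ENNReal.ofReal_ne_top, ht]
  refine (add_le_add hI (mul_le_mul_right (tc_ind he) _)).trans (le_of_eq ?_)
  rw [← ENNReal.ofReal_mul hN, ← ENNReal.ofReal_add hN (by positivity)]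
  congr 1
  ring

/-- replace one factor by a constant times the indicator of the unit interval -/
lemma tc_rep (i : Fin 4) {a r : R4 → ℝ≥0∞} {B : ℝ≥0∞} (ha : Measurable a) (hr : Measurable r)
    (hru : ∀ x y, r (Function.update x i y) = r x)
    (h : ∀ x : R4, ∫⁻ y, a (Function.update x i y) ≤ B) :
    ∫⁻ x, a x * r x ≤ B * ∫⁻ x : R4, (Set.Icc (0 : ℝ) 1).indicator 1 (x i) * r x := by
  have hm : Measurable fun x : R4 => (Set.Icc (0 : ℝ) 1).indicator (1 : ℝ → ℝ≥0∞) (x i) :=
    (measurable_one.indicator measurableSet_Icc).comp (measurable_pi_apply i)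
  have hmr : Measurable fun x : R4 =>
      (Set.Icc (0 : ℝ) 1).indicator (1 : ℝ → ℝ≥0∞) (x i) * r x := hm.mul hr
  have har : Measurable fun x : R4 => a x * r x := ha.mul hr
  rw [← lintegral_const_mul B hmr]
  refine tc_step i har (hmr.const_mul B) fun x => ?_
  simp only [hru, Function.update_self]
  have hau : Measurable fun y => a (Function.update x i y) := ha.comp (measurable_update x)
  rw [lintegral_mul_const _ hau, lintegral_const_mul,
    lintegral_mul_const _ (measurable_one.indicator measurableSet_Icc)]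
  · rw [lintegral_indicator_one measurableSet_Icc]
    simp only [Real.volume_Icc, sub_zero, ENNReal.ofReal_one, one_mul]
    exact mul_le_mul_left (h x) _
  · exact (measurable_one.indicator measurableSet_Icc).mul_const _

lemma tc_cube : ∫⁻ x : R4, (Set.Icc (0 : ℝ) 1).indicator 1 (x 3) *
    ((Set.Icc (0 : ℝ) 1).indicator 1 (x 2) * ((Set.Icc (0 : ℝ) 1).indicator 1 (x 1) *
      (Set.Icc (0 : ℝ) 1).indicator (1 : ℝ → ℝ≥0∞) (x 0))) = 1 := by
  have h : ∀ x : R4, (Set.Icc (0 : ℝ) 1).indicator 1 (x 3) *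
      ((Set.Icc (0 : ℝ) 1).indicator 1 (x 2) * ((Set.Icc (0 : ℝ) 1).indicator 1 (x 1) *
        (Set.Icc (0 : ℝ) 1).indicator (1 : ℝ → ℝ≥0∞) (x 0))) =
      (Set.Icc (0 : R4) 1).indicator 1 x := by
    intro x
    by_cases hx : x ∈ Set.Icc (0 : R4) 1
    · have : ∀ i, x i ∈ Set.Icc (0 : ℝ) 1 := fun i => ⟨hx.1 i, hx.2 i⟩
      simp [Set.indicator_of_mem, this, hx]
    · rw [Set.indicator_of_notMem hx]
      by_contra h0
      simp only [mul_eq_zero, not_or] at h0
      have k : ∀ i, (Set.Icc (0 : ℝ) 1).indicator (1 : ℝ → ℝ≥0∞) (x i) ≠ 0 →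
          x i ∈ Set.Icc (0 : ℝ) 1 := fun i hi => Set.mem_of_indicator_ne_zero hi
      have k2 : ∀ i, x i ∈ Set.Icc (0 : ℝ) 1 := by
        intro i
        fin_cases i
        exacts [k 0 h0.2.2.2, k 1 h0.2.2.1, k 2 h0.2.1, k 3 h0.1]
      exact hx ⟨fun i => (k2 i).1, fun i => (k2 i).2⟩
  simp only [h]
  rw [lintegral_indicator_one measurableSet_Icc, Real.volume_Icc_pi]
  simp

/-- two singular denominators -/
lemma tc_two {e N : ℝ} {n : Fin 4 → ℝ → ℝ} (s : R4) (b d : Fin 4) (hb0 : b ≠ 0)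
    (hd0 : d ≠ 0) (hd1 : d ≠ 1) (he : 0 < e) (hs : ∀ j, s j = 1 ∨ s j = -1) (hN : 0 ≤ N)
    (hn0 : ∀ j y, 0 ≤ n j y) (hnN : ∀ j y, n j y ≤ N) (hm : ∀ j, Measurable (n j))
    (hI : ∀ j, ∫⁻ y, ENNReal.ofReal (n j y) ≤ ENNReal.ofReal N) :
    ∫⁻ x : R4, ENNReal.ofReal ((∏ j, n j (x j)) *
      (1 / ((e + |s 0 * x 0 + s b * x b|) * (e + |s 1 * x 1 + s d * x d|)))) ≤
      ENNReal.ofReal (N ^ 4 * (1 + 2 * Real.log (1 + 1 / e)) ^ 2) := by
  set L := 1 + 2 * Real.log (1 + 1 / e) with hL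
  have hL0 : 0 ≤ L := by
    have : 0 ≤ Real.log (1 + 1 / e) := Real.log_nonneg (by have := one_div_pos.2 he; linarith)
    linarith
  set a0 : R4 → ℝ≥0∞ := fun x => ENNReal.ofReal (n 0 (x 0) / (e + |s 0 * x 0 + s b * x b|))
  set a1 : R4 → ℝ≥0∞ := fun x => ENNReal.ofReal (n 1 (x 1) / (e + |s 1 * x 1 + s d * x d|))
  set a2 : R4 → ℝ≥0∞ := fun x => ENNReal.ofReal (n 2 (x 2))
  set a3 : R4 → ℝ≥0∞ := fun x => ENNReal.ofReal (n 3 (x 3))
  set m : Fin 4 → R4 → ℝ≥0∞ := fun i x => (Set.Icc (0 : ℝ) 1).indicator 1 (x i)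
  have hmm : ∀ i, Measurable (m i) := fun i =>
    (measurable_one.indicator measurableSet_Icc).comp (measurable_pi_apply i)
  have hn : ∀ j, Measurable fun x : R4 => n j (x j) := fun j =>
    (hm j).comp (measurable_pi_apply j)
  have h0 : Measurable a0 := ((hn 0).div (by fun_prop)).ennreal_ofReal
  have h1 : Measurable a1 := ((hn 1).div (by fun_prop)).ennreal_ofReal
  have h2 : Measurable a2 := (hn 2).ennreal_ofReal
  have h3 : Measurable a3 := (hn 3).ennreal_ofReal
  have e0 : ∀ x : R4, ENNReal.ofReal ((∏ j, n j (x j)) *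
      (1 / ((e + |s 0 * x 0 + s b * x b|) * (e + |s 1 * x 1 + s d * x d|)))) =
      a0 x * (a1 x * (a2 x * a3 x)) := by
    intro x
    have p0 : 0 < e + |s 0 * x 0 + s b * x b| := by positivity
    have p1 : 0 < e + |s 1 * x 1 + s d * x d| := by positivity
    simp only [a0, a1, a2, a3]
    rw [← ENNReal.ofReal_mul (hn0 2 _), ← ENNReal.ofReal_mul (div_nonneg (hn0 1 _) p1.le),
      ← ENNReal.ofReal_mul (div_nonneg (hn0 0 _) p0.le), Fin.prod_univ_four]
    congr 1
    field_simp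
  simp only [e0]
  have s0 := tc_rep 0 (B := ENNReal.ofReal (N * L)) h0 (h1.mul (h2.mul h3))
    (fun x y => by simp [a1, a2, a3, Function.update_of_ne hd0])
    (fun x => by
      simp only [a0, Function.update_self, Function.update_of_ne hb0]
      exact tc_one he (hs 0) hN (hn0 0) (hnN 0) (hm 0) (hI 0))
  have s1 := tc_rep 1 (B := ENNReal.ofReal (N * L)) h1 ((hmm 0).mul (h2.mul h3))
    (fun x y => by simp [m, a2, a3])
    (fun x => by
      simp only [a1, Function.update_self, Function.update_of_ne hd1]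
      exact tc_one he (hs 1) hN (hn0 1) (hnN 1) (hm 1) (hI 1))
  have s2 := tc_rep 2 (B := ENNReal.ofReal N) h2 ((hmm 1).mul ((hmm 0).mul h3))
    (fun x y => by simp [m, a3])
    (fun x => by simpa only [a2, Function.update_self] using hI 2)
  have s3 := tc_rep 3 (B := ENNReal.ofReal N) h3 ((hmm 2).mul ((hmm 1).mul (hmm 0)))
    (fun x y => by simp [m])
    (fun x => by simpa only [a3, Function.update_self] using hI 3)
  simp only [Pi.mul_apply] at s0 s1 s2 s3
  rw [tc_cube, mul_one] at s3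
  have t0 : ∫⁻ x : R4, m 0 x * (a1 x * (a2 x * a3 x)) = ∫⁻ x : R4, a1 x * (m 0 x * (a2 x * a3 x)) :=
    lintegral_congr fun x => by ring
  have t1 : ∫⁻ x : R4, m 1 x * (m 0 x * (a2 x * a3 x)) = ∫⁻ x : R4, a2 x * (m 1 x * (m 0 x * a3 x)) :=
    lintegral_congr fun x => by ring
  have t2 : ∫⁻ x : R4, m 2 x * (m 1 x * (m 0 x * a3 x)) = ∫⁻ x : R4, a3 x * (m 2 x * (m 1 x * m 0 x)) :=
    lintegral_congr fun x => by ring
  refine s0.trans ((mul_le_mul_right (t0.le.trans (s1.trans (mul_le_mul_right (t1.le.trans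
    (s2.trans (mul_le_mul_right (t2.le.trans s3) _))) _))) _).trans (le_of_eq ?_))
  rw [← ENNReal.ofReal_mul hN, ← ENNReal.ofReal_mul (mul_nonneg hN hL0),
    ← ENNReal.ofReal_mul (mul_nonneg hN hL0)]
  congr 1
  ring

/-- the core of TC2 -/
theorem tc_core {e N : ℝ} {n : Fin 4 → ℝ → ℝ} (s : R4) (he : 0 < e) (hs : ∀ j, s j = 1 ∨ s j = -1)
    (hN : 0 ≤ N) (hn0 : ∀ j y, 0 ≤ n j y) (hnN : ∀ j y, n j y ≤ N) (hm : ∀ j, Measurable (n j))
    (hI : ∀ j, ∫⁻ y, ENNReal.ofReal (n j y) ≤ ENNReal.ofReal N) :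
    Integrable (fun x : R4 => (∏ j, n j (x j)) * cm e s x) ∧
      ∫ x : R4, (∏ j, n j (x j)) * cm e s x ≤ 2 * N ^ 4 * (1 + 2 * Real.log (1 + 1 / e)) ^ 2 := by
  have hP : ∀ x : R4, 0 ≤ ∏ j, n j (x j) := fun x => prod_nonneg fun j _ => hn0 j _
  have hPm : Measurable fun x : R4 => ∏ j, n j (x j) :=
    Finset.measurable_prod _ fun j _ => (hm j).comp (measurable_pi_apply j)
  have h0 : ∀ x : R4, 0 ≤ (∏ j, n j (x j)) * cm e s x := fun x =>
    mul_nonneg (hP x) (by unfold cm; positivity)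
  have hM : Measurable fun x : R4 => (∏ j, n j (x j)) * cm e s x :=
    hPm.mul (by unfold cm; fun_prop)
  have hb : ∫⁻ x : R4, ENNReal.ofReal ((∏ j, n j (x j)) * cm e s x) ≤
      ENNReal.ofReal (2 * N ^ 4 * (1 + 2 * Real.log (1 + 1 / e)) ^ 2) := by
    have a := tc_two s 2 3 (by decide) (by decide) (by decide) he hs hN hn0 hnN hm hI
    have b := tc_two s 3 2 (by decide) (by decide) (by decide) he hs hN hn0 hnN hm hI
    have hq : Measurable fun x : R4 => (∏ j, n j (x j)) *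
        (1 / ((e + |s 0 * x 0 + s 2 * x 2|) * (e + |s 1 * x 1 + s 3 * x 3|))) :=
      hPm.mul (by fun_prop)
    refine (lintegral_mono fun x => (congrArg ENNReal.ofReal (mul_add _ _ _)).le.trans
      ENNReal.ofReal_add_le).trans ?_
    rw [lintegral_add_left hq.ennreal_ofReal]
    refine (add_le_add a b).trans (le_of_eq ?_)
    rw [← ENNReal.ofReal_add (by positivity) (by positivity)]
    congr 1
    ring
  have hi : Integrable fun x : R4 => (∏ j, n j (x j)) * cm e s x :=
    ⟨hM.aestronglyMeasurable, (hasFiniteIntegral_iff_ofReal (Filter.Eventually.of_forall h0)).2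
      (hb.trans_lt ENNReal.ofReal_lt_top)⟩
  refine ⟨hi, ?_⟩
  rw [← ofReal_integral_eq_lintegral_ofReal hi (Filter.Eventually.of_forall h0)] at hb
  exact (ENNReal.ofReal_le_ofReal_iff (by positivity)).1 hb

theorem tc_exp (c : ℝ) : ∫⁻ y : ℝ, ENNReal.ofReal (Real.exp (-|y - c|)) ≤ ENNReal.ofReal 2 := by
  rw [lintegral_sub_right_eq_self (fun y : ℝ => ENNReal.ofReal (Real.exp (-|y|))) c]
  have h1 : IntegrableOn (fun x : ℝ => Real.exp (-x)) (Set.Ioi 0) := integrableOn_exp_neg_Ioi 0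
  have hi : Integrable fun y : ℝ => Real.exp (-|y|) := by
    have h2 : IntegrableOn (fun y : ℝ => Real.exp (-|y|)) (Set.Ioi 0) :=
      h1.congr_fun (fun y hy => by simp only [abs_of_pos (Set.mem_Ioi.1 hy)]) measurableSet_Ioi
    have h3 : IntegrableOn (fun y : ℝ => Real.exp (-|y|)) (Set.Iic 0) :=
      (integrableOn_exp_Iic 0).congr_fun
        (fun y hy => by simp only [abs_of_nonpos (Set.mem_Iic.1 hy), neg_neg]) measurableSet_Iic
    rw [← integrableOn_univ, ← Set.Iic_union_Ioi (a := (0 : ℝ))]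
    exact h3.union h2
  rw [← ofReal_integral_eq_lintegral_ofReal hi (.of_forall fun _ => (Real.exp_pos _).le),
    integral_comp_abs (f := fun x => Real.exp (-x)), integral_exp_neg_Ioi_zero, mul_one]

theorem pTC4 : TC4 := by
  refine ⟨800, by norm_num, fun ε c s h0 h1 hs => ?_⟩
  have := tc_core (N := 2) (n := fun j y => Real.exp (-|y - c j|)) s h0 hs (by norm_num)
    (fun _ _ => (Real.exp_pos _).le)
    (fun j y => (Real.exp_le_one_iff.2 (by simp)).trans (by norm_num))
    (fun j => by fun_prop) fun j => tc_exp (c j)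
  refine ⟨this.1, this.2.trans ?_⟩
  have a : 100 ≤ 1 / ε := by rw [le_div_iff₀ h0]; linarith
  have b : 1 ≤ Real.log (1 / ε) := by
    rw [Real.le_log_iff_exp_le (by linarith)]
    linarith [Real.exp_one_lt_d9]
  have d : Real.log (1 + 1 / ε) ≤ 2 * Real.log (1 / ε) := by
    rw [two_mul, ← Real.log_mul (by linarith) (by linarith)]
    exact Real.log_le_log (by linarith) (by nlinarith)
  have e : 0 ≤ Real.log (1 + 1 / ε) := Real.log_nonneg (by linarith)
  have f : (1 + 2 * Real.log (1 + 1 / ε)) ^ 2 ≤ (5 * Real.log (1 / ε)) ^ 2 :=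
    pow_le_pow_left₀ (by linarith) (by linarith) 2
  nlinarith

end Pool.Agent.Q4
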