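import Pool.Agent.P.MP_ea46f5_nt.Q4.S4
import Pool.Agent.P.MP_ea46f5_nt.Q4.TailB

/-! The diagonal term of the exact part. -/

namespace Pool.Agent.Q4

open Complex MeasureTheory Finset Pool.Agent.QM
open scoped Real

theorem td_exp (w : ℂ) (h : w.re ≤ 1) : ‖cexp w‖ ≤ 3 ∧ ‖cexp w - 1‖ ≤ 4 * ‖w‖ := by
  have h1 : ‖cexp w‖ ≤ 3 := by
    rw [Complex.norm_exp]
    exact (Real.exp_le_exp.2 h).trans (by linarith [Real.exp_one_lt_d9])
  refine ⟨h1, ?_⟩
  rcases le_total ‖w‖ 1 with h2 | h2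
  · linarith [Complex.norm_exp_sub_one_le h2, norm_nonneg w]
  · have := norm_sub_le (cexp w) 1
    rw [norm_one] at this
    linarith

theorem td_cont {c : R4} {G : V4 → ℂ} (h : ∀ t, DifferentiableAt ℂ G (pt c t)) :
    Continuous fun t => G (pt c t) := by
  have hc : Continuous (pt c) := by unfold pt; fun_prop
  exact continuous_iff_continuousAt.2 fun t => (h t).continuousAt.comp hc.continuousAt

theorem td_v {u : V4} {ε : ℝ} (h0 : 0 < ε) (h1 : ε ≤ 1 / 100) (hu : ∀ j, (u j).re = ε) :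
    (1 + us u).re = 1 + 2 * ε ∧ ‖1 + us u‖ ^ 2 ≤ 9 * gn 2 u := by
  refine ⟨by rw [add_re, tw_usre, Fin.sum_univ_four]; simp [hu]; ring, ?_⟩
  have hb := fun j => tk2_br1 (u j).im
  have a1 : ∀ j, ‖u j‖ ≤ ∏ i, br (u i).im := fun j => by
    have := tw_nrm (u := u j) (c := 1) le_rfl (by rw [hu, abs_le]; constructor <;> linarith)
    rw [one_mul] at this
    exact this.trans (tw_single _ hb j)
  have a2 := tw_one univ _ hb
  have a3 : ‖us u‖ ≤ 2 * ∏ i, br (u i).im := by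
    unfold us
    rw [norm_div, Complex.norm_ofNat, div_le_iff₀ (by norm_num)]
    refine (norm_sum_le _ _).trans ?_
    rw [Fin.sum_univ_four]
    linarith [a1 0, a1 1, a1 2, a1 3]
  have a4 := norm_add_le 1 (us u)
  rw [norm_one] at a4
  have a5 : ‖1 + us u‖ ≤ 3 * ∏ i, br (u i).im := by linarith
  refine (pow_le_pow_left₀ (norm_nonneg _) a5 2).trans (le_of_eq ?_)
  unfold gn
  rw [prod_pow]
  ring

theorem td_alg {a e f h i : ℂ} {A P Q D L η G C Y : ℝ} (hA : 0 ≤ A) (hP : 0 ≤ P) (hC : 0 ≤ C)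
    (hY : 1 ≤ Y) (hD : 1 ≤ D) (hG : 1 ≤ G) (ha : ‖a‖ ≤ A * P) (hPL : P ≤ L) (hPQ : P * Q = 1)
    (he : ‖e‖ ≤ 3) (he1 : ‖e - 1‖ ≤ 36 * η * G) (hf : ‖f‖ ≤ D * Q) (hh : ‖h - i‖ ≤ C / Y)
    (hi : ‖i‖ ≤ C) (hη : 0 ≤ η) :
    ‖a * (e * (1 - f) * h - i)‖ ≤ 72 * C * (D + η * (L * D) + L / Y) * (A * G) := by
  have h1 : ‖h‖ ≤ 2 * C := by
    have := norm_add_le (h - i) i
    rw [sub_add_cancel] at this
    linarith [div_le_self hC hY]
  have hL : 0 ≤ L := hP.trans hPL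
  have hf0 := (norm_nonneg _).trans hf
  have e1 : e * (1 - f) * h - i = (e - 1) * h + (h - i) - e * f * h := by ring
  have h2 : ‖e * (1 - f) * h - i‖ ≤ 36 * η * G * (2 * C) + C / Y + 3 * (D * Q) * (2 * C) := by
    rw [e1]
    refine (norm_sub_le _ _).trans (add_le_add ((norm_add_le _ _).trans (add_le_add ?_ hh)) ?_)
    · rw [norm_mul]; gcongr
    · rw [norm_mul, norm_mul]; gcongr
  have h3 : P * (36 * η * G * (2 * C) + C / Y + 3 * (D * Q) * (2 * C)) ≤
      72 * C * (D + η * (L * D) + L / Y) * G := by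
    have b1 : P * (36 * η * G * (2 * C)) ≤ 72 * C * (η * (L * D)) * G := by
      have : P ≤ L * D := hPL.trans (le_mul_of_one_le_right hL hD)
      calc _ = 72 * C * (η * P) * G := by ring
        _ ≤ _ := by gcongr
    have b2 : P * (C / Y) ≤ 72 * C * (L / Y) * G := by
      calc _ = 1 * C * (P / Y) * 1 := by ring
        _ ≤ _ := by gcongr; norm_num
    have b3 : P * (3 * (D * Q) * (2 * C)) ≤ 72 * C * D * G := by
      calc _ = 6 * C * D * (P * Q) := by ring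
        _ ≤ _ := by rw [hPQ]; gcongr; norm_num
    nlinarith
  rw [norm_mul]
  calc _ ≤ A * P * (36 * η * G * (2 * C) + C / Y + 3 * (D * Q) * (2 * C)) := by gcongr
    _ = A * (P * (36 * η * G * (2 * C) + C / Y + 3 * (D * Q) * (2 * C))) := by ring
    _ ≤ A * (72 * C * (D + η * (L * D) + L / Y) * G) := mul_le_mul_of_nonneg_left h3 hA
    _ = _ := by ring

theorem td_dn (n m : ℕ) (u : V4) : gn m u * dn (n + m) u = dn n u ∧ dn (n + m) u ≤ dn n u ∧
    0 < dn n u ∧ 1 ≤ gn n u ∧ dn 2 u = dk u := by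
  have hb := fun j => tk2_br0 (u j).im
  have h0 : ∀ n, 0 < dn n u := fun n => prod_pos fun j _ => by have := hb j; positivity
  have h1 : ∀ n, 1 ≤ gn n u := fun n => tw_one _ _ fun j => one_le_pow₀ (tk2_br1 _)
  have h2 : gn m u * dn (n + m) u = dn n u := by
    unfold gn dn
    rw [← prod_mul_distrib]
    exact prod_congr rfl fun j _ => by have := hb j; rw [pow_add]; field_simp
  exact ⟨h2, h2 ▸ le_mul_of_one_le_left (h0 _).le (h1 m), h0 n, h1 n, rfl⟩

theorem pTDG (hINB : INB) (hHB4 : HB4) (hZB : ZB) (hDG : DG) (hWRB : WRB) (hOMB : OMB) : TDG := by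
  intro g C₀ hg
  obtain ⟨n, hD⟩ := hDG
  obtain ⟨Co, Bo, hCo, hO⟩ := hOMB g C₀ n hg
  obtain ⟨Cw, hCw, hW⟩ := hWRB g C₀ (2 + 2) hg
  obtain ⟨Ch, Bh, hCh, hH⟩ := hHB4
  obtain ⟨_, _, _, hZ, -⟩ := hZB
  have hE := Real.exp_pos 2
  refine ⟨16 * (72 * Ch * (Real.exp 2 * Cw)), by positivity, fun γ c Δ η X Y hP => ?_⟩
  have hO' := fun ε w u => hO γ c Δ η X ε Y w u hP
  obtain ⟨hγ, c1, c4, D1, h0, h1, X1, XL, Y1⟩ := hP
  obtain ⟨-, hW1, hcF, hhf, hus, hW2⟩ := hW γ hγ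
  obtain ⟨-, hH1, -, hH2, hH3⟩ := hH Y
  have hX : 0 < X := by linarith
  have eX : X ^ (1 + 2 * (1 / Real.log X)) = Real.exp 2 * X := by
    rw [Real.rpow_add hX, Real.rpow_one, Real.rpow_def_of_pos hX, mul_comm]
    congr 2
    field_simp
  generalize Real.log X = L at *
  have hL : 0 < L := by linarith
  have e0 : 0 < 1 / L := by positivity
  have e1 : 1 / L ≤ 1 / 100 := one_div_le_one_div_of_le (by norm_num) XL
  have eL : L = 1 / (1 / L) := by field_simp
  generalize 1 / L = ε at *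
  have hO1 := fun u (hu : u ∈ Bx ε 12) => hO' ε 1 u e0 ⟨by simp; norm_num, by simp⟩ hu (by
    rw [add_re, tw_usre, Fin.sum_univ_four, one_re]
    linarith [(tw_bx hu 0).1, (tw_bx hu 1).1, (tw_bx hu 2).1, (tw_bx hu 3).1])
  have hdn := fun n u => (td_dn n 0 u).2.2.1
  rw [hD Y (fun u => Om g γ c Δ η X 1 u / 8) ε (Co * (Δ / (η * min ε 1)) ^ Bo * X ^ (25 : ℝ)) e0
    (by linarith) (fun u hu => ((hO1 u hu).2.2.1.comp u
      ((differentiableAt_const _).prodMk differentiableAt_id)).mul_const (8 : ℂ)⁻¹) fun u hu => by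
      have a1 := (hO1 u hu).2.2.2.2.2
      have a2 : X ^ (1 + us u).re ≤ X ^ (25 : ℝ) := Real.rpow_le_rpow_of_exponent_le X1 (by
        rw [add_re, tw_usre, Fin.sum_univ_four, one_re]
        linarith [(tw_bx hu 0).2, (tw_bx hu 1).2, (tw_bx hu 2).2, (tw_bx hu 3).2])
      have a3 : Real.exp (-Δ * ε) ≤ 1 := Real.exp_le_one_iff.2 (by nlinarith)
      have a4 : br (1 : ℂ).im ^ n = 1 := by simp [br]
      have a5 := hdn n u
      have a6 : 0 < min ε 1 := lt_min e0 one_pos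
      rw [a4, div_one] at a1
      rw [norm_div, Complex.norm_ofNat]
      refine (div_le_self (norm_nonneg _) (by norm_num)).trans (a1.trans ?_)
      calc _ ≤ Co * (Δ / (η * min ε 1)) ^ Bo * X ^ (25 : ℝ) * 1 * dn n u := by gcongr
        _ = _ := by ring]
  have hr : ∀ (t : R4) j, (pt (cs ε) t j).re = ε := fun t j => by simp [pt, cs]
  have hv := fun t => td_v e0 e1 (hr t)
  have hv1 : ∀ t, 1 ≤ ‖1 + us (pt (cs ε) t)‖ := fun t =>
    le_trans (by rw [(hv t).1]; linarith) (Complex.re_le_norm _)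
  have hv0 : ∀ t, 1 + us (pt (cs ε) t) ≠ 0 := fun t => norm_pos_iff.1 (by linarith [hv1 t])
  have hp : ∀ (t : R4) j, 0 < (pt (cs ε) t j).re := fun t j => by rw [hr]; exact e0
  have hb : ∀ t : R4, pt (cs ε) t ∈ Bx ε 12 := fun t j =>
    ⟨(hr t j).ge, (hr t j).le.trans (by simp only [cs]; linarith)⟩
  obtain ⟨a, ha⟩ : ∃ a : V4 → ℂ, a = fun u =>
    (X : ℂ) ^ (1 + us u) / (1 + us u) * (W4 g γ u * ZO u) := ⟨_, rfl⟩
  obtain ⟨e, he⟩ : ∃ e : V4 → ℂ, e = fun u => cexp (η ^ 2 * (1 + us u) ^ 2) := ⟨_, rfl⟩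
  have ca : Continuous fun t => a (pt (cs ε) t) := td_cont fun t => by
    rw [ha]
    have b1 : DifferentiableAt ℂ (fun u => 1 + us u) (pt (cs ε) t) := (hus _).const_add 1
    have b2 : DifferentiableAt ℂ (fun u => (X : ℂ) ^ (1 + us u)) (pt (cs ε) t) :=
      b1.const_cpow (Or.inl (by exact_mod_cast hX.ne'))
    exact (b2.mul (b1.inv (hv0 t))).mul (((hW1 _ (hp t)).mul (hhf _)).mul (hZ _ (hp t)))
  have ce : Continuous fun t => e (pt (cs ε) t) := td_cont fun t => by rw [he]; fun_prop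
  have cf : Continuous fun t => cF Δ (pt (cs ε) t) := td_cont fun t => hcF Δ _
  have ch : Continuous fun t => Hone Y 0 (pt (cs ε) t) := td_cont fun t =>
    (hH1 (0, pt (cs ε) t) ⟨by simp, by simp, fun j => by
      simp only [sub_zero, hr]; constructor <;> linarith⟩).comp (pt (cs ε) t)
      ((differentiableAt_const _).prodMk differentiableAt_id)
  have ci : Continuous fun t => HI (pt (cs ε) t) :=
    hH3.comp_continuous (by unfold pt; fun_prop) fun t j => (hp t j).le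
  have na : ∀ t, ‖a (pt (cs ε) t)‖ ≤ Real.exp 2 * X * Cw * dn (2 + 2) (pt (cs ε) t) *
      ∏ j, 1 / ‖pt (cs ε) t j‖ ^ 8 := fun t => by
    have b1 := (hW2 ε Δ e0 D1 _ (hb t)).2.2.2.2.1
    have b2 : ‖(X : ℂ) ^ (1 + us (pt (cs ε) t)) / (1 + us (pt (cs ε) t))‖ ≤ Real.exp 2 * X := by
      rw [norm_div, tw_npow hX, (hv t).1, eX]
      exact div_le_self (by positivity) (hv1 t)
    rw [ha]
    simp only
    rw [norm_mul]
    exact (mul_le_mul b2 b1 (norm_nonneg _) (by positivity)).trans (le_of_eq (by ring))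
  have hn : ∀ (t : R4) j, ε ≤ ‖pt (cs ε) t j‖ := fun t j => (hr t j).ge.trans (Complex.re_le_norm _)
  have nP : ∀ t : R4, ∏ j, 1 / ‖pt (cs ε) t j‖ ^ 8 ≤ L ^ 32 := fun t => by
    refine (prod_le_prod (g := fun _ => L ^ 8) (fun _ _ => by positivity) fun j _ => ?_).trans
      (le_of_eq ?_)
    · have := hn t j
      rw [eL, one_div_pow]
      gcongr
    · rw [prod_const, card_univ, Fintype.card_fin, ← pow_mul]
  have hY : (1 : ℝ) ≤ √(Y : ℝ) := Real.one_le_sqrt.2 (by exact_mod_cast Y1)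
  have hHt := fun t : R4 => hH2 Y1 (pt (cs ε) t) fun j => (hp t j).le
  have cD : Continuous fun t => a (pt (cs ε) t) * (e (pt (cs ε) t) * (1 - cF Δ (pt (cs ε) t)) *
      Hone Y 0 (pt (cs ε) t) - HI (pt (cs ε) t)) :=
    ca.fun_mul (((ce.fun_mul (continuous_const.fun_sub cf)).fun_mul ch).fun_sub ci)
  have cB : Continuous fun t => a (pt (cs ε) t) * HI (pt (cs ε) t) := ca.fun_mul ci
  obtain ⟨iD, nD⟩ := hINB 4 (cs ε)
    (72 * Ch * (Δ ^ 32 + η ^ 2 * (L ^ 32 * Δ ^ 32) + L ^ 32 / √(Y : ℝ)) * (Real.exp 2 * X * Cw))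
    (fun u => a u * (e u * (1 - cF Δ u) * Hone Y 0 u - HI u)) cD fun t => by
      obtain ⟨b1, -, -, -, b2⟩ := td_dn 2 2 (pt (cs ε) t)
      have b3 := hdn (2 + 2) (pt (cs ε) t)
      obtain ⟨b4, b5⟩ := td_exp (η ^ 2 * (1 + us (pt (cs ε) t)) ^ 2) (by
        have b6 := (hv t).1
        generalize 1 + us (pt (cs ε) t) = v at b6
        have b7 : ((η : ℂ) ^ 2 * v ^ 2).re = η ^ 2 * (v.re ^ 2 - v.im ^ 2) := by
          rw [← ofReal_pow, re_ofReal_mul, sq v, mul_re, ← sq, ← sq]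
        have b8 : v.re ^ 2 - v.im ^ 2 ≤ 4 := by rw [b6]; nlinarith [sq_nonneg v.im]
        have b9 : η ^ 2 ≤ 1 / 900 := by nlinarith
        rw [b7]
        nlinarith [sq_nonneg η])
      refine (td_alg (η := η ^ 2) (G := gn 2 (pt (cs ε) t)) (by positivity)
        (prod_nonneg fun _ _ => by positivity) hCh.le hY (one_le_pow₀ D1)
        (td_dn 2 0 _).2.2.2.1 (na t) (nP t) ?_ (by rw [he]; exact b4) ?_
        (hW2 ε Δ e0 D1 _ (hb t)).2.2.2.2.2 (hHt t).1 (hHt t).2 (sq_nonneg η)).trans (le_of_eq ?_)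
      · rw [← prod_mul_distrib]
        exact prod_eq_one fun j _ => by
          have := e0.trans_le (hn t j)
          field_simp
      · rw [he]
        refine b5.trans ?_
        rw [norm_mul, norm_pow, norm_pow, Complex.norm_real, Real.norm_of_nonneg h0.le]
        nlinarith [mul_le_mul_of_nonneg_left (hv t).2 (sq_nonneg η)]
      · rw [← b2, ← b1]; ring
  obtain ⟨iB, -⟩ := hINB 4 (cs ε) (Real.exp 2 * X * Cw * L ^ 32 * Ch) (fun u => a u * HI u)
    cB fun t => by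
      obtain ⟨-, b1, b3, -, b2⟩ := td_dn 2 2 (pt (cs ε) t)
      have b4 := nP t
      have b5 : 0 ≤ ∏ j, 1 / ‖pt (cs ε) t j‖ ^ 8 := prod_nonneg fun _ _ => by positivity
      have b6 := (hHt t).2
      rw [norm_mul, ← b2]
      calc _ ≤ Real.exp 2 * X * Cw * dn 2 (pt (cs ε) t) * L ^ 32 * Ch :=
            mul_le_mul ((na t).trans (mul_le_mul (mul_le_mul_of_nonneg_left b1 (by positivity)) b4 b5
              (by positivity))) b6 (norm_nonneg _) (by positivity)
        _ = _ := by ring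
  have q1 : MC g γ ε X = In (cs ε) fun u => a u * HI u := by
    unfold MC
    congr 1
    funext u
    rw [ha]
    ring
  have q2 : In (cs ε) (fun u => Om g γ c Δ η X 1 u / 8 * (ZO u * Hone Y 0 u)) =
      1 / (8 * c) * (In (cs ε) (fun u => a u * (e u * (1 - cF Δ u) * Hone Y 0 u - HI u)) +
        In (cs ε) fun u => a u * HI u) := by
    unfold In
    rw [← integral_add iD iB, ← integral_const_mul]
    congr 1
    funext t
    rw [ha, he]
    simp only [Om, Ow, W4, rho, Complex.cpow_neg_one]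
    ring
  rw [q1, q2, mul_add, add_sub_cancel_right, norm_mul]
  have q3 : ‖(1 / (8 * c) : ℂ)‖ ≤ 1 := by
    rw [norm_div, norm_one, norm_mul, Complex.norm_ofNat, Complex.norm_real,
      Real.norm_of_nonneg (by linarith)]
    exact div_le_one_of_le₀ (by linarith) (by linarith)
  refine (mul_le_of_le_one_left (norm_nonneg _) q3).trans (nD.trans (le_of_eq ?_))
  ring

end Pool.Agent.Q4
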