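import Pool.Agent.P.MP_ea46f5_nt.Q4.S4
import Pool.Agent.P.MP_ea46f5_nt.Q4.FSDn

namespace Pool.Agent.Q4

open Complex MeasureTheory Finset Pool.Agent.QM
open scoped Real ComplexConjugate

theorem tf_C {E : ℤ → ℂ → ℂ} {C : ℝ} (hK : KA E C) : 0 ≤ C := by
  have := (norm_nonneg _).trans (hK.2.1 1 0 one_ne_zero (by simp) (by simp))
  simpa [br] using this

theorem tf_gn (m : ℕ) (u : V4) : gn m u = gn 1 u ^ m := by simp [gn, prod_pow]

theorem tf_dn (m : ℕ) (u : V4) : dn m u = 1 / gn 1 u ^ m := by simp [gn, dn, prod_pow]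

theorem tf_dk (u : V4) : dk u = 1 / gn 1 u ^ 2 := tf_dn 2 u

theorem tf_br (u : V4) (i : Fin 4) : br (u i).im ≤ gn 1 u := by
  rw [gn, ← mul_prod_erase univ _ (mem_univ i), pow_one]
  exact le_mul_of_one_le_right (sh_br_pos _).le (one_le_prod fun _ _ => one_le_pow₀ (sh_br_one _))

theorem tf_br_sub (t u : ℝ) : br (t - u) ≤ br t * br u := by
  unfold br
  have := abs_sub t u
  nlinarith [abs_nonneg t, abs_nonneg u, mul_nonneg (abs_nonneg t) (abs_nonneg u)]

/-- The factor of the kernel that depends on `z` alone. -/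
theorem tf_E (hZT : ZT) {E : ℤ → ℂ → ℂ} {C : ℝ} (hK : KA E C) {z : ℂ} (h0 : 0 < z.re)
    (h1 : z.re ≤ 1) : DifferentiableAt ℂ (fun z => E 1 z / z * riemannZeta₁ (2 * z) / 2) z ∧
      ‖E 1 z / z * riemannZeta₁ (2 * z) / 2‖ ≤ 4 * C * br z.im ^ 11 * (1 / z.re) := by
  have hC := tf_C hK
  have hn : 0 < ‖z‖ := h0.trans_le (Complex.re_le_norm z)
  have hb := sh_br_one z.im
  constructor
  · refine ((((hK.1 1 one_ne_zero).differentiableAt ?_).div differentiableAt_id
      (norm_pos_iff.1 hn)).mul (by fun_prop)).div_const 2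
    exact (isOpen_lt continuous_const continuous_re).mem_nhds (by show _ < z.re; linarith)
  · have e : (2 * z).re = 2 * z.re := by simp
    have h2 := hZT.1 (2 * z) (by rw [e]; linarith)
    have h3 : 1 ≤ ‖z‖ / z.re := (one_le_div h0).2 (Complex.re_le_norm z)
    rw [e, norm_mul, Complex.norm_two, mul_div_mul_left _ _ two_ne_zero] at h2
    have h5 : ‖(2 * z - 1 : ℂ)‖ ≤ 3 * br z.im := by
      have := Complex.norm_le_abs_re_add_abs_im z
      rw [abs_of_pos h0] at this
      refine (norm_sub_le _ _).trans ?_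
      rw [norm_mul, Complex.norm_two, norm_one, br]
      linarith [abs_nonneg z.im]
    have h4 : ‖riemannZeta₁ (2 * z)‖ ≤ 7 * (br z.im * (‖z‖ / z.re)) := by
      rw [riemannZeta₁]
      refine (norm_add_le _ _).trans ?_
      rw [norm_one, norm_mul]
      have h6 := mul_le_mul h5 (h2.trans (by linarith : _ ≤ 2 * (‖z‖ / z.re))) (norm_nonneg _)
        (by positivity)
      have h7 := one_le_mul_of_one_le_of_one_le hb h3
      linarith
    have h6 := hK.2.1 1 z one_ne_zero (by linarith) (by linarith)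
    rw [norm_div, norm_mul, norm_div, Complex.norm_two]
    calc _ ≤ C * br z.im ^ 10 / ‖z‖ * (7 * (br z.im * (‖z‖ / z.re))) / 2 := by gcongr
      _ = 7 / 2 * C * br z.im ^ 11 * (1 / z.re) := by field_simp
      _ ≤ _ := by gcongr; norm_num

theorem tf_T {γ : ℤ} {c Δ η X : ℝ} {Y : ℕ} (h : Pm γ c Δ η X Y) :
    0 < 1 / Real.log X ∧ 1 / Real.log X ≤ 1 / 100 ∧ Real.log X ≤ Y * Δ * Real.log X / η ∧
      (Y : ℝ) ≤ Y * Δ * Real.log X / η ∧
      Δ / (η * min (1 / Real.log X) 1) ≤ Y * Δ * Real.log X / η := by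
  have h1 := h.XL
  have h2 := h.D1
  have h3 := h.h0
  have h4 := h.h1
  have h5 : (1 : ℝ) ≤ Y := by exact_mod_cast h.Y1
  have h6 : 1 / Real.log X ≤ 1 / 100 := one_div_le_one_div_of_le (by norm_num) h1
  have h7 : 1 ≤ Y * Δ := one_le_mul_of_one_le_of_one_le h5 h2
  have h8 : 1 ≤ Δ * Real.log X := one_le_mul_of_one_le_of_one_le h2 (by linarith)
  refine ⟨by positivity, h6, ?_, ?_, ?_⟩
  · rw [le_div_iff₀ h3]
    nlinarith
  · rw [le_div_iff₀ h3, mul_assoc]
    nlinarith
  · rw [min_eq_left (by linarith), mul_one_div, div_div_eq_mul_div, mul_assoc]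
    exact div_le_div_of_nonneg_right (le_mul_of_one_le_left (by linarith) h5) h3.le

theorem tf_dprod {ι : Type} {s : Finset ι} {f : ι → V4 → ℂ} {x : V4}
    (h : ∀ i ∈ s, DifferentiableAt ℂ (f i) x) :
    DifferentiableAt ℂ (fun y => ∏ i ∈ s, f i y) x := by
  classical
  exact (HasFDerivAt.finsetProd fun i hi => (h i hi).hasFDerivAt).differentiableAt

theorem tf_us (u : V4) : (us u).re = (∑ j, (u j).re) / 2 := by simp [us, re_sum]

theorem pTF0 (hZT : ZT) (hSH4 : SH4) (hVDP : VDP) (hZF : ZF) (hHB4 : HB4) (hZB : ZB)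
    (hOMB : OMB) : TF0 := by
  intro g C₀ C₁ E hg hE
  obtain ⟨CV, N, hCV, -, hV1, -, hV3, -⟩ := hVDP
  obtain ⟨hl1, -, hl3, -, CF, hCF, hl5, -⟩ := hZF
  obtain ⟨CH, BH, hCH, hH⟩ := hHB4
  obtain ⟨CZ, nZ, hCZ, -, hZ2, -, -, hZ5, hZ6⟩ := hZB
  obtain ⟨CO, BO, hCO, hO⟩ := hOMB g C₀ (2 * N + 25 + 2 * nZ) hg
  have hC₁ := tf_C hE
  set C' := CO * CV * (4 * C₁) * CV * 4 * CF ^ 3 * CZ * CH / 2 with hC'
  have hC'0 : 0 ≤ C' := by positivity
  refine ⟨16 * Real.exp 5 * C' + 1, BO + 11 + BH, by positivity, ?_⟩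
  intro γ c Δ η X Y i hP
  obtain ⟨e0, e1, t1, t2, t3⟩ := tf_T hP
  obtain ⟨P, hP1, hP2, hP3⟩ := hV3 i
  obtain ⟨-, H1, H2, -⟩ := hH Y
  have hX : 0 < X := one_pos.trans_le hP.X1
  have hL : 0 < Real.log X := by linarith [hP.XL]
  set ε := 1 / Real.log X with hε
  set T := Y * Δ * Real.log X / η with hT
  have hT0 : 0 < T := hL.trans_le t1
  set G : V4 → ℂ := fun u => O0 g γ c Δ η X (1 - u i) u * P u *
    (E 1 (u i) / u i * riemannZeta₁ (2 * u i) / 2) * hf u / (u i - 1 / 2) *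
      (∏ j ∈ univ.erase i, lz (u j - u i)) * ZR (u i) u * Hone Y (u i) u / 2 with hG
  have hB : ∀ u ∈ Bx ε (1 / 4), ∀ j, ε ≤ (u j).re ∧ (u j).re ≤ 1 / 4 := fun u hu j => hu j
  have hB1 : ∀ u ∈ Bx ε (1 / 4), u ∈ Bx ε 12 := fun u hu j =>
    ⟨(hu j).1, (hB u hu j).2.trans (by norm_num [cs])⟩
  have hB2 : ∀ u ∈ Bx ε (1 / 4), u ∈ Bx (-1) 13 := fun u hu j =>
    ⟨by have := (hB u hu j).1; simp only [cs]; linarith,
      (hB u hu j).2.trans (by norm_num [cs])⟩
  have hB3 : ∀ u ∈ Bx ε (1 / 4), (u i, u) ∈ V1 := fun u hu =>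
    ⟨by show _ < (u i).re; linarith [(hB u hu i).1], by show (u i).re < _; linarith [(hB u hu i).2],
      fun j => by
        simp only [sub_re]
        constructor <;> linarith [(hB u hu j).1, (hB u hu i).2]⟩
  have hB4 : ∀ u ∈ Bx ε (1 / 4), 1 / 4 ≤ (1 - u i + us u).re ∧ (1 - u i + us u).re ≤ 2 :=
    fun u hu => by
      simp only [add_re, sub_re, one_re, tf_us, Fin.sum_univ_four]
      constructor <;> linarith [(hB u hu i).1, (hB u hu i).2, (hB u hu 0).1, (hB u hu 0).2,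
        (hB u hu 1).1, (hB u hu 1).2, (hB u hu 2).1, (hB u hu 2).2, (hB u hu 3).1, (hB u hu 3).2]
  have hO' := fun u hu => hO γ c Δ η X ε Y (1 - u i) u hP e0 (by
    constructor <;> simp only [sub_re, one_re] <;> linarith [(hB u hu i).1, (hB u hu i).2])
    (hB1 u hu) (hB4 u hu).1
  have hE' := fun u hu => tf_E hZT hE (z := u i) (e0.trans_le (hB u hu i).1)
    (by linarith [(hB u hu i).2])
  have hhalf : ∀ u ∈ Bx ε (1 / 4), 1 / 4 ≤ ‖u i - 1 / 2‖ := fun u hu => by
    refine le_trans ?_ (abs_re_le_norm _)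
    rw [le_abs]
    right
    simp only [sub_re, div_ofNat_re, one_re]
    linarith [(hB u hu i).2]
  have hhol : Hol (Bx ε (1 / 4)) G := fun u hu => by
    have a1 : DifferentiableAt ℂ (fun u : V4 => O0 g γ c Δ η X (1 - u i) u) u :=
      (hO' u hu).1.comp u (f := fun u : V4 => (1 - u i, u)) (by fun_prop)
    have a2 : DifferentiableAt ℂ (fun u : V4 =>
        E 1 (u i) / u i * riemannZeta₁ (2 * u i) / 2) u :=
      (hE' u hu).1.comp u (f := fun u : V4 => u i) (by fun_prop)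
    have a3 : DifferentiableAt ℂ hf u := by
      unfold hf
      simp only [Fin.prod_univ_four]
      fun_prop
    have a4 : DifferentiableAt ℂ (fun u : V4 => ∏ j ∈ univ.erase i, lz (u j - u i)) u :=
      tf_dprod fun j _ => (hl1 _).comp u (f := fun u : V4 => u j - u i) (by fun_prop)
    have a5 : DifferentiableAt ℂ (fun u : V4 => ZR (u i) u) u :=
      (hZ2 (u i, u) ⟨e0.le.trans (hB u hu i).1, fun j => e0.trans_le (hB u hu j).1⟩).comp u
        (f := fun u : V4 => (u i, u)) (by fun_prop)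
    have a6 : DifferentiableAt ℂ (fun u : V4 => Hone Y (u i) u) u :=
      (H1 _ (hB3 u hu)).comp u (f := fun u : V4 => (u i, u)) (by fun_prop)
    have a7 : u i - 1 / 2 ≠ 0 := norm_pos_iff.1 (lt_of_lt_of_le (by norm_num) (hhalf u hu))
    have a8 : DifferentiableAt ℂ (fun u : V4 => (u i - 1 / 2)⁻¹) u :=
      DifferentiableAt.inv (h := fun u : V4 => u i - 1 / 2) (by fun_prop) a7
    exact (((((((a1.mul (hP1 u)).mul a2).mul a3).mul a8).mul a4).mul a5).mul a6).mul_const
      (2 : ℂ)⁻¹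
  have hbd : ∀ u ∈ Bx ε (1 / 4), ‖G u‖ ≤
      C' * T ^ (BO + 11 + BH) * X ^ (1 - u i + us u).re * dk u := fun u hu => by
    set q := gn 1 u with hq
    have hβ := tf_br u i
    have hβ1 := sh_br_one (u i).im
    have hq1 : 1 ≤ q := hβ1.trans hβ
    have hε' : 1 / ε ≤ T := by rw [hε, one_div_one_div]; exact t1
    have g1 : ‖O0 g γ c Δ η X (1 - u i) u‖ ≤
        CO * T ^ BO * X ^ (1 - u i + us u).re * (1 / q ^ (2 * N + 25 + 2 * nZ)) := by
      refine (hO' u hu).2.2.2.1.trans ?_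
      have b1 : Real.exp (-Δ * ε) ≤ 1 := Real.exp_le_one_iff.2 (by nlinarith [hP.D1])
      have b2 : 1 ≤ br (1 - u i).im ^ (2 * N + 25 + 2 * nZ) := one_le_pow₀ (sh_br_one _)
      have b3 : 0 < min ε 1 := lt_min e0 one_pos
      have b4 := hP.h0
      have b5 := hP.D1
      rw [tf_dn]
      refine mul_le_mul_of_nonneg_right ((div_le_self (by positivity) b2).trans
        ((mul_le_of_le_one_right (by positivity) b1).trans ?_)) (by positivity)
      gcongr
    have g2 : ‖P u‖ ≤ CV * q ^ N := by simpa only [tf_gn N] using hP3 u (hB2 u hu)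
    have g3 : ‖E 1 (u i) / u i * riemannZeta₁ (2 * u i) / 2‖ ≤ 4 * C₁ * q ^ 11 * T := by
      refine (hE' u hu).2.trans ?_
      have b1 := (one_div_le_one_div_of_le e0 (hB u hu i).1).trans hε'
      have b2 := e0.trans_le (hB u hu i).1
      gcongr
    have g4 : ‖hf u‖ ≤ CV * q ^ N := by simpa only [tf_gn N] using (hV1 u (hB2 u hu)).2.2.2
    have g5 : ‖∏ j ∈ univ.erase i, lz (u j - u i)‖ ≤ (CF * q ^ 4) ^ 3 := by
      rw [norm_prod]
      refine (prod_le_prod (g := fun _ => CF * q ^ 4) (fun _ _ => norm_nonneg _)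
        fun j _ => ?_).trans (le_of_eq (by simp))
      refine (hl5 _ (by simp only [sub_re]; linarith [(hB u hu j).1, (hB u hu i).2])
        (by simp only [sub_re]; linarith [(hB u hu j).2, (hB u hu i).1])).trans ?_
      have b1 : br (u j - u i).im ≤ q ^ 2 := by
        rw [sub_im, sq]
        exact (tf_br_sub _ _).trans (mul_le_mul (tf_br u j) hβ (by linarith) (by linarith))
      have b2 := sh_br_pos (u j - u i).im
      rw [show q ^ 4 = (q ^ 2) ^ 2 by ring]
      gcongr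
    have g6 : ‖ZR (u i) u‖ ≤ CZ * q ^ nZ * q ^ nZ * T ^ 10 := by
      refine ((hZ5 ε e0 (by linarith) u (hB1 u hu)).2 (u i)
        ⟨e0.le.trans (hB u hu i).1, by linarith [(hB u hu i).2]⟩).trans ?_
      rw [tf_gn nZ, div_eq_mul_one_div, ← one_div_pow]
      gcongr
    have g7 : ‖Hone Y (u i) u‖ ≤ CH * T ^ BH := (H2 _ (hB3 u hu)).trans (by gcongr)
    have g8 := hhalf u hu
    simp only [hG]
    rw [norm_div, norm_mul, norm_mul, norm_mul, norm_div, norm_mul, norm_mul, norm_mul,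
      Complex.norm_two, tf_dk, ← hq]
    calc _ ≤ CO * T ^ BO * X ^ (1 - u i + us u).re * (1 / q ^ (2 * N + 25 + 2 * nZ)) *
          (CV * q ^ N) * (4 * C₁ * q ^ 11 * T) * (CV * q ^ N) / (1 / 4) * (CF * q ^ 4) ^ 3 *
          (CZ * q ^ nZ * q ^ nZ * T ^ 10) * (CH * T ^ BH) / 2 := by gcongr
      _ = _ := by
          rw [hC']
          field_simp
          ring
  have hr : ∀ j, ε ≤ rl ε j ∧ rl ε j ≤ 1 / 4 := fun j => by
    have b1 : (0 : ℝ) ≤ (j : ℕ) := Nat.cast_nonneg _
    have b2 : ((j : ℕ) : ℝ) ≤ 3 := by exact_mod_cast Nat.le_of_lt_succ j.2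
    unfold rl
    constructor <;> nlinarith
  have hr' : ∀ j, ε ≤ Function.update (rl ε) i (1 / 4) j ∧
      Function.update (rl ε) i (1 / 4) j ≤ 1 / 4 := fun j => by
    by_cases h : j = i
    · rw [h, Function.update_self]
      exact ⟨by linarith, le_rfl⟩
    · rw [Function.update_of_ne h]
      exact hr j
  have a1 : In (rl ε) (Fl (fun z u => Ow g γ c Δ η X (1 - z) u *
      (E 1 z / z * riemannZeta₁ (2 * z) / 2)) (Hone Y) i) = In (rl ε) G := by
    unfold In
    congr 1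
    funext t
    set u := pt (rl ε) t with hu
    have b1 : (∏ j ∈ univ.erase i, lz (u j - u i)) = (∏ j ∈ univ.erase i, (u j - u i)) *
        ∏ j ∈ univ.erase i, Lo 1 (1 + (u j - u i)) := by
      rw [← prod_mul_distrib]
      refine prod_congr rfl fun j hj => ?_
      have b2 : u j - u i ≠ 0 := fun h => by
        have b3 := congrArg re h
        simp only [hu, sub_re, pt_re, zero_re, rl, ← sub_mul, mul_eq_zero, e0.ne', or_false,
          add_sub_add_right_eq_sub, sub_eq_zero, Nat.cast_inj] at b3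
        exact (ne_of_mem_erase hj) (Fin.ext b3)
      rw [hl3 _ b2, mul_div_cancel₀ _ b2]
    have b2 := (hZ6 u fun j => by rw [hu, pt_re]; exact e0.trans_le (hr j).1).2 i
    simp only [hG, Fl, FZ, Ow, O0, Wr]
    rw [b1, b2, hP2 u]
    ring
  have a2 := (hSH4.1 ε (1 / 4) (C' * T ^ (BO + 11 + BH) * X ^ (2 : ℝ)) (rl ε)
    (Function.update (rl ε) i (1 / 4)) G hr hr' hhol fun u hu => (hbd u hu).trans (by
      have b1 := Real.rpow_le_rpow_of_exponent_le hP.X1 (hB4 u hu).2
      have b2 := dk_pos u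
      show _ ≤ _ * dk u
      gcongr)).1
  have a3 : ∀ t : R4, ‖G (pt (Function.update (rl ε) i (1 / 4)) t)‖ ≤
      C' * T ^ (BO + 11 + BH) * (Real.exp 5 * X ^ (9 / 10 : ℝ)) * ∏ j, 1 / br (t j) ^ 2 :=
    fun t => by
      set u := pt (Function.update (rl ε) i (1 / 4)) t with hu
      have b1 : (1 - u i + us u).re ≤ 5 * ε + 9 / 10 := by
        simp only [add_re, sub_re, one_re, tf_us, hu, pt_re, Function.update_self]
        rw [sum_update_of_mem (mem_univ i)]
        have b2 : ∑ j ∈ univ \ {i}, rl ε j ≤ ∑ j, rl ε j :=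
          sum_le_sum_of_subset_of_nonneg (subset_univ _) fun j _ _ => e0.le.trans (hr j).1
        have b3 : ∑ j, rl ε j = 10 * ε := by
          simp [rl, Fin.sum_univ_four]
          ring
        linarith
      have b2 : X ^ (1 - u i + us u).re ≤ Real.exp 5 * X ^ (9 / 10 : ℝ) := by
        refine (Real.rpow_le_rpow_of_exponent_le hP.X1 b1).trans (le_of_eq ?_)
        rw [Real.rpow_add hX, Real.rpow_def_of_pos hX, hε]
        congr 2
        field_simp
      refine (hbd u fun j => by rw [hu, pt_re]; exact hr' j).trans ?_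
      have b3 := dk_pos u
      rw [← dk_pt, ← hu]
      gcongr
  have a4 := norm_integral_le_of_norm_le (dk_int.const_mul _) (Filter.Eventually.of_forall a3)
  rw [integral_const_mul] at a4
  have a5 := dk_integral (n := 4)
  rw [a1, a2]
  calc _ ≤ C' * T ^ (BO + 11 + BH) * (Real.exp 5 * X ^ (9 / 10 : ℝ)) * 2 ^ 4 :=
        a4.trans (mul_le_mul_of_nonneg_left a5 (by positivity))
    _ = 16 * Real.exp 5 * C' * T ^ (BO + 11 + BH) * X ^ (9 / 10 : ℝ) := by ring
    _ ≤ _ := by gcongr; linarith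

theorem pTF1 (hZT : ZT) (hHB4 : HB4) (hK1 : K1) (hOMB : OMB) (hTF0 : TF0) : TF1 := by
  intro g C₀ C₁ E hg hE
  obtain ⟨CH, BH, hCH, hH⟩ := hHB4
  obtain ⟨n, CK, hCK, hK⟩ := hK1
  obtain ⟨CO, BO, hCO, hO⟩ := hOMB g C₀ (n + 11) hg
  obtain ⟨CT, BT, hCT, hF⟩ := hTF0 g C₀ C₁ E hg hE
  have hC₁ := tf_C hE
  refine ⟨CK * (CO * (8 * C₁)) * CH + 4 * CT, BO + 11 + BH + BT, by positivity, ?_⟩
  intro γ c Δ η X Y hP
  obtain ⟨e0, e1, t1, t2, t3⟩ := tf_T hP
  obtain ⟨-, H1, H2, -⟩ := hH Y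
  have hX : 0 < X := one_pos.trans_le hP.X1
  have hL : 0 < Real.log X := by linarith [hP.XL]
  have hF' := fun i => hF γ c Δ η X Y i hP
  set ε := 1 / Real.log X with hε
  set T := Y * Δ * Real.log X / η with hT
  have hT1 : 1 ≤ T := by linarith [hP.XL]
  have hε' : 1 / ε ≤ T := by rw [hε, one_div_one_div]; exact t1
  have hre : ∀ x ∈ R1 ε, 0 ≤ ∑ j, (x.2 j).re := fun x hx =>
    sum_nonneg fun j _ => e0.le.trans (hx.2 j).1
  have hO' := fun (x : ℂ × V4) (hx : x ∈ R1 ε) => hO γ c Δ η X ε Y (1 - x.1) x.2 hP e0 (by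
    constructor <;> simp only [sub_re, one_re] <;> linarith [hx.1.1, hx.1.2]) hx.2 (by
    simp only [add_re, sub_re, one_re, tf_us]
    linarith [hx.1.2, hre x hx])
  have hE' := fun (x : ℂ × V4) (hx : x ∈ R1 ε) => tf_E hZT hE (z := x.1)
    (by linarith [hx.1.1]) (by linarith [hx.1.2])
  have h1 := hK Y (KP E (Om g γ c Δ η X)) (fun z u => Ow g γ c Δ η X (1 - z) u *
    (E 1 z / z * riemannZeta₁ (2 * z) / 2)) ε X (CO * (8 * C₁) * T ^ (BO + 1)) (CH * T ^ BH)
    { e0 := e0
      e1 := e1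
      X1 := hP.X1
      eX := by rw [hε, one_div_mul_cancel hL.ne']
      hol := fun x hx => ((hO' x hx).2.1.comp x (f := fun x : ℂ × V4 => (1 - x.1, x.2))
        (by fun_prop)).mul ((hE' x hx).1.comp x (f := fun x : ℂ × V4 => x.1) (by fun_prop))
      bd := fun x hx => by
        have g1 := (hO' x hx).2.2.2.2.1
        have g2 := (hE' x hx).2
        have b0 : br (1 - x.1).im = br x.1.im := by simp [br]
        have b1 : Real.exp (-Δ * ε) ≤ 1 := Real.exp_le_one_iff.2 (by nlinarith [hP.D1])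
        have b2 := sh_br_pos x.1.im
        have b3 : 0 < min ε 1 := lt_min e0 one_pos
        have b4 := hP.h0
        have b5 := hP.D1
        have b6 : X ^ (1 - x.1 + us x.2).re ≤ X ^ (1 - x.1.re + ∑ j, (x.2 j).re) := by
          refine Real.rpow_le_rpow_of_exponent_le hP.X1 ?_
          simp only [add_re, sub_re, one_re, tf_us]
          linarith [hre x hx]
        have b7 : 1 / x.1.re ≤ 2 * T := by
          refine (one_div_le_one_div_of_le (half_pos e0) hx.1.1).trans ?_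
          rw [one_div_div, div_eq_mul_one_div]
          linarith
        have b8 : dn (n + 11) x.2 ≤ dn n x.2 :=
          prod_le_prod (fun j _ => by have := sh_br_pos (x.2 j).im; positivity) fun j _ =>
            one_div_le_one_div_of_le (pow_pos (sh_br_pos _) _)
              (pow_le_pow_right₀ (sh_br_one _) (by omega))
        have b9 : 0 < dn (n + 11) x.2 :=
          prod_pos fun j _ => by have := sh_br_pos (x.2 j).im; positivity
        have b10 : 0 < x.1.re := by linarith [hx.1.1]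
        have b11 := b9.trans_le b8
        rw [b0] at g1
        rw [norm_mul]
        calc _ ≤ CO * T ^ BO * X ^ (1 - x.1.re + ∑ j, (x.2 j).re) * 1 / br x.1.im ^ (n + 11) *
              dn n x.2 * (4 * C₁ * br x.1.im ^ 11 * (2 * T)) :=
              mul_le_mul (g1.trans (by gcongr)) (g2.trans (by gcongr)) (norm_nonneg _)
                (by positivity)
          _ = _ := by
              rw [pow_add, pow_add]
              field_simp
              ring
      hH := H1
      bH := fun x hx => (H2 x hx).trans (by gcongr) }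
    (fun z u hz => by
      have b1 : 2 * z ≠ 1 := fun h => by
        have := congrArg re h
        simp [hz] at this
        norm_num at this
      have b2 : z - 1 / 2 ≠ 0 := fun h => b1 (by linear_combination 2 * h)
      rw [KP, Kd, Om, riemannZeta_eq_inv_sub_mul b1, show 2 * z - 1 = 2 * (z - 1 / 2) by ring]
      simp only [Int.cast_one, abs_one, ofReal_one, one_cpow]
      field_simp)
  have h2 := (norm_sum_le _ _).trans (sum_le_sum (s := univ) fun i _ => hF' i)
  simp only [sum_const, card_univ, Fintype.card_fin, nsmul_eq_mul, Nat.cast_ofNat] at h2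
  have h3 := (norm_le_norm_sub_add _ _).trans (add_le_add h1 h2)
  refine h3.trans ?_
  have h4 : T ^ (BO + 1) * T ^ BH * (1 / ε) ^ 10 ≤ T ^ (BO + 11 + BH + BT) :=
    calc _ ≤ T ^ (BO + 1) * T ^ BH * T ^ 10 := by gcongr
      _ = T ^ (BO + 11 + BH) := by ring
      _ ≤ _ := pow_le_pow_right₀ hT1 (by omega)
  have h5 : T ^ BT ≤ T ^ (BO + 11 + BH + BT) := pow_le_pow_right₀ hT1 (by omega)
  calc _ = CK * (CO * (8 * C₁)) * CH * (T ^ (BO + 1) * T ^ BH * (1 / ε) ^ 10) * X ^ (9 / 10 : ℝ) +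
        4 * CT * T ^ BT * X ^ (9 / 10 : ℝ) := by ring
    _ ≤ CK * (CO * (8 * C₁)) * CH * T ^ (BO + 11 + BH + BT) * X ^ (9 / 10 : ℝ) +
        4 * CT * T ^ (BO + 11 + BH + BT) * X ^ (9 / 10 : ℝ) := by gcongr
    _ = _ := by ring

end Pool.Agent.Q4
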