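import Pool.Agent.P.MP_ea46f5_nt.Q4.S4

/-! The cut-off `th8` and the weight `g1`. -/

namespace Pool.Agent.Q4

open Complex MeasureTheory Finset Pool.Agent.QM
open scoped Real ComplexConjugate

theorem th8_eq (z : ℂ) : th8 z = cexp (-z) * (1 + z + z ^ 2 / 2 + z ^ 3 / 6 + z ^ 4 / 24 +
    z ^ 5 / 120 + z ^ 6 / 720 + z ^ 7 / 5040) := by
  simp [th8, sum_range_succ, Nat.factorial]

theorem th8_diff : Differentiable ℂ th8 := by
  rw [funext th8_eq]
  fun_prop

theorem th8_der (w : ℂ) : HasDerivAt th8 (-(cexp (-w) * w ^ 7 / 5040)) w := by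
  rw [funext th8_eq]
  have p := fun n : ℕ => hasDerivAt_pow n w
  have h := (hasDerivAt_neg w).cexp.mul ((((((((hasDerivAt_id w).const_add 1).add
    ((p 2).div_const 2)).add ((p 3).div_const 6)).add ((p 4).div_const 24)).add
    ((p 5).div_const 120)).add ((p 6).div_const 720)).add ((p 7).div_const 5040))
  refine h.congr_deriv ?_
  simp only [Pi.add_apply, id]
  push_cast
  ring

noncomputable def th8b (z : ℂ) : ℂ := ∫ t in (0 : ℝ)..1, cexp (-(t * z)) * (t : ℂ) ^ 7 / 5040

theorem th8b_id (z : ℂ) : 1 - th8 z = z ^ 8 * th8b z := by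
  have h : ∀ t ∈ Set.uIcc (0 : ℝ) 1, HasDerivAt (fun t : ℝ => -th8 (t * z))
      (z ^ 8 * (cexp (-(t * z)) * (t : ℂ) ^ 7 / 5040)) t := fun t _ => by
    have h1 := ((th8_der (t * z)).comp (t : ℂ) ((hasDerivAt_id (t : ℂ)).mul_const z)).comp_ofReal
    refine h1.neg.congr_deriv ?_
    ring
  have h2 := intervalIntegral.integral_eq_sub_of_hasDerivAt h
    (Continuous.intervalIntegrable (by fun_prop) _ _)
  rw [intervalIntegral.integral_const_mul] at h2
  unfold th8b
  rw [h2]
  simp [th8_eq]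
  ring

theorem th8b_diff : Differentiable ℂ th8b := by
  have hc : Continuous th8b :=
    intervalIntegral.continuous_parametric_intervalIntegral_of_continuous'
      (f := fun (z : ℂ) (t : ℝ) => cexp (-(t * z)) * (t : ℂ) ^ 7 / 5040) (by fun_prop) 0 1
  have h : ∀ z : ℂ, z ≠ 0 → DifferentiableAt ℂ th8b z := fun z hz => by
    have h1 : DifferentiableAt ℂ (fun w => (1 - th8 w) / w ^ 8) z :=
      ((th8_diff z).const_sub 1).div (by fun_prop) (pow_ne_zero 8 hz)
    refine h1.congr_of_eventuallyEq ?_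
    filter_upwards [isOpen_ne.mem_nhds hz] with w hw
    rw [th8b_id, mul_div_cancel_left₀ _ (pow_ne_zero 8 hw)]
  intro z
  by_cases hz : z = 0
  · subst hz
    exact (analyticAt_of_differentiable_on_punctured_nhds_of_continuousAt
      (eventually_nhdsWithin_of_forall h) hc.continuousAt).differentiableAt
  · exact h z hz

theorem pTH8 : TH8 := by
  refine ⟨th8_diff, fun z => ?_, th8b, th8b_diff, th8b_id, fun z hz => ?_⟩
  · unfold th8
    rw [norm_mul, norm_exp, neg_re]
    refine mul_le_mul_of_nonneg_left ((norm_sum_le _ _).trans ?_) (Real.exp_pos _).le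
    simp only [norm_div, norm_pow, Complex.norm_natCast]
    have hx := norm_nonneg z
    generalize ‖z‖ = x at hx
    have e : (1 + x) ^ 7 = 1 + 7 * x + 21 * x ^ 2 + 35 * x ^ 3 + 35 * x ^ 4 + 21 * x ^ 5 +
      7 * x ^ 6 + x ^ 7 := by ring
    have p := fun n : ℕ => pow_nonneg hx n
    simp only [sum_range_succ, Nat.factorial, sum_range_zero]
    norm_num
    linarith [p 2, p 3, p 4, p 5, p 6, p 7]
  · have h := intervalIntegral.norm_integral_le_of_norm_le_const (a := (0 : ℝ)) (b := 1) (C := 1)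
      (f := fun t : ℝ => cexp (-(t * z)) * (t : ℂ) ^ 7 / 5040) fun t ht => by
        rw [Set.uIoc_of_le zero_le_one] at ht
        have e : (-(t * z) : ℂ).re = -(t * z.re) := by simp
        rw [norm_div, norm_mul, norm_exp, e, norm_pow, Complex.norm_real,
          Real.norm_of_nonneg ht.1.le, Complex.norm_ofNat, div_le_one (by norm_num)]
        have h1 : -(t * z.re) ≤ 1 := by
          have := mul_le_mul_of_nonneg_left hz ht.1.le
          linarith [ht.2]
        have h2 := (Real.exp_le_exp.2 h1).trans Real.exp_one_lt_d9.le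
        have h3 : t ^ 7 ≤ 1 := pow_le_one₀ ht.1.le ht.2
        have h4 := mul_le_mul h2 h3 (pow_nonneg ht.1.le 7) (by norm_num)
        linarith
    simpa [th8b] using h

theorem pG1W (hG : GAM1) (hS : SH4) : G1W := by
  intro a c ha
  refine ⟨?_, fun u => ?_⟩
  · obtain ⟨C₁, hC₁, h1⟩ := hG 0
    obtain ⟨C₂, hC₂, h2⟩ := hS.2.2 (1 / 4) 6 0 (by norm_num)
    have ha0 : (0 : ℝ) ≤ a := Nat.cast_nonneg a
    have ha1 : (a : ℝ) ≤ 1 := by exact_mod_cast ha
    refine ⟨4 * (4 * C₁ * (‖(Gammaℝ (1 / 2 + a))⁻¹‖ + 1)) * Real.exp 169 *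
      ((1 + ‖c 0‖ + ‖c 1‖ + ‖c 2‖) * 13 ^ 6 * C₂), by positivity, fun u hu => ?_, fun u hu => ?_⟩
    · have hd : DifferentiableAt ℂ Gammaℝ (1 / 2 + a + u) := by
        rw [funext Gammaℝ_def]
        refine DifferentiableAt.mul (DifferentiableAt.const_cpow (by fun_prop)
          (Or.inl (ofReal_ne_zero.2 Real.pi_ne_zero))) ?_
        refine (differentiableAt_Gamma _ fun m h => ?_).comp _ (by fun_prop)
        have := congrArg re h
        simp at this
        have hm : (0 : ℝ) ≤ m := Nat.cast_nonneg m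
        linarith
      have hd' : DifferentiableAt ℂ (gr a) u :=
        (hd.comp u (by fun_prop : DifferentiableAt ℂ (fun u : ℂ => 1 / 2 + a + u) u)).div_const _
      unfold g1
      fun_prop
    · have e : (1 / 2 + a + u : ℂ).re = 1 / 2 + a + u.re := by simp
      have b1 : ‖gr a u‖ ≤ 4 * C₁ * (‖(Gammaℝ (1 / 2 + a))⁻¹‖ + 1) := by
        have a1 := h1 (1 / 2 + a + u) (by rw [e]; linarith [hu.1]) (by rw [e]; linarith [hu.2])
        have a2 : 1 / 4 ≤ ‖(1 / 2 + a + u : ℂ)‖ :=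
          le_trans (by rw [e]; linarith [hu.1]) (re_le_norm _)
        rw [pow_zero, mul_one] at a1
        have a3 := a1.trans (div_le_div_of_nonneg_left hC₁.le (by norm_num) a2)
        unfold gr
        rw [div_eq_mul_inv, norm_mul]
        exact mul_le_mul (by linarith) (by linarith) (norm_nonneg _) (by positivity)
      have b0 : 1 ≤ br u.im := by
        unfold br
        linarith [abs_nonneg u.im]
      have b2 : ‖u‖ ≤ 13 * br u.im := by
        refine (norm_le_abs_re_add_abs_im u).trans ?_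
        have : |u.re| ≤ 13 := abs_le.2 ⟨by linarith [hu.1], hu.2⟩
        unfold br
        linarith [abs_nonneg u.im]
      have b3 : ∀ (x : ℂ) (n : ℕ), n ≤ 6 → ‖x * u ^ n‖ ≤ ‖x‖ * (13 * br u.im) ^ 6 := fun x n hn => by
        rw [norm_mul, norm_pow]
        exact mul_le_mul_of_nonneg_left ((pow_le_pow_left₀ (norm_nonneg _) b2 n).trans
          (pow_le_pow_right₀ (by linarith) hn)) (norm_nonneg _)
      have b4 : ‖1 + c 0 * u ^ 2 + c 1 * u ^ 4 + c 2 * u ^ 6‖ ≤
          (1 + ‖c 0‖ + ‖c 1‖ + ‖c 2‖) * 13 ^ 6 * br u.im ^ 6 := by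
        have a0 : (1 : ℝ) ≤ (13 * br u.im) ^ 6 := one_le_pow₀ (by linarith)
        have a1 := b3 (c 0) 2 (by norm_num)
        have a2 := b3 (c 1) 4 (by norm_num)
        have a3 := b3 (c 2) 6 (by norm_num)
        have a4 := norm_add_le (1 + c 0 * u ^ 2 + c 1 * u ^ 4) (c 2 * u ^ 6)
        have a5 := norm_add_le (1 + c 0 * u ^ 2) (c 1 * u ^ 4)
        have a6 := norm_add_le 1 (c 0 * u ^ 2)
        rw [norm_one] at a6
        rw [mul_assoc, ← mul_pow]
        linarith
      have b5 : ‖cexp (u ^ 2)‖ ≤ Real.exp 169 * (Real.exp (-(1 / 4) * u.im ^ 2) *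
          Real.exp (-(3 / 4) * u.im ^ 2)) := by
        rw [norm_exp, ← Real.exp_add, ← Real.exp_add]
        refine Real.exp_le_exp.2 ?_
        have a1 : (u ^ 2).re = u.re ^ 2 - u.im ^ 2 := by simp [sq]
        have a2 : u.re ^ 2 ≤ 13 ^ 2 := sq_le_sq' (by linarith [hu.1]) hu.2
        linarith
      have b6 : br u.im ^ 6 * Real.exp (-(1 / 4) * u.im ^ 2) ≤ C₂ := by
        simpa [br] using (h2 u.im 0).2.1
      unfold g1
      rw [norm_mul, norm_mul, norm_mul, norm_neg, Complex.norm_ofNat]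
      generalize 4 * C₁ * (‖(Gammaℝ (1 / 2 + a))⁻¹‖ + 1) = P at b1 ⊢
      have hP : 0 ≤ P := (norm_nonneg _).trans b1
      have hN : 0 ≤ (1 + ‖c 0‖ + ‖c 1‖ + ‖c 2‖) * 13 ^ 6 := by positivity
      generalize (1 + ‖c 0‖ + ‖c 1‖ + ‖c 2‖) * 13 ^ 6 = N at b4 hN ⊢
      calc _ ≤ 4 * P * (Real.exp 169 * (Real.exp (-(1 / 4) * u.im ^ 2) *
            Real.exp (-(3 / 4) * u.im ^ 2))) * (N * br u.im ^ 6) := by gcongr
        _ = 4 * P * Real.exp 169 * (N * (br u.im ^ 6 * Real.exp (-(1 / 4) * u.im ^ 2))) *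
            Real.exp (-(3 / 4) * u.im ^ 2) := by ring
        _ ≤ _ := by gcongr
  · unfold gg g1
    ring

end Pool.Agent.Q4
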