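import Pool.Agent.P.MP_ea46f5_nt.Q4.S4
import Pool.Agent.P.MP_ea46f5_nt.Q4.FSDn

namespace Pool.Agent.Q4

open Complex MeasureTheory Finset Pool.Agent.QM
open scoped Real ComplexConjugate

theorem tk_C {E : ℤ → ℂ → ℂ} {C : ℝ} (hK : KA E C) : 0 ≤ C := by
  have := (norm_nonneg _).trans (hK.2.1 1 0 one_ne_zero (by simp) (by simp))
  simpa [br] using this

theorem tk_br (t u : ℝ) : br t ≤ br (t + u) * br u := by
  unfold br
  have := abs_add_le (t + u) (-u)
  rw [add_neg_cancel_right, abs_neg] at this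
  nlinarith [abs_nonneg (t + u), abs_nonneg u, mul_nonneg (abs_nonneg (t + u)) (abs_nonneg u)]

theorem tk_dn {n m : ℕ} (h : m ≤ n) (u : V4) : dn n u ≤ dn m u :=
  prod_le_prod (fun j _ => by have := sh_br_pos (u j).im; positivity) fun j _ =>
    one_div_le_one_div_of_le (pow_pos (sh_br_pos _) _) (pow_le_pow_right₀ (sh_br_one _) h)

theorem tk_dn0 (n : ℕ) (u : V4) : 0 < dn n u :=
  prod_pos fun j _ => by have := sh_br_pos (u j).im; positivity

theorem tk_om {K x : ℝ} {k : ℤ} (hK : 0 < K) (hx : x = |(k : ℝ)| / K) (h0 : 0 < x) :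
    x ^ (-sk K k) = om x := by
  unfold sk om
  split_ifs with h
  · have h1 : x ≤ 1 := by rw [hx]; exact (div_le_one hK).2 h
    exact (min_eq_left (Real.rpow_le_rpow_of_exponent_ge h0 h1 (by norm_num))).symm
  · have h1 : 1 ≤ x := by rw [hx]; exact (one_le_div hK).2 (not_le.1 h).le
    exact (min_eq_right (Real.rpow_le_rpow_of_exponent_le h1 (by norm_num))).symm

theorem tk_pow {X Δ a σ : ℝ} (hX : 0 < X) (ha : 0 < a) :
    X ^ σ * Real.exp (-Δ * (σ - 1 / 2)) * a ^ (-σ) =
      Real.exp (Δ / 2) * (a / (X * Real.exp (-Δ))) ^ (-σ) := by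
  have h1 : 0 < a / (X * Real.exp (-Δ)) := by positivity
  rw [Real.rpow_def_of_pos hX, Real.rpow_def_of_pos ha, Real.rpow_def_of_pos h1,
    Real.log_div ha.ne' (by positivity), Real.log_mul hX.ne' (by positivity), Real.log_exp,
    ← Real.exp_add, ← Real.exp_add, ← Real.exp_add]
  congr 1
  ring

theorem tk_mono {x y η Δ : ℝ} {Y a b : ℕ} (hY : 1 ≤ Y) (hΔ : 1 ≤ Δ) (h0 : 0 < η) (hx : 0 ≤ x)
    (h : x ≤ y * (Δ / η)) (h1 : η ≤ 1) :
    x ^ a * (Y : ℝ) ^ b ≤ y ^ a * (Y * Δ / η) ^ (a + b) := by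
  have hY' : (1 : ℝ) ≤ Y := by exact_mod_cast hY
  have h2 : 1 ≤ Δ / η := (one_le_div h0).2 (h1.trans hΔ)
  have hy : 0 ≤ y := by
    by_contra h3
    nlinarith [not_le.1 h3]
  rw [pow_add, mul_div_assoc, ← mul_assoc, ← mul_pow]
  refine mul_le_mul (pow_le_pow_left₀ hx (h.trans (mul_le_mul_of_nonneg_left ?_ hy)) a)
    (pow_le_pow_left₀ (by positivity) ?_ b) (by positivity) (by positivity)
  · exact le_mul_of_one_le_left (by positivity) hY'
  · exact le_mul_of_one_le_right (by positivity) h2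

theorem tk_prod (A n N : ℕ) (h : A + 2 + n ≤ N) (y : ℝ) (t : R4) :
    (∏ j, 1 / br (t j + y) ^ N) * ∏ j, br (t j) ^ n ≤
      br y ^ (4 * n) * ∏ j, 1 / br (t j + y) ^ (A + 2) := by
  have h0 := sh_br_pos y
  rw [← prod_mul_distrib, show br y ^ (4 * n) = ∏ _j : Fin 4, br y ^ n by
    simp [← pow_mul, mul_comm], ← prod_mul_distrib]
  refine prod_le_prod (fun j _ => by
    have := sh_br_pos (t j); have := sh_br_pos (t j + y); positivity) fun j _ => ?_
  have h1 := sh_br_one (t j + y)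
  have h2 := sh_br_pos (t j)
  calc _ ≤ 1 / br (t j + y) ^ (A + 2 + n) * (br (t j + y) * br y) ^ n :=
        mul_le_mul (one_div_le_one_div_of_le (by positivity) (pow_le_pow_right₀ h1 h))
          (pow_le_pow_left₀ h2.le (tk_br _ _) n) (by positivity) (by positivity)
    _ = _ := by
        rw [pow_add, mul_pow]
        field_simp

theorem pTK0 (hFOUR : FOUR) (hKDB : KDB) (hSIV : SIV) (hL4 : L4) (hHB4 : HB4) (hZB : ZB)
    (hDSH : DSH) (hOMB : OMB) : TK0 := by
  intro g C₀ C₁ E hg hE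
  obtain ⟨A, C4, hC4, hF⟩ := hFOUR
  obtain ⟨⟨D, hD, hKd⟩, -⟩ := hKDB
  obtain ⟨CH, BH, hCH, hH⟩ := hHB4
  obtain ⟨CZ, nZ, hCZ, -, -, -, hZ, -⟩ := hZB
  obtain ⟨nD, hDS⟩ := hDSH
  obtain ⟨CO, BO, hCO, hO⟩ := hOMB g C₀ (nD + A + 13 + 4 * nZ) hg
  have hC₁ := tk_C hE
  refine ⟨32 * (CO * 4 ^ BO * (5 * D * C₁) * CZ * CH) * C4 + 1, BO + BH, by positivity, ?_⟩
  intro γ c Δ η X Y F hP hFq
  have hX : 0 < X := one_pos.trans_le hP.X1
  have hη := hP.h0
  have hΔ : 0 < Δ := one_pos.trans_le hP.D1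
  set n := nD + A + 13 + 4 * nZ with hn
  set K := X * Real.exp (-Δ) with hK
  have hK0 : 0 < K := by positivity
  set T : ℝ := (Y * Δ / η) ^ (BO + BH) with hT
  have hT0 : 0 ≤ T := by positivity
  set N₀ : ℝ := CO * 4 ^ BO * (5 * D * C₁) * CZ * CH * T * Real.exp (Δ / 2) with hN₀
  have hN0 : 0 ≤ N₀ := by positivity
  have hlg : 0 ≤ lg K := Real.log_nonneg (by linarith)
  have key : ∀ y : ℝ, ∑ k ∈ F, ‖In (cs 12) fun u => KP E (Om g γ c Δ η X) k (sk K k + y * I) u *
      ZY Y k (sk K k + y * I) u‖ ≤ 16 * N₀ * (C4 * K * lg K ^ 10) * (1 / br y ^ 2) := by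
    intro y
    have hy := sh_br_one y
    have h := hL4 A (N₀ / br y ^ (A + 2)) (C4 * K * lg K ^ 10) y F (fun k => om (|(k : ℝ)| / K))
      (fun k τ => ‖Lo k (1 / 2 + τ * I)‖) (fun k t => Kd E k (sk K k + y * I) *
        (Om g γ c Δ η X (1 - (sk K k + y * I)) (sh (sk K k + y * I) (pt (cs 0) t)) *
          ((∏ j, Lo k (1 / 2 + pt (cs 0) t j)) * IZ4 (pt (cs 0) t) *
            Hk Y k (sk K k + y * I) (sh (sk K k + y * I) (pt (cs 0) t)))))
      (by positivity) (fun k _ => le_min (by positivity) (by positivity)) (fun _ _ => norm_nonneg _)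
      (hF K hK0 F hFq) ?_
    · refine le_trans (le_of_eq (sum_congr rfl fun k hk => ?_)) (h.trans (le_of_eq ?_))
      · obtain ⟨hk1, hk2⟩ := hFq k hk
        have hσ : 3 / 4 ≤ sk K k ∧ sk K k ≤ 6 := by unfold sk; split_ifs <;> norm_num
        set z : ℂ := sk K k + y * I with hz
        have hre : z.re = sk K k := by simp [hz]
        have hw : 1 - z ∈ Strip (-5) 2 := by
          constructor <;> simp [hre] <;> linarith [hσ.1, hσ.2]
        have hu : ∀ u ∈ Bx (z.re - 1 / 2) 12, z.re ≤ (1 - z + us u).re ∧ (1 - z + us u).re ≤ 25 :=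
          fun u hu => by
            have a0 := hu 0; have a1 := hu 1; have a2 := hu 2; have a3 := hu 3
            simp only [cs] at a0 a1 a2 a3
            simp only [us, Fin.sum_univ_four, add_re, sub_re, one_re, div_ofNat_re]
            constructor <;> linarith [a0.1, a1.1, a2.1, a3.1, a0.2, a1.2, a2.2, a3.2, hσ.1]
        have hO' := fun u hu' => hO γ c Δ η X (z.re - 1 / 2) Y (1 - z) u hP (by linarith [hσ.1]) hw
          hu' (by linarith [(hu u hu').1, hσ.1])
        have h1 := hDS Y k z (Om g γ c Δ η X (1 - z)) (CO * (Δ / (η * min (z.re - 1 / 2) 1)) ^ BO *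
          X ^ (25 : ℝ) * Real.exp (-Δ * (z.re - 1 / 2)) / br (1 - z).im ^ n) hk1 hk2
          (by linarith [hσ.1]) (by linarith [hσ.2])
          (fun u hu' => (hO' u hu').2.2.1.comp u (f := fun u => (1 - z, u)) (by fun_prop))
          (fun u hu' => (hO' u hu').2.2.2.2.2.trans (by
            have b1 : 0 < min (z.re - 1 / 2) 1 := lt_min (by linarith [hσ.1]) one_pos
            have b2 := sh_br_pos (1 - z).im
            have b3 := tk_dn0 n u
            have b4 := Real.rpow_le_rpow_of_exponent_le hP.X1 (hu u hu').2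
            have b5 := tk_dn (by omega : nD ≤ n) u
            gcongr))
        rw [integral_const_mul]
        congr 1
        refine Eq.trans ?_ (congrArg (fun x => Kd E k z * x) h1)
        rw [In, In, ← integral_const_mul]
        congr 1
        funext t
        rw [KP]
        ring
      · rw [pow_add]
        field_simp
    · intro k hk t
      obtain ⟨hk1, hk2⟩ := hFq k hk
      have hσ : 3 / 4 ≤ sk K k ∧ sk K k ≤ 6 := by unfold sk; split_ifs <;> norm_num
      have hk0 : 0 < |(k : ℝ)| := abs_pos.2 (by exact_mod_cast hk1.ne_zero)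
      have hom := tk_om hK0 rfl (div_pos hk0 hK0)
      set σ := sk K k with hσd
      set z : ℂ := σ + y * I with hz
      have hre : z.re = σ := by simp [hz]
      have him : z.im = y := by simp [hz]
      set s := pt (cs 0) t with hs
      have ure : ∀ j, (sh z s j).re = σ - 1 / 2 := fun j => by simp [sh, hs, pt, cs, hre]
      have uim : ∀ j, (sh z s j).im = t j + y := fun j => by simp [sh, hs, pt, cs, him, add_comm]
      have hw : 1 - z ∈ Strip (-5) 2 := by
        constructor <;> simp [hre] <;> linarith [hσ.1, hσ.2]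
      have hv : (1 - z + us (sh z s)).re = σ := by
        simp only [us, Fin.sum_univ_four, add_re, sub_re, one_re, div_ofNat_re, ure, hre]
        ring
      have g1 := (hO γ c Δ η X (σ - 1 / 2) Y (1 - z) (sh z s) hP (by linarith [hσ.1]) hw
        (fun j => by simp only [cs, ure]; constructor <;> linarith [hσ.2])
        (by rw [hv]; linarith [hσ.1])).2.2.2.2.2
      have g2 := (hKd E C₁ k z hE hk1.ne_zero (by linarith [hσ.1]) (by linarith [hσ.2])).2
      have g3 := hZ s fun j => by simp [hs, pt, cs]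
      have g4 := ((hH Y).1 k).2 (z, sh z s) ⟨by show _ < z.re; linarith [hσ.1],
        by show z.re < _; linarith [hσ.2], fun j => by
          simp only [sub_re, ure, hre]
          constructor <;> linarith [hσ.1]⟩
      have e1 : br (1 - z).im = br y := by simp [br, him]
      have e2 : dn n (sh z s) = ∏ j, 1 / br (t j + y) ^ n := by simp only [dn, uim]
      have e3 : gn nZ s = ∏ j, br (t j) ^ nZ := by simp only [gn, hs, pt_im]
      have e4 : ‖∏ j, Lo k (1 / 2 + s j)‖ = ∏ j, ‖Lo k (1 / 2 + t j * I)‖ := by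
        simp [norm_prod, hs, pt, cs]
      rw [hv, e1, e2] at g1
      rw [hre, him] at g2
      rw [e3] at g3
      have b1 : 1 / 4 ≤ min (σ - 1 / 2) 1 := le_min (by linarith [hσ.1]) (by norm_num)
      have b2 : 1 + 1 / (σ - 1 / 2) ≤ 5 := by
        have : 1 / (σ - 1 / 2) ≤ 4 := by
          rw [div_le_iff₀ (by linarith [hσ.1])]
          linarith [hσ.1]
        linarith
      have b3 : (Δ / (η * min (σ - 1 / 2) 1)) ^ BO * (Y : ℝ) ^ BH ≤ 4 ^ BO * T :=
        tk_mono hP.Y1 hP.D1 hη (by positivity) (by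
          rw [← div_div, div_le_iff₀ (by positivity)]
          have : 0 < Δ / η := by positivity
          nlinarith) (by linarith [hP.h1])
      have b4 := tk_prod A nZ n (by omega) y t
      have b5 := tk_pow (Δ := Δ) (σ := σ) hX hk0
      rw [← hK, hom] at b5
      have b6 : br y ^ 11 * br y ^ (4 * nZ) / br y ^ n ≤ 1 / br y ^ (A + 2) := by
        rw [div_le_div_iff₀ (by positivity) (by positivity), ← pow_add, ← pow_add, one_mul]
        exact pow_le_pow_right₀ hy (by omega)
      set P1 := ∏ j, 1 / br (t j + y) ^ n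
      set P2 := ∏ j, br (t j) ^ nZ
      set P3 := ∏ j, 1 / br (t j + y) ^ (A + 2)
      set L := ∏ j, ‖Lo k (1 / 2 + t j * I)‖
      have hL : 0 ≤ L := prod_nonneg fun _ _ => norm_nonneg _
      have hP3 : 0 ≤ P3 := prod_nonneg fun j _ => by have := sh_br_pos (t j + y); positivity
      have hom0 : 0 ≤ om (|(k : ℝ)| / K) := le_min (by positivity) (by positivity)
      have g2' : ‖Kd E k z‖ ≤ D * C₁ * 5 * br y ^ 11 * |(k : ℝ)| ^ (-σ) := g2.trans (by gcongr)
      rw [norm_mul, norm_mul, norm_mul, norm_mul, e4]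
      calc _ ≤ D * C₁ * 5 * br y ^ 11 * |(k : ℝ)| ^ (-σ) *
            (CO * (Δ / (η * min (σ - 1 / 2) 1)) ^ BO * X ^ σ * Real.exp (-Δ * (σ - 1 / 2)) /
              br y ^ n * P1 * (L * (CZ * P2) * (CH * (Y : ℝ) ^ BH))) :=
            mul_le_mul g2' (mul_le_mul g1 (mul_le_mul (mul_le_mul_of_nonneg_left g3 hL) g4
              (norm_nonneg _) (mul_nonneg hL ((norm_nonneg _).trans g3))) (by positivity)
              ((norm_nonneg _).trans g1)) (by positivity) (by positivity)
        _ = CO * (5 * D * C₁) * CZ * CH * L * (br y ^ 11 / br y ^ n) *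
            (X ^ σ * Real.exp (-Δ * (σ - 1 / 2)) * |(k : ℝ)| ^ (-σ)) *
            (((Δ / (η * min (σ - 1 / 2) 1)) ^ BO * (Y : ℝ) ^ BH) * (P1 * P2)) := by ring
        _ ≤ CO * (5 * D * C₁) * CZ * CH * L * (br y ^ 11 / br y ^ n) *
            (Real.exp (Δ / 2) * om (|(k : ℝ)| / K)) * ((4 ^ BO * T) * (br y ^ (4 * nZ) * P3)) := by
            rw [b5]
            refine mul_le_mul_of_nonneg_left (mul_le_mul b3 b4 ?_ (by positivity)) (by positivity)
            exact mul_nonneg (prod_nonneg fun j _ => by have := sh_br_pos (t j + y); positivity)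
              (prod_nonneg fun j _ => by have := sh_br_pos (t j); positivity)
        _ = N₀ * (br y ^ 11 * br y ^ (4 * nZ) / br y ^ n) * om (|(k : ℝ)| / K) * P3 * L := by
            rw [hN₀]
            ring
        _ ≤ N₀ * (1 / br y ^ (A + 2)) * om (|(k : ℝ)| / K) * P3 * L := by gcongr
        _ = _ := by ring
  have h2 := hSIV ℝ F _ _ ((sh_int_maj 1).const_mul _) key
  rw [integral_const_mul] at h2
  have h3 : ∑ k ∈ F, ‖Yk Y (KP E (Om g γ c Δ η X)) (s1 K k) k‖ ≤
      ∑ k ∈ F, ‖∫ y : ℝ, In (cs 12) fun u => KP E (Om g γ c Δ η X) k (sk K k + y * I) u *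
        ZY Y k (sk K k + y * I) u‖ := sum_le_sum fun k hk => by
    rw [s1, if_neg (hFq k hk).2, Yk, norm_mul]
    refine mul_le_of_le_one_left (norm_nonneg _) ?_
    rw [norm_div, norm_one, norm_mul, norm_real, Real.norm_of_nonneg Real.pi_pos.le, norm_ofNat,
      div_le_one (by positivity)]
    linarith [Real.pi_gt_three]
  have h4 : lg K ≤ lg X := Real.log_le_log (by linarith) (by
    have : Real.exp (-Δ) ≤ 1 := Real.exp_le_one_iff.2 (by linarith)
    nlinarith)
  have h5 : Real.exp (Δ / 2) * K = Real.exp (-Δ / 2) * X := by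
    rw [hK, mul_left_comm, ← Real.exp_add, mul_comm]
    congr 2
    ring
  have h6 := pDEC.2.2.2.1.2
  have h7 := hlg.trans h4
  calc _ ≤ 16 * N₀ * (C4 * K * lg K ^ 10) * ∫ y : ℝ, 1 / br y ^ 2 := h3.trans h2
    _ ≤ 16 * N₀ * (C4 * K * lg X ^ 10) * 2 := by gcongr
    _ = 32 * (CO * 4 ^ BO * (5 * D * C₁) * CZ * CH) * C4 * T * (Real.exp (Δ / 2) * K) *
        lg X ^ 10 := by rw [hN₀]; ring
    _ ≤ (32 * (CO * 4 ^ BO * (5 * D * C₁) * CZ * CH) * C4 + 1) * T * (Real.exp (-Δ / 2) * X) *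
        lg X ^ 10 := by
        rw [h5]
        gcongr
        linarith
    _ = _ := by ring

end Pool.Agent.Q4
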