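import Pool.Agent.P.MP_ea46f5_nt.Q4.S4
import Pool.Agent.P.MP_ea46f5_nt.Q4.TailA
import Pool.Agent.P.MP_ea46f5_nt.Q4.TailB

/-! The tail of the sieve. -/

namespace Pool.Agent.Q4

open Complex MeasureTheory Finset Pool.Agent.QM
open scoped Real

theorem tl_phi (hPHW : PHW) {η x c e : ℝ} (h0 : 0 < η) (h1 : η ≤ 1 / 30) (hx : 0 < x) (hc : 1 ≤ c)
    (e0 : 0 ≤ e) (e1 : e ≤ 1) :
    phi η x * x ^ e ≤ 2 * om (x / c) ∧ phi η x * x ^ e ≤ 2 / x := by
  obtain ⟨-, p0, p1, -, -, p7⟩ := hPHW η x h0 hx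
  have hxc : x / c ≤ x := div_le_self hx.le hc
  have hxc0 : 0 < x / c := by positivity
  rcases le_total x 1 with h | h
  · have a1 : phi η x * x ^ e ≤ 1 := mul_le_one₀ p1 (by positivity) (Real.rpow_le_one hx.le h e0)
    have a2 : 1 ≤ om (x / c) := le_min
      (Real.one_le_rpow_of_pos_of_le_one_of_nonpos hxc0 (hxc.trans h) (by norm_num))
      (Real.one_le_rpow_of_pos_of_le_one_of_nonpos hxc0 (hxc.trans h) (by norm_num))
    exact ⟨by linarith, a1.trans ((one_le_div hx).2 (by linarith))⟩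
  · have a0 : x ^ e ≤ x := by simpa using Real.rpow_le_rpow_of_exponent_le h e1
    have a3 : x ^ (-6 : ℝ) = 1 / x ^ 6 := by
      rw [Real.rpow_neg hx.le, one_div]; norm_cast
    have a1 : phi η x * x ^ e ≤ 2 * x ^ (-6 : ℝ) := by
      calc _ ≤ 2 / x ^ 7 * x := mul_le_mul (p7 h1) a0 (by positivity) (by positivity)
        _ = _ := by rw [a3]; field_simp
    have a2 : x ^ (-6 : ℝ) ≤ om (x / c) := le_min
      ((Real.rpow_le_rpow_of_exponent_le h (by norm_num)).trans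
        (Real.rpow_le_rpow_of_nonpos hxc0 hxc (by norm_num)))
      (Real.rpow_le_rpow_of_nonpos hxc0 hxc (by norm_num))
    refine ⟨by linarith, a1.trans ?_⟩
    rw [a3, mul_one_div]
    exact div_le_div_of_nonneg_left (by norm_num) hx (le_self_pow₀ h (by norm_num))

theorem tl_X {X q : ℝ} (X1 : 1 ≤ X) (XL : 100 ≤ Real.log X) (hq : 0 < q) :
    q ^ (2 * (1 / Real.log X)) = Real.exp 2 * (q / X) ^ (2 * (1 / Real.log X)) := by
  have hX : 0 < X := by linarith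
  have e : X ^ (2 * (1 / Real.log X)) = Real.exp 2 := by
    rw [Real.rpow_def_of_pos hX]
    congr 1
    field_simp
  rw [← e, ← Real.mul_rpow hX.le (by positivity)]
  congr 1
  field_simp

theorem tl_lg {X K : ℝ} (X1 : 1 ≤ X) (XL : 100 ≤ Real.log X) (hK : 0 < K) (h : K ≤ X) :
    lg K ^ 10 ≤ (3 * Real.log X) ^ 10 := by
  have h1 : lg K ≤ Real.log (3 * X) := Real.log_le_log (by linarith) (by linarith)
  have h2 : Real.log 3 ≤ 3 - 1 := Real.log_le_sub_one_of_pos (by norm_num)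
  rw [Real.log_mul (by norm_num) (by linarith)] at h1
  have h3 : 0 ≤ lg K := Real.log_nonneg (by linarith)
  exact pow_le_pow_left₀ h3 (by linarith) 10

theorem pTL1 (hL4 : L4) (hPHW : PHW) (hDB : DB) (hDO : DO) : TL1 := by
  classical
  intro g C₀ hg
  obtain ⟨A, Co, hCo, hO⟩ := hDO
  obtain ⟨C, hC, hB⟩ := hDB g C₀ (A + 2) hg
  have hE := Real.exp_pos 2
  refine ⟨2 * Real.exp 2 * C * (16 * Co * 3 ^ 10 + 1), by positivity,
    fun γ c Δ η X Y f F hP hf hF => ?_⟩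
  obtain ⟨hγ, c1, c4, D1, h0, h1, X1, XL, Y1⟩ := hP
  have hX : 0 < X := by linarith
  have hf1 : (1 : ℝ) ≤ f := by exact_mod_cast hf.pos
  have hf2 : (1 : ℝ) ≤ (f : ℝ) ^ 2 := one_le_pow₀ hf1
  have tX := fun q hq => tl_X (q := q) X1 XL hq
  have tl := tl_lg X1 XL (K := X / (f : ℝ) ^ 2) (by positivity) (div_le_self hX.le hf2)
  generalize Real.log X = L at *
  have hL : 0 < L := by linarith
  have e0 : 0 < 1 / L := by positivity
  have e1 : 1 / L ≤ 1 / 100 := one_div_le_one_div_of_le (by norm_num) XL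
  have eD : Δ / (1 / L) = Δ * L := by field_simp
  have hDL : 1 ≤ Δ * L := by nlinarith
  obtain ⟨q, hq⟩ : ∃ q : ℤ → ℝ, ∀ k, q k = c * |((k * (f : ℤ) ^ 2 : ℤ) : ℝ)| := ⟨_, fun _ => rfl⟩
  have hq2 : ∀ k, q k = c * (|(k : ℝ)| * (f : ℝ) ^ 2) := fun k => by
    rw [hq]; push_cast; rw [abs_mul, abs_of_nonneg (sq_nonneg (f : ℝ))]
  have hq1 : ∀ k, Squarefree k → 1 ≤ q k := fun k hk => by
    have : (1 : ℝ) ≤ |(k : ℝ)| := by exact_mod_cast Int.one_le_abs hk.ne_zero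
    rw [hq2]
    exact one_le_mul_of_one_le_of_one_le c1 (one_le_mul_of_one_le_of_one_le this hf2)
  have hp := fun k (hk : Squarefree k) => tl_phi hPHW (x := q k / X) (e := 2 * (1 / L)) h0 h1
    (div_pos (by linarith [hq1 k hk]) hX) c1 (by positivity) (by linarith)
  have hp0 : ∀ k, Squarefree k → 0 ≤ phi η (q k / X) := fun k hk =>
    (hPHW η _ h0 (div_pos (by linarith [hq1 k hk]) hX)).2.1
  simp only [← hq]
  generalize hd : (f.divisors.card : ℝ) ^ 4 = d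
  have d0 : 0 ≤ d := by rw [← hd]; positivity
  have hB' := fun k (hk : Squarefree k) => hB γ k f Δ (q k) (1 / L) hγ hf D1 (hq1 k hk) e0 e1
  rw [eD, hd] at hB'
  have hG := fun k (hk : Squarefree k) => (hB' k hk).1 hk
  choose! G hG1 hG2 using hG
  have hS : SQ (F.erase 1) := fun k hk => ⟨hF k (mem_of_mem_erase hk), ne_of_mem_erase hk⟩
  have s1 := hL4 A (2 * Real.exp 2 * C * (Δ * L) ^ 28 * d) _ 0 (F.erase 1)
    (fun k => om (|(k : ℝ)| / (X / (f : ℝ) ^ 2))) (fun k τ => ‖Lo k (1 / 2 + (1 / L : ℝ) + τ * I)‖)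
    (fun k t => (phi η (q k / X) : ℂ) * G k t) (by positivity) (fun k _ => tl_om0 (by positivity))
    (fun _ _ => norm_nonneg _) (fun τ => hO (1 / L) _ τ _ e0 e1 (by positivity) hS)
    fun k hk t => by
      obtain ⟨k1, k2⟩ := hS k hk
      have a1 := hG2 k k1 k2 t
      have a2 := (hp k k1).1
      have a3 : q k / X / c = |(k : ℝ)| / (X / (f : ℝ) ^ 2) := by rw [hq2]; field_simp
      have a4 : 0 ≤ ∏ j, 1 / br (t j) ^ (A + 2) :=
        prod_nonneg fun j _ => by have := tk2_br0 (t j); positivity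
      have a5 : 0 ≤ ∏ j, ‖Lo k (1 / 2 + (1 / L : ℝ) + t j * I)‖ := prod_nonneg fun _ _ => norm_nonneg _
      rw [tX _ (by linarith [hq1 k k1])] at a1
      rw [a3] at a2
      simp only [add_zero]
      rw [norm_mul, Complex.norm_real, Real.norm_of_nonneg (hp0 k k1)]
      refine (mul_le_mul_of_nonneg_left a1 (hp0 k k1)).trans ?_
      generalize (∏ j, 1 / br (t j) ^ (A + 2)) = y at *
      generalize (∏ j, ‖Lo k (1 / 2 + (1 / L : ℝ) + t j * I)‖) = w at *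
      calc _ = Real.exp 2 * C * (Δ * L) ^ 28 * d * y * w *
            (phi η (q k / X) * (q k / X) ^ (2 * (1 / L))) := by ring
        _ ≤ Real.exp 2 * C * (Δ * L) ^ 28 * d * y * w * (2 * om (|(k : ℝ)| / (X / (f : ℝ) ^ 2))) :=
            mul_le_mul_of_nonneg_left a2 (by positivity)
        _ = _ := by ring
  have s2 : ∑ k ∈ F.erase 1, phi η (q k / X) * ‖Tm g γ Δ (q k) (k * (f : ℤ) ^ 2)‖ ≤
      2 * Real.exp 2 * C * (16 * Co * 3 ^ 10) * (Δ * L) ^ 40 * d * (X / (f : ℝ) ^ 2) := by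
    refine le_trans (le_of_eq (sum_congr rfl fun k hk => ?_)) (s1.trans ?_)
    · rw [integral_const_mul, ← hG1 k (hS k hk).1 (hS k hk).2, norm_mul, Complex.norm_real,
        Real.norm_of_nonneg (hp0 k (hS k hk).1)]
    · have b0 : br 0 ^ A = 1 := by simp [br]
      have b1 : L ^ 11 ≤ (Δ * L) ^ 12 :=
        (pow_le_pow_left₀ hL.le (by nlinarith) 11).trans (pow_le_pow_right₀ hDL (by norm_num))
      rw [b0, mul_one]
      calc _ ≤ 16 * (2 * Real.exp 2 * C * (Δ * L) ^ 28 * d) *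
            (Co / (1 / L) * (X / (f : ℝ) ^ 2) * (3 * L) ^ 10) := by gcongr
        _ = 2 * Real.exp 2 * C * (16 * Co * 3 ^ 10) * ((Δ * L) ^ 28 * L ^ 11) * d *
            (X / (f : ℝ) ^ 2) := by field_simp
        _ ≤ 2 * Real.exp 2 * C * (16 * Co * 3 ^ 10) * ((Δ * L) ^ 28 * (Δ * L) ^ 12) * d *
            (X / (f : ℝ) ^ 2) := by gcongr
        _ = _ := by ring
  have s3 : phi η (q 1 / X) * ‖Tm g γ Δ (q 1) (1 * (f : ℤ) ^ 2)‖ ≤
      2 * Real.exp 2 * C * (Δ * L) ^ 40 * d * (X / (f : ℝ) ^ 2) := by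
    have a1 := (hB' 1 squarefree_one).2
    have a2 := (hp 1 squarefree_one).2
    have a3 : 2 / (q 1 / X) ≤ 2 * (X / (f : ℝ) ^ 2) := by
      rw [hq2, Int.cast_one, abs_one, one_mul, div_div_eq_mul_div, mul_div_assoc]
      gcongr
      exact le_mul_of_one_le_left (by positivity) c1
    have a4 : (Δ * L) ^ 28 ≤ (Δ * L) ^ 40 := pow_le_pow_right₀ hDL (by norm_num)
    rw [tX _ (by linarith [hq1 1 squarefree_one])] at a1
    refine (mul_le_mul_of_nonneg_left a1 (hp0 1 squarefree_one)).trans ?_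
    calc _ = Real.exp 2 * C * (Δ * L) ^ 28 * d * (phi η (q 1 / X) * (q 1 / X) ^ (2 * (1 / L))) := by
          ring
      _ ≤ Real.exp 2 * C * (Δ * L) ^ 28 * d * (2 * (X / (f : ℝ) ^ 2)) :=
          mul_le_mul_of_nonneg_left (a2.trans a3) (by positivity)
      _ ≤ Real.exp 2 * C * (Δ * L) ^ 40 * d * (2 * (X / (f : ℝ) ^ 2)) := by gcongr
      _ = _ := by ring
  have s4 : ∑ k ∈ F, phi η (q k / X) * ‖Tm g γ Δ (q k) (k * (f : ℤ) ^ 2)‖ ≤
      ∑ k ∈ insert 1 (F.erase 1), phi η (q k / X) * ‖Tm g γ Δ (q k) (k * (f : ℤ) ^ 2)‖ :=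
    sum_le_sum_of_subset_of_nonneg (subset_insert_iff.2 subset_rfl) fun k hk _ => by
      refine mul_nonneg (hp0 k ?_) (norm_nonneg _)
      rcases mem_insert.1 hk with rfl | h
      exacts [squarefree_one, (hS k h).1]
  rw [sum_insert (notMem_erase _ _)] at s4
  refine s4.trans ((add_le_add s3 s2).trans (le_of_eq ?_))
  ring

end Pool.Agent.Q4
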