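import Pool.Agent.P.MP_ea46f5_nt.Q4.S4

/-! The mean square of pairs from its parts. -/

namespace Pool.Agent.Q4

open Complex MeasureTheory Finset Pool.Agent.QM
open scoped Real ComplexConjugate

theorem tm2_lg {θ X K : ℝ} (h0 : 0 ≤ θ) (h10 : θ ≤ 10) (hX : 1 ≤ X) (hK0 : 0 ≤ K)
    (hK : K ≤ X ^ 3) : lg K ^ θ ≤ 3 ^ 10 * lg X ^ θ := by
  have h1 : lg K ≤ 3 * lg X := by
    unfold lg
    have e : 3 * Real.log (2 + X) = Real.log ((2 + X) ^ 3) := by
      rw [Real.log_pow]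
      norm_num
    rw [e]
    refine Real.log_le_log (by linarith) ?_
    have : (2 + X) ^ 3 = X ^ 3 + 6 * X ^ 2 + 12 * X + 8 := by ring
    have := sq_nonneg X
    linarith
  have h2 : 0 ≤ lg K := Real.log_nonneg (by linarith)
  have h3 : 0 ≤ lg X := Real.log_nonneg (by linarith)
  refine (Real.rpow_le_rpow h2 h1 h0).trans ?_
  rw [Real.mul_rpow (by norm_num) h3]
  refine mul_le_mul_of_nonneg_right ?_ (Real.rpow_nonneg h3 _)
  refine (Real.rpow_le_rpow_of_exponent_le (by norm_num) h10).trans (le_of_eq ?_)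
  norm_num

theorem pTM2 (ha : TMa) (hb1 : TMb1) (hb2 : TMb2) (hc : TMc) : TM2 := by
  intro θ h0 h10 hP κ κ' hκ hκ'
  obtain ⟨A₁, C₁, hC₁, hb1⟩ := hb1 κ κ' hκ hκ'
  obtain ⟨A₂, C₂, hC₂, hb2⟩ := hb2 κ κ' hκ hκ'
  obtain ⟨A₃, C₃, hC₃, hc⟩ := hc θ hP κ κ' hκ hκ'
  refine ⟨A₁ + A₂ + A₃, C₁ + C₂ + 3 ^ 10 * C₃, by positivity,
    fun t v t' v' X F hX hL hv hv' => ?_⟩
  have hX0 : 0 < X := by linarith
  have h1 := ha κ t v κ' t' v' X (Real.exp (2 * (v + v')) / X) _ F hκ hκ' hX0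
    fun F' hF' => hc t v t' v' X F' hX0 hF'
  have h2 := hb1 t v t' v' X hX hL hv hv'
  have h3 := hb2 t v t' v' X hX hL hv hv'
  have h4 : lg (Real.exp (2 * (v + v')) / X) ^ θ ≤ 3 ^ 10 * lg X ^ θ := by
    refine tm2_lg h0 h10 hX (by positivity) ?_
    rw [div_le_iff₀ hX0]
    have e : Real.exp (2 * (v + v')) = (Real.exp v * Real.exp v') ^ 2 := by
      rw [← Real.exp_add, ← Real.exp_nat_mul]
      norm_num
    rw [e]
    calc (Real.exp v * Real.exp v') ^ 2 ≤ (X * X) ^ 2 := by gcongr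
      _ = _ := by ring
  have hb : ∀ x : ℝ, 1 ≤ br x := fun x => by
    unfold br
    linarith [abs_nonneg x]
  have hp : ∀ n : ℕ, n ≤ A₁ + A₂ + A₃ →
      br t ^ n * br t' ^ n ≤ br t ^ (A₁ + A₂ + A₃) * br t' ^ (A₁ + A₂ + A₃) := fun n hn =>
    mul_le_mul (pow_le_pow_right₀ (hb t) hn) (pow_le_pow_right₀ (hb t') hn)
      (pow_nonneg (by linarith [hb t']) _) (pow_nonneg (by linarith [hb t]) _)
  have p1 := hp A₁ (by omega)
  have p2 := hp A₂ (by omega)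
  have p3 := hp A₃ (by omega)
  have p0 : 0 ≤ br t ^ A₃ * br t' ^ A₃ :=
    mul_nonneg (pow_nonneg (by linarith [hb t]) _) (pow_nonneg (by linarith [hb t']) _)
  have hy : 0 ≤ X * Real.log (Real.log X) ^ 2 := by positivity
  have hl : 0 ≤ lg X ^ θ := Real.rpow_nonneg (Real.log_nonneg (by linarith)) _
  have hz : 0 ≤ Real.exp (v + v') * lg X ^ θ := by positivity
  have q1 := mul_le_mul_of_nonneg_right (mul_le_mul_of_nonneg_left p1 hC₁.le) hy
  have q2 := mul_le_mul_of_nonneg_right (mul_le_mul_of_nonneg_left p2 hC₂.le) hy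
  have q3 := mul_le_mul_of_nonneg_right (mul_le_mul_of_nonneg_left p3 hC₃.le) hz
  have q4 := mul_le_mul_of_nonneg_left h4
    (mul_nonneg (mul_nonneg hC₃.le p0) (Real.exp_pos (v + v')).le)
  have pp := p0.trans p3
  have q5 := mul_nonneg (mul_nonneg hC₃.le pp) hy
  have q6 := mul_nonneg (mul_nonneg hC₁.le pp) hz
  have q7 := mul_nonneg (mul_nonneg hC₂.le pp) hz
  linarith

end Pool.Agent.Q4
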