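import Pool.Agent.P.MP_ea46f5_nt.Q4.FTMa

/-! The term `k = 1` of the mean square of pair forms. -/

namespace Pool.Agent.Q4

open Complex MeasureTheory Finset Pool.Agent.QM
open scoped Real

theorem t2_gam {w : ℂ} (h : 0 < w.re) : DifferentiableAt ℂ Gammaℝ w := by
  have h1 := (Complex.differentiable_Gammaℝ_inv w).inv (inv_ne_zero (Gammaℝ_ne_zero_of_re_pos h))
  exact h1.congr_of_eventuallyEq (Filter.Eventually.of_forall fun s => (inv_inv _).symm)

theorem t2_zeta {z : ℂ} (h : z - 1 / 2 ≠ 0) :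
    riemannZeta₁ (2 * z) = 2 * (z - 1 / 2) * riemannZeta (2 * z) := by
  have h1 : 2 * z ≠ 1 := fun e => h (by linear_combination e / 2)
  have h2 := sub_ne_zero.2 h1
  rw [riemannZeta_eq_inv_sub_mul h1]
  field_simp

theorem t2_pow {L : ℝ} (hL : 100 ≤ L) :
    L ^ 12 * Real.exp L ^ (9 / 10 : ℝ) ≤ 10 ^ 21 * Real.exp L * Real.log L ^ 2 := by
  have h := Real.pow_div_factorial_le_exp (L / 10) (by linarith) 12
  have h1 : 1 ≤ Real.log L := by
    rw [Real.le_log_iff_exp_le (by linarith)]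
    linarith [Real.exp_one_lt_d9]
  have h2 : L ^ 12 ≤ 10 ^ 21 * Real.exp (L / 10) := by
    norm_num [Nat.factorial, div_pow, div_le_iff₀] at h
    linarith [Real.exp_pos (L / 10)]
  have h3 : Real.exp (L / 10) * Real.exp L ^ (9 / 10 : ℝ) = Real.exp L := by
    rw [← Real.exp_mul, ← Real.exp_add]
    congr 1
    ring
  calc _ ≤ 10 ^ 21 * Real.exp (L / 10) * Real.exp L ^ (9 / 10 : ℝ) := by gcongr
    _ = 10 ^ 21 * Real.exp L * 1 ^ 2 := by rw [mul_assoc, h3]; ring
    _ ≤ _ := by gcongr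

theorem pTMb2 (hKZ : KZ) (hV : VDP) (hZ : KZ2) (hT : TC4) (hH : HB4) (hK : K1) (hW : W2B)
    (hC : CAU) : TMb2 := by
  intro κ κ' hκ hκ'
  obtain ⟨C₁, h₁, hT⟩ := tb_int hT
  obtain ⟨C₂, B, h₂, hH⟩ := hH
  obtain ⟨n₀, C₅, h₅, hK⟩ := hK
  obtain ⟨C₃, n₁, h₃, hC⟩ := hC
  obtain ⟨C₆, h₆, hKZ⟩ := hKZ n₀
  obtain ⟨C₇, h₇, hZ⟩ := hZ 0
  obtain ⟨A, C₄, h₄, h⟩ := w2_all hV hW hκ hκ' (n₀ + n₁)
  refine ⟨A, C₄ * C₂ * (C₅ * C₆ * 10 ^ 21 + C₁ * C₃ * C₇), by positivity,
    fun t v t' v' X hX hL hv hv' => ?_⟩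
  obtain ⟨Q, hQ, hid, hb⟩ := h t v t' v'
  obtain ⟨-, hH1, hH2, -⟩ := hH 1
  simp only [Nat.cast_one, one_pow, mul_one] at hH2
  have hX0 : 0 < X := by linarith
  have hXc : (X : ℂ) ≠ 0 := ofReal_ne_zero.2 hX0.ne'
  set L := Real.log X with hLd
  have hL0 : 0 < L := by linarith
  have he : 0 < 1 / L := by positivity
  have he1 := one_div_le_one_div_of_le (by norm_num) hL
  have c := tc_br1 t
  have c' := tc_br1 t'
  replace hv := (Real.le_log_iff_exp_le hX0).2 hv
  replace hv' := (Real.le_log_iff_exp_le hX0).2 hv'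
  set E := C₄ * br t ^ A * br t' ^ A with hE
  have hE0 : 0 < E := by positivity
  set Kr : ℂ → V4 → ℂ := fun z u =>
    X * (Gammaℝ z * riemannZeta₁ (2 * z) / 4 * (X : ℂ) ^ (-z)) * (an u * (∏ j, u j) * Q u) with hKr
  have hkc : KC n₀ Kr (Hone 1) (1 / L) X (C₆ * E * L ^ 2) C₂ := by
    refine ⟨he, he1, hX, by rw [← hLd, one_div_mul_cancel hL0.ne'], fun x hx => ?_,
      fun x hx => ?_, hH1, hH2⟩
    · have g1 : DifferentiableAt ℂ (fun x : ℂ × V4 => Gammaℝ x.1) x :=
        (t2_gam (lt_of_lt_of_le (half_pos he) hx.1.1)).comp x differentiableAt_fst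
      have g2 : DifferentiableAt ℂ (fun x : ℂ × V4 => riemannZeta₁ (2 * x.1)) x :=
        (differentiable_riemannZeta₁ _).comp x (by fun_prop)
      have g3 : DifferentiableAt ℂ (fun x : ℂ × V4 => (X : ℂ) ^ (-x.1)) x :=
        DifferentiableAt.const_cpow (by fun_prop) (Or.inl hXc)
      have g4 : DifferentiableAt ℂ (fun x : ℂ × V4 => an x.2 * ∏ j, x.2 j) x := by
        simp only [an, Fin.prod_univ_four]
        fun_prop
      have g5 : DifferentiableAt ℂ
          (fun x : ℂ × V4 => Gammaℝ x.1 * riemannZeta₁ (2 * x.1) / 4) x :=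
        (g1.mul g2).mul_const _
      exact ((g5.mul g3).const_mul _).mul
        (g4.mul ((hQ _).comp x differentiableAt_snd))
    · obtain ⟨z, u⟩ := x
      obtain ⟨⟨z0, z1⟩, hu⟩ := hx
      dsimp only at z0 z1 hu ⊢
      have zp : 0 < z.re := (half_pos he).trans_le z0
      have a1 := (hKZ z).2.2 zp (by linarith)
      have a2 := (hb u (tb_sub he.le hu)).2.1
      have bz := tc_br1 z.im
      have hG := w_g1 u
      have u0 : ∀ j, 0 ≤ (u j).re := fun j => he.le.trans (hu j).1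
      have a3 : Real.exp (v * ((u 0).re + (u 2).re) + v' * ((u 1).re + (u 3).re)) ≤
          X ^ ∑ j, (u j).re := by
        rw [Real.rpow_def_of_pos hX0, Fin.sum_univ_four]
        exact Real.exp_le_exp.2 (by nlinarith [u0 0, u0 1, u0 2, u0 3])
      have a4 : dn (n₀ + n₁) u ≤ dn n₀ u := by
        rw [w_dn, w_dn n₀]
        gcongr
        omega
      have a5 : C₆ / (z.re ^ 2 * br z.im ^ n₀) ≤ 4 * L ^ 2 * C₆ / br z.im ^ n₀ := by
        calc _ ≤ C₆ / ((1 / L / 2) ^ 2 * br z.im ^ n₀) := by gcongr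
          _ = _ := by field_simp; norm_num
      have d0 : 0 ≤ dn (n₀ + n₁) u := by rw [w_dn]; positivity
      simp only [hKr]
      rw [norm_mul, norm_mul, norm_mul, norm_div, norm_real, Real.norm_of_nonneg hX0.le,
        norm_cpow_eq_rpow_re_of_pos hX0, neg_re, Complex.norm_ofNat, Real.rpow_add hX0,
        sub_eq_add_neg, Real.rpow_add hX0, Real.rpow_one]
      calc _ ≤ X * (4 * L ^ 2 * C₆ / br z.im ^ n₀ / 4 * X ^ (-z.re)) *
            (E * X ^ (∑ j, (u j).re) * dn n₀ u) := by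
            gcongr
            · exact a1.trans a5
            · exact a2.trans (by gcongr)
        _ = _ := by ring
  have hm := hK 1 (KG X (W2 κ t v κ' t' v')) Kr _ X _ _ hkc fun z u hz => by
    have h0 : z - 1 / 2 ≠ 0 := fun e => by
      have := congrArg re e
      simp [hz] at this
      norm_num at this
    simp only [KG, Kz, hKr, hid, t2_zeta h0, Int.cast_one, abs_one, one_mul]
    generalize z - 1 / 2 = w at h0 ⊢
    field_simp
    ring
  have hr : ∀ τ j, 1 / L ≤ (pt (rl (1 / L)) τ j).re ∧ (pt (rl (1 / L)) τ j).re ≤ 1 / 25 :=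
    fun τ j => by
      rw [(ta_pt _ _ j).1, rl]
      have a : (0 : ℝ) ≤ (j : ℕ) := Nat.cast_nonneg _
      have b : ((j : ℕ) : ℝ) ≤ 3 := by exact_mod_cast Nat.lt_succ_iff.1 j.2
      constructor <;> nlinarith
  have hf : ∀ i, ‖In (rl (1 / L)) (Fl Kr (Hone 1) i)‖ ≤
      C₁ * C₃ * (X * C₇ * C₂ / 4) * E * Real.log L ^ 2 := fun i => by
    refine hT L E _ C₃ v v' (n₀ + n₁) (rl (1 / L)) (sgi i) ![t, t', -t, -t']
      (fun u => an u * (∏ j ∈ univ.erase i, u j) * FZ i u) (fun u => Q u * hf u)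
      (fun u => X * (u i * (Gammaℝ (u i) * riemannZeta (2 * u i))) * (X : ℂ) ^ (-u i) *
        Hone 1 (u i) u / 4) _ hL hE0.le h₃.le (by positivity) hv hv'
      (fun j => by unfold sgi; split_ifs <;> simp) (fun j => by unfold rl; positivity)
      (by simp only [Fin.sum_univ_four, rl]; rw [div_eq_mul_one_div 10]; norm_num; linarith)
      fun τ => ?_
    have hr := hr τ
    have hc := (hC _ τ he he1).2 i
    generalize pt (rl (1 / L)) τ = u at *
    refine ⟨?_, ?_, hc.trans ?_, (hb u fun j => ?_).1⟩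
    · have h0 : u i - 1 / 2 ≠ 0 := fun e => by
        have := congrArg re e
        norm_num at this
        linarith [hr i]
      simp only [Fl, hKr, t2_zeta h0, ← mul_prod_erase univ u (mem_univ i)]
      generalize u i - 1 / 2 = w at h0 ⊢
      field_simp
    · have a1 := hZ (u i) (he.trans_le (hr i).1) (by linarith [hr i])
      have a2 := hH2 (u i, u) ⟨by dsimp only; linarith [hr i], by dsimp only; linarith [hr i],
        fun j => by
          dsimp only
          rw [sub_re]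
          constructor <;> linarith [hr i, hr j]⟩
      have a3 : X ^ (-(u i).re) ≤ 1 :=
        Real.rpow_le_one_of_one_le_of_nonpos hX (by linarith [hr i])
      rw [pow_zero, div_one] at a1
      rw [norm_div, norm_mul, norm_mul, norm_mul, norm_real, Real.norm_of_nonneg hX0.le,
        norm_cpow_eq_rpow_re_of_pos hX0, neg_re, Complex.norm_ofNat]
      calc _ ≤ X * C₇ * 1 * C₂ / 4 := by gcongr
        _ = _ := by ring
    · have hm : 0 ≤ cm (1 / L) (sgi i) τ := by unfold cm; positivity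
      have hG := w_g1 u
      rw [w_gn, w_gn (n₀ + n₁)]
      gcongr
      omega
    · simp only [cs]
      constructor <;> linarith [hr j]
  have hs : ‖∑ i, In (rl (1 / L)) (Fl Kr (Hone 1) i)‖ ≤
      4 * (C₁ * C₃ * (X * C₇ * C₂ / 4) * E * Real.log L ^ 2) := by
    refine (norm_sum_le _ _).trans ((sum_le_sum fun i _ => hf i).trans_eq ?_)
    simp
  have hp := t2_pow hL
  rw [hLd, Real.exp_log hX0, ← hLd] at hp
  refine (norm_le_norm_sub_add _ _).trans ((add_le_add hm hs).trans ?_)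
  calc _ = C₅ * C₆ * C₂ * E * (L ^ 12 * X ^ (9 / 10 : ℝ)) +
        C₁ * C₃ * X * C₇ * C₂ * E * Real.log L ^ 2 := by field_simp
    _ ≤ C₅ * C₆ * C₂ * E * (10 ^ 21 * X * Real.log L ^ 2) +
        C₁ * C₃ * X * C₇ * C₂ * E * Real.log L ^ 2 := by gcongr
    _ = _ := by rw [hE]; ring

end Pool.Agent.Q4
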