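import Pool.Agent.P.MP_ea46f5_nt.Q4.S4
import Pool.Agent.P.MP_ea46f5_nt.QM.FTK2

/-! The dual sum of pairs: the integral over the height. -/

namespace Pool.Agent.Q4

open Complex MeasureTheory Finset Pool.Agent.QM
open scoped Real ComplexConjugate

theorem tmc_om (k : ℤ) (hk : k ≠ 0) {X : ℝ} (V : ℝ) (hX : 0 < X) :
    (|(k : ℝ)| * X) ^ (-sk (Real.exp (2 * V) / X) k) =
      om (|(k : ℝ)| / (Real.exp (2 * V) / X)) *
        Real.exp (-(sk (Real.exp (2 * V) / X) k - 1 / 2) * (2 * V)) * Real.exp (-V) := by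
  have hk0 : 0 < |(k : ℝ)| := abs_pos.2 (by exact_mod_cast hk)
  have hK : 0 < Real.exp (2 * V) / X := by positivity
  have e1 : om (|(k : ℝ)| / (Real.exp (2 * V) / X)) =
      (|(k : ℝ)| / (Real.exp (2 * V) / X)) ^ (-sk (Real.exp (2 * V) / X) k) := by
    unfold om sk
    split_ifs with h
    · exact min_eq_left (Real.rpow_le_rpow_of_exponent_ge (by positivity)
        ((div_le_one hK).2 h) (by norm_num))
    · exact min_eq_right (Real.rpow_le_rpow_of_exponent_le
        ((one_le_div hK).2 (not_le.1 h).le) (by norm_num))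
  rw [e1]
  generalize sk (Real.exp (2 * V) / X) k = σ
  have e2 : |(k : ℝ)| * X = |(k : ℝ)| / (Real.exp (2 * V) / X) * Real.exp (2 * V) := by
    field_simp
  rw [e2, Real.mul_rpow (by positivity) (by positivity), ← Real.exp_mul,
    mul_assoc _ (Real.exp _), ← Real.exp_add]
  congr 2
  ring

theorem pTMc (hKZ : KZ) (hDEC : DEC) (h1 : TMc1) : TMc := by
  intro θ hP κ κ' hκ hκ'
  obtain ⟨A, C2, hC2, h1⟩ := h1 θ hP κ κ' hκ hκ'
  obtain ⟨C1, hC1, h2⟩ := hKZ (A + 2)
  refine ⟨A, 5 * C1 * C2, by positivity, fun t v t' v' X F hX hF => ?_⟩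
  have ht := tk2_br0 t
  have ht' := tk2_br0 t'
  have hKV : X * (Real.exp (2 * (v + v')) / X) * Real.exp (-(v + v')) = Real.exp (v + v') := by
    rw [mul_div_cancel₀ _ hX.ne', ← Real.exp_add]
    congr 1
    ring
  have hom := fun (k : ℤ) (hk : k ≠ 0) => tmc_om k hk (v + v') hX
  have hK : 0 < Real.exp (2 * (v + v')) / X := by positivity
  generalize Real.exp (2 * (v + v')) / X = K at hKV hom hK ⊢
  have hl : 0 ≤ lg K ^ θ := Real.rpow_nonneg (Real.log_nonneg (by linarith)) _
  have hs : ∀ k, 3 / 4 ≤ s1 K k ∧ s1 K k ≤ 6 := fun k => by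
    unfold s1 sk
    split_ifs <;> norm_num
  set Q := 5 / 2 * C1 * C2 * br t ^ A * br t' ^ A * Real.exp (v + v') * lg K ^ θ with hQ
  have hQ0 : 0 ≤ Q := by positivity
  have key : ∀ y : ℝ, ∑ k ∈ F, ‖In (cs 12) fun u =>
      KG X (W2 κ t v κ' t' v') k (s1 K k + y * I) u * ZY 1 k (s1 K k + y * I) u‖ ≤
      Q * (1 / br y ^ 2) := by
    intro y
    have hy := tk2_br0 y
    set D := X * (5 * C1 / br y ^ (A + 2) / 2) * Real.exp (-(v + v')) with hD'
    have hD0 : 0 ≤ D := by positivity
    have e1 : ∀ k ∈ F, ‖In (cs 12) fun u =>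
        KG X (W2 κ t v κ' t' v') k (s1 K k + y * I) u * ZY 1 k (s1 K k + y * I) u‖ ≤
        D * (om (|(k : ℝ)| / K) * Real.exp (-(s1 K k - 1 / 2) * (2 * (v + v'))) *
          ‖In (cs 12) fun u => W2 κ t v κ' t' v' u * ZY 1 k (s1 K k + y * I) u‖) := by
      intro k hk
      have hk0 : k ≠ 0 := (hF k hk).1.ne_zero
      have hk1 : 0 < |(k : ℝ)| := abs_pos.2 (by exact_mod_cast hk0)
      have r1 : ((s1 K k : ℂ) + y * I).re = s1 K k := by simp
      have r2 : ((s1 K k : ℂ) + y * I).im = y := by simp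
      have g2 := (h2 (s1 K k + y * I)).2.1 (by rw [r1]; linarith [(hs k).1])
        (by rw [r1]; linarith [(hs k).2])
      rw [r1, r2] at g2
      have g3 : 1 / (s1 K k - 1 / 2) ≤ 4 := by
        rw [div_le_iff₀ (by linarith [(hs k).1])]; linarith [(hs k).1]
      have g4 : ‖Gammaℝ (s1 K k + y * I) * riemannZeta (2 * (s1 K k + y * I))‖ ≤
          5 * C1 / br y ^ (A + 2) := by
        refine g2.trans (div_le_div_of_nonneg_right ?_ (by positivity))
        have := mul_le_mul_of_nonneg_left g3 hC1.le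
        linarith
      have g5 : ‖Kz k X (s1 K k + y * I)‖ ≤
          5 * C1 / br y ^ (A + 2) / 2 * (|(k : ℝ)| * X) ^ (-s1 K k) := by
        unfold Kz
        rw [norm_mul, Complex.norm_cpow_eq_rpow_re_of_pos (by positivity), Complex.neg_re, r1,
          div_mul_eq_mul_div, norm_div, Complex.norm_ofNat]
        gcongr
      have g6 := hom k hk0
      have g7 : sk K k = s1 K k := by
        unfold s1
        rw [if_neg (hF k hk).2]
      rw [g7] at g6
      have g8 : (In (cs 12) fun u =>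
          KG X (W2 κ t v κ' t' v') k (s1 K k + y * I) u * ZY 1 k (s1 K k + y * I) u) =
          X * Kz k X (s1 K k + y * I) *
            In (cs 12) fun u => W2 κ t v κ' t' v' u * ZY 1 k (s1 K k + y * I) u := by
        unfold In KG
        rw [← integral_const_mul]
        simp only [mul_assoc]
      rw [g8, norm_mul, norm_mul, Complex.norm_real, Real.norm_of_nonneg hX.le]
      refine (mul_le_mul_of_nonneg_right (mul_le_mul_of_nonneg_left g5 hX.le)
        (norm_nonneg _)).trans (le_of_eq ?_)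
      rw [g6, hD']
      ring
    refine (sum_le_sum e1).trans ?_
    rw [← Finset.mul_sum]
    refine (mul_le_mul_of_nonneg_left (h1 t v t' v' K y (s1 K) F hK hF hs) hD0).trans (le_of_eq ?_)
    rw [hD', hQ, ← hKV]
    field_simp
    ring
  have k2 := tk2_sum F (fun k y => In (cs 12) fun u =>
      KG X (W2 κ t v κ' t' v') k (s1 K k + y * I) u * ZY 1 k (s1 K k + y * I) u) _
    (hDEC.2.2.2.1.1.const_mul Q) key
  rw [integral_const_mul] at k2
  have k3 := k2.trans (mul_le_mul_of_nonneg_left hDEC.2.2.2.1.2 hQ0)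
  refine le_trans (sum_le_sum fun k _ => ?_) (k3.trans (le_of_eq ?_))
  · unfold Yk Iv
    rw [norm_mul]
    refine mul_le_of_le_one_left (norm_nonneg _) ?_
    rw [norm_div, norm_one, norm_mul, Complex.norm_ofNat, Complex.norm_real,
      Real.norm_of_nonneg Real.pi_pos.le, div_le_one (by positivity)]
    linarith [Real.pi_gt_three]
  · rw [hQ]; ring

end Pool.Agent.Q4
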