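import Pool.Agent.P.MP_ea46f5_nt.Q4.FW2B

/-! The dual terms of the pair moment on one horizontal line. -/

namespace Pool.Agent.Q4

open Complex MeasureTheory Finset Pool.Agent.QM

theorem c1_br (t t' y : ℝ) (n : ℕ) :
    ∏ j, br ((![t - y, t' - y, -t - y, -t' - y] : R4) j) ^ n ≤
      br y ^ (4 * n) * br t ^ (4 * n) * br t' ^ (4 * n) := by
  have h : ∀ x : ℝ, br (x - y) ≤ br x * br y := fun x => by
    rw [sub_eq_add_neg, ← w_neg y]
    exact tc_brm _ _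
  have h1 := h (-t)
  have h2 := h (-t')
  rw [w_neg] at h1 h2
  have p : ∀ x : ℝ, 0 ≤ br x := fun x => zero_le_one.trans (tc_br1 x)
  have a := p t
  have b := p t'
  have c := p y
  rw [prod_pow, Fin.prod_univ_four]
  calc _ ≤ (br t * br y * (br t' * br y) * (br t * br y) * (br t' * br y)) ^ n :=
        pow_le_pow_left₀ (mul_nonneg (mul_nonneg (mul_nonneg (p _) (p _)) (p _)) (p _))
          (mul_le_mul (mul_le_mul (mul_le_mul (h t) (h t') (p _) (by positivity)) h1 (p _)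
            (by positivity)) h2 (p _) (by positivity)) n
    _ = br y ^ (4 * n) * br t ^ (2 * n) * br t' ^ (2 * n) := by ring
    _ ≤ _ := by
        gcongr
        exacts [tc_br1 t, by norm_num, tc_br1 t', by norm_num]

theorem pTMc1 (hV : VDP) (hR : REP4) (hI : IZM) (hD : DSH) (hB : BP) (hW : W2B) (hA : ALG) :
    TMc1 := by
  intro θ hθ κ κ' hκ hκ'
  obtain ⟨A₀, C₀, hC₀, hI⟩ := hI
  obtain ⟨A₁, C₁, hC₁, hA⟩ := hA κ κ' A₀ hκ hκ'
  have half : ∀ {x : ℝ}, Kp x → Kp (x / 2) := fun h => ⟨half_pos h.1, by linarith [h.1, h.2]⟩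
  obtain ⟨A₂, C₂, hC₂, hB⟩ := hB θ hθ _ _ (half hκ) (half hκ')
  obtain ⟨C₃, hC₃, hR⟩ := hR
  obtain ⟨n, hD⟩ := hD
  refine ⟨A₁ + 4 * A₂, C₀ * C₃ * C₁ * C₂ * 40 ^ 4, by positivity,
    fun t v t' v' K y σ F hK hF hσ => ?_⟩
  have re : ∀ k, ((σ k : ℂ) + y * I).re = σ k := fun k => by simp
  have im : ∀ k, ((σ k : ℂ) + y * I).im = y := fun k => by simp
  choose R R1 R2 R3 using fun k => hA t v t' v' k (σ k + y * I) (by rw [re]; exact (hσ k).1)
    (by rw [re]; exact (hσ k).2)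
  simp only [im] at R2 R3
  obtain ⟨c, hc⟩ : ∃ c : R4, c = ![t - y, t' - y, -t - y, -t' - y] := ⟨_, rfl⟩
  have hcb := c1_br t t' y A₂
  rw [← hc] at R2 R3 hcb
  have p : ∀ x : ℝ, 0 ≤ br x := fun x => zero_le_one.trans (tc_br1 x)
  have a := p t
  have b := p t'
  have d := p y
  have ho : ∀ k : ℤ, 0 ≤ om (|(k : ℝ)| / K) := fun k =>
    le_min (Real.rpow_nonneg (by positivity) _) (Real.rpow_nonneg (by positivity) _)
  obtain ⟨B1, B2⟩ := hB K c F hK hF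
  obtain ⟨B3, B4⟩ := hR F _ _ (fun _ => C₁ * br y ^ A₁ * br t ^ A₁ * br t' ^ A₁) _ R c (1 / 40)
    (C₁ * br y ^ A₁ * br t ^ A₁ * br t' ^ A₁) _ (by norm_num) (by norm_num) (by positivity)
    (fun k hk => ⟨ho k, ho k, (mul_comm _ _).le, B2 k hk, R1 k, R2 k⟩) B1
  have B5 := hI F _ _ _ (fun k hk => ⟨ho k, B4 k hk⟩) B3 ![v, v', v, v']
  obtain ⟨M, hM⟩ := w2_M hV hW hκ hκ' n t v t' v'
  have hl : 0 ≤ lg K ^ θ := Real.rpow_nonneg (Real.log_nonneg (by linarith)) _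
  refine le_trans (le_of_eq (sum_congr rfl fun k hk => ?_)) (B5.trans ?_)
  · rw [hD 1 k _ _ M (hF k hk).1 (hF k hk).2 (by rw [re]; exact (hσ k).1)
      (by rw [re]; exact (hσ k).2) (fun u _ => w2_diff κ t v κ' t' v' u)
      (fun u hu => hM u fun j => ⟨le_trans (by simp only [cs, re]; linarith [(hσ k).1]) (hu j).1,
        (hu j).2⟩)]
    have e : ∀ τ : R4, pt (cs 0) τ ∈ Bx 0 0 := fun τ j => by simp [pt, cs]
    unfold In
    simp only [R3 k _ (e _)]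
    rw [integral_const_mul, norm_mul, norm_exp, mul_assoc, ← mul_assoc (Real.exp _),
      ← Real.exp_add]
    have e2 : -(σ k - 1 / 2) * (2 * (v + v')) +
        (((σ k : ℂ) + y * I - 1 / 2) * (2 * (v + v'))).re = 0 := by
      simp
      ring
    rw [e2, Real.exp_zero, one_mul]
  · calc _ = C₀ * C₃ * C₁ * C₂ * 40 ^ 4 * (br y ^ A₁ * br t ^ A₁ * br t' ^ A₁) *
          (∏ j, br (c j) ^ A₂) * K * lg K ^ θ := by ring
      _ ≤ C₀ * C₃ * C₁ * C₂ * 40 ^ 4 * (br y ^ A₁ * br t ^ A₁ * br t' ^ A₁) *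
          (br y ^ (4 * A₂) * br t ^ (4 * A₂) * br t' ^ (4 * A₂)) * K * lg K ^ θ := by gcongr
      _ = _ := by ring

end Pool.Agent.Q4
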