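import Pool.Agent.P.MP_ea46f5_nt.Q4.FONB

namespace Pool.Agent.Q4

open Complex MeasureTheory Finset
open scoped Real
open Pool.Agent.QM

theorem cons_cont {n : ℕ} :
    Continuous fun p : ℂ × (Fin n → ℂ) => (Fin.cons p.1 p.2 : Fin (n + 1) → ℂ) :=
  Continuous.finCons continuous_fst continuous_snd

theorem cons_box {n : ℕ} {a b : ℝ} {w : ℂ} {y : Fin n → ℂ} (h1 : a ≤ w.re) (h2 : w.re ≤ b)
    (hy : y ∈ Box (fun _ => a) fun _ : Fin n => b) :
    (Fin.cons w y : Fin (n + 1) → ℂ) ∈ Box (fun _ => a) fun _ : Fin (n + 1) => b := by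
  intro j
  refine Fin.cases ?_ (fun j => ?_) j
  · simpa using ⟨h1, h2⟩
  · simpa using hy j

theorem dk_cons {n : ℕ} (w : ℂ) (y : Fin n → ℂ) :
    dk (Fin.cons w y : Fin (n + 1) → ℂ) = 1 / br w.im ^ 2 * dk y := by
  simp only [dk, Fin.prod_univ_succ, Fin.cons_zero, Fin.cons_succ]

theorem upd_cons {n : ℕ} (c : ℝ) (w : ℂ) (y : Fin n → ℝ) :
    Function.update (pt (fun _ => c) ((0 : Fin (n + 1)).insertNth 0 y)) 0 w =
      Fin.cons w (pt (fun _ => c) y) := by
  funext j
  refine Fin.cases ?_ (fun j => ?_) j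
  · simp
  · simp [pt, Fin.insertNth_zero']

theorem prod_pow_ge {n m : ℕ} {ρ : ℝ} (hρ : 0 < ρ) {s : Fin n → ℂ} (h : ∀ i, ρ ≤ ‖s i‖) :
    ρ ^ (m * n) ≤ ‖∏ i, s i ^ m‖ := by
  rw [norm_prod, pow_mul, ← Fin.prod_const]
  exact prod_le_prod (fun _ _ => by positivity) fun i _ => by
    rw [norm_pow]; exact pow_le_pow_left₀ hρ.le (h i) m

theorem On_succ {n : ℕ} {ρ : ℝ} (hρ : 0 < ρ) {F : (Fin (n + 1) → ℂ) → ℂ}
    (hF : ContinuousOn F (Ann (n + 1) ρ ρ)) :
    On ρ F = Oc 0 ρ fun w => On ρ fun y => F (Fin.cons w y) := by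
  refine mul_left_cancel₀ I_ne_zero ?_
  rw [sh_Oc]
  unfold On
  rw [torusIntegral_succ (tor_integrable hF (tm_ann hρ)), circleIntegral.integral_const_mul,
    pow_succ, mul_inv]
  have : I * ((I ^ n)⁻¹ * I⁻¹) = (I ^ n)⁻¹ := by field_simp
  rw [← mul_assoc, this]
  rfl

theorem pTOR : TOR := by
  intro n m
  induction n with
  | zero =>
    refine ⟨1, one_pos, fun ρ c δ lam M G hρ _ _ _ _ hM _ _ => ?_⟩
    have : In (fun _ : Fin 0 => c) (fun s => G s / ∏ i, s i ^ m) =
        On ρ fun s => G s / ∏ i, s i ^ m := by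
      unfold In On
      rw [torusIntegral_dim0, integral_unique]
      simp [Measure.real, volume_pi, Subsingleton.elim (pt _ _) (0 : Fin 0 → ℂ)]
    rw [this, sub_self, norm_zero]
    positivity
  | succ n ih =>
    obtain ⟨C, hC, ih⟩ := ih
    refine ⟨2 ^ (n + 1) + 7 * C, by positivity,
      fun ρ c δ lam M G hρ hρ1 hc hδ hlam hM hG hb => ?_⟩
    set B := Box (fun _ => -δ) fun _ : Fin (n + 1) => c with hB
    set F : (Fin (n + 1) → ℂ) → ℂ := fun s => G s / ∏ i, s i ^ m with hF
    have hc0 : 0 < c := hρ.trans hc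
    have hne : ∀ {s : Fin (n + 1) → ℂ}, (∀ i, ρ ≤ ‖s i‖) → ∏ i, s i ^ m ≠ 0 := fun h =>
      norm_pos_iff.1 ((pow_pos hρ _).trans_le (prod_pow_ge hρ h))
    have hFc : ContinuousOn F (B ∩ {s | ∀ i, ρ ≤ ‖s i‖}) :=
      (hG.1.mono Set.inter_subset_left).div (by fun_prop) fun s hs => hne hs.2
    have hFb : ∀ s ∈ B, (∀ i, ρ ≤ ‖s i‖) → ∀ T : ℝ, ∑ i, (s i).re ≤ T →
        ‖F s‖ ≤ M * Real.exp (lam * T) / ρ ^ (m * (n + 1)) * dk s := by
      intro s hs h T hT
      rw [hF, norm_div, div_mul_eq_mul_div]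
      have := dk_pos s
      refine div_le_div₀ (by positivity) ((hb s hs).trans ?_) (by positivity) (prod_pow_ge hρ h)
      rw [mul_right_comm]
      gcongr
    have hsum : ∀ s ∈ B, ∑ i, (s i).re ≤ (n + 1 : ℕ) * c := fun s hs => by
      refine (sum_le_sum fun i _ => (hs i).2).trans (le_of_eq ?_)
      simp
    have hptb : ∀ y : Fin n → ℝ, pt (fun _ => c) y ∈ Box (fun _ => -δ) fun _ : Fin n => c :=
      pt_box fun _ => ⟨by linarith, le_rfl⟩
    have hptn : ∀ (y : Fin n → ℝ) (i : Fin n), ρ ≤ ‖pt (fun _ => c) y i‖ := fun y i =>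
      le_trans (by rw [pt_re, abs_of_pos hc0]; exact hc.le) (abs_re_le_norm _)
    have hcn : ∀ {w : ℂ} {y : Fin n → ℂ}, ρ ≤ ‖w‖ → (∀ i, ρ ≤ ‖y i‖) →
        ∀ i, ρ ≤ ‖(Fin.cons w y : Fin (n + 1) → ℂ) i‖ := fun h1 h2 i =>
      Fin.cases (by simpa using h1) (fun j => by simpa using h2 j) i
    -- the two products of lines
    have hline : ∀ x : ℝ, -δ ≤ x → x ≤ c → ρ ≤ |x| →
        Integrable (fun t => F (pt (Function.update (fun _ => c) 0 x) t)) ∧
        ‖In (Function.update (fun _ => c) 0 x) F‖ ≤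
          M * Real.exp (lam * (n * c + x)) / ρ ^ (m * (n + 1)) * 2 ^ (n + 1) := by
      intro x h1 h2 h3
      have m1 : ∀ t, pt (Function.update (fun _ => c) 0 x) t ∈ B := pt_box fun j =>
        Fin.cases (by simpa using ⟨h1, h2⟩) (fun j => by simp; linarith) j
      have m2 : ∀ t i, ρ ≤ ‖pt (Function.update (fun _ : Fin (n + 1) => c) 0 x) t i‖ := fun t i =>
        le_trans (by
          rw [pt_re]
          exact Fin.cases (by simpa using h3) (fun j => by simp [abs_of_pos hc0, hc.le]) i)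
          (abs_re_le_norm _)
      refine pINB _ _ _ _ (hFc.comp_continuous (pt_cont _) fun t => ⟨m1 t, m2 t⟩) fun t => ?_
      refine hFb _ (m1 t) (m2 t) _ (le_of_eq ?_)
      simp [pt_re, Fin.sum_univ_succ, add_comm]
    have l1 := hline c (by linarith) le_rfl (by rw [abs_of_pos hc0]; exact hc.le)
    have l2 := hline (-δ) le_rfl (by linarith) (by rw [abs_neg, abs_of_pos (hρ.trans hδ)]; exact hδ.le)
    have e1 := In_ins 0 (fun _ => c) c F l1.1
    have e2 := In_ins 0 (fun _ => c) (-δ) F l2.1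
    simp only [upd_cons] at e1 e2
    rw [Function.update_eq_self (f := fun _ : Fin (n + 1) => c)] at e1
    -- the circle
    have hcirc : ∀ θ : ℝ, ‖(0 + ρ * cexp (θ * I) : ℂ)‖ = ρ := fun θ => by
      simpa using sh_circ_norm 0 hρ θ
    have hcre : ∀ {w : ℂ}, ‖w‖ = ρ → -δ ≤ w.re ∧ w.re ≤ c := fun {w} hw => by
      have := abs_le.1 ((abs_re_le_norm w).trans hw.le)
      constructor <;> linarith [this.1, this.2]
    set H : ℝ → (Fin n → ℝ) → ℂ := fun θ y =>
      (ρ * cexp (θ * I)) * F (Fin.cons (0 + ρ * cexp (θ * I)) (pt (fun _ => c) y)) with hH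
    have hHi : Integrable (Function.uncurry H)
        ((volume.restrict (Set.Ioc 0 (2 * π))).prod volume) := by
      have hK : Integrable (fun p : ℝ × (Fin n → ℝ) =>
          (M * Real.exp (lam * ((n + 1 : ℕ) * c)) / ρ ^ (m * (n + 1))) * ∏ i, 1 / br (p.2 i) ^ 2)
          ((volume.restrict (Set.Ioc 0 (2 * π))).prod volume) :=
        Integrable.mul_prod (f := fun _ : ℝ =>
          M * Real.exp (lam * ((n + 1 : ℕ) * c)) / ρ ^ (m * (n + 1))) (integrable_const _) dk_int
      refine hK.mono' (Continuous.aestronglyMeasurable ?_) (.of_forall fun p => ?_)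
      · refine Continuous.mul (by fun_prop) (hFc.comp_continuous
          (f := fun p : ℝ × (Fin n → ℝ) =>
            (Fin.cons (0 + ρ * cexp (p.1 * I)) (pt (fun _ => c) p.2) : Fin (n + 1) → ℂ))
          (Continuous.finCons (by fun_prop) ((pt_cont _).comp continuous_snd)) fun p => ?_)
        exact ⟨cons_box (hcre (hcirc _)).1 (hcre (hcirc _)).2 (hptb _),
          hcn (hcirc _).ge (hptn _)⟩
      · have mb := cons_box (hcre (hcirc p.1)).1 (hcre (hcirc p.1)).2 (hptb p.2)
        have h1 := hFb _ mb (hcn (hcirc _).ge (hptn _)) _ (hsum _ mb)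
        have h2 : ‖(ρ * cexp (p.1 * I) : ℂ)‖ ≤ 1 := by
          have := hcirc p.1
          rw [zero_add] at this
          rw [this]; exact hρ1
        change ‖_ * _‖ ≤ _
        rw [norm_mul, ← dk_pt (fun _ => c)]
        refine (mul_le_of_le_one_left (norm_nonneg _) h2).trans (h1.trans ?_)
        rw [dk_cons]
        exact mul_le_mul_of_nonneg_left
          (mul_le_of_le_one_left (dk_pos _).le (one_div_br_le _)) (by positivity)
    have hHl : Integrable (fun θ : ℝ => ∫ y, H θ y) (volume.restrict (Set.Ioc 0 (2 * π))) :=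
      hHi.integral_prod_left
    have hHr : Integrable fun y : Fin n → ℝ => ∫ θ in Set.Ioc 0 (2 * π), H θ y :=
      hHi.integral_prod_right
    have hstep : ∀ y : Fin n → ℝ,
        Iv c (fun w => F (Fin.cons w (pt (fun _ => c) y))) =
          Iv (-δ) (fun w => F (Fin.cons w (pt (fun _ => c) y))) +
            ∫ θ in Set.Ioc 0 (2 * π), H θ y := by
      intro y
      have hd : ∀ w ∈ Strip (-δ) c \ {0},
          DifferentiableAt ℂ (fun w => F (Fin.cons w (pt (fun _ => c) y))) w := by
        intro w hw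
        have g1 := hG.line (Fin.cons 0 (pt (fun _ => c) y)) 0 (w := w)
          (by rw [Fin.update_cons_zero]; exact cons_box hw.1.1 hw.1.2 (hptb y))
        simp only [Fin.update_cons_zero] at g1
        simp only [hF, Fin.prod_univ_succ, Fin.cons_zero, Fin.cons_succ]
        refine g1.div (by fun_prop) (mul_ne_zero (pow_ne_zero _ hw.2) ?_)
        exact norm_pos_iff.1 ((pow_pos hρ _).trans_le (prod_pow_ge hρ (hptn y)))
      have := sh_gen (a := -δ) (b := c) (ρ := ρ) (z := 0)
        (C := M * Real.exp (lam * ((n + 1 : ℕ) * c)) / ρ ^ (m * (n + 1)))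
        (f := fun w => F (Fin.cons w (pt (fun _ => c) y))) hρ (by simpa using hδ) (by simpa using hc)
        (fun w hw => (hd w hw).continuousAt.continuousWithinAt)
        (fun w hw => (hd w ⟨⟨hw.1.1.le, hw.1.2.le⟩, hw.2⟩).differentiableWithinAt) fun w hw h => by
          have mb := cons_box hw.1 hw.2 (hptb y)
          refine (hFb _ mb (hcn (by simpa using h) (hptn _)) _ (hsum _ mb)).trans ?_
          rw [dk_cons, div_eq_mul_one_div (_ / _) (br w.im ^ 2)]
          exact mul_le_mul_of_nonneg_left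
            (mul_le_of_le_one_right (by positivity) (dk_le_one _)) (by positivity)
      rw [this, Oc, intervalIntegral.integral_of_le Real.two_pi_pos.le]
    have i2 : Integrable fun y : Fin n → ℝ => Iv (-δ) fun w => F (Fin.cons w (pt (fun _ => c) y)) := by
      have := (int_ins_int 0 _ l2.1).integral_prod_right
      simpa only [pt_ins, upd_cons, Iv] using this
    have e3 : In (fun _ => c) F = In (Function.update (fun _ => c) 0 (-δ)) F +
        ∫ θ in Set.Ioc 0 (2 * π), ∫ y, H θ y := by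
      rw [e1, e2, integral_integral_swap hHi, ← integral_add i2 hHr]
      exact integral_congr_ae (.of_forall hstep)
    have hann : Ann (n + 1) ρ ρ ⊆ B ∩ {s | ∀ i, ρ ≤ ‖s i‖} := fun s hs =>
      ⟨fun i => hcre (le_antisymm (hs i).2 (hs i).1), fun i => (hs i).1⟩
    have e4 := On_succ hρ (hFc.mono hann)
    rw [Oc, intervalIntegral.integral_of_le Real.two_pi_pos.le] at e4
    have i4 : IntegrableOn (fun θ : ℝ => (ρ * cexp (θ * I)) *
        On ρ fun y : Fin n → ℂ => F (Fin.cons (0 + ρ * cexp (θ * I)) y)) (Set.Ioc 0 (2 * π)) := by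
      refine (Continuous.integrableOn_Icc ?_).mono_set Set.Ioc_subset_Icc_self
      refine Continuous.mul (by fun_prop) (continuous_const.mul ?_)
      refine continuous_parametric_integral_of_continuous ?_ isCompact_Icc
      refine Continuous.smul (f := fun p : ℝ × (Fin n → ℝ) => ∏ i, (ρ : ℂ) * cexp (p.2 i * I) * I)
        (by fun_prop) ((hFc.mono hann).comp_continuous (f := fun p : ℝ × (Fin n → ℝ) => (Fin.cons (0 + ρ * cexp (p.1 * I))
          (torusMap (0 : Fin n → ℂ) (fun _ => ρ) p.2) : Fin (n + 1) → ℂ))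
        (Continuous.finCons (by fun_prop) ((tm_cont _).comp continuous_snd)) fun p j => ?_)
      refine Fin.cases ?_ (fun j => ?_) j
      · rw [Fin.cons_zero, hcirc]; exact ⟨le_rfl, le_rfl⟩
      · rw [Fin.cons_succ]; exact tm_ann hρ p.2 j
    have hE : ∀ θ : ℝ, ‖(∫ y, H θ y) - (ρ * cexp (θ * I)) *
        On ρ fun y : Fin n → ℂ => F (Fin.cons (0 + ρ * cexp (θ * I)) y)‖ ≤
        C * M * Real.exp (lam * ((n + 1 : ℕ) * c - δ)) / ρ ^ (m * (n + 1)) := by
      intro θ
      set w : ℂ := 0 + ρ * cexp (θ * I) with hw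
      have hwn : ‖w‖ = ρ := hcirc θ
      have hsp : ∀ y : Fin n → ℂ, F (Fin.cons w y) = G (Fin.cons w y) / w ^ m / ∏ i, y i ^ m := by
        intro y
        simp only [hF, Fin.prod_univ_succ, Fin.cons_zero, Fin.cons_succ, div_div]
      have h := ih ρ c δ lam (M * Real.exp (lam * c) / ρ ^ m) (fun y => G (Fin.cons w y) / w ^ m)
        hρ hρ1 hc hδ hlam (by positivity) ⟨?_, fun y hy i => ?_⟩ fun y hy => ?_
      · simp only [← hsp] at h
        have h0 : ∫ y, H θ y = (ρ * cexp (θ * I)) *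
            In (fun _ => c) fun y : Fin n → ℂ => F (Fin.cons w y) := by
          rw [In, ← integral_const_mul]
        have h2 : ‖(ρ * cexp (θ * I) : ℂ)‖ ≤ 1 := by
          rw [hw, zero_add] at hwn
          rw [hwn]; exact hρ1
        rw [h0, ← mul_sub, norm_mul]
        refine (mul_le_of_le_one_left (norm_nonneg _) h2).trans (h.trans (le_of_eq ?_))
        have : lam * ((n + 1 : ℕ) * c - δ) = lam * c + lam * (n * c - δ) := by push_cast; ring
        rw [this, Real.exp_add, mul_add_one m n, pow_add]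
        field_simp
      · refine ContinuousOn.div_const (hG.1.comp (f := fun y : Fin n → ℂ =>
          (Fin.cons w y : Fin (n + 1) → ℂ)) (cons_cont.comp (Continuous.prodMk_right w)).continuousOn
          fun y hy => ?_) _
        exact cons_box (hcre hwn).1 (hcre hwn).2 hy
      · have := hG.2 _ (cons_box (hcre hwn).1 (hcre hwn).2 hy) i.succ
        simp only [← Fin.cons_update, Fin.cons_succ] at this
        exact this.div_const _
      · have h1 := hb _ (cons_box (hcre hwn).1 (hcre hwn).2 hy)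
        rw [dk_cons, Fin.sum_univ_succ, Fin.cons_zero, mul_add, Real.exp_add] at h1
        simp only [Fin.cons_succ] at h1
        rw [norm_div, norm_pow, hwn, div_mul_eq_mul_div, div_mul_eq_mul_div]
        refine div_le_div_of_nonneg_right (h1.trans ?_) (by positivity)
        have := dk_pos y
        have h3 := one_div_br_le w.im
        have h4 : Real.exp (lam * w.re) ≤ Real.exp (lam * c) := by gcongr; exact (hcre hwn).2
        calc M * (1 / br w.im ^ 2 * dk y) * (Real.exp (lam * w.re) * Real.exp (lam * ∑ i, (y i).re))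
            ≤ M * (1 * dk y) * (Real.exp (lam * c) * Real.exp (lam * ∑ i, (y i).re)) := by gcongr
          _ = _ := by ring
    rw [e3, e4, add_sub_assoc, ← integral_sub hHl i4]
    refine (norm_add_le _ _).trans ?_
    have b2 := norm_setIntegral_le_of_norm_le_const (μ := volume) (s := Set.Ioc 0 (2 * π))
      measure_Ioc_lt_top fun θ _ => hE θ
    rw [Real.volume_real_Ioc_of_le Real.two_pi_pos.le, sub_zero] at b2
    have b3 : Real.exp (lam * (n * c + -δ)) ≤ Real.exp (lam * ((n + 1 : ℕ) * c - δ)) := by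
      gcongr
      push_cast
      linarith
    have b4 : 2 * π ≤ 7 := by linarith [Real.pi_lt_d2]
    set E := Real.exp (lam * ((n + 1 : ℕ) * c - δ)) with hEdef
    calc _ ≤ M * E / ρ ^ (m * (n + 1)) * 2 ^ (n + 1) + C * M * E / ρ ^ (m * (n + 1)) * 7 :=
          add_le_add (l2.2.trans (by gcongr)) (b2.trans (by gcongr))
      _ = _ := by ring

end Pool.Agent.Q4
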