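import Pool.Agent.P.MP_ea46f5_nt.Q4.S4

/-! The Vandermonde factor. -/

namespace Pool.Agent.Q4

open Complex Finset Pool.Agent.QM

theorem vd_pm (s : Finset (Fin 4)) (f : Fin 4 → ℂ) :
    ∏ j ∈ s, f j = ∏ j, if j ∈ s then f j else 1 := (Fintype.prod_ite_mem s f).symm

theorem vd_four (w : V4) : Vd w = (w 1 - w 0) * (w 2 - w 0) * (w 3 - w 0) *
    ((w 2 - w 1) * (w 3 - w 1)) * (w 3 - w 2) := by
  simp +decide only [Vd, vd_pm (Ioi _), Fin.prod_univ_four, if_true, if_false, one_mul, mul_one]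

theorem vd_ten (f : Fin 4 → Fin 4 → ℂ) : ∏ i, ∏ j ∈ Ici i, f i j =
    f 0 0 * f 0 1 * f 0 2 * f 0 3 * (f 1 1 * f 1 2 * f 1 3) * (f 2 2 * f 2 3) * f 3 3 := by
  simp +decide only [vd_pm (Ici _), Fin.prod_univ_four, if_true, if_false, one_mul, mul_one]

theorem vd_br (t : ℝ) : 1 ≤ br t := le_add_of_nonneg_right (abs_nonneg t)

theorem vd_br_add (a b : ℝ) : br (a + b) ≤ br a * br b := by
  unfold br
  nlinarith [abs_add_le a b, mul_nonneg (abs_nonneg a) (abs_nonneg b)]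

theorem vd_gn (n : ℕ) (u : V4) : gn n u = gn 1 u ^ n := by
  simp only [gn, pow_one, prod_pow]

theorem vd_le (u : V4) (j : Fin 4) : br (u j).im ≤ gn 1 u := by
  simp only [gn, pow_one]
  rw [← mul_prod_erase _ _ (mem_univ j)]
  exact le_mul_of_one_le_right (zero_le_one.trans (vd_br _))
    (one_le_prod fun i _ => vd_br _)

theorem vd_one (u : V4) : 1 ≤ gn 1 u := (vd_br _).trans (vd_le u 0)

/-- entire functions bounded by the `m`-th power of `28 gn 1` -/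
def Bn (m : ℕ) (f : V4 → ℂ) : Prop :=
  Differentiable ℂ f ∧ ∀ u ∈ Bx (-1) 13, ‖f u‖ ≤ (28 * gn 1 u) ^ m

theorem Bn.mul {m n : ℕ} {f g : V4 → ℂ} (hf : Bn m f) (hg : Bn n g) :
    Bn (m + n) fun u => f u * g u :=
  ⟨hf.1.mul hg.1, fun u hu => by
    rw [norm_mul, pow_add]
    exact mul_le_mul (hf.2 u hu) (hg.2 u hu) (norm_nonneg _) ((norm_nonneg _).trans (hf.2 u hu))⟩

theorem Bn.le {m : ℕ} {f : V4 → ℂ} (hf : Bn m f) (hm : m ≤ 24) {u : V4} (hu : u ∈ Bx (-1) 13) :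
    ‖f u‖ ≤ 28 ^ 24 * gn 24 u := by
  rw [vd_gn, ← mul_pow]
  exact (hf.2 u hu).trans (pow_le_pow_right₀ (by linarith [vd_one u]) hm)

theorem vd_norm {u : V4} (hu : u ∈ Bx (-1) 13) (j : Fin 4) : ‖u j‖ ≤ 13 * gn 1 u := by
  have h1 : |(u j).re| ≤ 13 := abs_le.2 ⟨le_trans (by norm_num [cs]) (hu j).1, (hu j).2⟩
  have h2 := vd_le u j
  have h3 := norm_le_abs_re_add_abs_im (u j)
  have h4 := abs_nonneg (u j).im
  unfold br at h2
  linarith

theorem bn_x (j : Fin 4) : Bn 1 fun u => u j :=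
  ⟨by fun_prop, fun u hu => by linarith [vd_norm hu j, vd_one u]⟩

theorem bn_sub (i j : Fin 4) : Bn 1 fun u => u i - u j :=
  ⟨by fun_prop, fun u hu => by
    linarith [vd_norm hu i, vd_norm hu j, vd_one u, norm_sub_le (u i) (u j)]⟩

theorem bn_add (i j : Fin 4) : Bn 1 fun u => u i + u j :=
  ⟨by fun_prop, fun u hu => by
    linarith [vd_norm hu i, vd_norm hu j, vd_one u, norm_add_le (u i) (u j)]⟩

theorem bn_half (j : Fin 4) : Bn 1 fun u => u j - 1 / 2 :=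
  ⟨by fun_prop, fun u hu => by
    have h : ‖(1 / 2 : ℂ)‖ = 1 / 2 := by simp
    linarith [vd_norm hu j, vd_one u, norm_sub_le (u j) (1 / 2)]⟩

theorem bn_sq (i j : Fin 4) : Bn 2 fun u => u i ^ 2 - u j ^ 2 := by
  simpa only [sq_sub_sq] using (bn_add i j).mul (bn_sub i j)

theorem bn_vd : Bn 12 fun u => Vd fun j => u j ^ 2 := by
  simpa only [vd_four] using ((((bn_sq 1 0).mul (bn_sq 2 0)).mul (bn_sq 3 0)).mul
    ((bn_sq 2 1).mul (bn_sq 3 1))).mul (bn_sq 3 2)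

theorem vd_div (i : Fin 4) : ∃ Q : V4 → ℂ, Bn 9 Q ∧
    ∀ u : V4, Vd (fun j => u j ^ 2) = Q u * ∏ j ∈ univ.erase i, (u j - u i) := by
  have h : ∀ a b c d e : Fin 4, Bn 9 fun u => (u a + u i) * (u b + u i) * (u c + u i) *
      ((u b ^ 2 - u a ^ 2) * (u c ^ 2 - u a ^ 2) * (u d ^ 2 - u e ^ 2)) := fun a b c d e =>
    (((bn_add a i).mul (bn_add b i)).mul (bn_add c i)).mul
      (((bn_sq b a).mul (bn_sq c a)).mul (bn_sq d e))
  fin_cases i
  · refine ⟨_, h 1 2 3 3 2, fun u => ?_⟩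
    simp +decide only [vd_four, vd_pm (erase _ _), Fin.prod_univ_four, if_true, if_false,
      Fin.zero_eta]
    ring
  · refine ⟨_, h 0 2 3 2 3, fun u => ?_⟩
    simp +decide only [vd_four, vd_pm (erase _ _), Fin.prod_univ_four, if_true, if_false,
      Fin.mk_one]
    ring
  · refine ⟨_, h 0 1 3 3 1, fun u => ?_⟩
    simp +decide only [vd_four, vd_pm (erase _ _), Fin.prod_univ_four, if_true, if_false,
      Fin.reduceFinMk]
    ring
  · refine ⟨_, h 0 1 2 1 2, fun u => ?_⟩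
    simp +decide only [vd_four, vd_pm (erase _ _), Fin.prod_univ_four, if_true, if_false,
      Fin.reduceFinMk]
    ring

theorem pVDP : VDP := by
  refine ⟨28 ^ 24, 24, by positivity, bn_vd.1, fun u hu => ⟨?_, ?_, ?_, ?_⟩, ?_, fun i => ?_,
    fun u => ?_⟩
  · simpa only [sq] using (bn_vd.mul bn_vd).le le_rfl hu
  · exact ((bn_sq 0 1).mul (bn_sq 2 3)).le (by norm_num) hu
  · rw [Fin.prod_univ_four]
    exact ((((bn_x 0).mul (bn_x 1)).mul (bn_x 2)).mul (bn_x 3)).le (by norm_num) hu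
  · rw [hf, Fin.prod_univ_four]
    exact ((((bn_half 0).mul (bn_half 1)).mul (bn_half 2)).mul (bn_half 3)).le (by norm_num) hu
  · have h := bn_vd.mul ((((bn_sq 2 0).mul (bn_sq 3 0)).mul (bn_sq 2 1)).mul (bn_sq 3 1))
    refine ⟨_, h.1, fun u => ?_, fun u hu => h.le (by norm_num) hu⟩
    rw [sq, mul_assoc]
    congr 1
    rw [vd_four, an]
    ring
  · obtain ⟨Q, hQ, e⟩ := vd_div i
    have h := bn_vd.mul hQ
    exact ⟨_, h.1, fun u => by rw [sq, mul_assoc, ← e], fun u hu => h.le (by norm_num) hu⟩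
  · rw [vd_four, vd_four, vd_ten, Fin.prod_univ_four]
    ring

end Pool.Agent.Q4
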