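import Pool.Agent.P.MP_ea46f5_nt.Q4.TCa

/-! The Cauchy determinant bound. -/

namespace Pool.Agent.Q4

open Complex MeasureTheory Finset Pool.Agent.QM
open scoped Real

theorem tb_den {e : ℝ} (_he : 0 < e) {w : ℂ} (h : e ≤ |w.re|) : (e + |w.im|) / 2 ≤ ‖w‖ := by
  linarith [Complex.abs_re_le_norm w, Complex.abs_im_le_norm w]

theorem tb_ne {e : ℝ} (he : 0 < e) {w : ℂ} (h : e ≤ |w.re|) : w ≠ 0 := by
  rintro rfl
  simp at h
  linarith

theorem tb_cau {e : ℝ} (he : 0 < e) (x : V4) (h : ∀ i j, i ≠ j → e ≤ |(x i + x j).re|) :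
    ‖(x 0 - x 1) * (x 2 - x 3) / ((x 0 + x 2) * (x 0 + x 3) * (x 1 + x 2) * (x 1 + x 3))‖ ≤
      4 * (1 / ((e + |(x 0 + x 2).im|) * (e + |(x 1 + x 3).im|)) +
        1 / ((e + |(x 0 + x 3).im|) * (e + |(x 1 + x 2).im|))) := by
  have n := fun i j hij => tb_ne he (h i j hij)
  have d := fun i j hij => tb_den he (h i j hij)
  have n02 := n 0 2 (by decide)
  have n03 := n 0 3 (by decide)
  have n12 := n 1 2 (by decide)
  have n13 := n 1 3 (by decide)
  have e1 : (x 0 - x 1) * (x 2 - x 3) / ((x 0 + x 2) * (x 0 + x 3) * (x 1 + x 2) * (x 1 + x 3)) =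
      1 / ((x 0 + x 2) * (x 1 + x 3)) - 1 / ((x 0 + x 3) * (x 1 + x 2)) := by
    field_simp
    ring
  have k : ∀ a b : ℂ, (e + |a.im|) / 2 ≤ ‖a‖ → (e + |b.im|) / 2 ≤ ‖b‖ →
      ‖1 / (a * b)‖ ≤ 4 * (1 / ((e + |a.im|) * (e + |b.im|))) := fun a b ha hb => by
    have pa : 0 < e + |a.im| := by positivity
    have pb : 0 < e + |b.im| := by positivity
    rw [norm_div, norm_one, norm_mul]
    calc _ ≤ 1 / ((e + |a.im|) / 2 * ((e + |b.im|) / 2)) := by gcongr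
      _ = _ := by field_simp; norm_num
  rw [e1, mul_add 4]
  exact (norm_sub_le _ _).trans (add_le_add (k _ _ (d 0 2 (by decide)) (d 1 3 (by decide)))
    (k _ _ (d 0 3 (by decide)) (d 1 2 (by decide))))

/-- The common shape of the diagonal and of the flips. -/
theorem tb_core (hLo : ∀ w : ℂ, w ≠ 0 → Lo 1 (1 + w) = lz w / w) {C : ℝ} (hC : 1 ≤ C)
    (hlz : ∀ w : ℂ, -(3 / 4) ≤ w.re → w.re ≤ 29 → ‖lz w‖ ≤ C * br w.im ^ 2)
    {e : ℝ} (he : 0 < e) (x : V4) (S : Finset (Fin 4)) (hx : ∀ j, |(x j).re| ≤ 1 / 4)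
    (h0 : ∀ j, x j ≠ 0) (h : ∀ i j, i ≠ j → e ≤ |(x i + x j).re|) :
    ‖an x * (∏ j ∈ S, x j * Lo 1 (1 + x j + x j)) * (Lo 1 (1 + x 0 + x 1) * Lo 1 (1 + x 0 + x 2) *
        Lo 1 (1 + x 0 + x 3) * Lo 1 (1 + x 1 + x 2) * Lo 1 (1 + x 1 + x 3) *
        Lo 1 (1 + x 2 + x 3))‖ ≤ 4 * C ^ 10 * gn 1 x ^ 40 *
      (1 / ((e + |(x 0 + x 2).im|) * (e + |(x 1 + x 3).im|)) +
        1 / ((e + |(x 0 + x 3).im|) * (e + |(x 1 + x 2).im|))) := by
  set G := gn 1 x with hG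
  have hG1 : 1 ≤ G := (tc_br1 _).trans (tc_gn x 0)
  have hB : 1 ≤ C * G ^ 4 := one_le_mul_of_one_le_of_one_le hC (one_le_pow₀ hG1)
  have hl : ∀ i j, ‖lz (x i + x j)‖ ≤ C * G ^ 4 := fun i j => by
    have a := abs_le.1 (hx i)
    have b := abs_le.1 (hx j)
    refine (hlz _ (by rw [add_re]; linarith) (by rw [add_re]; linarith)).trans ?_
    have : br (x i + x j).im ^ 2 ≤ (G ^ 2) ^ 2 :=
      pow_le_pow_left₀ (by linarith [tc_br1 (x i + x j).im]) (tc_pair x i j) 2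
    calc _ ≤ C * (G ^ 2) ^ 2 := by gcongr
      _ = _ := by ring
  have hd : ‖∏ j ∈ S, x j * Lo 1 (1 + x j + x j)‖ ≤ (C * G ^ 4) ^ 4 := by
    rw [norm_prod]
    calc _ ≤ ∏ _j ∈ S, C * G ^ 4 := by
          refine prod_le_prod (fun _ _ => norm_nonneg _) fun j _ => ?_
          have hn : x j + x j ≠ 0 := by rw [← two_mul]; exact mul_ne_zero two_ne_zero (h0 j)
          have e1 : x j * Lo 1 (1 + x j + x j) = lz (x j + x j) / 2 := by
            have := h0 j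
            rw [add_assoc, hLo _ hn, ← two_mul]; field_simp
          rw [e1, norm_div, Complex.norm_ofNat]
          linarith [hl j j, norm_nonneg (lz (x j + x j))]
      _ = (C * G ^ 4) ^ S.card := by simp
      _ ≤ _ := pow_le_pow_right₀ hB (by simpa using card_le_univ S)
  have n := fun i j hij => tb_ne he (h i j hij)
  have n01 := n 0 1 (by decide)
  have n02 := n 0 2 (by decide)
  have n03 := n 0 3 (by decide)
  have n12 := n 1 2 (by decide)
  have n13 := n 1 3 (by decide)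
  have n23 := n 2 3 (by decide)
  have e1 : an x * (∏ j ∈ S, x j * Lo 1 (1 + x j + x j)) * (Lo 1 (1 + x 0 + x 1) *
        Lo 1 (1 + x 0 + x 2) * Lo 1 (1 + x 0 + x 3) * Lo 1 (1 + x 1 + x 2) * Lo 1 (1 + x 1 + x 3) *
        Lo 1 (1 + x 2 + x 3)) = (∏ j ∈ S, x j * Lo 1 (1 + x j + x j)) *
      (lz (x 0 + x 1) * lz (x 0 + x 2) * lz (x 0 + x 3) * lz (x 1 + x 2) * lz (x 1 + x 3) *
        lz (x 2 + x 3)) *
      ((x 0 - x 1) * (x 2 - x 3) / ((x 0 + x 2) * (x 0 + x 3) * (x 1 + x 2) * (x 1 + x 3))) := by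
    generalize (∏ j ∈ S, x j * Lo 1 (1 + x j + x j)) = P
    simp only [add_assoc]
    rw [hLo _ n01, hLo _ n02, hLo _ n03, hLo _ n12, hLo _ n13, hLo _ n23]
    unfold an
    field_simp
    ring
  rw [e1, norm_mul, norm_mul]
  have hc := tb_cau he x h
  calc _ ≤ (C * G ^ 4) ^ 4 * (C * G ^ 4 * (C * G ^ 4) * (C * G ^ 4) * (C * G ^ 4) * (C * G ^ 4) *
        (C * G ^ 4)) * (4 * (1 / ((e + |(x 0 + x 2).im|) * (e + |(x 1 + x 3).im|)) +
        1 / ((e + |(x 0 + x 3).im|) * (e + |(x 1 + x 2).im|)))) := by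
        simp only [norm_mul]
        gcongr <;> apply hl
    _ = _ := by ring

theorem tb_ZO (hLo : ∀ w : ℂ, w ≠ 0 → Lo 1 (1 + w) = lz w / w) {C : ℝ} (hC : 1 ≤ C)
    (hlz : ∀ w : ℂ, -(3 / 4) ≤ w.re → w.re ≤ 29 → ‖lz w‖ ≤ C * br w.im ^ 2)
    {e : ℝ} (he : 0 < e) (u : V4) (hu : ∀ j, e ≤ (u j).re ∧ (u j).re ≤ 1 / 4) :
    ‖an u * (∏ j, u j) * ZO u‖ ≤ 4 * C ^ 10 * gn 1 u ^ 40 * cm e (cs 1) fun j => (u j).im := by
  have h := tb_core hLo hC hlz he u univ
    (fun j => by rw [abs_le]; constructor <;> linarith [hu j])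
    (fun j => tb_ne he ((hu j).1.trans (le_abs_self _)))
    (fun i j _ => by rw [add_re]; linarith [hu i, hu j, le_abs_self ((u i).re + (u j).re)])
  have e1 : an u * (∏ j, u j) * ZO u = an u * (∏ j, u j * Lo 1 (1 + u j + u j)) *
      (Lo 1 (1 + u 0 + u 1) * Lo 1 (1 + u 0 + u 2) * Lo 1 (1 + u 0 + u 3) * Lo 1 (1 + u 1 + u 2) *
        Lo 1 (1 + u 1 + u 3) * Lo 1 (1 + u 2 + u 3)) := by
    unfold ZO
    rw [tc_prod fun i j => Lo 1 (1 + u i + u j)]
    simp only [Fin.prod_univ_four]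
    ring
  rw [e1]
  simpa [cm, cs] using h

theorem tb_FZ (hLo : ∀ w : ℂ, w ≠ 0 → Lo 1 (1 + w) = lz w / w) {C : ℝ} (hC : 1 ≤ C)
    (hlz : ∀ w : ℂ, -(3 / 4) ≤ w.re → w.re ≤ 29 → ‖lz w‖ ≤ C * br w.im ^ 2)
    {e : ℝ} (he : 0 < e) (u : V4) (hu : ∀ j, e ≤ (u j).re ∧ (u j).re ≤ 1 / 4) (i : Fin 4)
    (hi : ∀ j, j ≠ i → e ≤ |(u j).re - (u i).re|) :
    ‖an u * (∏ j ∈ univ.erase i, u j) * FZ i u‖ ≤
      4 * C ^ 10 * gn 1 u ^ 40 * cm e (sgi i) fun j => (u j).im := by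
  set x : V4 := fun j => (sgi i j : ℝ) * u j with hx
  have xi : x i = -u i := by simp [hx, sgi]
  have xj : ∀ j, j ≠ i → x j = u j := fun j hj => by simp [hx, sgi, hj]
  have hs : ∀ j, x j = u j ∨ x j = -u j := fun j => by
    by_cases hj : j = i
    · right; rw [hj, xi]
    · left; exact xj j hj
  have h := tb_core hLo hC hlz he x (univ.erase i)
    (fun j => by
      have hj : |(u j).re| ≤ 1 / 4 := by rw [abs_le]; constructor <;> linarith [hu j]
      rcases hs j with h | h <;> rw [h]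
      · exact hj
      · rwa [neg_re, abs_neg])
    (fun j => by
      have := tb_ne he ((hu j).1.trans (le_abs_self _))
      rcases hs j with h | h <;> rw [h] <;> simpa using this)
    (fun a b hab => by
      by_cases ha : a = i
      · have hb : b ≠ i := fun hb => hab (ha.trans hb.symm)
        rw [ha, xi, xj b hb, add_re, neg_re, neg_add_eq_sub]
        exact hi b hb
      · by_cases hb : b = i
        · rw [hb, xi, xj a ha, add_re, neg_re, ← sub_eq_add_neg]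
          exact hi a ha
        · rw [xj a ha, xj b hb, add_re]
          linarith [hu a, hu b, le_abs_self ((u a).re + (u b).re)])
  have eg : gn 1 x = gn 1 u := by
    unfold gn
    refine prod_congr rfl fun j _ => ?_
    rcases hs j with h | h <;> rw [h]
    simp [br]
  have ei : ∀ a b, (x a + x b).im = sgi i a * (u a).im + sgi i b * (u b).im := fun a b => by
    simp [hx]
  have e1 : an u * (∏ j ∈ univ.erase i, u j) * FZ i u =
      an x * (∏ j ∈ univ.erase i, x j * Lo 1 (1 + x j + x j)) *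
      (Lo 1 (1 + x 0 + x 1) * Lo 1 (1 + x 0 + x 2) * Lo 1 (1 + x 0 + x 3) * Lo 1 (1 + x 1 + x 2) *
        Lo 1 (1 + x 1 + x 3) * Lo 1 (1 + x 2 + x 3)) := by
    have h0 : Ici (0 : Fin 4) = {0, 1, 2, 3} := by decide
    have h1 : Ici (1 : Fin 4) = {1, 2, 3} := by decide
    have h2 : Ici (2 : Fin 4) = {2, 3} := by decide
    have h3 : Ici (3 : Fin 4) = {3} := by decide
    have u0 : (univ : Finset (Fin 4)) = {0, 1, 2, 3} := by decide
    have f : ∀ a b : ℂ, 1 + -a + b = 1 + (b - a) := fun a b => by ring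
    have g : ∀ a b : ℂ, 1 + a + -b = 1 + (a - b) := fun a b => by ring
    unfold FZ ZX an
    fin_cases i <;> simp [hx, sgi, u0, h0, h1, h2, h3, erase_insert_of_ne, f, g] <;> ring
  rw [e1]
  simpa only [cm, eg, ei] using h

end Pool.Agent.Q4
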