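import Pool.Agent.P.MP_ea46f5_nt.Q4.S4
import Pool.Agent.P.MP_ea46f5_nt.Q4.TBa

/-! Size of the pair weight, the Cauchy determinant, the dual integrand. -/

namespace Pool.Agent.Q4

open Complex MeasureTheory Finset Pool.Agent.QM
open scoped Real

noncomputable def wq (κ T v : ℝ) (w : ℂ) : ℂ := (w + 1 / 2) * cexp (κ * (w - T * I) ^ 2 + v * w)

theorem w_gn (n : ℕ) (u : V4) : gn n u = gn 1 u ^ n := by simp [gn, prod_pow]

theorem w_dn (n : ℕ) (u : V4) : dn n u = 1 / gn 1 u ^ n := by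
  simp [dn, gn, prod_pow, prod_inv_distrib]

theorem w_g1 (u : V4) : 1 ≤ gn 1 u := (tc_br1 _).trans (tc_gn u 0)

theorem w_neg (t : ℝ) : br (-t) = br t := by simp [br]

theorem wq_bd (hS : SH4) {κ : ℝ} (hκ : Kp κ) (n : ℕ) : ∃ C : ℝ, 0 < C ∧ ∀ (T v : ℝ) (w : ℂ),
    0 ≤ w.re → w.re ≤ 12 → ‖wq κ T v w‖ * br w.im ^ n ≤
      C * br T ^ (n + 1) * Real.exp (v * w.re) * Real.exp (-|w.im - T|) := by
  obtain ⟨C, hC, h⟩ := hS.2.2 κ (n + 1) 0 hκ.1
  refine ⟨13 * Real.exp 144 * C, by positivity, fun T v w h0 h1 => ?_⟩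
  have h2 := (h w.im T).1
  have h3 : ‖w + 1 / 2‖ ≤ 13 * br w.im := by
    have := tc_norm (s := w + 1 / 2) (a := 13) (by norm_num)
      (by rw [abs_le]; constructor <;> simp <;> linarith)
    simpa using this
  have h4 : (κ * (w - T * I) ^ 2 + v * w : ℂ).re =
      κ * w.re ^ 2 + -κ * (w.im - T) ^ 2 + v * w.re := by
    simp [sq]; ring
  have h5 : κ * w.re ^ 2 ≤ 144 := by nlinarith [hκ.1, hκ.2]
  rw [wq, norm_mul, Complex.norm_exp, h4, Real.exp_add, Real.exp_add]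
  have hb := tc_br1 w.im
  calc _ ≤ 13 * br w.im * (Real.exp 144 * Real.exp (-κ * (w.im - T) ^ 2) * Real.exp (v * w.re)) *
        br w.im ^ n := by gcongr
    _ = 13 * Real.exp 144 * Real.exp (v * w.re) *
        (br w.im ^ (n + 1) * Real.exp (-κ * (w.im - T) ^ 2)) := by ring
    _ ≤ 13 * Real.exp 144 * Real.exp (v * w.re) *
        (C * br T ^ (n + 1) * Real.exp (-|w.im - T|)) := by gcongr
    _ = _ := by ring

theorem pW2B (hS : SH4) : W2B := by
  intro κ κ' n hκ hκ'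
  obtain ⟨C, hC, h⟩ := wq_bd hS hκ n
  obtain ⟨D, hD, h'⟩ := wq_bd hS hκ' n
  refine ⟨2 * (n + 1), C ^ 2 * D ^ 2, by positivity, fun t v t' v' =>
    ⟨fun u => wq κ t v (u 0) * wq κ' t' v' (u 1) * wq κ (-t) v (u 2) * wq κ' (-t') v' (u 3),
      by unfold wq; fun_prop, fun u => ?_, fun u hu => ?_⟩⟩
  · simp only [W2, pw, wq, hf, Fin.prod_univ_four]
    ring
  · have a0 := h t v (u 0) (hu 0).1 (hu 0).2
    have a1 := h' t' v' (u 1) (hu 1).1 (hu 1).2
    have a2 := h (-t) v (u 2) (hu 2).1 (hu 2).2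
    have a3 := h' (-t') v' (u 3) (hu 3).1 (hu 3).2
    rw [w_neg] at a2 a3
    have b := fun j => (zero_le_one.trans (tc_br1 (u j).im))
    have c := zero_le_one.trans (tc_br1 t)
    have c' := zero_le_one.trans (tc_br1 t')
    have b0 := b 0
    have b1 := b 1
    have b2 := b 2
    have b3 := b 3
    simp only [gn, Fin.prod_univ_four, norm_mul, Matrix.cons_val_zero, Matrix.cons_val_one,
      Matrix.cons_val, mul_add, Real.exp_add]
    calc _ = ‖wq κ t v (u 0)‖ * br (u 0).im ^ n * (‖wq κ' t' v' (u 1)‖ * br (u 1).im ^ n) *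
          (‖wq κ (-t) v (u 2)‖ * br (u 2).im ^ n) *
          (‖wq κ' (-t') v' (u 3)‖ * br (u 3).im ^ n) := by ring
      _ ≤ _ := by
          refine (mul_le_mul (mul_le_mul (mul_le_mul a0 a1 (by positivity) (by positivity)) a2
            (by positivity) (by positivity)) a3 (by positivity) (by positivity)).trans_eq ?_
          ring

theorem pCAU (hZ : ZF) : CAU := by
  obtain ⟨-, -, hLo, -, C, hC, hlz, -⟩ := hZ
  have hlz' : ∀ w : ℂ, -(3 / 4) ≤ w.re → w.re ≤ 29 → ‖lz w‖ ≤ (C + 1) * br w.im ^ 2 :=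
    fun w h0 h1 => (hlz w h0 h1).trans (by gcongr; linarith)
  refine ⟨4 * (C + 1) ^ 10, 40, by positivity, fun ε τ h0 h1 => ⟨?_, fun i => ?_⟩⟩
  · have := tb_ZO hLo (by linarith) hlz' h0 (pt (cs ε) τ) fun j => by
      simp only [pt, cs, add_re, ofReal_re, mul_re, I_re, ofReal_im, I_im]
      constructor <;> linarith
    rw [w_gn]
    simpa [pt] using this
  · have hr : ∀ j, (pt (rl ε) τ j).re = ((j : ℕ) + 1) * ε := fun j => by simp [pt, rl]
    have := tb_FZ hLo (by linarith) hlz' h0 (pt (rl ε) τ) (fun j => by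
      rw [hr]
      have a : (0 : ℝ) ≤ (j : ℕ) := Nat.cast_nonneg _
      have b : ((j : ℕ) : ℝ) ≤ 3 := by exact_mod_cast Nat.lt_succ_iff.1 j.2
      constructor <;> nlinarith) i (fun j hj => by
      rw [hr, hr, ← sub_mul, abs_mul, abs_of_pos h0]
      refine le_mul_of_one_le_left h0.le ?_
      have a : ((j : ℕ) : ℤ) - (i : ℕ) ≠ 0 := fun h => hj (Fin.ext (by omega))
      have b := Int.one_le_abs a
      rw [add_sub_add_right_eq_sub]
      exact_mod_cast b)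
    rw [w_gn]
    simpa [pt] using this

theorem pALG (hZ : ZF) (hH : HB4) : ALG := by
  intro κ κ' A hκ hκ'
  obtain ⟨c, C, hC, h⟩ := tc_Rz A hκ hκ'
  obtain ⟨D, B, hD, hH⟩ := hH
  refine ⟨c, C * D, by positivity, fun t v t' v' k z h0 h1 => ?_⟩
  obtain ⟨hh, hb⟩ := (hH 1).1 k
  have hs : ∀ s ∈ Bx (-(1 / 40)) (1 / 40), ∀ j, |(s j).re| ≤ 1 / 40 := fun s hs j =>
    abs_le.2 (hs j)
  have hv : ∀ s ∈ Bx (-(1 / 40)) (1 / 40), (z, sh z s) ∈ Vk := fun s hs' => by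
    refine ⟨by dsimp only; linarith, by dsimp only; linarith, fun j => ?_⟩
    have := abs_le.1 (hs s hs' j)
    simp only [sh, add_re, sub_re, one_div, inv_re]
    norm_num
    constructor <;> linarith
  refine ⟨fun s => Rz A κ t κ' t' z s * Hk 1 k z (sh z s), fun s hs' => ?_, fun s hs' => ?_,
    fun s hs' => ?_⟩
  · refine (tc_hol A κ t κ' t' z s (hs s hs')).mul ?_
    exact DifferentiableAt.comp (g := fun x : ℂ × V4 => Hk 1 k x.1 x.2)
      (f := fun s : V4 => (z, sh z s)) s (hh _ (hv s hs')) (by unfold sh; fun_prop)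
  · have a := h t t' z s h0 h1 (hs s hs')
    have b := hb _ (hv s hs')
    simp only [Nat.cast_one, one_pow, mul_one] at b
    rw [norm_mul]
    refine (mul_le_mul a b (norm_nonneg _) ((norm_nonneg _).trans a)).trans_eq ?_
    ring
  · have := tc_id hZ.2.2.2.1 A κ t v κ' t' v' k z s fun j => le_antisymm (hs' j).2 (hs' j).1
    unfold GZ4 at this
    rw [mul_add (2 : ℂ)]
    linear_combination Hk 1 k z (sh z s) * this

/-- What the mean square uses about the pair weight. -/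
theorem w2_all (hV : VDP) (hW : W2B) {κ κ' : ℝ} (hκ : Kp κ) (hκ' : Kp κ') (n : ℕ) :
    ∃ (A : ℕ) (C : ℝ), 0 < C ∧ ∀ t v t' v' : ℝ, ∃ Q : V4 → ℂ, Differentiable ℂ Q ∧
      (∀ u, W2 κ t v κ' t' v' u = an u * (∏ j, u j) * Q u * hf u) ∧ ∀ u ∈ Bx 0 12,
        ‖Q u * hf u‖ * gn n u ≤ C * br t ^ A * br t' ^ A *
          Real.exp (v * ((u 0).re + (u 2).re) + v' * ((u 1).re + (u 3).re)) *
          ∏ j, Real.exp (-|(u j).im - (![t, t', -t, -t'] : R4) j|) ∧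
        ‖an u * (∏ j, u j) * Q u‖ ≤ C * br t ^ A * br t' ^ A *
          Real.exp (v * ((u 0).re + (u 2).re) + v' * ((u 1).re + (u 3).re)) * dn n u ∧
        ‖W2 κ t v κ' t' v' u‖ ≤ C * br t ^ A * br t' ^ A *
          Real.exp (v * ((u 0).re + (u 2).re) + v' * ((u 1).re + (u 3).re)) * dn n u := by
  obtain ⟨D, N, hD, -, hV, -⟩ := hV
  obtain ⟨A, C, hC, h⟩ := hW κ κ' (n + 3 * N) hκ hκ'
  refine ⟨A, (D + 1) ^ 3 * C, by positivity, fun t v t' v' => ?_⟩
  obtain ⟨Q, hQ, hid, hb⟩ := h t v t' v'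
  refine ⟨Q, hQ, hid, fun u hu => ?_⟩
  obtain ⟨-, a1, a2, a3⟩ := hV u fun j => ⟨le_trans (by norm_num [cs]) (hu j).1,
    (hu j).2.trans (by norm_num [cs])⟩
  have b := hb u hu
  have c := tc_br1 t
  have c' := tc_br1 t'
  have hP : ∏ j, Real.exp (-|(u j).im - (![t, t', -t, -t'] : R4) j|) ≤ 1 :=
    prod_le_one (fun _ _ => (Real.exp_pos _).le) fun _ _ =>
      Real.exp_le_one_iff.2 (neg_nonpos.2 (abs_nonneg _))
  have hP0 : 0 ≤ ∏ j, Real.exp (-|(u j).im - (![t, t', -t, -t'] : R4) j|) := by positivity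
  rw [hid, w_dn, w_gn n]
  rw [w_gn] at a1 a2 a3 b
  have hG := w_g1 u
  generalize gn 1 u = G at *
  generalize (∏ j, Real.exp (-|(u j).im - (![t, t', -t, -t'] : R4) j|)) = P at *
  have hE := Real.exp_pos (v * ((u 0).re + (u 2).re) + v' * ((u 1).re + (u 3).re))
  generalize Real.exp (v * ((u 0).re + (u 2).re) + v' * ((u 1).re + (u 3).re)) = E at *
  have hT : 1 ≤ (D + 1) * G ^ N := one_le_mul_of_one_le_of_one_le (by linarith) (one_le_pow₀ hG)
  have k : ∀ x y z : ℝ, 0 ≤ x → 0 ≤ y → 0 ≤ z → x ≤ (D + 1) * G ^ N → y ≤ (D + 1) * G ^ N →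
      z ≤ (D + 1) * G ^ N → x * y * ‖Q u‖ * z * G ^ n ≤
        (D + 1) ^ 3 * C * br t ^ A * br t' ^ A * E * P := fun x y z _ _ _ hx hy hz =>
    calc _ ≤ (D + 1) * G ^ N * ((D + 1) * G ^ N) * ‖Q u‖ * ((D + 1) * G ^ N) * G ^ n := by gcongr
      _ = (D + 1) ^ 3 * (‖Q u‖ * G ^ (n + 3 * N)) := by ring
      _ ≤ (D + 1) ^ 3 * (C * br t ^ A * br t' ^ A * E * P) := by gcongr
      _ = _ := by ring
  have up : ∀ x : ℝ, x ≤ D * G ^ N → x ≤ (D + 1) * G ^ N := fun x hx =>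
    hx.trans (by gcongr; linarith)
  have fin : ∀ x : ℝ, x * G ^ n ≤ (D + 1) ^ 3 * C * br t ^ A * br t' ^ A * E * P →
      x ≤ (D + 1) ^ 3 * C * br t ^ A * br t' ^ A * E * (1 / G ^ n) := fun x hx => by
    rw [mul_one_div, le_div_iff₀ (by positivity)]
    exact hx.trans (mul_le_of_le_one_right (by positivity) hP)
  simp only [norm_mul]
  refine ⟨?_, fin _ ?_, fin _ (k _ _ _ (norm_nonneg _) (norm_nonneg _) (norm_nonneg _) (up _ a1)
    (up _ a2) (up _ a3))⟩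
  · simpa using k 1 1 _ zero_le_one zero_le_one (norm_nonneg _) hT hT (up _ a3)
  · simpa using k _ _ 1 (norm_nonneg _) (norm_nonneg _) zero_le_one (up _ a1) (up _ a2) hT

theorem w2_diff (κ t v κ' t' v' : ℝ) : Differentiable ℂ (W2 κ t v κ' t' v') := by
  unfold W2 an pw
  fun_prop

theorem w2_M (hV : VDP) (hW : W2B) {κ κ' : ℝ} (hκ : Kp κ) (hκ' : Kp κ') (n : ℕ) (t v t' v' : ℝ) :
    ∃ M : ℝ, ∀ u ∈ Bx 0 12, ‖W2 κ t v κ' t' v' u‖ ≤ M * dn n u := by
  obtain ⟨A, C, hC, h⟩ := w2_all hV hW hκ hκ' n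
  obtain ⟨Q, -, -, hb⟩ := h t v t' v'
  refine ⟨C * br t ^ A * br t' ^ A * Real.exp (|v| * 24 + |v'| * 24), fun u hu =>
    (hb u hu).2.2.trans ?_⟩
  have c := tc_br1 t
  have c' := tc_br1 t'
  have hG := w_g1 u
  have a : ∀ j, 0 ≤ (u j).re ∧ (u j).re ≤ 12 := hu
  have k : ∀ (x : ℝ) (i j), x * ((u i).re + (u j).re) ≤ |x| * 24 := fun x i j =>
    mul_le_mul (le_abs_self x) (by linarith [a i, a j]) (by linarith [a i, a j]) (abs_nonneg x)
  have e := Real.exp_le_exp.2 (add_le_add (k v 0 2) (k v' 1 3))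
  rw [w_dn]
  gcongr

end Pool.Agent.Q4
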