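import Pool.Agent.P.MP_ea46f5_nt.Q4.FSH4
import Pool.Agent.P.MP_ea46f5_nt.Q4.TailB

namespace Pool.Agent.Q4

open Complex MeasureTheory Finset Pool.Agent.QM
open scoped Real

theorem wb_gn (n : ℕ) (u : V4) : gn n u = gn 1 u ^ n := by
  unfold gn; rw [← prod_pow]; simp

theorem wb_dn (n : ℕ) (u : V4) : dn n u = 1 / gn 1 u ^ n := by
  rw [← wb_gn]; unfold dn gn; rw [prod_div_distrib]; simp

theorem wb_G1 (u : V4) : 1 ≤ gn 1 u := s4_one_le_prod _ _ fun _ _ => one_le_pow₀ (s4_br1 _)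

theorem wb_br (u : V4) (j : Fin 4) : br (u j).im ≤ gn 1 u := by
  have := tw_single (fun j => br (u j).im ^ 1) (fun j => one_le_pow₀ (s4_br1 _)) j
  simpa [gn] using this

theorem wb_nrm {u : V4} {ε : ℝ} (hε : 0 ≤ ε) (hu : u ∈ Bx ε 12) (j : Fin 4) :
    ‖u j‖ ≤ 12 * gn 1 u := by
  have h := tw_bx hu j
  have h1 : ‖u j‖ ≤ 12 * br (u j).im := tw_nrm (by norm_num) (abs_le.2 ⟨by linarith [h.1], h.2⟩)
  linarith [wb_br u j]

theorem wb_prod4 {f : Fin 4 → ℂ} {Q : ℝ} (h : ∀ j, ‖f j‖ ≤ Q) : ‖∏ j, f j‖ ≤ Q ^ 4 := by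
  rw [norm_prod]
  have := prod_le_prod (s := univ) (f := fun j => ‖f j‖) (g := fun _ => Q)
    (fun _ _ => norm_nonneg _) fun j _ => h j
  simpa using this

theorem wb_prod10 {f : Fin 4 → Fin 4 → ℂ} {Q : ℝ} (h : ∀ i j, ‖f i j‖ ≤ Q) :
    ‖∏ i, ∏ j ∈ Ici i, f i j‖ ≤ Q ^ 10 := by
  have h1 : ∀ i : Fin 4, ‖∏ j ∈ Ici i, f i j‖ ≤ Q ^ (Ici i).card := fun i => by
    rw [norm_prod, ← prod_const]
    exact prod_le_prod (fun _ _ => norm_nonneg _) fun j _ => h i j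
  rw [norm_prod]
  refine (prod_le_prod (fun _ _ => norm_nonneg _) fun i _ => h1 i).trans_eq ?_
  rw [prod_pow_eq_pow_sum]
  congr 1

theorem wb_hf {u : V4} {ε : ℝ} (hε : 0 ≤ ε) (hu : u ∈ Bx ε 12) : ‖hf u‖ ≤ (13 * gn 1 u) ^ 4 := by
  refine wb_prod4 fun j => (norm_sub_le _ _).trans ?_
  have := wb_nrm hε hu j
  have := wb_G1 u
  have e : ‖(1 / 2 : ℂ)‖ = 1 / 2 := by simp
  rw [e]; linarith

theorem wb_vd2 {u : V4} {ε : ℝ} (hε : 0 ≤ ε) (hu : u ∈ Bx ε 12) :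
    ‖Vd fun j => u j ^ 2‖ ≤ (288 * gn 1 u ^ 2) ^ 6 := by
  refine (tw_vd _ (144 * gn 1 u ^ 2) fun j => ?_).trans_eq (by ring)
  rw [norm_pow]
  have := wb_nrm hε hu j
  calc ‖u j‖ ^ 2 ≤ (12 * gn 1 u) ^ 2 := by gcongr
    _ = _ := by ring

theorem wb_P {g : ℂ → ℂ} {C₀ : ℝ} (hg : GC g C₀) (m : ℕ) : ∃ C : ℝ, 0 < C ∧ ∀ γ ∈ T3,
    ∀ ε : ℝ, 0 < ε → ∀ u ∈ Bx ε 12,
      ‖∏ j, wr g γ (u j)‖ ≤ C * (∏ j, 1 / ‖u j‖ ^ 7) / gn 1 u ^ m := by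
  obtain ⟨D, hD, h⟩ := s4_gauss' (κ := 3 / 4) (by norm_num) (m + 1)
  have hC := hg.pos
  refine ⟨(52 * (C₀ + 1) * D) ^ 4, by positivity, fun γ hγ ε hε u hu => ?_⟩
  have h1 : ∀ j, ‖wr g γ (u j)‖ ≤ 52 * (C₀ + 1) * D * (1 / ‖u j‖ ^ 7 * (1 / br (u j).im ^ m)) := by
    intro j
    have hb := tw_bx hu j
    refine (tw_wr hg hγ (by linarith [hb.1]) hb.2).trans ?_
    have p := s4_br0 (u j).im
    have h2 : br (u j).im * Real.exp (-(3 / 4) * (u j).im ^ 2) ≤ D / br (u j).im ^ m := by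
      rw [le_div_iff₀ (by positivity)]
      have := h (u j).im
      calc _ = br (u j).im ^ (m + 1) * Real.exp (-(3 / 4) * (u j).im ^ 2) := by ring
        _ ≤ D := this
    calc 52 * C₀ * br (u j).im * Real.exp (-(3 / 4) * (u j).im ^ 2) / ‖u j‖ ^ 7
        = 52 * C₀ * (br (u j).im * Real.exp (-(3 / 4) * (u j).im ^ 2)) * (1 / ‖u j‖ ^ 7) := by ring
      _ ≤ 52 * (C₀ + 1) * (D / br (u j).im ^ m) * (1 / ‖u j‖ ^ 7) := by
          gcongr; linarith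
      _ = _ := by ring
  rw [norm_prod]
  refine (prod_le_prod (fun _ _ => norm_nonneg _) fun j _ => h1 j).trans_eq ?_
  rw [prod_mul_distrib, prod_const, prod_mul_distrib, card_univ, Fintype.card_fin]
  have e : ∏ j, 1 / br (u j).im ^ m = dn m u := rfl
  rw [e, wb_dn]; ring

theorem wb_inv {u : V4} {ε : ℝ} (hε : 0 < ε) (hu : u ∈ Bx ε 12) (m : ℕ) :
    ∏ j, 1 / ‖u j‖ ^ m ≤ (1 / min ε 1) ^ (4 * m) := by
  have p : 0 < min ε 1 := lt_min hε one_pos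
  have h1 : ∀ j, 1 / ‖u j‖ ^ m ≤ (1 / min ε 1) ^ m := fun j => by
    have h2 : min ε 1 ≤ ‖u j‖ :=
      (min_le_left _ _).trans ((tw_bx hu j).1.trans (Complex.re_le_norm _))
    rw [one_div_pow]
    exact one_div_le_one_div_of_le (by positivity) (pow_le_pow_left₀ p.le h2 m)
  refine (prod_le_prod (fun _ _ => by positivity) fun j _ => h1 j).trans_eq ?_
  rw [prod_const, card_univ, Fintype.card_fin, ← pow_mul, mul_comm]

theorem wb_cut (hT : TH8) {u : V4} {ε Δ : ℝ} (hε : 0 < ε) (hΔ : 1 ≤ Δ) (hu : u ∈ Bx ε 12) :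
    ‖1 - cF Δ u‖ ≤ 15 * Real.exp (-Δ * ε) * (13 * Δ * gn 1 u) ^ 28 := by
  set E := Real.exp (-Δ * ε) with hE
  set b := (13 * Δ * gn 1 u) ^ 7 with hb
  have G1 := wb_G1 u
  have E1 : E ≤ 1 := Real.exp_le_one_iff.2 (by nlinarith)
  have E0 : 0 < E := Real.exp_pos _
  have b1 : 1 ≤ b := one_le_pow₀ (by nlinarith)
  have h1 : ∀ j, ‖th8 (u j * Δ)‖ ≤ E * b := fun j => by
    refine (hT.2.1 _).trans ?_
    have h2 := wb_nrm hε.le hu j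
    have h3 := (tw_bx hu j).1
    have e1 : (u j * Δ).re = (u j).re * Δ := by simp
    have e2 : ‖u j * Δ‖ = ‖u j‖ * Δ := by
      rw [norm_mul, Complex.norm_real, Real.norm_of_nonneg (by linarith)]
    rw [e1, e2]
    gcongr
    · exact Real.exp_le_exp.2 (by nlinarith)
    · exact pow_le_pow_left₀ (by positivity) (by nlinarith) 7
  have h2 : ∀ j, ‖1 - th8 (u j * Δ)‖ ≤ 2 * b := fun j => by
    have := norm_sub_le (1 : ℂ) (th8 (u j * Δ))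
    rw [norm_one] at this
    nlinarith [h1 j]
  have e : 1 - cF Δ u = th8 (u 0 * Δ) + (1 - th8 (u 0 * Δ)) * th8 (u 1 * Δ) +
      (1 - th8 (u 0 * Δ)) * (1 - th8 (u 1 * Δ)) * th8 (u 2 * Δ) +
      (1 - th8 (u 0 * Δ)) * (1 - th8 (u 1 * Δ)) * (1 - th8 (u 2 * Δ)) * th8 (u 3 * Δ) := by
    unfold cF; rw [Fin.prod_univ_four]; ring
  have b0 : 0 ≤ b := by linarith
  have t1 : ‖(1 - th8 (u 0 * Δ)) * th8 (u 1 * Δ)‖ ≤ 2 * b * (E * b) := by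
    rw [norm_mul]; gcongr; exacts [h2 0, h1 1]
  have t2 : ‖(1 - th8 (u 0 * Δ)) * (1 - th8 (u 1 * Δ)) * th8 (u 2 * Δ)‖ ≤
      2 * b * (2 * b) * (E * b) := by
    rw [norm_mul, norm_mul]; gcongr; exacts [h2 0, h2 1, h1 2]
  have t3 : ‖(1 - th8 (u 0 * Δ)) * (1 - th8 (u 1 * Δ)) * (1 - th8 (u 2 * Δ)) * th8 (u 3 * Δ)‖ ≤
      2 * b * (2 * b) * (2 * b) * (E * b) := by
    rw [norm_mul, norm_mul, norm_mul]; gcongr; exacts [h2 0, h2 1, h2 2, h1 3]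
  have e4 : (13 * Δ * gn 1 u) ^ 28 = b ^ 4 := by rw [hb, ← pow_mul]
  have q1 : b ≤ b ^ 4 := le_self_pow₀ b1 (by norm_num)
  have q2 : b ^ 2 ≤ b ^ 4 := pow_le_pow_right₀ b1 (by norm_num)
  have q3 : b ^ 3 ≤ b ^ 4 := pow_le_pow_right₀ b1 (by norm_num)
  rw [e, e4]
  refine (norm_add_le_of_le (norm_add_le_of_le (norm_add_le_of_le (h1 0) t1) t2) t3).trans ?_
  nlinarith [mul_le_mul_of_nonneg_left q1 E0.le, mul_le_mul_of_nonneg_left q2 E0.le,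
    mul_le_mul_of_nonneg_left q3 E0.le]

theorem wb_cF (hT : TH8) {u : V4} {ε Δ : ℝ} (hε : 0 < ε) (hΔ : 1 ≤ Δ) (hu : u ∈ Bx ε 12) :
    ‖cF Δ u‖ ≤ Δ ^ 32 * ∏ j, ‖u j‖ ^ 8 := by
  obtain ⟨β, -, h1, h2⟩ := hT.2.2
  unfold cF
  rw [norm_prod]
  have h3 : ∀ j, ‖1 - th8 (u j * Δ)‖ ≤ Δ ^ 8 * ‖u j‖ ^ 8 := fun j => by
    have h4 := (tw_bx hu j).1
    have e1 : (u j * Δ).re = (u j).re * Δ := by simp
    have e2 : ‖u j * Δ‖ = ‖u j‖ * Δ := by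
      rw [norm_mul, Complex.norm_real, Real.norm_of_nonneg (by linarith)]
    rw [h1, norm_mul, norm_pow, e2]
    have h5 := h2 (u j * Δ) (by rw [e1]; nlinarith)
    calc (‖u j‖ * Δ) ^ 8 * ‖β (u j * Δ)‖ ≤ (‖u j‖ * Δ) ^ 8 * 1 := by gcongr
      _ = _ := by ring
  refine (prod_le_prod (fun _ _ => norm_nonneg _) fun j _ => h3 j).trans_eq ?_
  rw [prod_mul_distrib, prod_const, card_univ, Fintype.card_fin, ← pow_mul]

theorem wb_ZO (hV : VDP) (hZ : ZF) : ∃ C : ℝ, 0 < C ∧ ∀ ε : ℝ, 0 < ε → ∀ u ∈ Bx ε 12,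
    ‖(Vd fun j => u j ^ 2) * ZO u‖ ≤ C * gn 1 u ^ 46 * ∏ j, 1 / ‖u j‖ := by
  obtain ⟨-, -, z3, -, C, hC, z5, -⟩ := hZ
  obtain ⟨-, -, -, -, -, -, -, v⟩ := hV
  refine ⟨24 ^ 6 * C ^ 10, by positivity, fun ε hε u hu => ?_⟩
  have G1 := wb_G1 u
  have r : ∀ j, 0 < (u j).re := fun j => hε.trans_le (tw_bx hu j).1
  have n1 : ∀ j, u j ≠ 0 := fun j h => by simpa [h] using r j
  have n2 : ∀ i j, u i + u j ≠ 0 := fun i j h => by
    have := congrArg Complex.re h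
    simp only [add_re, zero_re] at this
    linarith [r i, r j]
  have e1 : ZO u = (∏ i, ∏ j ∈ Ici i, lz (u i + u j)) / ∏ i, ∏ j ∈ Ici i, (u i + u j) := by
    unfold ZO
    rw [← prod_div_distrib]
    refine prod_congr rfl fun i _ => ?_
    rw [← prod_div_distrib]
    exact prod_congr rfl fun j _ => by rw [add_assoc, z3 _ (n2 i j)]
  have n3 : (∏ i, ∏ j ∈ Ici i, (u i + u j)) ≠ 0 :=
    prod_ne_zero_iff.2 fun i _ => prod_ne_zero_iff.2 fun j _ => n2 i j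
  have n4 : (∏ j, u j) ≠ 0 := prod_ne_zero_iff.2 fun j _ => n1 j
  have e2 : (Vd fun j => u j ^ 2) * ZO u =
      Vd u * (∏ i, ∏ j ∈ Ici i, lz (u i + u j)) / (16 * ∏ j, u j) := by
    rw [e1, eq_div_iff (mul_ne_zero (by norm_num) n4)]
    calc _ = (Vd fun j => u j ^ 2) * (16 * ∏ j, u j) * (∏ i, ∏ j ∈ Ici i, lz (u i + u j)) /
          ∏ i, ∏ j ∈ Ici i, (u i + u j) := by ring
      _ = _ := by rw [v u]; field_simp
  have b1 : ‖Vd u‖ ≤ (24 * gn 1 u) ^ 6 :=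
    (tw_vd u (12 * gn 1 u) (wb_nrm hε.le hu)).trans_eq (by ring)
  have b2 : ‖∏ i, ∏ j ∈ Ici i, lz (u i + u j)‖ ≤ (C * gn 1 u ^ 4) ^ 10 := by
    refine wb_prod10 fun i j => (z5 _ ?_ ?_).trans ?_
    · rw [add_re]; linarith [r i, r j]
    · rw [add_re]; linarith [(tw_bx hu i).2, (tw_bx hu j).2]
    · rw [add_im]
      have h1 : br ((u i).im + (u j).im) ≤ gn 1 u * gn 1 u :=
        (s4_br_add _ _).trans (mul_le_mul (wb_br u i) (wb_br u j) (s4_br0 _).le (by linarith))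
      have := s4_br0 ((u i).im + (u j).im)
      calc C * br ((u i).im + (u j).im) ^ 2 ≤ C * (gn 1 u * gn 1 u) ^ 2 := by gcongr
        _ = _ := by ring
  have p : 0 < ∏ j, ‖u j‖ := prod_pos fun j _ => norm_pos_iff.2 (n1 j)
  rw [e2, norm_div, norm_mul, norm_mul, norm_prod (f := u), prod_div_distrib, prod_const_one]
  have e3 : ‖(16 : ℂ)‖ = 16 := by simp
  rw [e3]
  calc ‖Vd u‖ * ‖∏ i, ∏ j ∈ Ici i, lz (u i + u j)‖ / (16 * ∏ j, ‖u j‖)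
      ≤ (24 * gn 1 u) ^ 6 * (C * gn 1 u ^ 4) ^ 10 / (1 * ∏ j, ‖u j‖) := by
        gcongr; norm_num
    _ = _ := by ring

theorem pWRB (hT : TH8) (hV : VDP) (hZ : ZF) : WRB := by
  intro g C₀ n hg
  obtain ⟨C, hC, hP⟩ := wb_P hg (n + 62)
  obtain ⟨D, hD, hZO⟩ := wb_ZO hV hZ
  refine ⟨C * (15 * 13 ^ 28 * 288 ^ 12 * 13 ^ 4) * (1 + D), by positivity, fun γ hγ =>
    ⟨fun u hu => tw_hprod fun j => tw_hwr hg hγ (hu j), fun u hu => tw_hWr hg hγ hu, tw_hcF,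
      by unfold hf; fun_prop, tw_hus, fun ε Δ hε hΔ u hu => ?_⟩⟩
  have h1 := hP γ hγ ε hε u hu
  have h2 := wb_inv hε hu 7
  have h3 := wb_cut hT hε hΔ hu
  have h4 := wb_vd2 hε.le hu
  have h5 := wb_hf hε.le hu
  have h6 := hZO ε hε u hu
  have G1 := wb_G1 u
  have pm : 0 < min ε 1 := lt_min hε one_pos
  rw [wb_dn]
  have eΔ : Δ / min ε 1 = Δ * (1 / min ε 1) := by ring
  have μ0 : 0 < 1 / min ε 1 := by positivity
  have E0 : 0 < Real.exp (-Δ * ε) := Real.exp_pos _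
  have h9 := wb_cF hT hε hΔ hu
  rw [eΔ]
  clear hP hZO eΔ hV hZ hT
  generalize gn 1 u = G at *
  generalize Real.exp (-Δ * ε) = E at *
  generalize 1 / min ε 1 = μ at *
  have G0 : 0 < G := by linarith
  have h7 : ‖∏ j, wr g γ (u j)‖ ≤ C * μ ^ 28 / G ^ (n + 62) := h1.trans (by gcongr)
  have key : ∀ (a : ℕ) (K T : ℝ), a ≤ 62 → 0 ≤ K → K ≤ 15 * 13 ^ 28 * 288 ^ 12 * 13 ^ 4 → 0 ≤ T →
      C / G ^ (n + 62) * (K * G ^ a) * T ≤
        C * (15 * 13 ^ 28 * 288 ^ 12 * 13 ^ 4) * (1 + D) * T * (1 / G ^ n) := by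
    intro a K T ha hK0 hK hT0
    have h8 : G ^ a ≤ G ^ 62 := pow_le_pow_right₀ G1 ha
    calc C / G ^ (n + 62) * (K * G ^ a) * T
        ≤ C / G ^ (n + 62) * ((15 * 13 ^ 28 * 288 ^ 12 * 13 ^ 4) * G ^ 62) * T := by gcongr
      _ = C * (15 * 13 ^ 28 * 288 ^ 12 * 13 ^ 4) * 1 * T * (1 / G ^ n) := by
          rw [pow_add]; field_simp
      _ ≤ _ := by gcongr; linarith
  have Δ0 : 0 < Δ := by linarith
  have T0 : 0 ≤ (Δ * μ) ^ 28 * E := mul_nonneg (pow_nonneg (mul_nonneg Δ0.le μ0.le) _) E0.le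
  refine ⟨?_, ?_, ?_, ?_, ?_, h9⟩
  · rw [norm_mul]
    calc _ ≤ C * μ ^ 28 / G ^ (n + 62) * (15 * E * (13 * Δ * G) ^ 28) := by gcongr
      _ = C / G ^ (n + 62) * (15 * 13 ^ 28 * G ^ 28) * ((Δ * μ) ^ 28 * E) := by ring
      _ ≤ _ := (key 28 _ _ (by norm_num) (by norm_num) (by norm_num) T0).trans_eq
        (by ring)
  · unfold Wr
    rw [norm_mul, norm_mul, norm_pow]
    calc _ ≤ ((288 * G ^ 2) ^ 6) ^ 2 * (C * μ ^ 28 / G ^ (n + 62)) *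
          (15 * E * (13 * Δ * G) ^ 28) := by gcongr
      _ = C / G ^ (n + 62) * (15 * 13 ^ 28 * 288 ^ 12 * G ^ 52) * ((Δ * μ) ^ 28 * E) := by ring
      _ ≤ _ := (key 52 _ _ (by norm_num) (by norm_num) (by norm_num) T0).trans_eq
        (by ring)
  · unfold W4 Wr
    rw [norm_mul, norm_mul, norm_mul, norm_pow]
    calc _ ≤ ((288 * G ^ 2) ^ 6) ^ 2 * (C * μ ^ 28 / G ^ (n + 62)) * (13 * G) ^ 4 *
          (15 * E * (13 * Δ * G) ^ 28) := by gcongr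
      _ = C / G ^ (n + 62) * (15 * 13 ^ 28 * 288 ^ 12 * 13 ^ 4 * G ^ 56) * ((Δ * μ) ^ 28 * E) := by
          ring
      _ ≤ _ := (key 56 _ _ (by norm_num) (by norm_num) le_rfl T0).trans_eq
        (by ring)
  · unfold W4 Wr
    rw [norm_mul, norm_mul, norm_pow]
    calc _ ≤ ((288 * G ^ 2) ^ 6) ^ 2 * (C * μ ^ 28 / G ^ (n + 62)) * (13 * G) ^ 4 := by gcongr
      _ = C / G ^ (n + 62) * (288 ^ 12 * 13 ^ 4 * G ^ 28) * μ ^ 28 := by ring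
      _ ≤ _ := key 28 _ _ (by norm_num) (by norm_num) (by norm_num) (by positivity)
  · have e : W4 g γ u * ZO u = (Vd fun j => u j ^ 2) * (∏ j, wr g γ (u j)) * hf u *
        ((Vd fun j => u j ^ 2) * ZO u) := by unfold W4 Wr; ring
    have e8 : ∏ j, 1 / ‖u j‖ ^ 8 = (∏ j, 1 / ‖u j‖ ^ 7) * ∏ j, 1 / ‖u j‖ := by
      rw [← prod_mul_distrib]; exact prod_congr rfl fun j _ => by rw [pow_succ, div_mul_div_comm, mul_one]
    have q7 : 0 ≤ ∏ j, 1 / ‖u j‖ ^ 7 := prod_nonneg fun _ _ => by positivity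
    have q1 : 0 ≤ ∏ j, 1 / ‖u j‖ := prod_nonneg fun _ _ => by positivity
    rw [e, norm_mul, norm_mul, norm_mul, e8]
    generalize (∏ j, 1 / ‖u j‖ ^ 7) = T at *
    generalize (∏ j, 1 / ‖u j‖) = T' at *
    calc _ ≤ (288 * G ^ 2) ^ 6 * (C * T / G ^ (n + 62)) * (13 * G) ^ 4 * (D * G ^ 46 * T') := by
          gcongr
      _ = C * (288 ^ 6 * 13 ^ 4) * D * (T * T') * (1 / G ^ n) := by rw [pow_add]; field_simp
      _ ≤ _ := by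
          gcongr
          · norm_num
          · linarith

end Pool.Agent.Q4
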