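import Pool.Agent.P.MP_ea46f5_nt.Q4.K1m
import Pool.Agent.P.MP_ea46f5_nt.Q4.S4

namespace Pool.Agent.Q4

open Complex MeasureTheory Finset
open scoped Real
open Pool.Agent.QM

theorem pZB (hLOP : LOP) (hIZ : IZ) : ZB := by
  obtain ⟨C, hC, hI⟩ := hIZ.2.1
  refine ⟨C ^ 10 + 240 ^ 10 + 240 ^ 10 * C ^ 4, 12, by positivity, fun u hu => k1_ZO_hol hLOP hu,
    fun x hx => ?_, fun s hs => ?_, fun s hs => ?_, fun ε hε _ u hu => ?_, fun u hu => ?_⟩
  · refine ((k1_ZO_hol hLOP hx.2).comp x differentiableAt_snd).mul (k1_dprod fun j _ => ?_)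
    exact (hIZ.1 (1 + x.2 j + x.1) (by simp; linarith [hx.1, hx.2 j])).comp x
      (f := fun x : ℂ × V4 => 1 + x.2 j + x.1) (by fun_prop)
  · refine k1_dprod fun i _ => k1_dprod fun j _ => ?_
    exact (hIZ.1 (1 + s i + s j) (by simp; linarith [hs i, hs j])).comp s
      (f := fun x : V4 => 1 + x i + x j) (by fun_prop)
  · have h : ∀ i j, ‖iz (1 + s i + s j)‖ ≤ C * (br (s i).im * br (s j).im) ^ 2 := fun i j => by
      have h1 : 0 ≤ (s i).re := (hs i).1
      have h2 : 0 ≤ (s j).re := (hs j).1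
      refine (hI _ (by simp; linarith)).trans ?_
      have := sh_br_pos (1 + s i + s j).im
      gcongr
      simpa using dec_br (s i).im (s j).im
    have h1 : ‖IZ4 s‖ ≤ C ^ 10 * gn 10 s := by
      rw [IZ4, norm_prod]
      refine (prod_le_prod (fun _ _ => norm_nonneg _) fun i _ => (norm_prod _ _).le.trans
        (prod_le_prod (fun _ _ => norm_nonneg _) fun j _ => h i j)).trans (le_of_eq ?_)
      rw [k1_Ici4, gn, Fin.prod_univ_four]
      ring
    exact h1.trans (mul_le_mul (by nlinarith [pow_pos hC 4]) (k1_gn_mono (by norm_num) s)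
      (zero_le_one.trans (k1_gn_one _ _)) (by positivity))
  · have h1 := k1_ZO_le hLOP hε (u := u) hu
    have g0 := zero_le_one.trans (k1_gn_one 10 u)
    have g1 := zero_le_one.trans (k1_gn_one 12 u)
    refine ⟨h1.trans ?_, fun z hz => ?_⟩
    · rw [div_pow, div_mul_eq_mul_div]
      gcongr
      · nlinarith [pow_pos hC 4, pow_pos hC 10]
      · exact k1_gn_mono (by norm_num) u
    · have g4 : ‖∏ j, iz (1 + u j + z)‖ ≤ ∏ j, C * (br (u j).im * br z.im) ^ 2 := by
        rw [norm_prod]
        refine prod_le_prod (fun _ _ => norm_nonneg _) fun j _ => (hI _ ?_).trans ?_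
        · have h2 : ε ≤ (u j).re := (hu j).1
          simp; linarith [hz.1]
        · have := sh_br_pos (1 + u j + z).im
          gcongr
          simpa using dec_br (u j).im z.im
      have hβ := sh_br_one z.im
      rw [ZR, norm_mul]
      calc _ ≤ (240 / ε) ^ 10 * gn 10 u * ∏ j, C * (br (u j).im * br z.im) ^ 2 :=
            mul_le_mul h1 g4 (norm_nonneg _) (by positivity)
        _ = 240 ^ 10 * C ^ 4 * br z.im ^ 8 * gn 12 u / ε ^ 10 := by
            simp only [gn, Fin.prod_univ_four]; ring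
        _ ≤ _ := by
            gcongr
            · nlinarith [pow_pos hC 10]
            · norm_num
  · refine ⟨?_, k1_ZR_res hLOP hu⟩
    simp only [ZR, sub_zero, add_zero, fun j => (k1_iz_Lo hLOP (hu j)).2, prod_inv_distrib]
    have := prod_ne_zero_iff.2 fun j (_ : j ∈ univ) => (k1_iz_Lo hLOP (hu j)).1
    field_simp

end Pool.Agent.Q4
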