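import Pool.Agent.P.MP_ea46f5_nt.Q4.ZG

/-! The inverse of the zeta function on the line of abscissa one as a Fourier integral. -/

namespace Pool.Agent.Q4.Zg

open Complex MeasureTheory Set Pool.Agent.QM
open scoped Real FourierTransform

theorem int_of_le {f : ℝ → ℂ} {C : ℝ} (hc : Continuous f) (h : ∀ x, ‖f x‖ ≤ C / br x ^ 2) :
    Integrable f :=
  (dec_sq.1.const_mul C).mono' hc.aestronglyMeasurable
    (Filter.Eventually.of_forall fun x => (h x).trans_eq (by ring))

theorem four_rep {f f' f'' : ℝ → ℂ} (h1 : ∀ x, HasDerivAt f (f' x) x)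
    (h2 : ∀ x, HasDerivAt f' (f'' x) x) (i0 : Integrable f) (i1 : Integrable f')
    (i2 : Integrable f'') : ∃ g : ℝ → ℂ, Continuous g ∧ Integrable g ∧
      ∀ x : ℝ, f x = ∫ v : ℝ, g v * cexp (x * v * I) := by
  have d1 : deriv f = f' := funext fun x => (h1 x).deriv
  have d2 : deriv f' = f'' := funext fun x => (h2 x).deriv
  have df : Differentiable ℝ f := fun x => (h1 x).differentiableAt
  have e1 := Real.fourier_deriv i0 df (d1 ▸ i1)
  have e2 := Real.fourier_deriv i1 (fun x => (h2 x).differentiableAt) (d2 ▸ i2)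
  rw [d1] at e1
  rw [d2, e1] at e2
  have hc : Continuous (𝓕 f) :=
    VectorFourier.fourierIntegral_continuous Real.continuous_fourierChar
      (innerSL ℝ).continuous₂ i0
  have b0 : ∀ v, ‖𝓕 f v‖ ≤ ∫ x, ‖f x‖ := fun v =>
    VectorFourier.norm_fourierIntegral_le_integral_norm _ _ _ _ _
  have b2 : ∀ v, ‖𝓕 f'' v‖ ≤ ∫ x, ‖f'' x‖ := fun v =>
    VectorFourier.norm_fourierIntegral_le_integral_norm _ _ _ _ _
  have hi : Integrable (𝓕 f) := by
    refine (integrable_inv_one_add_sq.const_mul ((∫ x, ‖f x‖) + ∫ x, ‖f'' x‖)).mono'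
      hc.aestronglyMeasurable (Filter.Eventually.of_forall fun v => ?_)
    have b := b2 v
    rw [e2] at b
    simp only [smul_eq_mul, norm_mul, Complex.norm_two, Complex.norm_real, Complex.norm_I,
      Real.norm_eq_abs, abs_of_pos Real.pi_pos] at b
    rw [← div_eq_mul_inv, le_div_iff₀ (by positivity), ← sq_abs v]
    have h3 : |v| ^ 2 * ‖𝓕 f v‖ * 1 ≤ |v| ^ 2 * ‖𝓕 f v‖ * (4 * π ^ 2) := by
      gcongr; nlinarith [Real.pi_gt_three]
    nlinarith [b0 v]
  have hp : (2 * π : ℝ) ≠ 0 := by positivity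
  refine ⟨fun v => ((2 * π : ℝ) : ℂ)⁻¹ * 𝓕 f (v / (2 * π)),
    continuous_const.mul (hc.comp (continuous_id.div_const _)),
    (hi.comp_div hp).const_mul _, fun x => ?_⟩
  have e3 := i0.fourierInv_fourier_eq hi (df x).continuousAt
  rw [Real.fourierInv_eq'] at e3
  have e4 := Measure.integral_comp_div
    (fun v : ℝ => cexp (((2 * π * inner ℝ v x : ℝ) : ℂ) * I) • 𝓕 f v) (2 * π)
  rw [e3, abs_of_pos (by positivity), Complex.real_smul] at e4
  have hp' : ((2 * π : ℝ) : ℂ) ≠ 0 := ofReal_ne_zero.2 hp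
  rw [← inv_mul_eq_iff_eq_mul₀ hp', ← integral_const_mul] at e4
  rw [← e4]
  refine integral_congr_ae (Filter.Eventually.of_forall fun v => ?_)
  have e5 : (2 * π * inner ℝ (v / (2 * π)) x : ℝ) = x * v := by
    simp only [RCLike.inner_apply, conj_trivial]
    field_simp
  simp only [e5, smul_eq_mul]
  push_cast
  ring

theorem br_near {x : ℝ} {w : ℂ} (h : ‖w - x * I‖ ≤ 1 / 2) : |w.re| ≤ 1 / 2 ∧ br w.im ≤ 2 * br x := by
  have h1 := (Complex.abs_re_le_norm _).trans h
  have h2 := (Complex.abs_im_le_norm _).trans h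
  simp only [sub_re, mul_re, ofReal_re, I_re, mul_zero, ofReal_im, I_im, mul_one, sub_zero,
    sub_im, mul_im, add_zero, sub_self] at h1 h2
  refine ⟨h1, ?_⟩
  have := abs_sub_abs_le_abs_sub w.im x
  rw [br, br]
  linarith [abs_nonneg x]

/-- The inverse of an entire function of polynomial size on the imaginary axis. -/
theorem inv_rep {H : ℂ → ℂ} {C : ℝ} (hH : Differentiable ℂ H) (hC : 0 < C)
    (hup : ∀ w : ℂ, |w.re| ≤ 1 / 2 → ‖H w‖ ≤ C * br w.im ^ 11)
    (hne : ∀ x : ℝ, H (x * I) ≠ 0) (hlow : ∀ x : ℝ, ‖(H (x * I))⁻¹‖ ≤ C / br x ^ 8) :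
    ∃ g : ℝ → ℂ, Continuous g ∧ Integrable g ∧
      ∀ x : ℝ, (H (x * I))⁻¹ = ∫ v : ℝ, g v * cexp (x * v * I) := by
  have hD : ∀ (n : ℕ) (x : ℝ), ‖iteratedDeriv n H (x * I)‖ ≤
      n.factorial * (C * (2 * br x) ^ 11) / (1 / 2) ^ n := fun n x =>
    Complex.norm_iteratedDeriv_le_of_forall_mem_sphere_norm_le n (by norm_num) hH.diffContOnCl
      fun z hz => by
        have h := br_near (x := x) (w := z) (by rw [← dist_eq_norm]; exact (Metric.mem_sphere.1 hz).le)
        have := dec_pos z.im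
        exact (hup z h.1).trans (by gcongr; exact h.2)
  have hH1 : Differentiable ℂ (deriv H) := hH.deriv
  have hH2 : Differentiable ℂ (deriv (deriv H)) := hH1.deriv
  have b1 : ∀ x : ℝ, ‖deriv H (x * I)‖ ≤ 2 ^ 13 * C * br x ^ 11 := fun x => by
    have h := hD 1 x
    rw [iteratedDeriv_one] at h
    have := dec_pos x
    refine h.trans ?_
    rw [div_le_iff₀ (by norm_num), mul_pow]
    have : 0 ≤ C * br x ^ 11 := by positivity
    norm_num
    nlinarith
  have b2 : ∀ x : ℝ, ‖deriv (deriv H) (x * I)‖ ≤ 2 ^ 14 * C * br x ^ 11 := fun x => by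
    have h := hD 2 x
    rw [iteratedDeriv_succ, iteratedDeriv_one] at h
    refine h.trans_eq ?_
    norm_num
    ring
  have hx : ∀ x : ℝ, HasDerivAt (fun x : ℝ => (x : ℂ) * I) I x := fun x => by
    simpa using (Complex.ofRealCLM.hasDerivAt (x := x)).mul_const I
  have cx : Continuous fun x : ℝ => (x : ℂ) * I := by fun_prop
  have l0 : ∀ x : ℝ, HasDerivAt (fun x : ℝ => H (x * I)) (deriv H (x * I) * I) x := fun x =>
    (hH (x * I)).hasDerivAt.comp_of_eq x (hx x) rfl
  have l1 : ∀ x : ℝ, HasDerivAt (fun x : ℝ => deriv H (x * I)) (deriv (deriv H) (x * I) * I) x :=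
    fun x => (hH1 (x * I)).hasDerivAt.comp_of_eq x (hx x) rfl
  set u : ℝ → ℂ := fun x => (H (x * I))⁻¹ with hu
  have lu : ∀ x : ℝ, HasDerivAt u (-(deriv H (x * I) * I) * u x ^ 2) x := fun x => by
    have h := (l0 x).inv (hne x)
    rw [div_eq_mul_inv, ← inv_pow] at h
    exact h
  have cu : Continuous u := continuous_iff_continuousAt.2 fun x => (lu x).continuousAt
  have c1 : Continuous fun x : ℝ => deriv H (x * I) := hH1.continuous.comp cx
  have c2 : Continuous fun x : ℝ => deriv (deriv H) (x * I) := hH2.continuous.comp cx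
  have hw : ∀ (x K : ℝ) (n : ℕ), 0 ≤ K → K / br x ^ (n + 2) ≤ K / br x ^ 2 := fun x K n hK =>
    div_le_div_of_nonneg_left hK (pow_pos (dec_pos x) _)
      (pow_le_pow_right₀ (br_one x) (Nat.le_add_left _ _))
  refine four_rep (f := u) (f' := fun x => -(deriv H (x * I) * I) * u x ^ 2)
    (f'' := fun x => deriv (deriv H) (x * I) * u x ^ 2 - 2 * deriv H (x * I) ^ 2 * u x ^ 3) lu
    (fun x => ?_) (int_of_le (C := C) cu fun x => (hlow x).trans (hw x C 6 hC.le))
    (int_of_le (C := 2 ^ 13 * C * C ^ 2) (by fun_prop) fun x => ?_)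
    (int_of_le (C := 2 ^ 14 * C * C ^ 2 + 2 * (2 ^ 13 * C) ^ 2 * C ^ 3) (by fun_prop) fun x => ?_)
  · have h := (((l1 x).mul_const I).neg).mul ((lu x).pow 2)
    refine h.congr_deriv ?_
    simp only [Pi.neg_apply, Pi.pow_apply, Nat.cast_ofNat, Nat.add_one_sub_one, pow_one]
    linear_combination (2 * deriv H (x * I) ^ 2 * u x ^ 3 -
      deriv (deriv H) (x * I) * u x ^ 2) * I_mul_I
  · have := dec_pos x
    rw [norm_mul, norm_neg, norm_mul, norm_I, mul_one, norm_pow]
    calc _ ≤ 2 ^ 13 * C * br x ^ 11 * (C / br x ^ 8) ^ 2 := by gcongr; exacts [b1 x, hlow x]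
      _ = 2 ^ 13 * C * C ^ 2 / br x ^ (3 + 2) := by field_simp
      _ ≤ _ := hw x _ 3 (by positivity)
  · have := dec_pos x
    refine (norm_sub_le _ _).trans ?_
    rw [norm_mul, norm_mul, norm_mul, norm_pow, norm_pow, norm_pow, Complex.norm_two, add_div]
    refine add_le_add ?_ ?_
    · calc _ ≤ 2 ^ 14 * C * br x ^ 11 * (C / br x ^ 8) ^ 2 := by gcongr; exacts [b2 x, hlow x]
        _ = 2 ^ 14 * C * C ^ 2 / br x ^ (3 + 2) := by field_simp
        _ ≤ _ := hw x _ 3 (by positivity)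
    · calc _ ≤ 2 * (2 ^ 13 * C * br x ^ 11) ^ 2 * (C / br x ^ 8) ^ 3 := by
            gcongr; exacts [b1 x, hlow x]
        _ = _ := by field_simp

theorem izf : ∃ g : ℝ → ℂ, Continuous g ∧ Integrable g ∧
    ∀ x : ℝ, (lz0 (x * I) * (2 + x * I) ^ 9)⁻¹ = ∫ v : ℝ, g v * cexp (x * v * I) := by
  obtain ⟨C, hC, h⟩ := inv_lz_le
  have h2 : ∀ x : ℝ, br x / 2 ≤ ‖(2 + x * I : ℂ)‖ := fun x => by
    have a1 := Complex.abs_re_le_norm (2 + x * I)
    have a2 := Complex.abs_im_le_norm (2 + x * I)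
    simp at a1 a2
    rw [br]; linarith
  have h3 : ∀ x : ℝ, (2 + x * I : ℂ) ≠ 0 := fun x e => by
    have := h2 x
    rw [e, norm_zero] at this
    linarith [dec_pos x]
  refine inv_rep (H := fun w => lz0 w * (2 + w) ^ 9) (C := 240 * 3 ^ 9 + C * 2 ^ 9)
    (lz_diff.mul (((differentiable_const _).add differentiable_id).pow 9)) (by positivity)
    (fun w hw => ?_) (fun x => mul_ne_zero (lz_ne (by simp)) (pow_ne_zero _ (h3 x))) fun x => ?_
  · have hb := dec_pos w.im
    have a1 := lz_le (w := w) (by linarith [(abs_le.1 hw).1]) (by linarith [(abs_le.1 hw).2])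
    have a2 : ‖2 + w‖ ≤ 3 * br w.im := by
      refine (norm_add_le _ _).trans ?_
      have := Complex.norm_le_abs_re_add_abs_im w
      rw [Complex.norm_two, br]
      linarith [abs_nonneg w.im]
    rw [norm_mul, norm_pow]
    calc _ ≤ 240 * br w.im ^ 2 * (3 * br w.im) ^ 9 := by gcongr
      _ = 240 * 3 ^ 9 * br w.im ^ 11 := by ring
      _ ≤ _ := by gcongr; linarith [show 0 ≤ C * 2 ^ 9 by positivity]
  · have hb := dec_pos x
    have a1 := h (x * I) (by simp)
    have e : (x * I : ℂ).im = x := by simp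
    rw [e] at a1
    have a2 : ‖(2 + x * I : ℂ)⁻¹‖ ≤ (br x / 2)⁻¹ := by
      rw [norm_inv]
      exact inv_anti₀ (by positivity) (h2 x)
    rw [mul_inv, ← inv_pow, norm_mul, norm_pow]
    calc _ ≤ C * br x * (br x / 2)⁻¹ ^ 9 := by gcongr
      _ = C * 2 ^ 9 / br x ^ 8 := by field_simp
      _ ≤ _ := by gcongr; linarith [show (0 : ℝ) ≤ 240 * 3 ^ 9 by positivity]

end Pool.Agent.Q4.Zg
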