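import Pool.Agent.P.MP_ea46f5_nt.Q4.S4
import Pool.Agent.P.MP_ea46f5_nt.Q4.ZF

namespace Pool.Agent.Q4

open Complex MeasureTheory Finset Pool.Agent.QM
open scoped Real

theorem pZF (hLOP : LOP) : ZF := by
  obtain ⟨C, hC, h⟩ := Zg.inv_lz_le
  refine ⟨Zg.lz_diff, Zg.lz_zero, fun w hw => ?_, Zg.iz_eq, 240 + C, by positivity,
    fun w h0 h1 => (Zg.lz_le h0 h1).trans ?_, fun w hw => ⟨Zg.lz_ne hw, (h w hw).trans ?_⟩⟩
  · rw [hLOP.2.2 _ (by simpa using hw), add_sub_cancel_left, lz]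
  · gcongr
    linarith
  · have := Zg.br_one w.im
    exact mul_le_mul (by linarith) (le_self_pow₀ this (by norm_num)) (by linarith) (by positivity)

theorem pXIB : XIB := by
  obtain ⟨C, hC, h⟩ := Zg.xi_le
  have e : ∀ a : ℕ, xi a = fun u => Gammaℝ (1 / 2 + a + u) / Gammaℝ (1 / 2 + a - u) := fun a => by
    funext u
    rw [xi, div_eq_mul_inv (Gammaℝ _)]
  refine ⟨C, 10, hC, fun a ha u => ?_⟩
  rw [e]
  exact ⟨Zg.xi_diff a, h a u ha⟩

theorem pKZ2 : KZ2 := fun n => by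
  simpa only [mul_assoc] using Zg.kz2 n

theorem pIZF : IZF := by
  obtain ⟨g, -, hg, h⟩ := Zg.izf
  refine ⟨9, g, hg, fun x => ?_⟩
  rw [gz, one_div]
  simp only [mul_right_comm (x : ℂ) I]
  exact h x

end Pool.Agent.Q4
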