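import Pool.Agent.P.MP_ea46f5_nt.Q4.PDb

/-! The functional equation for the Dirichlet series of a class. -/

namespace Pool.Agent.Q4

open Complex MeasureTheory Finset Pool.Agent.QM Pool.Agent.QM.Po NumberTheorySymbols
open scoped Real ComplexConjugate

theorem fx_w8 (c : ℤ) (j : ℕ) : w8 (c * (j : ℤ) ^ 2) = w8 c +
    (w8 (4 * c) - w8 c) * (if 2 ∣ j then 1 else 0) + (1 - w8 (4 * c)) * (if 4 ∣ j then 1 else 0) := by
  by_cases h2 : 2 ∣ j
  · obtain ⟨i, rfl⟩ := h2
    by_cases h4 : 2 ∣ i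
    · obtain ⟨l, rfl⟩ := h4
      rw [if_pos (by omega), if_pos (by omega), w8_congr (b := 0) ⟨2 * c * l ^ 2, by push_cast; ring⟩,
        w8_zero]
      ring
    · obtain ⟨l, rfl⟩ : ∃ l, i = 2 * l + 1 := ⟨i / 2, by omega⟩
      rw [if_pos (by omega), if_neg (by omega),
        w8_congr (b := 4 * c) ⟨2 * c * (l ^ 2 + l), by push_cast; ring⟩]
      ring
  · obtain ⟨l, rfl⟩ : ∃ l, j = 2 * l + 1 := ⟨j / 2, by omega⟩
    obtain ⟨d, hd⟩ := Int.even_mul_succ_self (l : ℤ)
    rw [if_neg h2, if_neg (by omega),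
      w8_congr (b := c) ⟨c * d, by push_cast; linear_combination 4 * c * hd⟩]
    ring

theorem fx_sq {n : ℕ} (hn : Odd n) (k c : ℤ) {z : ℂ} (hz : z.re = 2) :
    HasSum (fun j : ℕ => w8 (c * (j : ℤ) ^ 2) * ((j : ℂ) ^ (-(2 * z)) * UV n z (k * (j : ℤ) ^ 2)))
      (riemannZeta (2 * z) * Tk k z n * brk c z) := by
  have hre : 1 < (2 * z).re := by simp [hz]; norm_num
  have h0 : HasSum (fun j : ℕ => (j : ℂ) ^ (-(2 * z)) * UV n z (k * (j : ℤ) ^ 2))
      (riemannZeta (2 * z) * Tk k z n) := by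
    simp only [UU_eq]
    rw [← loc_eq_TK]
    exact ep1 (fun p hp => Nat.prime_of_mem_primeFactors hp) _ _ hre
  have h1 : ∀ e : ℕ, HasSum (fun j : ℕ => (if 2 ^ e ∣ j then 1 else 0) *
      ((j : ℂ) ^ (-(2 * z)) * UV n z (k * (j : ℤ) ^ 2)))
      (((2 ^ e * 2 ^ e : ℕ) : ℂ) ^ (-z) * (riemannZeta (2 * z) * Tk k z n)) := fun e => by
    have hinj : Function.Injective fun j : ℕ => 2 ^ e * j := mul_right_injective₀ (by positivity)
    rw [← hinj.hasSum_iff]
    · refine (h0.mul_left _).congr_fun fun j => ?_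
      have e1 : UV n z (k * ((2 ^ e * j : ℕ) : ℤ) ^ 2) = UV n z (k * (j : ℤ) ^ 2) := by
        rw [UU_eq, UU_eq]
        refine prod_congr rfl fun p hp => ?_
        have hpp := Nat.prime_of_mem_primeFactors hp
        have hc : Nat.Coprime p (2 ^ e) := (Nat.coprime_two_right.2
          (hn.of_dvd_nat (Nat.dvd_of_mem_primeFactors hp))).pow_right e
        simp only [Int.natCast_dvd_natCast, hc.dvd_mul_left]
      have e2 : ((2 ^ e * 2 ^ e : ℕ) : ℂ) ^ (-z) = ((2 ^ e : ℕ) : ℂ) ^ (-(2 * z)) := by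
        rw [Nat.cast_mul, natCast_mul_natCast_cpow, ← cpow_add _ _ (by simp)]
        congr 1
        ring
      simp only [Function.comp, dvd_mul_right, if_true, e1, e2]
      rw [Nat.cast_mul, natCast_mul_natCast_cpow]
      ring
    · intro j hj
      rw [if_neg fun ⟨c, hc⟩ => hj ⟨c, hc.symm⟩, zero_mul]
  have h2 := ((h0.mul_left (w8 c)).add ((h1 1).mul_left (w8 (4 * c) - w8 c))).add
    ((h1 2).mul_left (1 - w8 (4 * c)))
  have e : riemannZeta (2 * z) * Tk k z n * brk c z = w8 c * (riemannZeta (2 * z) * Tk k z n) +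
      (w8 (4 * c) - w8 c) * (((2 ^ 1 * 2 ^ 1 : ℕ) : ℂ) ^ (-z) * (riemannZeta (2 * z) * Tk k z n)) +
      (1 - w8 (4 * c)) * (((2 ^ 2 * 2 ^ 2 : ℕ) : ℂ) ^ (-z) * (riemannZeta (2 * z) * Tk k z n)) := by
    norm_num [brk]
    ring
  rw [e]
  refine h2.congr_fun fun j => ?_
  rw [fx_w8]
  norm_num only
  ring

theorem fx_UV (n : ℕ) (z : ℂ) (H : ℤ) : UV n z H = (sf n : ℂ) ^ (z - 1 / 2) * (J(H | sf n) : ℂ) *
    ∑ s ∈ (PE n).powerset, if ((∏ p ∈ s, p : ℕ) : ℤ) ∣ H then
      (-1) ^ s.card * ((∏ p ∈ s, p : ℕ) : ℂ) ^ (2 * z - 1) else 0 := by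
  rw [UV, sieve_prod (fun p hp => PE_prime hp), sf, natCast_prod_cpow,
    jac_prod H _ (fun p => p) fun p hp => (PO_prime hp).ne_zero, prod_mul_distrib, mul_comm (∏ _ ∈ _, _)]
  push_cast
  congr 1
  refine sum_congr rfl fun s _ => ?_
  rw [prod_const_one, mul_one, prod_neg, ← Nat.cast_prod, ← Nat.cast_prod, natCast_prod_cpow]

theorem fx_jac {n : ℕ} (hn : n ≠ 0) (m : ℤ) : (J(m | n) : ℂ) = J(m | sf n) *
    ∑ s ∈ (PE n).powerset, if ((∏ p ∈ s, p : ℕ) : ℤ) ∣ m then (-1) ^ s.card else 0 := by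
  have h := jac_split hn m
  rw [sieve_prod (fun p hp => PE_prime hp)] at h
  have h2 := congrArg (fun x : ℝ => (x : ℂ)) h
  push_cast at h2 ⊢
  rw [h2]
  congr 1
  refine sum_congr rfl fun s _ => ?_
  split_ifs <;> simp

theorem fx_odd {n : ℕ} (hn : Odd n) {s : Finset ℕ} (hs : s ∈ (PE n).powerset) :
    Odd (∏ p ∈ s, p) := by
  refine prod_induction _ Odd (fun a b => Odd.mul) odd_one fun p hp => ?_
  exact hn.of_dvd_nat (Nat.dvd_of_mem_primeFactors (mem_filter.1 (mem_powerset.1 hs hp)).1)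

theorem fx_sq8 {e : ℕ} (he : Odd e) : (8 : ℤ) ∣ (e : ℤ) * e - 1 := by
  obtain ⟨m, rfl⟩ := he
  obtain ⟨c, hc⟩ := Int.even_mul_succ_self (m : ℤ)
  exact ⟨c, by push_cast; linear_combination 4 * hc⟩

theorem fx_cl {τ r : ℤ} (hτ : τ = 1 ∨ τ = -1) {F : ℤ → ℂ} {a : ℂ}
    (h : HasSum (fun m : ℕ => if m ≠ 0 ∧ (τ * m) % 8 = r then F (τ * m) else 0) a) :
    HasSum (fun k : CL τ r => F k) a := by
  have hinj : Function.Injective fun k : CL τ r => (k : ℤ).natAbs := by
    intro k l h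
    have h1 := k.2.1
    have h2 := l.2.1
    have h3 : (k : ℤ).natAbs = (l : ℤ).natAbs := h
    refine Subtype.ext ?_
    rcases hτ with e | e <;> subst e <;> omega
  rw [← hinj.hasSum_iff] at h
  · refine h.congr_fun fun k => ?_
    have h1 := k.2.1
    have h2 := k.2.2
    have e : τ * ((k : ℤ).natAbs : ℤ) = k := by rcases hτ with e | e <;> subst e <;> omega
    have e0 : (k : ℤ).natAbs ≠ 0 := by rcases hτ with e | e <;> subst e <;> omega
    simp only [Function.comp, e]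
    rw [if_pos ⟨e0, h2⟩]
  · intro m hm
    refine if_neg fun h => hm ⟨⟨τ * m, ?_, h.2⟩, ?_⟩
    · have := h.1
      rcases hτ with e | e <;> subst e <;> omega
    · rcases hτ with e | e <;> subst e <;> simp

theorem fx_right {τ r : ℤ} (h0 : 0 ≤ r) (h8 : r < 8) (hτ : τ = 1 ∨ τ = -1) {ν e : ℕ} (he : Odd e)
    {u a : ℂ} (h : HasSum (fun m : ℕ => if m = 0 then 0 else
      Phi ν (τ * r * e) m * (m : ℂ) ^ (-u)) a) :
    HasSum (fun m : ℕ => if m ≠ 0 ∧ (τ * m) % 8 = r then (if (e : ℤ) ∣ τ * m then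
      (J(τ * m | ν) : ℂ) * (m : ℂ) ^ (-u) else 0) else 0)
      ((J(τ * e | ν) : ℂ) * (e : ℂ) ^ (-u) * a) := by
  have hinj : Function.Injective fun j : ℕ => e * j := mul_right_injective₀ he.pos.ne'
  rw [← hinj.hasSum_iff]
  · refine (h.mul_left _).congr_fun fun m => ?_
    obtain ⟨d, hd⟩ := fx_sq8 he
    have ht : τ * τ = 1 := by rcases hτ with e | e <;> subst e <;> rfl
    have hiff : (τ * ((e * m : ℕ) : ℤ)) % 8 = r ↔ (m : ℤ) % 8 = (τ * r * e) % 8 := by
      push_cast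
      constructor
      · intro h1
        have h2 : τ * (e * m) = r + 8 * (τ * (e * m) / 8) := by omega
        generalize τ * (e * m) / 8 = t at h2
        have h3 : (m : ℤ) = τ * r * e + 8 * (τ * e * t - d * m) := by
          linear_combination τ * e * h2 - m * hd - e * e * m * ht
        rw [h3, Int.add_mul_emod_self_left]
      · intro h1
        have h2 : (m : ℤ) = τ * r * e + 8 * ((m - τ * r * e) / 8) := by omega
        generalize (m - τ * r * e) / 8 = t at h2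
        have h3 : τ * (e * m) = r + 8 * (r * d + τ * e * t) := by
          linear_combination τ * e * h2 + r * hd + r * e * e * ht
        rw [h3, Int.add_mul_emod_self_left]
        omega
    simp only [Function.comp, hiff]
    by_cases hm : m = 0
    · simp [hm]
    · have hdv : (e : ℤ) ∣ τ * ((e * m : ℕ) : ℤ) := ⟨τ * m, by push_cast; ring⟩
      rw [if_neg hm, if_pos hdv, Phi]
      by_cases hc : (m : ℤ) % 8 = (τ * r * e) % 8
      · rw [if_pos hc, if_pos ⟨mul_ne_zero he.pos.ne' hm, hc⟩, Nat.cast_mul (α := ℂ),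
          natCast_mul_natCast_cpow, Nat.cast_mul, ← mul_assoc τ, jacobiSym.mul_left]
        push_cast
        ring
      · rw [if_neg hc, if_neg fun h => hc h.2]
        simp
  · intro j hj
    have : ¬ (e : ℤ) ∣ τ * j := fun h => hj (by
      have h1 : e ∣ j := by
        rcases hτ with e | e <;> subst e
        · exact Int.natCast_dvd_natCast.1 (by simpa using h)
        · exact Int.natCast_dvd_natCast.1 (by simpa using h)
      obtain ⟨c, hc⟩ := h1
      exact ⟨c, hc.symm⟩)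
    simp [this]

theorem fx_left (τ r : ℤ) {ν e : ℕ} (hν : Odd ν) (hs : Squarefree ν) (he : Odd e) {z a : ℂ}
    (h : HasSum (fun h : ℤ => if h = 0 then 0 else ((8 * ν : ℕ) : ℂ) ^ (z - 1) * (2 * π : ℂ) ^ (-z) *
      Gamma z * ph h z * ft (8 * ν) (Phi ν (τ * r * e)) h * ((|(h : ℝ)| : ℝ) : ℂ) ^ (-z)) a) :
    HasSum (fun H : ℤ => (if H = 0 then 0 else (8 : ℂ) ^ (z - 1) * (2 * π : ℂ) ^ (-z) * Gamma z *
      ph H z * (eg ν * (J(-2 * τ | ν) : ℂ)) * w8 (-(ν * τ * r * H)) * ((|(H : ℝ)| : ℝ) : ℂ) ^ (-z) *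
      ((ν : ℂ) ^ (z - 1 / 2) * (J(H | ν) : ℂ))) *
        if (e : ℤ) ∣ H then (e : ℂ) ^ (2 * z - 1) else 0)
      ((J(τ * e | ν) : ℂ) * (e : ℂ) ^ (-(1 - z)) * a) := by
  have he0 : (0 : ℤ) < e := by exact_mod_cast he.pos
  have hinj : Function.Injective fun j : ℤ => e * j := mul_right_injective₀ he0.ne'
  rw [← hinj.hasSum_iff]
  · refine (h.mul_left _).congr_fun fun m => ?_
    by_cases hm : m = 0
    · simp [hm]
    · have e1 : ph (e * m) z = ph m z := by
        unfold ph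
        rw [Int.sign_mul, Int.sign_eq_one_of_pos he0, one_mul]
      have e2 : ((|((e * m : ℤ) : ℝ)| : ℝ) : ℂ) ^ (-z) =
          (e : ℂ) ^ (-z) * ((|(m : ℝ)| : ℝ) : ℂ) ^ (-z) := by
        rw [Int.cast_mul, abs_mul, Int.cast_natCast, Nat.abs_cast, ofReal_mul,
          mul_cpow_ofReal_nonneg (by positivity) (abs_nonneg _), ofReal_natCast]
      have e3 : ((8 * ν : ℕ) : ℂ) ^ (z - 1) = (8 : ℂ) ^ (z - 1) * (ν : ℂ) ^ (z - 1) := by
        rw [Nat.cast_mul, natCast_mul_natCast_cpow]; rfl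
      have e4 : (ν : ℂ) ^ (z - 1 / 2) = (ν : ℂ) ^ (z - 1) * ((√(ν : ℝ) : ℝ) : ℂ) := by
        rw [Real.sqrt_eq_rpow, ofReal_cpow (by positivity), ofReal_natCast,
          ← cpow_add _ _ (by exact_mod_cast hν.pos.ne')]
        congr 1
        push_cast
        ring
      have e5 : (e : ℂ) ^ (-(1 - z)) = (e : ℂ) ^ (-z) * (e : ℂ) ^ (2 * z - 1) := by
        rw [← cpow_add _ _ (by exact_mod_cast he.pos.ne')]
        congr 1
        ring
      have e6 : w8 (-(ν * τ * r * (e * m))) = w8 (-(ν * (τ * r * e) * m)) := by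
        congr 1
        ring
      simp only [Function.comp]
      rw [if_neg hm, if_neg (mul_ne_zero he0.ne' hm), if_pos (dvd_mul_right _ _), pDFT ν _ m hν hs,
        e1, e2, e3, e4, e5, e6]
      simp only [jacobiSym.mul_left]
      push_cast
      ring
  · intro j hj
    rw [if_neg (c := (e : ℤ) ∣ j) fun ⟨c, hc⟩ => hj ⟨c, hc.symm⟩, mul_zero]

theorem fx_summable {F : SF → ℂ} (C : ℝ) (h : ∀ k : SF, ‖F k‖ ≤ C * |((k : ℤ) : ℝ)| ^ (-2 : ℝ)) :
    Summable F :=
  Summable.of_norm_bounded (((Real.summable_abs_int_rpow (b := 2) one_lt_two).mul_left C).subtype _) h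

theorem fx_twist (hTKB : TKB) {τ r : ℤ} (hτ : τ = 1 ∨ τ = -1) {n : ℕ} (hn : Odd n) {z a : ℂ}
    (hz : z.re = 2)
    (h : HasSum (fun k : SF => (8 : ℂ) ^ (z - 1) * (2 * π : ℂ) ^ (-z) * Gamma z * riemannZeta (2 * z) *
      (ph k z * ((|((k : ℤ) : ℝ)| : ℝ) : ℂ) ^ (-z) * (Aq τ r (sf n) k z * Tk k z n))) a) :
    HasSum (fun κ : SF => Kd (EG τ r) κ z * Tk κ z n) a := by
  obtain ⟨c1, c2, c3⟩ := pCH8
  set K : ℂ := (8 : ℂ) ^ (z - 1) * (2 * π : ℂ) ^ (-z) * Gamma z * riemannZeta (2 * z) with hK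
  set G : ℤ → ℤ → ℂ := fun f k => K * (ph k z * ((|(k : ℝ)| : ℝ) : ℂ) ^ (-z) *
    (cf τ r f k z * Tk (io f k) z n)) with hG
  have hs : ∀ f ∈ F4, Summable fun k : SF => G f k := fun f _ => by
    refine fx_summable (‖K‖ * (Real.exp (π * |z.im| / 2) * (65 * (n : ℝ) ^ 7))) fun k => ?_
    have hk : 0 < |((k : ℤ) : ℝ)| := abs_pos.2 (by exact_mod_cast k.2.ne_zero)
    have a1 := mul_le_mul (norm_cf τ r f k (z := z) (by linarith))
      (hTKB.2.1 (io f k) z n (by linarith) (by linarith) hn.pos.ne') (norm_nonneg _) (by norm_num)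
    have a2 := mul_le_mul (norm_ph k z) a1 (by positivity) (by positivity)
    simp only [hG, norm_mul]
    rw [norm_cpow_eq_rpow_re_of_pos hk, neg_re, hz, mul_assoc ‖K‖, mul_right_comm ‖ph _ _‖]
    gcongr
  have h1 : HasSum (fun k : SF => ∑ f ∈ F4, G f k) (∑ f ∈ F4, ∑' k : SF, G f k) :=
    hasSum_sum fun f hf => (hs f hf).hasSum
  have h2 : a = ∑ f ∈ F4, ∑' k : SF, G f k := h.unique (h1.congr_fun fun k => by
    rw [c1 τ r k (sf n) z hτ (sf_odd hn), sum_mul, mul_sum, mul_sum]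
    refine sum_congr rfl fun f hf => ?_
    simp only [hG]
    rw [← c3 f hf k z n hn, mul_assoc (cf _ _ _ _ _)]
    rfl)
  have h3 : ∀ f ∈ F4, HasSum (fun κ : SF => G f (io f κ)) (∑' k : SF, G f k) := fun f hf => by
    let e : SF ≃ SF :=
      { toFun := fun k => ⟨io f k, (c2 f hf k k.2).1⟩
        invFun := fun k => ⟨io f k, (c2 f hf k k.2).1⟩
        left_inv := fun k => Subtype.ext (c2 f hf k k.2).2
        right_inv := fun k => Subtype.ext (c2 f hf k k.2).2 }
    exact (e.hasSum_iff (f := fun k : SF => G f k)).2 (hs f hf).hasSum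
  rw [h2]
  refine (hasSum_sum h3).congr_fun fun κ => ?_
  have hz0 : z ≠ 0 := by rintro rfl; simp at hz
  have hk : 0 < |((κ : ℤ) : ℝ)| := abs_pos.2 (by exact_mod_cast κ.2.ne_zero)
  rw [Kd, EG, Gamma_add_one z hz0, mul_sum, sum_div, sum_mul, sum_mul, sum_mul]
  refine sum_congr rfl fun f hf => ?_
  have e : ((|((io f κ : ℤ) : ℝ)| : ℝ) : ℂ) ^ (-z) =
      ((|((io f κ : ℤ) : ℝ)| / |((κ : ℤ) : ℝ)| : ℝ) : ℂ) ^ (-z) *
        ((|((κ : ℤ) : ℝ)| : ℝ) : ℂ) ^ (-z) := by
    rw [← mul_cpow_ofReal_nonneg (by positivity) hk.le, ← ofReal_mul, div_mul_cancel₀ _ hk.ne']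
  simp only [hG, hK]
  rw [(c2 f hf κ κ.2).2, e]
  field_simp

theorem pFEx (hPER : PER) (hTKB : TKB) : FEx := by
  classical
  intro τ r hτ h0 h8 n hn
  have hν := sf_odd hn
  have hsf := sf_squarefree n
  choose g C hd h1 hb hr hl using fun e : ℕ => hPER (8 * sf n) (Phi (sf n) (τ * r * e))
    (by have := hν.pos; omega) (pd_Phi_per _ _)
  set E : Finset ℕ → ℕ := fun s => ∏ p ∈ s, p with hE
  have hEo : ∀ s ∈ (PE n).powerset, Odd (E s) := fun s hs => fx_odd hn hs
  refine ⟨fun u => ∑ s ∈ (PE n).powerset, (-1) ^ s.card *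
    ((J(τ * E s | sf n) : ℂ) * (E s : ℂ) ^ (-u) * g (E s) u),
    ∑ s ∈ (PE n).powerset, E s * C (E s), ?_, ?_, fun u hu => ?_, fun u hu => ?_, fun z hz => ?_⟩
  · refine Differentiable.fun_sum fun s hs => Differentiable.const_mul (Differentiable.mul
      (Differentiable.const_mul ?_ _) (hd _)) _
    exact differentiable_id.neg.const_cpow (Or.inl (by exact_mod_cast (hEo s hs).pos.ne'))
  · have e2 : UV n 0 0 = T0 n := by
      rw [← hTKB.1 n hn, show (0 : ℤ) = 1 * ((0 : ℕ) : ℤ) ^ 2 by simp, UU_eq, ← loc_eq_TK]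
      simp
    rw [← e2, fx_UV, mul_sum, sum_div]
    refine sum_congr rfl fun s hs => ?_
    rw [h1, pDFT _ _ 0 hν hsf, if_pos (dvd_zero _)]
    by_cases h : sf n = 1
    · simp [h, eg, w8_zero, hE]
      ring
    · have : J(0 | sf n) = 0 := jacobiSym.zero_left (by have := hν.pos; omega)
      simp [this]
  · rw [sum_mul]
    refine (norm_sum_le _ _).trans (sum_le_sum fun s hs => ?_)
    have a1 : ‖(E s : ℂ) ^ (-u)‖ ≤ E s := by
      rw [norm_natCast_cpow_of_pos (hEo s hs).pos]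
      conv_rhs => rw [← Real.rpow_one (E s)]
      exact Real.rpow_le_rpow_of_exponent_le (by exact_mod_cast (hEo s hs).pos)
        (by have := hu.1; simp; linarith)
    have a2 := mul_le_mul (norm_jac_le (τ * E s) (sf n)) a1 (norm_nonneg _) zero_le_one
    rw [norm_mul, norm_pow, norm_neg, norm_one, one_pow, one_mul, norm_mul, norm_mul, mul_assoc]
    rw [one_mul] at a2
    rw [← mul_assoc, mul_assoc (E s : ℝ)]
    exact mul_le_mul a2 (hb _ u hu) (norm_nonneg _) (by positivity)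
  · refine fx_cl hτ (F := fun k => (J(k | n) : ℂ) * ((|(k : ℝ)| : ℝ) : ℂ) ^ (-u)) ?_
    have h2 := hasSum_sum fun s hs => (fx_right h0 h8 hτ (hEo s hs) (hr (E s) u
      (by linarith))).mul_left ((-1) ^ s.card)
    simp only [← mul_div_assoc, ← sum_div] at h2
    refine h2.congr_fun fun m => ?_
    have e : |((τ * m : ℤ) : ℝ)| = m := by rcases hτ with e | e <;> subst e <;> simp
    by_cases hc : m ≠ 0 ∧ (τ * m) % 8 = r
    · simp only [if_pos hc]
      rw [fx_jac hn.pos.ne', e, ofReal_natCast, mul_sum, sum_mul]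
      refine sum_congr rfl fun s _ => ?_
      simp only [hE]
      split_ifs <;> ring
    · simp only [if_neg hc, mul_zero, sum_const_zero]
  · have h2 := hasSum_sum fun s hs => (fx_left τ r hν hsf (hEo s hs) (hl (E s) z
      (by linarith))).mul_left ((-1) ^ s.card)
    simp only [← mul_div_assoc, ← sum_div] at h2
    set K : ℂ := (8 : ℂ) ^ (z - 1) * (2 * π : ℂ) ^ (-z) * Gamma z with hK
    have h3 := hasSum_sqfree (f := fun H : ℤ => if H = 0 then 0 else K * ph H z *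
      (eg (sf n) * (J(-2 * τ | sf n) : ℂ)) * w8 (-(sf n * τ * r * H)) *
      ((|(H : ℝ)| : ℝ) : ℂ) ^ (-z) * UV n z H) (h2.congr_fun fun H => by
        by_cases hH : H = 0
        · simp [hH]
        · simp only [if_neg hH]
          rw [fx_UV, mul_sum, mul_sum]
          refine sum_congr rfl fun s _ => ?_
          simp only [hE]
          split_ifs <;> ring)
    rw [if_pos rfl, sub_zero] at h3
    refine fx_twist hTKB hτ hn hz ?_
    have h4 := h3.prod_fiberwise (g := fun k : ℤ => if Squarefree k then K * riemannZeta (2 * z) *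
      (ph k z * ((|(k : ℝ)| : ℝ) : ℂ) ^ (-z) * (Aq τ r (sf n) k z * Tk k z n)) else 0) fun k => by
      by_cases hk : Squarefree k
      · simp only [if_pos hk]
        have h5 := (fx_sq hn k (-(sf n * τ * r * k)) hz).mul_left (K * ph k z *
          (eg (sf n) * (J(-2 * τ | sf n) : ℂ)) * ((|(k : ℝ)| : ℝ) : ℂ) ^ (-z))
        rw [show K * riemannZeta (2 * z) * (ph k z * ((|(k : ℝ)| : ℝ) : ℂ) ^ (-z) *
          (Aq τ r (sf n) k z * Tk k z n)) = K * ph k z * (eg (sf n) * (J(-2 * τ | sf n) : ℂ)) *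
            ((|(k : ℝ)| : ℝ) : ℂ) ^ (-z) * (riemannZeta (2 * z) * Tk k z n *
              brk (-(sf n * τ * r * k)) z) by rw [Aq]; ring]
        refine h5.congr_fun fun j => ?_
        by_cases hj : j = 0
        · have : -(2 * z) ≠ 0 := fun h => by
            have := congrArg re h
            simp [hz] at this
          simp [hj, this]
        · have hj0 : (0 : ℤ) < (j : ℤ) ^ 2 := by positivity
          have e1 : ph (k * (j : ℤ) ^ 2) z = ph k z := by
            unfold ph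
            rw [Int.sign_mul, Int.sign_eq_one_of_pos hj0, mul_one]
          have e2 : ((|((k * (j : ℤ) ^ 2 : ℤ) : ℝ)| : ℝ) : ℂ) ^ (-z) =
              ((|(k : ℝ)| : ℝ) : ℂ) ^ (-z) * (j : ℂ) ^ (-(2 * z)) := by
            rw [show |((k * (j : ℤ) ^ 2 : ℤ) : ℝ)| = |(k : ℝ)| * ((j * j : ℕ) : ℝ) by
              push_cast; rw [abs_mul, abs_pow, sq_abs, sq], ofReal_mul,
              mul_cpow_ofReal_nonneg (abs_nonneg _) (by positivity), ofReal_natCast, Nat.cast_mul,
              natCast_mul_natCast_cpow, ← cpow_add _ _ (by exact_mod_cast hj)]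
            congr 2
            ring
          rw [if_neg hj, if_neg (mul_ne_zero hk.ne_zero hj0.ne'), e1, e2,
            show -(sf n * τ * r * (k * (j : ℤ) ^ 2)) = -(sf n * τ * r * k) * (j : ℤ) ^ 2 by ring]
          ring
      · simp only [if_neg hk]
        exact hasSum_zero
    have h6 := (hasSum_subtype_iff_indicator (s := {k : ℤ | Squarefree k})
      (f := fun k : ℤ => K * riemannZeta (2 * z) *
      (ph k z * ((|(k : ℝ)| : ℝ) : ℂ) ^ (-z) * (Aq τ r (sf n) k z * Tk k z n)))).2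
      (h4.congr_fun fun k => by simp [Set.indicator])
    exact h6

end Pool.Agent.Q4
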