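import Pool.Agent.P.MP_ea46f5_nt.Q4.PDc
import Pool.Agent.P.MP_ea46f5_nt.QM.FSH

/-! The functional equation in the discriminant with a weight. -/

namespace Pool.Agent.Q4

open Complex MeasureTheory Finset Pool.Agent.QM Pool.Agent.QM.Po NumberTheorySymbols
open scoped Real ComplexConjugate

theorem pKDB (hZT : ZT) : KDB := by
  obtain ⟨D, hD, H⟩ := hZT.2.1
  refine ⟨⟨4 * D, by positivity, fun E C κ z hK hκ h1 h2 => ⟨?_, ?_⟩⟩, fun k n => ?_⟩
  · have hz0 : z ≠ 0 := by rintro rfl; simp at h1; linarith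
    have hz1 : 2 * z ≠ 1 := fun h => by
      have := congrArg re h
      simp at this
      linarith
    have hk : ((|(κ : ℝ)| : ℝ) : ℂ) ≠ 0 := ofReal_ne_zero.2 (abs_ne_zero.2 (by exact_mod_cast hκ))
    have a1 := (hK.1 κ hκ).differentiableAt ((isOpen_lt continuous_const continuous_re).mem_nhds
      (show z ∈ {z : ℂ | -1 < z.re} by simp; linarith))
    exact ((a1.div differentiableAt_id hz0).mul ((differentiableAt_riemannZeta hz1).comp z
      (differentiableAt_id.const_mul 2))).mul (differentiableAt_id.neg.const_cpow (Or.inl hk))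
  · have hb := sh_br_one z.im
    have a1 := hK.2.1 κ z hκ (by linarith) h2
    have hC : 0 ≤ C := by
      by_contra h
      have : C * br z.im ^ 10 < 0 := mul_neg_of_neg_of_pos (not_le.1 h) (by positivity)
      linarith [norm_nonneg (E κ z)]
    have a2 : 1 / 2 ≤ ‖z‖ := h1.le.trans (re_le_norm z)
    have a3 := H (2 * z - 1) (by simp; linarith) (by simp; linarith)
    have a4 : br (2 * z - 1).im ≤ 2 * br z.im := by
      unfold br; simp [abs_mul]; linarith
    have a5 : 1 / ‖2 * z - 1‖ ≤ 1 / (z.re - 1 / 2) :=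
      one_div_le_one_div_of_le (by linarith) (le_trans (by simp; linarith) (re_le_norm _))
    have a6 : 0 < 1 / (z.re - 1 / 2) := one_div_pos.2 (by linarith)
    have a7 : ‖riemannZeta (2 * z)‖ ≤ D * (2 * br z.im) * (1 + 1 / (z.re - 1 / 2)) := by
      rw [add_sub_cancel] at a3
      refine a3.trans ?_
      gcongr
    have a8 : ‖E κ z‖ / ‖z‖ ≤ 2 * (C * br z.im ^ 10) := by
      rw [div_le_iff₀ (by linarith)]
      have : 0 ≤ C * br z.im ^ 10 := by positivity
      nlinarith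
    rw [Kd, norm_mul, norm_mul, norm_div,
      norm_cpow_eq_rpow_re_of_pos (abs_pos.2 (by exact_mod_cast hκ)), neg_re]
    refine mul_le_mul_of_nonneg_right ?_ (by positivity)
    refine (mul_le_mul a8 a7 (norm_nonneg _) (by positivity)).trans (le_of_eq ?_)
    ring
  · unfold Tk
    refine Differentiable.fun_finsetProd fun p hp => ?_
    have hp0 : (p : ℂ) ≠ 0 := by exact_mod_cast (Nat.prime_of_mem_primeFactors hp).ne_zero
    unfold ok ek
    split_ifs
    · exact ((differentiable_id.const_cpow (Or.inl hp0)).sub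
        (differentiable_id.neg.const_cpow (Or.inl hp0))).const_mul _
    · exact (((differentiable_id.const_mul 2).sub_const 1).const_cpow (Or.inl hp0)).const_sub 1
    · exact differentiable_const _

theorem pd_swap {ι : Type} [Countable ι] (kk : ι → ℤ) (hi : Function.Injective kk)
    (F : ι → ℝ → ℂ) (G : ℝ → ℂ) (C : ℝ) (hc : ∀ i, Continuous (F i))
    (hb : ∀ i t, ‖F i t‖ ≤ C * |(kk i : ℝ)| ^ (-2 : ℝ) / br t ^ 2)
    (hs : ∀ t, HasSum (fun i => F i t) (G t)) : HasSum (fun i => ∫ t, F i t) (∫ t, G t) := by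
  have hint : ∀ i, Integrable (F i) := fun i =>
    (sh_int_maj _).mono' (hc i).aestronglyMeasurable (Filter.Eventually.of_forall (hb i))
  have h := hasSum_integral_of_summable_integral_norm hint (by
    refine Summable.of_nonneg_of_le (fun i => integral_nonneg fun t => norm_nonneg _) (fun i => ?_)
      ((((Real.summable_abs_int_rpow (b := 2) one_lt_two).comp_injective hi).mul_left
        (C * ∫ t : ℝ, 1 / br t ^ 2)))
    refine (integral_mono (hint i).norm (sh_int_maj _) (hb i)).trans (le_of_eq ?_)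
    rw [mul_right_comm, ← integral_const_mul]
    exact integral_congr_ae (Filter.Eventually.of_forall fun t => by simp [div_eq_mul_inv]))
  simpa only [(hs _).tsum_eq] using h

theorem pPDx (hSH0 : SH0) (hSH1 : SH1) (hTKB : TKB) (hKDB : KDB) : PDx := by
  intro τ r E C hK hF n ρ M σ hn hρ hM hσ
  obtain ⟨g, Cg, hg, g1, gb, gr, gl⟩ := hF n hn
  obtain ⟨⟨D, hD, hKd⟩, hT⟩ := hKDB
  have hM0 : 0 ≤ M := by
    have := (norm_nonneg _).trans (hM 0 ⟨by simp, by simp⟩)
    simpa [br] using this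
  have hC : 0 ≤ C := by
    have := (norm_nonneg _).trans (hK.2.1 1 0 one_ne_zero (by simp) (by simp))
    simpa [br] using this
  have hdiv : ∀ (t A : ℝ) (a b : ℕ), 0 ≤ A → a + b ≤ 14 → M / br t ^ 14 * (A * br t ^ a) ≤
      M * A / br t ^ b := fun t A a b hA hab => by
    have h1 := sh_br_one t
    rw [div_mul_eq_mul_div, div_le_div_iff₀ (by positivity) (by positivity), ← mul_assoc,
      mul_assoc _ (br t ^ a), ← pow_add]
    exact mul_le_mul_of_nonneg_left (pow_le_pow_right₀ h1 hab) (by positivity)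
  have hl : ∀ c : ℝ, -5 ≤ c → c ≤ 2 → Continuous fun t : ℝ => ρ (c + t * I) := fun c h1 h2 =>
    sh_line hρ.1 fun t => sh_mem t h1 h2
  -- the sum over the class
  have hA := pd_swap (fun k : CL τ r => (k : ℤ)) Subtype.val_injective
    (fun k t => (J(k | n) : ℂ) * (ρ ((2 : ℝ) + t * I) *
      ((|((k : ℤ) : ℝ)| : ℝ) : ℂ) ^ (-((2 : ℝ) + t * I : ℂ))))
    (fun t => ρ ((2 : ℝ) + t * I) * g ((2 : ℝ) + t * I) / ((2 : ℝ) + t * I - 1)) M
    (fun k => by
      have hk : (k : ℤ) ≠ 0 := fun h => by have := k.2.1; rw [h] at this; simp at this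
      refine continuous_const.mul ((hl 2 (by norm_num) le_rfl).mul (Continuous.const_cpow
        (by fun_prop) (Or.inl (ofReal_ne_zero.2 (abs_ne_zero.2 (by exact_mod_cast hk)))))))
    (fun k t => by
      have hk : (k : ℤ) ≠ 0 := fun h => by have := k.2.1; rw [h] at this; simp at this
      have h1 := hM _ (sh_mem (a := -5) (b := 2) (x := 2) t (by norm_num) le_rfl)
      have h2 := hdiv t 1 0 2 zero_le_one (by norm_num)
      have e : ((2 : ℝ) + t * I : ℂ).im = t := by simp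
      rw [e] at h1
      rw [norm_mul, norm_mul, norm_cpow_eq_rpow_re_of_pos (abs_pos.2 (by exact_mod_cast hk)),
        show (-((2 : ℝ) + t * I : ℂ)).re = -2 by simp, mul_div_right_comm]
      refine (mul_le_of_le_one_left (by positivity) (norm_jac_le _ _)).trans ?_
      refine mul_le_mul_of_nonneg_right (h1.trans ?_) (by positivity)
      simpa using h2)
    (fun t => by
      rw [mul_div_assoc]
      exact ((gr ((2 : ℝ) + t * I) (by simp)).mul_left _).congr_fun fun k => by ring)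
  -- the shift
  have hCg : 0 ≤ Cg := by
    have := (norm_nonneg _).trans (gb 0 ⟨by simp, by simp⟩)
    simpa [br] using this
  have hB := hSH1 (-1) 2 (M * Cg) (fun u => ρ u * g u) 1 (by simp) (by simp)
    ⟨(hρ.1.mono fun s hs => ⟨by linarith [hs.1], hs.2⟩).mul hg.continuous.continuousOn,
      (hρ.2.mono fun s hs => ⟨by linarith [hs.1], hs.2⟩).mul hg.differentiableOn⟩
    (fun s hs => by
      rw [norm_mul, ← pow_one (br s.im)]
      have := sh_br_one s.im
      exact (mul_le_mul (hM s ⟨by linarith [hs.1], hs.2⟩) (gb s hs) (norm_nonneg _)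
        (by positivity)).trans (hdiv _ _ 6 1 hCg (by norm_num)))
  -- the bound for the dual integrand
  have hb : ∀ (κ : ℤ) (a : ℝ) (z : ℂ), κ ≠ 0 → 1 / 2 < a → a ≤ z.re → z.re ≤ 6 →
      ‖ρ (1 - z) * Kd E κ z * Tk κ z n‖ ≤ M * (D * C * (1 + 1 / (a - 1 / 2)) * (n : ℝ) ^ 7) *
        |(κ : ℝ)| ^ (-z.re) / br z.im ^ 2 := fun κ a z hκ h1 h2 h3 => by
    have a1 := hM (1 - z) ⟨by simp; linarith, by simp; linarith⟩
    have a2 := (hKd E C κ z hK hκ (by linarith) (by linarith)).2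
    have a3 := hTKB.2.1 κ z n (by linarith) h3 hn.pos.ne'
    have a4 : 1 / (z.re - 1 / 2) ≤ 1 / (a - 1 / 2) :=
      one_div_le_one_div_of_le (by linarith) (by linarith)
    have a5 : 0 < 1 / (z.re - 1 / 2) := one_div_pos.2 (by linarith)
    have a6 : 0 < 1 / (a - 1 / 2) := one_div_pos.2 (by linarith)
    have e : br (1 - z).im = br z.im := by simp [br]
    have := sh_br_one z.im
    rw [e] at a1
    rw [norm_mul, norm_mul, mul_div_right_comm]
    refine le_trans ?_ (mul_le_mul_of_nonneg_right (hdiv z.im _ 11 2 (by positivity) (by norm_num))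
      (by positivity))
    calc _ ≤ M / br z.im ^ 14 * (D * C * (1 + 1 / (a - 1 / 2)) * br z.im ^ 11 *
          |(κ : ℝ)| ^ (-z.re)) * (n : ℝ) ^ 7 := by
          refine mul_le_mul (mul_le_mul a1 (a2.trans ?_) (norm_nonneg _) (by positivity)) a3
            (norm_nonneg _) (by positivity)
          gcongr
      _ = _ := by ring
  have hN : ∀ (κ : ℤ) (a b : ℝ), κ ≠ 0 → 1 / 2 < a → b ≤ 6 →
      Nice a b fun z => ρ (1 - z) * Kd E κ z * Tk κ z n := fun κ a b hκ h1 h2 => by
    have a1 : ∀ z ∈ Strip a b, DifferentiableAt ℂ (Kd E κ) z := fun z hz =>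
      (hKd E C κ z hK hκ (by linarith [hz.1]) (by linarith [hz.2])).1
    refine ⟨((hρ.1.comp (by fun_prop) fun z hz => ⟨?_, ?_⟩).mul fun z hz =>
      (a1 z hz).continuousAt.continuousWithinAt).mul (hT κ n).continuous.continuousOn,
      ((hρ.2.comp (by fun_prop) fun z hz => ⟨?_, ?_⟩).mul fun z hz =>
      (a1 z ⟨hz.1.le, hz.2.le⟩).differentiableWithinAt).mul (hT κ n).differentiableOn⟩ <;>
    · have := hz.1
      have := hz.2
      simp
      linarith
  have hS : ∀ (κ : ℤ) (a b : ℝ), κ ≠ 0 → 1 / 2 < a → a ≤ b → b ≤ 6 →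
      (Iv b fun z => ρ (1 - z) * Kd E κ z * Tk κ z n) =
        Iv a fun z => ρ (1 - z) * Kd E κ z * Tk κ z n := fun κ a b hκ h1 h2 h3 =>
    hSH0 a b (M * (D * C * (1 + 1 / (a - 1 / 2)) * (n : ℝ) ^ 7)) _ h2 (hN κ a b hκ h1 h3)
      fun z hz => (hb κ a z hκ h1 hz.1 (hz.2.trans h3)).trans (by
        have a6 : 0 < 1 / (a - 1 / 2) := one_div_pos.2 (by linarith)
        have := sh_br_one z.im
        refine div_le_div_of_nonneg_right (mul_le_of_le_one_right (by positivity) ?_) (by positivity)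
        refine Real.rpow_le_one_of_one_le_of_nonpos ?_ (by linarith [hz.1])
        exact_mod_cast Int.one_le_abs hκ)
  have hD' := pd_swap (fun κ : SF => (κ : ℤ)) Subtype.val_injective
    (fun κ t => ρ (1 - ((2 : ℝ) + t * I)) * Kd E κ ((2 : ℝ) + t * I) * Tk κ ((2 : ℝ) + t * I) n)
    (fun t => ρ (1 - ((2 : ℝ) + t * I)) * (g (1 - ((2 : ℝ) + t * I)) / (-((2 : ℝ) + t * I))))
    (M * (D * C * (1 + 1 / (2 - 1 / 2)) * (n : ℝ) ^ 7))
    (fun κ => sh_line (hN κ 2 2 κ.2.ne_zero (by norm_num) (by norm_num)).1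
      fun t => sh_mem t le_rfl le_rfl)
    (fun κ t => by
      simpa using hb κ 2 ((2 : ℝ) + t * I) κ.2.ne_zero (by norm_num) (by simp) (by simp; norm_num))
    (fun t => ((gl ((2 : ℝ) + t * I) (by simp)).mul_left _).congr_fun fun κ => by ring)
  have hE : (∫ t : ℝ, ρ (1 - ((2 : ℝ) + t * I)) * (g (1 - ((2 : ℝ) + t * I)) /
      (-((2 : ℝ) + t * I)))) = Iv (-1) fun u => ρ u * g u / (u - 1) := by
    rw [Iv, ← integral_neg_eq_self]
    refine integral_congr_ae (Filter.Eventually.of_forall fun t => ?_)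
    have e : (1 - ((2 : ℝ) + ((-t : ℝ) : ℂ) * I) : ℂ) = ((-1 : ℝ) : ℂ) + t * I := by push_cast; ring
    have e2 : (-((2 : ℝ) + ((-t : ℝ) : ℂ) * I) : ℂ) = ((-1 : ℝ) : ℂ) + t * I - 1 := by push_cast; ring
    simp only [e, e2, mul_div_assoc]
  have hA2 : ∑' k : CL τ r, (J(k | n) : ℂ) *
      (1 / (2 * π) * Iv 2 fun u => ρ u * ((|((k : ℤ) : ℝ)| : ℝ) : ℂ) ^ (-u)) =
      1 / (2 * π) * Iv 2 fun u => ρ u * g u / (u - 1) :=
    ((hA.mul_left (1 / (2 * π) : ℂ)).congr_fun fun k => by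
      rw [integral_const_mul, mul_left_comm]; rfl).tsum_eq
  have hπ : (π : ℂ) ≠ 0 := ofReal_ne_zero.2 Real.pi_ne_zero
  rw [hA2, hB, g1, ← hE, show ∀ a : ℂ, 1 / (2 * π) * (a + 2 * π * (ρ 1 * ((T0 n : ℂ) / 8))) -
    ρ 1 * (T0 n : ℂ) / 8 = 1 / (2 * π) * a from fun a => by field_simp; ring]
  refine (hD'.mul_left _).congr_fun fun κ => ?_
  congr 1
  rcases le_total (σ κ) 2 with h | h
  · exact (hS κ _ 2 κ.2.ne_zero (hσ κ).1 h (by norm_num)).symm
  · exact hS κ 2 _ κ.2.ne_zero (by norm_num) h (hσ κ).2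

theorem pPD (hZT : ZT) (hTKB : TKB) : PD := fun τ r hτ h0 h8 => by
  obtain ⟨C, hC, hK⟩ := pKAx τ r hτ
  exact ⟨_, C, hC, hK, pPDx pSH0 pSH1 hTKB (pKDB hZT) τ r _ C hK (pFEx (pPER hZT) hTKB τ r hτ h0 h8)⟩

end Pool.Agent.Q4
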