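import Pool.Agent.P.MP_ea46f5_nt.Q4.PDa
import Pool.Agent.P.MP_ea46f5_nt.QM.FKR
import Pool.Agent.P.MP_ea46f5_nt.QM.FFE

/-! The Gauss sum of the Kronecker symbol and the root number. -/

namespace Pool.Agent.Q4

open Complex MeasureTheory Finset Pool.Agent.QM NumberTheorySymbols
open scoped Real ComplexConjugate

theorem gk_crt {c ν : ℕ} [NeZero c] (hc : Nat.Coprime c ν) (ho : Odd ν) (hs : Squarefree ν)
    (ψ : MulChar (ZMod c) ℤ) :
    ∑ t ∈ range (c * ν), ((ψ t * J((t : ℤ) | ν) : ℤ) : ℂ) *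
      cexp (-(2 * π * I * t * ((-1 : ℤ) : ℂ) / (c * ν : ℕ))) =
      (∑ a ∈ range c, (ψ a : ℂ) * cexp (2 * π * I * a / c)) *
        ((ψ ν * J((c : ℤ) | ν) : ℤ) * eg ν) * ((√(ν : ℝ) : ℝ) : ℂ) := by
  have : NeZero ν := ⟨ho.pos.ne'⟩
  have h0 : (ν : ℂ) ≠ 0 := by exact_mod_cast ho.pos.ne'
  have h1 : (c : ℂ) ≠ 0 := NeZero.ne _
  have h2 := pd_crt hc (F := fun t => ((ψ t * J(t | ν) : ℤ) : ℂ) *
      cexp (-(2 * π * I * t * ((-1 : ℤ) : ℂ) / (c * ν : ℕ)))) (fun t => by
    have e1 : ((t + (c * ν : ℕ) : ℤ) : ZMod c) = t := by push_cast; simp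
    have e2 : J(t + (c * ν : ℕ) | ν) = J(t | ν) := by
      apply jacobiSym.mod_left'
      push_cast
      rw [Int.add_mul_emod_self_right]
    rw [e1, e2, pd_exp_per _ (mul_ne_zero (NeZero.ne c) ho.pos.ne')])
  simp only [Int.cast_natCast] at h2
  have h3 := pd_gsum ho hs (-1)
  rw [neg_neg, jacobiSym.one_left, Int.cast_one, one_mul] at h3
  rw [h2, show ∀ a b d e : ℂ, a * (b * d) * e = a * b * (d * e) by intros; ring, ← h3, sum_mul,
    sum_mul]
  refine sum_congr rfl fun a _ => ?_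
  rw [mul_sum]
  refine sum_congr rfl fun b _ => ?_
  have e1 : ((a * ν + b * c : ℤ) : ZMod c) = a * ν := by push_cast; simp
  have e2 : J(a * ν + b * c | ν) = J((c : ℤ) | ν) * J((b : ℤ) | ν) := by
    rw [← jacobiSym.mul_left]
    apply jacobiSym.mod_left'
    rw [add_comm, Int.add_mul_emod_self_right, mul_comm]
  have e3 : cexp (-(2 * π * I * ((a * ν + b * c : ℤ) : ℂ) * ((-1 : ℤ) : ℂ) / (c * ν : ℕ))) =
      cexp (2 * π * I * a / c) * cexp (-(2 * π * I * b * ((-1 : ℤ) : ℂ) / ν)) := by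
    rw [← Complex.exp_add]
    congr 1
    push_cast
    field_simp
  rw [e1, e2, e3, map_mul]
  push_cast
  ring

theorem gk_pow (c a : ℕ) : cexp (2 * π * I * a / c) = cexp (2 * π * I / c) ^ a := by
  rw [← Complex.exp_nat_mul]
  congr 1
  ring

theorem gk_four : ∑ a ∈ range 4, (ZMod.χ₄ a : ℂ) * cexp (2 * π * I * a / (4 : ℕ)) = 2 * I := by
  have e : cexp (2 * π * I / (4 : ℕ)) = I := by
    rw [show (2 * π * I / (4 : ℕ) : ℂ) = π / 2 * I by push_cast; ring, Complex.exp_pi_div_two_mul_I]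
  simp only [gk_pow, e, sum_range_succ, sum_range_zero, ZMod.χ₄_nat_eq_if_mod_four]
  norm_num
  ring

theorem gk_w : cexp (2 * π * I / (8 : ℕ)) = ((√2 : ℝ) : ℂ) / 2 * (1 + I) := by
  rw [show (2 * π * I / (8 : ℕ) : ℂ) = ((π / 4 : ℝ) : ℂ) * I by push_cast; ring, exp_mul_I,
    ← ofReal_cos, ← ofReal_sin, Real.cos_pi_div_four, Real.sin_pi_div_four]
  push_cast
  ring

theorem gk_r : ((√2 : ℝ) : ℂ) ^ 2 = 2 := by
  rw [← ofReal_pow, Real.sq_sqrt (by norm_num)]
  rfl

theorem gk_w2 : cexp (2 * π * I / (8 : ℕ)) ^ 2 = I := by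
  rw [gk_w]
  linear_combination (1 + I) ^ 2 / 4 * gk_r + I_sq / 2

theorem gk_eight : ∑ a ∈ range 8, (ZMod.χ₈ a : ℂ) * cexp (2 * π * I * a / (8 : ℕ)) =
    2 * ((√2 : ℝ) : ℂ) ∧ ∑ a ∈ range 8, (ZMod.χ₈' a : ℂ) * cexp (2 * π * I * a / (8 : ℕ)) =
    2 * ((√2 : ℝ) : ℂ) * I := by
  have h1 := gk_w
  have h2 := gk_w2
  simp only [gk_pow, sum_range_succ, sum_range_zero, ZMod.χ₈_nat_eq_if_mod_eight,
    ZMod.χ₈'_nat_eq_if_mod_eight]
  generalize cexp (2 * π * I / (8 : ℕ)) = w at h1 h2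
  have h3 : w ^ 3 = I * w := by rw [← h2]; ring
  have h5 : w ^ 5 = -w := by
    rw [show w ^ 5 = (w ^ 2) ^ 2 * w by ring, h2, I_sq]; ring
  have h7 : w ^ 7 = -(I * w) := by
    rw [show w ^ 7 = w ^ 5 * w ^ 2 by ring, h2, h5]; ring
  norm_num
  rw [h3, h5, h7, h1]
  constructor
  · linear_combination (-((√2 : ℝ) : ℂ)) * I_sq
  · linear_combination ((√2 : ℝ) : ℂ) * I_sq

theorem pGSK : GSK := by
  intro k hk h1
  have h4 : ¬ (2 * 2 : ℤ) ∣ k := fun h => by
    have := hk 2 h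
    rw [Int.isUnit_iff] at this
    omega
  have hsq : ∀ a b : ℕ, ((√((a * a * b : ℕ) : ℝ) : ℝ) : ℂ) = a * ((√(b : ℝ) : ℝ) : ℂ) := fun a b => by
    rw [Nat.cast_mul, Nat.cast_mul, Real.sqrt_mul (by positivity), Real.sqrt_mul_self (by positivity)]
    push_cast
    rfl
  have hq : qk k = ((disc k).natAbs : ℝ) := by rw [qk, ← Int.cast_abs, ← Nat.cast_natAbs]
  rw [hq]
  unfold ft
  simp only [Int.toNat_natCast]
  by_cases c1 : k % 4 = 1
  · have e : disc k = k := if_pos c1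
    have h := pd_gsum (ν := k.natAbs) (Nat.odd_iff.2 (by omega)) (Int.squarefree_natAbs.2 hk) (-1)
    rw [neg_neg, jacobiSym.one_left, Int.cast_one, one_mul] at h
    simp only [e, kr_jac c1 h1]
    rw [h]
    unfold eg par
    split_ifs <;> first | omega | simp
  have e : disc k = 4 * k := if_neg c1
  simp only [e, kr_chi]
  by_cases c2 : k % 4 = 3
  · have ho : Odd k.natAbs := Nat.odd_iff.2 (by omega)
    have h := gk_crt (c := 4) ((Nat.coprime_two_left.2 ho).pow_left 2) ho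
      (Int.squarefree_natAbs.2 hk) ZMod.χ₄
    have e2 : ∀ n : ℕ, chi k n = ZMod.χ₄ n * J((n : ℤ) | k.natAbs) := fun n => by
      by_cases hn : Odd n
      · rw [chi_odd k hn, ← Int.natAbs_neg, ← kr_recip (k := -k) (by omega) hn,
          ← jacobiSym.neg _ hn, neg_neg]
      · rw [chi_even k hn, ZMod.χ₄_nat_eq_if_mod_four, if_pos (by rw [Nat.odd_iff] at hn; omega),
          zero_mul]
    rw [show (4 * k).natAbs = 4 * k.natAbs by omega]
    simp only [e2]
    rw [h, gk_four, Nat.cast_ofNat, jacobiSym.at_four ho, ZMod.χ₄_nat_eq_if_mod_four,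
      show 4 * k.natAbs = 2 * 2 * k.natAbs by ring, hsq]
    unfold eg par
    generalize ((√(k.natAbs : ℝ) : ℝ) : ℂ) = y
    split_ifs <;> first
      | omega
      | (push_cast; ring1)
      | (push_cast; linear_combination (-2 * y) * I_sq)
  · obtain ⟨m, rfl⟩ : ∃ m, k = 2 * m := ⟨k / 2, by omega⟩
    have ho : Odd m.natAbs := Nat.odd_iff.2 (by omega)
    have hs := Int.squarefree_natAbs.2 hk.of_mul_right
    have hco : Nat.Coprime 8 m.natAbs := (Nat.coprime_two_left.2 ho).pow_left 3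
    have h9 : J((8 : ℕ) | m.natAbs) = ZMod.χ₈ m.natAbs := by
      have h5 : J(2 | m.natAbs) ^ 2 = 1 := jacobiSym.sq_one (Nat.coprime_two_left.2 ho)
      rw [show ((8 : ℕ) : ℤ) = 2 ^ 2 * 2 by norm_num, jacobiSym.mul_left, jacobiSym.pow_left, h5,
        one_mul, jacobiSym.at_two ho]
    have e3 : ((√((8 * m.natAbs : ℕ) : ℝ) : ℝ) : ℂ) =
        2 * ((√2 : ℝ) : ℂ) * ((√(m.natAbs : ℝ) : ℝ) : ℂ) := by
      rw [show 8 * m.natAbs = 2 * 2 * (2 * m.natAbs) by ring, hsq, Nat.cast_mul 2,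
        Real.sqrt_mul (by positivity)]
      push_cast
      ring
    rw [show (4 * (2 * m)).natAbs = 8 * m.natAbs by omega, e3]
    by_cases c3 : m % 4 = 1
    · have e2 : ∀ n : ℕ, chi (2 * m) n = ZMod.χ₈ n * J((n : ℤ) | m.natAbs) := fun n => by
        by_cases hn : Odd n
        · rw [chi_odd _ hn, jacobiSym.mul_left, jacobiSym.at_two hn, kr_recip c3 hn]
        · rw [chi_even _ hn, ZMod.χ₈_nat_eq_if_mod_eight,
            if_pos (by rw [Nat.odd_iff] at hn; omega), zero_mul]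
      simp only [e2]
      rw [gk_crt hco ho hs ZMod.χ₈, gk_eight.1, h9, ZMod.χ₈_nat_eq_if_mod_eight]
      unfold eg par
      split_ifs <;> first | omega | (push_cast; ring1)
    · have e2 : ∀ n : ℕ, chi (2 * m) n = ZMod.χ₈' n * J((n : ℤ) | m.natAbs) := fun n => by
        by_cases hn : Odd n
        · rw [chi_odd _ hn, show 2 * m = -2 * -m by ring, jacobiSym.mul_left,
            jacobiSym.at_neg_two hn, kr_recip (k := -m) (by omega) hn, Int.natAbs_neg]
        · rw [chi_even _ hn, ZMod.χ₈'_nat_eq_if_mod_eight,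
            if_pos (by rw [Nat.odd_iff] at hn; omega), zero_mul]
      simp only [e2]
      rw [gk_crt hco ho hs ZMod.χ₈', gk_eight.2, h9, ZMod.χ₈_nat_eq_if_mod_eight,
        ZMod.χ₈'_nat_eq_if_mod_eight]
      unfold eg par
      generalize ((√(m.natAbs : ℝ) : ℝ) : ℂ) = y
      split_ifs <;> first
        | omega
        | (push_cast; ring1)
        | (push_cast; linear_combination (-2 * ((√2 : ℝ) : ℂ) * y) * I_sq)

theorem pFE1 (hKR : KR) (hPRI : PRI) : FE1 := by
  classical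
  intro k hk h1 s hs0 hs1
  obtain ⟨k1, k2, k3, k4, k5, k6, k7, k8⟩ := hKR k hk h1
  have hq : NeZero (disc k).natAbs := ⟨by omega⟩
  have h4 := four_ne hk.ne_zero
  obtain ⟨χ, hχ⟩ := exists_char (disc k).natAbs (kron (disc k)) (by simp [kron]) k3 (fe_mod k4) k7
  obtain ⟨ψ, hψ, eψ⟩ := exists_chiO k
  have hprim : χ.IsPrimitive := fe_prim χ fun p hp hd => by
    obtain ⟨n, a, b⟩ := hPRI k hk h1 p hp hd
    exact ⟨n, a, by rw [hχ, b]; norm_num⟩
  have hne : χ ≠ 1 := by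
    intro h
    rw [DirichletCharacter.isPrimitive_def, h, DirichletCharacter.conductor_one] at hprim
    omega
  have hi : χ⁻¹ = χ := by
    refine MulChar.IsQuadratic.inv fun x => ?_
    rw [← ZMod.natCast_zmod_val x, hχ]
    by_cases hc : x.val.Coprime (disc k).natAbs
    · rcases sq_eq_one_iff.1 (k8 _ hc) with h | h <;> simp [h]
    · simp [k7 _ hc]
  have hcl : ψ = DirichletCharacter.changeLevel (fe_dvd k) χ := by
    refine MulChar.ext fun a => ?_
    have hu : Nat.Coprime (a : ZMod (4 * k.natAbs)).val (4 * k.natAbs) :=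
      ZMod.val_coe_unit_coprime a
    have ho : Odd (a : ZMod (4 * k.natAbs)).val :=
      Nat.coprime_two_right.1 (hu.coprime_dvd_right (by omega))
    rw [DirichletCharacter.changeLevel_eq_cast_of_dvd, ZMod.cast_eq_val, hχ, k1 _ ho, jo_eq, ← hψ,
      ZMod.natCast_zmod_val]
  have hL : ∀ s : ℂ, 0 < s.re → Lf k s = χ.LFunction s := by
    intro s hs
    have e : ∏ p ∈ (4 * k.natAbs).primeFactors, (1 - χ p * (p : ℂ) ^ (-s)) =
        1 - (gam k : ℂ) * (2 : ℂ) ^ (-s) := by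
      rw [prod_eq_single_of_mem 2 (Nat.mem_primeFactors.2 ⟨Nat.prime_two, by omega, h4.1⟩),
        hχ, k2, Nat.cast_ofNat]
      intro p hp h2
      have hpp := Nat.prime_of_mem_primeFactors hp
      have hc : Nat.Coprime p 4 := (((Nat.coprime_primes hpp Nat.prime_two).2 h2).pow_right 2 :)
      have hd : p ∣ (disc k).natAbs :=
        (hc.dvd_of_dvd_mul_left (Nat.dvd_of_mem_primeFactors hp)).trans (fe_dvd' k)
      rw [hχ, k7 p (fun h => (hpp.coprime_iff_not_dvd.1 h) hd)]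
      simp
    rw [Lf, eψ, hcl, DirichletCharacter.LFunction_changeLevel _ _ (Or.inl hne), e,
      mul_div_cancel_right₀ _ (fe_ne k hs)]
  have hm : χ (-1) = (-1) ^ par k := by
    have e : (-1 : ZMod (disc k).natAbs) = (((disc k).natAbs - 1 : ℕ) : ZMod _) := by
      rw [Nat.cast_sub k6.le, ZMod.natCast_self, Nat.cast_one, zero_sub]
    rw [e, hχ, k5]
    push_cast
    rfl
  have hg : ∀ s : ℂ, χ.gammaFactor s = Gammaℝ (s + par k) := by
    intro s
    unfold par at hm ⊢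
    split_ifs at hm ⊢ with h
    · rw [DirichletCharacter.Even.gammaFactor_def (hm.trans (pow_zero _))]
      simp
    · rw [DirichletCharacter.Odd.gammaFactor_def (hm.trans (pow_one _))]
      simp
  have hqk : (qk k : ℂ) = ((disc k).natAbs : ℂ) := by
    rw [qk, ← Int.cast_abs, ← Nat.cast_natAbs]
    rfl
  have hLam : ∀ s : ℂ, 0 < s.re →
      Lam k s = ((disc k).natAbs : ℂ) ^ (s / 2) * χ.completedLFunction s := by
    intro s hs
    have h0 : s ≠ 0 := by
      rintro rfl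
      simp at hs
    have hG : Gammaℝ (s + par k) ≠ 0 := Gammaℝ_ne_zero_of_re_pos (by
      rw [add_re, natCast_re]
      positivity)
    rw [Lam, hL s hs, χ.LFunction_eq_completed_div_gammaFactor s (Or.inl h0), hg, hqk, mul_assoc,
      mul_div_cancel₀ _ hG]
  have hqc : ((disc k).natAbs : ℂ) ≠ 0 := by exact_mod_cast hq.1
  have hW : χ.rootNumber = 1 := by
    have g1 := pGSK k hk h1
    have g2 : gaussSum χ ZMod.stdAddChar =
        ft (disc k).natAbs (fun x => (kron (disc k) x.toNat : ℂ)) (-1) := by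
      rw [gaussSum, ft]
      refine Eq.trans ?_ (pd_sum_zmod _ fun x => (kron (disc k) x.toNat : ℂ) *
        cexp (-(2 * π * I * x * ((-1 : ℤ) : ℂ) / (disc k).natAbs))).symm
      refine sum_congr rfl fun a _ => ?_
      have e : a = ((a.val : ℤ) : ZMod (disc k).natAbs) := by simp
      rw [Int.toNat_natCast, ← hχ, ZMod.natCast_zmod_val]
      conv_lhs => rw [e, ZMod.stdAddChar_coe, ← e]
      congr 2
      push_cast
      ring
    have g3 : (if χ.Even then 0 else 1) = par k := by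
      unfold par at hm ⊢
      by_cases h : 0 < k
      · rw [if_pos h] at hm ⊢
        exact if_pos (hm.trans (pow_zero _))
      · rw [if_neg h] at hm ⊢
        exact if_neg (DirichletCharacter.Odd.not_even χ (hm.trans (pow_one _)))
    have g4 : ((√(qk k) : ℝ) : ℂ) = ((disc k).natAbs : ℂ) ^ (1 / 2 : ℂ) := by
      rw [Real.sqrt_eq_rpow, ofReal_cpow (by unfold qk; positivity), hqk]
      norm_num
    rw [DirichletCharacter.rootNumber, g2, g1, g3, g4,
      mul_div_cancel_left₀ _ (pow_ne_zero _ I_ne_zero), div_self (cpow_ne_zero_iff.2 (Or.inl hqc))]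
  have e : ((disc k).natAbs : ℂ) ^ ((1 - s) / 2) * ((disc k).natAbs : ℂ) ^ (s - 1 / 2) =
      ((disc k).natAbs : ℂ) ^ (s / 2) := by
    rw [← cpow_add _ _ hqc]
    congr 1
    ring
  rw [hLam s hs0, hLam (1 - s) (by simpa using hs1), hprim.completedLFunction_one_sub, hi, ← e, hW]
  ring

end Pool.Agent.Q4
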