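import Pool.Agent.P.MP_ea46f5_nt.Q4.FA4H
import Pool.Agent.P.MP_ea46f5_nt.Q4.FAFE4
import Pool.Agent.P.MP_ea46f5_nt.Q4.FAT
import Pool.Agent.P.MP_ea46f5_nt.Q4.FBAS
import Pool.Agent.P.MP_ea46f5_nt.Q4.FBP
import Pool.Agent.P.MP_ea46f5_nt.Q4.FCLM
import Pool.Agent.P.MP_ea46f5_nt.Q4.FCSM
import Pool.Agent.P.MP_ea46f5_nt.Q4.FDB
import Pool.Agent.P.MP_ea46f5_nt.Q4.FDG
import Pool.Agent.P.MP_ea46f5_nt.Q4.FDIR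
import Pool.Agent.P.MP_ea46f5_nt.Q4.FDIV
import Pool.Agent.P.MP_ea46f5_nt.Q4.FDROP
import Pool.Agent.P.MP_ea46f5_nt.Q4.FE04
import Pool.Agent.P.MP_ea46f5_nt.Q4.FE4k
import Pool.Agent.P.MP_ea46f5_nt.Q4.FENDP
import Pool.Agent.P.MP_ea46f5_nt.Q4.FEX4
import Pool.Agent.P.MP_ea46f5_nt.Q4.FFB
import Pool.Agent.P.MP_ea46f5_nt.Q4.FFB1
import Pool.Agent.P.MP_ea46f5_nt.Q4.FFL2
import Pool.Agent.P.MP_ea46f5_nt.Q4.FHTb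
import Pool.Agent.P.MP_ea46f5_nt.Q4.FIZM
import Pool.Agent.P.MP_ea46f5_nt.Q4.FK1
import Pool.Agent.P.MP_ea46f5_nt.Q4.FLEAD
import Pool.Agent.P.MP_ea46f5_nt.Q4.FLOC4
import Pool.Agent.P.MP_ea46f5_nt.Q4.FLOD
import Pool.Agent.P.MP_ea46f5_nt.Q4.FMT2
import Pool.Agent.P.MP_ea46f5_nt.Q4.FOMB
import Pool.Agent.P.MP_ea46f5_nt.Q4.FONB
import Pool.Agent.P.MP_ea46f5_nt.Q4.FPHW
import Pool.Agent.P.MP_ea46f5_nt.Q4.FPRH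
import Pool.Agent.P.MP_ea46f5_nt.Q4.FPRT
import Pool.Agent.P.MP_ea46f5_nt.Q4.FPWI
import Pool.Agent.P.MP_ea46f5_nt.Q4.FQEQ
import Pool.Agent.P.MP_ea46f5_nt.Q4.FREAL
import Pool.Agent.P.MP_ea46f5_nt.Q4.FREP1
import Pool.Agent.P.MP_ea46f5_nt.Q4.FRF1
import Pool.Agent.P.MP_ea46f5_nt.Q4.FSDn
import Pool.Agent.P.MP_ea46f5_nt.Q4.FSH4
import Pool.Agent.P.MP_ea46f5_nt.Q4.FSHARP
import Pool.Agent.P.MP_ea46f5_nt.Q4.FSMO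
import Pool.Agent.P.MP_ea46f5_nt.Q4.FTAIL
import Pool.Agent.P.MP_ea46f5_nt.Q4.FTAY
import Pool.Agent.P.MP_ea46f5_nt.Q4.FTC4
import Pool.Agent.P.MP_ea46f5_nt.Q4.FTDG
import Pool.Agent.P.MP_ea46f5_nt.Q4.FTF0
import Pool.Agent.P.MP_ea46f5_nt.Q4.FTH8
import Pool.Agent.P.MP_ea46f5_nt.Q4.FTK0
import Pool.Agent.P.MP_ea46f5_nt.Q4.FTL1
import Pool.Agent.P.MP_ea46f5_nt.Q4.FTM2
import Pool.Agent.P.MP_ea46f5_nt.Q4.FTMa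
import Pool.Agent.P.MP_ea46f5_nt.Q4.FTMb2
import Pool.Agent.P.MP_ea46f5_nt.Q4.FTMc
import Pool.Agent.P.MP_ea46f5_nt.Q4.FTMc1
import Pool.Agent.P.MP_ea46f5_nt.Q4.FTOR
import Pool.Agent.P.MP_ea46f5_nt.Q4.FVDP
import Pool.Agent.P.MP_ea46f5_nt.Q4.FW2B
import Pool.Agent.P.MP_ea46f5_nt.Q4.FWRB
import Pool.Agent.P.MP_ea46f5_nt.Q4.FZB
import Pool.Agent.P.MP_ea46f5_nt.Q4.FZF
import Pool.Agent.P.MP_ea46f5_nt.Q4.PDb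
import Pool.Agent.P.MP_ea46f5_nt.Q4.PDc
import Pool.Agent.P.MP_ea46f5_nt.Q4.PDd
import Pool.Agent.P.MP_ea46f5_nt.Q4.PDe
import Pool.Agent.P.MP_ea46f5_nt.QM.FAFE
import Pool.Agent.P.MP_ea46f5_nt.QM.FDEC
import Pool.Agent.P.MP_ea46f5_nt.QM.FDL
import Pool.Agent.P.MP_ea46f5_nt.QM.FE0
import Pool.Agent.P.MP_ea46f5_nt.QM.FE1
import Pool.Agent.P.MP_ea46f5_nt.QM.FE2
import Pool.Agent.P.MP_ea46f5_nt.QM.FEXA
import Pool.Agent.P.MP_ea46f5_nt.QM.FEXB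
import Pool.Agent.P.MP_ea46f5_nt.QM.FEXC
import Pool.Agent.P.MP_ea46f5_nt.QM.FEXL
import Pool.Agent.P.MP_ea46f5_nt.QM.FFE
import Pool.Agent.P.MP_ea46f5_nt.QM.FFL
import Pool.Agent.P.MP_ea46f5_nt.QM.FFW
import Pool.Agent.P.MP_ea46f5_nt.QM.FGam1
import Pool.Agent.P.MP_ea46f5_nt.QM.FGam2
import Pool.Agent.P.MP_ea46f5_nt.QM.FH1
import Pool.Agent.P.MP_ea46f5_nt.QM.FHA
import Pool.Agent.P.MP_ea46f5_nt.QM.FHB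
import Pool.Agent.P.MP_ea46f5_nt.QM.FHC
import Pool.Agent.P.MP_ea46f5_nt.QM.FINT
import Pool.Agent.P.MP_ea46f5_nt.QM.FIZ
import Pool.Agent.P.MP_ea46f5_nt.QM.FJCA
import Pool.Agent.P.MP_ea46f5_nt.QM.FKR
import Pool.Agent.P.MP_ea46f5_nt.QM.FLEN
import Pool.Agent.P.MP_ea46f5_nt.QM.FLOB
import Pool.Agent.P.MP_ea46f5_nt.QM.FLOC
import Pool.Agent.P.MP_ea46f5_nt.QM.FLOC0
import Pool.Agent.P.MP_ea46f5_nt.QM.FLOP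
import Pool.Agent.P.MP_ea46f5_nt.QM.FLSP
import Pool.Agent.P.MP_ea46f5_nt.QM.FMG
import Pool.Agent.P.MP_ea46f5_nt.QM.FMT
import Pool.Agent.P.MP_ea46f5_nt.QM.FPC
import Pool.Agent.P.MP_ea46f5_nt.QM.FPH2
import Pool.Agent.P.MP_ea46f5_nt.QM.FPL
import Pool.Agent.P.MP_ea46f5_nt.QM.FPRI
import Pool.Agent.P.MP_ea46f5_nt.QM.FPZ
import Pool.Agent.P.MP_ea46f5_nt.QM.FPois
import Pool.Agent.P.MP_ea46f5_nt.QM.FSD0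
import Pool.Agent.P.MP_ea46f5_nt.QM.FSD2
import Pool.Agent.P.MP_ea46f5_nt.QM.FSEP
import Pool.Agent.P.MP_ea46f5_nt.QM.FSH
import Pool.Agent.P.MP_ea46f5_nt.QM.FSTEP
import Pool.Agent.P.MP_ea46f5_nt.QM.FSTM
import Pool.Agent.P.MP_ea46f5_nt.QM.FSTS
import Pool.Agent.P.MP_ea46f5_nt.QM.FTA1
import Pool.Agent.P.MP_ea46f5_nt.QM.FTA2
import Pool.Agent.P.MP_ea46f5_nt.QM.FTC1
import Pool.Agent.P.MP_ea46f5_nt.QM.FTC2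
import Pool.Agent.P.MP_ea46f5_nt.QM.FTK1
import Pool.Agent.P.MP_ea46f5_nt.QM.FTK2
import Pool.Agent.P.MP_ea46f5_nt.QM.FTKB
import Pool.Agent.P.MP_ea46f5_nt.QM.FTM
import Pool.Agent.P.MP_ea46f5_nt.QM.FTMD
import Pool.Agent.P.MP_ea46f5_nt.QM.FTME
import Pool.Agent.P.MP_ea46f5_nt.QM.FTQ
import Pool.Agent.P.MP_ea46f5_nt.QM.FTQF
import Pool.Agent.P.MP_ea46f5_nt.QM.FWT
import Pool.Agent.P.MP_ea46f5_nt.QM.FZD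
import Pool.Agent.P.MP_ea46f5_nt.QM.FZDA
import Pool.Agent.P.MP_ea46f5_nt.QM.FZT

namespace Pool.Agent.Q4

open Pool.Agent.QM

theorem main : ADD 0 ∧ RATIO 0 :=
  have hKR : QM.KR := QM.pKR
  have hPRI : QM.PRI := QM.pPRI hKR
  have hLOP : QM.LOP := QM.pLOP hKR hPRI
  have hBRG : QM.BRG := QM.pBRG hLOP
  have hLSP : QM.LSP := QM.pLSP
  have hFE : QM.FE := QM.pFE hKR hPRI hLOP hLSP
  have hE0 : QM.E0 := QM.pE0 hLSP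
  have hP2 : QM.P2 := QM.pP2
  have hEXA : QM.EXA := QM.pEXA hE0 hLSP hP2
  have hGAM1 : QM.GAM1 := QM.pGAM1
  have hP1 : QM.P1 := QM.pP1 hGAM1
  have hTKB : QM.TKB := QM.pTKB
  have hKZ : QM.KZ := QM.pKZ hGAM1
  have hDEC : QM.DEC := QM.pDEC
  have hINT : QM.INT := QM.pINT hE0 hTKB hKZ hDEC
  have hEXC : QM.EXC := QM.pEXC hP1 hP2 hE0 hTKB hKZ hDEC hINT
  have hEXL : QM.EXL := QM.pEXL
  have hE1 : QM.E1 := QM.pE1 hE0 hEXL hTKB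
  have hTME : QM.TME := QM.pTME hEXA hEXC hINT hE1 hEXL
  have hSH0 : QM.SH0 := QM.pSH0
  have hSD0 : QM.SD0 := QM.pSD0 hSH0 hDEC
  have hMG : QM.MG := QM.pMG
  have hPL : QM.PL := QM.pPL
  have hEXB : QM.EXB := QM.pEXB hMG hPL
  have hLOC0 : QM.LOC0 := QM.pLOC0
  have hPRD : QM.PRD := QM.pPRD
  have hZT : QM.ZT := QM.pZT
  have hPZ : QM.PZ := QM.pPZ hZT
  have hZD : QM.ZD := QM.pZD hEXB hEXL hLOC0 hPRD hPZ hPL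
  have hZDA : QM.ZDA := QM.pZDA hLOC0 hPRD
  have hFW : QM.FW := QM.pFW hDEC
  have hTMD : QM.TMD := QM.pTMD hSD0 hZD hZDA hFW hDEC
  have hLOC : QM.LOC := QM.pLOC
  have hIZ : QM.IZ := QM.pIZ
  have hE2 : QM.E2 := QM.pE2 hLOC hLSP hLOP hIZ
  have hHA : QM.HA := QM.pHA hLOC
  have hH1 : QM.H1 := QM.pH1 hLOC hEXL hPRD hPZ
  have hLOB : QM.LOB := QM.pLOB hLOP
  have hTK1 : QM.TK1 := QM.pTK1 hSD0 hE2 hHA hH1 hIZ hLOP hLOB hFW hDEC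
  have hTK2 : QM.TK2 := QM.pTK2 hLOP hLOB hDEC
  have hLEN : QM.LEN := QM.pLEN hEXL
  have hTMK : QM.TMK := QM.pTMK hTK1 hTK2 hKZ hDEC hLEN
  have hSH2 : QM.SH2 := QM.pSH2
  have hSD2 : QM.SD2 := QM.pSD2 hSH2 hDEC
  have hTA1 : QM.TA1 := QM.pTA1 hSD2 hE2 hHA hH1 hIZ hLOP hZT hFW hDEC hLEN
  have hPH2 : QM.PH2 := QM.pPH2
  have hTA2 : QM.TA2 := QM.pTA2 hTA1 hH1 hIZ hLOP hZT hFW hDEC hPH2 hLEN
  have hJCA : QM.JCA := QM.pJCA hPH2 hHA hH1 hIZ hLOP hZT hFW hLEN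
  have hSH1 : QM.SH1 := QM.pSH1
  have hTC1 : QM.TC1 := QM.pTC1 hSH1 hKZ hDEC
  have hHC : QM.HC := QM.pHC hEXB hEXL hLOC hLOC0 hPRD hPZ hPL
  have hTC2 : QM.TC2 := QM.pTC2 hHC hPH2 hKZ hIZ hLOP hZT hFW hDEC
  have hTM : QM.TM := QM.pTM hTME hTMD hTMK hTA2 hJCA hTC1 hTC2 hKZ hFW hDEC hLEN
  have hGAM2 : QM.GAM2 := QM.pGAM2
  have hHB : QM.HB := QM.pHB hGAM2
  have hWT : QM.WT := QM.pWT hHB
  have hSEP : QM.SEP := QM.pSEP hDEC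
  have hSQD : QM.SQD := QM.pSQD hSEP hHB hLSP hBRG hDEC
  have hTQ : QM.TQ := QM.pTQ hTM hWT hSQD
  have hMT : QM.MT := QM.pMT
  have hTW0 : QM.TW0 := QM.pTW0
  have hSTS : QM.STS := QM.pSTS hTQ hMT hTW0
  have hPC : QM.PC := QM.pPC
  have hFL : QM.FL := QM.pFL hLSP hPC
  have hTQF : QM.TQF := QM.pTQF hTM hWT hSQD hFL hFW hTW0
  have hSTM : QM.STM := QM.pSTM hTQF hMT
  have hAFE : QM.AFE := QM.pAFE hFE hSH0 hSH1 hHB hLOP hLOB hBRG hDEC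
  have hDL : QM.DL := QM.pDL hHB hLSP hBRG hDEC
  have hTRV : QM.TRV := QM.pTRV hLOB
  have hSTEP : QM.STEP := QM.pSTEP hSTS hSTM hAFE hDL hBRG hTRV
  have hFOUR : QM.FOUR := QM.pFOUR hSTEP hTRV hMT
  have hSDn : SDn := pSDn
  have hTOR : TOR := pTOR
  have hONB : ONB := pONB
  have hDROP : DROP := pDROP hONB
  have hTAY : TAY := pTAY
  have hA4H : A4H := pA4H
  have hPH0 : PH0 := pPH0 hA4H
  have hQINT : QINT := pQINT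
  have hINB : INB := pINB
  have hSH4 : SH4 := pSH4 hSDn hINB
  have hGGB : GGB := pGGB hGAM1 hZT hSH4
  have hENDP : ENDP := pENDP hSDn hTOR hONB hDROP hTAY hA4H hPH0 hQINT hGGB
  have hRAD : RAD := pRAD
  have hQLIP : QLIP := pQLIP hRAD hONB hTAY hA4H hPH0
  have hPHW : PHW := pPHW
  have hREAL : REAL := pREAL hLSP hLOP
  have hG1W : G1W := pG1W hGAM1 hSH4
  have hCLM : CLM := pCLM
  have hFE1 : FE1 := pFE1 hKR hPRI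
  have hAFE4 : AFE4 := pAFE4 hSH4 hG1W hFE1 hLOP hLOB hBRG
  have hTH8 : TH8 := pTH8
  have hVDP : VDP := pVDP
  have hZF : ZF := pZF hLOP
  have hWRB : WRB := pWRB hTH8 hVDP hZF
  have hAFS : AFS := pAFS hINB hLSP hBRG hG1W hAFE4 hWRB
  have hHSEP : HSEP := pHSEP
  have hREP4 : REP4 := pREP4 hHSEP
  have hPR4 : PR4 := pPR4
  have hPWI : PWI := pPWI hSH4 hLSP hLOP hLOB
  have hBP : BP := pBP hPR4 hPWI
  have hBAS : BAS := pBAS hLOP hLOB hDEC hFOUR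
  have hMT2 : MT2 := pMT2
  have hPKB : PKB := pPKB hSH4 hLSP hLOP hLOB hDEC hPR4 hPWI
  have hEX4 : EX4 := pEX4 hLSP hTKB
  have hPOG : POG := pPOG hP1 hP2 hTKB hKZ
  have hW2B : W2B := pW2B hSH4
  have hTMa : TMa := pTMa hSH4 hVDP hEX4 hPOG hPKB hW2B
  have hTC4 : TC4 := pTC4
  have hPRH : PRH := pPRH
  have hLOC4 : LOC4 := pLOC4
  have hLOD : LOD := pLOD
  have hHTa : HTa := pHTa hPRH
  have hHTb : HTb := pHTb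
  have hHB4 : HB4 := pHB4 hPRH hLOC4 hLOD hHTa hHTb
  have hZB : ZB := pZB hLOP hIZ
  have hE04 : E04 := pE04 hLSP
  have hE4a : E4a := pE4a hTKB hE04
  have hE41 : E41 := pE41 hLSP hLOP hIZ hE4a hLOC4
  have hDG : DG := pDG hZB hHB4 hE41
  have hCAU : CAU := pCAU hZF
  have hTMb1 : TMb1 := pTMb1 hVDP hTC4 hHB4 hDG hW2B hCAU
  have hKZ2 : KZ2 := pKZ2
  have hK1 : K1 := pK1 hLOP hIZ hE41
  have hTMb2 : TMb2 := pTMb2 hKZ hVDP hKZ2 hTC4 hHB4 hK1 hW2B hCAU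
  have hMUL : MUL := pMUL
  have hIZF : IZF := pIZF
  have hIZM : IZM := pIZM hMUL hIZF
  have hE4k : E4k := pE4k hLSP hLOP hIZ hE4a hLOC4
  have hDSH : DSH := pDSH hLOP hLOB hZB hHB4 hE4k
  have hALG : ALG := pALG hZF hHB4
  have hTMc1 : TMc1 := pTMc1 hVDP hREP4 hIZM hDSH hBP hW2B hALG
  have hTMc : TMc := pTMc hKZ hDEC hTMc1
  have hTM2 : TM2 := pTM2 hTMa hTMb1 hTMb2 hTMc
  have hFL2 : FL2 := pFL2 hPWI hPKB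
  have hDIR : DIR := pDIR hPKB hBAS hTM2 hFL2
  have hXIB : XIB := pXIB
  have hRF1 : RF1 := pRF1 hFE1 hLOP hLOB hXIB
  have hRF2 : RF2 := pRF2 hDEC hPKB hRF1
  have hREC : REC := pREC hBAS hMT2 hDIR hRF2
  have hFB1 : FB1 := pFB1 hSH4 hVDP hTH8 hLOP hLOB
  have hFB : FB := pFB hPHW hREP4 hBP hREC hFB1
  have hKAx : KAx := pKAx
  have hPER : PER := pPER hZT
  have hFEx : FEx := pFEx hPER hTKB
  have hKDB : KDB := pKDB hZT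
  have hPDx : PDx := pPDx hSH0 hSH1 hTKB hKDB
  have hPOC : POC := pPOC hTKB hKDB
  have hOMB : OMB := pOMB hSH4 hWRB
  have hPRT : PRT := pPRT hPHW
  have hSIV : SIV := pSIV
  have hL4 : L4 := pL4
  have hTK0 : TK0 := pTK0 hFOUR hKDB hSIV hL4 hHB4 hZB hDSH hOMB
  have hTF0 : TF0 := pTF0 hZT hSH4 hVDP hZF hHB4 hZB hOMB
  have hTF1 : TF1 := pTF1 hZT hHB4 hK1 hOMB hTF0
  have hTDG : TDG := pTDG hINB hHB4 hZB hDG hWRB hOMB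
  have hDIV : DIV := pDIV
  have hCYB : CYB := pCYB
  have hLSF : LSF := pLSF hLSP
  have hDB : DB := pDB hLOP hLOB hSH4 hZF hWRB hLSF
  have hDO : DO := pDO hSH1 hLSP hLOP hLOB hDEC hTK2 hTRV hFOUR
  have hTL1 : TL1 := pTL1 hL4 hPHW hDB hDO
  have hTAIL : TAIL := pTAIL hPHW hDIV hCYB hCLM hDB hTL1
  have hAT : AT := pAT hKAx hFEx hPDx hSH4 hEX4 hPOC hCLM hOMB hPRT hTK0 hTF1 hTDG hTAIL
  have hHA4 : HA4 := pHA4 hLOC4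
  have hCSM : CSM := pCSM hLOP hINB hVDP hHB4 hHA4 hZB hG1W hWRB
  have hSMO : SMO := pSMO hPHW hBRG hG1W hCLM hAFS hFB hAT hCSM
  have hSHARP : SHARP := pSHARP hBRG hFE hFOUR hENDP hQLIP hPHW hREAL hSMO
  have hLEAD : LEAD := pLEAD hRAD hONB hTAY hA4H hPH0 hQINT
  ⟨hSHARP, pRATIO 0 hLEAD hSHARP⟩

end Pool.Agent.Q4
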