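import Pool.Agent.P.MP_ea46f5_nt.QM.D0

namespace Pool.Agent.Q4

open Complex MeasureTheory Finset
open scoped Real

noncomputable section

/-- The gamma factor `𝔛(s, a)`. -/
def Xf (a : ℕ) (s : ℂ) : ℂ :=
  (π : ℂ) ^ (s - 1 / 2) * Gamma ((1 - s + a) / 2) / Gamma ((s + a) / 2)

/-- The Euler product `A_k(z)`. -/
def Aprod (k : ℕ) (z : Fin k → ℂ) : ℂ :=
  ∏' p : Nat.Primes,
    (∏ i, ∏ j ∈ Ici i, (1 - ((p : ℕ) : ℂ) ^ (-1 - z i - z j))) *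
      (1 / 2 * (∏ j, (1 - ((p : ℕ) : ℂ) ^ (-1 / 2 - z j))⁻¹ +
        ∏ j, (1 + ((p : ℕ) : ℂ) ^ (-1 / 2 - z j))⁻¹) + 1 / ((p : ℕ) : ℂ)) *
      (1 + 1 / ((p : ℕ) : ℂ))⁻¹

/-- The function `G_±(z)`, with `a = 0` for the sign `+` and `a = 1` for the sign `-`. -/
def Gf (k a : ℕ) (z : Fin k → ℂ) : ℂ :=
  Aprod k z * (∏ j, Xf a (1 / 2 + z j) ^ (-1 / 2 : ℂ)) * ∏ i, ∏ j ∈ Ici i, riemannZeta (1 + z i + z j)

/-- The Vandermonde product `Δ(w)`. -/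
def Vd {k : ℕ} (w : Fin k → ℂ) : ℂ := ∏ i, ∏ j ∈ Ioi i, (w j - w i)

/-- `Q_±(k, x)`, all `k` integrals being taken over the circle of radius `r` around `0`. -/
def Qf (k a : ℕ) (r x : ℝ) : ℂ :=
  (-1) ^ (k * (k - 1) / 2) * 2 ^ k / (k.factorial : ℂ) * ((2 * π * I) ^ k)⁻¹ *
    torusIntegral (fun z : Fin k → ℂ => cexp (x / 2 * ∑ j, z j) * Vd (fun j => z j ^ 2) ^ 2 *
      Gf k a z * ∏ j, z j ^ (1 - 2 * (k : ℤ))) 0 (fun _ => r)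

/-- The average `X⁻¹ ∫_1^X Q_±(k, log t) dt`. -/
def Qm (k a : ℕ) (r X : ℝ) : ℂ := (X : ℂ)⁻¹ * ∫ t in (1 : ℝ)..X, Qf k a r (Real.log t)

/-- `S_+(X)` for `a = 0` and `S_-(X)` for `a = 1`. -/
def Sd (a : ℕ) (X : ℝ) : Finset ℤ := (QM.Fund X).filter fun d => 0 < (-1) ^ a * d

end

end Pool.Agent.Q4
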