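import Pool.Agent.P.MP_ea46f5_nt.Q4.T
import Pool.Agent.P.MP_ea46f5_nt.QM.FLOCa
import Pool.Agent.P.MP_ea46f5_nt.QM.FHA
import Pool.Agent.P.MP_ea46f5_nt.QM.FDEC

namespace Pool.Agent.Q4

open Complex MeasureTheory Finset
open scoped Real
open Pool.Agent.QM

theorem prod_Ici4 {M : Type} [CommMonoid M] (f : Fin 4 → Fin 4 → M) :
    ∏ i, ∏ j ∈ Ici i, f i j =
      f 0 0 * f 0 1 * f 0 2 * f 0 3 * (f 1 1 * f 1 2 * f 1 3) * (f 2 2 * f 2 3) * f 3 3 := by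
  have h0 : Ici (0 : Fin 4) = {0, 1, 2, 3} := by decide
  have h1 : Ici (1 : Fin 4) = {1, 2, 3} := by decide
  have h2 : Ici (2 : Fin 4) = {2, 3} := by decide
  have h3 : Ici (3 : Fin 4) = {3} := by decide
  rw [Fin.prod_univ_four, h0, h1, h2, h3]
  simp [mul_assoc]

theorem prod_Ioi4 {M : Type} [CommMonoid M] (f : Fin 4 → Fin 4 → M) :
    ∏ i, ∏ j ∈ Ioi i, f i j = f 0 1 * f 0 2 * f 0 3 * (f 1 2 * f 1 3) * f 2 3 := by
  have h0 : Ioi (0 : Fin 4) = {1, 2, 3} := by decide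
  have h1 : Ioi (1 : Fin 4) = {2, 3} := by decide
  have h2 : Ioi (2 : Fin 4) = {3} := by decide
  have h3 : Ioi (3 : Fin 4) = ∅ := by decide
  rw [Fin.prod_univ_four, h0, h1, h2, h3]
  simp [mul_assoc]

theorem diff_prod {E ι : Type} [NormedAddCommGroup E] [NormedSpace ℂ E] {s : Finset ι}
    {f : ι → E → ℂ} {x : E} (h : ∀ i ∈ s, DifferentiableAt ℂ (f i) x) :
    DifferentiableAt ℂ (fun t => ∏ i ∈ s, f i t) x := by
  classical
  exact (HasFDerivAt.finsetProd fun i hi => (h i hi).hasFDerivAt).differentiableAt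

structure LA where
  r : ℝ
  x : Fin 4 → ℂ
  w : ℂ
  h0 : 0 ≤ r
  h1 : r ≤ 4 / 5
  hx : ∀ j, ‖x j‖ ≤ r
  hw : ‖w‖ ≤ r ^ 2

/-- The local factor in free variables. -/
noncomputable def afac (x : Fin 4 → ℂ) (w : ℂ) : ℂ :=
  (∏ i, ∏ j ∈ Ici i, (1 - x i * x j)) *
    (1 / 2 * (∏ j, (1 - x j)⁻¹ + ∏ j, (1 + x j)⁻¹) + w) * (1 + w)⁻¹

theorem afac_abs : ∃ C : ℝ, 0 ≤ C ∧ ∀ (r : ℝ) (x : Fin 4 → ℂ) (w : ℂ), 0 ≤ r → r ≤ 4 / 5 →
    (∀ j, ‖x j‖ ≤ r) → ‖w‖ ≤ r ^ 2 → ‖afac x w - 1‖ ≤ C * r ^ 3 := by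
  have hq : (4 / 5 : ℝ) < 1 := by norm_num
  let r : LA → ℝ := fun i => i.r
  have hr : ∀ i, 0 ≤ r i ∧ r i ≤ 1 := fun i => ⟨i.h0, i.h1.trans hq.le⟩
  have hx : ∀ j, Og r 1 (fun i => i.x j) := fun j =>
    Og.of_le fun i => by rw [pow_one]; exact i.hx j
  have hw : Og r 2 (fun i => i.w) := Og.of_le fun i => i.hw
  have bx : ∀ j, ∀ i : LA, ‖i.x j‖ ≤ 4 / 5 := fun j i => (i.hx j).trans i.h1
  have bx' : ∀ j, ∀ i : LA, ‖-i.x j‖ ≤ 4 / 5 := fun j i => by rw [norm_neg]; exact bx j i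
  have bw : ∀ i : LA, ‖-i.w‖ ≤ 4 / 5 := fun i => by
    rw [norm_neg]
    nlinarith [i.hw, i.h0, i.h1]
  have p := fun j => Jet.inv1 hq (hx j) (bx j)
  have m := fun j => Jet.inv1 hq (hx j).neg (bx' j)
  have jp := (((p 0).mul hr (p 1)).mul hr (p 2)).mul hr (p 3)
  have jm := (((m 0).mul hr (m 1)).mul hr (m 2)).mul hr (m 3)
  have q := fun j l => Jet.quad ((hx j).mul (hx l)).neg
  have jq := ((((((q 0 0).mul hr (q 0 1)).mul hr (q 0 2)).mul hr (q 0 3)).mul hr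
    (((q 1 1).mul hr (q 1 2)).mul hr (q 1 3))).mul hr ((q 2 2).mul hr (q 2 3))).mul hr (q 3 3)
  have je : Jet r (fun i => 1 / 2 * (∏ j, (1 - i.x j)⁻¹ + ∏ j, (1 + i.x j)⁻¹) + i.w) (fun _ => 0) _ :=
    ⟨Og.zero r 1, jp.2.1.add hw, ((jp.2.2.add jm.2.2).cmul (1 / 2)).congr fun i => by
      simp only [Fin.prod_univ_four, sub_neg_eq_add]; ring⟩
  have jw := Jet.inv2 hr hq hw.neg bw
  obtain ⟨C, hC0, hC⟩ : Og r 3 (fun i => afac i.x i.w - 1) :=
    ((jq.mul hr je).mul hr jw).2.2.congr fun i => by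
      simp only [afac, prod_Ici4, sub_neg_eq_add, ← sub_eq_add_neg]; ring
  exact ⟨C, hC0, fun r x w h0 h1 hx hw => hC ⟨r, x, w, h0, h1, hx, hw⟩⟩

noncomputable def aF (p : Nat.Primes) (z : Fin 4 → ℂ) : ℂ :=
  afac (fun j => ((p : ℕ) : ℂ) ^ (-1 / 2 - z j)) (1 / ((p : ℕ) : ℂ))

theorem Aprod_eq (z : Fin 4 → ℂ) : Aprod 4 z = ∏' p : Nat.Primes, aF p z := by
  refine tprod_congr fun p => ?_
  have hp : ((p : ℕ) : ℂ) ≠ 0 := Nat.cast_ne_zero.2 p.2.ne_zero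
  have : ∀ i j, ((p : ℕ) : ℂ) ^ (-1 - z i - z j) =
      ((p : ℕ) : ℂ) ^ (-1 / 2 - z i) * ((p : ℕ) : ℂ) ^ (-1 / 2 - z j) := fun i j => by
    rw [← cpow_add _ _ hp]; congr 1; ring
  simp only [aF, afac, this]

def aU : Set (Fin 4 → ℂ) := {z | ∀ i, -(1 / 8) < (z i).re}

theorem aU_open : IsOpen aU := by
  unfold aU
  rw [Set.ofPred_forall]
  exact isOpen_iInter_of_finite fun i => isOpen_lt continuous_const (by fun_prop)

theorem ax_le (p : Nat.Primes) {z : Fin 4 → ℂ} (hz : z ∈ aU) (j : Fin 4) :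
    ‖((p : ℕ) : ℂ) ^ (-1 / 2 - z j)‖ ≤ ((p : ℕ) : ℝ) ^ (-(3 / 8) : ℝ) := by
  rw [norm_natCast_cpow_of_pos p.2.pos]
  refine Real.rpow_le_rpow_of_exponent_le (by exact_mod_cast p.2.one_le) ?_
  have := hz j
  simp only [sub_re, div_ofNat_re, neg_re, one_re]
  linarith

theorem ar_le (p : Nat.Primes) : ((p : ℕ) : ℝ) ^ (-(3 / 8) : ℝ) ≤ 4 / 5 := by
  have h2 : (2 : ℝ) ≤ (p : ℕ) := by exact_mod_cast p.2.two_le
  refine (Real.rpow_le_rpow_of_nonpos two_pos h2 (by norm_num)).trans ?_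
  refine le_of_pow_le_pow_left₀ (n := 8) (by norm_num) (by norm_num) ?_
  rw [← Real.rpow_natCast, ← Real.rpow_mul two_pos.le]
  norm_num

theorem aF_le : ∃ C : ℝ, 0 ≤ C ∧ ∀ (p : Nat.Primes), ∀ z ∈ aU,
    ‖aF p z - 1‖ ≤ C * ((p : ℕ) : ℝ) ^ (-(9 / 8) : ℝ) := by
  obtain ⟨C, hC, h⟩ := afac_abs
  refine ⟨C, hC, fun p z hz => ?_⟩
  have pp : (0 : ℝ) < (p : ℕ) := by exact_mod_cast p.2.pos
  have := h _ _ (1 / ((p : ℕ) : ℂ)) (Real.rpow_nonneg pp.le _) (ar_le p) (ax_le p hz) (by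
    rw [norm_div, norm_one, norm_natCast, ← Real.rpow_natCast, ← Real.rpow_mul pp.le, one_div,
      ← Real.rpow_neg_one]
    exact Real.rpow_le_rpow_of_exponent_le (by exact_mod_cast p.2.one_le) (by norm_num))
  rw [← Real.rpow_natCast, ← Real.rpow_mul pp.le] at this
  exact this.trans (le_of_eq (by norm_num))

theorem aF_diff (p : Nat.Primes) {z : Fin 4 → ℂ} (hz : z ∈ aU) : DifferentiableAt ℂ (aF p) z := by
  have hp : ((p : ℕ) : ℂ) ≠ 0 := Nat.cast_ne_zero.2 p.2.ne_zero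
  have hx : ∀ j, DifferentiableAt ℂ (fun z : Fin 4 → ℂ => ((p : ℕ) : ℂ) ^ (-1 / 2 - z j)) z :=
    fun j => DifferentiableAt.const_cpow (by fun_prop) (Or.inl hp)
  have hq : (4 / 5 : ℝ) < 1 := by norm_num
  have n1 : ∀ j, 1 - ((p : ℕ) : ℂ) ^ (-1 / 2 - z j) ≠ 0 := fun j =>
    one_sub_ne hq ((ax_le p hz j).trans (ar_le p))
  have n2 : ∀ j, 1 + ((p : ℕ) : ℂ) ^ (-1 / 2 - z j) ≠ 0 := fun j => by
    have := one_sub_ne (x := -((p : ℕ) : ℂ) ^ (-1 / 2 - z j)) hq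
      (by rw [norm_neg]; exact (ax_le p hz j).trans (ar_le p))
    rwa [sub_neg_eq_add] at this
  unfold aF afac
  refine (DifferentiableAt.fun_mul ?_ ?_).mul_const _
  · exact diff_prod fun i _ => diff_prod fun j _ =>
      ((hx i).fun_mul (hx j)).const_sub _
  · refine (DifferentiableAt.const_mul (DifferentiableAt.fun_add ?_ ?_) _).add_const _
    · exact diff_prod fun j _ => ((hx j).const_sub _).fun_inv (n1 j)
    · exact diff_prod fun j _ => ((hx j).const_add _).fun_inv (n2 j)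

theorem aF_zero_ne (p : Nat.Primes) : aF p 0 ≠ 0 := by
  have pp : (0 : ℝ) < (p : ℕ) := by exact_mod_cast p.2.pos
  set y : ℝ := ((p : ℕ) : ℝ) ^ (-1 / 2 : ℝ) with hy
  have y0 : 0 < y := Real.rpow_pos_of_pos pp _
  have y1 : y < 1 := Real.rpow_lt_one_of_one_lt_of_neg (by exact_mod_cast p.2.one_lt) (by norm_num)
  have e : ((p : ℕ) : ℂ) ^ (-1 / 2 - 0 : ℂ) = (y : ℂ) := by
    rw [hy, ofReal_cpow pp.le]; norm_num
  have : aF p 0 = (((1 - y * y) ^ 10 * (1 / 2 * ((1 - y)⁻¹ ^ 4 + (1 + y)⁻¹ ^ 4) + 1 / ((p : ℕ) : ℝ)) *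
      (1 + 1 / ((p : ℕ) : ℝ))⁻¹ : ℝ) : ℂ) := by
    rw [aF, afac, prod_Ici4]
    simp only [Pi.zero_apply, e, Fin.prod_univ_four]
    push_cast
    ring
  rw [this, ofReal_ne_zero]
  have h1 : 0 < 1 - y := by linarith
  have h2 : 0 < 1 - y * y := by nlinarith
  positivity

theorem pA4H : A4H := by
  obtain ⟨C, hC, h⟩ := aF_le
  have hs : Summable fun p : Nat.Primes => C * ((p : ℕ) : ℝ) ^ (-(9 / 8) : ℝ) :=
    (Nat.Primes.summable_rpow.2 (by norm_num)).mul_left C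
  have key := hs.hasProdLocallyUniformlyOn_one_add (f := fun p z => aF p z - 1) aU_open
    (Filter.Eventually.of_forall fun p z hz => h p z hz)
    (fun p z hz => ((aF_diff p hz).sub_const 1).continuousAt.continuousWithinAt)
  have key' : TendstoLocallyUniformlyOn (fun (s : Finset Nat.Primes) z => ∏ p ∈ s, aF p z)
      (Aprod 4) Filter.atTop aU := by
    have e : Aprod 4 = fun z => ∏' p, aF p z := funext Aprod_eq
    rw [e]
    simpa only [HasProdLocallyUniformlyOn, add_sub_cancel] using key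
  have hsum : ∀ z ∈ aU, Summable fun p => ‖aF p z - 1‖ := fun z hz =>
    hs.of_nonneg_of_le (fun _ => norm_nonneg _) fun p => h p z hz
  have hone : ∀ z, Aprod 4 z = ∏' p, (1 + (aF p z - 1)) := fun z => by
    simp only [Aprod_eq, add_sub_cancel]
  refine ⟨⟨?_, fun z hz i => ?_⟩, ⟨Real.exp (∑' p : Nat.Primes, C * ((p : ℕ) : ℝ) ^ (-(9 / 8) : ℝ)),
    fun z hz => ?_⟩, ?_⟩
  · exact key'.continuousOn (Filter.Eventually.frequently (Filter.Eventually.of_forall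
      fun s z hz => (diff_prod fun p _ =>
        aF_diff p hz).continuousAt.continuousWithinAt))
  · have hγ : Differentiable ℂ fun w : ℂ => Function.update z i w := fun w =>
      (hasDerivAt_update z i w).differentiableAt
    have ho : IsOpen ((fun w : ℂ => Function.update z i w) ⁻¹' aU) :=
      aU_open.preimage hγ.continuous
    have h1 := key'.comp _ (Set.mapsTo_preimage _ _) hγ.continuous.continuousOn
    have h2 := h1.differentiableOn (Filter.Eventually.of_forall fun s t ht =>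
      ((diff_prod fun p _ => aF_diff p ht).comp t
        (hγ t)).differentiableWithinAt) ho
    exact h2.differentiableAt (ho.mem_nhds (by
      change Function.update z i (z i) ∈ aU
      rw [Function.update_eq_self]; exact hz))
  · rw [hone]
    exact (pPRD _ (hsum z hz)).2.2.trans
      (Real.exp_le_exp.2 ((hsum z hz).tsum_le_tsum (fun p => h p z hz) hs))
  · rw [hone]
    exact tprod_one_add_ne_zero_of_summable (fun p => by simpa using aF_zero_ne p)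
      (hsum 0 fun i => by simp)

end Pool.Agent.Q4
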