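import Pool.Agent.P.MP_ea46f5_nt.Q4.S4

/-! The direct bound for pairs. -/

namespace Pool.Agent.Q4

open Complex MeasureTheory Finset Pool.Agent.QM
open scoped Real ComplexConjugate

theorem dir_lg {Z : ℝ} (hZ : 1 ≤ Z) : 1 ≤ lg Z := by
  unfold lg
  rw [Real.le_log_iff_exp_le (by linarith)]
  have := Real.exp_one_lt_d9
  linarith

theorem dir_num {θ δ R₀ : ℝ} (h0 : 0 ≤ θ) (h10 : θ ≤ 10) (hδ : 0 < δ) :
    ∃ D : ℝ, 0 < D ∧ ∀ Z : ℝ, 1 ≤ Z → ∃ R : ℝ, R₀ ≤ R ∧ 1 ≤ R ∧ 100 ≤ Real.log (Z * R ^ 2) ∧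
      Real.log R * R * Real.log (Real.log (Z * R ^ 2)) ^ 2 ≤ D * lg Z ^ (θ / 2 + δ) ∧
      Real.log R / R * lg (Z * R ^ 2) ^ θ ≤ D * lg Z ^ (θ / 2 + δ) := by
  obtain ⟨R₁, hR₀, hR₁⟩ : ∃ R₁ : ℝ, R₀ ≤ R₁ ∧ Real.exp 50 ≤ R₁ :=
    ⟨max R₀ (Real.exp 50), le_max_left _ _, le_max_right _ _⟩
  have hR1 : 1 ≤ R₁ := (Real.one_le_exp (by norm_num)).trans hR₁
  have ha : 50 ≤ Real.log R₁ := (Real.le_log_iff_exp_le (by linarith)).2 hR₁
  set a := Real.log R₁ with hadef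
  obtain ⟨η, hη, rfl⟩ : ∃ η : ℝ, 0 < η ∧ δ = 3 * η := ⟨δ / 3, by positivity, by ring⟩
  have hE : 1 ≤ 2 * a + 11 := by linarith
  have hlE : 0 ≤ Real.log (2 * a + 11) := Real.log_nonneg hE
  have hD1 : 0 < a + 5 / η := by positivity
  have hF : 0 < Real.log (2 * a + 11) + 1 / η := by positivity
  have hEθ : 0 < (2 * a + 11) ^ θ := by positivity
  refine ⟨(a + 5 / η) * (R₁ * (Real.log (2 * a + 11) + 1 / η) ^ 2 + (2 * a + 11) ^ θ),
    by positivity, fun Z hZ => ?_⟩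
  have hl := dir_lg hZ
  set l := lg Z with hldef
  have hl0 : 0 < l := by linarith
  have hp : 1 ≤ l ^ (θ / 2) := Real.one_le_rpow hl (by linarith)
  have hq : 1 ≤ l ^ η := Real.one_le_rpow hl hη.le
  have hll : 0 ≤ Real.log l := Real.log_nonneg hl
  have hl1 : Real.log l ≤ l ^ η / η := Real.log_le_rpow_div hl0.le hη
  have hl2 : Real.log l ≤ l := (Real.log_le_sub_one_of_pos hl0).trans (by linarith)
  obtain ⟨R, hRa, hRb, hRc⟩ : ∃ R : ℝ, R₁ ≤ R ∧ l ^ (θ / 2) ≤ R ∧ R ≤ R₁ * l ^ (θ / 2) :=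
    ⟨max R₁ (l ^ (θ / 2)), le_max_left _ _, le_max_right _ _,
      max_le (le_mul_of_one_le_right (by linarith) hp) (le_mul_of_one_le_left (by linarith) hR1)⟩
  have hR : 1 ≤ R := hR1.trans hRa
  have hR0 : 0 < R := by linarith
  have hlR0 : 50 ≤ Real.log R := ha.trans (Real.log_le_log (by linarith) hRa)
  have hlR : Real.log R ≤ a + 5 * Real.log l := by
    refine (Real.log_le_log hR0 hRc).trans ?_
    rw [Real.log_mul (by linarith) (by linarith), Real.log_rpow hl0]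
    have := mul_le_mul_of_nonneg_right (show θ / 2 ≤ 5 by linarith) hll
    linarith
  have hlR1 : Real.log R ≤ (a + 5 / η) * l ^ η := by
    have := le_mul_of_one_le_right (show 0 ≤ a by linarith) hq
    have e : (a + 5 / η) * l ^ η = a * l ^ η + 5 * (l ^ η / η) := by ring
    linarith
  have hX : Real.log (Z * R ^ 2) = Real.log Z + 2 * Real.log R := by
    rw [Real.log_mul (by linarith) (by positivity), Real.log_pow]
    norm_num
  have hX100 : 100 ≤ Real.log (Z * R ^ 2) := by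
    have := Real.log_nonneg hZ
    linarith
  have hR2 : 1 ≤ R ^ 2 := one_le_pow₀ hR
  have hXp : 0 < Z * R ^ 2 := by positivity
  have hlgX : lg (Z * R ^ 2) ≤ (2 * a + 11) * l := by
    have h1 : lg (Z * R ^ 2) ≤ Real.log ((2 + Z) * R ^ 2) :=
      Real.log_le_log (by linarith) (by linarith)
    rw [Real.log_mul (by linarith) (by positivity), Real.log_pow] at h1
    have h2 := le_mul_of_one_le_right (show 0 ≤ a by linarith) hl
    have e : Real.log (2 + Z) = l := rfl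
    rw [e] at h1
    push_cast at h1
    linarith
  have hlX : Real.log (Z * R ^ 2) ≤ lg (Z * R ^ 2) := Real.log_le_log hXp (by linarith)
  have hLL : Real.log (Real.log (Z * R ^ 2)) ≤ (Real.log (2 * a + 11) + 1 / η) * l ^ η := by
    refine (Real.log_le_log (by linarith) (hlX.trans hlgX)).trans ?_
    rw [Real.log_mul (by linarith) (by linarith)]
    have := le_mul_of_one_le_right hlE hq
    have e : (Real.log (2 * a + 11) + 1 / η) * l ^ η =
        Real.log (2 * a + 11) * l ^ η + l ^ η / η := by ring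
    linarith
  have hLL0 : 0 ≤ Real.log (Real.log (Z * R ^ 2)) := Real.log_nonneg (by linarith)
  have hpw : l ^ (θ / 2 + 3 * η) = l ^ (θ / 2) * (l ^ η) ^ 3 := by
    rw [Real.rpow_add hl0, mul_comm 3 η, Real.rpow_mul hl0.le]
    norm_num
  have hθ : l ^ θ = l ^ (θ / 2) * l ^ (θ / 2) := by
    rw [← Real.rpow_add hl0]
    norm_num
  have h3 : lg (Z * R ^ 2) ^ θ ≤ (2 * a + 11) ^ θ * (l ^ (θ / 2) * l ^ (θ / 2)) := by
    rw [← hθ, ← Real.mul_rpow (by linarith) hl0.le]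
    exact Real.rpow_le_rpow (by linarith) hlgX h0
  rw [hpw]
  refine ⟨R, hR₀.trans hRa, hR, hX100, ?_, ?_⟩
  · generalize Real.log (Real.log (Z * R ^ 2)) = y at hLL hLL0
    generalize Real.log (2 * a + 11) + 1 / η = F at hLL hF
    generalize (2 * a + 11) ^ θ = E at hEθ
    generalize a + 5 / η = D at hlR1 hD1
    generalize l ^ η = q at hq hLL hlR1
    generalize l ^ (θ / 2) = p at hp hRc
    calc Real.log R * R * y ^ 2 ≤ D * q * (R₁ * p) * (F * q) ^ 2 := by gcongr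
      _ = D * (R₁ * F ^ 2) * (p * q ^ 3) := by ring
      _ ≤ D * (R₁ * F ^ 2 + E) * (p * q ^ 3) := by gcongr; linarith
  · have hy : 0 ≤ lg (Z * R ^ 2) ^ θ := Real.rpow_nonneg (by linarith) _
    generalize lg (Z * R ^ 2) ^ θ = y at h3 hy
    generalize Real.log (2 * a + 11) + 1 / η = F at hF
    generalize (2 * a + 11) ^ θ = E at hEθ h3
    generalize a + 5 / η = D at hlR1 hD1
    generalize l ^ η = q at hq hlR1
    generalize l ^ (θ / 2) = p at hp hRb h3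
    have hq3 : q ≤ q ^ 3 := le_self_pow₀ hq (by norm_num)
    calc Real.log R / R * y ≤ D * q / p * (E * (p * p)) := by gcongr
      _ = D * E * (p * q) := by field_simp
      _ ≤ D * (R₁ * F ^ 2 + E) * (p * q ^ 3) := by
        gcongr
        have : 0 ≤ R₁ * F ^ 2 := by positivity
        linarith

theorem dir_big {Z v : ℝ} (hZ : 1 ≤ Z) (h : Z < Real.exp v) :
    lg Z ^ (10 : ℝ) ≤ 3 * 10 ^ 10 * mx Z v ^ 2 := by
  have hs : 0 < √Z := Real.sqrt_pos.2 (by linarith)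
  have h1 : √Z ≤ mx Z v := by
    refine le_trans ?_ (le_max_right _ _)
    rw [le_div_iff₀ hs, Real.mul_self_sqrt (by linarith)]
    exact h.le
  have h2 : Z ≤ mx Z v ^ 2 := by
    have := pow_le_pow_left₀ hs.le h1 2
    rwa [Real.sq_sqrt (by linarith)] at this
  have h3 : lg Z ≤ (2 + Z) ^ (1 / 10 : ℝ) / (1 / 10) :=
    Real.log_le_rpow_div (by linarith) (by norm_num)
  have h4 := Real.rpow_le_rpow (by have := dir_lg hZ; linarith) h3 (show (0 : ℝ) ≤ 10 by norm_num)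
  rw [Real.div_rpow (by positivity) (by norm_num), ← Real.rpow_mul (by linarith)] at h4
  norm_num at h4 ⊢
  linarith

theorem pDIR (hK : PKB) (hB : BAS) (hT : TM2) (hF : FL2) : DIR := by
  intro θ δ h0 h10 hδ hP κ κ' hκ hκ'
  obtain ⟨A₁, C₁, hC₁, hT⟩ := hT θ h0 h10 hP κ κ' hκ hκ'
  obtain ⟨A₂, C₂, hC₂, hB⟩ := hB κ κ' hκ hκ'
  obtain ⟨C₃, R₀, hC₃, -, hF⟩ := hF
  obtain ⟨D, hD, hN⟩ := dir_num (R₀ := R₀) h0 h10 hδ
  refine ⟨A₁ + A₂, 2 * C₃ * C₁ * D + 3 * 10 ^ 10 * C₂, by positivity, fun Z t v t' v' hZ => ?_⟩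
  have hb : ∀ x : ℝ, 1 ≤ br x := fun x => by
    unfold br
    linarith [abs_nonneg x]
  have hb1 : ∀ x : ℝ, br x ^ A₁ ≤ br x ^ (A₁ + A₂) := fun x =>
    pow_le_pow_right₀ (hb x) (by omega)
  have hb2 : ∀ x : ℝ, br x ^ A₂ ≤ br x ^ (A₁ + A₂) := fun x =>
    pow_le_pow_right₀ (hb x) (by omega)
  have hb0 : ∀ (x : ℝ) (n : ℕ), 0 ≤ br x ^ n := fun x n => pow_nonneg (by linarith [hb x]) n
  have hm : ∀ x : ℝ, 1 ≤ mx Z x := fun x => le_max_left _ _
  have hm2 : ∀ x : ℝ, 1 ≤ mx Z x ^ 2 := fun x => one_le_pow₀ (hm x)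
  have hl : 1 ≤ lg Z ^ (θ / 2 + δ) := Real.one_le_rpow (dir_lg hZ) (by linarith)
  have hZ0 : 0 < Z := by linarith
  have p1 := hb0 t (A₁ + A₂)
  have p2 := hb0 t' (A₁ + A₂)
  have p3 := hm2 v
  have p4 := hm2 v'
  by_cases hv : Real.exp v ≤ Z ∧ Real.exp v' ≤ Z
  · obtain ⟨R, hR₀, hR, hX, n1, n2⟩ := hN Z hZ
    have hZX : Z ≤ Z * R ^ 2 := le_mul_of_one_le_right hZ0.le (one_le_pow₀ hR)
    have hlg : 0 ≤ lg (Z * R ^ 2) ^ θ :=
      Real.rpow_nonneg (by have := dir_lg (hZ.trans hZX); linarith) _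
    have h1 := hF κ t v κ' t' v' Z R (C₁ * br t ^ A₁ * br t' ^ A₁ *
      (Z * R ^ 2 * Real.log (Real.log (Z * R ^ 2)) ^ 2 + Real.exp (v + v') * lg (Z * R ^ 2) ^ θ))
      hκ hκ' hZ0 hR₀ fun w w' F hw hw' => by
        refine (hT t w t' w' (Z * R ^ 2) F (hZ.trans hZX) hX
          ((Real.exp_le_exp.2 hw).trans (hv.1.trans hZX))
          ((Real.exp_le_exp.2 hw').trans (hv.2.trans hZX))).trans ?_
        have q1 := hb0 t A₁
        have q2 := hb0 t' A₁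
        gcongr
    have h2 : ∑ k ∈ Sq Z, ‖Pk κ t v κ' t' v' k‖ ^ 2 = ∑ k ∈ Sq Z, ‖Bm κ t v κ' t' v' k‖ ^ 2 := by
      refine sum_congr rfl fun k hk => ?_
      simp only [Sq, mem_filter] at hk
      rw [(((hK κ t κ' t' hκ hκ').2 k hk.2.1 hk.2.2.1).1 v v').1]
    have hs : 0 < √Z := Real.sqrt_pos.2 hZ0
    have he : ∀ x : ℝ, Real.exp x ≤ √Z * mx Z x ^ 2 := fun x => by
      have a1 : Real.exp x / √Z ≤ mx Z x := le_max_right _ _
      rw [div_le_iff₀' hs] at a1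
      exact a1.trans (mul_le_mul_of_nonneg_left (le_self_pow₀ (hm x) (by norm_num)) hs.le)
    have he2 : Real.exp (v + v') ≤ Z * (mx Z v ^ 2 * mx Z v' ^ 2) := by
      rw [Real.exp_add]
      calc _ ≤ √Z * mx Z v ^ 2 * (√Z * mx Z v' ^ 2) :=
            mul_le_mul (he v) (he v') (Real.exp_pos _).le (by positivity)
        _ = √Z * √Z * (mx Z v ^ 2 * mx Z v' ^ 2) := by ring
        _ = _ := by rw [Real.mul_self_sqrt hZ0.le]
    have hmm : 1 ≤ mx Z v ^ 2 * mx Z v' ^ 2 := one_le_mul_of_one_le_of_one_le p3 p4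
    have hLR : 0 ≤ Real.log R / R := div_nonneg (Real.log_nonneg hR) (by linarith)
    have h3 : Real.log R / R * (Z * R ^ 2 * Real.log (Real.log (Z * R ^ 2)) ^ 2 +
        Real.exp (v + v') * lg (Z * R ^ 2) ^ θ) ≤
        2 * D * Z * lg Z ^ (θ / 2 + δ) * (mx Z v ^ 2 * mx Z v' ^ 2) := by
      have e : Real.log R / R * (Z * R ^ 2 * Real.log (Real.log (Z * R ^ 2)) ^ 2 +
          Real.exp (v + v') * lg (Z * R ^ 2) ^ θ) =
          Z * 1 * (Real.log R * R * Real.log (Real.log (Z * R ^ 2)) ^ 2) +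
            Real.exp (v + v') * (Real.log R / R * lg (Z * R ^ 2) ^ θ) := by
        have : R ≠ 0 := by linarith
        field_simp
      rw [e]
      have hn2 : 0 ≤ Real.log R / R * lg (Z * R ^ 2) ^ θ := mul_nonneg hLR hlg
      have hn1 : 0 ≤ Real.log R * R * Real.log (Real.log (Z * R ^ 2)) ^ 2 :=
        mul_nonneg (mul_nonneg (Real.log_nonneg hR) (by linarith)) (sq_nonneg _)
      calc _ ≤ Z * (mx Z v ^ 2 * mx Z v' ^ 2) * (D * lg Z ^ (θ / 2 + δ)) +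
            Z * (mx Z v ^ 2 * mx Z v' ^ 2) * (D * lg Z ^ (θ / 2 + δ)) :=
            add_le_add (mul_le_mul (mul_le_mul_of_nonneg_left hmm hZ0.le) n1 hn1 (by positivity))
              (mul_le_mul he2 n2 hn2 (by positivity))
        _ = _ := by ring
    rw [h2]
    refine h1.trans ?_
    have q1 := hb0 t A₁
    have q2 := hb0 t' A₁
    have q3 := hb1 t
    have q4 := hb1 t'
    generalize Z * R ^ 2 * Real.log (Real.log (Z * R ^ 2)) ^ 2 +
      Real.exp (v + v') * lg (Z * R ^ 2) ^ θ = y at h3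
    generalize Real.log R / R = x at h3
    generalize lg Z ^ (θ / 2 + δ) = l at hl h3
    calc C₃ * x * (C₁ * br t ^ A₁ * br t' ^ A₁ * y) =
          C₃ * C₁ * br t ^ A₁ * br t' ^ A₁ * (x * y) := by ring
      _ ≤ C₃ * C₁ * br t ^ A₁ * br t' ^ A₁ * (2 * D * Z * l * (mx Z v ^ 2 * mx Z v' ^ 2)) :=
          mul_le_mul_of_nonneg_left h3 (by positivity)
      _ = 2 * C₃ * C₁ * D * Z * l * br t ^ A₁ * br t' ^ A₁ * mx Z v ^ 2 * mx Z v' ^ 2 := by ring
      _ ≤ _ := by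
          have : 2 * C₃ * C₁ * D ≤ 2 * C₃ * C₁ * D + 3 * 10 ^ 10 * C₂ := by
            have : 0 ≤ 3 * 10 ^ 10 * C₂ := by positivity
            linarith
          gcongr
  · have h1 : lg Z ^ (10 : ℝ) ≤ 3 * 10 ^ 10 * (mx Z v ^ 2 * mx Z v' ^ 2) := by
      rcases not_and_or.1 hv with h | h
      · exact (dir_big hZ (not_le.1 h)).trans (mul_le_mul_of_nonneg_left
          (le_mul_of_one_le_right (by linarith) p4) (by norm_num))
      · exact (dir_big hZ (not_le.1 h)).trans (mul_le_mul_of_nonneg_left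
          (le_mul_of_one_le_left (by linarith) p3) (by norm_num))
    refine (hB Z t v t' v' hZ).trans ?_
    have q1 := hb0 t A₂
    have q2 := hb0 t' A₂
    have q3 := hb2 t
    have q4 := hb2 t'
    generalize lg Z ^ (θ / 2 + δ) = l at hl
    generalize lg Z ^ (10 : ℝ) = y at h1
    calc C₂ * Z * y * br t ^ A₂ * br t' ^ A₂ * mx Z v ^ 0 * mx Z v' ^ 0 =
          C₂ * Z * br t ^ A₂ * br t' ^ A₂ * y := by ring
      _ ≤ C₂ * Z * br t ^ A₂ * br t' ^ A₂ * (3 * 10 ^ 10 * (mx Z v ^ 2 * mx Z v' ^ 2)) :=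
          mul_le_mul_of_nonneg_left h1 (by positivity)
      _ = 3 * 10 ^ 10 * C₂ * Z * 1 * br t ^ A₂ * br t' ^ A₂ * mx Z v ^ 2 * mx Z v' ^ 2 := by ring
      _ ≤ _ := by
          have : 3 * 10 ^ 10 * C₂ ≤ 2 * C₃ * C₁ * D + 3 * 10 ^ 10 * C₂ := by
            have : 0 ≤ 2 * C₃ * C₁ * D := by positivity
            linarith
          gcongr

end Pool.Agent.Q4
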