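import Pool.Agent.P.MP_ea46f5_nt.Q4.S4

/-! HTb: the tail of the sieve. HA4: the arithmetic constant. -/

namespace Pool.Agent.Q4

open Complex Finset Pool.Agent.QM Filter Topology
open scoped Real

noncomputable section

/-- the odd primes of a finite set of primes -/
def htS (s : Finset Nat.Primes) : Finset ℕ := (s.map (Function.Embedding.subtype _)).erase 2

def htE : ℝ := ∑' n : ℕ, (n : ℝ) ^ (-(11 / 10) : ℝ)

theorem ht_sum : Summable fun n : ℕ => (n : ℝ) ^ (-(11 / 10) : ℝ) :=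
  Real.summable_nat_rpow.2 (by norm_num)

theorem ht_op (s : Finset Nat.Primes) : OP (htS s) := fun p hp => by
  obtain ⟨h2, h⟩ := mem_erase.1 hp
  obtain ⟨q, -, rfl⟩ := mem_map.1 h
  exact ⟨q.2, h2⟩

theorem ht_prod (s : Finset Nat.Primes) (f : ℕ → ℂ) :
    ∏ p ∈ s, (if (p : ℕ) = 2 then 1 else f p) = ∏ p ∈ htS s, f p := by
  have h := prod_erase (f := fun p : ℕ => if p = 2 then 1 else f p) (a := 2)
    (s.map (Function.Embedding.subtype _)) (if_pos rfl)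
  exact (h.trans (prod_map _ _ _)).symm.trans
    (prod_congr rfl fun p hp => if_neg (mem_erase.1 hp).1)

theorem ht_mult {f : ℕ → ℂ} {C : ℝ} (hC : 0 ≤ C)
    (h : ∀ p : ℕ, p.Prime → p ≠ 2 → ‖f p - 1‖ ≤ C * (p : ℝ) ^ (-(11 / 10) : ℝ)) :
    Multipliable fun p : Nat.Primes => if (p : ℕ) = 2 then 1 else f p := by
  have h1 : Summable fun p : Nat.Primes => ‖(if (p : ℕ) = 2 then 1 else f p) - 1‖ := by
    refine Summable.of_nonneg_of_le (fun _ => norm_nonneg _) (fun p => ?_)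
      ((Nat.Primes.summable_rpow.2 (by norm_num : (-(11 / 10) : ℝ) < -1)).mul_left C)
    split_ifs with h2
    · rw [sub_self, norm_zero]
      positivity
    · exact h p p.2 h2
  simpa only [add_sub_cancel] using multipliable_one_add_of_summable h1

theorem ht_tend {f : ℕ → ℂ} {C : ℝ} (hC : 0 ≤ C)
    (h : ∀ p : ℕ, p.Prime → p ≠ 2 → ‖f p - 1‖ ≤ C * (p : ℝ) ^ (-(11 / 10) : ℝ)) :
    Tendsto (fun s => ∏ p ∈ htS s, f p) atTop
      (𝓝 (∏' p : Nat.Primes, if (p : ℕ) = 2 then 1 else f p)) := by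
  simp only [← ht_prod]
  exact (ht_mult hC h).hasProd

theorem ht_exp {C : ℝ} (hC : 0 ≤ C) (S : Finset ℕ) :
    ∏ p ∈ S, (1 + C * (p : ℝ) ^ (-(11 / 10) : ℝ)) ≤ Real.exp (C * htE) := by
  refine (Real.prod_one_add_le_exp_sum S fun p => by positivity).trans (Real.exp_le_exp.2 ?_)
  rw [← mul_sum]
  exact mul_le_mul_of_nonneg_left (ht_sum.sum_le_tsum S fun p _ => by positivity) hC

theorem ht_le {f : ℕ → ℂ} {C : ℝ} (hC : 0 ≤ C)
    (h : ∀ p : ℕ, p.Prime → p ≠ 2 → ‖f p - 1‖ ≤ C * (p : ℝ) ^ (-(11 / 10) : ℝ)) {S : Finset ℕ}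
    (hS : OP S) : ‖∏ p ∈ S, f p‖ ≤ Real.exp (C * htE) := by
  refine (Finset.norm_prod_le _ _).trans (le_trans (prod_le_prod (fun _ _ => norm_nonneg _)
    fun p hp => ?_) (ht_exp hC S))
  have := norm_add_le (1 : ℂ) (f p - 1)
  rw [add_sub_cancel, norm_one] at this
  linarith [h p (hS p hp).1 (hS p hp).2]

/-- the finite sieve as a sum over sets of primes -/
theorem ht_fin (y F : ℕ → ℂ) (Y : ℕ) {S : Finset ℕ} (hS : OP S)
    (hY : ∀ p : ℕ, p.Prime → p ≠ 2 → p ≤ Y → p ∈ S) :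
    ∑ a ∈ AY Y, (ArithmeticFunction.moebius a : ℂ) * (a : ℂ) ^ (2 * 0 - 2 : ℂ) *
      ((∏ p ∈ a.primeFactors, F p) * ∏ p ∈ S, if p ∣ a then 1 else y p) =
    ∑ T ∈ S.powerset with ∏ p ∈ T, p ≤ Y,
      (∏ p ∈ T, -(F p / (p : ℂ) ^ 2)) * ∏ p ∈ S \ T, y p := by
  have hp : ∀ T ∈ S.powerset.filter fun T => ∏ p ∈ T, p ≤ Y, ∀ p ∈ T, p.Prime ∧ p ≠ 2 :=
    fun T hT p hp => hS p (mem_powerset.1 (mem_filter.1 hT).1 hp)
  have hf := fun T hT => Nat.primeFactors_prod fun p h => (hp T hT p h).1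
  symm
  refine sum_of_injOn (fun T => ∏ p ∈ T, p) (fun T hT T' hT' e => ?_) (fun T hT => ?_)
    (fun a ha hn => ?_) fun T hT => ?_
  · rw [← hf T hT, ← hf T' hT']
    exact congrArg _ e
  · exact mem_filter.2 ⟨mem_Icc.2 ⟨prod_pos fun p h => (hp T hT p h).1.pos, (mem_filter.1 hT).2⟩,
      prod_induction _ Odd (fun _ _ => Odd.mul) odd_one fun p h =>
        (hp T hT p h).1.odd_of_ne_two (hp T hT p h).2⟩
  · obtain ⟨h1, h2⟩ := mem_filter.1 ha
    rw [ArithmeticFunction.moebius_eq_zero_of_not_squarefree fun hs => hn ?_]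
    · simp
    have e := Nat.prod_primeFactors_of_squarefree hs
    refine ⟨a.primeFactors, mem_coe.2 (mem_filter.2 ⟨mem_powerset.2 fun p h => hY p
      (Nat.prime_of_mem_primeFactors h) ?_ ((Nat.le_of_mem_primeFactors h).trans (mem_Icc.1 h1).2),
      e.le.trans (mem_Icc.1 h1).2⟩), e⟩
    rintro rfl
    exact (Nat.not_even_iff_odd.2 h2) (even_iff_two_dvd.2 (Nat.dvd_of_mem_primeFactors h))
  · have e1 : ∏ p ∈ S, (if p ∣ ∏ q ∈ T, q then 1 else y p) = ∏ p ∈ S \ T, y p := by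
      rw [sdiff_eq_filter, prod_filter]
      refine prod_congr rfl fun p h => ?_
      have : p ∣ ∏ q ∈ T, q ↔ p ∈ T := by
        conv_rhs => rw [← hf T hT, Nat.mem_primeFactors]
        exact ⟨fun h' => ⟨(hS p h).1, h', prod_ne_zero_iff.2 fun q hq => (hp T hT q hq).1.ne_zero⟩,
          fun h' => h'.2.1⟩
      simp only [this, ite_not]
    rw [e1, hf T hT, ArithmeticFunction.isMultiplicative_moebius.map_prod_of_prime T
      fun p h => (hp T hT p h).1, ← mul_assoc, show (2 * 0 - 2 : ℂ) = -((2 : ℕ) : ℂ) by simp,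
      cpow_neg, cpow_natCast]
    push_cast
    rw [← prod_pow, ← prod_inv_distrib, ← prod_mul_distrib, ← prod_mul_distrib]
    congr 1
    refine prod_congr rfl fun p h => ?_
    rw [ArithmeticFunction.moebius_apply_prime (hp T hT p h).1]
    push_cast
    ring

theorem ht_F {F : ℂ} {C : ℝ} {p : ℕ} (hp : p.Prime) (h : ‖F‖ ≤ C) :
    ‖F / (p : ℂ) ^ 2‖ * √(p : ℝ) ≤ C * (p : ℝ) ^ (-(11 / 10) : ℝ) := by
  have h0 : (0 : ℝ) < p := by exact_mod_cast hp.pos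
  rw [norm_div, norm_pow, norm_natCast, div_mul_eq_mul_div, mul_div_assoc, Real.sqrt_eq_rpow,
    ← Real.rpow_two, ← Real.rpow_sub h0]
  exact mul_le_mul h (Real.rpow_le_rpow_of_exponent_le (by exact_mod_cast hp.one_le) (by norm_num))
    (by positivity) ((norm_nonneg _).trans h)

theorem ht_tail {y F : ℕ → ℂ} {C : ℝ} (hC : 0 ≤ C) {Y : ℕ} (hY : 1 ≤ Y)
    (h : ∀ p : ℕ, p.Prime → p ≠ 2 → ‖y p - 1‖ ≤ C * (p : ℝ) ^ (-(11 / 10) : ℝ) ∧ ‖F p‖ ≤ C)
    {S : Finset ℕ} (hS : OP S) :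
    ‖∑ T ∈ S.powerset with ¬ ∏ p ∈ T, p ≤ Y,
      (∏ p ∈ T, -(F p / (p : ℂ) ^ 2)) * ∏ p ∈ S \ T, y p‖ ≤ Real.exp (2 * C * htE) / √(Y : ℝ) := by
  have hY' : 0 < √(Y : ℝ) := Real.sqrt_pos.2 (by exact_mod_cast hY)
  have h1 : ∀ T ∈ S.powerset.filter fun T => ¬ ∏ p ∈ T, p ≤ Y,
      ‖(∏ p ∈ T, -(F p / (p : ℂ) ^ 2)) * ∏ p ∈ S \ T, y p‖ ≤
        (∏ p ∈ T, C * (p : ℝ) ^ (-(11 / 10) : ℝ)) * (Real.exp (C * htE) / √(Y : ℝ)) := by
    intro T hT
    obtain ⟨h2, h3⟩ := mem_filter.1 hT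
    have h4 : √(Y : ℝ) ≤ ∏ p ∈ T, √(p : ℝ) := by
      rw [← Real.sqrt_prod _ fun _ _ => Nat.cast_nonneg _]
      exact Real.sqrt_le_sqrt (by rw [← Nat.cast_prod]; exact Nat.cast_le.2 (not_le.1 h3).le)
    have h5 : ‖∏ p ∈ T, -(F p / (p : ℂ) ^ 2)‖ * √(Y : ℝ) ≤
        ∏ p ∈ T, C * (p : ℝ) ^ (-(11 / 10) : ℝ) := by
      refine (mul_le_mul_of_nonneg_left h4 (norm_nonneg _)).trans ?_
      rw [norm_prod, ← prod_mul_distrib]
      refine prod_le_prod (fun _ _ => by positivity) fun p hp => ?_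
      have := hS p (mem_powerset.1 h2 hp)
      rw [norm_neg]
      exact ht_F this.1 (h p this.1 this.2).2
    rw [norm_mul, ← mul_div_assoc, mul_div_right_comm]
    exact mul_le_mul ((le_div_iff₀ hY').2 h5) (ht_le hC (fun p a b => (h p a b).1)
      fun p hp => hS p (mem_sdiff.1 hp).1) (norm_nonneg _)
      ((norm_nonneg _).trans ((le_div_iff₀ hY').2 h5))
  refine (norm_sum_le_of_le _ h1).trans ?_
  rw [← sum_mul, show 2 * C * htE = C * htE + C * htE by ring, Real.exp_add, mul_div_assoc]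
  refine mul_le_mul_of_nonneg_right (le_trans ?_ (ht_exp hC S)) (by positivity)
  rw [prod_one_add]
  exact sum_le_sum_of_subset_of_nonneg (filter_subset _ _) fun T _ _ =>
    prod_nonneg fun _ _ => by positivity

theorem ht_J {y F : ℕ → ℂ} {C : ℝ}
    (h : ∀ p : ℕ, p.Prime → p ≠ 2 → ‖y p - 1‖ ≤ C * (p : ℝ) ^ (-(11 / 10) : ℝ) ∧ ‖F p‖ ≤ C)
    (p : ℕ) (hp : p.Prime) (h2 : p ≠ 2) :
    ‖y p - F p / (p : ℂ) ^ 2 - 1‖ ≤ 2 * C * (p : ℝ) ^ (-(11 / 10) : ℝ) := by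
  have h1 := ht_F hp (h p hp h2).2
  have h3 : 1 ≤ √(p : ℝ) := Real.one_le_sqrt.2 (by exact_mod_cast hp.one_le)
  have h4 := norm_sub_le (y p - 1) (F p / (p : ℂ) ^ 2)
  rw [sub_right_comm]
  nlinarith [(h p hp h2).1, norm_nonneg (F p / (p : ℂ) ^ 2)]

theorem pHTb : HTb := by
  intro C hC
  refine ⟨Real.exp (2 * C * htE), Real.exp_pos _, fun y F Y hY h => ?_⟩
  have hJ := ht_tend (f := fun p => y p - F p / (p : ℂ) ^ 2) (by linarith) (ht_J h)
  refine ⟨?_, le_of_tendsto' hJ.norm fun s => ht_le (by linarith) (ht_J h) (ht_op s)⟩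
  have h1 : Tendsto (fun s => ∑ a ∈ AY Y, (ArithmeticFunction.moebius a : ℂ) *
      (a : ℂ) ^ (2 * 0 - 2 : ℂ) * ((∏ p ∈ a.primeFactors, F p) *
        ∏ p ∈ htS s, if p ∣ a then 1 else y p)) atTop (𝓝 (HY Y 0 y F)) := by
    refine tendsto_finsetSum _ fun a _ => Tendsto.const_mul _ (Tendsto.const_mul _ ?_)
    simp only [ite_or]
    refine ht_tend (f := fun p => if p ∣ a then 1 else y p) hC.le fun p hp h2 => ?_
    split_ifs
    · rw [sub_self, norm_zero]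
      positivity
    · exact (h p hp h2).1
  refine le_of_tendsto (h1.sub hJ).norm ?_
  filter_upwards [eventually_ge_atTop ((range (Y + 1)).subtype Nat.Prime)] with s hs
  rw [ht_fin y F Y (ht_op s) fun p hp h2 hle => mem_erase.2 ⟨h2, mem_map.2
    ⟨⟨p, hp⟩, hs (mem_subtype.2 (mem_range.2 (Nat.lt_succ_of_le hle))), rfl⟩⟩,
    prod_congr rfl fun p _ => (sub_eq_neg_add (y p) _), prod_add,
    ← sum_filter_add_sum_filter_not (htS s).powerset fun T => ∏ p ∈ T, p ≤ Y,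
    sub_add_cancel_left, norm_neg]
  exact ht_tail hC.le hY h (ht_op s)

/-- the factor of `Aprod 4` -/
def haA (u : V4) (p : ℕ) : ℂ :=
  (∏ i, ∏ j ∈ Ici i, (1 - (p : ℂ) ^ (-1 - u i - u j))) *
    (1 / 2 * (∏ j, (1 - (p : ℂ) ^ (-1 / 2 - u j))⁻¹ + ∏ j, (1 + (p : ℂ) ^ (-1 / 2 - u j))⁻¹) +
      1 / (p : ℂ)) * (1 + 1 / (p : ℂ))⁻¹

theorem ha4_A (u : V4) (p : ℕ) : haA u p =
    (∏ i, ∏ j ∈ Ici i, (1 - (p : ℂ) ^ (-(1 + u i + u j)))) *
      (1 / 2 * (Fq u p 1 + Fq u p (-1)) + 1 / (p : ℂ)) * (1 + 1 / (p : ℂ))⁻¹ := by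
  have e1 : ∀ a b : ℂ, -1 - a - b = -(1 + a + b) := fun a b => by ring
  have e2 : ∀ a : ℂ, -1 / 2 - a = -(1 / 2 + a) := fun a => by ring
  simp only [haA, Fq, xs, e1, e2, one_mul, neg_one_mul, sub_neg_eq_add]

theorem ha4_loc {u : V4} (hu : ∀ j, 0 < (u j).re) {p : ℕ} (hp : p.Prime) :
    (loc4 1 0 u p * n1 0 u p - n1 0 u p / (p : ℂ) ^ 2) * (1 - (p : ℂ) ^ (-2 : ℂ))⁻¹ = haA u p := by
  have h0 : (p : ℂ) ≠ 0 := by exact_mod_cast hp.ne_zero
  have h1 : (p : ℂ) + 1 ≠ 0 := by exact_mod_cast p.succ_ne_zero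
  have h2 : (p : ℂ) - 1 ≠ 0 := sub_ne_zero.2 (by exact_mod_cast hp.ne_one)
  have h3 : ∏ j, (1 - (p : ℂ) ^ (-(1 + u j))) ≠ 0 := prod_ne_zero_iff.2 fun j _ e => by
    have h4 := Real.rpow_lt_one_of_one_lt_of_neg (x := p) (z := (-(1 + u j)).re)
      (by exact_mod_cast hp.one_lt) (by have := hu j; simp; linarith)
    rw [← norm_natCast_cpow_of_pos hp.pos, ← sub_eq_zero.1 e, norm_one] at h4
    exact lt_irrefl _ h4
  have h4 : ¬ (p : ℤ) ∣ 1 := fun h => hp.ne_one (by exact_mod_cast Int.eq_one_of_dvd_one (by simp) h)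
  have h5 : (1 - (p : ℂ) ^ (-2 : ℂ))⁻¹ = (p : ℂ) ^ 2 / ((p + 1) * (p - 1)) := by
    rw [cpow_neg, cpow_two, ← inv_div]
    congr 1
    field_simp
    ring
  rw [ha4_A, h5]
  simp only [loc4, n1, ek, ok, if_neg h4, sub_zero, add_zero, neg_zero, sub_self, mul_zero]
  field_simp
  ring

theorem pHA4 (hL : LOC4) : HA4 := by
  intro u hu
  obtain ⟨C, hC, h⟩ := hL
  have hV : ((0 : ℂ), u) ∈ V1 := ⟨by norm_num, by norm_num, fun j =>
    ⟨by linarith [hu j], by have := hu j; simp; linarith⟩⟩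
  have h1 : HasProd _ (HI u) :=
    (ht_mult (f := fun p => loc4 1 0 u p * n1 0 u p - n1 0 u p / (p : ℂ) ^ 2) (by linarith)
      (ht_J (y := fun p => loc4 1 0 u p * n1 0 u p) (F := n1 0 u)
        fun p hp h2 => (h p hp h2).2 (0, u) hV)).hasProd
  have h2 := riemannZeta_eulerProduct_hasProd (s := 2) (by norm_num)
  have h3 : HasProd (fun p : Nat.Primes => if (p : ℕ) = 2 then haA u 2 * (3 / 4) else 1)
      (haA u 2 * (3 / 4)) :=
    hasProd_single (f := fun p : Nat.Primes => if (p : ℕ) = 2 then haA u 2 * (3 / 4) else 1)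
      ⟨2, Nat.prime_two⟩ fun p hp => if_neg fun e => hp (Subtype.ext e)
  have h4 : HasProd (fun p : Nat.Primes => haA u p) (HI u * riemannZeta 2 * (haA u 2 * (3 / 4))) := by
    refine ((h1.mul h2).mul h3).congr_fun fun p => ?_
    by_cases e : (p : ℕ) = 2
    · rw [if_pos e, if_pos e, e, cpow_neg, cpow_two]
      push_cast
      ring
    · rw [if_neg e, if_neg e, mul_one, ha4_loc hu p.2]
  have h5 : Aprod 4 u = _ := h4.tprod_eq
  have h6 : (π : ℂ) ≠ 0 := by exact_mod_cast Real.pi_ne_zero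
  rw [h5, riemannZeta_two, ha4_A]
  push_cast
  field_simp
  ring

end

end Pool.Agent.Q4
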