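import Pool.Agent.P.MP_ea46f5_nt.Q4.S4

/-! PRH: infinite products in several variables. -/

namespace Pool.Agent.Q4

open Complex Finset Filter Topology Metric

/-- Weierstrass: a uniform limit of differentiable functions on a normed space. -/
theorem prh_wei {E ι : Type} [NormedAddCommGroup E] [NormedSpace ℂ E] [Nonempty ι]
    [SemilatticeSup ι] {U : Set E} (hU : IsOpen U) {f : ι → E → ℂ} {g : E → ℂ}
    (hf : ∀ i, Hol U (f i)) (hg : ∀ x ∈ U, Tendsto (fun i => f i x) atTop (𝓝 (g x)))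
    (hc : ∀ ε : ℝ, 0 < ε → ∃ N, ∀ i, N ≤ i → ∀ x ∈ U, ‖f i x - f N x‖ ≤ ε) : Hol U g := by
  intro x₀ hx₀
  obtain ⟨R, hR, hsub⟩ := Metric.isOpen_iff.1 hU x₀ hx₀
  have hb : ∀ x ∈ ball x₀ (R / 2), ball x (R / 2) ⊆ U := fun x hx =>
    (ball_subset_ball' (by rw [mem_ball] at hx; linarith)).trans hsub
  have hm : ∀ x ∈ ball x₀ (R / 2), x ∈ U := fun x hx => hb x hx (mem_ball_self (by linarith))
  have h1 : UniformCauchySeqOn (fun i x => fderiv ℂ (f i) x) atTop (ball x₀ (R / 2)) := by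
    refine Metric.uniformCauchySeqOn_iff.2 fun ε hε => ?_
    obtain ⟨N, hN⟩ := hc (ε * R / 16) (by positivity)
    refine ⟨N, fun i hi j hj x hx => ?_⟩
    have h2 : ∀ w ∈ U, ‖f i w - f j w‖ ≤ ε * R / 8 := fun w hw => by
      have := norm_sub_le_norm_sub_add_norm_sub (f i w) (f N w) (f j w)
      rw [norm_sub_rev (f N w)] at this
      linarith [hN i hi w hw, hN j hj w hw]
    have h3 := norm_fderiv_le_div_of_mapsTo_ball (f := fun w => f i w - f j w) (c := x)
      (R₁ := R / 2) (R₂ := ε * R / 4)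
      (fun w hw => ((hf i w (hb x hx hw)).sub (hf j w (hb x hx hw))).differentiableWithinAt)
      (fun w hw => mem_closedBall_iff_norm.2 ((norm_sub_le _ _).trans
        (by linarith [h2 w (hb x hx hw), h2 x (hm x hx)]))) (by linarith)
    rw [fderiv_fun_sub (hf i x (hm x hx)) (hf j x (hm x hx))] at h3
    rw [dist_eq_norm]
    refine h3.trans_lt ?_
    rw [div_lt_iff₀ (by linarith)]
    nlinarith
  have h2 := h1.tendstoUniformlyOn_of_tendsto
    (f := fun x => limUnder atTop fun i => fderiv ℂ (f i) x)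
    fun x hx => (h1.cauchySeq hx).tendsto_limUnder
  exact (hasFDerivAt_of_tendstoUniformlyOn isOpen_ball h2
    (fun i x hx => (hf i x (hm x hx)).hasFDerivAt) (fun x hx => hg x (hm x hx))
    (mem_ball_self (by linarith))).differentiableAt

theorem prh_one {ι : Type} (s : Finset ι) {y : ι → ℂ} {b : ι → ℝ} (h : ∀ p, ‖y p - 1‖ ≤ b p) :
    ‖∏ p ∈ s, y p - 1‖ ≤ Real.exp (∑ p ∈ s, b p) - 1 := by
  have h1 := s.norm_prod_one_add_sub_one_le fun p => y p - 1
  simp only [add_sub_cancel] at h1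
  exact h1.trans (sub_le_sub_right (Real.exp_le_exp.2 (sum_le_sum fun p _ => h p)) 1)

theorem prh_le {ι : Type} (s : Finset ι) {y : ι → ℂ} {b : ι → ℝ} (hb : Summable b)
    (h : ∀ p, ‖y p - 1‖ ≤ b p) : ‖∏ p ∈ s, y p‖ ≤ Real.exp (∑' p, b p) := by
  have h1 := norm_add_le (∏ p ∈ s, y p - 1) 1
  rw [sub_add_cancel, norm_one] at h1
  have h2 := Real.exp_le_exp.2 (hb.sum_le_tsum s fun p _ => (norm_nonneg _).trans (h p))
  linarith [prh_one s h]

theorem pPRH : PRH := by
  classical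
  intro E _ _ U y b hU hb hy h
  have hm : ∀ x ∈ U, Multipliable fun p => y p x := fun x hx => by
    simpa only [add_sub_cancel] using multipliable_one_add_of_summable
      (hb.of_nonneg_of_le (fun _ => norm_nonneg _) fun p => h p x hx)
  refine ⟨prh_wei hU (f := fun s x => ∏ p ∈ s, y p x) (fun s x hx =>
    (HasFDerivAt.finsetProd fun p _ => (hy p x hx).hasFDerivAt).differentiableAt)
    (fun x hx => (hm x hx).hasProd) fun ε hε => ?_, fun x hx => ⟨hm x hx,
      le_of_tendsto' (Tendsto.norm (hm x hx).hasProd) fun s => prh_le s hb fun p => h p x hx⟩⟩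
  have hM := Real.exp_pos (∑' p, b p)
  obtain ⟨N, hN⟩ := summable_iff_vanishing_norm.1 hb
    (Real.log (1 + ε / Real.exp (∑' p, b p))) (Real.log_pos (lt_add_of_pos_right _ (by positivity)))
  refine ⟨N, fun s hs x hx => ?_⟩
  have h1 := Real.exp_le_exp.2 ((le_abs_self _).trans (hN (s \ N) sdiff_disjoint).le)
  rw [Real.exp_log (by positivity)] at h1
  have h2 := (prh_one (s \ N) fun p => h p x hx).trans (sub_le_iff_le_add'.2 h1)
  rw [← prod_sdiff hs, ← sub_one_mul, norm_mul]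
  exact (mul_le_mul h2 (prh_le N hb fun p => h p x hx) (norm_nonneg _) (by positivity)).trans
    (div_mul_cancel₀ _ hM.ne').le

end Pool.Agent.Q4
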