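import Pool.Agent.P.MP_ea46f5_nt.Q4.S4

/-! The smoothed fourth moment from the exact part and the critical piece. -/

namespace Pool.Agent.Q4

open Complex MeasureTheory Finset Pool.Agent.QM
open scoped Real ComplexConjugate

theorem smo_log {θ L : ℝ} (hθ : 0 < θ) (hL : 1 ≤ L) (n : ℕ) (hn : n ≠ 0) :
    Real.log L ^ n ≤ (n / θ) ^ n * L ^ θ := by
  have hn' : (0 : ℝ) < n := by positivity
  have h := Real.log_le_rpow_div (x := L) (by linarith) (div_pos hθ hn')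
  calc Real.log L ^ n ≤ (L ^ (θ / n) / (θ / n)) ^ n := pow_le_pow_left₀ (Real.log_nonneg hL) h n
    _ = (n / θ) ^ n * L ^ θ := by
      rw [div_pow, ← Real.rpow_natCast (L ^ (θ / n)), ← Real.rpow_mul (by linarith),
        div_mul_cancel₀ _ hn'.ne', div_pow, div_pow]
      field_simp

theorem smo_sum {f : SF → ℂ} {w : ℤ → ℝ} {B : ℝ} (hf : ∀ k : SF, ‖f k‖ ≤ w k)
    (h1 : ∀ k : SF, (k : ℤ) = 1 → f k = 0) (hB : ∀ F : Finset ℤ, SQ F → ∑ k ∈ F, w k ≤ B) :
    Summable f ∧ ‖∑' k, f k‖ ≤ B := by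
  classical
  have key : ∀ s : Finset SF, ∑ k ∈ s, ‖f k‖ ≤ B := by
    intro s
    rw [← sum_filter_add_sum_filter_not s fun k : SF => (k : ℤ) = 1,
      sum_eq_zero fun k hk => by rw [h1 k (mem_filter.1 hk).2, norm_zero], zero_add]
    refine (sum_le_sum fun k _ => hf k).trans ?_
    rw [← sum_image (g := fun k : SF => (k : ℤ)) (f := w) fun x _ y _ h => Subtype.ext h]
    refine hB _ fun k hk => ?_
    obtain ⟨x, hx, rfl⟩ := mem_image.1 hk
    exact ⟨x.2, (mem_filter.1 hx).2⟩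
  have hs := summable_of_sum_le (fun k => norm_nonneg (f k)) key
  exact ⟨hs.of_norm, (norm_tsum_le_tsum_norm hs).trans (hs.tsum_le_of_sum_le key)⟩

theorem pSMO (hPHW : PHW) (hBRG : BRG) (hG1W : G1W) (hCLM : CLM) (hAFS : AFS) (hFB : FB) (hAT : AT)
    (hCSM : CSM) : SMO := by
  classical
  intro a c θ ha hθ
  obtain ⟨⟨C₀, -, hg⟩, -⟩ := hG1W a c ha
  have hτ : ((-1 : ℤ) ^ a = 1 ∨ (-1 : ℤ) ^ a = -1) := neg_one_pow_eq_or ℤ a
  choose! D₀ hD using fun r => hAT _ C₀ ((-1) ^ a) r hg hτ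
  set D : ℝ := 8 + ∑ r ∈ RS, |D₀ r| with hDdef
  have hD8 : 8 ≤ D := le_add_of_nonneg_right (sum_nonneg fun r _ => abs_nonneg _)
  have hD0 : ∀ r ∈ RS, D₀ r ≤ D := fun r hr => by
    have := single_le_sum (f := fun r => |D₀ r|) (fun r _ => abs_nonneg _) hr
    have := le_abs_self (D₀ r)
    linarith
  choose! C X₀ hC using fun r hr => hD r hr D (hD0 r hr)
  obtain ⟨C₁, hC₁, hF⟩ := hFB _ C₀ (θ / 2) hg (half_pos hθ)
  refine ⟨((∑ r ∈ RS, |C r|) * (32 / θ) ^ 32 + C₁ * D ^ 36 * (36 / (θ / 2)) ^ 36 * 2 ^ (θ / 2)) /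
    (24 * π ^ 4), Real.exp 3 + ∑ r ∈ RS, |X₀ r|, fun X η hX h1 h2 => ?_⟩
  have hX3 : Real.exp 3 ≤ X := le_trans (le_add_of_nonneg_right
    (sum_nonneg fun r _ => abs_nonneg _)) hX
  have hX4 : 4 ≤ X := le_trans (by linarith [Real.add_one_le_exp 3]) hX3
  have hX0 : 0 < X := by linarith
  have hXr : ∀ r ∈ RS, X₀ r ≤ X := fun r hr => by
    have := single_le_sum (f := fun r => |X₀ r|) (fun r _ => abs_nonneg _) hr
    have := le_abs_self (X₀ r)
    have := Real.exp_pos 3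
    linarith
  set L := Real.log X with hL
  have hL3 : 3 ≤ L := (Real.le_log_iff_exp_le hX0).2 hX3
  have hLL : 1 ≤ Real.log L := (Real.le_log_iff_exp_le (by linarith)).2
    (le_trans Real.exp_one_lt_d9.le (by linarith))
  set Δ := D * Real.log L with hΔ
  have hΔ8 : 8 ≤ Δ := by nlinarith
  have hη0 : 0 < η := lt_of_lt_of_le (by positivity) h1
  have hη : η ≤ 1 / 30 := h2.trans (one_div_le_one_div_of_le (by norm_num)
    (le_trans (by norm_num) (pow_le_pow_left₀ (by norm_num) hL3 39)))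
  have hq : ∀ k : SF, 0 ≤ phi η (qk k / X) := fun k => by
    have h0 : (0 : ℝ) < |((k : ℤ) : ℝ)| := abs_pos.2 (Int.cast_ne_zero.2 k.2.ne_zero)
    exact (hPHW η _ hη0 (div_pos (h0.trans_le (hBRG.2.1 k).1) hX0)).2.1
  set fm : SF → ℂ := fun k => if (k : ℤ) ≠ 1 ∧ par k = a then
    (phi η (qk k / X) : ℂ) * Fm (g1 a c) (gam k) Δ (qk k) k else 0 with hfm
  obtain ⟨s1, b1⟩ := smo_sum (f := fm)
    (w := fun k => phi η (qk k / X) * ‖Fm (g1 a c) (gam k) Δ (qk k) k‖)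
    (fun k => by
      simp only [hfm]
      split_ifs
      · rw [norm_mul, norm_real, Real.norm_of_nonneg (hq k)]
      · rw [norm_zero]; exact mul_nonneg (hq k) (norm_nonneg _))
    (fun k hk => by simp [hfm, hk]) fun F hF' => hF Δ η X F hΔ8 hη0 hη hX0 hF'
  have hπ : (24 * π ^ 4 : ℂ) ≠ 0 :=
    mul_ne_zero (by norm_num) (pow_ne_zero _ (ofReal_ne_zero.2 Real.pi_ne_zero))
  have hid : ∀ k : SF, 24 * π ^ 4 * sm a η X k =
      ∑ r ∈ RS, tb ((-1) ^ a) r (g1 a c) Δ η X k + fm k := by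
    intro k
    have hk := hCLM.2.1 a k ha k.2
    by_cases h : (k : ℤ) ≠ 1 ∧ par k = a
    · obtain ⟨m1, m2⟩ := hk.1 h.2
      rw [sum_eq_single_of_mem (f := fun r => tb ((-1) ^ a) r (g1 a c) Δ η X k) _ m1
        fun r _ hr => by unfold tb; exact if_neg fun h' => hr h'.2.2.symm]
      simp only [hfm, sm, tb, if_pos h, if_pos (And.intro h.1 m2)]
      have := hAFS c k Δ k.2 h.1 (by linarith)
      rw [h.2] at this
      rw [mul_left_comm, this, mul_add]
    · rw [sum_eq_zero (f := fun r => tb ((-1) ^ a) r (g1 a c) Δ η X k)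
        fun r _ => by unfold tb; exact if_neg fun h' => h ⟨h'.1, hk.2 r h'.2⟩]
      simp only [hfm, sm, if_neg h, mul_zero, add_zero]
  have hT := fun r hr => hC r hr X η (hXr r hr) h1 h2
  have s2 : HasSum (fun k : SF => 24 * π ^ 4 * sm a η X k)
      (∑ r ∈ RS, ∑' k, tb ((-1) ^ a) r (g1 a c) Δ η X k + ∑' k, fm k) := by
    simp only [hid]
    exact (hasSum_sum fun r hr => (hT r hr).1.hasSum).add s1.hasSum
  have s3 : Summable (sm a η X) := (summable_mul_left_iff hπ).1 s2.summable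
  refine ⟨s3, ?_⟩
  have e1 := s2.tsum_eq
  rw [tsum_mul_left] at e1
  have e2 := hCSM a c (1 / L) X ha (by positivity) (by
    rw [div_le_one (by linarith)]; linarith) (by linarith)
  have e3 : 24 * π ^ 4 * (∑' k, sm a η X k - MT a c (1 / L) X) =
      ∑ r ∈ RS, (∑' k, tb ((-1) ^ a) r (g1 a c) Δ η X k -
        1 / (8 * cq r) * MC (g1 a c) (gam r) (1 / L) X) + ∑' k, fm k := by
    rw [mul_sub, e1, ← e2, sum_sub_distrib]; ring
  have e4 : ‖(24 * π ^ 4 : ℂ)‖ = 24 * π ^ 4 := by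
    rw [norm_mul, norm_pow, norm_real, Real.norm_of_nonneg Real.pi_pos.le]; simp
  rw [div_mul_eq_mul_div, div_mul_eq_mul_div, le_div_iff₀ (by positivity), mul_comm, ← e4,
    ← norm_mul, e3]
  have l1 := smo_log hθ (by linarith : 1 ≤ L) 32 (by norm_num)
  have l2 := smo_log (half_pos hθ) (by linarith : 1 ≤ L) 36 (by norm_num)
  have l3 : lg X ^ (θ / 2) ≤ 2 ^ (θ / 2) * L ^ (θ / 2) := by
    rw [← Real.mul_rpow (by norm_num) (by linarith)]
    refine Real.rpow_le_rpow (Real.log_nonneg (by linarith)) ?_ (half_pos hθ).le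
    have : 2 * L = Real.log (X ^ 2) := by rw [Real.log_pow]; norm_num [hL]
    rw [this]
    exact Real.log_le_log (by linarith) (by nlinarith)
  have l4 : L ^ (θ / 2) * L ^ (θ / 2) = L ^ θ := by
    rw [← Real.rpow_add (by linarith), add_halves]
  have b2 : ‖∑ r ∈ RS, (∑' k, tb ((-1) ^ a) r (g1 a c) Δ η X k -
      1 / (8 * cq r) * MC (g1 a c) (gam r) (1 / L) X)‖ ≤
      (∑ r ∈ RS, |C r|) * (X * ((32 / θ) ^ 32 * L ^ θ)) := by
    rw [sum_mul]
    refine (norm_sum_le _ _).trans (sum_le_sum fun r hr => (hT r hr).2.trans ?_)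
    rw [mul_assoc]
    refine (mul_le_mul_of_nonneg_right (le_abs_self _) (by positivity)).trans ?_
    gcongr
    exact_mod_cast l1
  have b3 : C₁ * Δ ^ 36 * X * lg X ^ (θ / 2) ≤
      C₁ * (D ^ 36 * ((36 / (θ / 2)) ^ 36 * L ^ (θ / 2))) * X * (2 ^ (θ / 2) * L ^ (θ / 2)) := by
    have : 0 ≤ lg X ^ (θ / 2) := Real.rpow_nonneg (Real.log_nonneg (by linarith)) _
    rw [hΔ, mul_pow]
    gcongr
    exact_mod_cast l2
  refine (norm_add_le _ _).trans ((add_le_add b2 (b1.trans b3)).trans (le_of_eq ?_))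
  rw [← l4]; ring

end Pool.Agent.Q4
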