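import Pool.Agent.P.MP_ea46f5_nt.Q4.FW2B

/-! The mean square of pair forms: expansion, diagonal, flips. -/

namespace Pool.Agent.Q4

open Complex MeasureTheory Finset Pool.Agent.QM
open scoped Real

theorem ta_s1 (K : ℝ) (k : ℤ) : 3 / 4 ≤ s1 K k ∧ s1 K k ≤ 6 := by
  unfold s1 sk
  split_ifs <;> norm_num

theorem ta_sg (K : ℝ) : SG (s1 K) := by
  refine ⟨fun κ => ⟨by linarith [ta_s1 K κ], (ta_s1 K κ).2⟩, max K 1, fun κ h => ?_⟩
  have h1 : κ ≠ 1 := by
    rintro rfl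
    simp at h
  rw [s1, if_neg h1, sk, if_neg (not_le.2 ((le_max_left _ _).trans_lt h))]

theorem ta_pt (c t : R4) (j : Fin 4) : (pt c t j).re = c j ∧ (pt c t j).im = t j := by simp [pt]

theorem ta_cont (c : R4) : Continuous (pt c : R4 → V4) := by
  unfold pt
  fun_prop

theorem pTMa (hS : SH4) (hV : VDP) (hE : EX4) (hP : POG) (hB : PKB) (hW : W2B) : TMa := by
  intro κ t v κ' t' v' X K b F hκ hκ' hX hb
  obtain ⟨M, hM⟩ := w2_M hV hW hκ hκ' 2 t v t' v'
  have hD := hP X M (W2 κ t v κ' t' v') (s1 K) hX (ta_sg K)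
    ((w2_diff κ t v κ' t' v').continuous.comp (ta_cont _)) fun τ => by
      rw [← (hS.2.1 0 0 _).2.2.2.2]
      exact hM _ fun j => by rw [(ta_pt _ _ j).1]; norm_num [cs]
  obtain ⟨hs, hsum⟩ := hE _ _ _ _ _ hD
  have ht : ∀ m : ℤ, In (cs 12) (fun u => (GX X m : ℂ) * W2 κ t v κ' t' v' u * LL m u) =
      ((GX X m * ‖Bm κ t v κ' t' v' m‖ ^ 2 : ℝ) : ℂ) := fun m => by
    rw [ofReal_mul, ← (hB κ t κ' t' hκ hκ').1 v v' m]
    simp only [In, mul_assoc, integral_const_mul]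
  simp only [ht] at hs hsum
  rw [← ofReal_tsum] at hsum
  have h0 : ∀ m, 0 ≤ GX X m * ‖Bm κ t v κ' t' v' m‖ ^ 2 := fun m => by unfold GX; positivity
  have h1 := (summable_ofReal.1 hs).sum_le_tsum F fun m _ => h0 m
  have h2 := le_of_tendsto' hsum.norm
    (b := ‖Yk 1 (KG X (W2 κ t v κ' t' v')) (3 / 4) 1‖ + b) fun s => by
      refine (norm_sum_le _ _).trans ?_
      have e := sum_map s (Function.Embedding.subtype _)
        fun k => ‖Yk 1 (KG X (W2 κ t v κ' t' v')) (s1 K k) k‖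
      simp only [Function.Embedding.coe_subtype] at e
      rw [← e]
      set G := s.map (Function.Embedding.subtype _)
      have h3 := hb (G.erase 1) fun k hk => by
        obtain ⟨x, -, rfl⟩ := mem_map.1 (mem_of_mem_erase hk)
        exact ⟨x.2, ne_of_mem_erase hk⟩
      calc _ ≤ ∑ k ∈ insert 1 (G.erase 1), ‖Yk 1 (KG X (W2 κ t v κ' t' v')) (s1 K k) k‖ :=
            sum_le_sum_of_subset_of_nonneg (subset_insert_iff.2 subset_rfl)
              fun _ _ _ => norm_nonneg _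
        _ ≤ _ := by
            rw [sum_insert (notMem_erase _ _), s1, if_pos rfl]
            gcongr
  refine h1.trans ((re_le_norm (_ : ℝ)).trans ?_)
  rw [add_assoc]
  exact (norm_le_norm_add_norm_sub' _ _).trans (add_le_add le_rfl h2)

/-- The integral against the Cauchy majorant. -/
theorem tb_int (hT : TC4) : ∃ C : ℝ, 0 < C ∧ ∀ (L E M D v v' : ℝ) (n : ℕ) (c s T : R4)
    (Z Q P f : V4 → ℂ), 100 ≤ L → 0 ≤ E → 0 ≤ D → 0 ≤ M → v ≤ L → v' ≤ L →
    (∀ j, s j = 1 ∨ s j = -1) → (∀ j, 0 ≤ c j) → ∑ j, c j ≤ 10 / L →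
    (∀ τ, f (pt c τ) = Z (pt c τ) * Q (pt c τ) * P (pt c τ) ∧ ‖P (pt c τ)‖ ≤ M ∧
      ‖Z (pt c τ)‖ ≤ D * gn n (pt c τ) * cm (1 / L) s τ ∧
      ‖Q (pt c τ)‖ * gn n (pt c τ) ≤ E * Real.exp (v * ((pt c τ 0).re + (pt c τ 2).re) +
        v' * ((pt c τ 1).re + (pt c τ 3).re)) * ∏ j, Real.exp (-|(pt c τ j).im - T j|)) →
    ‖In c f‖ ≤ C * D * M * E * Real.log L ^ 2 := by
  obtain ⟨C, hC, h⟩ := hT
  refine ⟨Real.exp 10 * C, by positivity,
    fun L E M D v v' n c s T Z Q P f hL hE hD hM hv hv' hs hc hc' hf => ?_⟩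
  have hL0 : 0 < L := by linarith
  obtain ⟨hi, hb⟩ := h (1 / L) T s (by positivity) (one_div_le_one_div_of_le (by norm_num) hL) hs
  rw [one_div_one_div] at hb
  have he : v * (c 0 + c 2) + v' * (c 1 + c 3) ≤ 10 := by
    rw [Fin.sum_univ_four, le_div_iff₀ hL0] at hc'
    nlinarith [hc 0, hc 1, hc 2, hc 3]
  refine (norm_integral_le_of_norm_le (hi.const_mul (D * M * E * Real.exp 10))
    (ae_of_all _ fun τ => ?_)).trans ?_
  · obtain ⟨e, a1, a2, a3⟩ := hf τ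
    simp only [(ta_pt c τ _).1, (ta_pt c τ _).2] at a3
    have hm : 0 ≤ cm (1 / L) s τ := by unfold cm; positivity
    have hg : 0 ≤ gn n (pt c τ) := by rw [w_gn]; exact pow_nonneg (by linarith [w_g1 (pt c τ)]) _
    rw [e, norm_mul, norm_mul]
    calc _ ≤ D * gn n (pt c τ) * cm (1 / L) s τ * ‖Q (pt c τ)‖ * M := by gcongr
      _ = D * M * cm (1 / L) s τ * (‖Q (pt c τ)‖ * gn n (pt c τ)) := by ring
      _ ≤ D * M * cm (1 / L) s τ * (E * Real.exp 10 * ∏ j, Real.exp (-|τ j - T j|)) := by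
          refine mul_le_mul_of_nonneg_left (a3.trans ?_) (by positivity)
          gcongr
      _ = _ := by ring
  · rw [integral_const_mul]
    calc _ ≤ D * M * E * Real.exp 10 * (C * Real.log L ^ 2) := by gcongr
      _ = _ := by ring

theorem tb_sub {ε : ℝ} (h : 0 ≤ ε) {u : V4} (hu : u ∈ Bx ε 12) : u ∈ Bx 0 12 :=
  fun j => ⟨h.trans (hu j).1, (hu j).2⟩

theorem pTMb1 (hV : VDP) (hT : TC4) (hH : HB4) (hD : DG) (hW : W2B) (hC : CAU) : TMb1 := by
  intro κ κ' hκ hκ'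
  obtain ⟨C₁, h₁, hT⟩ := tb_int hT
  obtain ⟨C₂, B, h₂, hH⟩ := hH
  obtain ⟨n₀, hD⟩ := hD
  obtain ⟨C₃, n, h₃, hC⟩ := hC
  obtain ⟨A, C₄, h₄, h⟩ := w2_all hV hW hκ hκ' n
  refine ⟨A, C₁ * C₃ * C₂ * C₄, by positivity, fun t v t' v' X hX hL hv hv' => ?_⟩
  obtain ⟨Q, -, hid, hb⟩ := h t v t' v'
  obtain ⟨M, hM⟩ := w2_M hV hW hκ hκ' n₀ t v t' v'
  have hX0 : 0 < X := by linarith
  have hL0 : 0 < Real.log X := by linarith
  have he : 0 < 1 / Real.log X := by positivity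
  have he1 := one_div_le_one_div_of_le (by norm_num) hL
  have c := tc_br1 t
  have c' := tc_br1 t'
  rw [hD 1 (fun u => X * W2 κ t v κ' t' v' u) (1 / Real.log X) (X * M) he (by linarith)
    (fun u _ => (w2_diff κ t v κ' t' v' u).const_mul _) fun u hu => by
      rw [norm_mul, norm_real, Real.norm_of_nonneg hX0.le, mul_assoc]
      gcongr
      exact hM u (tb_sub he.le hu)]
  refine (hT (Real.log X) (C₄ * br t ^ A * br t' ^ A) (X * C₂) C₃ v v' n _ (cs 1) ![t, t', -t, -t']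
    (fun u => an u * (∏ j, u j) * ZO u) (fun u => Q u * hf u) (fun u => X * Hone 1 0 u) _ hL
    (by positivity) h₃.le (by positivity) ((Real.le_log_iff_exp_le hX0).2 hv)
    ((Real.le_log_iff_exp_le hX0).2 hv') (fun _ => Or.inl rfl) (fun _ => he.le)
    (by simp only [Fin.sum_univ_four]; rw [div_eq_mul_one_div 10]; linarith)
    fun τ => ⟨?_, ?_, (hC _ τ he he1).1, (hb _ fun j => ?_).1⟩).trans_eq (by ring)
  · rw [hid]; ring
  · have := (hH 1).2.2.1 (0, pt (cs (1 / Real.log X)) τ)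
      ⟨by norm_num, by norm_num, fun j => by
        simp only [sub_zero, (ta_pt _ _ j).1, cs]; constructor <;> linarith⟩
    rw [norm_mul, norm_real, Real.norm_of_nonneg hX0.le]
    simp only [Nat.cast_one, one_pow, mul_one] at this
    exact mul_le_mul_of_nonneg_left this hX0.le
  · simp only [(ta_pt _ _ j).1, cs]; constructor <;> linarith

end Pool.Agent.Q4
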