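import Pool.Agent.P.MP_ea46f5_nt.Q4.FSDn

/-! Several simple poles, Fubini on `ℝ × ℝⁿ`, holomorphy of `In` in a parameter. -/

namespace Pool.Agent.Q4

open Complex MeasureTheory Finset
open scoped Real
open Pool.Agent.QM

theorem k1_pf {n : ℕ} (u : Fin (n + 1) → ℂ) (hu : Function.Injective u) {z : ℂ}
    (hz : ∀ j, z ≠ u j) :
    (∏ j, (z - u j))⁻¹ = ∑ i, (∏ j ∈ univ.erase i, (u i - u j))⁻¹ * (z - u i)⁻¹ := by
  have h := Lagrange.eval_interpolate_not_at_node (s := univ) (v := u) 1 (fun i _ => hz i)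
  rw [Lagrange.interpolate_one hu.injOn univ_nonempty, Polynomial.eval_one,
    Lagrange.eval_nodal] at h
  refine inv_eq_of_mul_eq_one_right (h.symm ▸ ?_)
  simp only [Lagrange.nodalWeight, prod_inv_distrib, Pi.one_apply, mul_one]

theorem k1_pole_int {a b c C : ℝ} {f : ℂ → ℂ} {w : ℂ} (h1 : a ≤ c) (h2 : c ≤ b) (hw : c ≠ w.re)
    (hf : Nice a b f) (hm : ∀ s ∈ Strip a b, ‖f s‖ ≤ C / br s.im) :
    Integrable fun t : ℝ => f (c + t * I) / (c + t * I - w) := by
  have hρ : 0 < |c - w.re| := abs_pos.2 (sub_ne_zero.2 hw)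
  have hn : ∀ t : ℝ, |c - w.re| ≤ ‖(c + t * I : ℂ) - w‖ := fun t => by
    simpa using abs_re_le_norm ((c + t * I : ℂ) - w)
  refine sh_int (c := c) (C := C * (br w.im / |c - w.re| + 1)) (f := fun s => f s / (s - w))
    ((sh_line hf.1 fun t => sh_mem t h1 h2).div (by fun_prop) fun t =>
      norm_pos_iff.1 (hρ.trans_le (hn t))) fun t => ?_
  have g1 := hm _ (sh_mem t h1 h2)
  have g2 := sh_inv_le hρ (hn t)
  have e : (c + t * I : ℂ).im = t := by simp
  rw [e] at g1 g2
  rw [norm_div, div_eq_mul_one_div]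
  refine (mul_le_mul g1 g2 (by positivity) ((norm_nonneg _).trans g1)).trans (le_of_eq ?_)
  have := sh_br_pos t
  field_simp

/-- Several simple poles. -/
theorem k1_SHP {n : ℕ} {a b C : ℝ} {f : ℂ → ℂ} (u : Fin (n + 1) → ℂ) (hu : Function.Injective u)
    (ha : ∀ j, a < (u j).re) (hb : ∀ j, (u j).re < b) (hf : Nice a b f)
    (hm : ∀ s ∈ Strip a b, ‖f s‖ ≤ C / br s.im) :
    Iv b (fun z => f z / ∏ j, (z - u j)) = Iv a (fun z => f z / ∏ j, (z - u j)) +
      2 * π * ∑ i, f (u i) / ∏ j ∈ univ.erase i, (u i - u j) := by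
  have hab : a ≤ b := ((ha 0).trans (hb 0)).le
  have key : ∀ c : ℝ, a ≤ c → c ≤ b → (∀ j, c ≠ (u j).re) →
      Iv c (fun z => f z / ∏ j, (z - u j)) =
        ∑ i, (∏ j ∈ univ.erase i, (u i - u j))⁻¹ * Iv c fun z => f z / (z - u i) := by
    intro c h1 h2 h3
    unfold Iv
    simp only [← integral_const_mul]
    rw [← integral_finsetSum _ fun i _ => (k1_pole_int h1 h2 (h3 i) hf hm).const_mul _]
    refine integral_congr_ae (.of_forall fun t => ?_)
    have hz : ∀ j, (c + t * I : ℂ) ≠ u j := fun j h => h3 j (by simpa using congrArg re h)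
    simp only [div_eq_mul_inv, k1_pf u hu hz, mul_sum]
    exact sum_congr rfl fun i _ => by ring
  rw [key b hab le_rfl fun j => (hb j).ne', key a le_rfl hab fun j => (ha j).ne, mul_sum,
    ← sum_add_distrib]
  refine sum_congr rfl fun i _ => ?_
  rw [pSH1 a b C f (u i) (ha i) (hb i) hf hm]
  ring

/-- Fubini on `ℝ × ℝⁿ`. -/
theorem k1_FUB {n : ℕ} {σ C : ℝ} {c : Fin n → ℝ} {F : ℂ → (Fin n → ℂ) → ℂ}
    (hc : Continuous fun x : ℝ × (Fin n → ℝ) => F (σ + x.1 * I) (pt c x.2))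
    (hb : ∀ (y : ℝ) (t : Fin n → ℝ), ‖F (σ + y * I) (pt c t)‖ ≤ C / br y ^ 2 * dk (pt c t)) :
    (Iv σ fun z => In c (F z)) = In c (fun u => Iv σ fun z => F z u) ∧
      (Integrable fun t => Iv σ fun z => F z (pt c t)) ∧
      (Integrable fun y : ℝ => In c (F (σ + y * I))) ∧
      ‖In c fun u => Iv σ fun z => F z u‖ ≤ C * 2 ^ (n + 1) := by
  have hC : 0 ≤ C := by
    have h := nonneg_of_mul_nonneg_left ((norm_nonneg _).trans (hb 0 0)) (dk_pos _)
    simpa [br] using h
  simp only [dk_pt] at hb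
  have hi : Integrable (fun x : ℝ × (Fin n → ℝ) => F (σ + x.1 * I) (pt c x.2))
      (volume.prod volume) :=
    ((sh_int_maj C).mul_prod dk_int).mono' hc.aestronglyMeasurable (.of_forall fun x => hb x.1 x.2)
  refine ⟨integral_integral_swap hi, hi.integral_prod_right, hi.integral_prod_left, ?_⟩
  have h1 : ∀ t : Fin n → ℝ, ‖Iv σ fun z => F z (pt c t)‖ ≤ C * 2 * ∏ i, 1 / br (t i) ^ 2 := by
    intro t
    refine (norm_integral_le_of_norm_le ((sh_int_maj C).mul_const _)
      (.of_forall fun y => hb y t)).trans ?_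
    rw [integral_mul_const]
    refine mul_le_mul_of_nonneg_right ?_ (prod_nonneg fun i _ => by positivity)
    simp only [div_eq_mul_one_div C]
    rw [integral_const_mul]
    exact mul_le_mul_of_nonneg_left pDEC.2.2.2.1.2 hC
  refine (norm_integral_le_of_norm_le (dk_int.const_mul _) (.of_forall h1)).trans ?_
  rw [integral_const_mul, pow_succ']
  rw [← mul_assoc]
  exact mul_le_mul_of_nonneg_left dk_integral (by positivity)

end Pool.Agent.Q4
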