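import Pool.Agent.P.MP_ea46f5_nt.Q4.K1a

/-! The contour shifts for the term `k = 1`. -/

namespace Pool.Agent.Q4

open Complex MeasureTheory Finset
open scoped Real
open Pool.Agent.QM

def K1U (e : ℝ) (z : ℂ) (u : Fin 4 → ℂ) : Prop :=
  e / 2 ≤ z.re ∧ z.re ≤ 3 / 4 ∧ ∀ j, e ≤ (u j).re ∧ (u j).re ≤ 12 ∧ -(9 / 20) < (u j).re - z.re

def K1D (e : ℝ) (Θ : ℂ → (Fin 4 → ℂ) → ℂ) : Prop :=
  ∀ z u, K1U e z u → DifferentiableAt ℂ (fun x : ℂ × (Fin 4 → ℂ) => Θ x.1 x.2) (z, u)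

noncomputable def K1F (Θ : ℂ → (Fin 4 → ℂ) → ℂ) (z : ℂ) (u : Fin 4 → ℂ) : ℂ :=
  Θ z u / ((z - 1 / 2) * ∏ j, (u j - z))

variable {e A : ℝ} {Θ : ℂ → (Fin 4 → ℂ) → ℂ}

theorem K1D.dz (h : K1D e Θ) {z : ℂ} {u : Fin 4 → ℂ} (hU : K1U e z u) :
    DifferentiableAt ℂ (fun w => Θ w u) z :=
  (h z u hU).comp z (f := fun w => (w, u)) (by fun_prop)

theorem K1D.du (h : K1D e Θ) {z : ℂ} {u : Fin 4 → ℂ} (hU : K1U e z u) :
    DifferentiableAt ℂ (Θ z) u :=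
  (h z u hU).comp u (f := fun w => (z, w)) (by fun_prop)

theorem k1_sep {n : ℕ} {U : Set (Fin n → ℂ)} {G : (Fin n → ℂ) → ℂ}
    (h : ∀ s ∈ U, DifferentiableAt ℂ G s) : Sep U G := by
  refine ⟨fun s hs => (h s hs).continuousAt.continuousWithinAt, fun s hs i => ?_⟩
  have h1 : DifferentiableAt ℂ G (Function.update s i (s i)) := by
    rw [Function.update_eq_self]; exact h s hs
  exact h1.comp (s i) (hasFDerivAt_update s (s i)).differentiableAt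

theorem k1_ddiv {E : Type*} [NormedAddCommGroup E] [NormedSpace ℂ E] {f g : E → ℂ} {x : E}
    (hf : DifferentiableAt ℂ f x) (hg : DifferentiableAt ℂ g x) (h : g x ≠ 0) :
    DifferentiableAt ℂ (fun y => f y / g y) x := by
  simp only [div_eq_mul_inv]
  exact hf.mul (hg.inv h)

theorem k1_ne {z : ℂ} {u : Fin 4 → ℂ} {m : ℝ} (hm : 0 < m) (h1 : ∀ j, m ≤ |(u j).re - z.re|)
    (h2 : 1 / 4 ≤ |z.re - 1 / 2|) : m ^ 4 / 4 ≤ ‖(z - 1 / 2) * ∏ j, (u j - z)‖ := by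
  have g1 : m ^ 4 ≤ ‖∏ j, (u j - z)‖ := by
    rw [norm_prod]
    calc m ^ 4 = ∏ _j : Fin 4, m := by simp
      _ ≤ _ := prod_le_prod (fun _ _ => hm.le) fun j _ =>
        (h1 j).trans (by simpa using abs_re_le_norm (u j - z))
  have g2 : 1 / 4 ≤ ‖z - 1 / 2‖ := h2.trans (by simpa using abs_re_le_norm (z - 1 / 2))
  rw [norm_mul]
  calc m ^ 4 / 4 = 1 / 4 * m ^ 4 := by ring
    _ ≤ _ := mul_le_mul g2 g1 (by positivity) (norm_nonneg _)

theorem k1_Fbd {z : ℂ} {u : Fin 4 → ℂ} {m : ℝ} (hm : 0 < m) (h1 : ∀ j, m ≤ |(u j).re - z.re|)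
    (h2 : 1 / 4 ≤ |z.re - 1 / 2|) (hb : ‖Θ z u‖ ≤ A / br z.im ^ 2 * dk u) :
    ‖K1F Θ z u‖ ≤ 4 / m ^ 4 * A / br z.im ^ 2 * dk u := by
  rw [K1F, norm_div]
  refine (div_le_div₀ ((norm_nonneg _).trans hb) hb (by positivity) (k1_ne hm h1 h2)).trans
    (le_of_eq ?_)
  field_simp

theorem k1_fub (hd : K1D e Θ) {σ m : ℝ} {c : Fin 4 → ℝ} (hm : 0 < m) (g1 : e / 2 ≤ σ)
    (g2 : σ ≤ 3 / 4) (g3 : ∀ j, e ≤ c j ∧ c j ≤ 12 ∧ -(9 / 20) < c j - σ)
    (h1 : ∀ j, m ≤ |c j - σ|) (h2 : 1 / 4 ≤ |σ - 1 / 2|)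
    (hb : ∀ z u, K1U e z u → z.re = σ → (∀ j, (u j).re = c j) → ‖Θ z u‖ ≤ A / br z.im ^ 2 * dk u) :
    (Iv σ fun z => In c (K1F Θ z)) = In c (fun u => Iv σ fun z => K1F Θ z u) ∧
      (Integrable fun t => Iv σ fun z => K1F Θ z (pt c t)) ∧
      (Integrable fun y : ℝ => In c (K1F Θ (σ + y * I))) ∧
      ‖In c fun u => Iv σ fun z => K1F Θ z u‖ ≤ 4 / m ^ 4 * A * 2 ^ (4 + 1) := by
  have hU : ∀ (y : ℝ) (t : Fin 4 → ℝ), K1U e (σ + y * I) (pt c t) := fun y t => by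
    simpa [K1U, pt_re] using ⟨g1, g2, by simpa using g3⟩
  have hre : ∀ y : ℝ, (σ + y * I : ℂ).re = σ := fun y => by simp
  have him : ∀ y : ℝ, (σ + y * I : ℂ).im = y := fun y => by simp
  have a1 : ∀ (y : ℝ) (t : Fin 4 → ℝ) (j), m ≤ |(pt c t j).re - (σ + y * I : ℂ).re| :=
    fun y t j => by rw [pt_re, hre]; exact h1 j
  have a2 : ∀ y : ℝ, 1 / 4 ≤ |(σ + y * I : ℂ).re - 1 / 2| := fun y => by rw [hre]; exact h2
  refine k1_FUB (Continuous.div ?_ (by unfold pt; fun_prop) fun x => ?_) fun y t => ?_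
  · refine continuous_iff_continuousAt.2 fun x => ?_
    exact ContinuousAt.comp (f := fun x : ℝ × (Fin 4 → ℝ) => ((σ + x.1 * I : ℂ), pt c x.2))
      (hd _ _ (hU x.1 x.2)).continuousAt (by unfold pt; fun_prop)
  · exact norm_pos_iff.1 (lt_of_lt_of_le (by positivity) (k1_ne hm (a1 x.1 x.2) (a2 x.1)))
  · have := k1_Fbd hm (a1 y t) (a2 y) (hb _ _ (hU y t) (hre y) (pt_re c t))
    rwa [him] at this

theorem k1_wk {x A' : ℝ} {s : ℂ} {u : Fin 4 → ℂ} (hA : 0 ≤ A') (h : x ≤ A' / br s.im ^ 2 * dk u) :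
    x ≤ A' / br s.im := by
  have h0 := sh_br_pos s.im
  refine h.trans ((mul_le_of_le_one_right (by positivity) (dk_le_one u)).trans ?_)
  exact div_le_div_of_nonneg_left hA h0 (by nlinarith [sh_br_one s.im])

theorem k1_In_add {n : ℕ} {c : Fin n → ℝ} {G H : (Fin n → ℂ) → ℂ}
    (hG : Integrable fun t => G (pt c t)) (hH : Integrable fun t => H (pt c t)) :
    In c (fun u => G u + H u) = In c G + In c H := integral_add hG hH

theorem k1_In_congr {n : ℕ} {c : Fin n → ℝ} {G H : (Fin n → ℂ) → ℂ}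
    (h : ∀ u : Fin n → ℂ, (∀ j, (u j).re = c j) → G u = H u) : In c G = In c H :=
  integral_congr_ae (.of_forall fun t => h _ (pt_re c t))

/-- Step (a): the pole at `z = 1 / 2`. -/
theorem k1_a (he : 0 < e) (he' : e ≤ 1 / 20) (hd : K1D e Θ)
    (hb : ∀ z u, K1U e z u → ‖Θ z u‖ ≤ A / br z.im ^ 2 * dk u) (hA : 0 ≤ A) :
    (Iv (3 / 4) fun z => In (fun _ => 12) (K1F Θ z)) =
      (Iv (e / 2) fun z => In (fun _ => 12) (K1F Θ z)) +
        2 * π * In (fun _ => 12) fun u => Θ (1 / 2) u / ∏ j, (u j - 1 / 2) := by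
  obtain ⟨a1, a2, -⟩ := k1_fub hd (σ := 3 / 4) (c := fun _ => 12) one_pos (by linarith) le_rfl
    (fun _ => ⟨by linarith, le_rfl, by norm_num⟩) (fun _ => by norm_num [abs_of_pos])
    (by norm_num [abs_of_pos]) fun z u h _ _ => hb z u h
  obtain ⟨b1, b2, -⟩ := k1_fub hd (σ := e / 2) (c := fun _ => 12) one_pos le_rfl (by linarith)
    (fun _ => ⟨by linarith, le_rfl, by linarith⟩) (fun _ => le_abs.2 (.inl (by linarith)))
    (le_abs.2 (.inr (by linarith))) fun z u h _ _ => hb z u h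
  have key : ∀ u : Fin 4 → ℂ, (∀ j, (u j).re = 12) → (Iv (3 / 4) fun z => K1F Θ z u) =
      (Iv (e / 2) fun z => K1F Θ z u) + 2 * π * (Θ (1 / 2) u / ∏ j, (u j - 1 / 2)) := by
    intro u hu
    have hU : ∀ s ∈ Strip (e / 2) (3 / 4), K1U e s u := fun s hs =>
      ⟨hs.1, hs.2, fun j => by rw [hu j]; exact ⟨by linarith, le_rfl, by linarith [hs.2]⟩⟩
    have h1 : ∀ s ∈ Strip (e / 2) (3 / 4), 1 ≤ ‖∏ j, (u j - s)‖ := fun s hs => by
      rw [norm_prod]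
      refine one_le_prod fun j _ => le_trans ?_ (re_le_norm _)
      rw [sub_re, hu j]; linarith [hs.2]
    have hD : ∀ s ∈ Strip (e / 2) (3 / 4),
        DifferentiableAt ℂ (fun z => Θ z u / ∏ j, (u j - z)) s := fun s hs =>
      (hd.dz (hU s hs)).div (by fun_prop) (norm_pos_iff.1 (one_pos.trans_le (h1 s hs)))
    have := pSH1 (e / 2) (3 / 4) A (fun z => Θ z u / ∏ j, (u j - z)) (1 / 2)
      (by norm_num; linarith) (by norm_num)
      ⟨fun s hs => (hD s hs).continuousAt.continuousWithinAt,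
        fun s hs => (hD s ⟨hs.1.le, hs.2.le⟩).differentiableWithinAt⟩ fun s hs => by
        rw [norm_div]
        exact (div_le_self (norm_nonneg _) (h1 s hs)).trans (k1_wk hA (hb _ _ (hU s hs)))
    simpa only [K1F, div_div, mul_comm] using this
  have c2 : Integrable fun t => 2 * π * (Θ (1 / 2) (pt (fun _ => 12) t) /
      ∏ j, (pt (fun _ : Fin 4 => 12) t j - 1 / 2)) :=
    (a2.sub b2).congr (.of_forall fun t => by
      simp only [Pi.sub_apply]; rw [key _ (pt_re _ t)]; ring)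
  rw [a1, b1, k1_In_congr key, k1_In_add b2 c2]
  congr 1
  exact integral_const_mul _ _

/-- Step (c). -/
theorem k1_c (he : 0 < e) (he' : e ≤ 1 / 20) (hd : K1D e Θ)
    (hb : ∀ z u, K1U e z u → ‖Θ z u‖ ≤ A / br z.im ^ 2 * dk u) {ρ : Fin 4 → ℝ}
    (hρ : ∀ j, e ≤ ρ j ∧ ρ j ≤ 4 * e) {z : ℂ} (hz : z.re = e / 2) :
    In (fun _ => 12) (K1F Θ z) = In ρ (K1F Θ z) := by
  have hU : ∀ u ∈ Box (fun _ : Fin 4 => e) fun _ => 12, K1U e z u := fun u hu =>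
    ⟨hz.ge, by linarith, fun j => ⟨(hu j).1, (hu j).2, by linarith [(hu j).1]⟩⟩
  have h1 : ∀ u ∈ Box (fun _ : Fin 4 => e) fun _ => 12, ∀ j, e / 2 ≤ |(u j).re - z.re| :=
    fun u hu j => le_abs.2 (.inl (by linarith [(hu j).1]))
  have h2 : 1 / 4 ≤ |z.re - 1 / 2| := le_abs.2 (.inr (by linarith))
  refine pSDn 4 (fun _ => e) (fun _ => 12) _ _ (4 / (e / 2) ^ 4 * A / br z.im ^ 2) _
    (fun _ => ⟨by linarith, le_rfl⟩) (fun j => ⟨(hρ j).1, by linarith [(hρ j).2]⟩)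
    (k1_sep fun u hu => ?_) fun u hu => k1_Fbd (by positivity) (h1 u hu) h2 (hb _ _ (hU u hu))
  exact k1_ddiv (hd.du (hU u hu)) (by fun_prop) (norm_pos_iff.1
    (lt_of_lt_of_le (by positivity) (k1_ne (m := e / 2) (by positivity) (h1 u hu) h2)))

noncomputable def K1R (Θ : ℂ → (Fin 4 → ℂ) → ℂ) (i : Fin 4) (u : Fin 4 → ℂ) : ℂ :=
  Θ (u i) u / ((u i - 1 / 2) * ∏ j ∈ univ.erase i, (u j - u i))

/-- Step (d), for fixed `u`. -/
theorem k1_d (he : 0 < e) (he' : e ≤ 1 / 20) (hd : K1D e Θ)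
    (hb : ∀ z u, K1U e z u → ‖Θ z u‖ ≤ A / br z.im ^ 2 * dk u) (hA : 0 ≤ A) {ρ : Fin 4 → ℝ}
    (hi : Function.Injective ρ) (hρ : ∀ j, e ≤ ρ j ∧ ρ j ≤ 4 * e) (u : Fin 4 → ℂ)
    (hu : ∀ j, (u j).re = ρ j) : (Iv (e / 2) fun z => K1F Θ z u) =
      (Iv (1 / 4) fun z => K1F Θ z u) + 2 * π * ∑ i, K1R Θ i u := by
  have hU : ∀ s ∈ Strip (e / 2) (1 / 4), K1U e s u := fun s hs =>
    ⟨hs.1, by linarith [hs.2], fun j => by
      rw [hu j]; exact ⟨(hρ j).1, by linarith [(hρ j).2], by linarith [hs.2, (hρ j).1]⟩⟩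
  have h1 : ∀ s ∈ Strip (e / 2) (1 / 4), 1 / 4 ≤ ‖s - 1 / 2‖ := fun s hs => by
    rw [norm_sub_rev]
    refine le_trans ?_ (re_le_norm _)
    norm_num; linarith [hs.2]
  have hD : ∀ s ∈ Strip (e / 2) (1 / 4), DifferentiableAt ℂ (fun z => Θ z u / (z - 1 / 2)) s :=
    fun s hs => (hd.dz (hU s hs)).div (by fun_prop)
      (norm_pos_iff.1 (lt_of_lt_of_le (by norm_num) (h1 s hs)))
  have := k1_SHP (a := e / 2) (b := 1 / 4) (C := 4 * A) (f := fun z => Θ z u / (z - 1 / 2)) u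
    (fun i j h => hi (by rw [← hu, ← hu, h])) (fun j => by linarith [hu j, (hρ j).1])
    (fun j => by linarith [hu j, (hρ j).2])
    ⟨fun s hs => (hD s hs).continuousAt.continuousWithinAt,
      fun s hs => (hD s ⟨hs.1.le, hs.2.le⟩).differentiableWithinAt⟩ fun s hs => by
      have g := k1_wk hA (hb _ _ (hU s hs))
      rw [norm_div]
      refine (div_le_div₀ ((norm_nonneg _).trans g) g (by norm_num) (h1 s hs)).trans (le_of_eq ?_)
      ring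
  have e1 : ∀ z : ℂ, Θ z u / (z - 1 / 2) / ∏ j, (z - u j) = K1F Θ z u := fun z => by
    rw [K1F, div_div]
    congr 2
    simp only [Fin.prod_univ_four]; ring
  have e2 : ∀ i, Θ (u i) u / (u i - 1 / 2) / ∏ j ∈ univ.erase i, (u i - u j) = -K1R Θ i u := by
    intro i
    have : ∏ j ∈ univ.erase i, (u i - u j) = -∏ j ∈ univ.erase i, (u j - u i) := by
      simp only [← neg_sub (u _) (u i), prod_neg, card_erase_of_mem (mem_univ i), card_univ,
        Fintype.card_fin]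
      norm_num
    rw [K1R, this, div_neg, div_div]
  simp only [e1, e2, sum_neg_distrib] at this
  linear_combination -this

theorem k1_Rint (he : 0 < e) (he' : e ≤ 1 / 20) (hd : K1D e Θ)
    (hb : ∀ z u, K1U e z u → ‖Θ z u‖ ≤ A / br z.im ^ 2 * dk u) (hA : 0 ≤ A) {ρ : Fin 4 → ℝ}
    (hi : Function.Injective ρ) (hρ : ∀ j, e ≤ ρ j ∧ ρ j ≤ 4 * e) (i : Fin 4) :
    Integrable fun t => K1R Θ i (pt ρ t) := by
  have hU : ∀ t, K1U e (pt ρ t i) (pt ρ t) := fun t => by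
    simp only [K1U, pt_re]
    exact ⟨by linarith [(hρ i).1], by linarith [(hρ i).2], fun j =>
      ⟨(hρ j).1, by linarith [(hρ j).2], by linarith [(hρ j).1, (hρ i).2]⟩⟩
  set m : ℝ := 1 / 4 * ∏ j ∈ univ.erase i, |ρ j - ρ i| with hm
  have hm0 : 0 < m := mul_pos (by norm_num) (prod_pos fun j hj =>
    abs_pos.2 (sub_ne_zero.2 fun h => (mem_erase.1 hj).1 (hi h)))
  have h1 : ∀ t, m ≤ ‖(pt ρ t i - 1 / 2) * ∏ j ∈ univ.erase i, (pt ρ t j - pt ρ t i)‖ := by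
    intro t
    rw [norm_mul, norm_prod]
    refine mul_le_mul ?_ (prod_le_prod (fun _ _ => abs_nonneg _) fun j _ => ?_)
      (prod_nonneg fun _ _ => abs_nonneg _) (norm_nonneg _)
    · rw [norm_sub_rev]
      refine le_trans ?_ (re_le_norm _)
      norm_num [pt_re]; linarith [(hρ i).2]
    · simpa only [sub_re, pt_re] using abs_re_le_norm (pt ρ t j - pt ρ t i)
  refine (pINB 4 ρ (A / m) _ (Continuous.div ?_ (by unfold pt; fun_prop) fun t =>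
    norm_pos_iff.1 (hm0.trans_le (h1 t))) fun t => ?_).1
  · refine continuous_iff_continuousAt.2 fun t => ?_
    exact ContinuousAt.comp (f := fun t => (pt ρ t i, pt ρ t)) (hd _ _ (hU t)).continuousAt
      (by unfold pt; fun_prop)
  · have g : ‖Θ (pt ρ t i) (pt ρ t)‖ ≤ A * dk (pt ρ t) := (hb _ _ (hU t)).trans
      (mul_le_mul_of_nonneg_right (div_le_self hA (one_le_pow₀ (sh_br_one _))) (dk_pos _).le)
    rw [K1R, norm_div]
    exact (div_le_div₀ ((norm_nonneg _).trans g) g hm0 (h1 t)).trans (le_of_eq (by ring))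

/-- All shifts. -/
theorem k1_shift (he : 0 < e) (he' : e ≤ 1 / 20) (hd : K1D e Θ)
    (hb : ∀ z u, K1U e z u → ‖Θ z u‖ ≤ A / br z.im ^ 2 * dk u) (hA : 0 ≤ A) {ρ : Fin 4 → ℝ}
    (hi : Function.Injective ρ) (hρ : ∀ j, e ≤ ρ j ∧ ρ j ≤ 4 * e) :
    (Iv (3 / 4) fun z => In (fun _ => 12) (K1F Θ z)) =
      (In ρ fun u => Iv (1 / 4) fun z => K1F Θ z u) + 2 * π * ∑ i, In ρ (K1R Θ i) +
        2 * π * In (fun _ => 12) fun u => Θ (1 / 2) u / ∏ j, (u j - 1 / 2) := by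
  obtain ⟨b1, -⟩ := k1_fub hd (σ := e / 2) (c := ρ) (m := e / 2) (by positivity) le_rfl
    (by linarith) (fun j => ⟨(hρ j).1, by linarith [(hρ j).2], by linarith [(hρ j).1]⟩)
    (fun j => le_abs.2 (.inl (by linarith [(hρ j).1]))) (le_abs.2 (.inr (by linarith)))
    fun z u h _ _ => hb z u h
  obtain ⟨-, c2, -⟩ := k1_fub hd (σ := 1 / 4) (c := ρ) (m := 1 / 20) (by norm_num) (by linarith)
    (by norm_num) (fun j => ⟨(hρ j).1, by linarith [(hρ j).2], by linarith [(hρ j).1]⟩)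
    (fun j => le_abs.2 (.inr (by linarith [(hρ j).2]))) (le_abs.2 (.inr (by linarith)))
    fun z u h _ _ => hb z u h
  have hR := k1_Rint he he' hd hb hA hi hρ
  have e1 : (Iv (e / 2) fun z => In (fun _ => 12) (K1F Θ z)) =
      Iv (e / 2) fun z => In ρ (K1F Θ z) :=
    integral_congr_ae (.of_forall fun y => k1_c he he' hd hb hρ (by simp))
  rw [k1_a he he' hd hb hA, e1, b1, k1_In_congr (k1_d he he' hd hb hA hi hρ),
    k1_In_add c2 ((integrable_finsetSum _ fun i _ => hR i).const_mul _)]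
  congr 2
  unfold In
  rw [integral_const_mul, integral_finsetSum _ fun i _ => hR i]

theorem k1_Pbd {u : Fin 4 → ℂ} (h : ∀ j, 0 ≤ (u j).re ∧ (u j).re ≤ 12) :
    dk u * ‖∏ j, (u j - 1 / 2)‖ ≤ 12 ^ 4 := by
  rw [dk, norm_prod, ← prod_mul_distrib]
  calc _ ≤ ∏ _j : Fin 4, (12 : ℝ) := prod_le_prod (fun _ _ => by positivity) fun j _ => ?_
    _ = _ := by simp
  have h1 := norm_le_abs_re_add_abs_im (u j - 1 / 2)
  have h2 : |(u j - 1 / 2).re| ≤ 12 := by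
    rw [abs_le]; norm_num; constructor <;> linarith [(h j).1, (h j).2]
  have h3 : (u j - 1 / 2).im = (u j).im := by simp
  rw [h3] at h1
  rw [one_div_mul_eq_div, div_le_iff₀ (pow_pos (sh_br_pos _) 2)]
  unfold br
  nlinarith [abs_nonneg (u j).im]

/-- The core of `K1`. -/
theorem k1_core {B X : ℝ} {Ψ : ℂ → (Fin 4 → ℂ) → ℂ} (he : 0 < e) (he' : e ≤ 1 / 20) (hX : 1 ≤ X)
    (hXe : X ^ e ≤ 3) (hB : 0 ≤ B) {ρ : Fin 4 → ℝ} (hi : Function.Injective ρ)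
    (hρ : ∀ j, e ≤ ρ j ∧ ρ j ≤ 4 * e) (hd : K1D e Ψ)
    (hb : ∀ z u, K1U e z u →
      ‖Ψ z u‖ ≤ B * X ^ (1 - z.re + ∑ j, (u j).re) / br z.im ^ 2 * dk u ^ 2) :
    (∀ i, Integrable fun t => K1R (fun z u => Ψ z u * ∏ j, (u j - 1 / 2)) i (pt ρ t)) ∧
    ‖1 / (2 * π) * (Iv (3 / 4) fun z => In (fun _ => 12)
        (K1F (fun z u => Ψ z u * ∏ j, (u j - 1 / 2)) z)) -
      ∑ i, In ρ (K1R (fun z u => Ψ z u * ∏ j, (u j - 1 / 2)) i)‖ ≤
      10 ^ 20 * B * X ^ (9 / 10 : ℝ) := by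
  set Θ : ℂ → (Fin 4 → ℂ) → ℂ := fun z u => Ψ z u * ∏ j, (u j - 1 / 2) with hΘ
  have hX0 : 0 < X := by linarith
  have hdΘ : K1D e Θ := fun z u h => (hd z u h).mul (by fun_prop)
  have hbΘ : ∀ (x : ℝ) z u, K1U e z u → X ^ (1 - z.re + ∑ j, (u j).re) ≤ x →
      ‖Θ z u‖ ≤ 12 ^ 4 * B * x / br z.im ^ 2 * dk u := by
    intro x z u h hx
    have g := k1_Pbd (u := u) fun j => ⟨he.le.trans (h.2.2 j).1, (h.2.2 j).2.1⟩
    have g0 := dk_pos u
    have g1 := sh_br_pos z.im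
    have g2 : 0 ≤ x := le_trans (by positivity) hx
    calc ‖Θ z u‖ ≤ B * x / br z.im ^ 2 * dk u ^ 2 * ‖∏ j, (u j - 1 / 2)‖ := by
          rw [norm_mul]
          refine mul_le_mul_of_nonneg_right ((hb z u h).trans ?_) (norm_nonneg _)
          gcongr
      _ = B * x / br z.im ^ 2 * dk u * (dk u * ‖∏ j, (u j - 1 / 2)‖) := by ring
      _ ≤ B * x / br z.im ^ 2 * dk u * 12 ^ 4 := by gcongr
      _ = _ := by ring
  have hU49 : ∀ z u, K1U e z u → X ^ (1 - z.re + ∑ j, (u j).re) ≤ X ^ (49 : ℝ) := fun z u h => by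
    refine Real.rpow_le_rpow_of_exponent_le hX ?_
    rw [Fin.sum_univ_four]
    linarith [h.1, (h.2.2 0).2.1, (h.2.2 1).2.1, (h.2.2 2).2.1, (h.2.2 3).2.1]
  have h9 : 0 < X ^ (9 / 10 : ℝ) := by positivity
  obtain ⟨-, -, -, c4⟩ := k1_fub hdΘ (σ := 1 / 4) (c := ρ) (m := 1 / 20)
    (A := 12 ^ 4 * B * (3 ^ 16 * X ^ (9 / 10 : ℝ))) (by norm_num) (by linarith)
    (by norm_num) (fun j => ⟨(hρ j).1, by linarith [(hρ j).2], by linarith [(hρ j).1]⟩)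
    (fun j => le_abs.2 (.inr (by linarith [(hρ j).2]))) (le_abs.2 (.inr (by linarith)))
    fun z u h hz hu => hbΘ _ z u h (by
      calc _ ≤ X ^ (e * (16 : ℕ) + 9 / 10) := by
            refine Real.rpow_le_rpow_of_exponent_le hX ?_
            rw [Fin.sum_univ_four, hz, hu, hu, hu, hu]
            push_cast
            linarith [(hρ 0).2, (hρ 1).2, (hρ 2).2, (hρ 3).2]
        _ ≤ _ := by
            rw [Real.rpow_add hX0, Real.rpow_mul hX0.le, Real.rpow_natCast]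
            gcongr)
  have hU : ∀ u ∈ Box (fun _ : Fin 4 => 1 / 10) fun _ => 12, K1U e (1 / 2) u := fun u hu =>
    ⟨by norm_num; linarith, by norm_num, fun j =>
      ⟨by linarith [(hu j).1], (hu j).2, by norm_num; linarith [(hu j).1]⟩⟩
  have hbΨ : ∀ (x : ℝ), ∀ u ∈ Box (fun _ : Fin 4 => 1 / 10) fun _ => 12,
      X ^ (1 - (1 / 2 : ℂ).re + ∑ j, (u j).re) ≤ x → ‖Ψ (1 / 2) u‖ ≤ B * x * dk u := by
    intro x u hu hx
    have g0 := dk_pos u
    have g2 : 0 ≤ x := le_trans (by positivity) hx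
    refine (hb _ u (hU u hu)).trans ?_
    calc _ ≤ B * x / br (1 / 2 : ℂ).im ^ 2 * (dk u * 1) := by
          rw [sq (dk u)]
          gcongr
          exact dk_le_one u
      _ = _ := by simp [br]
  have hbox : ∀ t, pt (fun _ => 1 / 10) t ∈ Box (fun _ : Fin 4 => 1 / 10) fun _ => 12 :=
    pt_box fun _ => ⟨le_rfl, by norm_num⟩
  have e1 : (In (fun _ => 12) fun u => Θ (1 / 2) u / ∏ j, (u j - 1 / 2)) =
      In (fun _ => 1 / 10) (Ψ (1 / 2)) := by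
    rw [← pSDn 4 (fun _ => 1 / 10) (fun _ => 12) (fun _ => 12) _ (B * X ^ (49 : ℝ)) _
      (fun _ => ⟨by norm_num, le_rfl⟩) (fun _ => ⟨le_rfl, by norm_num⟩)
      (k1_sep fun u hu => hd.du (hU u hu)) fun u hu => hbΨ _ u hu (hU49 _ _ (hU u hu))]
    refine k1_In_congr fun u hu => mul_div_cancel_right₀ _ (prod_ne_zero_iff.2 fun j _ h => ?_)
    have := congrArg re h
    norm_num [hu j] at this
  have c5 := (pINB 4 (fun _ => 1 / 10) (B * X ^ (9 / 10 : ℝ)) (Ψ (1 / 2))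
    (continuous_iff_continuousAt.2 fun t =>
      (hd.du (hU _ (hbox t))).continuousAt.comp (pt_cont _).continuousAt)
    fun t => hbΨ _ _ (hbox t) (le_of_eq (by simp only [pt_re]; norm_num))).2
  refine ⟨k1_Rint he he' hdΘ (fun z u h => hbΘ _ z u h (hU49 z u h)) (by positivity) hi hρ, ?_⟩
  rw [k1_shift he he' hdΘ (fun z u h => hbΘ _ z u h (hU49 z u h)) (by positivity) hi hρ, e1]
  have hπ : (π : ℂ) ≠ 0 := ofReal_ne_zero.2 Real.pi_ne_zero
  have hn : ‖(1 / (2 * π) : ℂ)‖ ≤ 1 := by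
    rw [norm_div, norm_one, div_le_one (by simp)]
    simp only [norm_mul, norm_ofNat, norm_real, Real.norm_eq_abs, abs_of_pos Real.pi_pos]
    linarith [Real.pi_gt_three]
  rw [show ∀ a b c : ℂ, 1 / (2 * π) * (a + 2 * π * b + 2 * π * c) - b = 1 / (2 * π) * a + c from
    fun a b c => by field_simp; ring]
  refine (norm_add_le _ _).trans ?_
  rw [norm_mul]
  have := (mul_le_of_le_one_left (norm_nonneg _) hn).trans c4
  nlinarith [mul_nonneg hB h9.le]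

end Pool.Agent.Q4
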