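import Pool.Agent.P.MP_ea46f5_nt.QM.Zeta
import Pool.Agent.P.MP_ea46f5_nt.QM.Gam
import Pool.Agent.P.MP_ea46f5_nt.QM.FDEC

/-! Zeta and Gamma bounds for the fourth moment. -/

namespace Pool.Agent.Q4.Zg

open Complex MeasureTheory Set Pool.Agent.QM
open scoped Real

theorem br_one (t : ℝ) : 1 ≤ br t := by rw [br]; linarith [abs_nonneg t]

/-- The entire function `w ζ(1 + w) (1 - 2 ^ (-1 - w))`. -/
noncomputable def lz0 (w : ℂ) : ℂ := (1 - (2 : ℂ) ^ (-(1 + w))) * riemannZeta₁ (1 + w)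

theorem lz_diff : Differentiable ℂ lz0 :=
  (Zt.differentiable_two_fac.mul differentiable_riemannZeta₁).comp
    ((differentiable_const 1).add differentiable_id)

theorem lz_zero : lz0 0 = 1 / 2 := by
  rw [lz0, add_zero, riemannZeta₁_one, cpow_neg_one]; norm_num

theorem two_fac_le {s : ℂ} (hs : 0 ≤ s.re) : ‖1 - (2 : ℂ) ^ (-s)‖ ≤ 2 := by
  have h := Complex.norm_natCast_cpow_of_pos (n := 2) (by norm_num) (-s)
  simp only [Nat.cast_ofNat, neg_re] at h
  have h1 : (2 : ℝ) ^ (-s.re) ≤ 1 :=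
    Real.rpow_le_one_of_one_le_of_nonpos (by norm_num) (by linarith)
  refine (norm_sub_le _ _).trans ?_
  rw [norm_one, h]; linarith

theorem lz_le {w : ℂ} (h0 : -(3 / 4) ≤ w.re) (h1 : w.re ≤ 29) : ‖lz0 w‖ ≤ 240 * br w.im ^ 2 := by
  have h := Zt.zeta1_le (s := w) (by linarith)
  have h2 := Complex.norm_le_abs_re_add_abs_im w
  have h3 : |w.re| ≤ 29 := by rw [abs_le]; constructor <;> linarith
  have ht := abs_nonneg w.im
  have h4 : 1 + ‖w‖ ≤ 30 * (1 + |w.im|) := by linarith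
  have h5 := two_fac_le (s := 1 + w) (by simp; linarith)
  rw [lz0, norm_mul]
  calc _ ≤ 2 * (4 * (1 + |w.im|) * (30 * (1 + |w.im|))) := by
        refine mul_le_mul h5 (h.trans ?_) (norm_nonneg _) (by norm_num)
        gcongr
    _ = _ := by rw [br]; ring

theorem lz_ne {w : ℂ} (h : 0 ≤ w.re) : lz0 w ≠ 0 :=
  mul_ne_zero (Zt.two_fac_ne (by simpa using h)) (Zt.zeta1_ne (by simpa using h))

theorem iz_eq (w : ℂ) : iz (1 + w) = w / lz0 w := by
  rw [iz, lz0, add_sub_cancel_left]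

theorem inv_lz_le : ∃ C : ℝ, 0 < C ∧ ∀ w : ℂ, 0 ≤ w.re → ‖(lz0 w)⁻¹‖ ≤ C * br w.im := by
  obtain ⟨C, hC, h⟩ := Zt.iZ_le
  have hK : IsCompact (Metric.closedBall (0 : ℂ) 1 ∩ {w | 0 ≤ w.re}) :=
    (isCompact_closedBall _ _).inter_right (isClosed_le continuous_const Complex.continuous_re)
  obtain ⟨D, hD⟩ := hK.exists_bound_of_continuousOn (f := fun w => (lz0 w)⁻¹)
    (lz_diff.continuous.continuousOn.inv₀ fun w hw => lz_ne hw.2)
  refine ⟨C + |D|, by positivity, fun w hw => ?_⟩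
  have hb := br_one w.im
  have hD0 := abs_nonneg D
  rcases le_total ‖w‖ 1 with h1 | h1
  · have := hD w ⟨by simpa using h1, hw⟩
    nlinarith [le_abs_self D]
  · have h2 := h (1 + w) (by simpa using hw)
    have e : Zt.iZ (1 + w) = w / lz0 w := iz_eq w
    rw [e, div_eq_mul_inv, norm_mul] at h2
    have e2 : 1 + |(1 + w).im| = br w.im := by simp [br]
    rw [e2] at h2
    nlinarith [norm_nonneg (lz0 w)⁻¹]

theorem iz_le_min : ∃ C : ℝ, 0 < C ∧ ∀ w : ℂ, 0 ≤ w.re →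
    ‖iz (1 + w)‖ ≤ C * min 1 ‖w‖ * br w.im := by
  obtain ⟨C, hC, h⟩ := Zt.iZ_le
  obtain ⟨D, hD, h'⟩ := inv_lz_le
  refine ⟨C + D, by positivity, fun w hw => ?_⟩
  have hb := br_one w.im
  rcases le_total ‖w‖ 1 with h1 | h1
  · rw [min_eq_right h1, iz_eq, div_eq_mul_inv, norm_mul]
    have := mul_le_mul_of_nonneg_left (h' w hw) (norm_nonneg w)
    have h3 : 0 ≤ C * ‖w‖ * br w.im := by positivity
    nlinarith
  · have h2 := h (1 + w) (by simpa using hw)
    have e2 : 1 + |(1 + w).im| = br w.im := by simp [br]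
    rw [e2] at h2
    rw [min_eq_left h1]
    refine le_trans h2 ?_
    nlinarith

theorem lz_near : ∃ r : ℝ, 0 < r ∧ ∀ w : ℂ, ‖w‖ ≤ r → 1 / 4 ≤ ‖lz0 w‖ := by
  have h := Metric.continuousAt_iff.1 (lz_diff.continuous.continuousAt (x := 0)) (1 / 4)
    (by norm_num)
  obtain ⟨δ, hδ, h⟩ := h
  refine ⟨δ / 2, by positivity, fun w hw => ?_⟩
  have h1 := h (x := w) (by rw [dist_zero_right]; linarith)
  rw [lz_zero, dist_eq_norm] at h1
  have h2 := norm_sub_norm_le (1 / 2 : ℂ) (lz0 w)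
  rw [norm_sub_rev] at h2
  have h3 : ‖(1 / 2 : ℂ)‖ = 1 / 2 := by simp
  linarith

theorem norm_cos_le_exp (z : ℂ) : ‖Complex.cos z‖ ≤ Real.exp |z.im| := by
  have h := Gm.norm_sin_le_exp (z + π / 2)
  rw [Complex.sin_add_pi_div_two] at h
  simpa using h

/-- The zeta function to the left of the critical line. -/
theorem zeta_left : ∃ C : ℝ, 0 < C ∧ ∀ s : ℂ, -1 ≤ s.re → s.re ≤ 1 / 2 →
    ‖riemannZeta s‖ ≤ C * br s.im ^ 5 := by
  obtain ⟨D, hD⟩ := (isCompact_closedBall (0 : ℂ) (1 / 2)).exists_bound_of_continuousOn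
    (f := riemannZeta) fun s hs => (differentiableAt_riemannZeta (by
      rintro rfl; norm_num at hs)).continuousAt.continuousWithinAt
  refine ⟨2 * (24 * (2 + 2).factorial) * 12 + |D|, by positivity, fun s h0 h1 => ?_⟩
  have hb := br_one s.im
  have hb5 : 1 ≤ br s.im ^ 5 := one_le_pow₀ hb
  have hD0 := abs_nonneg D
  rcases le_total ‖s‖ (1 / 2) with h2 | h2
  · have := hD s (by simpa using h2)
    have h3 : (0 : ℝ) ≤ 2 * (24 * (2 + 2).factorial) * 12 := by positivity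
    nlinarith [le_abs_self D]
  · have hs0 : s ≠ 0 := by rintro rfl; norm_num at h2
    have hre : (1 - s).re = 1 - s.re := by simp
    have him : |(1 - s).im| = |s.im| := by simp
    have e := riemannZeta_one_sub (s := 1 - s) (fun n hn => by
      have := congrArg Complex.re hn
      simp at this
      linarith [n.cast_nonneg (α := ℝ)]) (by simpa using hs0)
    rw [sub_sub_cancel] at e
    have g1 := Gm.gam_upper 2 (z := 1 - s) (by rw [hre]; linarith) (by rw [hre]; push_cast; linarith)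
    have g2 := norm_cos_le_exp (π * (1 - s) / 2)
    have e2 : |(π * (1 - s) / 2 : ℂ).im| = π * |s.im| / 2 := by
      simp [abs_div, abs_mul, abs_of_pos Real.pi_pos]
    have g3 := Zt.z1a (s := -s) (by simp; linarith) (neg_ne_zero.2 hs0)
    have e3 : |(-s).im| = |s.im| := by simp
    rw [← sub_eq_add_neg, e3, norm_neg] at g3
    have g4 : 1 / ‖s‖ ≤ 2 := by rw [div_le_iff₀ (by linarith)]; linarith
    have g5 : ‖riemannZeta (1 - s)‖ ≤ 12 * br s.im := by
      refine g3.trans ?_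
      rw [br]; nlinarith [abs_nonneg s.im]
    have g6 : ‖((2 * π : ℂ)) ^ (-(1 - s))‖ ≤ 1 := by
      have : (2 * π : ℂ) = ((2 * π : ℝ) : ℂ) := by push_cast; rfl
      rw [this, Complex.norm_cpow_eq_rpow_re_of_pos (by positivity)]
      exact Real.rpow_le_one_of_one_le_of_nonpos (by linarith [Real.pi_gt_three])
        (by simp; linarith)
    rw [him] at g1
    rw [e2] at g2
    have e4 : Real.exp (-π * |s.im| / 2) * Real.exp (π * |s.im| / 2) = 1 := by
      rw [← Real.exp_add]; simp; ring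
    rw [e, norm_mul, norm_mul, norm_mul, norm_mul, Complex.norm_two]
    calc _ ≤ 2 * 1 * (24 * (2 + 2).factorial * (1 + |s.im|) ^ (2 + 2) * Real.exp (-π * |s.im| / 2)) *
          Real.exp (π * |s.im| / 2) * (12 * br s.im) := by gcongr
      _ = 2 * (24 * (2 + 2).factorial) * 12 * br s.im ^ 5 *
          (Real.exp (-π * |s.im| / 2) * Real.exp (π * |s.im| / 2)) := by rw [br]; ring
      _ ≤ _ := by rw [e4]; nlinarith

theorem kz2 (n : ℕ) : ∃ C : ℝ, 0 < C ∧ ∀ z : ℂ, 0 < z.re → z.re ≤ 1 / 4 →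
    ‖z * Gammaℝ z * riemannZeta (2 * z)‖ ≤ C / br z.im ^ n := by
  obtain ⟨C, hC, h⟩ := Gm.gamma1 (n + 5)
  obtain ⟨D, hD, h'⟩ := zeta_left
  refine ⟨C * (D * 2 ^ 5), by positivity, fun z h0 h1 => ?_⟩
  have hb := br_one z.im
  have hn : 0 < ‖z‖ := h0.trans_le (Complex.re_le_norm z)
  have h2 := h z h0 (by linarith)
  have h3 := h' (2 * z) (by simp; linarith) (by simp; linarith)
  have h4 : br (2 * z).im ≤ 2 * br z.im := by
    simp [br, abs_mul]; linarith
  have h5 : ‖riemannZeta (2 * z)‖ ≤ D * (2 * br z.im) ^ 5 :=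
    h3.trans (by have := dec_pos (2 * z).im; gcongr)
  rw [norm_mul, norm_mul]
  calc _ ≤ ‖z‖ * (C / ‖z‖ / (1 + |z.im|) ^ (n + 5)) * (D * (2 * br z.im) ^ 5) := by gcongr
    _ = _ := by
      rw [← br, pow_add]
      field_simp

theorem inv_gam_le (N : ℕ) {z : ℂ} (h0 : 1 - N ≤ z.re) (h1 : z.re ≤ 7 / 8) :
    ‖(Gamma z)⁻¹‖ ≤
      24 * (N + 2).factorial * (1 + |z.im|) ^ (N + 2) * Real.exp (π * |z.im| / 2) := by
  by_cases hz : Gamma z = 0
  · rw [hz, inv_zero, norm_zero]; positivity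
  have h := Complex.Gamma_mul_Gamma_one_sub z
  have hre : (1 - z).re = 1 - z.re := by simp
  have him : |(1 - z).im| = |z.im| := by simp
  have hz' : Gamma (1 - z) ≠ 0 := Complex.Gamma_ne_zero_of_re_pos (by rw [hre]; linarith)
  have hp : (π : ℂ) ≠ 0 := ofReal_ne_zero.2 Real.pi_ne_zero
  have hs : Complex.sin (π * z) ≠ 0 := fun e => by
    rw [e, div_zero] at h
    exact mul_ne_zero hz hz' h
  have e : (Gamma z)⁻¹ = Gamma (1 - z) * Complex.sin (π * z) / π := by
    rw [eq_div_iff hs] at h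
    rw [eq_div_iff hp, inv_mul_eq_iff_eq_mul₀ hz, ← mul_assoc]
    exact h.symm
  have g1 := Gm.gam_upper N (z := 1 - z) (by rw [hre]; linarith) (by rw [hre]; linarith)
  have g2 := Gm.norm_sin_le_exp (π * z)
  have e2 : |(π * z : ℂ).im| = π * |z.im| := by simp [abs_mul, abs_of_pos Real.pi_pos]
  rw [him] at g1
  rw [e2] at g2
  have e4 : Real.exp (-π * |z.im| / 2) * Real.exp (π * |z.im|) = Real.exp (π * |z.im| / 2) := by
    rw [← Real.exp_add]; congr 1; ring
  rw [e, norm_div, norm_mul, Complex.norm_real, Real.norm_of_nonneg Real.pi_pos.le]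
  refine (div_le_self (by positivity) (by linarith [Real.pi_gt_three])).trans ?_
  rw [← e4, ← mul_assoc]
  gcongr

theorem inv_gamR_le (N : ℕ) {w : ℂ} (h0 : 2 - 2 * N ≤ w.re) (h1 : w.re ≤ 7 / 4) :
    ‖(Gammaℝ w)⁻¹‖ ≤
      96 * (N + 2).factorial * (1 + |w.im|) ^ (N + 2) * Real.exp (π * |w.im| / 4) := by
  have h := inv_gam_le N (z := w / 2) (by simp; linarith) (by simp; linarith)
  have e : |(w / 2).im| = |w.im| / 2 := by simp [abs_div]
  rw [e] at h
  have h2 : (π ^ (-w.re / 2))⁻¹ ≤ 4 := by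
    rw [← Real.rpow_neg Real.pi_pos.le]
    calc _ ≤ π ^ (1 : ℝ) :=
          Real.rpow_le_rpow_of_exponent_le (by linarith [Real.pi_gt_three]) (by linarith)
      _ ≤ 4 := by rw [Real.rpow_one]; exact Real.pi_le_four
  rw [norm_inv, Gm.norm_GammaR, mul_inv, ← norm_inv]
  have ht := abs_nonneg w.im
  calc _ ≤ 4 * (24 * (N + 2).factorial * (1 + |w.im| / 2) ^ (N + 2) *
        Real.exp (π * (|w.im| / 2) / 2)) := by gcongr
    _ ≤ 4 * (24 * (N + 2).factorial * (1 + |w.im|) ^ (N + 2) *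
        Real.exp (π * (|w.im| / 2) / 2)) := by gcongr; linarith
    _ = _ := by rw [show π * (|w.im| / 2) / 2 = π * |w.im| / 4 by ring]; ring

theorem gamR_diff {w : ℂ} (h : 0 < w.re) : DifferentiableAt ℂ Gammaℝ w := by
  have h1 := (Complex.differentiable_Gammaℝ_inv w).inv (inv_ne_zero (Gammaℝ_ne_zero_of_re_pos h))
  exact h1.congr_of_eventuallyEq (Filter.Eventually.of_forall fun s => (inv_inv _).symm)

theorem xi_diff (a : ℕ) {u : ℂ} (h : -(1 / 2) < u.re) :
    DifferentiableAt ℂ (fun u => Gammaℝ (1 / 2 + a + u) / Gammaℝ (1 / 2 + a - u)) u := by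
  have h1 : DifferentiableAt ℂ (fun u => Gammaℝ (1 / 2 + a + u)) u :=
    (gamR_diff (by simp; linarith [a.cast_nonneg (α := ℝ)])).comp u
      ((differentiableAt_const _).add differentiableAt_id)
  have h2 : DifferentiableAt ℂ (fun u => (Gammaℝ (1 / 2 + a - u))⁻¹) u :=
    (Complex.differentiable_Gammaℝ_inv _).comp u
      ((differentiableAt_const _).sub differentiableAt_id)
  exact (h1.mul h2).congr_of_eventuallyEq (Filter.Eventually.of_forall fun s => div_eq_mul_inv _ _)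

theorem xi_le : ∃ C : ℝ, 0 < C ∧ ∀ (a : ℕ) (u : ℂ), a ≤ 1 → -(1 / 4) ≤ u.re → u.re ≤ 3 →
    ‖Gammaℝ (1 / 2 + a + u) / Gammaℝ (1 / 2 + a - u)‖ ≤ C * br u.im ^ 10 := by
  refine ⟨24 * (3 + 2).factorial * (96 * (3 + 2).factorial), by positivity,
    fun a u ha h0 h1 => ?_⟩
  have ha0 := a.cast_nonneg (α := ℝ)
  have ha1 : (a : ℝ) ≤ 1 := by exact_mod_cast ha
  have g1 := Gm.gamR_upper 3 (w := 1 / 2 + a + u) (by simp; linarith) (by simp; linarith)
  have g2 := inv_gamR_le 3 (w := 1 / 2 + a - u) (by simp; linarith) (by simp; linarith)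
  have e1 : |(1 / 2 + a + u : ℂ).im| = |u.im| := by simp
  have e2 : |(1 / 2 + a - u : ℂ).im| = |u.im| := by simp
  rw [e1] at g1
  rw [e2] at g2
  have e4 : Real.exp (-π * |u.im| / 4) * Real.exp (π * |u.im| / 4) = 1 := by
    rw [← Real.exp_add]; simp; ring
  rw [div_eq_mul_inv, norm_mul]
  refine (mul_le_mul g1 g2 (norm_nonneg _) (by positivity)).trans (le_of_eq ?_)
  rw [br]
  linear_combination (24 * (3 + 2).factorial * (96 * (3 + 2).factorial) * (1 + |u.im|) ^ 10) * e4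

end Pool.Agent.Q4.Zg
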