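import Pool.Agent.P.MP_ea46f5_nt.Q4.K1c
import Pool.Agent.P.MP_ea46f5_nt.Q4.D4
import Pool.Agent.P.MP_ea46f5_nt.Q4.ZG

/-! The term `k = 1`. -/

namespace Pool.Agent.Q4

open Complex MeasureTheory Finset
open scoped Real
open Pool.Agent.QM

theorem k1_dprod {E ι : Type*} [NormedAddCommGroup E] [NormedSpace ℂ E] {s : Finset ι}
    {f : ι → E → ℂ} {x : E} (h : ∀ i ∈ s, DifferentiableAt ℂ (f i) x) :
    DifferentiableAt ℂ (fun y => ∏ i ∈ s, f i y) x := by
  classical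
  exact (HasFDerivAt.finsetProd fun i hi => (h i hi).hasFDerivAt).differentiableAt

theorem k1_ite4 {M : Type*} [CommMonoid M] (S : Finset (Fin 4)) (f : Fin 4 → M) :
    ∏ j ∈ S, f j = ∏ j, if j ∈ S then f j else 1 := by simp [prod_ite_mem]

theorem k1_Ici4 {M : Type*} [CommMonoid M] (f : Fin 4 → Fin 4 → M) :
    ∏ i, ∏ j ∈ Ici i, f i j = f 0 0 * f 0 1 * f 0 2 * f 0 3 * (f 1 1 * f 1 2 * f 1 3) *
      (f 2 2 * f 2 3) * f 3 3 := by
  simp only [k1_ite4 (Ici _)]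
  simp [Fin.prod_univ_four]

theorem k1_pairs (A : Fin 4 → Fin 4 → ℂ) (hs : ∀ j l, A j l = A l j) (h0 : ∀ j l, A j l ≠ 0)
    (i : Fin 4) : (∏ j, ∏ l ∈ Ici j, A j l) * ∏ j, (A j i)⁻¹ =
      ∏ j ∈ univ.erase i, ∏ l ∈ (Ici j).erase i, A j l := by
  rw [k1_Ici4, k1_ite4 (univ.erase i)]
  simp only [k1_ite4 (erase _ _)]
  have := h0 0 0; have := h0 0 1; have := h0 0 2; have := h0 0 3; have := h0 1 1
  have := h0 1 2; have := h0 1 3; have := h0 2 2; have := h0 2 3; have := h0 3 3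
  fin_cases i <;>
    simp [Fin.prod_univ_four, hs 1 0, hs 2 0, hs 3 0, hs 2 1, hs 3 1, hs 3 2] <;> field_simp

theorem k1_Lo_lz (hLOP : LOP) {w : ℂ} (hw : w ≠ 0) : Lo 1 (1 + w) = lz w / w := by
  rw [hLOP.2.2 _ (by simpa using hw), lz, add_sub_cancel_left]

theorem k1_Lo_diff (hLOP : LOP) {w : ℂ} (hw : w ≠ 0) :
    DifferentiableAt ℂ (fun w => Lo 1 (1 + w)) w :=
  ((Zg.lz_diff w).div differentiableAt_id hw).congr_of_eventuallyEq
    ((isOpen_ne.mem_nhds hw : _ ∈ _) |> Filter.mem_of_superset <| fun _ h => k1_Lo_lz hLOP h)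

theorem k1_iz_Lo (hLOP : LOP) {w : ℂ} (hw : 0 < w.re) :
    Lo 1 (1 + w) ≠ 0 ∧ iz (1 + w) = (Lo 1 (1 + w))⁻¹ := by
  have h0 : w ≠ 0 := fun h => by simp [h] at hw
  rw [k1_Lo_lz hLOP h0, inv_div]
  exact ⟨div_ne_zero (Zg.lz_ne hw.le) h0, Zg.iz_eq w⟩

theorem k1_ZR_res (hLOP : LOP) {u : V4} (hu : ∀ j, 0 < (u j).re) (i : Fin 4) :
    ZR (u i) u = ZX i u := by
  have h := fun j l => k1_iz_Lo hLOP (w := u j + u l) (by simpa using add_pos (hu j) (hu l))
  simp only [← add_assoc] at h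
  rw [ZR, prod_congr rfl fun j _ => (h j i).2]
  exact k1_pairs (fun j l => Lo 1 (1 + u j + u l)) (fun j l => by rw [add_right_comm])
    (fun j l => (h j l).1) i

theorem k1_br_sub (t u : ℝ) : br (t - u) ≤ br t * br u := by
  simpa only [sub_eq_add_neg, br, abs_neg] using dec_br t (-u)

theorem k1_ZO_le (hLOP : LOP) {ε : ℝ} (hε : 0 < ε) {u : V4} (hu : ∀ j, ε ≤ (u j).re ∧ (u j).re ≤ 12) :
    ‖ZO u‖ ≤ (240 / ε) ^ 10 * gn 10 u := by
  have h : ∀ i j, ‖Lo 1 (1 + u i + u j)‖ ≤ 240 / ε * (br (u i).im * br (u j).im) ^ 2 := by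
    intro i j
    have h1 : ε ≤ (u i + u j).re := by rw [add_re]; linarith [(hu i).1, (hu j).1]
    have h2 := h1.trans (re_le_norm _)
    rw [add_assoc, k1_Lo_lz hLOP (norm_pos_iff.1 (hε.trans_le h2)), norm_div, div_mul_eq_mul_div]
    refine div_le_div₀ (by positivity) ((Zg.lz_le (by linarith)
      (by rw [add_re]; linarith [(hu i).2, (hu j).2])).trans ?_) hε h2
    have := dec_br (u i).im (u j).im
    have := sh_br_pos (u i + u j).im
    gcongr
    exact dec_br _ _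
  rw [ZO, norm_prod]
  refine (prod_le_prod (fun _ _ => norm_nonneg _) fun i _ => (norm_prod _ _).le.trans
    (prod_le_prod (fun _ _ => norm_nonneg _) fun j _ => h i j)).trans (le_of_eq ?_)
  rw [k1_Ici4, gn, Fin.prod_univ_four]
  ring

theorem k1_dn_mono {n m : ℕ} (h : m ≤ n) (u : V4) : dn n u ≤ dn m u :=
  prod_le_prod (fun j _ => by have := sh_br_pos (u j).im; positivity) fun j _ =>
    one_div_le_one_div_of_le (pow_pos (sh_br_pos _) _) (pow_le_pow_right₀ (sh_br_one _) h)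

theorem k1_dn_pos (n : ℕ) (u : V4) : 0 < dn n u :=
  prod_pos fun j _ => by have := sh_br_pos (u j).im; positivity

theorem k1_gn_one (n : ℕ) (u : V4) : 1 ≤ gn n u := one_le_prod fun _ _ => one_le_pow₀ (sh_br_one _)

theorem k1_gn_mono {n m : ℕ} (h : m ≤ n) (u : V4) : gn m u ≤ gn n u :=
  prod_le_prod (fun _ _ => (pow_pos (sh_br_pos _) _).le) fun _ _ =>
    pow_le_pow_right₀ (sh_br_one _) h

theorem k1_gn_dn (n m : ℕ) (u : V4) : gn m u * dn (n + m) u = dn n u := by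
  rw [gn, dn, dn, ← prod_mul_distrib]
  refine prod_congr rfl fun j _ => ?_
  have := sh_br_pos (u j).im
  field_simp
  ring

theorem k1_ZO_hol (hLOP : LOP) {u : V4} (hu : ∀ j, 0 < (u j).re) : DifferentiableAt ℂ ZO u := by
  refine k1_dprod fun i _ => k1_dprod fun j _ => ?_
  simp only [add_assoc]
  exact (k1_Lo_diff hLOP (w := u i + u j) fun e => by
    have := congrArg re e
    simp at this; linarith [hu i, hu j]).comp u (f := fun x : V4 => x i + x j) (by fun_prop)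

noncomputable def K1P (Kr H : ℂ → V4 → ℂ) (z : ℂ) (u : V4) : ℂ :=
  Kr z u * (∏ j, lz (u j - z)) * ZR z u * H z u

theorem K1U.mem {ε : ℝ} (hε : 0 < ε) {z : ℂ} {u : V4} (h : K1U ε z u) :
    (z, u) ∈ R1 ε ∧ (z, u) ∈ V1 :=
  ⟨⟨⟨h.1, h.2.1⟩, fun j => ⟨(h.2.2 j).1, (h.2.2 j).2.1⟩⟩,
    by have := h.1; show _ < z.re; linarith, by have := h.2.1; show z.re < _; linarith,
    fun j => ⟨by have := (h.2.2 j).1; show _ < (u j).re; linarith, (h.2.2 j).2.2⟩⟩

theorem k1_diff (hLOP : LOP) (hIZ : IZ) {n : ℕ} {Kr H : ℂ → V4 → ℂ} {ε X V M : ℝ}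
    (h : KC n Kr H ε X V M) : K1D ε (K1P Kr H) := by
  intro z u hU
  have hm := hU.mem h.e0
  have hu : ∀ j, 0 < (u j).re := fun j => h.e0.trans_le (hU.2.2 j).1
  have hz : 0 < z.re := lt_of_lt_of_le (half_pos h.e0) hU.1
  refine (((h.hol _ hm.1).mul (k1_dprod fun j _ => ?_)).mul
    (.mul (k1_dprod fun i _ => k1_dprod fun j _ => ?_) (k1_dprod fun j _ => ?_))).mul
    (h.hH _ hm.2)
  · exact (Zg.lz_diff _).comp (z, u) (f := fun x : ℂ × V4 => x.2 j - x.1) (by fun_prop)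
  · simp only [add_assoc]
    exact (k1_Lo_diff hLOP (w := u i + u j) fun e => by
      have := congrArg re e
      simp at this; linarith [hu i, hu j]).comp (z, u) (f := fun x : ℂ × V4 => x.2 i + x.2 j)
      (by fun_prop)
  · exact (hIZ.1 (1 + u j + z) (by simp; linarith [hu j])).comp (z, u)
      (f := fun x : ℂ × V4 => 1 + x.2 j + x.1) (by fun_prop)

theorem k1_bd (hLOP : LOP) {C : ℝ} (hC : 0 < C)
    (hI : ∀ s : ℂ, 1 ≤ s.re → ‖iz s‖ ≤ C * br s.im ^ 2) {n : ℕ} (hn : 18 ≤ n)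
    {Kr H : ℂ → V4 → ℂ} {ε X V M : ℝ} (h : KC n Kr H ε X V M) (hV : 0 ≤ V) (z : ℂ) (u : V4)
    (hU : K1U ε z u) : ‖K1P Kr H z u‖ ≤ V * M * (240 * C) ^ 4 * (240 / ε) ^ 10 *
      X ^ (1 - z.re + ∑ j, (u j).re) / br z.im ^ 2 * dk u ^ 2 := by
  have hm := hU.mem h.e0
  have he := h.e0
  have hX : 0 < X := by linarith [h.X1]
  have hβ := sh_br_pos z.im
  have hb := fun j => sh_br_pos (u j).im
  have g1 : ‖Kr z u‖ ≤ V * X ^ (1 - z.re + ∑ j, (u j).re) / br z.im ^ 18 * dn 18 u := by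
    refine (h.bd _ hm.1).trans (mul_le_mul ?_ (k1_dn_mono hn u) (k1_dn_pos _ _).le (by positivity))
    exact div_le_div_of_nonneg_left (by positivity) (by positivity)
      (pow_le_pow_right₀ (sh_br_one _) hn)
  have g2 : ‖∏ j, lz (u j - z)‖ ≤ ∏ j, 240 * (br (u j).im * br z.im) ^ 2 := by
    rw [norm_prod]
    refine prod_le_prod (fun _ _ => norm_nonneg _) fun j _ => (Zg.lz_le
      (by rw [sub_re]; linarith [(hU.2.2 j).2.2])
      (by rw [sub_re]; linarith [(hU.2.2 j).2.1, hU.1])).trans ?_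
    have := sh_br_pos (u j - z).im
    gcongr
    exact k1_br_sub _ _
  have g3 := k1_ZO_le hLOP he fun j => ⟨(hU.2.2 j).1, (hU.2.2 j).2.1⟩
  have g4 : ‖∏ j, iz (1 + u j + z)‖ ≤ ∏ j, C * (br (u j).im * br z.im) ^ 2 := by
    rw [norm_prod]
    refine prod_le_prod (fun _ _ => norm_nonneg _) fun j _ =>
      (hI _ (by simp; linarith [(hU.2.2 j).1, hU.1])).trans ?_
    have := sh_br_pos (1 + u j + z).im
    gcongr
    simpa using dec_br (u j).im z.im
  have g5 := h.bH _ hm.2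
  have p1 := (norm_nonneg _).trans g1
  have p2 := (norm_nonneg _).trans g2
  have p3 := (norm_nonneg _).trans g3
  rw [K1P, ZR, norm_mul, norm_mul, norm_mul, norm_mul]
  refine (mul_le_mul (mul_le_mul (mul_le_mul g1 g2 (norm_nonneg _) p1)
    (mul_le_mul g3 g4 (norm_nonneg _) p3) (by positivity) (mul_nonneg p1 p2)) g5 (norm_nonneg _)
    (mul_nonneg (mul_nonneg p1 p2) (mul_nonneg p3 ((norm_nonneg _).trans g4)))).trans (le_of_eq ?_)
  have := hb 0; have := hb 1; have := hb 2; have := hb 3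
  simp only [dn, gn, dk, Fin.prod_univ_four]
  field_simp

theorem k1_main (hLOP : LOP) (hIZ : IZ) : ∃ C : ℝ, 0 < C ∧ ∀ (n : ℕ) (Kr H : ℂ → V4 → ℂ)
    (ε X V M : ℝ), 18 ≤ n → KC n Kr H ε X V M → 0 ≤ V ∧ 0 ≤ M ∧ (∀ i, IL (rl ε) (Fl Kr H i)) ∧
    ‖1 / (2 * π) * Y1 Kr H (3 / 4) (cs 12) - ∑ i, In (rl ε) (Fl Kr H i)‖ ≤
      C * V * M * X ^ (9 / 10 : ℝ) / ε ^ 10 := by
  obtain ⟨C, hC, hI⟩ := hIZ.2.1
  refine ⟨10 ^ 20 * (240 * C) ^ 4 * 240 ^ 10, by positivity, fun n Kr H ε X V M hn h => ?_⟩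
  have he := h.e0
  have he1 := h.e1
  have hX : 0 < X := by linarith [h.X1]
  have hU0 : K1U ε (1 / 2) fun _ => 1 :=
    ⟨by norm_num; linarith, by norm_num, fun _ => ⟨by norm_num; linarith, by norm_num, by norm_num⟩⟩
  have hM : 0 ≤ M := (norm_nonneg _).trans (h.bH _ (hU0.mem he).2)
  have hV : 0 ≤ V := by
    have g := nonneg_of_mul_nonneg_left ((norm_nonneg _).trans (h.bd _ (hU0.mem he).1)) (k1_dn_pos _ _)
    rw [mul_div_assoc] at g
    exact nonneg_of_mul_nonneg_left g (div_pos (Real.rpow_pos_of_pos hX _) (pow_pos (sh_br_pos _) _))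
  have hXe : X ^ ε ≤ 3 := by
    rw [Real.rpow_def_of_pos hX, mul_comm]
    exact (Real.exp_le_exp.2 h.eX).trans (Real.exp_one_lt_d9.le.trans (by norm_num))
  have hi : Function.Injective (rl ε) := fun i j e => by
    have := mul_right_cancel₀ he.ne' e
    exact Fin.ext (by exact_mod_cast add_right_cancel this)
  have hρ : ∀ j, ε ≤ rl ε j ∧ rl ε j ≤ 4 * ε := fun j => by
    have h1 : ((j : ℕ) : ℝ) ≤ 3 := by exact_mod_cast Nat.le_of_lt_succ j.2
    have h2 : (0 : ℝ) ≤ (j : ℕ) := Nat.cast_nonneg _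
    unfold rl
    constructor <;> nlinarith
  have hd := k1_diff hLOP hIZ h
  have hb := k1_bd hLOP hC hI hn h hV
  have key := k1_core he (by linarith) h.X1 hXe (by positivity) hi hρ hd hb
  have e1 : Y1 Kr H (3 / 4) (cs 12) = Iv (3 / 4) fun z => In (fun _ => 12)
      (K1F (fun z u => K1P Kr H z u * ∏ j, (u j - 1 / 2)) z) := by
    refine integral_congr_ae (.of_forall fun y => ?_)
    beta_reduce
    generalize hz : (((3 / 4 : ℝ) : ℂ) + y * I) = z
    have hz' : z.re = 3 / 4 := by simp [← hz]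
    rw [In, ← integral_div]
    refine k1_In_congr (G := fun u => G1 Kr H z u / (z - 1 / 2)) fun u hu => ?_
    have h0 : ∀ j, u j - z ≠ 0 := fun j e => by
      have := congrArg re e
      rw [sub_re, hu j, hz'] at this
      norm_num [cs] at this
    simp only [G1, K1F, K1P, hf, fun j => k1_Lo_lz hLOP (h0 j), prod_div_distrib]
    rw [← div_div, div_right_comm]
    congr 1
    ring
  have e2 : ∀ i (u : V4), (∀ j, (u j).re = rl ε j) →
      Fl Kr H i u = K1R (fun z u => K1P Kr H z u * ∏ j, (u j - 1 / 2)) i u := by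
    intro i u hu
    have h0 : ∀ j ∈ univ.erase i, Lo 1 (1 + (u j - u i)) = lz (u j - u i) / (u j - u i) :=
      fun j hj => k1_Lo_lz hLOP fun e => (mem_erase.1 hj).1 (hi (by rw [← hu, ← hu, sub_eq_zero.1 e]))
    have h1 : lz (u i - u i) = 1 / 2 := by rw [sub_self]; exact Zg.lz_zero
    simp only [Fl, K1R, K1P, FZ, hf]
    rw [prod_congr rfl h0, prod_div_distrib, k1_ZR_res hLOP fun j => by linarith [hu j, (hρ j).1],
      ← mul_prod_erase univ (fun j => lz (u j - u i)) (mem_univ i), h1, ← div_div]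
    ring
  refine ⟨hV, hM, fun i => ?_, ?_⟩
  · exact (key.1 i).congr (.of_forall fun t => (e2 i _ (pt_re _ t)).symm)
  · rw [e1, sum_congr rfl fun i _ => k1_In_congr (e2 i)]
    refine key.2.trans (le_of_eq ?_)
    field_simp

end Pool.Agent.Q4
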