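import Pool.Agent.P.MP_ea46f5_nt.Q4.DP
import Pool.Agent.P.MP_ea46f5_nt.QM.FPois

/-! Finite Fourier transforms and characters modulo 8. -/

namespace Pool.Agent.Q4

open Complex MeasureTheory Finset Pool.Agent.QM NumberTheorySymbols
open scoped Real ComplexConjugate

theorem pd_per {F : ℤ → ℂ} {N : ℕ} (h : ∀ x, F (x + N) = F x) {x y : ℤ} (e : (N : ℤ) ∣ x - y) :
    F x = F y := by
  obtain ⟨c, hc⟩ := e
  have h1 : Function.Periodic F ((c : ℤ) * (N : ℤ)) := by
    simpa using Function.Periodic.int_mul (f := F) (c := (N : ℤ)) h c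
  rw [← h1 y]
  congr 1
  linarith

theorem pd_sum_zmod (N : ℕ) [NeZero N] (F : ℤ → ℂ) :
    ∑ x ∈ range N, F x = ∑ a : ZMod N, F a.val := by
  refine (sum_bij (fun (a : ZMod N) _ => a.val) (fun a _ => mem_range.2 (ZMod.val_lt a))
    (fun a _ b _ h => ZMod.val_injective N h)
    (fun x hx => ⟨(x : ZMod N), mem_univ _, ZMod.val_cast_of_lt (mem_range.1 hx)⟩)
    (fun _ _ => rfl)).symm

theorem pd_val {F : ℤ → ℂ} {N : ℕ} [NeZero N] (h : ∀ x, F (x + N) = F x) (y : ℤ) :
    F ((y : ZMod N).val) = F y := by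
  rw [ZMod.val_intCast]
  exact pd_per h (Int.dvd_emod_sub_self)

theorem pd_crt {x y : ℕ} [NeZero x] [NeZero y] (hxy : Nat.Coprime x y) {F : ℤ → ℂ}
    (h : ∀ t, F (t + (x * y : ℕ)) = F t) :
    ∑ t ∈ range (x * y), F t = ∑ a ∈ range x, ∑ b ∈ range y, F (a * y + b * x) := by
  have : NeZero (x * y) := ⟨mul_ne_zero (NeZero.ne x) (NeZero.ne y)⟩
  let e : ZMod x × ZMod y → ZMod (x * y) :=
    fun ab => ((ab.1.val * y + ab.2.val * x : ℤ) : ZMod (x * y))
  have hyx : IsUnit (y : ZMod x) := (ZMod.isUnit_iff_coprime y x).2 hxy.symm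
  have hxy' : IsUnit (x : ZMod y) := (ZMod.isUnit_iff_coprime x y).2 hxy
  have hinj : Function.Injective e := by
    rintro ⟨a, b⟩ ⟨a', b'⟩ h
    have h1 := congrArg (ZMod.castHom (dvd_mul_right x y) (ZMod x)) h
    have h2 := congrArg (ZMod.castHom (dvd_mul_left y x) (ZMod y)) h
    simp only [e, map_intCast] at h1 h2
    push_cast at h1 h2
    simp only [ZMod.natCast_val, ZMod.cast_id', id_eq, ZMod.natCast_self, mul_zero, add_zero,
      zero_add] at h1 h2
    exact Prod.ext (hyx.mul_right_cancel h1) (hxy'.mul_right_cancel h2)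
  have hbij : Function.Bijective e :=
    (Fintype.bijective_iff_injective_and_card e).2 ⟨hinj, by simp [ZMod.card]⟩
  rw [pd_sum_zmod, ← hbij.sum_comp, Fintype.sum_prod_type,
    pd_sum_zmod x fun a => ∑ b ∈ range y, F (a * y + b * x)]
  refine sum_congr rfl fun a _ => ?_
  rw [pd_sum_zmod y fun b => F (a.val * y + b * x)]
  exact sum_congr rfl fun b _ => pd_val h _

theorem w8_add (a b : ℤ) : w8 (a + b) = w8 a * w8 b := by
  unfold w8
  rw [← Complex.exp_add]
  congr 1
  push_cast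
  ring

theorem w8_eight (c : ℤ) : w8 (8 * c) = 1 := by
  unfold w8
  rw [← Complex.exp_int_mul_two_pi_mul_I c]
  congr 1
  push_cast
  ring

theorem w8_congr {a b : ℤ} (h : (8 : ℤ) ∣ a - b) : w8 a = w8 b := by
  obtain ⟨c, hc⟩ := h
  rw [show a = b + 8 * c by linarith, w8_add, w8_eight, mul_one]

theorem w8_zero : w8 0 = 1 := by simp [w8]

theorem norm_w8 (c : ℤ) : ‖w8 c‖ = 1 := by
  unfold w8
  rw [show (2 * π * I * c / 8 : ℂ) = ((2 * π * c / 8 : ℝ) : ℂ) * I by push_cast; ring,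
    norm_exp_ofReal_mul_I]

theorem pd_exp_per (N : ℕ) (hN : N ≠ 0) (h x : ℤ) :
    cexp (-(2 * π * I * ((x + N : ℤ) : ℂ) * h / N)) = cexp (-(2 * π * I * x * h / N)) := by
  have h0 : (N : ℂ) ≠ 0 := by exact_mod_cast hN
  rw [show (-(2 * π * I * ((x + N : ℤ) : ℂ) * h / N)) =
    -(2 * π * I * x * h / N) + ((-h : ℤ) : ℂ) * (2 * π * I) by push_cast; field_simp; ring,
    Complex.exp_add, Complex.exp_int_mul_two_pi_mul_I, mul_one]

theorem pd_Phi_per (ν : ℕ) (b x : ℤ) : Phi ν b (x + (8 * ν : ℕ)) = Phi ν b x := by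
  unfold Phi
  have h1 : (x + (8 * ν : ℕ)) % 8 = x % 8 := by push_cast; omega
  have h2 : J(x + (8 * ν : ℕ) | ν) = J(x | ν) := by
    apply jacobiSym.mod_left'
    push_cast
    rw [Int.add_mul_emod_self_right]
  rw [h1, h2]

theorem pd_gsum {ν : ℕ} (ho : Odd ν) (hs : Squarefree ν) (h : ℤ) :
    ∑ b ∈ range ν, (J((b : ℤ) | ν) : ℂ) * cexp (-(2 * π * I * b * h / ν)) =
      (J(-h | ν) : ℂ) * (eg ν * ((√(ν : ℝ) : ℝ) : ℂ)) := by
  have : NeZero ν := ⟨ho.pos.ne'⟩
  have h1 := gsum_eq ν ho hs (-h)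
  rw [show eg ν = gsgn ν from rfl, ← h1, gsum]
  refine (pd_sum_zmod ν fun b => (J(b | ν) : ℂ) * cexp (-(2 * π * I * b * h / ν))).trans ?_
  refine sum_congr rfl fun b _ => ?_
  have e : b * ((-h : ℤ) : ZMod ν) = ((b.val * -h : ℤ) : ZMod ν) := by push_cast; simp
  rw [e, ZMod.stdAddChar_coe]
  congr 2
  push_cast
  ring

theorem pDFT : DFT := by
  intro ν b h ho hs
  have : NeZero ν := ⟨ho.pos.ne'⟩
  have h0 : (ν : ℂ) ≠ 0 := by exact_mod_cast ho.pos.ne'
  have hco : Nat.Coprime 8 ν := (Nat.coprime_two_left.2 ho).pow_left 3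
  have hsq : (8 : ℤ) ∣ (ν : ℤ) * ν - 1 := by
    obtain ⟨m, rfl⟩ := ho
    obtain ⟨c, hc⟩ := Int.even_mul_succ_self (m : ℤ)
    exact ⟨c, by push_cast; linear_combination 4 * hc⟩
  unfold ft
  refine (pd_crt hco (F := fun x => Phi ν b x * cexp (-(2 * π * I * x * h / (8 * ν : ℕ))))
    (fun t => by rw [pd_Phi_per, pd_exp_per _ (by have := ho.pos; omega)])).trans ?_
  have key : ∀ a ∈ range 8, ∑ c ∈ range ν, Phi ν b (a * ν + c * (8 : ℕ)) *
      cexp (-(2 * π * I * ((a * ν + c * (8 : ℕ) : ℤ) : ℂ) * h / (8 * ν : ℕ))) =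
      if a = ((ν * b) % 8).toNat then
        (J(-2 * h | ν) : ℂ) * eg ν * ((√(ν : ℝ) : ℝ) : ℂ) * w8 (-(ν * b * h)) else 0 := by
    intro a ha
    have ha8 := mem_range.1 ha
    obtain ⟨m, hm⟩ := hsq
    by_cases hab : a = ((ν * b) % 8).toNat
    · have h1 : (a : ℤ) = ν * b - 8 * (ν * b / 8) := by omega
      have h2 : ∀ c : ℕ, ((a : ℤ) * ν + c * (8 : ℕ)) % 8 = b % 8 := fun c => by
        have : (a : ℤ) * ν + c * (8 : ℕ) = b + 8 * (m * b - ν * b / 8 * ν + c) := by
          rw [h1]; push_cast; linear_combination b * hm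
        rw [this, Int.add_mul_emod_self_left]
      have h3 : w8 (-(ν * b * h)) = cexp (-(2 * π * I * a * h / 8)) := by
        rw [w8_congr (b := -(a * h)) ⟨-(ν * b / 8 * h), by rw [h1]; ring⟩, w8]
        congr 1
        push_cast
        ring
      have h4 : J(-2 * h | ν) = J(8 | ν) * J(-h | ν) := by
        have h5 : J(2 | ν) ^ 2 = 1 := jacobiSym.sq_one (Nat.coprime_two_left.2 ho)
        have h9 : J(8 | ν) = J(2 | ν) := by
          rw [show (8 : ℤ) = 2 ^ 2 * 2 by norm_num, jacobiSym.mul_left, jacobiSym.pow_left, h5,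
            one_mul]
        rw [h9, ← jacobiSym.mul_left]
        congr 1
        ring
      rw [if_pos hab, h3, h4]
      have h6 := pd_gsum ho hs h
      calc _ = (J(8 | ν) : ℂ) * cexp (-(2 * π * I * a * h / 8)) * ∑ c ∈ range ν,
            (J((c : ℤ) | ν) : ℂ) * cexp (-(2 * π * I * c * h / ν)) := by
            rw [mul_sum]
            refine sum_congr rfl fun c _ => ?_
            have h7 : J((a : ℤ) * ν + c * (8 : ℕ) | ν) = J(8 | ν) * J((c : ℤ) | ν) := by
              rw [← jacobiSym.mul_left]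
              apply jacobiSym.mod_left'
              rw [add_comm, Int.add_mul_emod_self_right, mul_comm]
              rfl
            have h8 : cexp (-(2 * π * I * ((a * ν + c * (8 : ℕ) : ℤ) : ℂ) * h / (8 * ν : ℕ))) =
                cexp (-(2 * π * I * a * h / 8)) * cexp (-(2 * π * I * c * h / ν)) := by
              rw [← Complex.exp_add]
              congr 1
              push_cast
              field_simp
              ring
            rw [Phi, if_pos (h2 c), h7, h8]
            push_cast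
            ring
        _ = _ := by rw [h6]; push_cast; ring
    · rw [if_neg hab]
      refine sum_eq_zero fun c _ => ?_
      rw [Phi, if_neg, zero_mul]
      intro hc
      apply hab
      have h1 : (8 : ℤ) ∣ (a : ℤ) * ν + c * (8 : ℕ) - b := by omega
      obtain ⟨d, hd⟩ := h1
      have h2 : (ν : ℤ) * b = a + 8 * (m * a + c * ν - d * ν) := by
        push_cast at hd
        linear_combination a * hm - ν * hd
      rw [h2, Int.add_mul_emod_self_left]
      omega
  rw [sum_congr rfl key, sum_ite_eq' , if_pos (mem_range.2 (by omega))]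

theorem pd_jmod {a : ℤ} (ha : 4 * a.natAbs ∣ 8) {ν : ℕ} (ho : Odd ν) : J(a | ν) = J(a | ν % 8) := by
  have h1 : Odd (ν % 8) := by rw [Nat.odd_iff] at ho ⊢; omega
  rw [jacobiSym.mod_right a ho, jacobiSym.mod_right a h1, Nat.mod_mod_of_dvd _ ha]

theorem pd_F4 {f : ℤ} (h : f ∈ F4) : f = 1 ∨ f = -1 ∨ f = 2 ∨ f = -2 := by simpa [F4] using h

theorem pd_sumF4 (g : ℤ → ℂ) : ∑ f ∈ F4, g f = g 1 + g (-1) + g 2 + g (-2) := by
  simp [F4, add_assoc]

theorem pd_sumN4 (g : ℕ → ℂ) : ∑ f ∈ N4, g f = g 1 + g 3 + g 5 + g 7 := by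
  simp [N4, add_assoc]

theorem pd_orth (a : ℕ → ℂ) {ν : ℕ} (h : ν = 1 ∨ ν = 3 ∨ ν = 5 ∨ ν = 7) :
    ∑ f ∈ F4, (1 / 4 * ∑ μ ∈ N4, a μ * (J(f | μ) : ℂ)) * (J(f | ν) : ℂ) = a ν := by
  simp only [pd_sumF4, pd_sumN4]
  rcases h with h | h | h | h <;> subst h <;> norm_num <;> ring

theorem pd_jio {f : ℤ} (k : ℤ) {p : ℕ} (hp : Odd p) : J(io f k | p) = J(f | p) * J(k | p) := by
  rw [← jacobiSym.mul_left]
  unfold io
  split_ifs with h
  · obtain ⟨⟨a, rfl⟩, ⟨b, rfl⟩⟩ := h
    have h5 : J(2 | p) ^ 2 = 1 := jacobiSym.sq_one (Nat.coprime_two_left.2 hp)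
    rw [show 2 * a * (2 * b) / 4 = a * b by
      rw [show 2 * a * (2 * b) = 4 * (a * b) by ring]; omega,
      show 2 * a * (2 * b) = 2 ^ 2 * (a * b) by ring, jacobiSym.mul_left (2 ^ 2),
      jacobiSym.pow_left, h5, one_mul]
  · rfl

theorem pCH8 : CH8 := by
  refine ⟨fun τ r k ν z hτ ho => ?_, fun f hf k hk => ?_, fun f hf k z n hn => ?_⟩
  · have h8 : ν % 8 = 1 ∨ ν % 8 = 3 ∨ ν % 8 = 5 ∨ ν % 8 = 7 := by
      rw [Nat.odd_iff] at ho; omega
    have e1 : Aq τ r ν k z = Aq τ r (ν % 8) k z := by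
      have a1 : (8 : ℤ) ∣ -(ν * τ * r * k) - -((ν % 8 : ℕ) * τ * r * k) :=
        ⟨-(ν / 8 * τ * r * k), by
          have : (ν : ℤ) = ν % 8 + 8 * (ν / 8) := by omega
          push_cast
          linear_combination (-(τ * r * k)) * this⟩
      have a2 : (8 : ℤ) ∣ 4 * -(ν * τ * r * k) - 4 * -((ν % 8 : ℕ) * τ * r * k) := by
        rw [← mul_sub]; exact a1.mul_left 4
      unfold Aq brk eg
      rw [Nat.mod_mod_of_dvd ν (by norm_num : 4 ∣ 8), w8_congr a1, w8_congr a2,
        pd_jmod (a := -2 * τ) (by rcases hτ with h | h <;> subst h <;> decide) ho]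
    rw [e1, ← pd_orth (fun μ => Aq τ r μ k z) h8]
    refine sum_congr rfl fun f hf => ?_
    rw [pd_jmod (a := f) (by rcases pd_F4 hf with h | h | h | h <;> subst h <;> decide) ho]
    rfl
  · have h4 : ¬ (2 * 2 : ℤ) ∣ k := fun h => by
      have := hk 2 h
      rw [Int.isUnit_iff] at this
      omega
    have hneg : ∀ m : ℤ, Squarefree m → Squarefree (-m) := fun m hm => by
      rw [← Int.squarefree_natAbs] at hm ⊢
      simpa using hm
    have h2 : ¬ 2 ∣ k → Squarefree (2 * k) := fun h => by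
      rw [squarefree_mul_iff]
      refine ⟨?_, Int.prime_two.squarefree, hk⟩
      exact (Int.prime_two.irreducible.isRelPrime_iff_not_dvd).2 h
    unfold io
    rcases pd_F4 hf with h | h | h | h <;> subst h
    · simpa using hk
    · simpa using hneg k hk
    · by_cases h : 2 ∣ k
      · obtain ⟨b, rfl⟩ := h
        have e : 2 * (2 * b) / 4 = b := by omega
        have hb : ¬ 2 ∣ b := by omega
        simp only [dvd_refl, dvd_mul_right, and_self, if_true, e, hb, and_false, if_false]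
        exact ⟨hk.of_mul_right, trivial⟩
      · simp only [h, and_false, if_false, dvd_refl, dvd_mul_right, and_self, if_true]
        exact ⟨h2 h, by omega⟩
    · by_cases h : 2 ∣ k
      · obtain ⟨b, rfl⟩ := h
        have e : -2 * (2 * b) / 4 = -b := by omega
        have hb : ¬ 2 ∣ -b := by omega
        have h3 : (2 : ℤ) ∣ -2 := by decide
        simp only [h3, dvd_mul_right, and_self, if_true, e, hb, and_false, if_false]
        exact ⟨hneg b hk.of_mul_right, by ring⟩
      · have h3 : (2 : ℤ) ∣ -2 := by decide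
        have h5 : (2 : ℤ) ∣ -2 * k := h3.mul_right k
        simp only [h, and_false, if_false, h3, h5, and_self, if_true]
        exact ⟨by simpa using hneg _ (h2 h), by omega⟩
  · have hop : ∀ p ∈ n.primeFactors, Odd p := fun p hp =>
      hn.of_dvd_nat (Nat.dvd_of_mem_primeFactors hp)
    have hd : ∀ p ∈ n.primeFactors, ((p : ℤ) ∣ io f k ↔ (p : ℤ) ∣ k) := fun p hp => by
      have hpp := Nat.prime_of_mem_primeFactors hp
      have hne : J(f | p) ≠ 0 := by
        rw [Ne, Po.jac_prime_eq_zero hpp]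
        intro h
        have h2 : p ∣ 2 := by
          have := Int.natCast_dvd.1 h
          rcases pd_F4 hf with h | h | h | h <;> subst h
          · exact this.trans (by decide)
          · exact this.trans (by decide)
          · exact this
          · exact this
        have := (Nat.prime_dvd_prime_iff_eq hpp Nat.prime_two).1 h2
        subst this
        exact absurd (hop 2 hp) (by decide)
      rw [← Po.jac_prime_eq_zero hpp, ← Po.jac_prime_eq_zero hpp, pd_jio k (hop p hp)]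
      simp [hne]
    unfold Tk n0
    rw [Po.jac_prod f _ (fun p => p) fun p hp =>
      (Nat.prime_of_mem_primeFactors (mem_filter.1 hp).1).ne_zero, prod_filter]
    push_cast
    rw [← prod_mul_distrib]
    refine prod_congr rfl fun p hp => ?_
    split_ifs
    · unfold ok
      rw [pd_jio k (hop p hp)]
      push_cast
      ring
    · unfold ek
      simp only [hd p hp, one_mul]

end Pool.Agent.Q4
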