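import Pool.Agent.P.MP_ea46f5_nt.Q4.PDa
import Pool.Agent.P.MP_ea46f5_nt.QM.Gam

/-! Dirichlet series of periodic functions; the kernel. -/

namespace Pool.Agent.Q4

open Complex MeasureTheory Finset Pool.Agent.QM Filter Topology
open scoped Real ComplexConjugate ZMod

theorem per_abel (a : ℕ → ℂ) (B : ℝ) (F : ℂ → ℂ) (hB : ∀ n, ‖∑ k ∈ Icc 1 n, a k‖ ≤ B)
    (hF : Differentiable ℂ F) (hs : ∀ s : ℂ, 1 < s.re → LSeriesSummable a s ∧ F s = LSeries a s)
    {s : ℂ} (h0 : 0 < s.re) : ‖F s‖ ≤ ‖s‖ * B / s.re := by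
  set A : ℕ → ℂ := fun n => ∑ k ∈ Icc 1 n, a k with hA
  have hsm : ∀ t : ℝ, t < 1 → A ⌊t⌋₊ = 0 := fun t ht => by
    rw [Nat.floor_eq_zero.2 ht]; simp [hA]
  have hme : ∀ s : ℂ, mellin (fun t : ℝ => A ⌊t⌋₊) (-s) =
      ∫ t in Set.Ioi (1 : ℝ), A ⌊t⌋₊ * (t : ℂ) ^ (-(s + 1)) := fun s => by
    rw [← integral_Ici_eq_integral_Ioi]
    unfold mellin
    rw [setIntegral_eq_of_subset_of_forall_sdiff_eq_zero (s := Set.Ici (1 : ℝ)) measurableSet_Ioi
      (Set.Ici_subset_Ioi.2 zero_lt_one)]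
    · refine setIntegral_congr_fun measurableSet_Ici fun t _ => ?_
      simp only [smul_eq_mul]
      rw [mul_comm, neg_add', sub_eq_add_neg]
    · intro x hx
      simp only [hsm x (not_le.1 hx.2), smul_zero]
  have hd : ∀ w : ℂ, w.re < 0 → DifferentiableAt ℂ (mellin fun t : ℝ => A ⌊t⌋₊) w := fun w hw => by
    have hm : Measurable fun t : ℝ => A ⌊t⌋₊ :=
      (measurable_of_countable A).comp Nat.measurable_floor
    refine mellin_differentiableAt_of_isBigO_rpow (a := 0) (b := w.re - 1) ?_ ?_ hw ?_ (by linarith)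
    · refine LocallyIntegrable.locallyIntegrableOn ?_ _
      refine (locallyIntegrable_const B).mono hm.aestronglyMeasurable
        (Eventually.of_forall fun t => ?_)
      exact (hB _).trans (le_abs_self _)
    · refine Asymptotics.IsBigO.of_bound B (Eventually.of_forall fun t => ?_)
      simpa using hB ⌊t⌋₊
    · refine Asymptotics.IsBigO.of_bound 0 ?_
      filter_upwards [mem_nhdsWithin_of_mem_nhds (Iio_mem_nhds zero_lt_one)] with t ht
      rw [hsm t ht]
      simp
  have hU : IsOpen {z : ℂ | 0 < z.re} := isOpen_lt continuous_const Complex.continuous_re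
  have h2 : AnalyticOnNhd ℂ (fun z : ℂ => z * mellin (fun t : ℝ => A ⌊t⌋₊) (-z))
      {z : ℂ | 0 < z.re} := by
    refine DifferentiableOn.analyticOnNhd (fun z hz => ?_) hU
    have h3 : (-z).re < 0 := by
      rw [Complex.neg_re]
      exact neg_neg_of_pos hz
    exact (differentiableAt_id.mul
      ((hd _ h3).comp z differentiableAt_id.neg)).differentiableWithinAt
  have h4 : (2 : ℂ) ∈ {z : ℂ | 0 < z.re} := by simp
  have hr : F s = s * mellin (fun t : ℝ => A ⌊t⌋₊) (-s) := by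
    refine (hF.differentiableOn.analyticOnNhd hU).eqOn_of_preconnected_of_eventuallyEq h2
      (convex_halfSpace_re_gt 0).isPreconnected h4 ?_ h0
    have h5 : {z : ℂ | 1 < z.re} ∈ 𝓝 (2 : ℂ) :=
      (isOpen_lt continuous_const Complex.continuous_re).mem_nhds (by simp)
    filter_upwards [h5] with z hz
    rw [(hs z hz).2, hme]
    refine LSeries_eq_mul_integral _ le_rfl (zero_lt_one.trans hz) (hs z hz).1 ?_
    refine Asymptotics.IsBigO.of_bound B (Eventually.of_forall fun n => ?_)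
    simpa using hB n
  have ha : -1 - s.re < -1 := by linarith
  rw [hr, hme, norm_mul, mul_div_assoc]
  refine mul_le_mul_of_nonneg_left ?_ (norm_nonneg _)
  have h6 : ∫ t in Set.Ioi (1 : ℝ), B * t ^ (-1 - s.re) = B / s.re := by
    rw [integral_const_mul, integral_Ioi_rpow_of_lt ha zero_lt_one, Real.one_rpow,
      show -1 - s.re + 1 = -s.re by ring, neg_div_neg_eq, mul_one_div]
  rw [← h6]
  refine norm_integral_le_of_norm_le
    ((integrableOn_Ioi_rpow_of_lt ha zero_lt_one).const_mul _) ?_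
  filter_upwards [ae_restrict_mem measurableSet_Ioi] with t ht
  have ht0 : 0 < t := zero_lt_one.trans ht
  rw [norm_mul, Complex.norm_cpow_eq_rpow_re_of_pos ht0,
    show (-(s + 1)).re = -1 - s.re by simp; ring]
  exact mul_le_mul_of_nonneg_right (hB _) (Real.rpow_nonneg ht0.le _)

theorem per_bdd {N : ℕ} [NeZero N] (Φ : ZMod N → ℂ) (h : ∑ j, Φ j = 0) :
    ∃ B : ℝ, 0 ≤ B ∧ ∀ n : ℕ, ‖∑ k ∈ Icc 1 n, Φ k‖ ≤ B := by
  set A : ℕ → ℂ := fun n => ∑ k ∈ Icc 1 n, Φ k with hA
  have h1 : ∀ n, A (n + 1) = A n + Φ ((n + 1 : ℕ) : ZMod N) := fun n => by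
    simp only [hA]
    rw [sum_Icc_succ_top (by omega)]
  have h2 : ∀ n : ℕ, A n + Φ ((0 : ℕ) : ZMod N) = ∑ k ∈ range n, Φ k + Φ n := by
    intro n
    induction n with
    | zero => simp [hA]
    | succ n ih => rw [h1, sum_range_succ, ← ih]; ring
  have h3 : A N = 0 := by
    have h4 := h2 N
    have h5 := pd_sum_zmod N fun x => Φ x
    simp only [Int.cast_natCast, ZMod.natCast_zmod_val] at h5
    rw [h5, h, ZMod.natCast_self, Nat.cast_zero] at h4
    exact add_right_cancel h4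
  have h6 : ∀ n, A (n + N) = A n := by
    intro n
    induction n with
    | zero => rw [zero_add, h3]; simp [hA]
    | succ n ih =>
      rw [Nat.add_right_comm, h1, h1, ih]
      congr 2
      push_cast
      rw [ZMod.natCast_self, add_zero]
  refine ⟨∑ m ∈ range N, ‖A m‖, by positivity, fun n => ?_⟩
  induction n using Nat.strong_induction_on with
  | _ n ih =>
    by_cases hn : n < N
    · exact single_le_sum (f := fun m => ‖A m‖) (fun _ _ => norm_nonneg _) (mem_range.2 hn)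
    · have hq := NeZero.pos N
      have e : n = n - N + N := by omega
      change ‖A n‖ ≤ _
      rw [e, h6]
      exact ih _ (by omega)

theorem per_ent (hZT : ZT) {N : ℕ} [NeZero N] (Φ : ZMod N → ℂ) :
    ∃ (g : ℂ → ℂ) (C : ℝ), 0 ≤ C ∧ Differentiable ℂ g ∧ g 1 = (∑ j, Φ j) / N ∧
      (∀ u, u ≠ 1 → g u = (u - 1) * ZMod.LFunction Φ u) ∧
      ∀ u : ℂ, 1 / 4 ≤ u.re → u.re ≤ 2 → ‖g u‖ ≤ C * br u.im ^ 2 := by
  have hN : (N : ℂ) ≠ 0 := NeZero.ne _
  set m : ℂ := (∑ j, Φ j) / N with hm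
  have h0 : ∑ j, (Φ j - m) = 0 := by
    rw [sum_sub_distrib, sum_const, card_univ, ZMod.card, nsmul_eq_mul, hm, mul_div_cancel₀ _ hN,
      sub_self]
  obtain ⟨B, hB0, hB⟩ := per_bdd (fun j => Φ j - m) h0
  obtain ⟨C, hC, H⟩ := hZT.2.2
  have hd := ZMod.differentiable_LFunction_of_sum_zero h0
  have hg : Differentiable ℂ fun u => (u - 1) * ZMod.LFunction (fun j => Φ j - m) u +
      m * riemannZeta₁ u :=
    ((differentiable_id.sub_const 1).mul hd).add (differentiable_riemannZeta₁.const_mul m)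
  refine ⟨_, 16 * B + ‖m‖ * C, by positivity, hg, by simp, fun u hu => ?_, fun u h1 h2 => ?_⟩
  · have hU : IsOpen ({1}ᶜ : Set ℂ) := isOpen_compl_singleton
    have h2 : AnalyticOnNhd ℂ (fun u => (u - 1) * ZMod.LFunction Φ u) ({1}ᶜ : Set ℂ) :=
      DifferentiableOn.analyticOnNhd (fun z hz => ((differentiableAt_id.sub_const 1).mul
        (ZMod.differentiableAt_LFunction Φ z (Or.inl hz))).differentiableWithinAt) hU
    refine (hg.differentiableOn.analyticOnNhd hU).eqOn_of_preconnected_of_eventuallyEq h2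
      (isConnected_compl_singleton_of_one_lt_rank (by simp) 1).isPreconnected
      (z₀ := 2) (by norm_num) ?_ hu
    have h5 : {z : ℂ | 1 < z.re} ∈ 𝓝 (2 : ℂ) :=
      (isOpen_lt continuous_const Complex.continuous_re).mem_nhds (by simp)
    filter_upwards [h5] with z hz
    have hz1 : z ≠ 1 := by rintro rfl; simp at hz
    have h6 := ((ZMod.LSeriesSummable_of_one_lt_re (fun j => Φ j - m) hz).LSeriesHasSum.add
      ((LSeriesHasSum_one hz).smul m)).LSeries_eq
    have h7 : ((fun n : ℕ => Φ n - m) + m • (1 : ℕ → ℂ)) = fun n : ℕ => Φ n := by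
      funext n; simp
    rw [h7] at h6
    rw [ZMod.LFunction_eq_LSeries _ hz, ZMod.LFunction_eq_LSeries _ hz, h6,
      riemannZeta_eq_inv_sub_mul hz1]
    have : z - 1 ≠ 0 := sub_ne_zero.2 hz1
    field_simp
  · have h3 := per_abel (fun n => Φ n - m) B _ hB hd (fun s hs =>
      ⟨ZMod.LSeriesSummable_of_one_lt_re (fun j => Φ j - m) hs, ZMod.LFunction_eq_LSeries _ hs⟩)
      (s := u) (by linarith)
    have hb : 1 ≤ br u.im := by unfold br; linarith [abs_nonneg u.im]
    have h4 : ‖u‖ ≤ 2 * br u.im := (norm_le_abs_re_add_abs_im u).trans (by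
      unfold br; rw [abs_of_nonneg (by linarith)]; linarith [abs_nonneg u.im])
    have h5 : ‖u - 1‖ ≤ br u.im := (norm_le_abs_re_add_abs_im _).trans (by
      have : |u.re - 1| ≤ 1 := abs_le.2 ⟨by linarith, by linarith⟩
      unfold br; simpa using this)
    have h6 : ‖u‖ * B / u.re ≤ 8 * br u.im * B := by
      rw [div_le_iff₀ (by linarith)]
      have := mul_le_mul_of_nonneg_right h4 hB0
      have h7 : 0 ≤ br u.im * B := by positivity
      nlinarith
    refine (norm_add_le _ _).trans ?_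
    rw [norm_mul, norm_mul]
    have h8 := mul_le_mul h5 (h3.trans h6) (norm_nonneg _) (by linarith)
    have h9 := mul_le_mul_of_nonneg_left (H u h1 (by linarith)) (norm_nonneg m)
    have h7 : 0 ≤ br u.im ^ 2 * B := by positivity
    nlinarith

theorem norm_ph (h : ℤ) (z : ℂ) : ‖ph h z‖ ≤ Real.exp (π * |z.im| / 2) := by
  unfold ph
  rw [norm_exp]
  refine Real.exp_le_exp.2 ?_
  have h1 := le_abs_self z.im
  have h2 := neg_abs_le z.im
  have h3 := Real.pi_pos
  rcases Int.sign_trichotomy h with e | e | e <;> rw [e] <;> simp <;> nlinarith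

theorem gam_ph (N : ℕ) (h : ℤ) {w z : ℂ} (e : w.im = z.im) (h0 : 1 / 8 ≤ w.re) (h1 : w.re ≤ N) :
    ‖Gamma w‖ * ‖ph h z‖ ≤ 24 * (N + 2).factorial * br z.im ^ (N + 2) := by
  refine (mul_le_mul (Gm.gam_upper N h0 h1) (norm_ph h z) (norm_nonneg _) (by positivity)).trans ?_
  rw [mul_assoc _ (Real.exp _), ← Real.exp_add, e,
    show -π * |z.im| / 2 + π * |z.im| / 2 = 0 by ring, Real.exp_zero, mul_one]
  rfl

theorem per_ft {N : ℕ} [NeZero N] (f : ℤ → ℂ) (h : ℤ) :
    ZMod.dft (fun a : ZMod N => f a.val) (h : ZMod N) = ft N f h := by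
  rw [ZMod.dft_apply, ft]
  refine Eq.trans ?_ (pd_sum_zmod N fun x => f x * cexp (-(2 * π * I * x * h / N))).symm
  refine sum_congr rfl fun a _ => ?_
  have e : -(a * (h : ZMod N)) = ((-(a.val * h) : ℤ) : ZMod N) := by push_cast; simp
  rw [e, ZMod.stdAddChar_coe, smul_eq_mul, mul_comm]
  congr 2
  push_cast
  ring

theorem per_sum {N : ℕ} [NeZero N] (Φ : ZMod N → ℂ) {u : ℂ} (hu : 1 < u.re) :
    HasSum (fun m : ℕ => if m = 0 then 0 else Φ m * (m : ℂ) ^ (-u)) (ZMod.LFunction Φ u) := by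
  rw [ZMod.LFunction_eq_LSeries _ hu]
  refine (ZMod.LSeriesSummable_of_one_lt_re Φ hu).LSeriesHasSum.congr_fun fun m => ?_
  rw [LSeries.term_def, cpow_neg, div_eq_mul_inv]

theorem pPER (hZT : ZT) : PER := by
  intro N f hN hf
  have : NeZero N := ⟨hN⟩
  set Φ : ZMod N → ℂ := fun a => f a.val with hΦ
  obtain ⟨g, C, hC, hg, hg1, e, hb⟩ := per_ent hZT Φ
  obtain ⟨g1, C1, hC1, -, -, e1, hb1⟩ := per_ent hZT (ZMod.dft Φ)
  obtain ⟨g2, C2, hC2, -, -, e2, hb2⟩ := per_ent hZT (ZMod.dft fun x => Φ (-x))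
  obtain ⟨C3, hC3⟩ := (isCompact_closedBall (0 : ℂ) 3).exists_bound_of_continuousOn
    hg.continuous.continuousOn
  have hC3' : 0 ≤ C3 := (norm_nonneg _).trans (hC3 0 (by simp))
  have hN1 : (1 : ℝ) ≤ N := by exact_mod_cast Nat.pos_of_ne_zero hN
  have hbr : ∀ t : ℝ, 1 ≤ br t := fun t => by unfold br; linarith [abs_nonneg t]
  have hne : ∀ z : ℂ, 0 < z.re → ∀ n : ℕ, z ≠ -n := fun z hz n h => by
    rw [h] at hz
    simp at hz
    linarith [Nat.cast_nonneg (α := ℝ) n]
  refine ⟨g, C + C3 + 2 * N * (24 * (2 + 2).factorial) * (C1 + C2), hg, ?_, fun u hu => ?_,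
    fun u hu => ?_, fun z hz => ?_⟩
  · rw [hg1, ← per_ft, Int.cast_zero, ZMod.dft_apply_zero]
  · obtain ⟨h1, h2⟩ := hu
    have hb6 : ∀ n, n ≤ 6 → br u.im ^ n ≤ br u.im ^ 6 := fun n hn => pow_le_pow_right₀ (hbr _) hn
    have hp : 0 ≤ br u.im ^ 6 := by have := hbr u.im; positivity
    have hK : 0 ≤ 2 * N * (24 * ((2 + 2).factorial : ℝ)) * (C1 + C2) := by positivity
    by_cases h3 : 1 / 4 ≤ u.re
    · have := (hb u h3 h2).trans (mul_le_mul_of_nonneg_left (hb6 2 (by norm_num)) hC)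
      nlinarith
    by_cases h4 : |u.im| ≤ 1
    · have h5 := hC3 u (by
        rw [mem_closedBall_zero_iff]
        refine (norm_le_abs_re_add_abs_im u).trans ?_
        have : |u.re| ≤ 2 := abs_le.2 ⟨by linarith, h2⟩
        linarith)
      have := hb6 0 (by norm_num)
      nlinarith
    push Not at h3 h4
    obtain ⟨z, rfl⟩ : ∃ z, u = 1 - z := ⟨1 - u, by ring⟩
    simp only [sub_re, one_re, sub_im, one_im, zero_sub, abs_neg] at h1 h2 h3 h4
    have hbz : br (1 - z).im = br z.im := by simp [br]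
    rw [hbz] at hp ⊢
    have hz1 : 1 ≤ ‖z - 1‖ := le_trans (by simpa using h4.le) (abs_im_le_norm _)
    have hz2 : z - 1 ≠ 0 := norm_pos_iff.1 (by linarith)
    have hz3 : z ≠ 1 := sub_ne_zero.1 hz2
    have hz0 : 1 - z ≠ 1 := fun h => by
      have : z = 0 := by linear_combination -h
      rw [this] at h3; simp at h3; linarith
    have hz4 : ‖z‖ ≤ 2 * ‖z - 1‖ := by
      have := norm_add_le (z - 1) 1
      rw [sub_add_cancel, norm_one] at this
      linarith
    have key : g (1 - z) = -(z / (z - 1)) * ((N : ℂ) ^ (z - 1) * (2 * π : ℂ) ^ (-z)) *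
        (Gamma z * ph 1 z * g1 z + Gamma z * ph (-1) z * g2 z) := by
      rw [e _ hz0, ZMod.LFunction_one_sub Φ (hne z (by linarith)) (Or.inr hz3), e1 z hz3, e2 z hz3]
      simp only [ph, Int.sign_one, Int.sign_neg_one]
      push_cast
      rw [show π * I * z * -1 / 2 = -π * I * z / 2 by ring, mul_one]
      field_simp
      ring
    have a1 : ‖-(z / (z - 1))‖ ≤ 2 := by
      rw [norm_neg, norm_div, div_le_iff₀ (by linarith)]; exact hz4
    have a2 : ‖(N : ℂ) ^ (z - 1) * (2 * π : ℂ) ^ (-z)‖ ≤ N := by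
      rw [norm_mul, norm_natCast_cpow_of_pos (Nat.pos_of_ne_zero hN),
        show (2 * π : ℂ) = ((2 * π : ℝ) : ℂ) by push_cast; rfl,
        norm_cpow_eq_rpow_re_of_pos (by positivity)]
      have b1 : (N : ℝ) ^ (z - 1).re ≤ N := by
        conv_rhs => rw [← Real.rpow_one N]
        exact Real.rpow_le_rpow_of_exponent_le hN1 (by simp; linarith)
      have b2 : (2 * π) ^ (-z).re ≤ 1 :=
        Real.rpow_le_one_of_one_le_of_nonpos (by linarith [Real.pi_gt_three]) (by simp; linarith)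
      calc _ ≤ (N : ℝ) * 1 := mul_le_mul b1 b2 (by positivity) (by positivity)
        _ = _ := mul_one _
    have a3 : ∀ (h : ℤ) (w : ℂ) (D : ℝ), ‖w‖ ≤ D * br z.im ^ 2 →
        ‖Gamma z * ph h z * w‖ ≤ 24 * (2 + 2).factorial * D * br z.im ^ 6 := fun h w D hw => by
      rw [norm_mul, norm_mul]
      refine (mul_le_mul (gam_ph 2 h rfl (by linarith) (by push_cast; linarith)) hw (norm_nonneg _)
        (by have := hbr z.im; positivity)).trans (le_of_eq ?_)
      ring
    have a4 := (norm_add_le _ _).trans (add_le_add (a3 1 _ _ (hb1 z (by linarith) (by linarith)))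
      (a3 (-1) _ _ (hb2 z (by linarith) (by linarith))))
    rw [key, norm_mul, norm_mul]
    have a5 := mul_le_mul (mul_le_mul a1 a2 (norm_nonneg _) (by norm_num)) a4 (norm_nonneg _)
      (by positivity)
    refine a5.trans ?_
    nlinarith
  · have hu1 : u ≠ 1 := by rintro rfl; simp at hu
    rw [e u hu1, mul_div_cancel_left₀ _ (sub_ne_zero.2 hu1)]
    refine (per_sum Φ hu).congr_fun fun m => ?_
    have := pd_val hf (m : ℤ)
    rw [Int.cast_natCast] at this
    simp only [hΦ, this]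
  · have hz3 : z ≠ 1 := by rintro rfl; simp at hz
    have hz5 : z ≠ 0 := by rintro rfl; simp at hz; linarith
    have hz0 : 1 - z ≠ 1 := fun h => hz5 (by linear_combination -h)
    set K : ℂ := (N : ℂ) ^ (z - 1) * (2 * π : ℂ) ^ (-z) * Gamma z with hK
    have s1 := (per_sum (ZMod.dft Φ) hz).mul_left (K * ph 1 z)
    have s2 := (per_sum (ZMod.dft fun x => Φ (-x)) hz).mul_left (K * ph (-1) z)
    have s3 := HasSum.of_nat_of_neg (f := fun h : ℤ => if h = 0 then 0 else
      K * ph h z * ft N f h * ((|(h : ℝ)| : ℝ) : ℂ) ^ (-z)) (s1.congr_fun fun m => by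
        by_cases hm : m = 0
        · simp [hm]
        · have h1 : ph (m : ℤ) z = ph 1 z := by
            unfold ph
            rw [Int.sign_eq_one_of_pos (by omega), Int.sign_one]
          rw [if_neg hm, if_neg (by omega), h1, ← per_ft, Int.cast_natCast, Int.cast_natCast,
            Nat.abs_cast, ofReal_natCast]
          ring) (s2.congr_fun fun m => by
        by_cases hm : m = 0
        · simp [hm]
        · have h1 : ph (-(m : ℤ)) z = ph (-1) z := by
            unfold ph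
            rw [Int.sign_eq_neg_one_of_neg (by omega), Int.sign_neg_one]
          rw [if_neg hm, if_neg (by omega), h1, ← per_ft, ZMod.dft_comp_neg, Int.cast_neg,
            Int.cast_neg, abs_neg, Int.cast_natCast, Int.cast_natCast, Nat.abs_cast, ofReal_natCast]
          ring)
    rw [if_pos rfl, sub_zero] at s3
    have key : g (1 - z) / -z = K * ph 1 z * ZMod.LFunction (ZMod.dft Φ) z +
        K * ph (-1) z * ZMod.LFunction (ZMod.dft fun x => Φ (-x)) z := by
      rw [e _ hz0, ZMod.LFunction_one_sub Φ (hne z (by linarith)) (Or.inr hz3)]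
      simp only [ph, Int.sign_one, Int.sign_neg_one, hK]
      push_cast
      rw [show π * I * z * -1 / 2 = -π * I * z / 2 by ring, mul_one]
      field_simp
      ring
    rw [key]
    exact s3

theorem norm_brk (c : ℤ) {z : ℂ} (h : -(1 / 2) ≤ z.re) : ‖brk c z‖ ≤ 65 := by
  have a : ∀ b : ℕ, 1 ≤ b → b ≤ 16 → ‖(b : ℂ) ^ (-z)‖ ≤ 16 := fun b h1 h2 => by
    rw [norm_natCast_cpow_of_pos h1]
    have b1 : (1 : ℝ) ≤ b := by exact_mod_cast h1
    have b2 : (b : ℝ) ≤ 16 := by exact_mod_cast h2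
    calc _ ≤ (b : ℝ) ^ (1 : ℝ) := Real.rpow_le_rpow_of_exponent_le b1 (by simp; linarith)
      _ ≤ _ := by rwa [Real.rpow_one]
  have a4 := a 4 (by norm_num) (by norm_num)
  have a16 := a 16 (by norm_num) le_rfl
  push_cast at a4 a16
  have b1 : ‖w8 (4 * c) - w8 c‖ ≤ 2 := (norm_sub_le _ _).trans (by rw [norm_w8, norm_w8]; norm_num)
  have b2 : ‖1 - w8 (4 * c)‖ ≤ 2 := (norm_sub_le _ _).trans (by rw [norm_w8, norm_one]; norm_num)
  unfold brk
  refine norm_add₃_le.trans ?_
  rw [norm_w8, norm_mul, norm_mul]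
  have c1 := mul_le_mul b1 a4 (norm_nonneg _) (by norm_num)
  have c2 := mul_le_mul b2 a16 (norm_nonneg _) (by norm_num)
  linarith

theorem norm_eg (n : ℕ) : ‖eg n‖ = 1 := by
  unfold eg
  split_ifs <;> simp

theorem norm_cf (τ r f k : ℤ) {z : ℂ} (h : -(1 / 2) ≤ z.re) : ‖cf τ r f k z‖ ≤ 65 := by
  have a : ∀ ν : ℕ, ‖Aq τ r ν k z * (jacobiSym f ν : ℂ)‖ ≤ 65 := fun ν => by
    rw [Aq, norm_mul, norm_mul, norm_mul, norm_eg, one_mul]
    have b1 := mul_le_mul (Po.norm_jac_le (-2 * τ) ν) (norm_brk (-(ν * τ * r * k)) h)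
      (norm_nonneg _) zero_le_one
    have b2 := mul_le_mul b1 (Po.norm_jac_le f ν) (norm_nonneg _) (by norm_num)
    linarith
  rw [cf, norm_mul, pd_sumN4]
  have := (norm_add_le _ _).trans (add_le_add (norm_add₃_le.trans
    (add_le_add (add_le_add (a 1) (a 3)) (a 5))) (a 7))
  have e : ‖(1 / 4 : ℂ)‖ = 1 / 4 := by simp
  rw [e]
  linarith

theorem io_ratio {f : ℤ} (hf : f ∈ F4) {κ : ℤ} (hκ : κ ≠ 0) :
    1 / 2 ≤ |(io f κ : ℝ)| / |(κ : ℝ)| ∧ |(io f κ : ℝ)| / |(κ : ℝ)| ≤ 2 := by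
  have h0 : 0 < |(κ : ℝ)| := abs_pos.2 (by exact_mod_cast hκ)
  have h1 : |κ| ≤ 2 * |io f κ| ∧ |io f κ| ≤ 2 * |κ| := by
    unfold io
    rcases pd_F4 hf with h | h | h | h <;> subst h <;> split_ifs <;>
      simp only [abs_eq_max_neg] <;> omega
  rw [le_div_iff₀ h0, div_le_iff₀ h0]
  have h2 : |(κ : ℝ)| ≤ 2 * |(io f κ : ℝ)| := by exact_mod_cast h1.1
  have h3 : |(io f κ : ℝ)| ≤ 2 * |(κ : ℝ)| := by exact_mod_cast h1.2
  constructor <;> linarith

theorem pKAx : KAx := by
  intro τ r _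
  refine ⟨8 ^ 7 * 8 ^ 7 * (4 * (24 * (8 + 2).factorial * 2 ^ 7 * 65)), by positivity,
    fun κ hκ z hz => ?_, fun κ z hκ h1 h2 => ?_, ?_⟩
  · have c : ∀ x : ℂ, x ≠ 0 → DifferentiableAt ℂ (fun z : ℂ => x ^ (-z)) z := fun x hx =>
      differentiableAt_id.neg.const_cpow (Or.inl hx)
    have c4 := c 4 (by norm_num)
    have c16 := c 16 (by norm_num)
    have hG : DifferentiableAt ℂ (fun z : ℂ => Gamma (z + 1)) z :=
      (differentiableAt_Gamma _ fun m h => by
        have := congrArg re h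
        simp at this hz
        linarith [Nat.cast_nonneg (α := ℝ) m]).comp z (differentiableAt_id.add_const 1)
    refine DifferentiableAt.differentiableWithinAt ?_
    unfold EG
    refine ((hG.mul (c _ (by simp))).mul
      ((differentiableAt_id.sub_const 1).const_cpow (Or.inl (by norm_num)))).mul ?_
    refine DifferentiableAt.fun_sum fun f hf =>
      DifferentiableAt.mul (DifferentiableAt.mul ?_ (c _ ?_)) ?_
    · unfold ph; fun_prop
    · have := (io_ratio hf hκ).1
      exact ofReal_ne_zero.2 (by linarith)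
    · unfold cf Aq brk
      fun_prop
  · have a1 : ‖(2 * π : ℂ) ^ (-z)‖ ≤ 8 ^ 7 := by
      rw [show (2 * π : ℂ) = ((2 * π : ℝ) : ℂ) by push_cast; rfl,
        norm_cpow_eq_rpow_re_of_pos (by positivity)]
      calc _ ≤ (2 * π) ^ (1 : ℝ) := Real.rpow_le_rpow_of_exponent_le
            (by linarith [Real.pi_gt_three]) (by simp; linarith)
        _ ≤ _ := by rw [Real.rpow_one]; linarith [Real.pi_le_four]
    have a2 : ‖(8 : ℂ) ^ (z - 1)‖ ≤ 8 ^ 7 := by
      have := norm_natCast_cpow_of_pos (n := 8) (by norm_num) (z - 1)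
      push_cast at this
      rw [this]
      calc _ ≤ (8 : ℝ) ^ ((7 : ℕ) : ℝ) := Real.rpow_le_rpow_of_exponent_le
            (by norm_num) (by simp; linarith)
        _ = _ := Real.rpow_natCast _ _
    have hb : 0 ≤ br z.im := by unfold br; positivity
    have a3 : ∀ f ∈ F4, ‖Gamma (z + 1) * (ph (io f κ) z *
        ((|(io f κ : ℝ)| / |(κ : ℝ)| : ℝ) : ℂ) ^ (-z) * cf τ r f (io f κ) z)‖ ≤
        24 * (8 + 2).factorial * 2 ^ 7 * 65 * br z.im ^ 10 := fun f hf => by
      obtain ⟨b1, b2⟩ := io_ratio hf hκ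
      set x := |(io f κ : ℝ)| / |(κ : ℝ)|
      have b3 : ‖(x : ℂ) ^ (-z)‖ ≤ 2 ^ 7 := by
        rw [norm_cpow_eq_rpow_re_of_pos (by linarith), neg_re]
        by_cases h : 0 ≤ z.re
        · calc x ^ (-z.re) ≤ (1 / 2) ^ (-z.re) :=
                Real.rpow_le_rpow_of_nonpos (by norm_num) b1 (by linarith)
            _ = 2 ^ z.re := by rw [one_div, Real.inv_rpow (by norm_num), Real.rpow_neg (by norm_num),
                inv_inv]
            _ ≤ 2 ^ ((7 : ℕ) : ℝ) := Real.rpow_le_rpow_of_exponent_le (by norm_num) (by simpa using h2)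
            _ = _ := Real.rpow_natCast _ _
        · calc x ^ (-z.re) ≤ 2 ^ (-z.re) := Real.rpow_le_rpow (by linarith) b2 (by linarith)
            _ ≤ 2 ^ ((7 : ℕ) : ℝ) :=
                Real.rpow_le_rpow_of_exponent_le (by norm_num) (by push_cast; linarith)
            _ = _ := Real.rpow_natCast _ _
      have b4 := gam_ph 8 (io f κ) (w := z + 1) (z := z) (by simp) (by simp; linarith)
        (by simp; linarith)
      rw [norm_mul, norm_mul, norm_mul, ← mul_assoc, ← mul_assoc]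
      refine (mul_le_mul (mul_le_mul b4 b3 (norm_nonneg _) (by positivity))
        (norm_cf τ r f _ h1) (norm_nonneg _) (by positivity)).trans (le_of_eq ?_)
      ring
    have a4 := (norm_sum_le _ _).trans (sum_le_card_nsmul _ _ _ a3)
    rw [← mul_sum, show F4.card = 4 from rfl, nsmul_eq_mul] at a4
    rw [EG, show ∀ a b c d : ℂ, a * b * c * d = b * c * (a * d) by intros; ring, norm_mul, norm_mul]
    refine (mul_le_mul (mul_le_mul a1 a2 (norm_nonneg _) (by positivity)) a4 (norm_nonneg _)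
      (by positivity)).trans (le_of_eq ?_)
    push_cast
    ring
  · have e : ∀ f k, cf τ r f k 0 =
        (1 / 4 * ∑ μ ∈ N4, eg μ * (jacobiSym (-2 * τ) μ : ℂ) * (jacobiSym f μ : ℂ)) *
          (jacobiSym f 1 : ℂ) := fun f k => by
      simp [cf, Aq, brk]
    have e2 := pd_orth (fun μ => eg μ * (jacobiSym (-2 * τ) μ : ℂ)) (ν := 1) (Or.inl rfl)
    simp only [EG, ph, e, zero_add, Gamma_one, neg_zero, cpow_zero, mul_zero, zero_mul, zero_div,
      Complex.exp_zero, one_mul, e2, zero_sub, cpow_neg_one]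
    simp [eg]

end Pool.Agent.Q4
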